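import Pool.Agent.NQ.Defs

/-!
# NQ-APhi: elementary properties of `phi u = u + (1 - u) log (1 - u)`

All from `Real.log_le_sub_one_of_pos` (`log x ≤ x - 1`): the tangent inequality, from which
monotonicity, convexity and the modulus of continuity follow.
-/

namespace Pool.Agent.NQ

open Finset

theorem phi_zero : phi 0 = 0 := by
  unfold phi
  simp

theorem phi_one : phi 1 = 1 := by
  unfold phi
  simp

theorem phi_tangent {a b : ℝ} (ha : a < 1) (hb : b ≤ 1) :
    phi a + (-Real.log (1 - a)) * (b - a) ≤ phi b := by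
  unfold phi
  have h1 : 0 < 1 - a := by linarith
  rcases eq_or_lt_of_le hb with rfl | hb'
  · have h2 : (1 : ℝ) - 1 = 0 := sub_self 1
    rw [h2, zero_mul]
    nlinarith
  · have h2 : 0 < 1 - b := by linarith
    have h3 := Real.log_le_sub_one_of_pos (div_pos h1 h2)
    rw [Real.log_div h1.ne' h2.ne'] at h3
    have h4 : (1 - b) * (Real.log (1 - a) - Real.log (1 - b)) ≤ (1 - b) * ((1 - a) / (1 - b) - 1) :=
      mul_le_mul_of_nonneg_left h3 h2.le
    have h5 : (1 - b) * ((1 - a) / (1 - b) - 1) = b - a := by
      field_simp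
      ring
    rw [h5] at h4
    nlinarith

theorem phi_mono {a b : ℝ} (h0 : 0 ≤ a) (hab : a ≤ b) (hb : b ≤ 1) : phi a ≤ phi b := by
  rcases eq_or_lt_of_le (hab.trans hb) with rfl | ha
  · rw [le_antisymm hab hb]
  · have h1 := phi_tangent ha hb
    have h2 : Real.log (1 - a) ≤ 0 := Real.log_nonpos (by linarith) (by linarith)
    have h3 : 0 ≤ (-Real.log (1 - a)) * (b - a) := mul_nonneg (by linarith) (by linarith)
    linarith

theorem phi_nonneg {a : ℝ} (h0 : 0 ≤ a) (h1 : a ≤ 1) : 0 ≤ phi a := by
  have := phi_mono le_rfl h0 h1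
  rwa [phi_zero] at this

theorem phi_le_one {a : ℝ} (h0 : 0 ≤ a) (h1 : a ≤ 1) : phi a ≤ 1 := by
  have := phi_mono h0 h1 le_rfl
  rwa [phi_one] at this

theorem phi_convex : ConvexOn ℝ (Set.Iic (1 : ℝ)) phi := by
  refine ⟨convex_Iic 1, ?_⟩
  intro x hx y hy a b ha hb hab
  simp only [smul_eq_mul, Set.mem_Iic] at *
  have hm : a * x + b * y ≤ 1 := by nlinarith
  rcases eq_or_lt_of_le hm with h1 | h1
  · -- the point is `1`
    have hx' : a * (1 - x) = 0 ∧ b * (1 - y) = 0 := by
      have h2 : 0 ≤ a * (1 - x) := mul_nonneg ha (by linarith)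
      have h3 : 0 ≤ b * (1 - y) := mul_nonneg hb (by linarith)
      have h4 : a * (1 - x) + b * (1 - y) = 0 := by linarith
      exact ⟨by linarith, by linarith⟩
    have hax : a * phi x = a := by
      rcases mul_eq_zero.1 hx'.1 with h | h
      · rw [h, zero_mul]
      · have : x = 1 := by linarith
        rw [this, phi_one, mul_one]
    have hby : b * phi y = b := by
      rcases mul_eq_zero.1 hx'.2 with h | h
      · rw [h, zero_mul]
      · have : y = 1 := by linarith
        rw [this, phi_one, mul_one]
    rw [h1, phi_one, hax, hby, hab]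
  · have h2 := phi_tangent h1 hx
    have h3 := phi_tangent h1 hy
    have h4 := mul_le_mul_of_nonneg_left h2 ha
    have h5 := mul_le_mul_of_nonneg_left h3 hb
    have h6 : a * (phi (a * x + b * y) + -Real.log (1 - (a * x + b * y)) * (x - (a * x + b * y))) +
        b * (phi (a * x + b * y) + -Real.log (1 - (a * x + b * y)) * (y - (a * x + b * y))) =
        (a + b) * phi (a * x + b * y) + -Real.log (1 - (a * x + b * y)) *
          ((a * x + b * y) - (a + b) * (a * x + b * y)) := by ring
    rw [hab] at h6
    linarith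

theorem phi_modulus {a b h : ℝ} (ha : 0 ≤ a) (hab : a ≤ b) (hb : b ≤ 1) (h0 : 0 < h) (h1 : h ≤ 1)
    (hh : b - a ≤ h) : phi b ≤ phi a + h * (1 - Real.log h) := by
  have hlh : Real.log h ≤ 0 := Real.log_nonpos h0.le h1
  have hpos : 0 ≤ h * (1 - Real.log h) := mul_nonneg h0.le (by linarith)
  rcases eq_or_lt_of_le hab with rfl | hab'
  · linarith
  set d := b - a with hd
  have hd0 : 0 < d := by linarith
  have ha1 : a < 1 := by linarith
  have hd1 : d ≤ 1 := by linarith
  -- increments of a convex function increase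
  have key : phi b - phi a ≤ phi 1 - phi (1 - d) := by
    have hden : 0 < 1 - a := by linarith
    have hc := phi_convex.2 (x := a) (y := 1) (Set.mem_Iic.2 ha1.le) (Set.mem_Iic.2 le_rfl)
    set s := d / (1 - a) with hs
    have hs0 : 0 ≤ s := div_nonneg hd0.le hden.le
    have hs1 : s ≤ 1 := by
      rw [hs, div_le_one hden]
      linarith
    have hsd : s * (1 - a) = d := div_mul_cancel₀ _ hden.ne'
    have h2 := hc (a := 1 - s) (b := s) (by linarith) hs0 (by ring)
    have h3 := hc (a := s) (b := 1 - s) hs0 (by linarith) (by ring)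
    simp only [smul_eq_mul] at h2 h3
    have e2 : (1 - s) * a + s * 1 = b := by linarith
    have e3 : s * a + (1 - s) * 1 = 1 - d := by linarith
    rw [e2] at h2
    rw [e3] at h3
    linarith
  have h4 : phi 1 - phi (1 - d) = d - d * Real.log d := by
    rw [phi_one]
    unfold phi
    have : 1 - (1 - d) = d := by ring
    rw [this]
    ring
  have h5 : d - d * Real.log d ≤ h - h * Real.log h := by
    have h6 := Real.log_le_sub_one_of_pos (div_pos h0 hd0)
    rw [Real.log_div h0.ne' hd0.ne'] at h6
    have h7 : d * (Real.log h - Real.log d) ≤ d * (h / d - 1) :=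
      mul_le_mul_of_nonneg_left h6 hd0.le
    have h8 : d * (h / d - 1) = h - d := by
      field_simp
    rw [h8] at h7
    have h9 : 0 ≤ (h - d) * (-Real.log h) := mul_nonneg (by linarith) (by linarith)
    nlinarith
  rw [h4] at key
  linarith

end Pool.Agent.NQ
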