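import Pool.Agent.NQ.APhi

/-!
# NQ-ARie: Riemann sums for `phi`
-/

namespace Pool.Agent.NQ

open Finset

theorem riemann_low {t : ℕ → ℝ} {N : ℕ} (h0 : t 0 = 0) (hm : ∀ k < N, t k ≤ t (k + 1))
    (h1 : ∀ k ≤ N, t k < 1) {δ : ℝ} (hδ0 : 0 ≤ δ) (hδ1 : δ ≤ 1) :
    δ * ∑ k ∈ range N, (t (k + 1) - t k) * (-Real.log (1 - δ * t k)) ≤ phi δ := by
  have ht0 : ∀ k ≤ N, 0 ≤ t k := by
    intro k
    induction k with
    | zero => intro _; rw [h0]
    | succ k ih =>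
      intro hk
      exact (ih (by omega)).trans (hm k (by omega))
  have hle : ∀ k ≤ N, δ * t k ≤ t k := by
    intro k hk
    have := ht0 k hk
    nlinarith
  have hstep : ∀ k ∈ range N, δ * ((t (k + 1) - t k) * (-Real.log (1 - δ * t k))) ≤
      phi (δ * t (k + 1)) - phi (δ * t k) := by
    intro k hk
    rw [mem_range] at hk
    have ha : δ * t k < 1 := lt_of_le_of_lt (hle k hk.le) (h1 k hk.le)
    have hb : δ * t (k + 1) ≤ 1 := (lt_of_le_of_lt (hle (k + 1) hk) (h1 (k + 1) hk)).le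
    have h := phi_tangent ha hb
    have h2 : (-Real.log (1 - δ * t k)) * (δ * t (k + 1) - δ * t k) =
        δ * ((t (k + 1) - t k) * (-Real.log (1 - δ * t k))) := by ring
    linarith
  rw [Finset.mul_sum]
  refine (Finset.sum_le_sum hstep).trans ?_
  rw [Finset.sum_range_sub (fun k => phi (δ * t k))]
  have hz : phi (δ * t 0) = 0 := by rw [h0, mul_zero, phi_zero]
  have hN : phi (δ * t N) ≤ phi δ := by
    apply phi_mono (mul_nonneg hδ0 (ht0 N le_rfl)) _ hδ1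
    have := (h1 N le_rfl).le
    nlinarith
  linarith

theorem riemann_up {K M : ℕ} (hK : 1 ≤ K) (hKM : K < M) {δ : ℝ} (hδ0 : 0 ≤ δ) (hδ1 : δ ≤ 1) :
    phi δ ≤ δ * ((1 / (M : ℝ)) * ∑ k ∈ range K, (-Real.log (1 - (k : ℝ) / M * δ))) +
      (1 - ((K : ℝ) - 1) / M) * (1 - Real.log (1 - ((K : ℝ) - 1) / M)) := by
  obtain ⟨L, rfl⟩ : ∃ L, K = L + 1 := ⟨K - 1, by omega⟩
  have hM0 : (0 : ℝ) < (M : ℝ) := by
    have : 0 < M := by omega
    exact_mod_cast this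
  have hLM : (L : ℝ) + 1 < (M : ℝ) := by exact_mod_cast hKM
  have hcast : (((L + 1 : ℕ) : ℝ) - 1) / M = (L : ℝ) / M := by push_cast; ring
  rw [hcast]
  have hL0 : (0 : ℝ) ≤ (L : ℝ) / M := by positivity
  have hL1 : (L : ℝ) / M < 1 := by
    rw [div_lt_one hM0]
    linarith
  have hstep : ∀ k ∈ range L, phi (δ * (((k + 1 : ℕ) : ℝ) / M)) - phi (δ * ((k : ℝ) / M)) ≤
      δ * ((1 / (M : ℝ)) * (-Real.log (1 - ((k + 1 : ℕ) : ℝ) / M * δ))) := by
    intro k hk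
    rw [mem_range] at hk
    have hk' : (k : ℝ) + 1 ≤ (L : ℝ) := by exact_mod_cast hk
    have hk1 : ((k + 1 : ℕ) : ℝ) / M < 1 := by
      rw [div_lt_one hM0]
      push_cast
      linarith
    have hk0 : (0 : ℝ) ≤ ((k + 1 : ℕ) : ℝ) / M := by positivity
    have hkk : (k : ℝ) / M ≤ ((k + 1 : ℕ) : ℝ) / M := by
      apply div_le_div_of_nonneg_right _ hM0.le
      push_cast
      linarith
    have hkk0 : (0 : ℝ) ≤ (k : ℝ) / M := by positivity
    have ha : δ * (((k + 1 : ℕ) : ℝ) / M) < 1 := by nlinarith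
    have hb : δ * ((k : ℝ) / M) ≤ 1 := by nlinarith
    have h := phi_tangent ha hb
    have e1 : δ * ((k : ℝ) / M) - δ * (((k + 1 : ℕ) : ℝ) / M) = -(δ * (1 / (M : ℝ))) := by
      push_cast
      ring
    rw [e1] at h
    have e2 : 1 - ((k + 1 : ℕ) : ℝ) / M * δ = 1 - δ * (((k + 1 : ℕ) : ℝ) / M) := by ring
    rw [e2]
    have e3 : δ * ((1 / (M : ℝ)) * (-Real.log (1 - δ * (((k + 1 : ℕ) : ℝ) / M)))) =
        -((-Real.log (1 - δ * (((k + 1 : ℕ) : ℝ) / M))) * (-(δ * (1 / (M : ℝ))))) := by ring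
    rw [e3]
    linarith
  have hsum : phi (δ * ((L : ℝ) / M)) ≤ δ * ((1 / (M : ℝ)) *
      ∑ k ∈ range (L + 1), (-Real.log (1 - (k : ℝ) / M * δ))) := by
    have h1 := Finset.sum_le_sum hstep
    rw [Finset.sum_range_sub (fun k : ℕ => phi (δ * ((k : ℝ) / M)))] at h1
    have hz : phi (δ * (((0 : ℕ) : ℝ) / M)) = 0 := by
      rw [Nat.cast_zero, zero_div, mul_zero, phi_zero]
    rw [hz, sub_zero] at h1
    rw [Finset.sum_range_succ', Nat.cast_zero, zero_div, zero_mul, sub_zero, Real.log_one,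
      neg_zero, add_zero, Finset.mul_sum, Finset.mul_sum]
    exact h1
  have hx0 : 0 < 1 - (L : ℝ) / M := by linarith
  have hmod := phi_modulus (a := δ * ((L : ℝ) / M)) (b := δ) (h := 1 - (L : ℝ) / M)
    (mul_nonneg hδ0 hL0) (by nlinarith) hδ1 hx0 (by linarith) (by nlinarith)
  linarith

end Pool.Agent.NQ
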