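import Pool.Agent.NQ.RDefs

/-!
# NQ-CAbS: one absorption step

`P` is the original partial configuration, `A` the present one; the squares of `A \ P` lie on reserved
diagonals.

Plan. Let `r, c ∈ [0,n)` be a row and a column without squares of `A`. Among the squares
`e ∈ P ∩ Frc n Rp Rm r c` (more than `9 j`) exclude those not in `A` (at most `|P \ A| ≤ j`), those for
which `r + e.2` or `e.1 + c` is the sum diagonal of a square of `A \ P` (at most `2 · 2j`: a value of
`r + e.2` determines `e.2` and `P` has at most one square in each column, similarly rows) and those for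
which `r - e.2` or `e.1 - c` is the difference diagonal of a square of `A \ P` (at most `4j`). At most
`9 j` excluded, so a good `e = (x,y)` exists; `A' = A \ {(x,y)} ∪ {(r,y), (x,c)}`. The new squares are not
in `A` (row `r`, column `c` are empty) and different (`x ≠ r`), `|A'| = |A| + 1`; they use the rows
`r, x`, the columns `y, c`, the sum diagonals `r + y ≠ x + c`, both in `Rp`, so not used by `A ∩ P`
(`P` avoids `Rp`), nor by `A \ P` (exclusion); the same for the difference diagonals. `P \ A'` and `A' \ P`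
grow by at most `1` resp. `2`.
-/

namespace Pool.Agent.NQ

open Finset

private theorem bad_card {j : ℕ} {P D : Finset (ℤ × ℤ)} (g h : ℤ × ℤ → ℤ) (h2 : D.card ≤ 2 * j)
    (hinj : ∀ e ∈ P, ∀ f ∈ P, g e = g f → e = f) :
    (P.filter (fun e => g e ∈ D.image h)).card ≤ 2 * j := by
  have h3 : (P.filter (fun e => g e ∈ D.image h)).card ≤ (D.image h).card := by
    apply Finset.card_le_card_of_injOn g
    · intro e he
      have he' := Finset.mem_filter.1 (Finset.mem_coe.1 he)
      exact Finset.mem_coe.2 he'.2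
    · intro e he f hf hef
      have he' := Finset.mem_filter.1 (Finset.mem_coe.1 he)
      have hf' := Finset.mem_filter.1 (Finset.mem_coe.1 hf)
      exact hinj e he'.1 f hf'.1 hef
  exact (h3.trans Finset.card_image_le).trans h2

theorem absorb_step {n j : ℕ} {Rp Rm : Finset ℤ} {P A : Finset (ℤ × ℤ)} (hP : P ⊆ board n)
    (hna : NonAtt P) (hav : ∀ e ∈ P, ln 2 e ∉ Rp ∧ ln 3 e ∉ Rm)
    (hA : A ⊆ board n) (hAna : NonAtt A) (h1 : (P \ A).card ≤ j) (h2 : (A \ P).card ≤ 2 * j)
    (hAr : ∀ e ∈ A \ P, ln 2 e ∈ Rp ∧ ln 3 e ∈ Rm) {r c : ℤ} (hr : r ∈ Finset.Ico (0 : ℤ) n)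
    (hc : c ∈ Finset.Ico (0 : ℤ) n) (hr' : ∀ e ∈ A, e.1 ≠ r) (hc' : ∀ e ∈ A, e.2 ≠ c)
    (hN : 9 * j < (P ∩ Frc n Rp Rm r c).card) :
    ∃ A' ⊆ board n, NonAtt A' ∧ A'.card = A.card + 1 ∧ (P \ A').card ≤ j + 1 ∧
      (A' \ P).card ≤ 2 * (j + 1) ∧ ∀ e ∈ A' \ P, ln 2 e ∈ Rp ∧ ln 3 e ∈ Rm := by
  have inj1 : ∀ e ∈ P, ∀ f ∈ P, e.1 = f.1 → e = f := by
    intro e he f hf h
    by_contra hne
    exact hna e he f hf hne 0 h
  have inj2 : ∀ e ∈ P, ∀ f ∈ P, e.2 = f.2 → e = f := by
    intro e he f hf h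
    by_contra hne
    exact hna e he f hf hne 1 h
  have b1 : (P.filter (fun e => r + e.2 ∈ (A \ P).image (ln 2))).card ≤ 2 * j := bad_card (P := P) (fun e => r + e.2) (ln 2) h2
    (fun e he f hf h => inj2 e he f hf (by simpa using h))
  have b2 : (P.filter (fun e => e.1 + c ∈ (A \ P).image (ln 2))).card ≤ 2 * j := bad_card (P := P) (fun e => e.1 + c) (ln 2) h2
    (fun e he f hf h => inj1 e he f hf (by simpa using h))
  have b3 : (P.filter (fun e => r - e.2 ∈ (A \ P).image (ln 3))).card ≤ 2 * j := bad_card (P := P) (fun e => r - e.2) (ln 3) h2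
    (fun e he f hf h => inj2 e he f hf (by simpa using h))
  have b4 : (P.filter (fun e => e.1 - c ∈ (A \ P).image (ln 3))).card ≤ 2 * j := bad_card (P := P) (fun e => e.1 - c) (ln 3) h2
    (fun e he f hf h => inj1 e he f hf (by simpa using h))
  obtain ⟨e, he, hbad⟩ : ∃ e ∈ P ∩ Frc n Rp Rm r c, e ∉ (P \ A) ∪
      (P.filter (fun e => r + e.2 ∈ (A \ P).image (ln 2)) ∪
      (P.filter (fun e => e.1 + c ∈ (A \ P).image (ln 2)) ∪
      (P.filter (fun e => r - e.2 ∈ (A \ P).image (ln 3)) ∪
      (P.filter (fun e => e.1 - c ∈ (A \ P).image (ln 3)))))) := by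
    apply Finset.exists_mem_notMem_of_card_lt_card
    refine lt_of_le_of_lt ?_ hN
    refine (Finset.card_union_le _ _).trans ?_
    have u1 := Finset.card_union_le (P.filter (fun e => r + e.2 ∈ (A \ P).image (ln 2)))
      (P.filter (fun e => e.1 + c ∈ (A \ P).image (ln 2)) ∪
      (P.filter (fun e => r - e.2 ∈ (A \ P).image (ln 3)) ∪
      (P.filter (fun e => e.1 - c ∈ (A \ P).image (ln 3)))))
    have u2 := Finset.card_union_le (P.filter (fun e => e.1 + c ∈ (A \ P).image (ln 2)))
      (P.filter (fun e => r - e.2 ∈ (A \ P).image (ln 3)) ∪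
      (P.filter (fun e => e.1 - c ∈ (A \ P).image (ln 3))))
    have u3 := Finset.card_union_le (P.filter (fun e => r - e.2 ∈ (A \ P).image (ln 3)))
      (P.filter (fun e => e.1 - c ∈ (A \ P).image (ln 3)))
    omega
  obtain ⟨heP, heF⟩ := Finset.mem_inter.1 he
  obtain ⟨x, y⟩ := e
  unfold Frc at heF
  obtain ⟨heB, ⟨f1, f2, f3, f4⟩, f5, f6, f7, f8⟩ := Finset.mem_filter.1 heF
  simp only at f1 f2 f3 f4 f5 f6 f7 f8
  simp only [Finset.mem_union, not_or, Finset.mem_sdiff, not_and, not_not, Finset.mem_filter,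
    Finset.mem_image, not_exists] at hbad
  obtain ⟨g0, g1, g2, g3, g4⟩ := hbad
  have heA : (x, y) ∈ A := g0 heP
  have g1' : ∀ f ∈ A, f ∉ P → ln 2 f ≠ r + y := fun f hf hfP h => g1 heP f ⟨hf, hfP⟩ h
  have g2' : ∀ f ∈ A, f ∉ P → ln 2 f ≠ x + c := fun f hf hfP h => g2 heP f ⟨hf, hfP⟩ h
  have g3' : ∀ f ∈ A, f ∉ P → ln 3 f ≠ r - y := fun f hf hfP h => g3 heP f ⟨hf, hfP⟩ h
  have g4' : ∀ f ∈ A, f ∉ P → ln 3 f ≠ x - c := fun f hf hfP h => g4 heP f ⟨hf, hfP⟩ h
  have hB := mem_board.1 heB
  simp only at hB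
  have hr2 := Finset.mem_Ico.1 hr
  have hc2 := Finset.mem_Ico.1 hc
  -- the comparison of a new square with an old one
  have new1 : ∀ f ∈ A, f ≠ (x, y) → ∀ k, ln k (r, y) ≠ ln k f := by
    intro f hf hfe k
    have hk1 : f.2 ≠ y := fun h => hAna f hf (x, y) heA hfe 1 h
    have hs : r + y ≠ f.1 + f.2 := by
      intro h
      by_cases hfP : f ∈ P
      · exact (hav f hfP).1 (by rw [ln_two, ← h]; exact f1)
      · exact g1' f hf hfP (by rw [ln_two, h])
    have hd : r - y ≠ f.1 - f.2 := by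
      intro h
      by_cases hfP : f ∈ P
      · exact (hav f hfP).2 (by rw [ln_three, ← h]; exact f3)
      · exact g3' f hf hfP (by rw [ln_three, h])
    fin_cases k
    · exact fun h => hr' f hf h.symm
    · exact fun h => hk1 h.symm
    · exact hs
    · exact hd
  have new2 : ∀ f ∈ A, f ≠ (x, y) → ∀ k, ln k (x, c) ≠ ln k f := by
    intro f hf hfe k
    have hk1 : f.1 ≠ x := fun h => hAna f hf (x, y) heA hfe 0 h
    have hs : x + c ≠ f.1 + f.2 := by
      intro h
      by_cases hfP : f ∈ P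
      · exact (hav f hfP).1 (by rw [ln_two, ← h]; exact f2)
      · exact g2' f hf hfP (by rw [ln_two, h])
    have hd : x - c ≠ f.1 - f.2 := by
      intro h
      by_cases hfP : f ∈ P
      · exact (hav f hfP).2 (by rw [ln_three, ← h]; exact f4)
      · exact g4' f hf hfP (by rw [ln_three, h])
    fin_cases k
    · exact fun h => hk1 h.symm
    · exact fun h => hc' f hf h.symm
    · exact hs
    · exact hd
  have new12 : ∀ k, ln k (r, y) ≠ ln k (x, c) := by
    intro k
    fin_cases k
    · exact fun h => f5 h.symm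
    · exact f6
    · exact f7
    · exact f8
  have hry : (r, y) ∉ A := fun h => hr' _ h rfl
  have hxc : (x, c) ∉ A := fun h => hc' _ h rfl
  have hne : (r, y) ≠ (x, c) := fun h => new12 0 (by rw [h])
  refine ⟨insert (r, y) (insert (x, c) (A.erase (x, y))), ?_, ?_, ?_, ?_, ?_, ?_⟩
  · intro f hf
    rcases Finset.mem_insert.1 hf with rfl | hf
    · exact mem_board.2 ⟨⟨hr2.1, hr2.2⟩, hB.2⟩
    rcases Finset.mem_insert.1 hf with rfl | hf
    · exact mem_board.2 ⟨hB.1, ⟨hc2.1, hc2.2⟩⟩
    · exact hA (Finset.mem_of_mem_erase hf)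
  · intro f hf g hg hfg k
    rcases Finset.mem_insert.1 hf with rfl | hf
    · rcases Finset.mem_insert.1 hg with rfl | hg
      · exact absurd rfl hfg
      rcases Finset.mem_insert.1 hg with rfl | hg
      · exact new12 k
      · exact new1 g (Finset.mem_of_mem_erase hg) (Finset.ne_of_mem_erase hg) k
    rcases Finset.mem_insert.1 hf with rfl | hf
    · rcases Finset.mem_insert.1 hg with rfl | hg
      · exact (new12 k).symm
      rcases Finset.mem_insert.1 hg with rfl | hg
      · exact absurd rfl hfg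
      · exact new2 g (Finset.mem_of_mem_erase hg) (Finset.ne_of_mem_erase hg) k
    · rcases Finset.mem_insert.1 hg with rfl | hg
      · exact (new1 f (Finset.mem_of_mem_erase hf) (Finset.ne_of_mem_erase hf) k).symm
      rcases Finset.mem_insert.1 hg with rfl | hg
      · exact (new2 f (Finset.mem_of_mem_erase hf) (Finset.ne_of_mem_erase hf) k).symm
      · exact hAna f (Finset.mem_of_mem_erase hf) g (Finset.mem_of_mem_erase hg) hfg k
  · rw [Finset.card_insert_of_notMem, Finset.card_insert_of_notMem, Finset.card_erase_of_mem heA]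
    · have := Finset.card_pos.2 ⟨_, heA⟩
      omega
    · exact fun h => hxc (Finset.mem_of_mem_erase h)
    · intro h
      rcases Finset.mem_insert.1 h with h | h
      · exact hne h
      · exact hry (Finset.mem_of_mem_erase h)
  · have hsub : P \ insert (r, y) (insert (x, c) (A.erase (x, y))) ⊆ insert (x, y) (P \ A) := by
      intro f hf
      obtain ⟨hfP, hf2⟩ := Finset.mem_sdiff.1 hf
      by_cases hfe : f = (x, y)
      · exact Finset.mem_insert.2 (Or.inl hfe)
      · refine Finset.mem_insert.2 (Or.inr (Finset.mem_sdiff.2 ⟨hfP, fun hfA => hf2 ?_⟩))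
        exact Finset.mem_insert_of_mem (Finset.mem_insert_of_mem (Finset.mem_erase.2 ⟨hfe, hfA⟩))
    refine (Finset.card_le_card hsub).trans ((Finset.card_insert_le _ _).trans ?_)
    omega
  · have hsub : insert (r, y) (insert (x, c) (A.erase (x, y))) \ P ⊆
        insert (r, y) (insert (x, c) (A \ P)) := by
      intro f hf
      obtain ⟨hf1, hfP⟩ := Finset.mem_sdiff.1 hf
      rcases Finset.mem_insert.1 hf1 with rfl | hf1
      · exact Finset.mem_insert_self _ _
      rcases Finset.mem_insert.1 hf1 with rfl | hf1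
      · exact Finset.mem_insert_of_mem (Finset.mem_insert_self _ _)
      · exact Finset.mem_insert_of_mem (Finset.mem_insert_of_mem
          (Finset.mem_sdiff.2 ⟨Finset.mem_of_mem_erase hf1, hfP⟩))
    refine (Finset.card_le_card hsub).trans ((Finset.card_insert_le _ _).trans ?_)
    have := Finset.card_insert_le (x, c) (A \ P)
    omega
  · intro f hf
    obtain ⟨hf1, hfP⟩ := Finset.mem_sdiff.1 hf
    rcases Finset.mem_insert.1 hf1 with rfl | hf1
    · exact ⟨f1, f3⟩
    rcases Finset.mem_insert.1 hf1 with rfl | hf1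
    · exact ⟨f2, f4⟩
    · exact hAr f (Finset.mem_sdiff.2 ⟨Finset.mem_of_mem_erase hf1, hfP⟩)

end Pool.Agent.NQ
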