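import Pool.Agent.NQ.CAbS

/-!
# NQ-CAbs: absorption

Plan. `card_le_of_nonAtt`: `e ↦ e.1` is injective on `P` with values in `[0,n)`. `absorb`: induction on
`j ≤ n - |P| ≤ m0` with `absorb_step` (start with `A = P`, `j = 0`): there is `A ⊆ board n`, `NonAtt A`,
`|A| = |P| + j`, `|P \ A| ≤ j`, `|A \ P| ≤ 2j`, `A \ P` on reserved diagonals. While `|A| < n` some row
and some column in `[0,n)` are empty (`|image| = |A| < n`). At the end `|A| = n`, `|P \ A| ≤ m0`.
-/

namespace Pool.Agent.NQ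

open Finset

private theorem cab_card {n : ℕ} {P : Finset (ℤ × ℤ)} (hP : P ⊆ board n) (hna : NonAtt P) :
    P.card ≤ n := by
  classical
  have h1 : (P.image Prod.fst).card = P.card := by
    apply card_image_of_injOn
    intro e he f hf hef
    by_contra hne
    exact hna e he f hf hne 0 hef
  have h2 : P.image Prod.fst ⊆ Finset.Ico (0 : ℤ) n := by
    intro x hx
    obtain ⟨e, he, rfl⟩ := mem_image.1 hx
    have h3 := (mem_board.1 (hP he)).1
    exact mem_Ico.2 h3
  have h4 := card_le_card h2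
  rw [h1, Int.card_Ico, sub_zero, Int.toNat_natCast] at h4
  exact h4

private theorem cab_free {n : ℕ} {A : Finset (ℤ × ℤ)} (hA : A.card < n) (g : ℤ × ℤ → ℤ) :
    ∃ r ∈ Finset.Ico (0 : ℤ) n, ∀ e ∈ A, g e ≠ r := by
  classical
  have h1 : (A.image g).card < (Finset.Ico (0 : ℤ) n).card := by
    rw [Int.card_Ico, sub_zero, Int.toNat_natCast]
    exact lt_of_le_of_lt card_image_le hA
  obtain ⟨r, hr, hr'⟩ := Finset.exists_mem_notMem_of_card_lt_card h1
  exact ⟨r, hr, fun e he h => hr' (mem_image.2 ⟨e, he, h⟩)⟩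

theorem absorb {n m0 : ℕ} {Rp Rm : Finset ℤ} {P : Finset (ℤ × ℤ)} (hP : P ⊆ board n)
    (hna : NonAtt P) (hav : ∀ e ∈ P, ln 2 e ∉ Rp ∧ ln 3 e ∉ Rm) (hcard : n ≤ P.card + m0)
    (hN : ∀ r ∈ Finset.Ico (0 : ℤ) n, ∀ c ∈ Finset.Ico (0 : ℤ) n,
      9 * m0 < (P ∩ Frc n Rp Rm r c).card) :
    ∃ A ∈ Qset n, (P \ A).card ≤ m0 := by
  have key : ∀ j : ℕ, P.card + j ≤ n → ∃ A ⊆ board n, NonAtt A ∧ A.card = P.card + j ∧
      (P \ A).card ≤ j ∧ (A \ P).card ≤ 2 * j ∧ ∀ e ∈ A \ P, ln 2 e ∈ Rp ∧ ln 3 e ∈ Rm := by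
    intro j
    induction j with
    | zero =>
      intro _
      refine ⟨P, hP, hna, by omega, ?_, ?_, ?_⟩
      · rw [sdiff_self]
        exact le_of_eq card_empty
      · rw [sdiff_self]
        exact le_of_eq card_empty
      · intro e he
        rw [sdiff_self] at he
        exact absurd he (notMem_empty e)
    | succ j ih =>
      intro hj
      obtain ⟨A, hA, hAna, hAc, h1, h2, h3⟩ := ih (by omega)
      have hlt : A.card < n := by omega
      obtain ⟨r, hr, hr'⟩ := cab_free hlt Prod.fst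
      obtain ⟨c, hc, hc'⟩ := cab_free hlt Prod.snd
      have h9 : 9 * j < (P ∩ Frc n Rp Rm r c).card := by
        have := hN r hr c hc
        omega
      obtain ⟨A', hA', hA'na, hA'c, k1, k2, k3⟩ :=
        absorb_step hP hna hav hA hAna h1 h2 h3 hr hc hr' hc' h9
      exact ⟨A', hA', hA'na, by omega, k1, k2, k3⟩
  have hle := cab_card hP hna
  obtain ⟨A, hA, hAna, hAc, h1, -, -⟩ := key (n - P.card) (by omega)
  exact ⟨A, mem_Qset.2 ⟨hA, by omega, hAna⟩, by omega⟩

theorem card_le_of_nonAtt {n : ℕ} {P : Finset (ℤ × ℤ)} (hP : P ⊆ board n) (hna : NonAtt P) :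
    P.card ≤ n := cab_card hP hna

end Pool.Agent.NQ
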