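import Pool.Agent.NQ.CStr

/-!
# NQ-CBad: expected number of non-isolated chosen squares

Plan. `nis_eq`, `exp_nis0` for `k = 0`: `dl 0² · 6n = 6n Λ^(-28)`; `exp_nis` for the other at most
`Λ^84` rounds: `Λ^(-168) · 6n · Λ^56` each (`dl_pos`, `κ = Λ^(-28)`), total `6 n Λ^(-28)` (`card_VS`,
`NN_le`). `PQ` is by definition the law of `DQ`.
-/

namespace Pool.Agent.NQ

open Finset

theorem exp_bad_zero {Λ n : ℕ} {W : ℤ × ℤ → ℝ} {Rp Rm : Finset ℤ} (hΛ : 30 ≤ Λ)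
    (hn : Λ ^ 500 ≤ n) (HG : GW Λ n W) (HR : RW Λ n W Rp Rm) (k : Fin (NN Λ)) (hk : (k : ℕ) = 0) :
    ∑ l ∈ hs (board n) (NN Λ), PQ Λ n W Rp Rm l * ((bad (l k)).card : ℝ) ≤
      6 * n / (Λ : ℝ) ^ 28 := by
  have H := ok_DQ hΛ hn HG HR
  have hL0 : (0 : ℝ) < (Λ : ℝ) := by
    have : 0 < Λ := by omega
    exact_mod_cast this
  have h1 := exp_nis0 H k hk
  have hV : ((VS (DQ Λ n W Rp Rm)).card : ℝ) ≤ 6 * n := by exact_mod_cast card_VS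
  rw [dl_zero (by omega)] at h1
  refine le_trans (le_of_eq ?_) (h1.trans ?_)
  · refine sum_congr rfl fun l _ => ?_
    rw [nis_eq]
    rfl
  · have h2 : (1 / (Λ : ℝ) ^ 14) ^ 2 = 1 / (Λ : ℝ) ^ 28 := by
      rw [div_pow, one_pow, ← pow_mul]
    rw [h2]
    calc 1 / (Λ : ℝ) ^ 28 * ((VS (DQ Λ n W Rp Rm)).card : ℝ) ≤ 1 / (Λ : ℝ) ^ 28 * (6 * n) :=
          mul_le_mul_of_nonneg_left hV (by positivity)
      _ = _ := by ring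

private theorem exp_bad_pos {Λ n : ℕ} {W : ℤ × ℤ → ℝ} {Rp Rm : Finset ℤ} (hΛ : 30 ≤ Λ)
    (hn : Λ ^ 500 ≤ n) (HG : GW Λ n W) (HR : RW Λ n W Rp Rm) (k : Fin (NN Λ)) (hk : (k : ℕ) ≠ 0) :
    ∑ l ∈ hs (board n) (NN Λ), PQ Λ n W Rp Rm l * ((bad (l k)).card : ℝ) ≤
      6 * n / (Λ : ℝ) ^ 112 := by
  have H := ok_DQ hΛ hn HG HR
  have hL0 : (0 : ℝ) < (Λ : ℝ) := by
    have : 0 < Λ := by omega
    exact_mod_cast this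
  have h1 := exp_nis H k
  have hV : ((VS (DQ Λ n W Rp Rm)).card : ℝ) ≤ 6 * n := by exact_mod_cast card_VS
  have hκ : (DQ Λ n W Rp Rm).κ = 1 / (Λ : ℝ) ^ 28 := rfl
  rw [dl_pos (by omega) hk, hκ] at h1
  refine le_trans (le_of_eq ?_) (h1.trans ?_)
  · refine sum_congr rfl fun l _ => ?_
    rw [nis_eq]
    rfl
  · have h2 : (1 / (Λ : ℝ) ^ 84) ^ 2 * ((VS (DQ Λ n W Rp Rm)).card : ℝ) / (1 / (Λ : ℝ) ^ 28) ^ 2 =
        1 / (Λ : ℝ) ^ 112 * ((VS (DQ Λ n W Rp Rm)).card : ℝ) := by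
      have h3 : (Λ : ℝ) ^ 28 ≠ 0 := by positivity
      have h4 : (Λ : ℝ) ^ 84 ≠ 0 := by positivity
      have h5 : (Λ : ℝ) ^ 112 ≠ 0 := by positivity
      rw [div_pow, div_pow, one_pow, ← pow_mul, ← pow_mul, div_div_eq_mul_div, div_one]
      have h6 : (Λ : ℝ) ^ (84 * 2) = (Λ : ℝ) ^ 112 * (Λ : ℝ) ^ (28 * 2) := by
        rw [← pow_add]
      rw [h6]
      have h7 : (Λ : ℝ) ^ (28 * 2) ≠ 0 := by positivity
      field_simp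
    rw [h2]
    calc 1 / (Λ : ℝ) ^ 112 * ((VS (DQ Λ n W Rp Rm)).card : ℝ) ≤ 1 / (Λ : ℝ) ^ 112 * (6 * n) :=
          mul_le_mul_of_nonneg_left hV (by positivity)
      _ = _ := by ring

theorem exp_bad_tot {Λ n : ℕ} {W : ℤ × ℤ → ℝ} {Rp Rm : Finset ℤ} (hΛ : 30 ≤ Λ)
    (hn : Λ ^ 500 ≤ n) (HG : GW Λ n W) (HR : RW Λ n W Rp Rm) :
    ∑ l ∈ hs (board n) (NN Λ), PQ Λ n W Rp Rm l * ∑ k, ((bad (l k)).card : ℝ) ≤
      12 * n / (Λ : ℝ) ^ 28 := by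
  have hL0 : (0 : ℝ) < (Λ : ℝ) := by
    have : 0 < Λ := by omega
    exact_mod_cast this
  have hn0 : (0 : ℝ) ≤ (n : ℝ) := Nat.cast_nonneg n
  have h1 : ∑ l ∈ hs (board n) (NN Λ), PQ Λ n W Rp Rm l * ∑ k, ((bad (l k)).card : ℝ) =
      ∑ k, ∑ l ∈ hs (board n) (NN Λ), PQ Λ n W Rp Rm l * ((bad (l k)).card : ℝ) := by
    rw [sum_comm]
    refine sum_congr rfl fun l _ => ?_
    rw [mul_sum]
  rw [h1]
  have hNpos : 0 < NN Λ := NN_pos (by omega)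
  have h2 : ∀ k : Fin (NN Λ), ∑ l ∈ hs (board n) (NN Λ), PQ Λ n W Rp Rm l * ((bad (l k)).card : ℝ) ≤
      (if k = ⟨0, hNpos⟩ then 6 * n / (Λ : ℝ) ^ 28 else 0) + 6 * n / (Λ : ℝ) ^ 112 := by
    intro k
    have h3 : 0 ≤ 6 * (n : ℝ) / (Λ : ℝ) ^ 112 := by positivity
    by_cases hk : k = ⟨0, hNpos⟩
    · rw [if_pos hk]
      have := exp_bad_zero hΛ hn HG HR k (by rw [hk])
      linarith
    · rw [if_neg hk, zero_add]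
      refine exp_bad_pos hΛ hn HG HR k ?_
      intro h
      exact hk (Fin.ext h)
  refine (sum_le_sum fun k _ => h2 k).trans ?_
  rw [sum_add_distrib, sum_ite_eq' univ, if_pos (mem_univ _), sum_const, card_univ, Fintype.card_fin, nsmul_eq_mul]
  have hN : ((NN Λ : ℕ) : ℝ) ≤ (Λ : ℝ) ^ 84 := by
    have := NN_le (Λ := Λ) (by omega)
    have h4 : NN Λ ≤ Λ ^ 84 := by omega
    exact_mod_cast h4
  have h5 : ((NN Λ : ℕ) : ℝ) * (6 * n / (Λ : ℝ) ^ 112) ≤ (Λ : ℝ) ^ 84 * (6 * n / (Λ : ℝ) ^ 112) :=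
    mul_le_mul_of_nonneg_right hN (by positivity)
  have h6 : (Λ : ℝ) ^ 84 * (6 * n / (Λ : ℝ) ^ 112) = 6 * n / (Λ : ℝ) ^ 28 := by
    have h7 : (Λ : ℝ) ^ 112 = (Λ : ℝ) ^ 84 * (Λ : ℝ) ^ 28 := by rw [← pow_add]
    rw [h7]
    have h8 : (Λ : ℝ) ^ 84 ≠ 0 := by positivity
    have h9 : (Λ : ℝ) ^ 28 ≠ 0 := by positivity
    field_simp
  have h10 : 12 * (n : ℝ) / (Λ : ℝ) ^ 28 = 6 * n / (Λ : ℝ) ^ 28 + 6 * n / (Λ : ℝ) ^ 28 := by ring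
  rw [h10]
  linarith

end Pool.Agent.NQ
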