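import Pool.Agent.NQ.GGib

/-!
# NQ-CChe: lower tail for a random subset

`X = |T ∩ B|`, `1[X ≤ μ/4] ≤ 2^(μ/4) 2^(-X)` (as `2^(μ/4 - X) ≥ 1`), and
`EW A q (∏_{i∈T∩B} (1/2)) = ∏_{i∈B} (1 - q_i/2) ≤ exp (-∑_{B} q_i/2) ≤ exp(-μ/2)`.
So the probability is at most `exp ((μ/4) log 2 - μ/2) ≤ exp (-μ/4)` since `log 2 ≤ 1`.
-/

namespace Pool.Agent.NQ

open Finset
open Pool.Agent.PGr.Nib (EW)

private theorem cche_mgf {I : Type} [DecidableEq I] (A : Finset I) (q z : I → ℝ) :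
    EW A q (fun T => ∏ i ∈ T, z i) = ∏ i ∈ A, (1 - q i + q i * z i) := by
  have h := Finset.prod_add (fun i => q i * z i) (fun i => 1 - q i) A
  have h2 : ∏ i ∈ A, (1 - q i + q i * z i) = ∏ i ∈ A, (q i * z i + (1 - q i)) :=
    prod_congr rfl fun i _ => add_comm _ _
  rw [h2, h]
  unfold EW
  refine sum_congr rfl fun T _ => ?_
  rw [prod_mul_distrib]
  ring

theorem chernoff {I : Type} [DecidableEq I] (A B : Finset I) (hB : B ⊆ A) (q : I → ℝ)
    (h0 : ∀ i ∈ A, 0 ≤ q i) (h1 : ∀ i ∈ A, q i ≤ 1) {μ : ℝ} (hμ0 : 0 ≤ μ) (hμ : μ ≤ ∑ i ∈ B, q i) :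
    EW A q (fun T => if ((T ∩ B).card : ℝ) ≤ μ / 4 then 1 else 0) ≤ Real.exp (-(μ / 4)) := by
  set z : I → ℝ := fun i => if i ∈ B then 1 / 2 else 1 with hz
  have hz1 : ∀ T : Finset I, ∏ i ∈ T, z i = (1 / 2 : ℝ) ^ (T ∩ B).card := by
    intro T
    simp only [hz]
    rw [prod_ite, prod_const_one, mul_one, prod_const, filter_mem_eq_inter]
  have hpt : ∀ T ⊆ A, (if ((T ∩ B).card : ℝ) ≤ μ / 4 then (1 : ℝ) else 0) ≤
      Real.exp (μ / 4 * Real.log 2) * ∏ i ∈ T, z i := by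
    intro T _
    rw [hz1]
    split_ifs with h
    · have h2 : (1 / 2 : ℝ) ^ (T ∩ B).card = Real.exp (-(((T ∩ B).card : ℝ) * Real.log 2)) := by
        rw [one_div, inv_pow, Real.exp_neg, ← Real.log_pow, Real.exp_log (by positivity)]
      rw [h2, ← Real.exp_add]
      apply Real.one_le_exp
      have h3 : 0 ≤ Real.log 2 := Real.log_nonneg (by norm_num)
      have h4 : 0 ≤ (μ / 4 - ((T ∩ B).card : ℝ)) * Real.log 2 := mul_nonneg (by linarith) h3
      linarith
    · positivity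
  refine (Pool.Agent.PGr.Nib.EW_mono h0 h1 hpt).trans ?_
  rw [Pool.Agent.PGr.Nib.EW_const_mul, cche_mgf]
  have h2 : ∏ i ∈ A, (1 - q i + q i * z i) ≤ Real.exp (-(μ / 2)) := by
    have h3 : ∀ i ∈ A, 1 - q i + q i * z i ≤ Real.exp (-(if i ∈ B then q i / 2 else 0)) := by
      intro i _
      simp only [hz]
      split_ifs
      · have := Real.add_one_le_exp (-(q i / 2))
        linarith
      · rw [neg_zero, Real.exp_zero]
        linarith
    have h4 : ∀ i ∈ A, 0 ≤ 1 - q i + q i * z i := by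
      intro i hi
      have h5 := h0 i hi
      have h6 := h1 i hi
      have h7 : 0 ≤ z i := by
        simp only [hz]
        split_ifs <;> norm_num
      have h8 := mul_nonneg h5 h7
      linarith
    refine (prod_le_prod h4 h3).trans ?_
    rw [← Real.exp_sum, sum_neg_distrib]
    apply Real.exp_le_exp.2
    have h5 : ∑ i ∈ A, (if i ∈ B then q i / 2 else 0) = ∑ i ∈ B, q i / 2 := by
      rw [← sum_filter, filter_mem_eq_inter, inter_eq_right.2 hB]
    rw [h5, ← sum_div]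
    linarith
  calc Real.exp (μ / 4 * Real.log 2) * ∏ i ∈ A, (1 - q i + q i * z i)
      ≤ Real.exp (μ / 4 * Real.log 2) * Real.exp (-(μ / 2)) :=
        mul_le_mul_of_nonneg_left h2 (Real.exp_pos _).le
    _ = Real.exp (μ / 4 * Real.log 2 + -(μ / 2)) := (Real.exp_add _ _).symm
    _ ≤ Real.exp (-(μ / 4)) := by
        apply Real.exp_le_exp.2
        have h3 : Real.log 2 ≤ 1 := by
          have := Real.log_two_lt_d9
          linarith
        have h4 : μ / 4 * Real.log 2 ≤ μ / 4 * 1 := mul_le_mul_of_nonneg_left h3 (by linarith)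
        linarith

end Pool.Agent.NQ
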