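import Pool.Agent.NQ.NBasA

/-!
# NQ-NBas: basic bounds, survival of the lines

The survival probability of a line in one round is at least `rho`, the killing probabilities are in
`[0, 1]`, the density of an edge changes by the product of the `rho` of its lines, and the initial
weights satisfy the invariant.
-/

namespace Pool.Agent.NQ

open Finset

variable {V J : Type} [DecidableEq V] [DecidableEq J] {D : Dat V J}

private theorem one_sub_sum_le {I : Type} (s : Finset I) (x : I → ℝ)
    (h0 : ∀ i ∈ s, 0 ≤ x i) (h1 : ∀ i ∈ s, x i ≤ 1) :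
    1 - ∑ i ∈ s, x i ≤ ∏ i ∈ s, (1 - x i) := by
  classical
  induction s using Finset.induction_on with
  | empty => simp
  | insert a s ha ih =>
    rw [sum_insert ha, prod_insert ha]
    have ih' := ih (fun i hi => h0 i (mem_insert_of_mem hi)) (fun i hi => h1 i (mem_insert_of_mem hi))
    have a0 := h0 a (mem_insert_self a s)
    have a1 := h1 a (mem_insert_self a s)
    have hp : ∏ i ∈ s, (1 - x i) ≤ 1 := by
      apply prod_le_one
      · intro i hi
        linarith [h1 i (mem_insert_of_mem hi)]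
      · intro i hi
        linarith [h0 i (mem_insert_of_mem hi)]
    nlinarith

private theorem den_pos (H : OK D) {k : ℕ} (hk : k ≤ D.N) (v : V) : 0 < 1 - D.d v * D.t k :=
  H.κ0.trans_le (one_sub_ge H hk v)

theorem rho_pos (H : OK D) {k : ℕ} (hk : k < D.N) (v : V) : 0 < rho D k v :=
  div_pos (den_pos H hk v) (den_pos H hk.le v)

theorem rho_le_one (H : OK D) {k : ℕ} (hk : k < D.N) (v : V) : rho D k v ≤ 1 := by
  unfold rho
  rw [div_le_one (den_pos H hk.le v)]
  have h1 := mul_le_mul_of_nonneg_left (H.tm k hk) (H.d0 v)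
  linarith

theorem rho_eq (H : OK D) {k : ℕ} (hk : k < D.N) (v : V) :
    rho D k v = 1 - dl D k * tau D k v := by
  unfold rho dl tau
  have h1 := (den_pos H hk.le v).ne'
  field_simp
  ring

theorem sum_qq_le (H : OK D) {k : ℕ} (hk : k < D.N) {u : J → ℝ} (hu : Inv D k u) (v : V) :
    ∑ e ∈ D.E.filter (fun e => v ∈ D.S e), qq D k u e ≤ dl D k * tau D k v := by
  have h1 : ∑ e ∈ D.E.filter (fun e => v ∈ D.S e), qq D k u e =
      dl D k * ∑ e ∈ D.E.filter (fun e => v ∈ D.S e), u e / pe D e (D.t k) := by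
    rw [mul_sum]
    apply sum_congr rfl
    intro e _
    unfold qq
    rw [mul_div_assoc]
  rw [h1]
  exact mul_le_mul_of_nonneg_left (hu.deg v) (dl_nonneg H hk)

theorem sv_ge (H : OK D) {k : ℕ} (hk : k < D.N) {u : J → ℝ} (hu : Inv D k u) (v : V) :
    rho D k v ≤ sv D k u v := by
  rw [rho_eq H hk v]
  unfold sv
  refine le_trans ?_ (one_sub_sum_le _ (qq D k u) ?_ ?_)
  · linarith [sum_qq_le H hk hu v]
  · intro e he
    exact qq_nonneg H hk hu (mem_filter.1 he).1
  · intro e he
    exact ((qq_le H hk hu (mem_filter.1 he).1).trans (qm_le H)).trans (by norm_num)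

theorem sv_pos (H : OK D) {k : ℕ} (hk : k < D.N) {u : J → ℝ} (hu : Inv D k u) (v : V) :
    0 < sv D k u v :=
  (rho_pos H hk v).trans_le (sv_ge H hk hu v)

theorem kp_nonneg (H : OK D) {k : ℕ} (hk : k < D.N) {u : J → ℝ} (hu : Inv D k u) (v : V) :
    0 ≤ kp D k u v := by
  unfold kp
  rw [sub_nonneg, div_le_one (sv_pos H hk hu v)]
  exact sv_ge H hk hu v

theorem kp_le_one (H : OK D) {k : ℕ} (hk : k < D.N) {u : J → ℝ} (hu : Inv D k u) (v : V) :
    kp D k u v ≤ 1 := by
  unfold kp
  have h1 := div_nonneg (rho_pos H hk v).le (sv_pos H hk hu v).le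
  linarith

theorem pe_succ (H : OK D) {k : ℕ} (hk : k < D.N) (e : J) :
    pe D e (D.t (k + 1)) = pe D e (D.t k) * ∏ v ∈ D.S e, rho D k v := by
  unfold pe
  rw [← prod_mul_distrib]
  apply prod_congr rfl
  intro v _
  unfold rho
  rw [mul_div_cancel₀]
  exact (den_pos H hk.le v).ne'

theorem tau_nonneg (H : OK D) {k : ℕ} (hk : k ≤ D.N) (v : V) : 0 ≤ tau D k v :=
  div_nonneg (H.d0 v) (den_pos H hk v).le

theorem tau_le (H : OK D) {k : ℕ} (hk : k ≤ D.N) (v : V) : tau D k v ≤ 1 / D.κ :=
  div_le_div₀ zero_le_one (H.d1 v) H.κ0 (one_sub_ge H hk v)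

theorem rho_tau (H : OK D) {k : ℕ} (hk : k < D.N) (v : V) :
    rho D k v * tau D (k + 1) v = tau D k v := by
  unfold rho tau
  have h1 := (den_pos H hk.le v).ne'
  have h2 := (den_pos H hk v).ne'
  field_simp

theorem inv_zero (H : OK D) : Inv D 0 D.w := by
  refine ⟨H.w0, fun e _ => le_rfl, fun v => ?_⟩
  have h1 : tau D 0 v = D.d v := by
    unfold tau
    rw [H.t0, mul_zero, sub_zero, div_one]
  have h2 : ∀ e ∈ D.E.filter (fun e => v ∈ D.S e), D.w e / pe D e (D.t 0) = D.w e := by
    intro e _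
    unfold pe
    rw [H.t0]
    simp
  rw [h1, sum_congr rfl h2]
  exact H.deg v

end Pool.Agent.NQ
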