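import Pool.Agent.NQ.RDefs

/-!
# NQ-RZm: labels and reserved diagonals

Plan. `cast_eq`: `ZMod.intCast_eq_intCast_iff_dvd_sub` / `ZMod.intCast_zmod_eq_zero_iff_dvd`: equality in
`ZMod N` means `N ∣ s - s'`, and `|s - s'| < N` forces `s = s'` (`Int.eq_zero_of_abs_lt_dvd`).
`mem_rp`, `mem_rm`: unfold, the range conditions hold (`mem_board`). `gam_le`, `one_le_gam`:
`(1 - 1/Λ³)² ≥ 1/2` and `(1 - 1/Λ³)² ≤ 1 - 1/Λ³ ≤ 1 - 1/Λ^29` for `Λ ≥ 2`.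
-/

namespace Pool.Agent.NQ

open Finset

theorem cast_eq {N : ℕ} {s s' : ℤ} (h1 : s - s' < N) (h2 : s' - s < N) :
    ((s : ZMod N) = (s' : ZMod N)) ↔ s = s' := by
  constructor
  · intro h
    rw [ZMod.intCast_eq_intCast_iff_dvd_sub] at h
    have h3 : |s' - s| < (N : ℤ) := abs_lt.2 ⟨by linarith, h2⟩
    have h4 := Int.eq_zero_of_abs_lt_dvd h h3
    linarith
  · intro h
    rw [h]

theorem mem_rp {N q n : ℕ} [NeZero q] {x : Lab N q} {s : ℤ} (h0 : 0 ≤ s) (h1 : s < 2 * n) :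
    s ∈ rp n x ↔ x (0, (s : ZMod N)) = 0 := by
  unfold rp
  rw [mem_filter, mem_Ico]
  exact ⟨fun h => h.2, fun h => ⟨⟨h0, h1⟩, h⟩⟩

theorem mem_rm {N q n : ℕ} [NeZero q] {x : Lab N q} {s : ℤ} (h0 : -(n : ℤ) < s) (h1 : s < n) :
    s ∈ rm n x ↔ x (1, (s : ZMod N)) = 0 := by
  unfold rm
  rw [mem_filter, mem_Ioo]
  exact ⟨fun h => h.2, fun h => ⟨⟨h0, h1⟩, h⟩⟩

private theorem rzm_bounds {Λ : ℕ} (hΛ : 2 ≤ Λ) :
    0 < 1 / (Λ : ℝ) ^ 29 ∧ 1 / (Λ : ℝ) ^ 29 ≤ 1 / (Λ : ℝ) ^ 3 ∧ 1 / (Λ : ℝ) ^ 3 ≤ 1 / 8 := by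
  have h2 : (2 : ℝ) ≤ Λ := by exact_mod_cast hΛ
  have h0 : (0 : ℝ) < Λ := by linarith
  have h1 : (1 : ℝ) ≤ Λ := by linarith
  refine ⟨by positivity, ?_, ?_⟩
  · exact one_div_le_one_div_of_le (by positivity) (pow_le_pow_right₀ h1 (by norm_num))
  · apply one_div_le_one_div_of_le (by norm_num)
    calc (8 : ℝ) = 2 ^ 3 := by norm_num
      _ ≤ (Λ : ℝ) ^ 3 := pow_le_pow_left₀ (by norm_num) h2 3

theorem gam_le {Λ : ℕ} (hΛ : 2 ≤ Λ) : gam Λ ≤ 2 := by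
  obtain ⟨h1, h2, h3⟩ := rzm_bounds hΛ
  unfold gam
  generalize 1 / (Λ : ℝ) ^ 29 = u at h1 h2
  generalize 1 / (Λ : ℝ) ^ 3 = t at h2 h3
  have h4 : 0 < (1 - t) ^ 2 := by
    have : 0 < 1 - t := by linarith
    positivity
  rw [div_le_iff₀ h4]
  nlinarith

theorem one_le_gam {Λ : ℕ} (hΛ : 2 ≤ Λ) : 1 ≤ gam Λ := by
  obtain ⟨h1, h2, h3⟩ := rzm_bounds hΛ
  unfold gam
  generalize 1 / (Λ : ℝ) ^ 29 = u at h1 h2
  generalize 1 / (Λ : ℝ) ^ 3 = t at h2 h3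
  have h4 : 0 < (1 - t) ^ 2 := by
    have : 0 < 1 - t := by linarith
    positivity
  rw [one_le_div h4]
  nlinarith

/-- The tail estimate in the form used for all the events: `4 n` labels. -/
theorem card_lab {N n : ℕ} [NeZero N] (hN : N = 2 * n) :
    (Fintype.card (Fin 2 × ZMod N) : ℝ) = 4 * n := by
  rw [Fintype.card_prod, Fintype.card_fin, ZMod.card, hN]
  push_cast
  ring

end Pool.Agent.NQ
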