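import Pool.Agent.NQ.CSch
import Pool.Agent.NQ.NBas
import Pool.Agent.NQ.RZm

/-!
# NQ-CDat: the data of the board satisfy the hypotheses of the nibble

Plan. `Λ ≥ 30`, `n ≥ Λ^500`.
* `card`, `lin`: `card_lines`, `inter_lines`. `wβ`: `wres ≤ gam W ≤ 2 Λ^60/n ≤ Λ^61/n` (`gam_le`).
* `d0`, `d1`: `0 ≤ dsum n W k s ≤ 1 - 1/(10 Λ²)` for `k = 2, 3` (`GW.sd`, `GW.dd`, `GW.lo`), and
  `3/Λ³ ≤ 1/(10 Λ²)`. `deg`: `RW.row, col, sd, dd` (the squares of `board n` whose lines contain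
  `(k, s)` are those with `ln k e = s`, `mem_lines`).
* times: `tt` is monotone, `tt k ≤ tt (NN Λ) = 1 - 1/Λ^28` for `k ≤ NN Λ`.
* `small`: `100 Λ^61/n ≤ Λ^(-112)`. `ζ2`: `30 Λ^61/n ≤ Λ^(-226) Λ^(-168)` since `30 Λ^455 ≤ Λ^500 ≤ n`.
  `ζ5`: `5 Λ^61/n ≤ Λ^(-113) Λ^(-140)`.
-/

namespace Pool.Agent.NQ

open Finset

private theorem key_ineq {Λ n : ℕ} (hΛ : 30 ≤ Λ) (hn : Λ ^ 500 ≤ n) (c : ℝ) (hc : c ≤ 900)
    (a b : ℕ) (hab : a + b + 2 ≤ 500) :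
    c * ((Λ : ℝ) ^ a / n) ≤ 1 / (Λ : ℝ) ^ b := by
  have hΛR : (30 : ℝ) ≤ (Λ : ℝ) := by exact_mod_cast hΛ
  have hΛ0 : (0 : ℝ) < (Λ : ℝ) := by linarith
  have hnR : (Λ : ℝ) ^ 500 ≤ (n : ℝ) := by exact_mod_cast hn
  have hn0 : (0 : ℝ) < (n : ℝ) := lt_of_lt_of_le (by positivity) hnR
  rw [← mul_div_assoc, div_le_div_iff₀ hn0 (by positivity), one_mul]
  refine le_trans ?_ hnR
  have h2 : c ≤ (Λ : ℝ) ^ 2 := hc.trans (by nlinarith)
  calc c * (Λ : ℝ) ^ a * (Λ : ℝ) ^ b ≤ (Λ : ℝ) ^ 2 * (Λ : ℝ) ^ a * (Λ : ℝ) ^ b := by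
        have h3 : (0 : ℝ) ≤ (Λ : ℝ) ^ a := by positivity
        have h4 : (0 : ℝ) ≤ (Λ : ℝ) ^ b := by positivity
        exact mul_le_mul_of_nonneg_right (mul_le_mul_of_nonneg_right h2 h3) h4
    _ = (Λ : ℝ) ^ (a + b + 2) := by rw [pow_add, pow_add]; ring
    _ ≤ (Λ : ℝ) ^ 500 := pow_le_pow_right₀ (by linarith) hab

theorem ok_DQ {Λ n : ℕ} (hΛ : 30 ≤ Λ) (hn : Λ ^ 500 ≤ n) {W : ℤ × ℤ → ℝ} (HG : GW Λ n W)
    {Rp Rm : Finset ℤ} (HR : RW Λ n W Rp Rm) : OK (DQ Λ n W Rp Rm) := by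
  have hΛR : (30 : ℝ) ≤ (Λ : ℝ) := by exact_mod_cast hΛ
  have hΛ0 : (0 : ℝ) < (Λ : ℝ) := by linarith
  have hnR : (Λ : ℝ) ^ 500 ≤ (n : ℝ) := by exact_mod_cast hn
  have hn0 : (0 : ℝ) < (n : ℝ) := lt_of_lt_of_le (by positivity) hnR
  have hgam1 := one_le_gam (Λ := Λ) (by omega)
  have hgam2 := gam_le (Λ := Λ) (by omega)
  have hW0 : ∀ e ∈ board n, 0 ≤ W e := fun e he => le_trans (by positivity) (HG.lo e he)
  have hds0 : ∀ k s, 0 ≤ dsum n W k s := fun k s =>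
    Finset.sum_nonneg fun e he => hW0 e (Finset.mem_filter.1 he).1
  have h3Λ : 3 / (Λ : ℝ) ^ 3 ≤ 1 / (10 * (Λ : ℝ) ^ 2) := by
    rw [div_le_div_iff₀ (by positivity) (by positivity)]
    calc 3 * (10 * (Λ : ℝ) ^ 2) = 30 * (Λ : ℝ) ^ 2 := by ring
      _ ≤ (Λ : ℝ) * (Λ : ℝ) ^ 2 := mul_le_mul_of_nonneg_right hΛR (by positivity)
      _ = 1 * (Λ : ℝ) ^ 3 := by ring
  have hmono : ∀ k : ℕ, tt Λ k ≤ tt Λ (k + 1) := by
    intro k
    unfold tt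
    rcases Nat.eq_zero_or_pos k with rfl | hk
    · rw [if_pos rfl, if_neg (by norm_num)]
      have : (0 : ℝ) ≤ (Λ : ℝ) ^ 70 + ((0 + 1 : ℕ) : ℝ) - 1 := by
        push_cast
        have : (0 : ℝ) ≤ (Λ : ℝ) ^ 70 := by positivity
        linarith
      positivity
    · rw [if_neg (by omega), if_neg (by omega)]
      have : (Λ : ℝ) ^ 70 + (k : ℝ) - 1 ≤ (Λ : ℝ) ^ 70 + ((k + 1 : ℕ) : ℝ) - 1 := by
        push_cast
        linarith
      exact div_le_div_of_nonneg_right this (by positivity)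
  refine
    { card := fun e _ => card_lines e
      lin := fun e _ f _ h => inter_lines h
      w0 := ?_, wβ := ?_, d0 := ?_, d1 := ?_, deg := ?_, t0 := ?_, tm := ?_, tN := ?_, κ0 := ?_
      β0 := ?_, small := ?_, ζ0 := ?_, ζ2 := ?_, ζ5 := ?_ }
  · intro e he
    show 0 ≤ wres Λ W Rp Rm e
    unfold wres
    split_ifs
    · exact le_rfl
    · exact mul_nonneg (by linarith) (hW0 e he)
  · intro e he
    show wres Λ W Rp Rm e ≤ (Λ : ℝ) ^ 61 / n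
    unfold wres
    split_ifs
    · positivity
    · calc gam Λ * W e ≤ 2 * ((Λ : ℝ) ^ 60 / n) :=
            mul_le_mul hgam2 (HG.hi e he) (hW0 e he) (by norm_num)
        _ = (2 * (Λ : ℝ) ^ 60) / n := by ring
        _ ≤ (Λ : ℝ) ^ 61 / n := by
            refine div_le_div_of_nonneg_right ?_ hn0.le
            calc 2 * (Λ : ℝ) ^ 60 ≤ (Λ : ℝ) * (Λ : ℝ) ^ 60 :=
                  mul_le_mul_of_nonneg_right (by linarith) (by positivity)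
              _ = (Λ : ℝ) ^ 61 := by ring
  · intro v
    show 0 ≤ (if v.1 = 0 ∨ v.1 = 1 then (1 : ℝ) else dsum n W v.1 v.2 + 3 / (Λ : ℝ) ^ 3)
    split_ifs
    · norm_num
    · have := hds0 v.1 v.2
      positivity
  · rintro ⟨k, s⟩
    show (if k = 0 ∨ k = 1 then (1 : ℝ) else dsum n W k s + 3 / (Λ : ℝ) ^ 3) ≤ 1
    split_ifs with h
    · exact le_rfl
    · have h2 := HG.sd s
      have h3 := HG.dd s
      fin_cases k
      · exact absurd (Or.inl rfl) h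
      · exact absurd (Or.inr rfl) h
      · show dsum n W 2 s + 3 / (Λ : ℝ) ^ 3 ≤ 1
        linarith
      · show dsum n W 3 s + 3 / (Λ : ℝ) ^ 3 ≤ 1
        linarith
  · rintro ⟨k, s⟩
    show ∑ e ∈ (board n).filter (fun e => (k, s) ∈ lines e), wres Λ W Rp Rm e ≤
      (if k = 0 ∨ k = 1 then (1 : ℝ) else dsum n W k s + 3 / (Λ : ℝ) ^ 3)
    have h1 : ∑ e ∈ (board n).filter (fun e => (k, s) ∈ lines e), wres Λ W Rp Rm e =
        dsum n (wres Λ W Rp Rm) k s := by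
      unfold dsum
      refine Finset.sum_congr (Finset.filter_congr fun e _ => ?_) fun _ _ => rfl
      exact mem_lines
    rw [h1]
    have h4 : k = 0 ∨ k = 1 ∨ k = 2 ∨ k = 3 := by fin_cases k <;> simp
    rcases h4 with rfl | rfl | rfl | rfl
    · rw [if_pos (Or.inl rfl)]
      exact HR.row s
    · rw [if_pos (Or.inr rfl)]
      exact HR.col s
    · rw [if_neg (by decide)]
      exact HR.sd s
    · rw [if_neg (by decide)]
      exact HR.dd s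
  · show tt Λ 0 = 0
    unfold tt
    rw [if_pos rfl]
  · intro k _
    exact hmono k
  · intro k hk
    show tt Λ k ≤ 1 - 1 / (Λ : ℝ) ^ 28
    rw [← tt_N (Λ := Λ) (by omega)]
    exact monotone_nat_of_le_succ hmono hk
  · show 0 < 1 / (Λ : ℝ) ^ 28
    positivity
  · show 0 ≤ (Λ : ℝ) ^ 61 / n
    positivity
  · show 100 * ((Λ : ℝ) ^ 61 / n) ≤ (1 / (Λ : ℝ) ^ 28) ^ 4
    rw [div_pow, one_pow, ← pow_mul]
    exact key_ineq hΛ hn 100 (by norm_num) 61 (28 * 4) (by norm_num)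
  · show 0 < 1 / (Λ : ℝ) ^ 113
    positivity
  · show 30 * ((Λ : ℝ) ^ 61 / n) ≤ (1 / (Λ : ℝ) ^ 113) ^ 2 * (1 / (Λ : ℝ) ^ 28) ^ 6
    have e1 : (1 / (Λ : ℝ) ^ 113) ^ 2 * (1 / (Λ : ℝ) ^ 28) ^ 6 = 1 / (Λ : ℝ) ^ 394 := by
      rw [div_pow, one_pow, ← pow_mul, div_pow, one_pow, ← pow_mul, div_mul_div_comm, one_mul,
        ← pow_add]
    rw [e1]
    exact key_ineq hΛ hn 30 (by norm_num) 61 394 (by norm_num)
  · show 5 * ((Λ : ℝ) ^ 61 / n) ≤ (1 / (Λ : ℝ) ^ 113) * (1 / (Λ : ℝ) ^ 28) ^ 5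
    have e1 : (1 / (Λ : ℝ) ^ 113) * (1 / (Λ : ℝ) ^ 28) ^ 5 = 1 / (Λ : ℝ) ^ 253 := by
      rw [div_pow, one_pow, ← pow_mul, div_mul_div_comm, one_mul, ← pow_add]
    rw [e1]
    exact key_ineq hΛ hn 5 (by norm_num) 61 253 (by norm_num)

end Pool.Agent.NQ
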