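import Pool.Agent.NQ.Defs
import Pool.Agent.PGr.McD

/-!
# NQ block R (reserved diagonals): definitions
-/

namespace Pool.Agent.NQ

open Finset

/-- The compensating factor. -/
noncomputable def gam (Λ : ℕ) : ℝ := (1 - 1 / (Λ : ℝ) ^ 29) / (1 - 1 / (Λ : ℝ) ^ 3) ^ 2

/-- The weights after removing the squares on reserved diagonals. -/
noncomputable def wres (Λ : ℕ) (W : ℤ × ℤ → ℝ) (Rp Rm : Finset ℤ) (e : ℤ × ℤ) : ℝ :=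
  if ln 2 e ∈ Rp ∨ ln 3 e ∈ Rm then 0 else gam Λ * W e

/-- The squares which can be used to insert a queen in row `r` and column `c`. -/
noncomputable def Frc (n : ℕ) (Rp Rm : Finset ℤ) (r c : ℤ) : Finset (ℤ × ℤ) :=
  (board n).filter (fun e => (r + e.2 ∈ Rp ∧ e.1 + c ∈ Rp ∧ r - e.2 ∈ Rm ∧ e.1 - c ∈ Rm) ∧
    e.1 ≠ r ∧ e.2 ≠ c ∧ r + e.2 ≠ e.1 + c ∧ r - e.2 ≠ e.1 - c)

/-- What the choice of the reserved diagonals must satisfy. -/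
structure RW (Λ n : ℕ) (W : ℤ × ℤ → ℝ) (Rp Rm : Finset ℤ) : Prop where
  row : ∀ s, dsum n (wres Λ W Rp Rm) 0 s ≤ 1
  col : ∀ s, dsum n (wres Λ W Rp Rm) 1 s ≤ 1
  sd : ∀ s, dsum n (wres Λ W Rp Rm) 2 s ≤ dsum n W 2 s + 3 / (Λ : ℝ) ^ 3
  dd : ∀ s, dsum n (wres Λ W Rp Rm) 3 s ≤ dsum n W 3 s + 3 / (Λ : ℝ) ^ 3
  tot : (n : ℝ) * (1 - 2 / (Λ : ℝ) ^ 28) ≤ ∑ e ∈ board n, wres Λ W Rp Rm e
  rc : ∀ r ∈ Finset.Ico (0 : ℤ) n, ∀ c ∈ Finset.Ico (0 : ℤ) n,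
    (n : ℝ) / (4 * (Λ : ℝ) ^ 12) ≤ ∑ e ∈ Frc n Rp Rm r c, wres Λ W Rp Rm e

/-- Labels of the diagonals: `(0, s)` sum diagonals, `(1, s)` difference diagonals, numbers modulo
`N = 2 n`. -/
abbrev Lab (N q : ℕ) : Type := (Fin 2 × ZMod N) → Fin q

/-- Reserved sum diagonals. -/
noncomputable def rp {N q : ℕ} [NeZero q] (n : ℕ) (x : Lab N q) : Finset ℤ :=
  (Finset.Ico (0 : ℤ) (2 * n)).filter (fun s => x (0, (s : ZMod N)) = 0)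

/-- Reserved difference diagonals. -/
noncomputable def rm {N q : ℕ} [NeZero q] (n : ℕ) (x : Lab N q) : Finset ℤ :=
  (Finset.Ioo (-(n : ℤ)) n).filter (fun s => x (1, (s : ZMod N)) = 0)

end Pool.Agent.NQ
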