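import Pool.Agent.NQ.NDefs
import Pool.Agent.NQ.RDefs

/-!
# NQ block C: the nibble on the board
-/

namespace Pool.Agent.NQ

open Finset

/-- The four lines of a square. -/
def lines (e : ℤ × ℤ) : Finset (Fin 4 × ℤ) := univ.image (fun k : Fin 4 => (k, ln k e))

/-- The times. -/
noncomputable def tt (Λ : ℕ) (k : ℕ) : ℝ :=
  if k = 0 then 0 else ((Λ : ℝ) ^ 70 + k - 1) / (Λ : ℝ) ^ 84

/-- Number of rounds. -/
def NN (Λ : ℕ) : ℕ := Λ ^ 84 - Λ ^ 56 - Λ ^ 70 + 1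

/-- The data of the nibble on the board. -/
noncomputable def DQ (Λ n : ℕ) (W : ℤ × ℤ → ℝ) (Rp Rm : Finset ℤ) : Dat (Fin 4 × ℤ) (ℤ × ℤ) where
  E := board n
  S := lines
  w := wres Λ W Rp Rm
  d := fun v => if v.1 = 0 ∨ v.1 = 1 then 1 else dsum n W v.1 v.2 + 3 / (Λ : ℝ) ^ 3
  t := tt Λ
  N := NN Λ
  κ := 1 / (Λ : ℝ) ^ 28
  β := (Λ : ℝ) ^ 61 / n
  ζ := 1 / (Λ : ℝ) ^ 113

/-- The law of the chosen sets. -/
noncomputable def PQ (Λ n : ℕ) (W : ℤ × ℤ → ℝ) (Rp Rm : Finset ℤ)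
    (l : Fin (NN Λ) → Finset (ℤ × ℤ)) : ℝ :=
  law (DQ Λ n W Rp Rm) (NN Λ) 0 (wres Λ W Rp Rm) l

open Classical in
/-- The squares of `T` attacked by another square of `T`. -/
noncomputable def bad (T : Finset (ℤ × ℤ)) : Finset (ℤ × ℤ) :=
  T.filter (fun e => ∃ f ∈ T, f ≠ e ∧ ∃ k, ln k e = ln k f)

/-- The isolated squares of all rounds. -/
noncomputable def MM {N : ℕ} (l : Fin N → Finset (ℤ × ℤ)) : Finset (ℤ × ℤ) :=
  univ.biUnion (fun k => l k \ bad (l k))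

/-- The number of queens which may be missing. -/
noncomputable def m0 (Λ n : ℕ) : ℕ := ⌊(n : ℝ) / (300 * (Λ : ℝ) ^ 26)⌋₊

/-- The good event. -/
def Good (Λ n : ℕ) (Rp Rm : Finset ℤ) {N : ℕ} (l : Fin N → Finset (ℤ × ℤ)) : Prop :=
  n ≤ (MM l).card + m0 Λ n ∧ ∀ r ∈ Finset.Ico (0 : ℤ) n, ∀ c ∈ Finset.Ico (0 : ℤ) n,
    9 * m0 Λ n < (MM l ∩ Frc n Rp Rm r c).card

end Pool.Agent.NQ
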