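import Pool.Agent.NQ.CProb

/-!
# NQ-CEnc: upper bound for the entropy of the law

To a good outcome a configuration containing almost all isolated squares is attached, to every other
outcome the empty set; the encoding bound gives the estimate of the entropy. Since the good event
has positive probability, there is a configuration.
-/

namespace Pool.Agent.NQ

open Finset

/-- the extra squares, pointwise -/
private theorem cenc_point {Λ n : ℕ} {W : ℤ × ℤ → ℝ} {Rp Rm : Finset ℤ} (hΛ : 30 ≤ Λ)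
    (hn : Λ ^ 500 ≤ n) (HG : GW Λ n W) (HR : RW Λ n W Rp Rm)
    (σ : (Fin (NN Λ) → Finset (ℤ × ℤ)) → Finset (ℤ × ℤ))
    (hσ1 : ∀ l ∈ hs (board n) (NN Λ), PQ Λ n W Rp Rm l ≠ 0 → Good Λ n Rp Rm l →
      ∑ k, (l k \ σ l).card ≤ m0 Λ n + ∑ k, (bad (l k)).card)
    (l : Fin (NN Λ) → Finset (ℤ × ℤ)) (hl : l ∈ hs (board n) (NN Λ))
    (h0 : PQ Λ n W Rp Rm l ≠ 0) :
    ∑ k, ((l k \ σ l).card : ℝ) ≤ (m0 Λ n : ℝ) + ∑ k, ((bad (l k)).card : ℝ) +
      n * (open Classical in if Good Λ n Rp Rm l then 0 else 1) := by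
  classical
  by_cases hg : Good Λ n Rp Rm l
  · have h1 := hσ1 l hl h0 hg
    have h2 : ((∑ k, (l k \ σ l).card : ℕ) : ℝ) ≤
        ((m0 Λ n + ∑ k, (bad (l k)).card : ℕ) : ℝ) := by exact_mod_cast h1
    push_cast at h2
    rw [if_pos hg]
    linarith
  · rw [if_neg hg]
    have h1 : ∑ k, (l k \ σ l).card ≤ ∑ k, (l k).card :=
      Finset.sum_le_sum fun k _ => Finset.card_le_card Finset.sdiff_subset
    have h2 := card_MM hΛ hn HG HR hl h0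
    have h3 := MM_nonAtt hΛ hn HG HR hl h0
    have h4 := card_le_of_nonAtt h3.1 h3.2.1
    have h5 : ∑ k, (l k \ σ l).card ≤ n + ∑ k, (bad (l k)).card := by omega
    have h6 : ((∑ k, (l k \ σ l).card : ℕ) : ℝ) ≤
        ((n + ∑ k, (bad (l k)).card : ℕ) : ℝ) := by exact_mod_cast h5
    push_cast at h6
    have h7 : (0 : ℝ) ≤ m0 Λ n := Nat.cast_nonneg _
    linarith

/-- the mean number of extra squares -/
private theorem cenc_mean {Λ n : ℕ} {W : ℤ × ℤ → ℝ} {Rp Rm : Finset ℤ} (hΛ : 30 ≤ Λ)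
    (hn : Λ ^ 500 ≤ n) (HG : GW Λ n W) (HR : RW Λ n W Rp Rm)
    (σ : (Fin (NN Λ) → Finset (ℤ × ℤ)) → Finset (ℤ × ℤ))
    (hσ1 : ∀ l ∈ hs (board n) (NN Λ), PQ Λ n W Rp Rm l ≠ 0 → Good Λ n Rp Rm l →
      ∑ k, (l k \ σ l).card ≤ m0 Λ n + ∑ k, (bad (l k)).card) :
    ∑ l ∈ hs (board n) (NN Λ), PQ Λ n W Rp Rm l * ∑ k, ((l k \ σ l).card : ℝ) ≤
      5001 * n / (Λ : ℝ) ^ 2 := by
  classical
  have hp := pr_good hΛ hn HG HR
  have hb := exp_bad_tot hΛ hn HG HR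
  have hs1 : ∑ l ∈ hs (board n) (NN Λ), PQ Λ n W Rp Rm l = 1 := PQ_sum
  have h1 : ∑ l ∈ hs (board n) (NN Λ), PQ Λ n W Rp Rm l * ∑ k, ((l k \ σ l).card : ℝ) ≤
      ∑ l ∈ hs (board n) (NN Λ), (PQ Λ n W Rp Rm l * (m0 Λ n : ℝ) +
        PQ Λ n W Rp Rm l * ∑ k, ((bad (l k)).card : ℝ) +
        n * (PQ Λ n W Rp Rm l * (if Good Λ n Rp Rm l then 0 else 1))) := by
    refine Finset.sum_le_sum fun l hl => ?_
    by_cases h0 : PQ Λ n W Rp Rm l = 0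
    · rw [h0]
      simp
    · have h2 := cenc_point hΛ hn HG HR σ hσ1 l hl h0
      have h3 := mul_le_mul_of_nonneg_left h2 (PQ_nonneg hΛ hn HG HR hl)
      refine h3.trans (le_of_eq ?_)
      ring
  rw [Finset.sum_add_distrib, Finset.sum_add_distrib, ← Finset.sum_mul, ← Finset.mul_sum, hs1,
    one_mul] at h1
  have hΛ0 : (30 : ℝ) ≤ Λ := by exact_mod_cast hΛ
  have hn0 : (0 : ℝ) ≤ n := Nat.cast_nonneg n
  have hm : (m0 Λ n : ℝ) ≤ n / (300 * (Λ : ℝ) ^ 26) := Nat.floor_le (by positivity)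
  have hpow : ((30 : ℝ)) ^ 24 ≤ (Λ : ℝ) ^ 24 := pow_le_pow_left₀ (by norm_num) hΛ0 24
  have h26 : n / (300 * (Λ : ℝ) ^ 26) ≤ 1 / 300 * (n / (Λ : ℝ) ^ 2) := by
    have e1 : n / (300 * (Λ : ℝ) ^ 26) = 1 / 300 * (n / (Λ : ℝ) ^ 26) := by
      field_simp
    rw [e1]
    gcongr
    · linarith
    · norm_num
  have h28 : 12 * n / (Λ : ℝ) ^ 28 ≤ 1 / 2 * (n / (Λ : ℝ) ^ 2) := by
    have e1 : (Λ : ℝ) ^ 28 = (Λ : ℝ) ^ 26 * (Λ : ℝ) ^ 2 := by ring
    have e2 : (24 : ℝ) ≤ (Λ : ℝ) ^ 26 := by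
      calc (24 : ℝ) ≤ 30 ^ 26 := by norm_num
        _ ≤ (Λ : ℝ) ^ 26 := pow_le_pow_left₀ (by norm_num) hΛ0 26
    have e3 : 0 < (Λ : ℝ) ^ 2 := by positivity
    have e4 : 0 < (Λ : ℝ) ^ 26 := by positivity
    rw [e1, div_le_iff₀ (by positivity)]
    have e5 : 1 / 2 * (n / (Λ : ℝ) ^ 2) * ((Λ : ℝ) ^ 26 * (Λ : ℝ) ^ 2) =
        1 / 2 * n * (Λ : ℝ) ^ 26 := by
      field_simp
    rw [e5]
    nlinarith
  have hp' := mul_le_mul_of_nonneg_left hp hn0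
  have e6 : (n : ℝ) * (5000 / (Λ : ℝ) ^ 2) = 5000 * (n / (Λ : ℝ) ^ 2) := by ring
  have e7 : 5001 * (n : ℝ) / (Λ : ℝ) ^ 2 = 5001 * (n / (Λ : ℝ) ^ 2) := by ring
  rw [e6] at hp'
  rw [e7]
  have e8 : (0 : ℝ) ≤ n / (Λ : ℝ) ^ 2 := by positivity
  linarith

private theorem cenc_log {Λ : ℝ} (hΛ : 20000000 ≤ Λ) : 2086 * Real.log Λ ≤ Λ := by
  have h0 : 0 < Λ := by linarith
  have h1 : Real.log Λ = 2 * Real.log (Real.sqrt Λ) := by
    rw [Real.log_sqrt h0.le]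
    ring
  have h2 : Real.log (Real.sqrt Λ) ≤ Real.sqrt Λ - 1 :=
    Real.log_le_sub_one_of_pos (Real.sqrt_pos.2 h0)
  have h3 : (4400 : ℝ) ≤ Real.sqrt Λ := by
    apply Real.le_sqrt_of_sq_le
    norm_num
    linarith
  have h4 : Real.sqrt Λ * Real.sqrt Λ = Λ := Real.mul_self_sqrt h0.le
  nlinarith

theorem ent_up : ∃ Λ0 : ℕ, ∀ Λ n : ℕ, Λ0 ≤ Λ → Λ ^ 500 ≤ n → n ≤ Λ ^ 1001 →
    ∀ W : ℤ × ℤ → ℝ, GW Λ n W → ∀ Rp Rm : Finset ℤ, RW Λ n W Rp Rm →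
      0 < Q n ∧ ∑ l ∈ hs (board n) (NN Λ), Real.negMulLog (PQ Λ n W Rp Rm l) ≤
        Real.log ((Q n : ℝ) + 1) + 84 * n * Real.log Λ + 5002 * n / Λ := by
  classical
  refine ⟨20000000, ?_⟩
  intro Λ n hΛ0 hn hn' W HG Rp Rm HR
  have hΛ : 30 ≤ Λ := by omega
  have hΛ2 : 2 ≤ Λ := by omega
  have hΛr : (20000000 : ℝ) ≤ Λ := by exact_mod_cast hΛ0
  have hΛp : (0 : ℝ) < Λ := by linarith
  have hnΛ : Λ ≤ n := by
    refine le_trans ?_ hn
    exact Nat.le_self_pow (by norm_num) Λ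
  have hn1 : 1 ≤ n := by omega
  have hnr : (Λ : ℝ) ≤ n := by exact_mod_cast hnΛ
  have hn0 : (0 : ℝ) < n := by linarith
  have hs1 : ∑ l ∈ hs (board n) (NN Λ), PQ Λ n W Rp Rm l = 1 := PQ_sum
  -- a configuration
  have hQ : 0 < Q n := by
    by_contra hQ
    have hQ0 : (Qset n).card = 0 := by
      unfold Q at hQ
      omega
    have hno : ∀ l ∈ hs (board n) (NN Λ), PQ Λ n W Rp Rm l *
        (if Good Λ n Rp Rm l then (0 : ℝ) else 1) = PQ Λ n W Rp Rm l := by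
      intro l hl
      by_cases h0 : PQ Λ n W Rp Rm l = 0
      · rw [h0, zero_mul]
      · have hg : ¬ Good Λ n Rp Rm l := by
          intro hg
          obtain ⟨A, hA, -⟩ := good_config hΛ hn HG HR hl h0 hg
          rw [Finset.card_eq_zero] at hQ0
          rw [hQ0] at hA
          exact absurd hA (Finset.notMem_empty _)
        rw [if_neg hg, mul_one]
    have hp := pr_good hΛ hn HG HR
    rw [Finset.sum_congr rfl hno, hs1, le_div_iff₀ (by positivity)] at hp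
    nlinarith
  refine ⟨hQ, ?_⟩
  -- the encoding
  have hch : ∀ l, ∃ A : Finset (ℤ × ℤ), A ∈ insert ∅ (Qset n) ∧
      (l ∈ hs (board n) (NN Λ) → PQ Λ n W Rp Rm l ≠ 0 → Good Λ n Rp Rm l →
        ∑ k, (l k \ A).card ≤ m0 Λ n + ∑ k, (bad (l k)).card) := by
    intro l
    by_cases h : l ∈ hs (board n) (NN Λ) ∧ PQ Λ n W Rp Rm l ≠ 0 ∧ Good Λ n Rp Rm l
    · obtain ⟨A, hA, hA1⟩ := good_config hΛ hn HG HR h.1 h.2.1 h.2.2
      exact ⟨A, Finset.mem_insert_of_mem hA, fun _ _ _ => hA1⟩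
    · exact ⟨∅, Finset.mem_insert_self _ _, fun h1 h2 h3 => absurd ⟨h1, h2, h3⟩ h⟩
  choose σ hσG hσ1 using hch
  have hmean := cenc_mean hΛ hn HG HR σ fun l hl h0 hg => hσ1 l hl h0 hg
  set P : (Fin (NN Λ) → Finset (ℤ × ℤ)) → ℝ := fun l =>
    if l ∈ hs (board n) (NN Λ) then PQ Λ n W Rp Rm l else 0 with hP
  have hPe : ∀ l ∈ hs (board n) (NN Λ), P l = PQ Λ n W Rp Rm l := fun l hl => if_pos hl
  have hbne : (board n).Nonempty := by
    refine ⟨(0, 0), ?_⟩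
    rw [mem_board]
    have : (0 : ℤ) < n := by exact_mod_cast hn1
    exact ⟨⟨le_rfl, this⟩, ⟨le_rfl, this⟩⟩
  have henc := encode (board n) hbne (NN Λ) n (NN_pos hΛ2) P
    (fun l => by
      by_cases hl : l ∈ hs (board n) (NN Λ)
      · rw [hPe l hl]
        exact PQ_nonneg hΛ hn HG HR hl
      · exact le_of_eq (if_neg hl).symm)
    (by rw [Finset.sum_congr rfl hPe]; exact hs1)
    (fun l hl h0 => by
      rw [hPe l hl] at h0
      exact dis_l hΛ hn HG HR hl h0)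
    (insert ∅ (Qset n))
    (fun g hg => by
      rcases Finset.mem_insert.1 hg with rfl | hg
      · simp
      · exact (mem_Qset.1 hg).2.1.le)
    σ hσG
  have e1 : ∑ l ∈ hs (board n) (NN Λ), Real.negMulLog (P l) =
      ∑ l ∈ hs (board n) (NN Λ), Real.negMulLog (PQ Λ n W Rp Rm l) :=
    Finset.sum_congr rfl fun l hl => by rw [hPe l hl]
  have e2 : ∑ l ∈ hs (board n) (NN Λ), P l * ∑ k, ((l k \ σ l).card : ℝ) =
      ∑ l ∈ hs (board n) (NN Λ), PQ Λ n W Rp Rm l * ∑ k, ((l k \ σ l).card : ℝ) :=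
    Finset.sum_congr rfl fun l hl => by rw [hPe l hl]
  rw [e1, e2] at henc
  refine henc.trans ?_
  have hGc : ((insert ∅ (Qset n)).card : ℝ) ≤ (Q n : ℝ) + 1 := by
    have := Finset.card_insert_le (∅ : Finset (ℤ × ℤ)) (Qset n)
    unfold Q
    exact_mod_cast this
  have hG0 : (0 : ℝ) < ((insert ∅ (Qset n)).card : ℝ) := by
    have : 0 < (insert ∅ (Qset n)).card := Finset.card_pos.2 ⟨∅, Finset.mem_insert_self _ _⟩
    exact_mod_cast this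
  have t1 : Real.log ((insert ∅ (Qset n)).card : ℝ) ≤ Real.log ((Q n : ℝ) + 1) :=
    Real.log_le_log hG0 hGc
  have hNN : ((NN Λ : ℝ)) + 1 ≤ (Λ : ℝ) ^ 84 := by exact_mod_cast NN_le hΛ2
  have hNN0 : (0 : ℝ) ≤ NN Λ := Nat.cast_nonneg _
  have hlogΛ : 0 ≤ Real.log Λ := Real.log_nonneg (by linarith)
  have t2 : (n : ℝ) * Real.log ((NN Λ : ℝ) + 1) ≤ 84 * n * Real.log Λ := by
    have h1 : Real.log ((NN Λ : ℝ) + 1) ≤ Real.log ((Λ : ℝ) ^ 84) :=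
      Real.log_le_log (by positivity) hNN
    rw [Real.log_pow] at h1
    push_cast at h1
    have h2 := mul_le_mul_of_nonneg_left h1 hn0.le
    linarith
  have hcard : ((board n).card : ℝ) = (n : ℝ) ^ 2 := by
    unfold board
    rw [card_product, Int.card_Ico]
    simp [pow_two]
  have t3 : Real.log ((NN Λ : ℝ) * (board n).card) ≤ Λ := by
    have hNN1 : (1 : ℝ) ≤ NN Λ := by exact_mod_cast NN_pos hΛ2
    have h1 : (NN Λ : ℝ) * (board n).card ≤ (Λ : ℝ) ^ 2086 := by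
      rw [hcard]
      have h2 : (n : ℝ) ^ 2 ≤ ((Λ : ℝ) ^ 1001) ^ 2 := by
        have : (n : ℝ) ≤ (Λ : ℝ) ^ 1001 := by exact_mod_cast hn'
        gcongr
      calc (NN Λ : ℝ) * (n : ℝ) ^ 2 ≤ (Λ : ℝ) ^ 84 * ((Λ : ℝ) ^ 1001) ^ 2 := by
            apply mul_le_mul (by linarith) h2 (by positivity) (by positivity)
        _ = (Λ : ℝ) ^ 2086 := by
          rw [← pow_mul, ← pow_add]
    have h3 : 0 < (NN Λ : ℝ) * (board n).card := by
      rw [hcard]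
      positivity
    have h4 := Real.log_le_log h3 h1
    rw [Real.log_pow] at h4
    push_cast at h4
    exact h4.trans (cenc_log hΛr)
  have t4 : (∑ l ∈ hs (board n) (NN Λ), PQ Λ n W Rp Rm l * ∑ k, ((l k \ σ l).card : ℝ)) *
      Real.log ((NN Λ : ℝ) * (board n).card) ≤ 5001 * n / Λ := by
    have h0 : 0 ≤ ∑ l ∈ hs (board n) (NN Λ),
        PQ Λ n W Rp Rm l * ∑ k, ((l k \ σ l).card : ℝ) := by
      refine Finset.sum_nonneg fun l hl => mul_nonneg (PQ_nonneg hΛ hn HG HR hl) ?_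
      exact Finset.sum_nonneg fun k _ => Nat.cast_nonneg _
    calc (∑ l ∈ hs (board n) (NN Λ), PQ Λ n W Rp Rm l * ∑ k, ((l k \ σ l).card : ℝ)) *
        Real.log ((NN Λ : ℝ) * (board n).card) ≤
          (∑ l ∈ hs (board n) (NN Λ), PQ Λ n W Rp Rm l * ∑ k, ((l k \ σ l).card : ℝ)) * Λ :=
          mul_le_mul_of_nonneg_left t3 h0
      _ ≤ 5001 * n / (Λ : ℝ) ^ 2 * Λ := mul_le_mul_of_nonneg_right hmean hΛp.le
      _ = 5001 * n / Λ := by
        field_simp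
  have t5 : (1 : ℝ) ≤ n / Λ := by
    rw [le_div_iff₀ hΛp]
    linarith
  have t6 : 5002 * (n : ℝ) / Λ = 5001 * n / Λ + n / Λ := by ring
  rw [t6]
  linarith

end Pool.Agent.NQ
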