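import Pool.Agent.NQ.CStr
import Pool.Agent.NQ.CChe

/-!
# NQ-CFew: for every row and column many possible insertions are chosen in the first round

Plan. `law_zero` with `G T = 1[|T ∩ Frc| ≤ μ/4]`, `μ = n/(4Λ^26)`; `chernoff` with
`q = tt Λ 1 * wres ∈ [0,1]`, `tt Λ 1 = Λ^(-14)`, `B = Frc ⊆ board n`, `∑_{B} q ≥ Λ^(-14) n/(4 Λ^12) = μ`
(`RW.rc`).
-/

namespace Pool.Agent.NQ

open Finset

private theorem tt_one {Λ : ℕ} (hΛ : 30 ≤ Λ) : tt Λ 1 = 1 / (Λ : ℝ) ^ 14 := by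
  have hL : (0 : ℝ) < (Λ : ℝ) := by
    have : 0 < Λ := by omega
    exact_mod_cast this
  unfold tt
  rw [if_neg one_ne_zero, Nat.cast_one, add_sub_cancel_right]
  rw [div_eq_div_iff (by positivity) (by positivity), one_mul, ← pow_add]

theorem pr_few {Λ n : ℕ} {W : ℤ × ℤ → ℝ} {Rp Rm : Finset ℤ} (hΛ : 30 ≤ Λ)
    (hn : Λ ^ 500 ≤ n) (HG : GW Λ n W) (HR : RW Λ n W Rp Rm) (k : Fin (NN Λ)) (hk : (k : ℕ) = 0)
    {r c : ℤ} (hr : r ∈ Finset.Ico (0 : ℤ) n) (hc : c ∈ Finset.Ico (0 : ℤ) n) :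
    ∑ l ∈ hs (board n) (NN Λ), PQ Λ n W Rp Rm l *
      (if ((l k ∩ Frc n Rp Rm r c).card : ℝ) ≤ n / (16 * (Λ : ℝ) ^ 26) then 1 else 0) ≤
      Real.exp (-(n / (16 * (Λ : ℝ) ^ 26))) := by
  have H := ok_DQ hΛ hn HG HR
  have hL0 : (0 : ℝ) < (Λ : ℝ) := by
    have : 0 < Λ := by omega
    exact_mod_cast this
  have hL1 : (1 : ℝ) ≤ (Λ : ℝ) := by
    have : 1 ≤ Λ := by omega
    exact_mod_cast this
  have hn0 : (0 : ℝ) ≤ (n : ℝ) := Nat.cast_nonneg n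
  have h1 := law_zero H k hk (fun T => if ((T ∩ Frc n Rp Rm r c).card : ℝ) ≤ n / (16 * (Λ : ℝ) ^ 26) then 1 else 0)
  refine le_trans (le_of_eq h1) ?_
  have ht : (DQ Λ n W Rp Rm).t 1 = 1 / (Λ : ℝ) ^ 14 := tt_one hΛ
  have hw0 : ∀ e ∈ board n, 0 ≤ wres Λ W Rp Rm e := H.w0
  have hwβ : ∀ e ∈ board n, wres Λ W Rp Rm e ≤ 1 := by
    intro e he
    have h2 : wres Λ W Rp Rm e ≤ (DQ Λ n W Rp Rm).β := H.wβ e he
    have h3 := H.small
    have h4 : (DQ Λ n W Rp Rm).κ ≤ 1 := by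
      show 1 / (Λ : ℝ) ^ 28 ≤ 1
      rw [div_le_one (by positivity)]
      exact one_le_pow₀ hL1
    have h5 : (DQ Λ n W Rp Rm).κ ^ 4 ≤ 1 := pow_le_one₀ H.κ0.le h4
    linarith
  have ht1 : 1 / (Λ : ℝ) ^ 14 ≤ 1 := by
    rw [div_le_one (by positivity)]
    exact one_le_pow₀ hL1
  have ht0 : 0 ≤ 1 / (Λ : ℝ) ^ 14 := by positivity
  have hsub : Frc n Rp Rm r c ⊆ board n := by
    unfold Frc
    exact filter_subset _ _
  have hch := chernoff (board n) (Frc n Rp Rm r c) hsub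
    (fun e => (DQ Λ n W Rp Rm).t 1 * wres Λ W Rp Rm e)
    (fun e he => by
      rw [ht]
      exact mul_nonneg ht0 (hw0 e he))
    (fun e he => by
      rw [ht]
      exact mul_le_one₀ ht1 (hw0 e he) (hwβ e he))
    (μ := (n : ℝ) / (4 * (Λ : ℝ) ^ 26)) (by positivity) (by
      rw [← mul_sum, ht]
      have h6 := mul_le_mul_of_nonneg_left (HR.rc r hr c hc) ht0
      refine le_trans (le_of_eq ?_) h6
      rw [div_mul_div_comm, one_mul]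
      congr 1
      ring)
  have h7 : (n : ℝ) / (4 * (Λ : ℝ) ^ 26) / 4 = n / (16 * (Λ : ℝ) ^ 26) := by
    rw [div_div]
    congr 1
    ring
  rw [h7] at hch
  exact hch

end Pool.Agent.NQ
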