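import Pool.Agent.NQ.CDat
import Pool.Agent.NQ.ARie

/-!
# NQ-CLog: the density term

`w = wres`. For `e ∈ board n`, `log pe e (t k) = ∑_{v∈lines e} log (1 - d v * t k)` (factors `> 0` for
`k ≤ N`). Exchange the sums: `∑_k dl k ∑_e w e log pe = -∑_{v∈VS} w(v) ∑_k dl k (-log (1 - d v * t k))`,
`w(v) = ∑_{e∋v} w e ≤ d v` (`OK.deg`), and `-log (1 - d v * t k) ≥ 0`, so by `riemann_low` it is
`≥ -∑_{v∈VS} phi (d v)` (`VS_sub`; `phi_one` for rows and columns; `d (2,s) = dsum n W 2 s + 3/Λ³`).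
-/

namespace Pool.Agent.NQ

open Finset

private theorem clog_abs {V J : Type} [DecidableEq V] [DecidableEq J] {D : Dat V J} (H : OK D) :
    -(∑ v ∈ VS D, phi (D.d v)) ≤
      ∑ k ∈ range D.N, dl D k * ∑ e ∈ D.E, D.w e * Real.log (pe D e (D.t k)) := by
  have hpos : ∀ k < D.N, ∀ v, 0 < 1 - D.d v * D.t k := fun k hk v =>
    H.κ0.trans_le (one_sub_ge H hk.le v)
  have hlog : ∀ k < D.N, ∀ e ∈ D.E, D.w e * Real.log (pe D e (D.t k)) =
      ∑ v ∈ VS D, if v ∈ D.S e then D.w e * Real.log (1 - D.d v * D.t k) else 0 := by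
    intro k hk e he
    have h1 : (VS D).filter (fun v => v ∈ D.S e) = D.S e := by
      ext v
      rw [mem_filter]
      exact ⟨fun h => h.2, fun h => ⟨mem_biUnion.2 ⟨e, he, h⟩, h⟩⟩
    rw [← sum_filter, h1, ← mul_sum]
    unfold pe
    rw [Real.log_prod (fun v _ => (hpos k hk v).ne')]
  have h1 : ∑ k ∈ range D.N, dl D k * ∑ e ∈ D.E, D.w e * Real.log (pe D e (D.t k)) =
      -∑ v ∈ VS D, (∑ e ∈ D.E.filter (fun e => v ∈ D.S e), D.w e) *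
        ∑ k ∈ range D.N, (D.t (k + 1) - D.t k) * (-Real.log (1 - D.d v * D.t k)) := by
    have h2 : ∀ k ∈ range D.N, dl D k * ∑ e ∈ D.E, D.w e * Real.log (pe D e (D.t k)) =
        ∑ v ∈ VS D, (∑ e ∈ D.E.filter (fun e => v ∈ D.S e), D.w e) *
          (dl D k * Real.log (1 - D.d v * D.t k)) := by
      intro k hk
      rw [sum_congr rfl (hlog k (mem_range.1 hk)), sum_comm, mul_sum]
      refine sum_congr rfl fun v _ => ?_
      rw [← sum_filter, ← sum_mul]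
      ring
    rw [sum_congr rfl h2, sum_comm, ← sum_neg_distrib]
    refine sum_congr rfl fun v _ => ?_
    rw [← mul_sum, ← mul_neg, ← sum_neg_distrib]
    congr 1
    refine sum_congr rfl fun k _ => ?_
    unfold dl
    ring
  rw [h1]
  apply neg_le_neg
  refine sum_le_sum fun v _ => ?_
  have h3 : 0 ≤ ∑ k ∈ range D.N, (D.t (k + 1) - D.t k) * (-Real.log (1 - D.d v * D.t k)) := by
    refine sum_nonneg fun k hk => ?_
    have hk' := mem_range.1 hk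
    refine mul_nonneg (sub_nonneg.2 (H.tm k hk')) ?_
    have := Real.log_nonpos (hpos k hk' v).le (one_sub_le H hk'.le v)
    linarith
  refine (mul_le_mul_of_nonneg_right (H.deg v) h3).trans ?_
  refine riemann_low H.t0 H.tm (fun k hk => ?_) (H.d0 v) (H.d1 v)
  have := H.tN k hk
  have := H.κ0
  linarith

private theorem clog_union {α : Type} [DecidableEq α] (A B : Finset α) (f : α → ℝ)
    (hf : ∀ x, 0 ≤ f x) : ∑ x ∈ A ∪ B, f x ≤ ∑ x ∈ A, f x + ∑ x ∈ B, f x := by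
  have h := sum_union_inter (s₁ := A) (s₂ := B) (f := f)
  have h2 : 0 ≤ ∑ x ∈ A ∩ B, f x := sum_nonneg fun x _ => hf x
  linarith

private theorem clog_d01 (Λ n : ℕ) (W : ℤ × ℤ → ℝ) (Rp Rm : Finset ℤ) (i : Fin 4) (s : ℤ)
    (h : i = 0 ∨ i = 1) : (DQ Λ n W Rp Rm).d (i, s) = 1 := by
  show (if i = 0 ∨ i = 1 then (1 : ℝ) else _) = 1
  rw [if_pos h]

private theorem clog_d23 (Λ n : ℕ) (W : ℤ × ℤ → ℝ) (Rp Rm : Finset ℤ) (i : Fin 4) (s : ℤ)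
    (h : ¬ (i = 0 ∨ i = 1)) :
    (DQ Λ n W Rp Rm).d (i, s) = dsum n W i s + 3 / (Λ : ℝ) ^ 3 := by
  show (if i = 0 ∨ i = 1 then (1 : ℝ) else dsum n W i s + 3 / (Λ : ℝ) ^ 3) = _
  rw [if_neg h]

theorem log_pe {Λ n : ℕ} {W : ℤ × ℤ → ℝ} {Rp Rm : Finset ℤ} (hΛ : 30 ≤ Λ)
    (hn : Λ ^ 500 ≤ n) (HG : GW Λ n W) (HR : RW Λ n W Rp Rm) :
    -(2 * (n : ℝ)) -
      (∑ s ∈ Finset.Ico (0 : ℤ) (2 * n), phi (dsum n W 2 s + 3 / (Λ : ℝ) ^ 3) +
        ∑ s ∈ Finset.Ioo (-(n : ℤ)) n, phi (dsum n W 3 s + 3 / (Λ : ℝ) ^ 3)) ≤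
    ∑ k ∈ range (NN Λ), dl (DQ Λ n W Rp Rm) k * ∑ e ∈ board n, wres Λ W Rp Rm e *
      Real.log (pe (DQ Λ n W Rp Rm) e (tt Λ k)) := by
  have H := ok_DQ hΛ hn HG HR
  have h1 := clog_abs H
  refine le_trans ?_ h1
  have hf : ∀ v, 0 ≤ phi ((DQ Λ n W Rp Rm).d v) := fun v => phi_nonneg (H.d0 v) (H.d1 v)
  have h2 : ∑ v ∈ VS (DQ Λ n W Rp Rm), phi ((DQ Λ n W Rp Rm).d v) ≤ _ :=
    sum_le_sum_of_subset_of_nonneg VS_sub (fun v _ _ => hf v)
  have h3 := clog_union ((Finset.Ico (0 : ℤ) n).image (fun s => ((0 : Fin 4), s)) ∪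
        (Finset.Ico (0 : ℤ) n).image (fun s => ((1 : Fin 4), s)))
      ((Finset.Ico (0 : ℤ) (2 * n)).image (fun s => ((2 : Fin 4), s)) ∪
        (Finset.Ioo (-(n : ℤ)) n).image (fun s => ((3 : Fin 4), s)))
      (fun v => phi ((DQ Λ n W Rp Rm).d v)) hf
  have h4 := clog_union ((Finset.Ico (0 : ℤ) n).image (fun s => ((0 : Fin 4), s)))
    ((Finset.Ico (0 : ℤ) n).image (fun s => ((1 : Fin 4), s)))
    (fun v => phi ((DQ Λ n W Rp Rm).d v)) hf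
  have h5 := clog_union ((Finset.Ico (0 : ℤ) (2 * n)).image (fun s => ((2 : Fin 4), s)))
    ((Finset.Ioo (-(n : ℤ)) n).image (fun s => ((3 : Fin 4), s)))
    (fun v => phi ((DQ Λ n W Rp Rm).d v)) hf
  have e0 : ∑ v ∈ (Finset.Ico (0 : ℤ) n).image (fun s => ((0 : Fin 4), s)),
      phi ((DQ Λ n W Rp Rm).d v) = n := by
    rw [sum_image (fun x _ y _ h => (Prod.ext_iff.1 h).2)]
    have : ∀ s ∈ Finset.Ico (0 : ℤ) n, phi ((DQ Λ n W Rp Rm).d ((0 : Fin 4), s)) = 1 := by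
      intro s _
      rw [clog_d01 Λ n W Rp Rm 0 s (Or.inl rfl), phi_one]
    rw [sum_congr rfl this, sum_const, Int.card_Ico, nsmul_eq_mul, mul_one]
    simp
  have e1 : ∑ v ∈ (Finset.Ico (0 : ℤ) n).image (fun s => ((1 : Fin 4), s)),
      phi ((DQ Λ n W Rp Rm).d v) = n := by
    rw [sum_image (fun x _ y _ h => (Prod.ext_iff.1 h).2)]
    have : ∀ s ∈ Finset.Ico (0 : ℤ) n, phi ((DQ Λ n W Rp Rm).d ((1 : Fin 4), s)) = 1 := by
      intro s _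
      rw [clog_d01 Λ n W Rp Rm 1 s (Or.inr rfl), phi_one]
    rw [sum_congr rfl this, sum_const, Int.card_Ico, nsmul_eq_mul, mul_one]
    simp
  have e2 : ∑ v ∈ (Finset.Ico (0 : ℤ) (2 * n)).image (fun s => ((2 : Fin 4), s)),
      phi ((DQ Λ n W Rp Rm).d v) =
      ∑ s ∈ Finset.Ico (0 : ℤ) (2 * n), phi (dsum n W 2 s + 3 / (Λ : ℝ) ^ 3) := by
    rw [sum_image (fun x _ y _ h => (Prod.ext_iff.1 h).2)]
    refine sum_congr rfl fun s _ => ?_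
    rw [clog_d23 Λ n W Rp Rm 2 s (by decide)]
  have e3 : ∑ v ∈ (Finset.Ioo (-(n : ℤ)) n).image (fun s => ((3 : Fin 4), s)),
      phi ((DQ Λ n W Rp Rm).d v) =
      ∑ s ∈ Finset.Ioo (-(n : ℤ)) n, phi (dsum n W 3 s + 3 / (Λ : ℝ) ^ 3) := by
    rw [sum_image (fun x _ y _ h => (Prod.ext_iff.1 h).2)]
    refine sum_congr rfl fun s _ => ?_
    rw [clog_d23 Λ n W Rp Rm 3 s (by decide)]
  rw [e0, e1] at h4
  rw [e2, e3] at h5
  linarith

end Pool.Agent.NQ
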