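import Pool.Agent.NQ.NBas

/-!
# NQ-NR1: the mean over one round

Plan. From the `EW` lemmas of `Pool.Agent.PGr.NibProb` (`EW_add`, `EW_const_mul`, `EW_sum`, `EW_congr`,
`EW_mono`, `EW_one`); monotonicity needs `0 ≤ qq ≤ 1` on `E` and `0 ≤ kp ≤ 1` on `VS D` (`NBas`).
-/

namespace Pool.Agent.NQ

open Finset
open Pool.Agent.PGr.Nib (EW)

variable {V J : Type} [DecidableEq V] [DecidableEq J] {D : Dat V J}

theorem R1_add (k : ℕ) (u : J → ℝ) (f g : Finset J → Finset V → ℝ) :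
    R1 D k u (fun T Z => f T Z + g T Z) = R1 D k u f + R1 D k u g := by
  unfold R1
  simp only [Pool.Agent.PGr.Nib.EW_add]

theorem R1_sub (k : ℕ) (u : J → ℝ) (f g : Finset J → Finset V → ℝ) :
    R1 D k u (fun T Z => f T Z - g T Z) = R1 D k u f - R1 D k u g := by
  unfold R1
  simp only [Pool.Agent.PGr.Nib.EW_sub]

theorem R1_const_mul (k : ℕ) (u : J → ℝ) (c : ℝ) (f : Finset J → Finset V → ℝ) :
    R1 D k u (fun T Z => c * f T Z) = c * R1 D k u f := by
  unfold R1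
  simp only [Pool.Agent.PGr.Nib.EW_const_mul]

theorem R1_sum {K : Type} (k : ℕ) (u : J → ℝ) (s : Finset K) (f : K → Finset J → Finset V → ℝ) :
    R1 D k u (fun T Z => ∑ i ∈ s, f i T Z) = ∑ i ∈ s, R1 D k u (f i) := by
  unfold R1
  simp only [Pool.Agent.PGr.Nib.EW_sum]

theorem R1_const (k : ℕ) (u : J → ℝ) (c : ℝ) : R1 D k u (fun _ _ => c) = c := by
  have h1 : ∀ {I : Type} [DecidableEq I] (A : Finset I) (p : I → ℝ),
      EW A p (fun _ => c) = c := by
    intro I _ A p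
    have h := Pool.Agent.PGr.Nib.EW_const_mul A p c (fun _ => 1)
    rw [Pool.Agent.PGr.Nib.EW_one, mul_one] at h
    simpa using h
  unfold R1
  simp only [h1]

theorem R1_mono (H : OK D) {k : ℕ} (hk : k < D.N) {u : J → ℝ} (hu : Inv D k u)
    {f g : Finset J → Finset V → ℝ} (h : ∀ T ⊆ D.E, ∀ Z ⊆ VS D, f T Z ≤ g T Z) :
    R1 D k u f ≤ R1 D k u g := by
  unfold R1
  refine Pool.Agent.PGr.Nib.EW_mono (fun e he => qq_nonneg H hk hu he)
    (fun e he => ?_) fun T hT => ?_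
  · exact (qq_le H hk hu he).trans ((qm_le H).trans (by norm_num))
  · exact Pool.Agent.PGr.Nib.EW_mono (fun v _ => kp_nonneg H hk hu v)
      (fun v _ => kp_le_one H hk hu v) fun Z hZ => h T hT Z hZ

end Pool.Agent.NQ
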