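import Pool.Agent.NQ.NInv
import Pool.Agent.NQ.NR1

/-!
# NQ-NEE: the mean of functions of the state at time `k`

Plan. `EE_mono`: by induction on `k` (generalising `f, g`), from `R1_mono` and `inv_next`:
if `f u ≤ g u` for all `u` with `Inv D (k+1) u` then `RR D k f u ≤ RR D k g u` for `Inv D k u`. Linearity:
induction on `k`, from the linearity of `R1`. `mass_le`: `4 mass k u = ∑_{v∈VS} ∑_{e∋v} u e/pe ≤ ∑_v tau k v`
`≤ |VS|/κ` (exchange the sums, `OK.card`, `tau_le`).
-/

namespace Pool.Agent.NQ

open Finset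

variable {V J : Type} [DecidableEq V] [DecidableEq J] {D : Dat V J}

theorem EE_mono (H : OK D) {k : ℕ} (hk : k ≤ D.N) {f g : (J → ℝ) → ℝ}
    (h : ∀ u, Inv D k u → f u ≤ g u) : EE D k f ≤ EE D k g := by
  induction k generalizing f g with
  | zero => exact h _ (inv_zero H)
  | succ k ih =>
    show EE D k (RR D k f) ≤ EE D k (RR D k g)
    refine ih (by omega) fun u hu => ?_
    unfold RR
    exact R1_mono H (by omega) hu fun T _ Z _ => h _ (inv_next H (by omega) hu T Z)

theorem EE_add (k : ℕ) (f g : (J → ℝ) → ℝ) :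
    EE D k (fun u => f u + g u) = EE D k f + EE D k g := by
  induction k generalizing f g with
  | zero => rfl
  | succ k ih =>
    show EE D k (RR D k (fun u => f u + g u)) = EE D k (RR D k f) + EE D k (RR D k g)
    rw [← ih]
    congr 1
    funext u
    exact R1_add k u (fun T Z => f (next D k u T Z)) (fun T Z => g (next D k u T Z))

theorem EE_const_mul (k : ℕ) (c : ℝ) (f : (J → ℝ) → ℝ) :
    EE D k (fun u => c * f u) = c * EE D k f := by
  induction k generalizing f with
  | zero => rfl
  | succ k ih =>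
    show EE D k (RR D k (fun u => c * f u)) = c * EE D k (RR D k f)
    rw [← ih]
    congr 1
    funext u
    exact R1_const_mul k u c (fun T Z => f (next D k u T Z))

theorem EE_const (k : ℕ) (c : ℝ) : EE D k (fun _ => c) = c := by
  induction k with
  | zero => rfl
  | succ k ih =>
    show EE D k (RR D k (fun _ => c)) = c
    have h1 : RR D k (fun _ => c) = fun _ => c := by
      funext u
      exact R1_const k u c
    rw [h1]
    exact ih

theorem EE_sum {K : Type} (k : ℕ) (s : Finset K) (f : K → (J → ℝ) → ℝ) :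
    EE D k (fun u => ∑ i ∈ s, f i u) = ∑ i ∈ s, EE D k (f i) := by
  induction k generalizing f with
  | zero => rfl
  | succ k ih =>
    show EE D k (RR D k (fun u => ∑ i ∈ s, f i u)) = ∑ i ∈ s, EE D k (RR D k (f i))
    rw [← ih]
    congr 1
    funext u
    exact R1_sum k u s (fun i T Z => f i (next D k u T Z))

theorem mass_le (H : OK D) {k : ℕ} (hk : k ≤ D.N) {u : J → ℝ} (hu : Inv D k u) :
    mass D k u ≤ (VS D).card / (4 * D.κ) := by
  have h1 : ∑ v ∈ VS D, ∑ e ∈ D.E.filter (fun e => v ∈ D.S e), u e / pe D e (D.t k) =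
      4 * mass D k u := by
    have h2 : ∀ v ∈ VS D, ∑ e ∈ D.E.filter (fun e => v ∈ D.S e), u e / pe D e (D.t k) =
        ∑ e ∈ D.E, if v ∈ D.S e then u e / pe D e (D.t k) else 0 := fun v _ =>
      Finset.sum_filter _ _
    rw [Finset.sum_congr rfl h2, Finset.sum_comm]
    unfold mass
    rw [Finset.mul_sum]
    refine Finset.sum_congr rfl fun e he => ?_
    rw [← Finset.sum_filter]
    have h3 : (VS D).filter (fun v => v ∈ D.S e) = D.S e := by
      ext v
      rw [Finset.mem_filter]
      constructor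
      · exact fun h => h.2
      · intro h
        refine ⟨?_, h⟩
        unfold VS
        exact Finset.mem_biUnion.2 ⟨e, he, h⟩
    rw [h3, Finset.sum_const, H.card e he, nsmul_eq_mul]
    norm_num
  have h2 : ∑ v ∈ VS D, ∑ e ∈ D.E.filter (fun e => v ∈ D.S e), u e / pe D e (D.t k) ≤
      (VS D).card * (1 / D.κ) := by
    calc _ ≤ ∑ v ∈ VS D, (1 / D.κ) :=
          Finset.sum_le_sum fun v _ => (hu.deg v).trans (tau_le H hk v)
      _ = (VS D).card * (1 / D.κ) := by rw [Finset.sum_const, nsmul_eq_mul]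
  rw [h1] at h2
  have hκ := H.κ0
  rw [le_div_iff₀ (by positivity)]
  have h3 : 4 * mass D k u * D.κ ≤ (VS D).card * (1 / D.κ) * D.κ :=
    mul_le_mul_of_nonneg_right h2 hκ.le
  have h4 : ((VS D).card : ℝ) * (1 / D.κ) * D.κ = (VS D).card := by
    field_simp
  linarith

end Pool.Agent.NQ
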