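import Pool.Agent.NQ.NLaw
import Pool.Agent.NQ.NEE

/-!
# NQ-NEnt: the entropy of the law is at least the sum of the conditional entropies

Plan. Let `HH r k u = ∑ l ∈ hs E r, negMulLog (law D r k u l)`. For `Inv D k u`, `k + r + 1 ≤ N`:
`HH (r+1) k u ≥ h k u + R1 D k u (fun T Z => HH r (k+1) (next D k u T Z))`, where
`h k u = ∑_{T ⊆ E} negMulLog (bern E (qq D k u) T)`. Indeed `law (r+1) k u l = b (l 0) * m_{l 0} (tail l)`
with `m_T l' = EW VS kp (fun Z => law r (k+1) (next k u T Z) l')`; `negMulLog (b m) = m negMulLog b + b negMulLog m`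
(`Real.negMulLog_mul`), sum over `l'`: `∑ m_T = 1` (`law_sum`, `EW_one`) and
`∑_{l'} negMulLog (m_T l') ≥ EW VS kp (fun Z => HH r (k+1) (next ..))` by `mix` (weights
`bern (VS D) kp Z`). Sum over `T` with `b T = bern E qq T ≥ 0`.
Then `∑_{j<k} EE D j (h j) + EE D k (HH (N-k) k) ≤ HH N 0 D.w` by induction on `k` (`EE_mono`, `EE_add`).
-/

namespace Pool.Agent.NQ

open Finset
open Pool.Agent.PGr.Nib (EW)

variable {V J : Type} [DecidableEq V] [DecidableEq J] {D : Dat V J}

/-- Entropy of the law. -/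
private noncomputable def HH (D : Dat V J) (r k : ℕ) (u : J → ℝ) : ℝ :=
  ∑ l ∈ hs D.E r, Real.negMulLog (law D r k u l)

/-- Entropy of one round. -/
private noncomputable def hh (D : Dat V J) (k : ℕ) (u : J → ℝ) : ℝ :=
  ∑ T ∈ D.E.powerset, Real.negMulLog (bern D.E (qq D k u) T)

private theorem HH_step (H : OK D) {r k : ℕ} (hk : k + (r + 1) ≤ D.N) {u : J → ℝ}
    (hu : Inv D k u) :
    hh D k u + RR D k (HH D r (k + 1)) u ≤ HH D (r + 1) k u := by
  have hkN : k < D.N := by omega
  have hq0 : ∀ e ∈ D.E, 0 ≤ qq D k u e := fun e he => qq_nonneg H hkN hu he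
  have hq1 : ∀ e ∈ D.E, qq D k u e ≤ 1 := fun e he =>
    (qq_le H hkN hu he).trans ((qm_le H).trans (by norm_num))
  have hk0 : ∀ v ∈ VS D, 0 ≤ kp D k u v := fun v _ => kp_nonneg H hkN hu v
  have hk1 : ∀ v ∈ VS D, kp D k u v ≤ 1 := fun v _ => kp_le_one H hkN hu v
  set m : Finset J → (Fin r → Finset J) → ℝ := fun T l' =>
    ∑ Z ∈ (VS D).powerset, bern (VS D) (kp D k u) Z * law D r (k + 1) (next D k u T Z) l' with hm
  have h1 : HH D (r + 1) k u = ∑ T ∈ D.E.powerset, ∑ l' ∈ hs D.E r,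
      Real.negMulLog (bern D.E (qq D k u) T * m T l') := by
    rw [← sum_hs_succ D.E r (fun T l' => Real.negMulLog (bern D.E (qq D k u) T * m T l'))]
    unfold HH
    refine sum_congr rfl fun l _ => ?_
    rw [law, EW_eq_bern]
  have hmsum : ∀ T, ∑ l' ∈ hs D.E r, m T l' = 1 := by
    intro T
    simp only [hm]
    rw [sum_comm]
    calc _ = ∑ Z ∈ (VS D).powerset, bern (VS D) (kp D k u) Z * 1 := by
          refine sum_congr rfl fun Z _ => ?_
          rw [← mul_sum, law_sum]
      _ = 1 := by simp only [mul_one]; exact bern_sum _ _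
  have hmix : ∀ T, EW (VS D) (kp D k u) (fun Z => HH D r (k + 1) (next D k u T Z)) ≤
      ∑ l' ∈ hs D.E r, Real.negMulLog (m T l') := by
    intro T
    rw [EW_eq_bern]
    exact mix (hs D.E r) (VS D).powerset (bern (VS D) (kp D k u))
      (fun Z hZ => bern_nonneg hk0 hk1 (mem_powerset.1 hZ)) (bern_sum _ _)
      (fun Z l' => law D r (k + 1) (next D k u T Z) l')
      (fun Z _ l' hl' => law_nonneg H (by omega) (inv_next H hkN hu T Z) hl')
  have h2 : HH D (r + 1) k u = hh D k u + ∑ T ∈ D.E.powerset, bern D.E (qq D k u) T *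
      ∑ l' ∈ hs D.E r, Real.negMulLog (m T l') := by
    rw [h1, hh, ← sum_add_distrib]
    refine sum_congr rfl fun T _ => ?_
    simp only [Real.negMulLog_mul]
    rw [sum_add_distrib, ← sum_mul, hmsum, one_mul, ← mul_sum]
  rw [h2]
  refine add_le_add le_rfl ?_
  unfold RR R1
  rw [EW_eq_bern]
  refine sum_le_sum fun T hT => ?_
  exact mul_le_mul_of_nonneg_left (hmix T) (bern_nonneg hq0 hq1 (mem_powerset.1 hT))

private theorem HH_iter (H : OK D) (k : ℕ) (hk : k ≤ D.N) :
    ∑ j ∈ range k, EE D j (hh D j) + EE D k (HH D (D.N - k) k) ≤ HH D D.N 0 D.w := by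
  induction k with
  | zero => simp [EE]
  | succ k ih =>
    refine le_trans ?_ (ih (by omega))
    rw [sum_range_succ, add_assoc]
    refine add_le_add le_rfl ?_
    have : EE D (k + 1) (HH D (D.N - (k + 1)) (k + 1)) =
        EE D k (RR D k (HH D (D.N - (k + 1)) (k + 1))) := rfl
    rw [this, ← EE_add]
    refine EE_mono H (by omega) fun u hu => ?_
    have h := HH_step H (r := D.N - (k + 1)) (k := k) (by omega) hu
    have e : D.N - (k + 1) + 1 = D.N - k := by omega
    rw [e] at h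
    exact h

theorem law_ent (H : OK D) :
    ∑ k ∈ range D.N, EE D k (fun u => ∑ T ∈ D.E.powerset, Real.negMulLog (bern D.E (qq D k u) T)) ≤
      ∑ l ∈ hs D.E D.N, Real.negMulLog (law D D.N 0 D.w l) := by
  have h := HH_iter H D.N le_rfl
  have h0 : EE D D.N (HH D (D.N - D.N) D.N) = 0 := by
    have : HH D (D.N - D.N) D.N = fun _ => (0 : ℝ) := by
      funext u
      unfold HH
      rw [Nat.sub_self]
      refine sum_eq_zero fun l _ => ?_
      rw [law, Real.negMulLog_one]
    rw [this, EE_const]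
  rw [h0, add_zero] at h
  exact h

end Pool.Agent.NQ
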