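import Pool.Agent.NQ.NStep
import Pool.Agent.NQ.NEnt

/-!
# NQ-NLow: explicit lower bound for the entropy

The conditional entropies of the rounds are bounded from below with the coefficients
`cf k e = 1 + log (pe e (t k) / (dl k * w e))`.
-/

namespace Pool.Agent.NQ

open Finset

variable {V J : Type} [DecidableEq V] [DecidableEq J] {D : Dat V J}

/-- The coefficients. -/
noncomputable def cf (D : Dat V J) (k : ℕ) (e : J) : ℝ :=
  1 + Real.log (pe D e (D.t k) / (dl D k * D.w e))

private theorem low_pt (H : OK D) {k : ℕ} (hk : k < D.N) {u : J → ℝ} (hu : Inv D k u) :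
    dl D k * ∑ e ∈ D.E, cf D k e * (u e / pe D e (D.t k)) +
        (-(qm D * dl D k)) * mass D k u ≤
      ∑ T ∈ D.E.powerset, Real.negMulLog (bern D.E (qq D k u) T) := by
  have hq1 : ∀ e ∈ D.E, qq D k u e < 1 := fun e he =>
    (qq_le H hk hu he).trans_lt (by
      have := qm_le H
      linarith)
  refine le_trans ?_
    (bern_entropy_ge D.E (qq D k u) (fun e he => qq_nonneg H hk hu he) hq1)
  unfold mass
  rw [Finset.mul_sum, Finset.mul_sum, ← Finset.sum_add_distrib]
  refine Finset.sum_le_sum fun e he => ?_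
  have h1 : dl D k * (u e / pe D e (D.t k)) = qq D k u e := by
    unfold qq
    rw [mul_div_assoc]
  have h2 : dl D k * (cf D k e * (u e / pe D e (D.t k))) +
      (-(qm D * dl D k)) * (u e / pe D e (D.t k)) = qq D k u e * (cf D k e - qm D) := by
    rw [← h1]
    ring
  rw [h2]
  rcases (qq_nonneg H hk hu he).eq_or_lt with h3 | h3
  · rw [← h3, zero_mul, zero_mul]
  · refine mul_le_mul_of_nonneg_left ?_ h3.le
    have hp := pe_pos H hk.le he
    have hd0 := dl_nonneg H hk
    have hd : 0 < dl D k := by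
      rcases hd0.eq_or_lt with h | h
      · exfalso
        rw [← h1, ← h, zero_mul] at h3
        exact lt_irrefl _ h3
      · exact h
    have hu0 : 0 < u e := by
      rcases (hu.u0 e he).eq_or_lt with h | h
      · exfalso
        rw [← h1, ← h, zero_div, mul_zero] at h3
        exact lt_irrefl _ h3
      · exact h
    have hw := hu.uw e he
    have hw0 : 0 < D.w e := hu0.trans_le hw
    have h4 : Real.log (pe D e (D.t k) / (dl D k * D.w e)) ≤ -Real.log (qq D k u e) := by
      rw [← Real.log_inv]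
      refine Real.log_le_log (div_pos hp (mul_pos hd hw0)) ?_
      unfold qq
      rw [inv_div]
      exact div_le_div_of_nonneg_left hp.le (mul_pos hd hu0) (mul_le_mul_of_nonneg_left hw hd.le)
    have h5 := qq_le H hk hu he
    unfold cf
    linarith

private theorem low_k (H : OK D) (h6 : 6 * (D.N : ℝ) * qm D ≤ 1) {L : ℝ} (hL0 : 0 ≤ L) {k : ℕ}
    (hk : k < D.N) (hL : ∀ e ∈ D.E, 0 < D.w e → 0 < dl D k → cf D k e ≤ L) :
    dl D k * (∑ e ∈ D.E, D.w e * cf D k e -
      (L * (2 * D.N * D.ζ * (VS D).card + 6 * D.N * qm D * ∑ e ∈ D.E, D.w e) +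
        qm D * ((VS D).card / (4 * D.κ)))) ≤
      EE D k (fun u => ∑ T ∈ D.E.powerset, Real.negMulLog (bern D.E (qq D k u) T)) := by
  set a : J → ℝ := fun e => EE D k (fun u => u e / pe D e (D.t k)) with ha
  have hd0 := dl_nonneg H hk
  have hd1 := dl_le_one H hk
  have hq0 := qm_nonneg H
  have hmass : EE D k (mass D k) = ∑ e ∈ D.E, a e := EE_sum k D.E _
  have hEE : EE D k (fun u => dl D k * ∑ e ∈ D.E, cf D k e * (u e / pe D e (D.t k)) +
      (-(qm D * dl D k)) * mass D k u) =
      dl D k * ∑ e ∈ D.E, cf D k e * a e + (-(qm D * dl D k)) * EE D k (mass D k) := by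
    rw [EE_add, EE_const_mul, EE_const_mul, EE_sum]
    congr 2
    refine Finset.sum_congr rfl fun e _ => ?_
    rw [EE_const_mul]
  refine le_trans ?_ (EE_mono H hk.le fun u hu => low_pt H hk hu)
  rw [hEE]
  have hm1 : EE D k (mass D k) ≤ (VS D).card / (4 * D.κ) := by
    have h := EE_mono H hk.le (f := mass D k) (g := fun _ => (VS D).card / (4 * D.κ))
      fun u hu => mass_le H hk.le hu
    rwa [EE_const] at h
  have hm2 := EE_mass H hk.le
  rw [hmass] at hm2
  rcases hd0.eq_or_lt with h0 | hd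
  · rw [← h0]
    simp
  have ha0 : ∀ e ∈ D.E, 0 ≤ a e := by
    intro e he
    have h := EE_mono H hk.le (f := fun _ => (0 : ℝ)) (g := fun u => u e / pe D e (D.t k))
      fun u hu => div_nonneg (hu.u0 e he) (pe_pos H hk.le he).le
    rwa [EE_const] at h
  have hbd : ∀ e ∈ D.E, a e - D.w e ≤ 6 * D.N * qm D * D.w e := by
    intro e he
    have h1 := EE_edge H hk.le he
    have hw := H.w0 e he
    have hN : (k : ℝ) ≤ D.N := by exact_mod_cast hk.le
    have h2 : 1 - 3 * (D.N : ℝ) * qm D ≤ (1 - qm D) ^ (3 * k) := by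
      have h3 := one_add_mul_le_pow (a := -qm D) (by
        have := qm_le H
        linarith) (3 * k)
      have h4 : 1 - 3 * (D.N : ℝ) * qm D ≤ 1 + ((3 * k : ℕ) : ℝ) * -qm D := by
        push_cast
        nlinarith
      refine h4.trans (h3.trans (le_of_eq ?_))
      rw [← sub_eq_add_neg]
    have h5 : a e * (1 - 3 * (D.N : ℝ) * qm D) ≤ D.w e :=
      (mul_le_mul_of_nonneg_left h2 (ha0 e he)).trans h1
    set x : ℝ := (D.N : ℝ) * qm D with hx
    have hx0 : 0 ≤ x := mul_nonneg (Nat.cast_nonneg _) hq0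
    have hx6 : 6 * x ≤ 1 := by
      rw [hx]
      linarith
    have h7 : a e * (1 - 3 * x) ≤ D.w e := by
      have h8 : 1 - 3 * x = 1 - 3 * (D.N : ℝ) * qm D := by
        rw [hx]
        ring
      rw [h8]
      exact h5
    have h9 : 6 * (D.N : ℝ) * qm D * D.w e = 6 * x * D.w e := by
      rw [hx]
      ring
    rw [h9]
    have h10 : a e ≤ 2 * D.w e := by
      have h11 : a e * (1 / 2) ≤ a e * (1 - 3 * x) :=
        mul_le_mul_of_nonneg_left (by linarith) (ha0 e he)
      linarith
    have h12 : a e * x ≤ 2 * D.w e * x := mul_le_mul_of_nonneg_right h10 hx0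
    nlinarith
  have hterm : ∀ e ∈ D.E, D.w e * cf D k e - L * ((D.w e - a e) + 6 * D.N * qm D * D.w e) ≤
      cf D k e * a e := by
    intro e he
    rcases (H.w0 e he).eq_or_lt with hw | hw
    · have h1 : a e = 0 := by
        refine le_antisymm ?_ (ha0 e he)
        have h := EE_mono H hk.le (f := fun u => u e / pe D e (D.t k)) (g := fun _ => (0 : ℝ))
          fun u hu => by
            have h2 : u e = 0 := le_antisymm ((hu.uw e he).trans (le_of_eq hw.symm)) (hu.u0 e he)
            show u e / pe D e (D.t k) ≤ 0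
            rw [h2, zero_div]
        rwa [EE_const] at h
      rw [h1, ← hw]
      simp
    · have hp := pe_pos H hk.le he
      have hc0 : 0 ≤ cf D k e := by
        have h1 : 1 ≤ pe D e (D.t k) / (dl D k * D.w e) := by
          rw [le_div_iff₀ (mul_pos hd hw), one_mul]
          have h2 := pe_ge H hk.le he
          have h3 := H.wβ e he
          have h4 := H.small
          have h5 := H.β0
          have h6 : dl D k * D.w e ≤ D.w e := mul_le_of_le_one_left hw.le hd1
          linarith
        have h2 := Real.log_nonneg h1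
        unfold cf
        linarith
      have hcL := hL e he hw hd
      have hb := hbd e he
      rcases le_total (D.w e) (a e) with h1 | h1
      · have h2 : D.w e * cf D k e ≤ cf D k e * a e := by
          rw [mul_comm]
          exact mul_le_mul_of_nonneg_left h1 hc0
        have h3 : 0 ≤ L * ((D.w e - a e) + 6 * D.N * qm D * D.w e) :=
          mul_nonneg hL0 (by linarith)
        linarith
      · have h2 : (D.w e - a e) * cf D k e ≤ (D.w e - a e) * L :=
          mul_le_mul_of_nonneg_left hcL (by linarith)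
        have h3 : 0 ≤ L * (6 * D.N * qm D * D.w e) := by
          have : (0 : ℝ) ≤ D.N := Nat.cast_nonneg _
          positivity
        nlinarith
  have hsum := Finset.sum_le_sum hterm
  rw [Finset.sum_sub_distrib, ← Finset.mul_sum, Finset.sum_add_distrib, Finset.sum_sub_distrib,
    ← Finset.mul_sum] at hsum
  have hkN : (k : ℝ) * (2 * D.ζ * (VS D).card) ≤ 2 * D.N * D.ζ * (VS D).card := by
    have hN : (k : ℝ) ≤ D.N := by exact_mod_cast hk.le
    have h1 : 0 ≤ 2 * D.ζ * ((VS D).card : ℝ) :=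
      mul_nonneg (mul_nonneg zero_le_two H.ζ0.le) (Nat.cast_nonneg _)
    have h2 := mul_le_mul_of_nonneg_right hN h1
    linarith
  have h20 : ∑ e ∈ D.E, D.w e * cf D k e -
      L * (2 * D.N * D.ζ * (VS D).card + 6 * D.N * qm D * ∑ e ∈ D.E, D.w e) ≤
      ∑ e ∈ D.E, cf D k e * a e := by
    refine le_trans ?_ hsum
    have h21 : ∑ e ∈ D.E, D.w e - ∑ e ∈ D.E, a e ≤ 2 * D.N * D.ζ * (VS D).card := by linarith
    have h22 := mul_le_mul_of_nonneg_left h21 hL0
    linarith
  have h23 := mul_le_mul_of_nonneg_left h20 hd.le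
  have h24 := mul_le_mul_of_nonneg_left hm1 (mul_nonneg hq0 hd.le)
  have h25 : dl D k * (∑ e ∈ D.E, D.w e * cf D k e -
      (L * (2 * D.N * D.ζ * (VS D).card + 6 * D.N * qm D * ∑ e ∈ D.E, D.w e) +
        qm D * ((VS D).card / (4 * D.κ)))) =
      dl D k * (∑ e ∈ D.E, D.w e * cf D k e -
        L * (2 * D.N * D.ζ * (VS D).card + 6 * D.N * qm D * ∑ e ∈ D.E, D.w e)) -
        qm D * dl D k * ((VS D).card / (4 * D.κ)) := by ring
  rw [h25]
  linarith

theorem ent_low (H : OK D) (h6 : 6 * (D.N : ℝ) * qm D ≤ 1) {L : ℝ} (hL0 : 0 ≤ L)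
    (hL : ∀ k < D.N, ∀ e ∈ D.E, 0 < D.w e → 0 < dl D k → cf D k e ≤ L) :
    ∑ k ∈ range D.N, dl D k * ∑ e ∈ D.E, D.w e * cf D k e -
      L * (2 * D.N * D.ζ * (VS D).card + 6 * D.N * qm D * ∑ e ∈ D.E, D.w e) -
        qm D * ((VS D).card / (4 * D.κ)) ≤
      ∑ l ∈ hs D.E D.N, Real.negMulLog (law D D.N 0 D.w l) := by
  refine le_trans ?_ (law_ent H)
  have h1 := Finset.sum_le_sum fun k (hk : k ∈ range D.N) =>
    low_k H h6 hL0 (Finset.mem_range.1 hk) (hL k (Finset.mem_range.1 hk))
  refine le_trans ?_ h1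
  set X : ℝ := L * (2 * D.N * D.ζ * (VS D).card + 6 * D.N * qm D * ∑ e ∈ D.E, D.w e) +
        qm D * ((VS D).card / (4 * D.κ)) with hX
  have hX0 : 0 ≤ X := by
    have h2 := qm_nonneg H
    have h3 := H.ζ0
    have h4 := H.κ0
    have h5 : 0 ≤ ∑ e ∈ D.E, D.w e := Finset.sum_nonneg H.w0
    have h7 : (0 : ℝ) ≤ D.N := Nat.cast_nonneg _
    rw [hX]
    positivity
  have h2 : ∑ k ∈ range D.N, dl D k * (∑ e ∈ D.E, D.w e * cf D k e - X) =
      ∑ k ∈ range D.N, dl D k * ∑ e ∈ D.E, D.w e * cf D k e -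
        (∑ k ∈ range D.N, dl D k) * X := by
    rw [Finset.sum_mul, ← Finset.sum_sub_distrib]
    refine Finset.sum_congr rfl fun k _ => ?_
    ring
  rw [h2]
  have h3 : ∑ k ∈ range D.N, dl D k = D.t D.N - D.t 0 := Finset.sum_range_sub D.t D.N
  have h4 : ∑ k ∈ range D.N, dl D k ≤ 1 := by
    rw [h3, H.t0]
    have h5 := H.tN D.N le_rfl
    have h7 := H.κ0
    linarith
  have h5 := mul_le_mul_of_nonneg_right h4 hX0
  rw [one_mul] at h5
  linarith

end Pool.Agent.NQ
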