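import Pool.Agent.NQ.CLog
import Pool.Agent.NQ.NLow

/-!
# NQ-CMain: lower bound for the entropy of the law

Plan. `ent_low` for `D = DQ` (`qm = Λ^61/n · Λ^112 = Λ^173/n`; `6 N qm ≤ 6 Λ^257/n ≤ 1`).
`cf k e ≤ 1 + log (Λ^84 · 4Λ²n) ≤ Λ =: L` for `w e > 0` (`wres e ≥ W e ≥ 1/(4Λ²n)`, `dl k ≥ Λ^(-84)`,
`pe ≤ 1`, `n ≤ Λ^1001`, `Λ ≥ Λ0`). Error terms: `L (2 Λ^84 Λ^(-113) 6 n + 6 Λ^257/n · n) ≤ n/Λ`,
`qm |VS|/(4κ) ≤ 2 Λ^201 ≤ n/Λ`.
Main term: for `w e > 0`, `cf = 1 + log pe(t k) - log dl k - log w e`, so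
`∑_k dl k ∑_e w e cf = tN ∑w + ∑_k dl k ∑_e w_e log pe e (t k) - (∑_k dl k log dl k) ∑w + tN Ent n w`,
`tN = 1 - Λ^(-28)`, `n(1 - 2Λ^(-28)) ≤ ∑w ≤ n`.
* the term with `log pe` is `log_pe`.
* `-∑_k dl k log dl k ≥ (tN - Λ^(-14)) 84 log Λ` (the term `k = 0` is `≥ 0`).
* `Ent n w ≤ n (log (4Λ²n))` so `tN Ent ≥ Ent - Λ^(-28) n Λ`.
Everything else is at most `n/Λ` in total, times a constant: the claim has `10 n/Λ`.
-/

namespace Pool.Agent.NQ

open Finset

private theorem cm_log : ∃ Λ0 : ℕ, 30 ≤ Λ0 ∧ ∀ Λ : ℕ, Λ0 ≤ Λ → Real.log Λ ≤ (Λ : ℝ) / 2000 := by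
  have h := Real.isLittleO_log_id_atTop.bound (show (0 : ℝ) < 1 / 2000 by norm_num)
  obtain ⟨A, hA⟩ := Filter.eventually_atTop.1 h
  refine ⟨max 30 ⌈A⌉₊, le_max_left _ _, ?_⟩
  intro Λ hΛ
  have h1 : A ≤ Λ := by
    have h2 : A ≤ (⌈A⌉₊ : ℝ) := Nat.le_ceil A
    have h3 : ((⌈A⌉₊ : ℕ) : ℝ) ≤ Λ := by exact_mod_cast (le_max_right _ _).trans hΛ
    linarith
  have h2 := hA (Λ : ℝ) h1
  have h3 : (0 : ℝ) ≤ Λ := Nat.cast_nonneg Λ
  simp only [id, Real.norm_eq_abs, abs_of_nonneg h3] at h2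
  have h4 := le_abs_self (Real.log (Λ : ℝ))
  linarith

private theorem cm_mass {n : ℕ} {w : ℤ × ℤ → ℝ} (h : ∀ s, dsum n w 0 s ≤ 1) :
    ∑ e ∈ board n, w e ≤ n := by
  have h1 : ∑ s ∈ Finset.Ico (0 : ℤ) n, ∑ e ∈ (board n).filter (fun e => ln 0 e = s), w e =
      ∑ e ∈ board n, w e := by
    apply Finset.sum_fiberwise_of_maps_to
    intro e he
    have := mem_board.1 he
    rw [mem_Ico]
    exact this.1
  rw [← h1]
  calc ∑ s ∈ Finset.Ico (0 : ℤ) n, ∑ e ∈ (board n).filter (fun e => ln 0 e = s), w e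
      ≤ ∑ s ∈ Finset.Ico (0 : ℤ) n, (1 : ℝ) := Finset.sum_le_sum (fun s _ => h s)
    _ = n := by simp

private theorem cm_split {V J : Type} [DecidableEq V] [DecidableEq J] {D : Dat V J} (H : OK D)
    {k : ℕ} (hk : k < D.N) (hd : 0 < dl D k) {e : J} (he : e ∈ D.E) :
    D.w e * cf D k e = D.w e + D.w e * Real.log (pe D e (D.t k)) - D.w e * Real.log (dl D k) +
      Real.negMulLog (D.w e) := by
  rcases (H.w0 e he).lt_or_eq with h | h
  · have h1 : 0 < pe D e (D.t k) := pe_pos H hk.le he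
    unfold cf Real.negMulLog
    rw [Real.log_div h1.ne' (mul_pos hd h).ne', Real.log_mul hd.ne' h.ne']
    ring
  · rw [← h]
    simp

private theorem cm_ineq {x n : ℝ} (hx : 30 ≤ x) (hn : x ^ 500 ≤ n) :
    12 * n / x ^ 28 ≤ n / x ∧ 6 * x ^ 258 ≤ n / x ∧ 2 * x ^ 201 ≤ n / x ∧
      3 * n / x ^ 28 ≤ n / x ∧ n / x ^ 27 ≤ n / x ∧ 336 * n / x ^ 13 ≤ n / x ∧
      6 * x ^ 257 ≤ n := by
  have h0 : 0 < x := by linarith
  have h1 : 1 ≤ x := by linarith
  have hn0 : 0 < n := lt_of_lt_of_le (by positivity) hn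
  have p12 : 336 ≤ x ^ 12 := by
    calc (336 : ℝ) ≤ 30 ^ 12 := by norm_num
      _ ≤ x ^ 12 := by gcongr
  have p26 : 12 ≤ x ^ 27 := by
    calc (12 : ℝ) ≤ 30 ^ 27 := by norm_num
      _ ≤ x ^ 27 := by gcongr
  have g1 : 12 * n / x ^ 28 ≤ n / x := by
    rw [div_le_div_iff₀ (by positivity) h0]
    have : 12 * n * x ≤ x ^ 27 * n * x := by gcongr
    calc 12 * n * x ≤ x ^ 27 * n * x := this
      _ = n * x ^ 28 := by ring
  have g5 : n / x ^ 27 ≤ n / x := by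
    gcongr
    exact le_self_pow₀ h1 (by norm_num)
  have g6 : 336 * n / x ^ 13 ≤ n / x := by
    rw [div_le_div_iff₀ (by positivity) h0]
    have : 336 * n * x ≤ x ^ 12 * n * x := by gcongr
    calc 336 * n * x ≤ x ^ 12 * n * x := this
      _ = n * x ^ 13 := by ring
  have g2 : 6 * x ^ 258 ≤ n / x := by
    rw [le_div_iff₀ h0]
    have : (6 : ℝ) ≤ x ^ 241 := by
      calc (6 : ℝ) ≤ 30 := by norm_num
        _ ≤ x := hx
        _ ≤ x ^ 241 := le_self_pow₀ h1 (by norm_num)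
    calc 6 * x ^ 258 * x ≤ x ^ 241 * x ^ 258 * x := by gcongr
      _ = x ^ 500 := by ring
      _ ≤ n := hn
  have g3 : 2 * x ^ 201 ≤ n / x := by
    have : x ^ 201 ≤ x ^ 258 := pow_le_pow_right₀ h1 (by norm_num)
    have h3 : 0 ≤ x ^ 201 := by positivity
    linarith
  have g4 : 3 * n / x ^ 28 ≤ n / x := by
    have : 3 * n / x ^ 28 ≤ 12 * n / x ^ 28 := by gcongr; norm_num
    linarith
  have g7 : 6 * x ^ 257 ≤ n := by
    have h2 : x ^ 257 ≤ x ^ 258 := pow_le_pow_right₀ h1 (by norm_num)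
    have h3 : n / x ≤ n := div_le_self hn0.le h1
    linarith
  exact ⟨g1, g2, g3, g4, g5, g6, g7⟩

theorem ent_main : ∃ Λ0 : ℕ, ∀ Λ n : ℕ, Λ0 ≤ Λ → Λ ^ 500 ≤ n → n ≤ Λ ^ 1001 →
    ∀ W : ℤ × ℤ → ℝ, GW Λ n W → ∀ Rp Rm : Finset ℤ, RW Λ n W Rp Rm →
      Ent n (wres Λ W Rp Rm) - n -
        (∑ s ∈ Finset.Ico (0 : ℤ) (2 * n), phi (dsum n W 2 s + 3 / (Λ : ℝ) ^ 3) +
          ∑ s ∈ Finset.Ioo (-(n : ℤ)) n, phi (dsum n W 3 s + 3 / (Λ : ℝ) ^ 3)) +
        84 * n * Real.log Λ - 10 * n / Λ ≤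
      ∑ l ∈ hs (board n) (NN Λ), Real.negMulLog (PQ Λ n W Rp Rm l) := by
  obtain ⟨Λ0, h30, hlog⟩ := cm_log
  refine ⟨Λ0, ?_⟩
  intro Λ n hΛ hn1 hn2 W HG Rp Rm HR
  have hΛ30 : 30 ≤ Λ := h30.trans hΛ
  have hΛ2 : 2 ≤ Λ := by omega
  have HOK : OK (DQ Λ n W Rp Rm) := ok_DQ hΛ30 hn1 HG HR
  have hlp := log_pe hΛ30 hn1 HG HR
  have hdl0 := dl_zero (n := n) hΛ2 (W := W) (Rp := Rp) (Rm := Rm)
  have hdlp : ∀ k : ℕ, k ≠ 0 → dl (DQ Λ n W Rp Rm) k = 1 / (Λ : ℝ) ^ 84 :=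
    fun k hk => dl_pos hΛ2 hk
  have hVS := card_VS (Λ := Λ) (n := n) (W := W) (Rp := Rp) (Rm := Rm)
  have hNN := NN_le hΛ2
  have hNp := NN_pos hΛ2
  have htN := tt_N hΛ2
  have hLg := hlog Λ hΛ
  set x : ℝ := (Λ : ℝ) with hx
  have hx30 : (30 : ℝ) ≤ x := by rw [hx]; exact_mod_cast hΛ30
  have hx0 : 0 < x := by linarith
  have hx1 : 1 ≤ x := by linarith
  have hnx : x ^ 500 ≤ (n : ℝ) := by rw [hx]; exact_mod_cast hn1
  have hnx2 : (n : ℝ) ≤ x ^ 1001 := by rw [hx]; exact_mod_cast hn2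
  have hn0 : (0 : ℝ) < n := lt_of_lt_of_le (by positivity) hnx
  obtain ⟨g1, g2, g3, g4, g5, g6, g7⟩ := cm_ineq hx30 hnx
  have hlx0 : 0 ≤ Real.log x := Real.log_nonneg hx1
  have hNx : ((NN Λ : ℕ) : ℝ) ≤ x ^ 84 := by
    have : NN Λ ≤ Λ ^ 84 := by omega
    rw [hx]
    exact_mod_cast this
  set D := DQ Λ n W Rp Rm with hD
  have hDN : D.N = NN Λ := rfl
  have hDE : D.E = board n := rfl
  have hDw : D.w = wres Λ W Rp Rm := rfl
  have hDt : D.t = tt Λ := rfl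
  have hqm : qm D = x ^ 173 / n := by
    show (x ^ 61 / (n : ℝ)) / (1 / x ^ 28) ^ 4 = x ^ 173 / n
    have hn' : (n : ℝ) ≠ 0 := hn0.ne'
    have hx' : x ≠ 0 := hx0.ne'
    field_simp
  have hVSr : ((VS D).card : ℝ) ≤ 6 * n := by exact_mod_cast hVS
  have hdlpos : ∀ k, 0 < dl D k := by
    intro k
    by_cases hk : k = 0
    · rw [hk, hdl0]; positivity
    · rw [hdlp k hk]; positivity
  have hdlge : ∀ k, 1 / x ^ 84 ≤ dl D k := by
    intro k
    by_cases hk : k = 0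
    · rw [hk, hdl0]
      exact one_div_le_one_div_of_le (by positivity) (pow_le_pow_right₀ hx1 (by norm_num))
    · rw [hdlp k hk]
  -- positive weights
  have hwpos : ∀ e ∈ board n, 0 < wres Λ W Rp Rm e → 1 / (4 * x ^ 2 * n) ≤ wres Λ W Rp Rm e := by
    intro e he hw
    have h1 := HG.lo e he
    have h2 := one_le_gam hΛ2
    unfold wres at hw ⊢
    split_ifs at hw ⊢ with hc
    · exact absurd hw (lt_irrefl _)
    · have h3 : 0 ≤ W e := le_trans (by positivity) h1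
      calc 1 / (4 * x ^ 2 * n) ≤ W e := h1
        _ = 1 * W e := (one_mul _).symm
        _ ≤ gam Λ * W e := mul_le_mul_of_nonneg_right h2 h3
  have hlog4 : Real.log 4 ≤ 3 := by
    have := Real.log_le_sub_one_of_pos (show (0 : ℝ) < 4 by norm_num)
    linarith
  have hlogn : Real.log n ≤ 1001 * Real.log x := by
    have := Real.log_le_log hn0 hnx2
    rwa [Real.log_pow] at this
  have hbig : Real.log (4 * x ^ 2 * n) ≤ 3 + 1003 * Real.log x := by
    rw [Real.log_mul (by positivity) hn0.ne', Real.log_mul (by norm_num) (by positivity),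
      Real.log_pow]
    push_cast
    linarith
  -- the mass
  have hM1 : ∑ e ∈ board n, wres Λ W Rp Rm e ≤ n := cm_mass HR.row
  have hM2 := HR.tot
  have hMnn : 0 ≤ ∑ e ∈ board n, wres Λ W Rp Rm e := by
    apply Finset.sum_nonneg
    intro e he
    exact HOK.w0 e he
  set M := ∑ e ∈ board n, wres Λ W Rp Rm e with hM
  -- entropy bound
  have hEnt : Ent n (wres Λ W Rp Rm) ≤ n * x := by
    have h1 : Ent n (wres Λ W Rp Rm) ≤ ∑ e ∈ board n, wres Λ W Rp Rm e * x := by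
      unfold Ent
      apply Finset.sum_le_sum
      intro e he
      rcases (HOK.w0 e he).lt_or_eq with h | h
      · have h' : 0 < wres Λ W Rp Rm e := h
        have h2 := hwpos e he h'
        have h3 : -Real.log (wres Λ W Rp Rm e) ≤ x := by
          have h4 := Real.log_le_log (by positivity) h2
          rw [one_div, Real.log_inv] at h4
          linarith
        unfold Real.negMulLog
        have h5 := mul_le_mul_of_nonneg_left h3 h'.le
        linarith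
      · have h' : 0 = wres Λ W Rp Rm e := h
        rw [← h']
        simp
    refine h1.trans ?_
    rw [← Finset.sum_mul]
    exact mul_le_mul_of_nonneg_right hM1 hx0.le
  have h6 : 6 * (D.N : ℝ) * qm D ≤ 1 := by
    rw [hqm, hDN]
    calc 6 * ((NN Λ : ℕ) : ℝ) * (x ^ 173 / n) ≤ 6 * x ^ 84 * (x ^ 173 / n) := by gcongr
      _ = 6 * x ^ 257 / n := by ring
      _ ≤ 1 := (div_le_one hn0).2 g7
  have hcf : ∀ k < D.N, ∀ e ∈ D.E, 0 < D.w e → 0 < dl D k → cf D k e ≤ x := by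
    intro k hk e he hw hd
    unfold cf
    have h1 : 0 < pe D e (D.t k) := pe_pos HOK hk.le he
    have h2 : pe D e (D.t k) ≤ 1 := pe_le_one HOK hk.le e
    have h3 : 1 / (4 * x ^ 2 * n) ≤ D.w e := hwpos e he hw
    rw [Real.log_div h1.ne' (mul_pos hd hw).ne', Real.log_mul hd.ne' hw.ne']
    have h4 : Real.log (pe D e (D.t k)) ≤ 0 := Real.log_nonpos h1.le h2
    have h5 := Real.log_le_log (by positivity) h3
    rw [one_div, Real.log_inv] at h5
    have h6 := Real.log_le_log (by positivity) (hdlge k)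
    rw [one_div, Real.log_inv, Real.log_pow] at h6
    push_cast at h6
    linarith
  have hlow := ent_low HOK h6 hx0.le hcf
  -- the sum of the lengths
  have hsum : ∑ k ∈ range D.N, dl D k = 1 - 1 / x ^ 28 := by
    have h1 : ∑ k ∈ range D.N, dl D k = D.t D.N - D.t 0 := by
      unfold dl
      exact Finset.sum_range_sub D.t D.N
    rw [h1, hDt, hDN, htN]
    have h2 : tt Λ 0 = 0 := by unfold tt; simp
    rw [h2, sub_zero]
  have hent : 84 * Real.log x * (1 - 1 / x ^ 28 - 1 / x ^ 14) ≤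
      ∑ k ∈ range D.N, -(dl D k * Real.log (dl D k)) := by
    have h1 : ∀ k ∈ range D.N, 84 * Real.log x * dl D k -
        (if k = 0 then 84 * Real.log x * (1 / x ^ 14) else 0) ≤ -(dl D k * Real.log (dl D k)) := by
      intro k _
      by_cases hk : k = 0
      · rw [if_pos hk, hk, hdl0, one_div, Real.log_inv, Real.log_pow]
        have : 0 ≤ (x ^ 14)⁻¹ * ((14 : ℕ) * Real.log x) := by positivity
        linarith
      · rw [if_neg hk, hdlp k hk, one_div, Real.log_inv, Real.log_pow]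
        push_cast
        apply le_of_eq
        ring
    have h2 := Finset.sum_le_sum h1
    rw [Finset.sum_sub_distrib, ← Finset.mul_sum, hsum, Finset.sum_ite_eq' (range D.N) 0,
      if_pos (mem_range.2 (by rw [hDN]; omega))] at h2
    linarith
  -- decomposition of the main term
  set A : ℕ → ℝ := fun k => ∑ e ∈ board n, wres Λ W Rp Rm e * Real.log (pe D e (tt Λ k)) with hA
  have hmain : ∑ k ∈ range D.N, dl D k * ∑ e ∈ D.E, D.w e * cf D k e =
      (1 - 1 / x ^ 28) * M + ∑ k ∈ range D.N, dl D k * A k +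
        M * ∑ k ∈ range D.N, -(dl D k * Real.log (dl D k)) +
          (1 - 1 / x ^ 28) * Ent n (wres Λ W Rp Rm) := by
    have h1 : ∀ k ∈ range D.N, dl D k * ∑ e ∈ D.E, D.w e * cf D k e =
        dl D k * M + dl D k * A k + M * (-(dl D k * Real.log (dl D k))) +
          dl D k * Ent n (wres Λ W Rp Rm) := by
      intro k hk
      have hk' : k < D.N := mem_range.1 hk
      have h2 : ∑ e ∈ D.E, D.w e * cf D k e = M + A k - M * Real.log (dl D k) +
          Ent n (wres Λ W Rp Rm) := by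
        rw [Finset.sum_congr rfl (fun e he => cm_split HOK hk' (hdlpos k) he)]
        rw [Finset.sum_add_distrib, Finset.sum_sub_distrib, Finset.sum_add_distrib,
          ← Finset.sum_mul]
        rfl
      rw [h2]
      ring
    rw [Finset.sum_congr rfl h1, Finset.sum_add_distrib, Finset.sum_add_distrib,
      Finset.sum_add_distrib, ← Finset.sum_mul, ← Finset.mul_sum, ← Finset.sum_mul, hsum]
  rw [hmain] at hlow
  have hlp' : -(2 * (n : ℝ)) -
      (∑ s ∈ Finset.Ico (0 : ℤ) (2 * n), phi (dsum n W 2 s + 3 / x ^ 3) +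
        ∑ s ∈ Finset.Ioo (-(n : ℤ)) n, phi (dsum n W 3 s + 3 / x ^ 3)) ≤
      ∑ k ∈ range D.N, dl D k * A k := hlp
  set Φ := ∑ s ∈ Finset.Ico (0 : ℤ) (2 * n), phi (dsum n W 2 s + 3 / x ^ 3) +
        ∑ s ∈ Finset.Ioo (-(n : ℤ)) n, phi (dsum n W 3 s + 3 / x ^ 3) with hΦ
  set S := ∑ k ∈ range D.N, -(dl D k * Real.log (dl D k)) with hS
  set B := ∑ k ∈ range D.N, dl D k * A k with hB
  -- error terms
  have hx28 : 0 ≤ 1 / x ^ 28 := by positivity
  have e1 : x * (2 * D.N * D.ζ * (VS D).card + 6 * D.N * qm D * ∑ e ∈ D.E, D.w e) ≤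
      n / x + n / x := by
    have hζ : D.ζ = 1 / x ^ 113 := rfl
    have hMs : ∑ e ∈ D.E, D.w e = M := rfl
    rw [hMs, hζ, hqm, hDN]
    have h1 : x * (2 * ((NN Λ : ℕ) : ℝ) * (1 / x ^ 113) * (VS D).card) ≤ n / x := by
      calc x * (2 * ((NN Λ : ℕ) : ℝ) * (1 / x ^ 113) * (VS D).card)
          ≤ x * (2 * x ^ 84 * (1 / x ^ 113) * (6 * n)) := by gcongr
        _ = 12 * n / x ^ 28 := by
          field_simp
          ring
        _ ≤ n / x := g1
    have h2 : x * (6 * ((NN Λ : ℕ) : ℝ) * (x ^ 173 / n) * M) ≤ n / x := by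
      calc x * (6 * ((NN Λ : ℕ) : ℝ) * (x ^ 173 / n) * M)
          ≤ x * (6 * x ^ 84 * (x ^ 173 / n) * n) := by gcongr
        _ = 6 * x ^ 258 := by
          field_simp
        _ ≤ n / x := g2
    rw [mul_add]
    linarith
  have e2 : qm D * ((VS D).card / (4 * D.κ)) ≤ n / x := by
    have hκ : D.κ = 1 / x ^ 28 := rfl
    rw [hκ, hqm]
    calc x ^ 173 / n * (((VS D).card : ℝ) / (4 * (1 / x ^ 28)))
        ≤ x ^ 173 / n * ((6 * n) / (4 * (1 / x ^ 28))) := by gcongr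
      _ = 3 / 2 * x ^ 201 := by
        field_simp
        ring
      _ ≤ 2 * x ^ 201 := by
        have : 0 ≤ x ^ 201 := by positivity
        linarith
      _ ≤ n / x := g3
  -- main terms
  have f1 : (n : ℝ) - n / x ≤ (1 - 1 / x ^ 28) * M := by
    have h1 : (1 - 1 / x ^ 28) * ((n : ℝ) * (1 - 2 / x ^ 28)) ≤ (1 - 1 / x ^ 28) * M := by
      apply mul_le_mul_of_nonneg_left hM2
      have : 1 / x ^ 28 ≤ 1 := by
        rw [div_le_one (by positivity)]
        exact one_le_pow₀ hx1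
      linarith
    have h2 : (1 - 1 / x ^ 28) * ((n : ℝ) * (1 - 2 / x ^ 28)) =
        n - 3 * n / x ^ 28 + 2 * n * (1 / x ^ 28) ^ 2 := by ring
    have h3 : 0 ≤ 2 * (n : ℝ) * (1 / x ^ 28) ^ 2 := by positivity
    linarith
  have f2 : Ent n (wres Λ W Rp Rm) - n / x ≤ (1 - 1 / x ^ 28) * Ent n (wres Λ W Rp Rm) := by
    have h1 : 1 / x ^ 28 * Ent n (wres Λ W Rp Rm) ≤ 1 / x ^ 28 * (n * x) :=
      mul_le_mul_of_nonneg_left hEnt hx28
    have h2 : 1 / x ^ 28 * (n * x) = n / x ^ 27 := by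
      field_simp
    linarith
  have f3 : 84 * n * Real.log x - n / x ≤ M * S := by
    have h1 : 0 ≤ 84 * Real.log x * (1 - 1 / x ^ 28 - 1 / x ^ 14) := by
      have h2 : 1 / x ^ 28 ≤ 1 / 2 := by
        apply one_div_le_one_div_of_le (by norm_num)
        calc (2 : ℝ) ≤ x := by linarith
          _ ≤ x ^ 28 := le_self_pow₀ hx1 (by norm_num)
      have h3 : 1 / x ^ 14 ≤ 1 / 2 := by
        apply one_div_le_one_div_of_le (by norm_num)
        calc (2 : ℝ) ≤ x := by linarith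
          _ ≤ x ^ 14 := le_self_pow₀ hx1 (by norm_num)
      have h4 : 0 ≤ 1 - 1 / x ^ 28 - 1 / x ^ 14 := by linarith
      positivity
    have h2 : M * (84 * Real.log x * (1 - 1 / x ^ 28 - 1 / x ^ 14)) ≤ M * S :=
      mul_le_mul_of_nonneg_left hent hMnn
    have h3 : ((n : ℝ) * (1 - 2 / x ^ 28)) * (84 * Real.log x * (1 - 1 / x ^ 28 - 1 / x ^ 14)) ≤
        M * (84 * Real.log x * (1 - 1 / x ^ 28 - 1 / x ^ 14)) :=
      mul_le_mul_of_nonneg_right hM2 h1
    have h4 : ((n : ℝ) * (1 - 2 / x ^ 28)) * (84 * Real.log x * (1 - 1 / x ^ 28 - 1 / x ^ 14)) =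
        84 * n * Real.log x - 84 * n * Real.log x * (3 / x ^ 28 + 1 / x ^ 14) +
          84 * n * Real.log x * (2 / x ^ 28 * (1 / x ^ 28 + 1 / x ^ 14)) := by ring
    have h5 : 0 ≤ 84 * n * Real.log x * (2 / x ^ 28 * (1 / x ^ 28 + 1 / x ^ 14)) := by positivity
    have h6 : 84 * n * Real.log x * (3 / x ^ 28 + 1 / x ^ 14) ≤ n / x := by
      have h7 : 3 / x ^ 28 + 1 / x ^ 14 ≤ 4 / x ^ 14 := by
        have : 3 / x ^ 28 ≤ 3 / x ^ 14 := by
          apply div_le_div_of_nonneg_left (by norm_num) (by positivity)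
          exact pow_le_pow_right₀ hx1 (by norm_num)
        have h8 : 4 / x ^ 14 = 3 / x ^ 14 + 1 / x ^ 14 := by ring
        linarith
      calc 84 * n * Real.log x * (3 / x ^ 28 + 1 / x ^ 14)
          ≤ 84 * n * x * (4 / x ^ 14) := by
            have hlx : Real.log x ≤ x := by linarith
            gcongr
        _ = 336 * n / x ^ 13 := by
          field_simp
          ring
        _ ≤ n / x := g6
    linarith
  have hfin : ∑ l ∈ hs D.E D.N, Real.negMulLog (law D D.N 0 D.w l) =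
      ∑ l ∈ hs (board n) (NN Λ), Real.negMulLog (PQ Λ n W Rp Rm l) := rfl
  rw [hfin] at hlow
  have hnx0 : 0 ≤ (n : ℝ) / x := by positivity
  have h10 : 10 * (n : ℝ) / x = 10 * (n / x) := by ring
  rw [h10]
  linarith

end Pool.Agent.NQ
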