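import Pool.Agent.NQ.CBad

/-!
# NQ-CMis: expected number of missing queens

Plan. On the support `n - |MM l| = n - ∑ |l k| + ∑ |bad (l k)|` (`card_MM`); the law has total mass `1`
(`law_sum`). `exp_card`: `E ∑ |l k| ≥ (1 - Λ^(-28)) (n (1 - 2Λ^(-28)) - 2 Λ^84 Λ^(-113) 6 n)
≥ n (1 - 4 Λ^(-28))` (`RW.tot`, `NN ≤ Λ^84`, `tt_N`, `card_VS`, `12 Λ^(-29) ≤ Λ^(-28)`); `exp_bad_tot`.
-/

namespace Pool.Agent.NQ

open Finset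

theorem PQ_nonneg {Λ n : ℕ} {W : ℤ × ℤ → ℝ} {Rp Rm : Finset ℤ} (hΛ : 30 ≤ Λ)
    (hn : Λ ^ 500 ≤ n) (HG : GW Λ n W) (HR : RW Λ n W Rp Rm) {l : Fin (NN Λ) → Finset (ℤ × ℤ)}
    (hl : l ∈ hs (board n) (NN Λ)) : 0 ≤ PQ Λ n W Rp Rm l := by
  have H := ok_DQ hΛ hn HG HR
  exact law_nonneg (D := DQ Λ n W Rp Rm) H (r := NN Λ) (k := 0) (by rw [zero_add]; exact le_rfl) (inv_zero H) hl

theorem PQ_sum {Λ n : ℕ} {W : ℤ × ℤ → ℝ} {Rp Rm : Finset ℤ} :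
    ∑ l ∈ hs (board n) (NN Λ), PQ Λ n W Rp Rm l = 1 :=
  law_sum (D := DQ Λ n W Rp Rm) (NN Λ) 0 (wres Λ W Rp Rm)

private theorem real_aux (n x S V Nr : ℝ) (hn : 0 ≤ n) (hx0 : 0 ≤ x) (hx1 : x ≤ 1)
    (hS : n * (1 - 2 * x) ≤ S) (hV : V ≤ 2 / 5 * (n * x))
    (hN : (1 - x) * (S - V) ≤ Nr) : n - Nr ≤ 4 * (n * x) := by
  have h1 : n * (1 - 2 * x) - 2 / 5 * (n * x) ≤ S - V := by linarith
  have h2 : (1 - x) * (n * (1 - 2 * x) - 2 / 5 * (n * x)) ≤ (1 - x) * (S - V) :=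
    mul_le_mul_of_nonneg_left h1 (by linarith)
  have h3 : 0 ≤ n * x := mul_nonneg hn hx0
  have h4 : 0 ≤ n * x * x := mul_nonneg h3 hx0
  nlinarith

theorem exp_miss {Λ n : ℕ} {W : ℤ × ℤ → ℝ} {Rp Rm : Finset ℤ} (hΛ : 30 ≤ Λ)
    (hn : Λ ^ 500 ≤ n) (HG : GW Λ n W) (HR : RW Λ n W Rp Rm) :
    ∑ l ∈ hs (board n) (NN Λ), PQ Λ n W Rp Rm l * ((n : ℝ) - ((MM l).card : ℝ)) ≤
      16 * n / (Λ : ℝ) ^ 28 := by
  have H := ok_DQ hΛ hn HG HR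
  have hL0 : (0 : ℝ) < (Λ : ℝ) := by
    have : 0 < Λ := by omega
    exact_mod_cast this
  have hL30 : (30 : ℝ) ≤ (Λ : ℝ) := by exact_mod_cast hΛ
  have hn0 : (0 : ℝ) ≤ (n : ℝ) := Nat.cast_nonneg n
  obtain ⟨x, hx⟩ : ∃ x : ℝ, x = 1 / (Λ : ℝ) ^ 28 := ⟨_, rfl⟩
  have hx0 : 0 ≤ x := by rw [hx]; positivity
  have hx1 : x ≤ 1 := by
    rw [hx, div_le_one (by positivity)]
    exact one_le_pow₀ (by linarith)
  have h1 : ∀ l ∈ hs (board n) (NN Λ), PQ Λ n W Rp Rm l * ((n : ℝ) - ((MM l).card : ℝ)) =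
      PQ Λ n W Rp Rm l * (n : ℝ) - PQ Λ n W Rp Rm l * ∑ k, ((l k).card : ℝ) +
        PQ Λ n W Rp Rm l * ∑ k, ((bad (l k)).card : ℝ) := by
    intro l hl
    by_cases hz : PQ Λ n W Rp Rm l = 0
    · rw [hz]; ring
    · have h2 := card_MM hΛ hn HG HR hl hz
      have h3 : ∑ k, ((l k).card : ℝ) = ((MM l).card : ℝ) + ∑ k, ((bad (l k)).card : ℝ) := by
        exact_mod_cast h2
      rw [h3]
      ring
  rw [sum_congr rfl h1, sum_add_distrib, sum_sub_distrib, ← sum_mul, PQ_sum, one_mul]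
  have h2 := exp_bad_tot hΛ hn HG HR
  have h3 : (DQ Λ n W Rp Rm).t (DQ Λ n W Rp Rm).N *
      ((∑ e ∈ (DQ Λ n W Rp Rm).E, (DQ Λ n W Rp Rm).w e) -
        2 * (DQ Λ n W Rp Rm).N * (DQ Λ n W Rp Rm).ζ * (VS (DQ Λ n W Rp Rm)).card) ≤
      ∑ l ∈ hs (board n) (NN Λ), PQ Λ n W Rp Rm l * ∑ k, ((l k).card : ℝ) := exp_card H
  have h4 : (DQ Λ n W Rp Rm).t (DQ Λ n W Rp Rm).N = 1 - x := by
    rw [hx]
    exact tt_N (by omega)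
  rw [h4] at h3
  have hS : (n : ℝ) * (1 - 2 * x) ≤ ∑ e ∈ (DQ Λ n W Rp Rm).E, (DQ Λ n W Rp Rm).w e := by
    have h5 := HR.tot
    have h6 : (2 : ℝ) / (Λ : ℝ) ^ 28 = 2 * x := by rw [hx]; ring
    rw [h6] at h5
    exact h5
  have hNr : (((DQ Λ n W Rp Rm).N : ℕ) : ℝ) ≤ (Λ : ℝ) ^ 84 := by
    have h7 := NN_le (Λ := Λ) (by omega)
    have h8 : NN Λ ≤ Λ ^ 84 := by omega
    exact_mod_cast h8
  have hVc : ((VS (DQ Λ n W Rp Rm)).card : ℝ) ≤ 6 * n := by exact_mod_cast card_VS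
  have hζ : (DQ Λ n W Rp Rm).ζ = 1 / (Λ : ℝ) ^ 113 := rfl
  have hV : 2 * (((DQ Λ n W Rp Rm).N : ℕ) : ℝ) * (DQ Λ n W Rp Rm).ζ * (VS (DQ Λ n W Rp Rm)).card ≤
      2 / 5 * (n * x) := by
    rw [hζ]
    have h9 : 2 * (((DQ Λ n W Rp Rm).N : ℕ) : ℝ) * (1 / (Λ : ℝ) ^ 113) * (VS (DQ Λ n W Rp Rm)).card ≤
        2 * (Λ : ℝ) ^ 84 * (1 / (Λ : ℝ) ^ 113) * (6 * n) := by
      gcongr
    refine h9.trans ?_
    have h10 : 2 * (Λ : ℝ) ^ 84 * (1 / (Λ : ℝ) ^ 113) * (6 * n) = 12 * n * x * (1 / (Λ : ℝ)) := by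
      rw [hx]
      have h11 : (Λ : ℝ) ^ 113 = (Λ : ℝ) ^ 84 * ((Λ : ℝ) ^ 28 * (Λ : ℝ)) := by ring
      rw [h11]
      have h12 : (Λ : ℝ) ^ 84 ≠ 0 := by positivity
      have h13 : (Λ : ℝ) ^ 28 ≠ 0 := by positivity
      field_simp
      ring
    rw [h10]
    have h14 : 1 / (Λ : ℝ) ≤ 1 / 30 := one_div_le_one_div_of_le (by norm_num) hL30
    have h15 : 0 ≤ 12 * (n : ℝ) * x := by positivity
    calc 12 * (n : ℝ) * x * (1 / (Λ : ℝ)) ≤ 12 * (n : ℝ) * x * (1 / 30) := mul_le_mul_of_nonneg_left h14 h15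
      _ = _ := by ring
  have h16 := real_aux (n : ℝ) x _ _ _ hn0 hx0 hx1 hS hV h3
  have h17 : 12 * (n : ℝ) / (Λ : ℝ) ^ 28 = 12 * (n * x) := by rw [hx]; ring
  have h18 : 16 * (n : ℝ) / (Λ : ℝ) ^ 28 = 16 * (n * x) := by rw [hx]; ring
  rw [h17] at h2
  rw [h18]
  linarith

end Pool.Agent.NQ
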