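import Pool.Agent.NQ.CMis
import Pool.Agent.NQ.CFew

/-!
# NQ-CProb: the good event is likely

Plan. `¬ Good l` (with `PQ l ≠ 0`) implies one of: (i) `|MM l| + m0 < n`: as `|MM l| ≤ n` on the support
(`MM_nonAtt`, `card_le_of_nonAtt`), Markov: `≤ 16 n Λ^(-28)/(m0 + 1) ≤ 4800 Λ^(-2)`
(`m0 + 1 ≥ n/(300Λ^26)`); (ii) for some `r, c ∈ [0,n)`: `|l 0 ∩ Frc| ≤ n/(16Λ^26)`:
`≤ n² exp (-n/(16 Λ^26)) ≤ Λ^(-2)` (`pr_few`; `exp z ≥ z^5/120`); (iii) `|bad (l 0)| > n/(32Λ^26)`: Markov with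
`exp_bad_zero`: `6 n Λ^(-28) · 32 Λ^26/n = 192 Λ^(-2)`. If none holds: `MM l ∩ Frc` contains
`(l 0 \ bad (l 0)) ∩ Frc`, which has more than `n/(16Λ^26) - n/(32Λ^26) = n/(32 Λ^26) > 9 m0` squares. Here
`l 0` is `l ⟨0, NN_pos⟩`. So pointwise, for `PQ l ≠ 0`,
`1[¬ Good] ≤ (n - |MM l|)/(m0+1) + ∑_{r,c} 1[few] + |bad (l 0)| 32 Λ^26/n`; take means.
-/

namespace Pool.Agent.NQ

open Finset

/-- the pointwise bound -/
private theorem good_point {Λ n : ℕ} {Rp Rm : Finset ℤ} {N : ℕ} (hn0 : 0 < n) (hL : 0 < Λ)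
    (l : Fin N → Finset (ℤ × ℤ)) (k : Fin N) (hM : (MM l).card ≤ n) (hG : ¬ Good Λ n Rp Rm l) :
    (1 : ℝ) ≤ ((n : ℝ) - ((MM l).card : ℝ)) / ((m0 Λ n : ℝ) + 1) +
      ∑ r ∈ Finset.Ico (0 : ℤ) n, ∑ c ∈ Finset.Ico (0 : ℤ) n,
        (if ((l k ∩ Frc n Rp Rm r c).card : ℝ) ≤ n / (16 * (Λ : ℝ) ^ 26) then (1 : ℝ) else 0) +
      ((bad (l k)).card : ℝ) * (32 * (Λ : ℝ) ^ 26 / n) := by
  have hnR : (0 : ℝ) < n := by exact_mod_cast hn0
  have hLR : (0 : ℝ) < Λ := by exact_mod_cast hL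
  have hX : (0 : ℝ) < (Λ : ℝ) ^ 26 := by positivity
  have hm : (0 : ℝ) < (m0 Λ n : ℝ) + 1 := by positivity
  have hMR : ((MM l).card : ℝ) ≤ n := by exact_mod_cast hM
  have t1 : 0 ≤ ((n : ℝ) - ((MM l).card : ℝ)) / ((m0 Λ n : ℝ) + 1) :=
    div_nonneg (by linarith) hm.le
  have t2 : 0 ≤ ∑ r ∈ Finset.Ico (0 : ℤ) n, ∑ c ∈ Finset.Ico (0 : ℤ) n,
      (if ((l k ∩ Frc n Rp Rm r c).card : ℝ) ≤ n / (16 * (Λ : ℝ) ^ 26) then (1 : ℝ) else 0) :=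
    Finset.sum_nonneg fun r _ => Finset.sum_nonneg fun c _ => by split_ifs <;> norm_num
  have t3 : 0 ≤ ((bad (l k)).card : ℝ) * (32 * (Λ : ℝ) ^ 26 / n) := by positivity
  unfold Good at hG
  rw [not_and_or] at hG
  rcases hG with hG | hG
  · have h1 : (MM l).card + m0 Λ n + 1 ≤ n := by omega
    have h2 : ((MM l).card : ℝ) + (m0 Λ n : ℝ) + 1 ≤ n := by exact_mod_cast h1
    have h3 : 1 ≤ ((n : ℝ) - ((MM l).card : ℝ)) / ((m0 Λ n : ℝ) + 1) := by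
      rw [le_div_iff₀ hm]
      linarith
    linarith
  · push Not at hG
    obtain ⟨r, hr, c, hc, h9⟩ := hG
    by_cases hf : ((l k ∩ Frc n Rp Rm r c).card : ℝ) ≤ n / (16 * (Λ : ℝ) ^ 26)
    · have h4 : (1 : ℝ) ≤ ∑ r ∈ Finset.Ico (0 : ℤ) n, ∑ c ∈ Finset.Ico (0 : ℤ) n,
          (if ((l k ∩ Frc n Rp Rm r c).card : ℝ) ≤ n / (16 * (Λ : ℝ) ^ 26) then (1 : ℝ)
            else 0) := by
        calc (1 : ℝ) = (if ((l k ∩ Frc n Rp Rm r c).card : ℝ) ≤ n / (16 * (Λ : ℝ) ^ 26)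
              then (1 : ℝ) else 0) := by rw [if_pos hf]
          _ ≤ ∑ c ∈ Finset.Ico (0 : ℤ) n,
              (if ((l k ∩ Frc n Rp Rm r c).card : ℝ) ≤ n / (16 * (Λ : ℝ) ^ 26) then (1 : ℝ)
                else 0) :=
              Finset.single_le_sum (f := fun c =>
                (if ((l k ∩ Frc n Rp Rm r c).card : ℝ) ≤ n / (16 * (Λ : ℝ) ^ 26) then (1 : ℝ)
                  else 0)) (fun c _ => by split_ifs <;> norm_num) hc
          _ ≤ _ :=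
              Finset.single_le_sum (f := fun r => ∑ c ∈ Finset.Ico (0 : ℤ) n,
                (if ((l k ∩ Frc n Rp Rm r c).card : ℝ) ≤ n / (16 * (Λ : ℝ) ^ 26) then (1 : ℝ)
                  else 0)) (fun r _ => Finset.sum_nonneg fun c _ => by
                    split_ifs <;> norm_num) hr
      linarith
    · have hf' : n / (16 * (Λ : ℝ) ^ 26) < ((l k ∩ Frc n Rp Rm r c).card : ℝ) := not_le.mp hf
      have hsub : (l k ∩ Frc n Rp Rm r c) ⊆ (MM l ∩ Frc n Rp Rm r c) ∪ bad (l k) := by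
        intro e he
        rw [mem_inter] at he
        rw [mem_union, mem_inter]
        by_cases hb : e ∈ bad (l k)
        · exact Or.inr hb
        · refine Or.inl ⟨?_, he.2⟩
          unfold MM
          rw [mem_biUnion]
          exact ⟨k, mem_univ k, mem_sdiff.2 ⟨he.1, hb⟩⟩
      have hcard : (l k ∩ Frc n Rp Rm r c).card ≤ 9 * m0 Λ n + (bad (l k)).card :=
        (card_le_card hsub).trans ((card_union_le _ _).trans (Nat.add_le_add_right h9 _))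
      have hcardR : ((l k ∩ Frc n Rp Rm r c).card : ℝ) ≤
          9 * (m0 Λ n : ℝ) + ((bad (l k)).card : ℝ) := by exact_mod_cast hcard
      have hm0 : (m0 Λ n : ℝ) ≤ n / (300 * (Λ : ℝ) ^ 26) := Nat.floor_le (by positivity)
      have hb : n / (32 * (Λ : ℝ) ^ 26) ≤ ((bad (l k)).card : ℝ) := by
        set y : ℝ := n / (Λ : ℝ) ^ 26 with hy
        have hy0 : 0 < y := by positivity
        have e1 : (n : ℝ) / (16 * (Λ : ℝ) ^ 26) = y / 16 := by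
          rw [hy, div_div, mul_comm (16 : ℝ)]
        have e2 : (n : ℝ) / (300 * (Λ : ℝ) ^ 26) = y / 300 := by
          rw [hy, div_div, mul_comm (300 : ℝ)]
        have e3 : (n : ℝ) / (32 * (Λ : ℝ) ^ 26) = y / 32 := by
          rw [hy, div_div, mul_comm (32 : ℝ)]
        rw [e1] at hf'
        rw [e2] at hm0
        rw [e3]
        linarith
      have h5 : (1 : ℝ) ≤ ((bad (l k)).card : ℝ) * (32 * (Λ : ℝ) ^ 26 / n) := by
        have h6 : n / (32 * (Λ : ℝ) ^ 26) * (32 * (Λ : ℝ) ^ 26 / n) = 1 := by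
          field_simp
        rw [← h6]
        exact mul_le_mul_of_nonneg_right hb (by positivity)
      linarith

/-- the number of pairs times the tail -/
private theorem good_tail {Λ n : ℕ} (hΛ : 30 ≤ Λ) (hn : Λ ^ 500 ≤ n) :
    (n : ℝ) * ((n : ℝ) * Real.exp (-(n / (16 * (Λ : ℝ) ^ 26)))) ≤ 1 / (Λ : ℝ) ^ 2 := by
  have hL : (30 : ℝ) ≤ Λ := by exact_mod_cast hΛ
  have hL0 : (0 : ℝ) < Λ := by linarith
  have hL1 : (1 : ℝ) ≤ Λ := by linarith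
  have hnN : Λ ^ 138 ≤ n := (Nat.pow_le_pow_right (by omega) (by norm_num)).trans hn
  have hnR : (Λ : ℝ) ^ 138 ≤ n := by exact_mod_cast hnN
  have hn1 : (1 : ℝ) ≤ n := (one_le_pow₀ hL1).trans hnR
  have hn0 : (0 : ℝ) < n := by linarith
  set z : ℝ := n / (16 * (Λ : ℝ) ^ 26) with hz
  have hz0 : 0 < z := by positivity
  have h1 : z ^ 5 / 120 ≤ Real.exp z := by
    have := Real.pow_div_factorial_le_exp z hz0.le 5
    have h2 : ((Nat.factorial 5 : ℕ) : ℝ) = 120 := by norm_num [Nat.factorial]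
    rwa [h2] at this
  have h3 : Real.exp (-z) ≤ 120 / z ^ 5 := by
    rw [Real.exp_neg, inv_le_comm₀ (Real.exp_pos z) (by positivity)]
    rw [inv_div]
    exact h1
  have h4 : 120 / z ^ 5 = 120 * 16 ^ 5 * (Λ : ℝ) ^ 130 / n ^ 5 := by
    rw [hz]
    field_simp
  have h5 : (120 : ℝ) * 16 ^ 5 ≤ (Λ : ℝ) ^ 6 := by
    calc (120 : ℝ) * 16 ^ 5 ≤ 30 ^ 6 := by norm_num
      _ ≤ (Λ : ℝ) ^ 6 := pow_le_pow_left₀ (by norm_num) hL 6
  have h6 : 120 * 16 ^ 5 * (Λ : ℝ) ^ 132 ≤ (n : ℝ) ^ 3 := by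
    calc 120 * 16 ^ 5 * (Λ : ℝ) ^ 132 ≤ (Λ : ℝ) ^ 6 * (Λ : ℝ) ^ 132 :=
          mul_le_mul_of_nonneg_right h5 (by positivity)
      _ = (Λ : ℝ) ^ 138 := by rw [← pow_add]
      _ ≤ n := hnR
      _ ≤ (n : ℝ) ^ 3 := le_self_pow₀ hn1 (by norm_num)
  calc (n : ℝ) * ((n : ℝ) * Real.exp (-z))
      ≤ (n : ℝ) * ((n : ℝ) * (120 * 16 ^ 5 * (Λ : ℝ) ^ 130 / n ^ 5)) := by
        rw [← h4]
        gcongr
    _ = 120 * 16 ^ 5 * (Λ : ℝ) ^ 130 / n ^ 3 := by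
        field_simp
    _ ≤ 1 / (Λ : ℝ) ^ 2 := by
        rw [div_le_div_iff₀ (by positivity) (by positivity)]
        calc 120 * 16 ^ 5 * (Λ : ℝ) ^ 130 * (Λ : ℝ) ^ 2 = 120 * 16 ^ 5 * (Λ : ℝ) ^ 132 := by ring
          _ ≤ (n : ℝ) ^ 3 := h6
          _ = 1 * (n : ℝ) ^ 3 := (one_mul _).symm

open Classical in
theorem pr_good {Λ n : ℕ} {W : ℤ × ℤ → ℝ} {Rp Rm : Finset ℤ} (hΛ : 30 ≤ Λ)
    (hn : Λ ^ 500 ≤ n) (HG : GW Λ n W) (HR : RW Λ n W Rp Rm) :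
    ∑ l ∈ hs (board n) (NN Λ), PQ Λ n W Rp Rm l * (if Good Λ n Rp Rm l then 0 else 1) ≤
      5000 / (Λ : ℝ) ^ 2 := by
  have hL : 0 < Λ := by omega
  have hLR : (0 : ℝ) < Λ := by exact_mod_cast hL
  have hn0 : 0 < n := lt_of_lt_of_le (pow_pos hL 500) hn
  have hnR : (0 : ℝ) < n := by exact_mod_cast hn0
  set k : Fin (NN Λ) := ⟨0, NN_pos (by omega)⟩ with hk
  have hm : (0 : ℝ) < (m0 Λ n : ℝ) + 1 := by positivity
  -- pointwise
  have hpt : ∀ l ∈ hs (board n) (NN Λ),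
      PQ Λ n W Rp Rm l * (if Good Λ n Rp Rm l then 0 else 1) ≤
        PQ Λ n W Rp Rm l * ((n : ℝ) - ((MM l).card : ℝ)) * (1 / ((m0 Λ n : ℝ) + 1)) +
        ∑ r ∈ Finset.Ico (0 : ℤ) n, ∑ c ∈ Finset.Ico (0 : ℤ) n, PQ Λ n W Rp Rm l *
          (if ((l k ∩ Frc n Rp Rm r c).card : ℝ) ≤ n / (16 * (Λ : ℝ) ^ 26) then (1 : ℝ) else 0) +
        PQ Λ n W Rp Rm l * ((bad (l k)).card : ℝ) * (32 * (Λ : ℝ) ^ 26 / n) := by
    intro l hl
    have hP0 := PQ_nonneg hΛ hn HG HR hl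
    by_cases hP : PQ Λ n W Rp Rm l = 0
    · rw [hP]
      simp
    · have hM := MM_nonAtt hΛ hn HG HR hl hP
      have hMc : (MM l).card ≤ n := card_le_of_nonAtt hM.1 hM.2.1
      have hbound : (if Good Λ n Rp Rm l then (0 : ℝ) else 1) ≤
          ((n : ℝ) - ((MM l).card : ℝ)) / ((m0 Λ n : ℝ) + 1) +
          ∑ r ∈ Finset.Ico (0 : ℤ) n, ∑ c ∈ Finset.Ico (0 : ℤ) n,
            (if ((l k ∩ Frc n Rp Rm r c).card : ℝ) ≤ n / (16 * (Λ : ℝ) ^ 26) then (1 : ℝ)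
              else 0) +
          ((bad (l k)).card : ℝ) * (32 * (Λ : ℝ) ^ 26 / n) := by
        by_cases hG : Good Λ n Rp Rm l
        · rw [if_pos hG]
          have hMR : ((MM l).card : ℝ) ≤ n := by exact_mod_cast hMc
          have t1 : 0 ≤ ((n : ℝ) - ((MM l).card : ℝ)) / ((m0 Λ n : ℝ) + 1) :=
            div_nonneg (by linarith) hm.le
          have t2 : 0 ≤ ∑ r ∈ Finset.Ico (0 : ℤ) n, ∑ c ∈ Finset.Ico (0 : ℤ) n,
              (if ((l k ∩ Frc n Rp Rm r c).card : ℝ) ≤ n / (16 * (Λ : ℝ) ^ 26) then (1 : ℝ)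
                else 0) :=
            Finset.sum_nonneg fun r _ => Finset.sum_nonneg fun c _ => by
              split_ifs <;> norm_num
          have t3 : 0 ≤ ((bad (l k)).card : ℝ) * (32 * (Λ : ℝ) ^ 26 / n) := by positivity
          linarith
        · rw [if_neg hG]
          refine (good_point hn0 hL l k hMc hG).trans (le_of_eq ?_)
          refine congrArg₂ (· + ·) (congrArg₂ (· + ·) rfl ?_) rfl
          refine Finset.sum_congr rfl fun r _ => Finset.sum_congr rfl fun c _ => ?_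
          split_ifs <;> rfl
      have h1 := mul_le_mul_of_nonneg_left hbound hP0
      refine h1.trans (le_of_eq ?_)
      rw [mul_add, mul_add, Finset.mul_sum]
      refine congrArg₂ (· + ·) (congrArg₂ (· + ·) ?_ ?_) ?_
      · rw [mul_div_assoc', mul_one_div]
      · refine Finset.sum_congr rfl fun r _ => ?_
        rw [Finset.mul_sum]
      · rw [mul_assoc]
  have hsum := Finset.sum_le_sum hpt
  rw [Finset.sum_add_distrib, Finset.sum_add_distrib, ← Finset.sum_mul, ← Finset.sum_mul] at hsum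
  -- first term
  have s1 : (∑ l ∈ hs (board n) (NN Λ), PQ Λ n W Rp Rm l * ((n : ℝ) - ((MM l).card : ℝ))) *
      (1 / ((m0 Λ n : ℝ) + 1)) ≤ 4800 / (Λ : ℝ) ^ 2 := by
    have h1 := exp_miss hΛ hn HG HR
    have h2 : n / (300 * (Λ : ℝ) ^ 26) ≤ (m0 Λ n : ℝ) + 1 :=
      (Nat.lt_floor_add_one _).le
    have h3 : 1 / ((m0 Λ n : ℝ) + 1) ≤ 300 * (Λ : ℝ) ^ 26 / n := by
      rw [div_le_div_iff₀ hm hnR, one_mul]
      rw [div_le_iff₀ (by positivity)] at h2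
      linarith
    calc (∑ l ∈ hs (board n) (NN Λ), PQ Λ n W Rp Rm l * ((n : ℝ) - ((MM l).card : ℝ))) *
          (1 / ((m0 Λ n : ℝ) + 1))
        ≤ 16 * n / (Λ : ℝ) ^ 28 * (1 / ((m0 Λ n : ℝ) + 1)) :=
          mul_le_mul_of_nonneg_right h1 (by positivity)
      _ ≤ 16 * n / (Λ : ℝ) ^ 28 * (300 * (Λ : ℝ) ^ 26 / n) :=
          mul_le_mul_of_nonneg_left h3 (by positivity)
      _ = 4800 / (Λ : ℝ) ^ 2 := by
          field_simp
          norm_num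
  -- second term
  have s2 : ∑ l ∈ hs (board n) (NN Λ), ∑ r ∈ Finset.Ico (0 : ℤ) n, ∑ c ∈ Finset.Ico (0 : ℤ) n,
      PQ Λ n W Rp Rm l *
        (if ((l k ∩ Frc n Rp Rm r c).card : ℝ) ≤ n / (16 * (Λ : ℝ) ^ 26) then (1 : ℝ) else 0) ≤
      1 / (Λ : ℝ) ^ 2 := by
    rw [Finset.sum_comm]
    have h1 : ∀ r ∈ Finset.Ico (0 : ℤ) n, ∑ l ∈ hs (board n) (NN Λ),
        ∑ c ∈ Finset.Ico (0 : ℤ) n, PQ Λ n W Rp Rm l *
          (if ((l k ∩ Frc n Rp Rm r c).card : ℝ) ≤ n / (16 * (Λ : ℝ) ^ 26) then (1 : ℝ) else 0) ≤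
        (n : ℝ) * Real.exp (-(n / (16 * (Λ : ℝ) ^ 26))) := by
      intro r hr
      rw [Finset.sum_comm]
      have h2 : ∀ c ∈ Finset.Ico (0 : ℤ) n, ∑ l ∈ hs (board n) (NN Λ), PQ Λ n W Rp Rm l *
          (if ((l k ∩ Frc n Rp Rm r c).card : ℝ) ≤ n / (16 * (Λ : ℝ) ^ 26) then (1 : ℝ) else 0) ≤
          Real.exp (-(n / (16 * (Λ : ℝ) ^ 26))) := by
        intro c hc
        refine (le_of_eq ?_).trans (pr_few hΛ hn HG HR k rfl hr hc)
        refine Finset.sum_congr rfl fun l _ => ?_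
        split_ifs <;> rfl
      refine (Finset.sum_le_card_nsmul _ _ _ h2).trans (le_of_eq ?_)
      rw [Int.card_Ico, nsmul_eq_mul, sub_zero, Int.toNat_natCast]
    refine (Finset.sum_le_card_nsmul _ _ _ h1).trans ?_
    rw [Int.card_Ico, nsmul_eq_mul, sub_zero, Int.toNat_natCast]
    exact good_tail hΛ hn
  -- third term
  have s3 : (∑ l ∈ hs (board n) (NN Λ), PQ Λ n W Rp Rm l * ((bad (l k)).card : ℝ)) *
      (32 * (Λ : ℝ) ^ 26 / n) ≤ 192 / (Λ : ℝ) ^ 2 := by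
    have h1 := exp_bad_zero hΛ hn HG HR k rfl
    calc (∑ l ∈ hs (board n) (NN Λ), PQ Λ n W Rp Rm l * ((bad (l k)).card : ℝ)) *
          (32 * (Λ : ℝ) ^ 26 / n)
        ≤ 6 * n / (Λ : ℝ) ^ 28 * (32 * (Λ : ℝ) ^ 26 / n) :=
          mul_le_mul_of_nonneg_right h1 (by positivity)
      _ = 192 / (Λ : ℝ) ^ 2 := by
          field_simp
          norm_num
  have h0 : 0 < 1 / (Λ : ℝ) ^ 2 := by positivity
  have e1 : (4800 : ℝ) / (Λ : ℝ) ^ 2 = 4800 * (1 / (Λ : ℝ) ^ 2) := by rw [mul_one_div]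
  have e2 : (192 : ℝ) / (Λ : ℝ) ^ 2 = 192 * (1 / (Λ : ℝ) ^ 2) := by rw [mul_one_div]
  have e3 : (5000 : ℝ) / (Λ : ℝ) ^ 2 = 5000 * (1 / (Λ : ℝ) ^ 2) := by rw [mul_one_div]
  rw [e1] at s1
  rw [e2] at s3
  rw [e3]
  linarith

end Pool.Agent.NQ
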