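import Pool.Agent.NQ.CDefs

/-!
# NQ-CSch: the lines of the board and the schedule

The lines of the squares of the board (at most `6 n`), and the times of the rounds of the nibble.
-/

namespace Pool.Agent.NQ

open Finset

private lemma cs_pow {Λ : ℕ} (hΛ : 2 ≤ Λ) :
    1 ≤ Λ ^ 56 ∧ 1 ≤ Λ ^ 70 ∧ Λ ^ 56 + Λ ^ 70 ≤ Λ ^ 84 := by
  have h1 : 1 ≤ Λ ^ 56 := Nat.one_le_pow _ _ (by omega)
  have h2 : 1 ≤ Λ ^ 70 := Nat.one_le_pow _ _ (by omega)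
  have h3 : Λ ^ 56 ≤ Λ ^ 70 := Nat.pow_le_pow_right (by omega) (by norm_num)
  have h4 : Λ ^ 71 ≤ Λ ^ 84 := Nat.pow_le_pow_right (by omega) (by norm_num)
  have h5 : Λ ^ 71 = Λ ^ 70 * Λ := pow_succ Λ 70
  have h6 : Λ ^ 70 * 2 ≤ Λ ^ 70 * Λ := Nat.mul_le_mul_left _ hΛ
  exact ⟨h1, h2, by omega⟩

theorem mem_lines {e : ℤ × ℤ} {v : Fin 4 × ℤ} : v ∈ lines e ↔ ln v.1 e = v.2 := by
  unfold lines
  rw [mem_image]
  constructor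
  · rintro ⟨k, -, rfl⟩
    rfl
  · intro h
    exact ⟨v.1, mem_univ _, Prod.ext rfl h⟩

theorem card_lines (e : ℤ × ℤ) : (lines e).card = 4 := by
  unfold lines
  rw [card_image_of_injective _ (fun a b h => congrArg Prod.fst h), card_univ, Fintype.card_fin]

theorem inter_lines {e f : ℤ × ℤ} (h : e ≠ f) : (lines e ∩ lines f).card ≤ 1 := by
  rw [Finset.card_le_one]
  intro a ha b hb
  rw [mem_inter, mem_lines, mem_lines] at ha hb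
  obtain ⟨i, x⟩ := a
  obtain ⟨j, y⟩ := b
  obtain ⟨e1, e2⟩ := e
  obtain ⟨f1, f2⟩ := f
  obtain ⟨ha1, ha2⟩ := ha
  obtain ⟨hb1, hb2⟩ := hb
  have h' : ¬ (e1 = f1 ∧ e2 = f2) := fun h' => h (Prod.ext h'.1 h'.2)
  by_cases hij : i = j
  · subst hij
    exact Prod.ext rfl (ha1.symm.trans hb1)
  · exfalso
    apply h'
    fin_cases i <;> fin_cases j <;> simp [ln] at ha1 ha2 hb1 hb2 hij <;> omega

theorem VS_sub {Λ n : ℕ} {W : ℤ × ℤ → ℝ} {Rp Rm : Finset ℤ} :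
    VS (DQ Λ n W Rp Rm) ⊆
      ((Finset.Ico (0 : ℤ) n).image (fun s => ((0 : Fin 4), s)) ∪
        (Finset.Ico (0 : ℤ) n).image (fun s => ((1 : Fin 4), s))) ∪
      ((Finset.Ico (0 : ℤ) (2 * n)).image (fun s => ((2 : Fin 4), s)) ∪
        (Finset.Ioo (-(n : ℤ)) n).image (fun s => ((3 : Fin 4), s))) := by
  intro v hv
  unfold VS at hv
  rw [mem_biUnion] at hv
  obtain ⟨e, he, hve⟩ := hv
  have he' : e ∈ board n := he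
  have hv' : v ∈ lines e := hve
  rw [mem_board] at he'
  rw [mem_lines] at hv'
  obtain ⟨k, s⟩ := v
  simp only at hv'
  subst hv'
  rw [mem_union, mem_union, mem_union]
  fin_cases k
  · left
    left
    exact mem_image.2 ⟨e.1, mem_Ico.2 ⟨he'.1.1, he'.1.2⟩, rfl⟩
  · left
    right
    exact mem_image.2 ⟨e.2, mem_Ico.2 ⟨he'.2.1, he'.2.2⟩, rfl⟩
  · right
    left
    exact mem_image.2 ⟨e.1 + e.2, mem_Ico.2 ⟨by omega, by omega⟩, rfl⟩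
  · right
    right
    exact mem_image.2 ⟨e.1 - e.2, mem_Ioo.2 ⟨by omega, by omega⟩, rfl⟩

theorem card_VS {Λ n : ℕ} {W : ℤ × ℤ → ℝ} {Rp Rm : Finset ℤ} :
    (VS (DQ Λ n W Rp Rm)).card ≤ 6 * n := by
  refine (card_le_card VS_sub).trans ?_
  refine (card_union_le _ _).trans ?_
  have h1 := card_union_le ((Finset.Ico (0 : ℤ) n).image (fun s => ((0 : Fin 4), s)))
    ((Finset.Ico (0 : ℤ) n).image (fun s => ((1 : Fin 4), s)))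
  have h2 := card_union_le ((Finset.Ico (0 : ℤ) (2 * n)).image (fun s => ((2 : Fin 4), s)))
    ((Finset.Ioo (-(n : ℤ)) n).image (fun s => ((3 : Fin 4), s)))
  have h3 := card_image_le (s := Finset.Ico (0 : ℤ) n) (f := fun s => ((0 : Fin 4), s))
  have h4 := card_image_le (s := Finset.Ico (0 : ℤ) n) (f := fun s => ((1 : Fin 4), s))
  have h5 := card_image_le (s := Finset.Ico (0 : ℤ) (2 * n)) (f := fun s => ((2 : Fin 4), s))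
  have h6 := card_image_le (s := Finset.Ioo (-(n : ℤ)) n) (f := fun s => ((3 : Fin 4), s))
  rw [Int.card_Ico] at h3 h4 h5
  rw [Int.card_Ioo] at h6
  omega

theorem tt_N {Λ : ℕ} (hΛ : 2 ≤ Λ) : tt Λ (NN Λ) = 1 - 1 / (Λ : ℝ) ^ 28 := by
  obtain ⟨h1, h2, h3⟩ := cs_pow hΛ
  have hN : ((NN Λ : ℕ) : ℝ) = (Λ : ℝ) ^ 84 - (Λ : ℝ) ^ 56 - (Λ : ℝ) ^ 70 + 1 := by
    have h4 : NN Λ + Λ ^ 56 + Λ ^ 70 = Λ ^ 84 + 1 := by
      unfold NN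
      omega
    have h5 : ((NN Λ : ℕ) : ℝ) + (Λ : ℝ) ^ 56 + (Λ : ℝ) ^ 70 = (Λ : ℝ) ^ 84 + 1 := by
      exact_mod_cast h4
    linarith
  have h0 : NN Λ ≠ 0 := by
    unfold NN
    omega
  have hΛ0 : (Λ : ℝ) ≠ 0 := by
    have : (0 : ℝ) < Λ := by exact_mod_cast (by omega : 0 < Λ)
    exact this.ne'
  unfold tt
  rw [if_neg h0, hN]
  have h6 : (Λ : ℝ) ^ 70 + ((Λ : ℝ) ^ 84 - (Λ : ℝ) ^ 56 - (Λ : ℝ) ^ 70 + 1) - 1 =
      (Λ : ℝ) ^ 84 - (Λ : ℝ) ^ 56 := by ring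
  have h7 : (Λ : ℝ) ^ 84 = (Λ : ℝ) ^ 56 * (Λ : ℝ) ^ 28 := by rw [← pow_add]
  have h8 : (Λ : ℝ) ^ 56 ≠ 0 := pow_ne_zero _ hΛ0
  have h9 : (Λ : ℝ) ^ 28 ≠ 0 := pow_ne_zero _ hΛ0
  rw [h6, h7, sub_div, div_self (mul_ne_zero h8 h9), ← div_div, div_self h8]

theorem dl_zero {Λ n : ℕ} (hΛ : 2 ≤ Λ) {W : ℤ × ℤ → ℝ} {Rp Rm : Finset ℤ} :
    dl (DQ Λ n W Rp Rm) 0 = 1 / (Λ : ℝ) ^ 14 := by
  have hΛ0 : (Λ : ℝ) ≠ 0 := by
    have : (0 : ℝ) < Λ := by exact_mod_cast (by omega : 0 < Λ)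
    exact this.ne'
  show tt Λ (0 + 1) - tt Λ 0 = _
  unfold tt
  rw [if_neg (by omega), if_pos rfl, sub_zero]
  have h6 : (Λ : ℝ) ^ 70 + ((0 + 1 : ℕ) : ℝ) - 1 = (Λ : ℝ) ^ 70 := by
    push_cast
    ring
  have h7 : (Λ : ℝ) ^ 84 = (Λ : ℝ) ^ 70 * (Λ : ℝ) ^ 14 := by rw [← pow_add]
  rw [h6, h7, ← div_div, div_self (pow_ne_zero _ hΛ0)]

theorem dl_pos {Λ n : ℕ} (hΛ : 2 ≤ Λ) {W : ℤ × ℤ → ℝ} {Rp Rm : Finset ℤ} {k : ℕ} (hk : k ≠ 0) :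
    dl (DQ Λ n W Rp Rm) k = 1 / (Λ : ℝ) ^ 84 := by
  show tt Λ (k + 1) - tt Λ k = _
  unfold tt
  rw [if_neg (by omega), if_neg hk, ← sub_div]
  congr 1
  push_cast
  ring

theorem NN_le {Λ : ℕ} (hΛ : 2 ≤ Λ) : NN Λ + 1 ≤ Λ ^ 84 := by
  obtain ⟨h1, h2, h3⟩ := cs_pow hΛ
  unfold NN
  omega

theorem NN_pos {Λ : ℕ} (hΛ : 2 ≤ Λ) : 1 ≤ NN Λ := by
  unfold NN
  omega

end Pool.Agent.NQ
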