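import Pool.Agent.NQ.NLaw

/-!
# NQ-NMarg: the set chosen in round `j`

Plan.
* `law_marg`: define the iterated operator `IT r k f u` (`IT 0 k f u = f u`,
  `IT (r+1) k f u = RR D k (IT r (k+1) f) u`), show `EE D k (IT r k f) = EE D (k+r) f` by
  induction, and by induction on `j` (for all `r > j`, `k`, `u`)
  `∑ l ∈ hs E r, law D r k u l * G (l j) = IT j k (fun u' => EW E (qq D (k+j) u') G) u`. Take `k = 0`,
  `u = D.w`, `EE D 0 f = f D.w`.
-/

namespace Pool.Agent.NQ

open Finset
open Pool.Agent.PGr.Nib (EW)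

variable {V J : Type} [DecidableEq V] [DecidableEq J] {D : Dat V J}

private noncomputable def nmIT (D : Dat V J) : ℕ → ℕ → ((J → ℝ) → ℝ) → (J → ℝ) → ℝ
  | 0, _, f => f
  | r + 1, k, f => RR D k (nmIT D r (k + 1) f)

private theorem nmIT_EE (r k : ℕ) (f : (J → ℝ) → ℝ) : EE D k (nmIT D r k f) = EE D (k + r) f := by
  induction r generalizing k with
  | zero => rfl
  | succ r ih =>
    have h1 : EE D k (nmIT D (r + 1) k f) = EE D (k + 1) (nmIT D r (k + 1) f) := rfl
    rw [h1, ih (k + 1), show k + 1 + r = k + (r + 1) by omega]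

private theorem nm_main (G : Finset J → ℝ) (r : ℕ) (k : ℕ) (u : J → ℝ) (j : Fin r) :
    ∑ l ∈ hs D.E r, law D r k u l * G (l j) =
      nmIT D j k (fun u' => EW D.E (qq D (k + j) u') G) u := by
  induction r generalizing k u with
  | zero => exact j.elim0
  | succ r ih =>
    refine Fin.cases ?_ (fun j' => ?_) j
    · have h1 : ∑ l ∈ hs D.E (r + 1), law D (r + 1) k u l * G (l 0) =
          ∑ T ∈ D.E.powerset, ∑ l ∈ hs D.E r, bern D.E (qq D k u) T *
            EW (VS D) (kp D k u) (fun Z => law D r (k + 1) (next D k u T Z) l) * G T :=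
        sum_hs_succ D.E r (fun T l => bern D.E (qq D k u) T *
            EW (VS D) (kp D k u) (fun Z => law D r (k + 1) (next D k u T Z) l) * G T)
      rw [h1]
      change _ = EW D.E (qq D (k + 0) u) G
      rw [add_zero, EW_eq_bern]
      refine sum_congr rfl fun T _ => ?_
      rw [← sum_mul, ← mul_sum, ← Pool.Agent.PGr.Nib.EW_sum]
      simp only [law_sum]
      rw [Pool.Agent.PGr.Nib.EW_one, mul_one]
    · have h1 : ∑ l ∈ hs D.E (r + 1), law D (r + 1) k u l * G (l j'.succ) =
          ∑ T ∈ D.E.powerset, ∑ l ∈ hs D.E r, bern D.E (qq D k u) T *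
            EW (VS D) (kp D k u) (fun Z => law D r (k + 1) (next D k u T Z) l) * G (l j') :=
        sum_hs_succ D.E r (fun T l => bern D.E (qq D k u) T *
            EW (VS D) (kp D k u) (fun Z => law D r (k + 1) (next D k u T Z) l) * G (l j'))
      rw [h1]
      have h2 : nmIT D (j'.succ : ℕ) k
            (fun u' => EW D.E (qq D (k + (j'.succ : ℕ)) u') G) u =
          ∑ T ∈ D.E.powerset, bern D.E (qq D k u) T * EW (VS D) (kp D k u) (fun Z =>
            nmIT D j' (k + 1) (fun u' => EW D.E (qq D (k + 1 + j') u') G) (next D k u T Z)) := by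
        rw [Fin.val_succ, show k + ((j' : ℕ) + 1) = k + 1 + (j' : ℕ) by omega]
        rfl
      rw [h2]
      refine sum_congr rfl fun T _ => ?_
      have h3 : ∀ l ∈ hs D.E r, bern D.E (qq D k u) T *
            EW (VS D) (kp D k u) (fun Z => law D r (k + 1) (next D k u T Z) l) * G (l j') =
          bern D.E (qq D k u) T *
            EW (VS D) (kp D k u) (fun Z => G (l j') * law D r (k + 1) (next D k u T Z) l) := by
        intro l _
        rw [Pool.Agent.PGr.Nib.EW_const_mul]
        ring
      rw [sum_congr rfl h3, ← mul_sum, ← Pool.Agent.PGr.Nib.EW_sum]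
      congr 2
      funext Z
      rw [← ih]
      refine sum_congr rfl fun l _ => ?_
      ring

theorem law_marg (j : Fin D.N) (G : Finset J → ℝ) :
    ∑ l ∈ hs D.E D.N, law D D.N 0 D.w l * G (l j) = EE D j (fun u => EW D.E (qq D j u) G) := by
  rw [nm_main G D.N 0 D.w j]
  have h1 := nmIT_EE (D := D) (j : ℕ) 0 (fun u => EW D.E (qq D (0 + (j : ℕ)) u) G)
  rw [zero_add] at h1
  rw [zero_add]
  exact h1

end Pool.Agent.NQ
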