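import Pool.Agent.NQ.NStep
import Pool.Agent.NQ.NMarg

/-!
# NQ-NCard: expected number of chosen edges; the law of the first set

Plan. `EW_card`: `card = ∑_e 1[e ∈ T]`, `EW_incl_excl` with `B = {e}`, `C = ∅`.
`exp_card`: for each `k`, `law_marg` with `G T = T.card`; `EW E q card = ∑_e q_e = dl k * mass k u`;
`EE_mass`; sum over `k < N`, `∑ dl k = t N - t 0`.
`law_zero`: `law_marg` with `j = 0`; `pe e (t 0) = 1`, `dl 0 = t 1`, so `qq 0 w e = t 1 * w e`.
-/

namespace Pool.Agent.NQ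

open Finset
open Pool.Agent.PGr.Nib (EW)

variable {V J : Type} [DecidableEq V] [DecidableEq J] {D : Dat V J}

theorem EW_card (A : Finset J) (p : J → ℝ) :
    EW A p (fun T => (T.card : ℝ)) = ∑ i ∈ A, p i := by
  have h1 : EW A p (fun T => (T.card : ℝ)) =
      EW A p (fun T => ∑ i ∈ A, (if i ∈ T then (1 : ℝ) else 0)) := by
    refine Pool.Agent.PGr.Nib.EW_congr fun T hT => ?_
    rw [← Finset.sum_filter, Finset.sum_const, nsmul_eq_mul, mul_one]
    congr 2
    ext i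
    rw [Finset.mem_filter]
    exact ⟨fun h => ⟨hT h, h⟩, fun h => h.2⟩
  rw [h1, Pool.Agent.PGr.Nib.EW_sum]
  refine Finset.sum_congr rfl fun i hi => ?_
  have h2 := Pool.Agent.PGr.Nib.EW_mem_disj A p i hi ∅ (empty_subset _) (notMem_empty _)
  simpa using h2

private theorem ncard_dl : ∑ k : Fin D.N, dl D k = D.t D.N - D.t 0 := by
  rw [Fin.sum_univ_eq_sum_range (fun k => dl D k) D.N]
  unfold dl
  exact Finset.sum_range_sub D.t D.N

theorem exp_card (H : OK D) :
    D.t D.N * ((∑ e ∈ D.E, D.w e) - 2 * D.N * D.ζ * (VS D).card) ≤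
      ∑ l ∈ hs D.E D.N, law D D.N 0 D.w l * ∑ k, ((l k).card : ℝ) := by
  have h1 : ∑ l ∈ hs D.E D.N, law D D.N 0 D.w l * ∑ k, ((l k).card : ℝ) =
      ∑ k : Fin D.N, dl D k * EE D k (mass D k) := by
    simp_rw [Finset.mul_sum]
    rw [Finset.sum_comm]
    refine Finset.sum_congr rfl fun k _ => ?_
    rw [law_marg k (fun T => (T.card : ℝ)), ← EE_const_mul]
    congr 1
    funext u
    rw [EW_card]
    unfold mass qq
    rw [Finset.mul_sum]
    refine Finset.sum_congr rfl fun e _ => ?_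
    rw [mul_div_assoc]
  have h2 : D.t D.N = ∑ k : Fin D.N, dl D k := by
    rw [ncard_dl, H.t0, sub_zero]
  rw [h1, h2, Finset.sum_mul]
  refine Finset.sum_le_sum fun k _ => ?_
  refine mul_le_mul_of_nonneg_left ?_ (dl_nonneg H k.2)
  refine le_trans ?_ (EE_mass H k.2.le)
  have h3 : ((k : ℕ) : ℝ) ≤ (D.N : ℝ) := by exact_mod_cast k.2.le
  have h4 : 0 ≤ 2 * D.ζ * ((VS D).card : ℝ) :=
    mul_nonneg (mul_nonneg zero_le_two H.ζ0.le) (Nat.cast_nonneg _)
  have h5 := mul_le_mul_of_nonneg_right h3 h4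
  linarith

theorem law_zero (H : OK D) (k : Fin D.N) (hk : (k : ℕ) = 0) (G : Finset J → ℝ) :
    ∑ l ∈ hs D.E D.N, law D D.N 0 D.w l * G (l k) = EW D.E (fun e => D.t 1 * D.w e) G := by
  rw [law_marg k G, hk]
  show EW D.E (qq D 0 D.w) G = _
  congr 1
  funext e
  unfold qq dl pe
  rw [H.t0]
  simp

end Pool.Agent.NQ
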