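import Pool.Agent.NQ.NEE
import Pool.Agent.NQ.NMarg

/-!
# NQ-NIso: expected number of non-isolated chosen edges

Plan. `G T = #(nis D T) ≤ ∑_e ∑_{v∈S e} ∑_{f∋v, f≠e} 1[e ∈ T] 1[f ∈ T]` (`T ⊆ E`), mean
`≤ ∑_e q_e ∑_{v∈S e} ∑_{f∋v} q_f` (`EW_incl_excl` with `B = {e, f}`). `exp_nis`: for `Inv D k u`,
`∑_{f∋v} q_f ≤ dl k tau k v ≤ dl k/κ` (`sum_qq_le`, `tau_le`), so
`≤ ∑_e q_e 4 dl k/κ = 4 dl k²/κ mass ≤ dl k² |VS|/κ²` (`mass_le`); `law_marg`, `EE_mono`.
`exp_nis0`: for `k = 0` (`EE D 0 f = f D.w`): `tau 0 v = d v ≤ 1`, and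
`4 mass 0 w = ∑_{v∈VS} ∑_{e∋v} w e ≤ |VS|`.
-/

namespace Pool.Agent.NQ

open Finset
open Pool.Agent.PGr.Nib (EW)

variable {V J : Type} [DecidableEq V] [DecidableEq J] {D : Dat V J}

open Classical in
/-- The non-isolated edges of a set. -/
noncomputable def nis (D : Dat V J) (T : Finset J) : Finset J :=
  T.filter (fun e => ∃ f ∈ T, f ≠ e ∧ ¬ Disjoint (D.S e) (D.S f))

/-- The mean number of non-isolated chosen edges of one round. -/
private theorem EW_nis (E : Finset J) (S : J → Finset V) {q : J → ℝ} (h0 : ∀ e ∈ E, 0 ≤ q e)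
    (h1 : ∀ e ∈ E, q e ≤ 1) (G : Finset J → ℝ)
    (hG : ∀ T ⊆ E, G T ≤ ∑ e ∈ E, ∑ v ∈ S e, ∑ f ∈ E.filter (fun f => v ∈ S f),
      if f ≠ e ∧ {e, f} ⊆ T then 1 else 0) :
    EW E q G ≤ ∑ e ∈ E, q e * ∑ v ∈ S e, ∑ f ∈ E.filter (fun f => v ∈ S f), q f := by
  refine (PGr.Nib.EW_mono h0 h1 hG).trans ?_
  rw [PGr.Nib.EW_sum]
  refine sum_le_sum fun e he => ?_
  rw [PGr.Nib.EW_sum, mul_sum]
  refine sum_le_sum fun v _ => ?_
  rw [PGr.Nib.EW_sum, mul_sum]
  refine sum_le_sum fun f hf => ?_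
  have hf' := (mem_filter.1 hf).1
  by_cases hfe : f = e
  · have : EW E q (fun T => if f ≠ e ∧ {e, f} ⊆ T then (1 : ℝ) else 0) = 0 := by
      unfold EW
      exact sum_eq_zero fun T _ => by simp [hfe]
    rw [this]
    exact mul_nonneg (h0 e he) (h0 f hf')
  · have h2 := PGr.Nib.EW_incl_excl E q {e, f} ∅ (by
      intro x hx
      rcases mem_insert.1 hx with rfl | hx
      · exact he
      · rw [mem_singleton.1 hx]; exact hf') (empty_subset _) (disjoint_empty_right _)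
    have h3 : EW E q (fun T => if f ≠ e ∧ {e, f} ⊆ T then (1 : ℝ) else 0) =
        EW E q (fun T => if {e, f} ⊆ T ∧ Disjoint T ∅ then 1 else 0) := by
      refine PGr.Nib.EW_congr fun T _ => ?_
      simp [hfe]
    rw [h3, h2, prod_empty, mul_one, prod_pair (Ne.symm hfe)]

private theorem nis_le (T : Finset J) (hT : T ⊆ D.E) :
    ((nis D T).card : ℝ) ≤ ∑ e ∈ D.E, ∑ v ∈ D.S e, ∑ f ∈ D.E.filter (fun f => v ∈ D.S f),
      if f ≠ e ∧ {e, f} ⊆ T then 1 else 0 := by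
  classical
  have h1 : ((nis D T).card : ℝ) = ∑ e ∈ D.E, if e ∈ nis D T then 1 else 0 := by
    rw [← sum_filter, sum_const, nsmul_eq_mul, mul_one]
    congr 2
    ext e
    rw [mem_filter]
    exact ⟨fun h => ⟨hT (mem_filter.1 h).1, h⟩, fun h => h.2⟩
  rw [h1]
  refine sum_le_sum fun e _ => ?_
  split_ifs with he
  · obtain ⟨heT, f, hfT, hfe, hd⟩ := mem_filter.1 he
    obtain ⟨v, hve, hvf⟩ := not_disjoint_iff.1 hd
    have hs1 : (1 : ℝ) = if f ≠ e ∧ {e, f} ⊆ T then 1 else 0 := by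
      rw [if_pos]
      refine ⟨hfe, ?_⟩
      intro x hx
      rcases mem_insert.1 hx with rfl | hx
      · exact heT
      · rw [mem_singleton.1 hx]; exact hfT
    calc (1 : ℝ) = if f ≠ e ∧ {e, f} ⊆ T then 1 else 0 := hs1
      _ ≤ ∑ f ∈ D.E.filter (fun f => v ∈ D.S f), if f ≠ e ∧ {e, f} ⊆ T then 1 else 0 :=
          single_le_sum (f := fun f => if f ≠ e ∧ {e, f} ⊆ T then (1 : ℝ) else 0)
            (fun i _ => by split_ifs <;> norm_num) (mem_filter.2 ⟨hT hfT, hvf⟩)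
      _ ≤ _ := single_le_sum
            (f := fun v => ∑ f ∈ D.E.filter (fun f => v ∈ D.S f),
              if f ≠ e ∧ {e, f} ⊆ T then (1 : ℝ) else 0)
            (fun i _ => sum_nonneg fun j _ => by split_ifs <;> norm_num) hve
  · exact sum_nonneg fun v _ => sum_nonneg fun f _ => by split_ifs <;> norm_num

private theorem EW_nis_le (H : OK D) {k : ℕ} (hk : k < D.N) {u : J → ℝ} (hu : Inv D k u) {c : ℝ}
    (hc : ∀ v, tau D k v ≤ c) :
    EW D.E (qq D k u) (fun T => ((nis D T).card : ℝ)) ≤ dl D k ^ 2 * (4 * c * mass D k u) := by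
  have h0 : ∀ e ∈ D.E, 0 ≤ qq D k u e := fun e he => qq_nonneg H hk hu he
  have h1 : ∀ e ∈ D.E, qq D k u e ≤ 1 := fun e he => by
    have h2 := qq_le H hk hu he
    have h3 := qm_le H
    linarith
  refine (EW_nis D.E D.S h0 h1 _ fun T hT => nis_le T hT).trans ?_
  have hd := dl_nonneg H hk
  calc ∑ e ∈ D.E, qq D k u e * ∑ v ∈ D.S e, ∑ f ∈ D.E.filter (fun f => v ∈ D.S f), qq D k u f
      ≤ ∑ e ∈ D.E, qq D k u e * (4 * (dl D k * c)) := by
        refine sum_le_sum fun e he => mul_le_mul_of_nonneg_left ?_ (h0 e he)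
        calc ∑ v ∈ D.S e, ∑ f ∈ D.E.filter (fun f => v ∈ D.S f), qq D k u f
            ≤ ∑ _v ∈ D.S e, dl D k * c := by
              refine sum_le_sum fun v _ => (sum_qq_le H hk hu v).trans ?_
              exact mul_le_mul_of_nonneg_left (hc v) hd
          _ = 4 * (dl D k * c) := by
              rw [sum_const, H.card e he, nsmul_eq_mul]; norm_num
    _ = dl D k ^ 2 * (4 * c * mass D k u) := by
        unfold mass qq
        rw [← sum_mul]
        have : ∑ e ∈ D.E, dl D k * u e / pe D e (D.t k) =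
            dl D k * ∑ e ∈ D.E, u e / pe D e (D.t k) := by
          rw [mul_sum]
          exact sum_congr rfl fun e _ => by rw [mul_div_assoc]
        rw [this]
        ring

theorem exp_nis (H : OK D) (k : Fin D.N) :
    ∑ l ∈ hs D.E D.N, law D D.N 0 D.w l * ((nis D (l k)).card : ℝ) ≤
      dl D k ^ 2 * (VS D).card / D.κ ^ 2 := by
  rw [law_marg k (fun T => ((nis D T).card : ℝ))]
  have hκ := H.κ0
  have h1 : EE D k (fun u => EW D.E (qq D k u) (fun T => ((nis D T).card : ℝ))) ≤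
      EE D k (fun _ => dl D k ^ 2 * (VS D).card / D.κ ^ 2) := by
    refine EE_mono H k.2.le fun u hu => ?_
    refine (EW_nis_le H k.2 hu (c := 1 / D.κ) fun v => tau_le H k.2.le v).trans ?_
    have h2 := mass_le H k.2.le hu
    have h3 : dl D k ^ 2 * (4 * (1 / D.κ) * mass D k u) ≤
        dl D k ^ 2 * (4 * (1 / D.κ) * ((VS D).card / (4 * D.κ))) :=
      mul_le_mul_of_nonneg_left (mul_le_mul_of_nonneg_left h2 (by positivity)) (sq_nonneg _)
    refine h3.trans (le_of_eq ?_)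
    field_simp
  rwa [EE_const] at h1

theorem exp_nis0 (H : OK D) (k : Fin D.N) (hk : (k : ℕ) = 0) :
    ∑ l ∈ hs D.E D.N, law D D.N 0 D.w l * ((nis D (l k)).card : ℝ) ≤
      dl D 0 ^ 2 * (VS D).card := by
  rw [law_marg k (fun T => ((nis D T).card : ℝ)), hk]
  have hN : 0 < D.N := hk ▸ k.2
  change EW D.E (qq D 0 D.w) (fun T => ((nis D T).card : ℝ)) ≤ _
  have hu := inv_zero H
  have htau : ∀ v, tau D 0 v ≤ 1 := fun v => by
    unfold tau
    rw [H.t0, mul_zero, sub_zero, div_one]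
    exact H.d1 v
  refine (EW_nis_le H hN hu (c := 1) htau).trans ?_
  refine mul_le_mul_of_nonneg_left ?_ (sq_nonneg _)
  have h1 : 4 * 1 * mass D 0 D.w =
      ∑ v ∈ VS D, ∑ e ∈ D.E.filter (fun e => v ∈ D.S e), D.w e / pe D e (D.t 0) := by
    simp only [Finset.sum_filter]
    rw [sum_comm, mass, mul_sum]
    refine sum_congr rfl fun e he => ?_
    rw [← Finset.sum_filter, sum_const, nsmul_eq_mul]
    have h2 : ((VS D).filter (fun v => v ∈ D.S e)) = D.S e := by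
      ext v
      rw [mem_filter]
      exact ⟨fun hv => hv.2, fun hv => ⟨mem_biUnion.2 ⟨e, he, hv⟩, hv⟩⟩
    rw [h2, H.card e he]
    norm_num
  rw [h1]
  calc ∑ v ∈ VS D, ∑ e ∈ D.E.filter (fun e => v ∈ D.S e), D.w e / pe D e (D.t 0)
      ≤ ∑ _v ∈ VS D, (1 : ℝ) := sum_le_sum fun v _ => (hu.deg v).trans (htau v)
    _ = (VS D).card := by rw [sum_const, nsmul_eq_mul, mul_one]

end Pool.Agent.NQ
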