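import Pool.Agent.NQ.NLaw

/-!
# NQ-NSupp: the support of the law

Plan.
* `law_supp`: if `law D r k u l ≠ 0` with `Inv D k u` then `l 0` contains only edges with `qq ≠ 0`,
  so `u e > 0`, and some `Z` has `law D r (k+1) (next D k u (l 0) Z) (tail l) ≠ 0`; in that state
  `next e = 0` for every edge `e` meeting a member of `l 0` (it is not alive), and weights which are
  `0` stay `0`. By induction every `f ∈ l j`, `j ≥ 1` satisfies `next D k u (l 0) Z f ≠ 0`, hence
  `Disjoint (S e) (S f)` for `e ∈ l 0`; and `0 < u f ≤ w f`.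
-/

namespace Pool.Agent.NQ

open Finset
open Pool.Agent.PGr.Nib (EW)

variable {V J : Type} [DecidableEq V] [DecidableEq J] {D : Dat V J}

private theorem law_supp_aux (r : ℕ) : ∀ (k : ℕ) (u : J → ℝ) (l : Fin r → Finset J),
    law D r k u l ≠ 0 →
      (∀ i j, i < j → ∀ e ∈ l i, ∀ f ∈ l j, Disjoint (D.S e) (D.S f)) ∧
        ∀ i, ∀ e ∈ l i, u e ≠ 0 := by
  induction r with
  | zero =>
    intro k u l _
    exact ⟨fun i => i.elim0, fun i => i.elim0⟩
  | succ r ih =>
    intro k u l h
    unfold law at h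
    have hb := left_ne_zero_of_mul h
    have hE := right_ne_zero_of_mul h
    obtain ⟨Z, -, hZ⟩ := Finset.exists_ne_zero_of_sum_ne_zero hE
    have hZ' := right_ne_zero_of_mul hZ
    obtain ⟨h1, h2⟩ := ih (k + 1) (next D k u (l 0) Z) (Fin.tail l) hZ'
    have hnext : ∀ e, next D k u (l 0) Z e ≠ 0 → Alive D (D.S e) (l 0) Z ∧ u e ≠ 0 := by
      intro e he
      unfold next at he
      by_cases hA : Alive D (D.S e) (l 0) Z
      · rw [if_pos hA] at he
        exact ⟨hA, left_ne_zero_of_mul he⟩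
      · rw [if_neg hA] at he
        exact absurd rfl he
    have h0 : ∀ e ∈ l 0, u e ≠ 0 := by
      intro e he hu
      apply hb
      unfold bern
      rw [Finset.prod_eq_zero he, zero_mul]
      unfold qq
      rw [hu, mul_zero, zero_div]
    refine ⟨?_, ?_⟩
    · intro i j hij e he f hf
      have hj : j ≠ 0 := fun h => by rw [h] at hij; exact absurd hij (Fin.not_lt_zero i)
      obtain ⟨j', rfl⟩ := Fin.exists_succ_eq.mpr hj
      by_cases hi : i = 0
      · subst hi
        exact (hnext f (h2 j' f hf)).1.2 e he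
      · obtain ⟨i', rfl⟩ := Fin.exists_succ_eq.mpr hi
        exact h1 i' j' (Fin.succ_lt_succ_iff.mp hij) e he f hf
    · intro i e he
      by_cases hi : i = 0
      · subst hi
        exact h0 e he
      · obtain ⟨i', rfl⟩ := Fin.exists_succ_eq.mpr hi
        exact (hnext e (h2 i' e he)).2

theorem law_supp (H : OK D) {l : Fin D.N → Finset J} (hl : l ∈ hs D.E D.N)
    (h : law D D.N 0 D.w l ≠ 0) :
    (∀ i j, i < j → ∀ e ∈ l i, ∀ f ∈ l j, Disjoint (D.S e) (D.S f)) ∧
      ∀ i, ∀ e ∈ l i, 0 < D.w e := by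
  obtain ⟨h1, h2⟩ := law_supp_aux D.N 0 D.w l h
  refine ⟨h1, fun i e he => ?_⟩
  have heE : e ∈ D.E := by
    have := Fintype.mem_piFinset.mp hl i
    exact Finset.mem_powerset.mp this he
  exact lt_of_le_of_ne (H.w0 e heE) (h2 i e he).symm

end Pool.Agent.NQ
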