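import Pool.Agent.NQ.CDat
import Pool.Agent.NQ.NSupp
import Pool.Agent.NQ.NIso
import Pool.Agent.NQ.NCard
import Pool.Agent.NQ.CAbs

/-!
# NQ-CStr: structure of the outcomes of positive probability

Plan. From `law_supp` (with `D = DQ`, `Disjoint (lines e) (lines f)` means `ln k e ≠ ln k f` for all `k`)
and the definition of `bad`. `PQ l ≠ 0` gives: squares of different rounds do not attack each other;
all squares have `wres > 0`, so they avoid the reserved diagonals. `nis D T = bad T` (not disjoint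
lines iff some `ln k` agree). `card_MM`: the sets `l k` are pairwise disjoint, so
`|MM l| = ∑ |l k \ bad (l k)|`.
-/

namespace Pool.Agent.NQ

open Finset

variable {Λ n : ℕ} {W : ℤ × ℤ → ℝ} {Rp Rm : Finset ℤ}

private theorem disj_iff {e f : ℤ × ℤ} :
    Disjoint (lines e) (lines f) ↔ ∀ k, ln k e ≠ ln k f := by
  constructor
  · intro h k hk
    have h1 : (k, ln k e) ∈ lines e := mem_lines.mpr rfl
    have h2 : (k, ln k e) ∈ lines f := mem_lines.mpr hk.symm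
    exact (Finset.disjoint_left.mp h h1) h2
  · intro h
    rw [Finset.disjoint_left]
    intro v h1 h2
    exact h v.1 ((mem_lines.mp h1).trans (mem_lines.mp h2).symm)

private theorem mem_bad {T : Finset (ℤ × ℤ)} {e : ℤ × ℤ} :
    e ∈ bad T ↔ e ∈ T ∧ ∃ f ∈ T, f ≠ e ∧ ∃ k, ln k e = ln k f := by
  classical
  unfold bad
  rw [Finset.mem_filter]

private theorem bad_sub (T : Finset (ℤ × ℤ)) : bad T ⊆ T := fun _ h => (mem_bad.mp h).1

private theorem mem_MM {N : ℕ} {l : Fin N → Finset (ℤ × ℤ)} {e : ℤ × ℤ} :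
    e ∈ MM l ↔ ∃ k, e ∈ l k ∧ e ∉ bad (l k) := by
  unfold MM
  simp only [Finset.mem_biUnion, Finset.mem_univ, true_and, Finset.mem_sdiff]

theorem nis_eq (T : Finset (ℤ × ℤ)) : nis (DQ Λ n W Rp Rm) T = bad T := by
  classical
  ext e
  rw [mem_bad]
  unfold nis
  rw [Finset.mem_filter]
  refine and_congr_right fun _ => ?_
  constructor
  · rintro ⟨f, hf, hfe, hd⟩
    refine ⟨f, hf, hfe, ?_⟩
    by_contra hc
    exact hd (disj_iff.mpr fun k hk => hc ⟨k, hk⟩)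
  · rintro ⟨f, hf, hfe, k, hk⟩
    exact ⟨f, hf, hfe, fun hd => disj_iff.mp hd k hk⟩

private theorem supp (hΛ : 30 ≤ Λ) (hn : Λ ^ 500 ≤ n) (HG : GW Λ n W) (HR : RW Λ n W Rp Rm)
    {l : Fin (NN Λ) → Finset (ℤ × ℤ)} (hl : l ∈ hs (board n) (NN Λ)) (h : PQ Λ n W Rp Rm l ≠ 0) :
    (∀ i j, i ≠ j → ∀ e ∈ l i, ∀ f ∈ l j, ∀ k, ln k e ≠ ln k f) ∧
      ∀ i, ∀ e ∈ l i, 0 < wres Λ W Rp Rm e := by
  have H := law_supp (ok_DQ hΛ hn HG HR) (l := l) hl h
  refine ⟨?_, H.2⟩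
  intro i j hij e he f hf k
  rcases lt_or_gt_of_ne hij with h1 | h1
  · exact disj_iff.mp (H.1 i j h1 e he f hf) k
  · exact (disj_iff.mp (H.1 j i h1 f hf e he) k).symm

theorem dis_l (hΛ : 30 ≤ Λ) (hn : Λ ^ 500 ≤ n) (HG : GW Λ n W) (HR : RW Λ n W Rp Rm)
    {l : Fin (NN Λ) → Finset (ℤ × ℤ)} (hl : l ∈ hs (board n) (NN Λ)) (h : PQ Λ n W Rp Rm l ≠ 0) :
    ∀ i j, i ≠ j → Disjoint (l i) (l j) := by
  intro i j hij
  rw [Finset.disjoint_left]
  intro e he hf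
  exact (supp hΛ hn HG HR hl h).1 i j hij e he e hf 0 rfl

theorem MM_nonAtt (hΛ : 30 ≤ Λ) (hn : Λ ^ 500 ≤ n) (HG : GW Λ n W) (HR : RW Λ n W Rp Rm)
    {l : Fin (NN Λ) → Finset (ℤ × ℤ)} (hl : l ∈ hs (board n) (NN Λ)) (h : PQ Λ n W Rp Rm l ≠ 0) :
    MM l ⊆ board n ∧ NonAtt (MM l) ∧ ∀ e ∈ MM l, ln 2 e ∉ Rp ∧ ln 3 e ∉ Rm := by
  have H := supp hΛ hn HG HR hl h
  refine ⟨?_, ?_, ?_⟩
  · intro e he
    obtain ⟨k, hk, -⟩ := mem_MM.mp he
    exact mem_hs.mp hl k hk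
  · intro e he f hf hef k hk
    obtain ⟨i, hi, hbi⟩ := mem_MM.mp he
    obtain ⟨j, hj, -⟩ := mem_MM.mp hf
    by_cases hij : i = j
    · subst hij
      exact hbi (mem_bad.mpr ⟨hi, f, hj, hef.symm, k, hk⟩)
    · exact H.1 i j hij e hi f hj k hk
  · intro e he
    obtain ⟨k, hk, -⟩ := mem_MM.mp he
    have hw := H.2 k e hk
    unfold wres at hw
    by_contra hc
    have hc' : ln 2 e ∈ Rp ∨ ln 3 e ∈ Rm := by tauto
    rw [if_pos hc'] at hw
    exact lt_irrefl _ hw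

theorem card_MM (hΛ : 30 ≤ Λ) (hn : Λ ^ 500 ≤ n) (HG : GW Λ n W) (HR : RW Λ n W Rp Rm)
    {l : Fin (NN Λ) → Finset (ℤ × ℤ)} (hl : l ∈ hs (board n) (NN Λ)) (h : PQ Λ n W Rp Rm l ≠ 0) :
    ∑ k, (l k).card = (MM l).card + ∑ k, (bad (l k)).card := by
  have hd := dis_l hΛ hn HG HR hl h
  have h1 : (MM l).card = ∑ k, (l k \ bad (l k)).card := by
    unfold MM
    refine Finset.card_biUnion ?_
    intro i _ j _ hij
    exact Finset.disjoint_of_subset_left Finset.sdiff_subset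
      (Finset.disjoint_of_subset_right Finset.sdiff_subset (hd i j hij))
  rw [h1, ← Finset.sum_add_distrib]
  refine Finset.sum_congr rfl fun k _ => ?_
  exact (Finset.card_sdiff_add_card_eq_card (bad_sub (l k))).symm

/-- A good outcome gives a configuration containing almost all of `MM l`. -/
theorem good_config (hΛ : 30 ≤ Λ) (hn : Λ ^ 500 ≤ n) (HG : GW Λ n W) (HR : RW Λ n W Rp Rm)
    {l : Fin (NN Λ) → Finset (ℤ × ℤ)} (hl : l ∈ hs (board n) (NN Λ)) (h : PQ Λ n W Rp Rm l ≠ 0)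
    (hg : Good Λ n Rp Rm l) :
    ∃ A ∈ Qset n, ∑ k, (l k \ A).card ≤ m0 Λ n + ∑ k, (bad (l k)).card := by
  have hd := dis_l hΛ hn HG HR hl h
  obtain ⟨h1, h2, h3⟩ := MM_nonAtt hΛ hn HG HR hl h
  obtain ⟨A, hA, hc⟩ := absorb h1 h2 h3 hg.1 hg.2
  refine ⟨A, hA, ?_⟩
  have h4 : ∑ k, ((l k \ bad (l k)) \ A).card ≤ (MM l \ A).card := by
    rw [← Finset.card_biUnion (t := fun k => (l k \ bad (l k)) \ A)]
    · refine Finset.card_le_card ?_
      intro e he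
      simp only [Finset.mem_biUnion, Finset.mem_univ, true_and, Finset.mem_sdiff] at he
      obtain ⟨k, ⟨hk, hb⟩, hA'⟩ := he
      exact Finset.mem_sdiff.mpr ⟨mem_MM.mpr ⟨k, hk, hb⟩, hA'⟩
    · intro i _ j _ hij
      exact Finset.disjoint_of_subset_left (Finset.sdiff_subset.trans Finset.sdiff_subset)
        (Finset.disjoint_of_subset_right (Finset.sdiff_subset.trans Finset.sdiff_subset)
          (hd i j hij))
  have h5 : ∀ k, (l k \ A).card ≤ ((l k \ bad (l k)) \ A).card + (bad (l k)).card := by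
    intro k
    refine le_trans (Finset.card_le_card ?_) (Finset.card_union_le _ _)
    intro e he
    rw [Finset.mem_sdiff] at he
    by_cases hb : e ∈ bad (l k)
    · exact Finset.mem_union_right _ hb
    · exact Finset.mem_union_left _ (Finset.mem_sdiff.mpr ⟨Finset.mem_sdiff.mpr ⟨he.1, hb⟩, he.2⟩)
  calc ∑ k, (l k \ A).card ≤ ∑ k, (((l k \ bad (l k)) \ A).card + (bad (l k)).card) :=
        Finset.sum_le_sum fun k _ => h5 k
    _ = ∑ k, ((l k \ bad (l k)) \ A).card + ∑ k, (bad (l k)).card := Finset.sum_add_distrib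
    _ ≤ m0 Λ n + ∑ k, (bad (l k)).card := by omega

end Pool.Agent.NQ
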