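import Mathlib

/-!
# n-queens, power saving: basic definitions

A square is a pair of integers, the board of size `n` is `[0,n)²`.
-/

namespace Pool.Agent.NQ

open Finset

/-- The function `u + (1 - u) log (1 - u)`. Note `phi 1 = 1`, since `Real.log 0 = 0`. -/
noncomputable def phi (u : ℝ) : ℝ := u + (1 - u) * Real.log (1 - u)

/-- The board `[0,n)²`. -/
noncomputable def board (n : ℕ) : Finset (ℤ × ℤ) := Finset.Ico (0 : ℤ) n ×ˢ Finset.Ico (0 : ℤ) n

/-- The four line coordinates of a square: row, column, sum diagonal, difference diagonal. -/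
def ln (k : Fin 4) (e : ℤ × ℤ) : ℤ := ![e.1, e.2, e.1 + e.2, e.1 - e.2] k

@[simp] theorem ln_zero (e : ℤ × ℤ) : ln 0 e = e.1 := rfl
@[simp] theorem ln_one (e : ℤ × ℤ) : ln 1 e = e.2 := rfl
@[simp] theorem ln_two (e : ℤ × ℤ) : ln 2 e = e.1 + e.2 := rfl
@[simp] theorem ln_three (e : ℤ × ℤ) : ln 3 e = e.1 - e.2 := rfl

/-- No two squares of `S` attack each other. -/
def NonAtt (S : Finset (ℤ × ℤ)) : Prop :=
  ∀ e ∈ S, ∀ f ∈ S, e ≠ f → ∀ k, ln k e ≠ ln k f

/-- `S` is a configuration of `n` non-attacking queens on the board of size `n`. -/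
def QS (n : ℕ) (S : Finset (ℤ × ℤ)) : Prop := S ⊆ board n ∧ S.card = n ∧ NonAtt S

open Classical in
/-- The set of all configurations of `n` queens. -/
noncomputable def Qset (n : ℕ) : Finset (Finset (ℤ × ℤ)) :=
  (board n).powerset.filter (fun S => QS n S)

/-- The number of `n`-queens configurations. -/
noncomputable def Q (n : ℕ) : ℕ := (Qset n).card

theorem mem_Qset {n : ℕ} {S : Finset (ℤ × ℤ)} : S ∈ Qset n ↔ QS n S := by
  classical
  unfold Qset
  rw [mem_filter, mem_powerset]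
  exact ⟨fun h => h.2, fun h => ⟨h.1, h⟩⟩

theorem mem_board {n : ℕ} {e : ℤ × ℤ} :
    e ∈ board n ↔ (0 ≤ e.1 ∧ e.1 < n) ∧ (0 ≤ e.2 ∧ e.2 < n) := by
  unfold board
  rw [mem_product, mem_Ico, mem_Ico]

/-- The sum of the weights `W` on the line of type `k` and number `s` of the board. -/
noncomputable def dsum (n : ℕ) (W : ℤ × ℤ → ℝ) (k : Fin 4) (s : ℤ) : ℝ :=
  ∑ e ∈ (board n).filter (fun e => ln k e = s), W e

/-- The entropy of a weight function. -/
noncomputable def Ent (n : ℕ) (W : ℤ × ℤ → ℝ) : ℝ := ∑ e ∈ board n, Real.negMulLog (W e)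

/-- The diagonal part of the functional. -/
noncomputable def Dg (n : ℕ) (W : ℤ × ℤ → ℝ) : ℝ :=
  ∑ s ∈ Finset.Ico (0 : ℤ) (2 * n), phi (dsum n W 2 s) +
    ∑ s ∈ Finset.Ioo (-(n : ℤ)) n, phi (dsum n W 3 s)

/-- The functional. -/
noncomputable def F (n : ℕ) (W : ℤ × ℤ → ℝ) : ℝ := Ent n W - Dg n W

/-- The weights the lower bound is proved for. -/
structure GW (Λ n : ℕ) (W : ℤ × ℤ → ℝ) : Prop where
  lo : ∀ e ∈ board n, 1 / (4 * (Λ : ℝ) ^ 2 * n) ≤ W e
  hi : ∀ e ∈ board n, W e ≤ (Λ : ℝ) ^ 60 / n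
  row : ∀ s, dsum n W 0 s ≤ 1
  col : ∀ s, dsum n W 1 s ≤ 1
  sd : ∀ s, dsum n W 2 s ≤ 1 - 1 / (10 * (Λ : ℝ) ^ 2)
  dd : ∀ s, dsum n W 3 s ≤ 1 - 1 / (10 * (Λ : ℝ) ^ 2)
  tot : (n : ℝ) * (1 - 1 / (Λ : ℝ) ^ 28) ≤ ∑ e ∈ board n, W e

/-- The strip cell of a square, strips of length `l`. -/
def cell (l : ℤ) (e : ℤ × ℤ) : ℤ × ℤ := ((e.1 + e.2) / l, (e.1 - e.2) / l)

/-- Number of squares of `S` in the cell `c`. -/
noncomputable def cnt (S : Finset (ℤ × ℤ)) (l : ℤ) (c : ℤ × ℤ) : ℕ := (S.filter (fun e => cell l e = c)).card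

/-- Number of squares of `S` in the strip `a` of sum diagonals. -/
noncomputable def cs (S : Finset (ℤ × ℤ)) (l : ℤ) (a : ℤ) : ℕ := (S.filter (fun e => (e.1 + e.2) / l = a)).card

/-- Number of squares of `S` in the strip `b` of difference diagonals. -/
noncomputable def cd (S : Finset (ℤ × ℤ)) (l : ℤ) (b : ℤ) : ℕ := (S.filter (fun e => (e.1 - e.2) / l = b)).card

/-- The cell entropy of a set of squares. -/
noncomputable def Se (S : Finset (ℤ × ℤ)) (l : ℤ) : ℝ :=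
  ∑ c ∈ S.image (cell l), (cnt S l c : ℝ) * Real.log ((l : ℝ) ^ 2 / (2 * (cnt S l c : ℝ)))

/-- The diagonal part of `Psi`. -/
noncomputable def Pd (S : Finset (ℤ × ℤ)) (l : ℤ) : ℝ :=
  ∑ a ∈ S.image (fun e => (e.1 + e.2) / l), (l : ℝ) * phi ((cs S l a : ℝ) / l) +
    ∑ b ∈ S.image (fun e => (e.1 - e.2) / l), (l : ℝ) * phi ((cd S l b : ℝ) / l)

/-- The functional of the strip profile of `S`. -/
noncomputable def Psi (S : Finset (ℤ × ℤ)) (l : ℤ) : ℝ := Se S l - Pd S l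

/-- The product Bernoulli weight of `T ⊆ A`. -/
noncomputable def bern {I : Type*} [DecidableEq I] (A : Finset I) (p : I → ℝ) (T : Finset I) : ℝ :=
  (∏ i ∈ T, p i) * ∏ i ∈ A \ T, (1 - p i)

end Pool.Agent.NQ
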