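import Pool.Agent.NQ.GKra

/-!
# NQ-GEnc: the encoding bound

`P` is a probability distribution on sequences `l` of `N` subsets of `E`, such that in every `l`
with `P l ≠ 0` each element belongs to at most one `l k`. To each `l` a member `σ l` of the family
`G` (all members have at most `n` elements) is attached, `ex l` is the number of pairs `(k, e)` with
`e ∈ l k`, `e ∉ σ l`. Then the entropy is at most `log |G| + n log (N+1) + E(ex) log (N |E|) + 1`.

Proof. Apply `gibbs` on `s = hs.filter (P l ≠ 0)` (the terms with `P l = 0` are zero on both sides) with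
`μ l = (1/|G|) (N+1)^(-n) Y^(-ex l) exp(-1) > 0`, `Y = N |E| ≥ 1`, `ex l = ∑_k |l k \ σ l|`; `∑ μ ≤ 1` is
`kraft`.
-/

namespace Pool.Agent.NQ

open Finset

theorem encode {J : Type*} [DecidableEq J] (E : Finset J) (hE : E.Nonempty) (N n : ℕ) (hN : 1 ≤ N)
    (P : (Fin N → Finset J) → ℝ) (hP : ∀ l, 0 ≤ P l) (hP1 : ∑ l ∈ hs E N, P l = 1)
    (hdis : ∀ l ∈ hs E N, P l ≠ 0 → ∀ i j, i ≠ j → Disjoint (l i) (l j))
    (G : Finset (Finset J)) (hG : ∀ g ∈ G, g.card ≤ n) (σ : (Fin N → Finset J) → Finset J)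
    (hσ : ∀ l, σ l ∈ G) :
    ∑ l ∈ hs E N, Real.negMulLog (P l) ≤ Real.log (G.card : ℝ) + n * Real.log ((N : ℝ) + 1) +
      (∑ l ∈ hs E N, P l * ∑ k, ((l k \ σ l).card : ℝ)) * Real.log ((N : ℝ) * E.card) + 1 := by
  classical
  set s := (hs E N).filter (fun l => P l ≠ 0) with hs_def
  set μ : (Fin N → Finset J) → ℝ := fun l => (1 / (G.card : ℝ)) * (1 / ((N : ℝ) + 1) ^ n) *
      (1 / ((N : ℝ) * E.card)) ^ (∑ k, (l k \ σ l).card) * Real.exp (-1) with hμ_def
  have hGpos : (0 : ℝ) < G.card := by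
    have : 0 < G.card := card_pos.2 ⟨σ (fun _ => ∅), hσ _⟩
    exact_mod_cast this
  have hNpos : (0 : ℝ) < N := by exact_mod_cast hN
  have hEpos : (0 : ℝ) < E.card := by exact_mod_cast hE.card_pos
  have hYpos : (0 : ℝ) < (N : ℝ) * E.card := mul_pos hNpos hEpos
  have hN1pos : (0 : ℝ) < (N : ℝ) + 1 := by linarith
  have hμpos : ∀ l, 0 < μ l := by
    intro l
    simp only [hμ_def]
    positivity
  have hk : ∑ l ∈ s, μ l ≤ 1 := kraft E hE N n hN s (filter_subset _ _)
    (fun l hl => hdis l (mem_filter.1 hl).1 (mem_filter.1 hl).2) G hG σ hσ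
  have hP1' : ∑ l ∈ s, P l = 1 := by
    rw [hs_def, sum_filter_ne_zero]
    exact hP1
  have h1 := gibbs s P μ (fun l _ => hP l) hP1' (fun l _ => (hμpos l).le) hk (fun l _ _ => hμpos l)
  have h2 : ∑ l ∈ hs E N, Real.negMulLog (P l) = ∑ l ∈ s, Real.negMulLog (P l) := by
    symm
    refine sum_subset (filter_subset _ _) fun l hl hl' => ?_
    have h3 : P l = 0 := by
      by_contra hc
      exact hl' (mem_filter.2 ⟨hl, hc⟩)
    rw [h3, Real.negMulLog_zero]
  have h3 : ∑ l ∈ s, P l * (-Real.log (μ l)) = ∑ l ∈ hs E N, P l * (-Real.log (μ l)) := by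
    refine sum_subset (filter_subset _ _) fun l hl hl' => ?_
    have h4 : P l = 0 := by
      by_contra hc
      exact hl' (mem_filter.2 ⟨hl, hc⟩)
    rw [h4, zero_mul]
  have h4 : ∀ l, -Real.log (μ l) = (Real.log (G.card : ℝ) + n * Real.log ((N : ℝ) + 1) + 1) +
      (∑ k, ((l k \ σ l).card : ℝ)) * Real.log ((N : ℝ) * E.card) := by
    intro l
    simp only [hμ_def]
    rw [Real.log_mul (by positivity) (by positivity), Real.log_mul (by positivity) (by positivity),
      Real.log_mul (by positivity) (by positivity), Real.log_exp, Real.log_pow, one_div, one_div,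
      one_div, Real.log_inv, Real.log_inv, Real.log_inv, Real.log_pow]
    push_cast
    ring
  rw [h2]
  refine h1.trans (le_of_eq ?_)
  rw [h3]
  have h5 : ∀ l ∈ hs E N, P l * (-Real.log (μ l)) =
      P l * (Real.log (G.card : ℝ) + n * Real.log ((N : ℝ) + 1) + 1) +
        (P l * ∑ k, ((l k \ σ l).card : ℝ)) * Real.log ((N : ℝ) * E.card) := by
    intro l _
    rw [h4 l]
    ring
  rw [sum_congr rfl h5, sum_add_distrib, ← sum_mul, ← sum_mul, hP1]
  ring

end Pool.Agent.NQ
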