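import Pool.Agent.NQ.Defs
import Pool.Agent.PGr.NibProb

/-!
# NQ-GGib: Gibbs inequality, mixtures, entropy of a product Bernoulli law

Plan.
* `gibbs`: termwise `p (-log p) - p (-log μ) = p log (μ/p) ≤ μ - p` for `p > 0` (and `0 ≤ μ` when
  `p = 0`), sum up: `∑ μ - ∑ p ≤ 0`.
* `mix`: for every `a` Jensen for the concave function `negMulLog`
  (`Real.concaveOn_negMulLog.le_map_sum`), then `Finset.sum_comm`.
* `bern_entropy`: `-log (bern A p T) = ∑_{i∈T} -log p_i + ∑_{i∉T} -log (1 - p_i)` when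
  `bern A p T ≠ 0`; then the mean of an indicator `i ∈ T` is `p_i`. Simplest: induction on `A`
  with `Finset.sum_powerset_insert` and `negMulLog (x y) = y negMulLog x + x negMulLog y`
  (`Real.negMulLog_mul`): for `i ∉ A` the sum over `(insert i A).powerset` is
  `∑_T negMulLog ((1 - p i) bern A p T) + ∑_T negMulLog (p i * bern A p T)
   = (1 - p i) H + negMulLog (1 - p i) + p i H + negMulLog (p i)`, using `∑_T bern A p T = 1`.
* `bern_entropy_ge`: `negMulLog (1 - q) = -(1 - q) log (1 - q) ≥ (1 - q) q` since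
  `log (1 - q) ≤ -q`; `negMulLog q = q (-log q)`.
-/

namespace Pool.Agent.NQ

open Finset
open Pool.Agent.PGr.Nib (EW)

theorem gibbs {α : Type*} (s : Finset α) (p μ : α → ℝ) (hp : ∀ a ∈ s, 0 ≤ p a)
    (hp1 : ∑ a ∈ s, p a = 1) (hμ : ∀ a ∈ s, 0 ≤ μ a) (hμ1 : ∑ a ∈ s, μ a ≤ 1)
    (h : ∀ a ∈ s, p a ≠ 0 → 0 < μ a) :
    ∑ a ∈ s, Real.negMulLog (p a) ≤ ∑ a ∈ s, p a * (-Real.log (μ a)) := by
  have h1 : ∀ a ∈ s, Real.negMulLog (p a) ≤ p a * (-Real.log (μ a)) + (μ a - p a) := by
    intro a ha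
    rcases eq_or_ne (p a) 0 with h0 | h0
    · rw [h0, Real.negMulLog_zero, zero_mul, zero_add, sub_zero]
      exact hμ a ha
    · have hpp : 0 < p a := lt_of_le_of_ne (hp a ha) (Ne.symm h0)
      have hm := h a ha h0
      have h2 := Real.log_le_sub_one_of_pos (div_pos hm hpp)
      rw [Real.log_div hm.ne' h0] at h2
      have h3 := mul_le_mul_of_nonneg_left h2 hpp.le
      have h4 : p a * (μ a / p a - 1) = μ a - p a := by
        field_simp
      rw [h4] at h3
      unfold Real.negMulLog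
      linarith
  refine (sum_le_sum h1).trans ?_
  rw [sum_add_distrib, sum_sub_distrib, hp1]
  linarith

theorem mix {α ζ : Type*} (s : Finset α) (z : Finset ζ) (c : ζ → ℝ) (hc : ∀ a ∈ z, 0 ≤ c a)
    (hc1 : ∑ a ∈ z, c a = 1) (P : ζ → α → ℝ) (hP : ∀ b ∈ z, ∀ a ∈ s, 0 ≤ P b a) :
    ∑ b ∈ z, c b * ∑ a ∈ s, Real.negMulLog (P b a) ≤
      ∑ a ∈ s, Real.negMulLog (∑ b ∈ z, c b * P b a) := by
  have h1 : ∑ b ∈ z, c b * ∑ a ∈ s, Real.negMulLog (P b a) =
      ∑ a ∈ s, ∑ b ∈ z, c b * Real.negMulLog (P b a) := by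
    rw [sum_comm]
    exact sum_congr rfl fun b _ => mul_sum _ _ _
  rw [h1]
  refine sum_le_sum fun a ha => ?_
  have h2 := Real.concaveOn_negMulLog.le_map_sum hc hc1 (p := fun b => P b a)
    (fun b hb => Set.mem_Ici.mpr (hP b hb a ha))
  simpa only [smul_eq_mul] using h2

variable {I : Type*} [DecidableEq I]

theorem EW_eq_bern (A : Finset I) (p : I → ℝ) (f : Finset I → ℝ) :
    EW A p f = ∑ T ∈ A.powerset, bern A p T * f T := rfl

theorem bern_nonneg {A : Finset I} {p : I → ℝ} (h0 : ∀ i ∈ A, 0 ≤ p i) (h1 : ∀ i ∈ A, p i ≤ 1)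
    {T : Finset I} (hT : T ⊆ A) : 0 ≤ bern A p T := by
  unfold bern
  refine mul_nonneg (prod_nonneg fun i hi => h0 i (hT hi)) (prod_nonneg fun i hi => ?_)
  exact sub_nonneg.2 (h1 i (mem_sdiff.1 hi).1)

theorem bern_sum (A : Finset I) (p : I → ℝ) : ∑ T ∈ A.powerset, bern A p T = 1 := by
  have h := Pool.Agent.PGr.Nib.EW_one A p
  rw [EW_eq_bern] at h
  simpa only [mul_one] using h

private theorem bern_insert_left {A : Finset I} {i : I} (hi : i ∉ A) (p : I → ℝ) {T : Finset I}
    (hT : T ⊆ A) : bern (insert i A) p T = (1 - p i) * bern A p T := by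
  unfold bern
  have h1 : insert i A \ T = insert i (A \ T) :=
    insert_sdiff_of_notMem _ fun h => hi (hT h)
  have h2 : i ∉ A \ T := fun h => hi (mem_sdiff.1 h).1
  rw [h1, prod_insert h2]
  ring

private theorem bern_insert_right {A : Finset I} {i : I} (hi : i ∉ A) (p : I → ℝ) {T : Finset I}
    (hT : T ⊆ A) : bern (insert i A) p (insert i T) = p i * bern A p T := by
  unfold bern
  have h1 : insert i A \ insert i T = A \ T := by
    ext x
    simp only [mem_sdiff, mem_insert, not_or]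
    constructor
    · rintro ⟨h2 | h2, h3, h4⟩
      · exact absurd h2 h3
      · exact ⟨h2, h4⟩
    · rintro ⟨h2, h3⟩
      exact ⟨Or.inr h2, fun h4 => hi (h4 ▸ h2), h3⟩
  have h2 : i ∉ T := fun h => hi (hT h)
  rw [h1, prod_insert h2]
  ring

theorem bern_entropy (A : Finset I) (p : I → ℝ) :
    ∑ T ∈ A.powerset, Real.negMulLog (bern A p T) =
      ∑ i ∈ A, (Real.negMulLog (p i) + Real.negMulLog (1 - p i)) := by
  induction A using Finset.induction_on with
  | empty => simp [bern]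
  | insert i A hi ih =>
    rw [sum_powerset_insert hi, sum_insert hi, ← ih]
    have h1 : ∑ T ∈ A.powerset, Real.negMulLog (bern (insert i A) p T) =
        Real.negMulLog (1 - p i) + (1 - p i) * ∑ T ∈ A.powerset, Real.negMulLog (bern A p T) := by
      have h2 : ∀ T ∈ A.powerset, Real.negMulLog (bern (insert i A) p T) =
          bern A p T * Real.negMulLog (1 - p i) +
            (1 - p i) * Real.negMulLog (bern A p T) := by
        intro T hT
        rw [bern_insert_left hi p (mem_powerset.1 hT), Real.negMulLog_mul]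
      rw [sum_congr rfl h2, sum_add_distrib, ← sum_mul, ← mul_sum, bern_sum, one_mul]
    have h1' : ∑ T ∈ A.powerset, Real.negMulLog (bern (insert i A) p (insert i T)) =
        Real.negMulLog (p i) + p i * ∑ T ∈ A.powerset, Real.negMulLog (bern A p T) := by
      have h2 : ∀ T ∈ A.powerset, Real.negMulLog (bern (insert i A) p (insert i T)) =
          bern A p T * Real.negMulLog (p i) +
            p i * Real.negMulLog (bern A p T) := by
        intro T hT
        rw [bern_insert_right hi p (mem_powerset.1 hT), Real.negMulLog_mul]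
      rw [sum_congr rfl h2, sum_add_distrib, ← sum_mul, ← mul_sum, bern_sum, one_mul]
    rw [h1, h1']
    ring

theorem bern_entropy_ge (A : Finset I) (p : I → ℝ) (h0 : ∀ i ∈ A, 0 ≤ p i)
    (h1 : ∀ i ∈ A, p i < 1) :
    ∑ i ∈ A, p i * (1 - Real.log (p i) - p i) ≤
      ∑ T ∈ A.powerset, Real.negMulLog (bern A p T) := by
  rw [bern_entropy]
  refine sum_le_sum fun i hi => ?_
  have h2 : 0 < 1 - p i := sub_pos.2 (h1 i hi)
  have h3 := Real.log_le_sub_one_of_pos h2
  have h4 := mul_le_mul_of_nonneg_left h3 h2.le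
  unfold Real.negMulLog
  nlinarith

end Pool.Agent.NQ
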