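import Pool.Agent.NQ.GGib

/-!
# NQ-GKra: the Kraft inequality of the encoding

`s` is a set of sequences `l` of `N` subsets of `E` which are pairwise disjoint in each `l`. To each `l`
a member `σ l` of the family `G` (all members have at most `n` elements) is attached; the number of
extras is `ex l = ∑_k |l k \ σ l|`.

Plan. For `g ∈ G` and `X ⊆ univ ×ˢ E` let `s_{g,X}` be the set of `l ∈ s` with `σ l = g` and
`{(k, e) : e ∈ l k \ σ l} = X`; then `ex l = |X|`. An element `l` of `s_{g,X}` is determined by the map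
`g → Option (Fin N)`, `e ↦ k` if `e ∈ l k` (`k` is unique by disjointness), `none` if `e` is in no
`l k`: indeed `e ∈ l k` iff (`e ∈ g` and the map gives `k`) or `(k,e) ∈ X`. So
`|s_{g,X}| ≤ (N+1)^|g| ≤ (N+1)^n`. With `Y = N |E| ≥ 1`:
`∑_l (1/|G|) (N+1)^(-n) Y^(-ex l) exp(-1) ≤ ∑_{g∈G} (1/|G|) ∑_{X ⊆ univ ×ˢ E} Y^(-|X|) exp(-1)
= (1 + 1/Y)^Y exp(-1) ≤ 1` (`Finset.sum_pow_mul_eq_add_pow` or `Finset.prod_add`; `1 + x ≤ exp x`).
(`∑_{l∈s} = ∑_{g∈G} ∑_X ∑_{l∈s_{g,X}}` by `Finset.sum_fiberwise_of_maps_to` twice.)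
-/

namespace Pool.Agent.NQ

open Finset

/-- All sequences of `N` subsets of `E`. -/
noncomputable def hs {J : Type*} (E : Finset J) (N : ℕ) : Finset (Fin N → Finset J) :=
  Fintype.piFinset (fun _ => E.powerset)

theorem mem_hs {J : Type*} {E : Finset J} {N : ℕ} {l : Fin N → Finset J} :
    l ∈ hs E N ↔ ∀ k, l k ⊆ E := by
  unfold hs
  rw [Fintype.mem_piFinset]
  exact forall_congr' fun k => mem_powerset

private theorem kr_inj {J : Type*} [DecidableEq J] {N : ℕ} (g : Finset J)
    (T : Finset (Fin N → Finset J)) (W : Finset (Fin N × J))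
    (hdis : ∀ l ∈ T, ∀ i j, i ≠ j → Disjoint (l i) (l j))
    (hW : ∀ l ∈ T, ∀ k e, e ∉ g → (e ∈ l k ↔ (k, e) ∈ W)) :
    T.card ≤ (N + 1) ^ g.card := by
  classical
  have h1 : T.card ≤ (univ : Finset ({e // e ∈ g} → Option (Fin N))).card := by
    refine card_le_card_of_injOn (fun l e =>
      if h : ∃ k, (e : J) ∈ l k then some h.choose else none) (fun _ _ => mem_coe.2 (mem_univ _)) ?_
    intro l hl l' hl' hll
    have key : ∀ l ∈ T, ∀ l' ∈ T, ((fun e : {e // e ∈ g} =>
        if h : ∃ k, (e : J) ∈ l k then some h.choose else none) =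
        fun e : {e // e ∈ g} => if h : ∃ k, (e : J) ∈ l' k then some h.choose else none) →
        ∀ k e, e ∈ l k → e ∈ l' k := by
      intro l hl l' hl' hll k e he
      by_cases heg : e ∈ g
      · have h2 := congrFun hll ⟨e, heg⟩
        have h3 : ∃ k, e ∈ l k := ⟨k, he⟩
        simp only [dif_pos h3] at h2
        have h4 : h3.choose = k := by
          by_contra hne
          exact disjoint_left.1 (hdis l hl _ _ hne) h3.choose_spec he
        rw [h4] at h2
        by_cases h5 : ∃ k, e ∈ l' k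
        · simp only [dif_pos h5] at h2
          have h6 := Option.some.inj h2
          rw [h6]
          exact h5.choose_spec
        · simp only [dif_neg h5] at h2
          exact absurd h2 (by simp)
      · exact (hW l' hl' k e heg).2 ((hW l hl k e heg).1 he)
    funext k
    ext e
    exact ⟨key l (mem_coe.1 hl) l' (mem_coe.1 hl') hll k e,
      key l' (mem_coe.1 hl') l (mem_coe.1 hl) hll.symm k e⟩
  rw [card_univ, Fintype.card_fun, Fintype.card_option, Fintype.card_fin, Fintype.card_coe] at h1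
  exact h1

theorem kraft {J : Type*} [DecidableEq J] (E : Finset J) (hE : E.Nonempty) (N n : ℕ) (hN : 1 ≤ N)
    (s : Finset (Fin N → Finset J)) (hsub : s ⊆ hs E N)
    (hdis : ∀ l ∈ s, ∀ i j, i ≠ j → Disjoint (l i) (l j))
    (G : Finset (Finset J)) (hG : ∀ g ∈ G, g.card ≤ n) (σ : (Fin N → Finset J) → Finset J)
    (hσ : ∀ l, σ l ∈ G) :
    ∑ l ∈ s, (1 / (G.card : ℝ)) * (1 / ((N : ℝ) + 1) ^ n) *
      (1 / ((N : ℝ) * E.card)) ^ (∑ k, (l k \ σ l).card) * Real.exp (-1) ≤ 1 := by
  classical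
  set P := (univ : Finset (Fin N)) ×ˢ E with hP
  let X : (Fin N → Finset J) → Finset (Fin N × J) := fun l =>
    P.filter (fun p => p.2 ∈ l p.1 \ σ l)
  have hX : ∀ l ∈ s, (X l).card = ∑ k, (l k \ σ l).card := by
    intro l hl
    have h0 : (X l).card = (P.filter (fun p => p.2 ∈ l p.1 \ σ l)).card := rfl
    rw [h0, card_filter, hP, sum_product]
    refine sum_congr rfl fun k _ => ?_
    rw [← card_filter]
    congr 1
    ext e
    have h1 := mem_hs.1 (hsub hl) k
    rw [mem_filter]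
    constructor
    · rintro ⟨_, h⟩
      exact h
    · intro h
      exact ⟨h1 (mem_sdiff.1 h).1, h⟩
  have hXm : ∀ l ∈ s, ∀ k e, e ∉ σ l → (e ∈ l k ↔ (k, e) ∈ X l) := by
    intro l hl k e he
    have h1 := mem_hs.1 (hsub hl) k
    constructor
    · intro h
      refine mem_filter.2 ⟨mem_product.2 ⟨mem_univ _, h1 h⟩, mem_sdiff.2 ⟨h, he⟩⟩
    · intro h
      exact (mem_sdiff.1 (mem_filter.1 h).2).1
  have hYn : P.card = N * E.card := by
    rw [hP, card_product, card_univ, Fintype.card_fin]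
  have hEc : 1 ≤ E.card := card_pos.2 hE
  set y : ℝ := 1 / ((N : ℝ) * E.card) with hy
  have hYpos : (0 : ℝ) < (N : ℝ) * E.card := by
    have h1 : (1 : ℝ) ≤ N := by exact_mod_cast hN
    have h2 : (1 : ℝ) ≤ E.card := by exact_mod_cast hEc
    positivity
  have hy0 : 0 ≤ y := by rw [hy]; positivity
  have hGne : 0 < G.card := card_pos.2 ⟨_, hσ (fun _ => ∅)⟩
  have hGr : (0 : ℝ) < G.card := by exact_mod_cast hGne
  set c : ℝ := (1 / (G.card : ℝ)) * (1 / ((N : ℝ) + 1) ^ n) with hc
  have hc0 : 0 ≤ c := by rw [hc]; positivity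
  have hNn : (0 : ℝ) < ((N : ℝ) + 1) ^ n := by positivity
  -- regroup
  have hmaps : ∀ l ∈ s, (σ l, X l) ∈ G ×ˢ P.powerset := by
    intro l _
    exact mem_product.2 ⟨hσ l, mem_powerset.2 (filter_subset _ _)⟩
  have h1 : ∑ l ∈ s, c * y ^ (∑ k, (l k \ σ l).card) * Real.exp (-1) =
      ∑ q ∈ G ×ˢ P.powerset, ∑ l ∈ s with (σ l, X l) = q,
        c * y ^ (∑ k, (l k \ σ l).card) * Real.exp (-1) :=
    (sum_fiberwise_of_maps_to hmaps _).symm
  have h2 : ∀ q ∈ G ×ˢ P.powerset, ∑ l ∈ s with (σ l, X l) = q,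
      c * y ^ (∑ k, (l k \ σ l).card) * Real.exp (-1) ≤
      (1 / (G.card : ℝ)) * y ^ q.2.card * Real.exp (-1) := by
    rintro ⟨g, W⟩ hq
    have hgG : g ∈ G := (mem_product.1 hq).1
    have h3 : ∀ l ∈ s.filter (fun l => (σ l, X l) = (g, W)),
        c * y ^ (∑ k, (l k \ σ l).card) * Real.exp (-1) = c * y ^ W.card * Real.exp (-1) := by
      intro l hl
      obtain ⟨hl1, hl2⟩ := mem_filter.1 hl
      have hlW : X l = W := (Prod.ext_iff.1 hl2).2
      rw [← hX l hl1, hlW]
    rw [sum_congr rfl h3, sum_const, nsmul_eq_mul]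
    have h4 : (s.filter (fun l => (σ l, X l) = (g, W))).card ≤ (N + 1) ^ g.card := by
      refine kr_inj g _ W (fun l hl => hdis l (mem_filter.1 hl).1) ?_
      intro l hl k e he
      obtain ⟨hl1, hl2⟩ := mem_filter.1 hl
      have h5 := hXm l hl1 k e
      have hlg : σ l = g := (Prod.ext_iff.1 hl2).1
      have hlW : X l = W := (Prod.ext_iff.1 hl2).2
      rw [hlg, hlW] at h5
      exact h5 he
    have h6 : ((s.filter (fun l => (σ l, X l) = (g, W))).card : ℝ) ≤ ((N : ℝ) + 1) ^ n := by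
      have h7 : (N + 1) ^ g.card ≤ (N + 1) ^ n := Nat.pow_le_pow_right (by omega) (hG g hgG)
      exact_mod_cast h4.trans h7
    have h8 : 0 ≤ c * y ^ W.card * Real.exp (-1) := by positivity
    calc ((s.filter (fun l => (σ l, X l) = (g, W))).card : ℝ) * (c * y ^ W.card * Real.exp (-1))
        ≤ ((N : ℝ) + 1) ^ n * (c * y ^ W.card * Real.exp (-1)) :=
          mul_le_mul_of_nonneg_right h6 h8
      _ = (1 / (G.card : ℝ)) * y ^ W.card * Real.exp (-1) := by
          rw [hc]
          field_simp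
  have h9 : ∑ q ∈ G ×ˢ P.powerset, (1 / (G.card : ℝ)) * y ^ q.2.card * Real.exp (-1) =
      (1 + y) ^ P.card * Real.exp (-1) := by
    rw [sum_product]
    simp only
    rw [sum_const, nsmul_eq_mul, ← sum_mul, ← mul_sum]
    have h10 := sum_pow_mul_eq_add_pow y 1 P
    simp only [one_pow, mul_one] at h10
    rw [h10, add_comm y 1]
    field_simp
  have h11 : (1 + y) ^ P.card ≤ Real.exp 1 := by
    have h12 : 1 + y ≤ Real.exp y := by
      rw [add_comm]
      exact Real.add_one_le_exp y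
    calc (1 + y) ^ P.card ≤ Real.exp y ^ P.card := pow_le_pow_left₀ (by linarith) h12 _
      _ = Real.exp 1 := by
          rw [← Real.exp_nat_mul, hYn]
          congr 1
          rw [hy]
          push_cast
          field_simp
  calc ∑ l ∈ s, c * y ^ (∑ k, (l k \ σ l).card) * Real.exp (-1)
      ≤ ∑ q ∈ G ×ˢ P.powerset, (1 / (G.card : ℝ)) * y ^ q.2.card * Real.exp (-1) := by
        rw [h1]
        exact sum_le_sum h2
    _ = (1 + y) ^ P.card * Real.exp (-1) := h9
    _ ≤ Real.exp 1 * Real.exp (-1) := mul_le_mul_of_nonneg_right h11 (Real.exp_pos _).le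
    _ = 1 := by rw [← Real.exp_add]; simp

end Pool.Agent.NQ
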