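import Pool.Agent.NQ.Defs

/-!
# NQ-KBri: the definition used in the final statement

`QN n` counts the `n`-element sets of squares `(i,j)`, `i, j ∈ {1,...,n}`, no two of which attack each
other, exactly as in the problem.

Plan. Bijection `(i,j) ↦ (i-1, j-1)` (natural numbers to integers) between `{1..n}²` and `board n`,
applied to sets; `i + j' = i' + j` iff the difference diagonals agree. `Finset.card_bij` or
`Finset.card_nbij'` with `S ↦ S.image _`.
-/

namespace Pool.Agent.NQ

open Finset

/-- Two squares `e ≠ f` attack each other. -/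
def Attack (e f : ℕ × ℕ) : Prop :=
  e.1 = f.1 ∨ e.2 = f.2 ∨ (e.1 : ℤ) - e.2 = f.1 - f.2 ∨ e.1 + e.2 = f.1 + f.2

open Classical in
/-- The number of `n`-element sets of squares of the `n × n` board, no two of which attack each
other. -/
noncomputable def QN (n : ℕ) : ℕ :=
  ((Finset.Icc 1 n ×ˢ Finset.Icc 1 n).powerset.filter
    (fun S => S.card = n ∧ ∀ e ∈ S, ∀ f ∈ S, e ≠ f → ¬ Attack e f)).card

/-- the translation -/
private def kbTau (e : ℕ × ℕ) : ℤ × ℤ := ((e.1 : ℤ) - 1, (e.2 : ℤ) - 1)

private theorem kbTau_inj : Function.Injective kbTau := by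
  rintro ⟨a, b⟩ ⟨c, d⟩ h
  have h1 := congrArg Prod.fst h
  have h2 := congrArg Prod.snd h
  simp only [kbTau] at h1 h2
  refine Prod.ext ?_ ?_
  · show a = c
    omega
  · show b = d
    omega

/-- the inverse translation -/
private def kbRho (e : ℤ × ℤ) : ℕ × ℕ := ((e.1 + 1).toNat, (e.2 + 1).toNat)

private theorem kb_attack {e f : ℕ × ℕ} :
    Attack e f ↔ ∃ k, ln k (kbTau e) = ln k (kbTau f) := by
  unfold Attack
  constructor
  · rintro (h | h | h | h)
    · refine ⟨0, ?_⟩
      rw [ln_zero, ln_zero]
      simp only [kbTau]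
      omega
    · refine ⟨1, ?_⟩
      rw [ln_one, ln_one]
      simp only [kbTau]
      omega
    · refine ⟨3, ?_⟩
      rw [ln_three, ln_three]
      simp only [kbTau]
      omega
    · refine ⟨2, ?_⟩
      rw [ln_two, ln_two]
      simp only [kbTau]
      omega
  · rintro ⟨k, hk⟩
    fin_cases k
    · left
      change ln 0 (kbTau e) = ln 0 (kbTau f) at hk
      rw [ln_zero, ln_zero] at hk
      simp only [kbTau] at hk
      omega
    · right; left
      change ln 1 (kbTau e) = ln 1 (kbTau f) at hk
      rw [ln_one, ln_one] at hk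
      simp only [kbTau] at hk
      omega
    · right; right; right
      change ln 2 (kbTau e) = ln 2 (kbTau f) at hk
      rw [ln_two, ln_two] at hk
      simp only [kbTau] at hk
      omega
    · right; right; left
      change ln 3 (kbTau e) = ln 3 (kbTau f) at hk
      rw [ln_three, ln_three] at hk
      simp only [kbTau] at hk
      omega

private theorem kb_mem_filter {α : Type} (p : α → Prop) (inst : DecidablePred p) (s : Finset α)
    (a : α) : a ∈ @Finset.filter α p inst s ↔ a ∈ s ∧ p a := Finset.mem_filter

theorem QN_eq (n : ℕ) : QN n = Q n := by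
  classical
  unfold QN Q
  refine Finset.card_bij (fun S _ => S.image kbTau) ?_ ?_ ?_
  · intro S hS
    obtain ⟨hS1, hS2, hS3⟩ := (kb_mem_filter _ _ _ _).1 hS
    rw [mem_powerset] at hS1
    rw [mem_Qset]
    refine ⟨?_, ?_, ?_⟩
    · intro x hx
      obtain ⟨e, he, rfl⟩ := mem_image.1 hx
      have h1 := mem_product.1 (hS1 he)
      rw [mem_Icc, mem_Icc] at h1
      rw [mem_board]
      simp only [kbTau]
      omega
    · rw [card_image_of_injective _ kbTau_inj]
      exact hS2
    · intro x hx y hy hxy k hk
      obtain ⟨e, he, rfl⟩ := mem_image.1 hx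
      obtain ⟨f, hf, rfl⟩ := mem_image.1 hy
      refine hS3 e he f hf ?_ (kb_attack.2 ⟨k, hk⟩)
      rintro rfl
      exact hxy rfl
  · intro S _ T _ h
    exact Finset.image_injective kbTau_inj h
  · intro T hT
    rw [mem_Qset] at hT
    obtain ⟨hT1, hT2, hT3⟩ := hT
    have hinv : ∀ x ∈ T, kbTau (kbRho x) = x := by
      intro x hx
      have h1 := mem_board.1 (hT1 hx)
      refine Prod.ext ?_ ?_
      · simp only [kbTau, kbRho]
        omega
      · simp only [kbTau, kbRho]
        omega
    have himg : (T.image kbRho).image kbTau = T := by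
      rw [image_image]
      ext x
      constructor
      · intro hx
        obtain ⟨y, hy, rfl⟩ := mem_image.1 hx
        show kbTau (kbRho y) ∈ T
        rw [hinv y hy]
        exact hy
      · intro hx
        exact mem_image.2 ⟨x, hx, hinv x hx⟩
    refine ⟨T.image kbRho, ?_, himg⟩
    refine (kb_mem_filter _ _ _ _).2 ⟨?_, ?_, ?_⟩
    · rw [mem_powerset]
      intro e he
      obtain ⟨x, hx, rfl⟩ := mem_image.1 he
      have h1 := mem_board.1 (hT1 hx)
      rw [mem_product, mem_Icc, mem_Icc]
      simp only [kbRho]
      omega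
    · rw [← hT2]
      conv_rhs => rw [← himg]
      rw [card_image_of_injective _ kbTau_inj]
    · intro e he f hf hne hatt
      obtain ⟨k, hk⟩ := kb_attack.1 hatt
      have he' : kbTau e ∈ T := by
        rw [← himg]
        exact mem_image_of_mem _ he
      have hf' : kbTau f ∈ T := by
        rw [← himg]
        exact mem_image_of_mem _ hf
      exact hT3 _ he' _ hf' (fun h => hne (kbTau_inj h)) k hk

end Pool.Agent.NQ
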