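import Mathlib

/-!
# NQ-KCau: from the comparison to the limit (pure analysis)

With `s = 1/500` and `Λ = ⌊m^s⌋`, the hypothesis gives `|a m - a n| ≤ 2 C m^(-s)` for `m ≤ n ≤ m²`, `m` large
(`near`). By iteration `|a m - a n| ≤ 4 C m^(-s)` for all `n ≥ m ≥ m0` (`far`), so that `a` converges.
-/

namespace Pool.Agent.NQ

open Filter Topology

private theorem pow_succ_le {L : ℕ} (hL : 1000 ≤ L) : (L + 1) ^ 1000 ≤ L ^ 1001 := by
  have hL0 : (0 : ℝ) < L := by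
    have : 0 < L := by omega
    exact_mod_cast this
  have hL1 : (1000 : ℝ) ≤ L := by exact_mod_cast hL
  have h1 : (1 + 1 / (L : ℝ)) ^ 1000 ≤ L := by
    have h2 : 1 + 1 / (L : ℝ) ≤ Real.exp (1 / (L : ℝ)) := by
      have := Real.add_one_le_exp (1 / (L : ℝ))
      linarith
    have h4 : ((1000 : ℕ) : ℝ) * (1 / (L : ℝ)) ≤ 1 := by
      rw [mul_one_div, div_le_one hL0]
      exact_mod_cast hL
    have h6 : Real.exp 1 ≤ L := by
      have := Real.exp_one_lt_d9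
      linarith
    refine (pow_le_pow_left₀ (by positivity) h2 1000).trans ?_
    rw [← Real.exp_nat_mul]
    exact (Real.exp_le_exp.2 h4).trans h6
  have h2 : ((L : ℝ) + 1) ^ 1000 ≤ (L : ℝ) ^ 1001 := by
    have e : (L : ℝ) + 1 = (L : ℝ) * (1 + 1 / (L : ℝ)) := by
      rw [mul_add, mul_one, mul_one_div_cancel hL0.ne']
    rw [e, mul_pow, pow_succ (L : ℝ) 1000]
    exact mul_le_mul_of_nonneg_left h1 (pow_nonneg hL0.le _)
  have h3 : (((L + 1) ^ 1000 : ℕ) : ℝ) ≤ ((L ^ 1001 : ℕ) : ℝ) := by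
    rw [Nat.cast_pow, Nat.cast_pow, Nat.cast_add, Nat.cast_one]
    exact h2
  exact Nat.cast_le.1 h3

private theorem floor_low {m L : ℕ} {x : ℝ} (hL1 : (L : ℝ) ≤ x) {e : ℕ} (hx : x ^ e = m) :
    L ^ e ≤ m := by
  have h1 : (L : ℝ) ^ e ≤ x ^ e := pow_le_pow_left₀ (Nat.cast_nonneg L) hL1 _
  rw [hx, ← Nat.cast_pow] at h1
  exact Nat.cast_le.1 h1

private theorem floor_up {m L : ℕ} {x : ℝ} (hx0 : 0 ≤ x) (hL1 : x ≤ L + 1) {e : ℕ}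
    (hx : x ^ e = m) : m ≤ (L + 1) ^ e := by
  have h1 : x ^ e ≤ ((L : ℝ) + 1) ^ e := pow_le_pow_left₀ hx0 hL1 _
  rw [hx, ← Nat.cast_one, ← Nat.cast_add, ← Nat.cast_pow] at h1
  exact Nat.cast_le.1 h1

private theorem up_sq {m L : ℕ} (h : m ≤ (L + 1) ^ 500) (hL : 1000 ≤ L) : m ^ 2 ≤ L ^ 1001 := by
  have h1 : m ^ 2 ≤ ((L + 1) ^ 500) ^ 2 := Nat.pow_le_pow_left h 2
  rw [← pow_mul] at h1
  exact h1.trans (pow_succ_le hL)

private theorem root_pow {m : ℕ} : ((m : ℝ) ^ (1 / 500 : ℝ)) ^ 500 = m := by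
  rw [← Real.rpow_natCast, ← Real.rpow_mul (Nat.cast_nonneg m)]
  norm_num

private theorem div_bound {C L : ℕ} {x : ℝ} (hx0 : 0 < x) (hL : (1000 : ℝ) ≤ L) (h : x ≤ L + 1) :
    (C : ℝ) / L ≤ 2 * C * x⁻¹ := by
  rw [← div_eq_mul_inv]
  have hC : (0 : ℝ) ≤ C := Nat.cast_nonneg C
  rw [div_le_div_iff₀ (by linarith) hx0]
  have h1 : x ≤ 2 * L := by linarith
  have h2 := mul_le_mul_of_nonneg_left h1 hC
  linarith

private theorem near {a : ℕ → ℝ} {Λ0 C : ℕ} (h : ∀ Λ m n : ℕ, Λ0 ≤ Λ → Λ ^ 500 ≤ m → m ≤ Λ ^ 1001 →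
    Λ ^ 500 ≤ n → n ≤ Λ ^ 1001 → a m - C / Λ ≤ a n) {m n : ℕ}
    (hm : (((max Λ0 1000 + 1 : ℕ) : ℝ)) ≤ (m : ℝ) ^ (1 / 500 : ℝ)) (hm1 : 1 ≤ m) (hmn : m ≤ n)
    (hn : n ≤ m ^ 2) : |a m - a n| ≤ 2 * C * (m : ℝ) ^ (-(1 / 500 : ℝ)) := by
  have hm0 : (0 : ℝ) < m := by exact_mod_cast hm1
  rw [Real.rpow_neg hm0.le]
  have hx500 := root_pow (m := m)
  have hx0 : 0 < (m : ℝ) ^ (1 / 500 : ℝ) := Real.rpow_pos_of_pos hm0 _
  generalize (m : ℝ) ^ (1 / 500 : ℝ) = x at *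
  have hL1 : ((⌊x⌋₊ : ℕ) : ℝ) ≤ x := Nat.floor_le hx0.le
  have hL2 : x < ⌊x⌋₊ + 1 := Nat.lt_floor_add_one x
  have hL3 : max Λ0 1000 + 1 ≤ ⌊x⌋₊ := Nat.le_floor hm
  generalize ⌊x⌋₊ = L at *
  have hL4 : Λ0 ≤ L := (le_max_left _ _).trans ((Nat.le_succ _).trans hL3)
  have hL5 : 1000 ≤ L := (le_max_right _ _).trans ((Nat.le_succ _).trans hL3)
  have hLr : (1000 : ℝ) ≤ L := by exact_mod_cast hL5
  have hA : L ^ 500 ≤ m := floor_low hL1 hx500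
  have hB : m ^ 2 ≤ L ^ 1001 := up_sq (floor_up hx0.le hL2.le hx500) hL5
  have hm2 : m ≤ m ^ 2 := Nat.le_self_pow two_ne_zero m
  have h1 := h L m n hL4 hA (hm2.trans hB) (hA.trans hmn) (hn.trans hB)
  have h2 := h L n m hL4 (hA.trans hmn) (hn.trans hB) hA (hm2.trans hB)
  have h3 : (C : ℝ) / L ≤ 2 * C * x⁻¹ := div_bound hx0 hLr hL2.le
  clear hA hB hx500 h
  rw [abs_le]
  constructor <;> linarith

private theorem far {a : ℕ → ℝ} {Λ0 C : ℕ} (h : ∀ Λ m n : ℕ, Λ0 ≤ Λ → Λ ^ 500 ≤ m → m ≤ Λ ^ 1001 →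
    Λ ^ 500 ≤ n → n ≤ Λ ^ 1001 → a m - C / Λ ≤ a n) (k : ℕ) :
    ∀ m n : ℕ, n - m = k → (((max Λ0 1000 + 1 : ℕ) : ℝ)) ≤ (m : ℝ) ^ (1 / 500 : ℝ) → 1 ≤ m → m ≤ n →
      |a m - a n| ≤ 4 * C * (m : ℝ) ^ (-(1 / 500 : ℝ)) := by
  induction k using Nat.strong_induction_on with
  | _ k ih =>
    intro m n hk hm hm1 hmn
    have hm0 : (0 : ℝ) < m := by exact_mod_cast hm1
    have hC : (0 : ℝ) ≤ C := Nat.cast_nonneg C
    have hpos : (0 : ℝ) < (m : ℝ) ^ (-(1 / 500 : ℝ)) := Real.rpow_pos_of_pos hm0 _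
    have hbig : (1000 : ℝ) ≤ (m : ℝ) ^ (1 / 500 : ℝ) := by
      refine le_trans ?_ hm
      have : 1000 ≤ max Λ0 1000 + 1 := (le_max_right _ _).trans (Nat.le_succ _)
      exact_mod_cast this
    by_cases hn : n ≤ m ^ 2
    · have h1 := near h hm hm1 hmn hn
      have : 0 ≤ C * (m : ℝ) ^ (-(1 / 500 : ℝ)) := by positivity
      linarith
    · rw [not_le] at hn
      have hm2 : 2 ≤ m := by
        by_contra hlt
        have hme : m = 1 := by omega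
        rw [hme, Nat.cast_one, Real.one_rpow] at hbig
        norm_num at hbig
      have hlt : m < m ^ 2 := by nlinarith
      have h1 := near h hm hm1 hlt.le le_rfl
      have e1 : ((m ^ 2 : ℕ) : ℝ) ^ (1 / 500 : ℝ) =
          (m : ℝ) ^ (1 / 500 : ℝ) * (m : ℝ) ^ (1 / 500 : ℝ) := by
        rw [Nat.cast_pow, pow_two, Real.mul_rpow hm0.le hm0.le]
      have e2 : ((m ^ 2 : ℕ) : ℝ) ^ (-(1 / 500 : ℝ)) =
          (m : ℝ) ^ (-(1 / 500 : ℝ)) * (m : ℝ) ^ (-(1 / 500 : ℝ)) := by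
        rw [Nat.cast_pow, pow_two, Real.mul_rpow hm0.le hm0.le]
      have h2 := ih (n - m ^ 2) (by omega) (m ^ 2) n rfl (by rw [e1]; nlinarith)
        (hm1.trans hlt.le) hn.le
      rw [e2] at h2
      have h3 : (m : ℝ) ^ (-(1 / 500 : ℝ)) ≤ 1 / 2 := by
        rw [Real.rpow_neg hm0.le]
        calc ((m : ℝ) ^ (1 / 500 : ℝ))⁻¹ ≤ (2 : ℝ)⁻¹ := inv_anti₀ two_pos (by linarith)
          _ = 1 / 2 := by norm_num
      have h4 : 4 * C * ((m : ℝ) ^ (-(1 / 500 : ℝ)) * (m : ℝ) ^ (-(1 / 500 : ℝ))) ≤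
          2 * C * (m : ℝ) ^ (-(1 / 500 : ℝ)) := by
        have h5 : (m : ℝ) ^ (-(1 / 500 : ℝ)) * (m : ℝ) ^ (-(1 / 500 : ℝ)) ≤
            1 / 2 * (m : ℝ) ^ (-(1 / 500 : ℝ)) := mul_le_mul_of_nonneg_right h3 hpos.le
        have h6 := mul_le_mul_of_nonneg_left h5 (by positivity : (0 : ℝ) ≤ 4 * C)
        linarith
      calc |a m - a n| = |(a m - a (m ^ 2)) + (a (m ^ 2) - a n)| := by
            rw [sub_add_sub_cancel]
        _ ≤ |a m - a (m ^ 2)| + |a (m ^ 2) - a n| := abs_add_le _ _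
        _ ≤ 4 * C * (m : ℝ) ^ (-(1 / 500 : ℝ)) := by linarith

theorem cauchy {a : ℕ → ℝ} {Λ0 C : ℕ} (h : ∀ Λ m n : ℕ, Λ0 ≤ Λ → Λ ^ 500 ≤ m → m ≤ Λ ^ 1001 →
    Λ ^ 500 ≤ n → n ≤ Λ ^ 1001 → a m - C / Λ ≤ a n) :
    ∃ α K : ℝ, ∀ n : ℕ, 1 ≤ n → |a n + α| ≤ K * (n : ℝ) ^ (-(1 / 500 : ℝ)) := by
  classical
  have hs : (0 : ℝ) < 1 / 500 := by norm_num
  have htop : Tendsto (fun m : ℕ => (m : ℝ) ^ (1 / 500 : ℝ)) atTop atTop :=
    (tendsto_rpow_atTop hs).comp tendsto_natCast_atTop_atTop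
  obtain ⟨m1, hm1⟩ := (eventually_atTop.1 (htop.eventually_ge_atTop
    (((max Λ0 1000 + 1 : ℕ) : ℝ))))
  set m0 : ℕ := m1 + 1 with hm0
  have hfar : ∀ m n : ℕ, m0 ≤ m → m ≤ n → |a m - a n| ≤ 4 * C * (m : ℝ) ^ (-(1 / 500 : ℝ)) := by
    intro m n hm hmn
    exact far h (n - m) m n rfl (hm1 m (by omega)) (by omega) hmn
  have hC : (0 : ℝ) ≤ C := Nat.cast_nonneg C
  have hz : Tendsto (fun m : ℕ => 2 * (4 * (C : ℝ) * (m : ℝ) ^ (-(1 / 500 : ℝ)))) atTop (𝓝 0) := by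
    have h1 : Tendsto (fun m : ℕ => (m : ℝ) ^ (-(1 / 500 : ℝ))) atTop (𝓝 0) :=
      (tendsto_rpow_neg_atTop hs).comp tendsto_natCast_atTop_atTop
    have h2 := (h1.const_mul (4 * (C : ℝ))).const_mul 2
    simpa using h2
  have hcau : CauchySeq (fun k : ℕ => a (k + m0)) := by
    refine cauchySeq_of_le_tendsto_0
      (fun k : ℕ => 2 * (4 * (C : ℝ) * ((k + m0 : ℕ) : ℝ) ^ (-(1 / 500 : ℝ)))) ?_ ?_
    · intro n m N hn hm
      have h1 := hfar (N + m0) (n + m0) (by omega) (by omega)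
      have h2 := hfar (N + m0) (m + m0) (by omega) (by omega)
      rw [Real.dist_eq]
      calc |a (n + m0) - a (m + m0)|
          = |(a (N + m0) - a (m + m0)) - (a (N + m0) - a (n + m0))| := by
            congr 1
            ring
        _ ≤ |a (N + m0) - a (m + m0)| + |a (N + m0) - a (n + m0)| := abs_sub _ _
        _ ≤ _ := by linarith
    · exact hz.comp (tendsto_add_atTop_nat m0)
  obtain ⟨L, hL⟩ := cauchySeq_tendsto_of_complete hcau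
  have hL' : Tendsto a atTop (𝓝 L) := (tendsto_add_atTop_iff_nat m0).1 hL
  have hlim : ∀ m : ℕ, m0 ≤ m → |a m - L| ≤ 4 * C * (m : ℝ) ^ (-(1 / 500 : ℝ)) := by
    intro m hm
    have h1 : Tendsto (fun n => |a m - a n|) atTop (𝓝 |a m - L|) :=
      (tendsto_const_nhds.sub hL').abs
    refine le_of_tendsto h1 ?_
    filter_upwards [eventually_ge_atTop m] with n hn
    exact hfar m n hm hn
  refine ⟨-L, 4 * C + ∑ i ∈ Finset.range m0, |a i - L| * (i : ℝ) ^ (1 / 500 : ℝ), fun n hn => ?_⟩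
  have hn0 : (0 : ℝ) < n := by exact_mod_cast hn
  have hpos : (0 : ℝ) < (n : ℝ) ^ (-(1 / 500 : ℝ)) := Real.rpow_pos_of_pos hn0 _
  have hterm : ∀ i : ℕ, 0 ≤ |a i - L| * (i : ℝ) ^ (1 / 500 : ℝ) := fun i =>
    mul_nonneg (abs_nonneg _) (Real.rpow_nonneg (Nat.cast_nonneg i) _)
  have hsum : 0 ≤ ∑ i ∈ Finset.range m0, |a i - L| * (i : ℝ) ^ (1 / 500 : ℝ) :=
    Finset.sum_nonneg fun i _ => hterm i
  rw [← sub_eq_add_neg, add_mul]
  by_cases hcase : m0 ≤ n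
  · have h1 := hlim n hcase
    have h2 : 0 ≤ (∑ i ∈ Finset.range m0, |a i - L| * (i : ℝ) ^ (1 / 500 : ℝ)) *
      (n : ℝ) ^ (-(1 / 500 : ℝ)) := mul_nonneg hsum hpos.le
    linarith
  · rw [not_le] at hcase
    have h1 : |a n - L| * (n : ℝ) ^ (1 / 500 : ℝ) ≤
        ∑ i ∈ Finset.range m0, |a i - L| * (i : ℝ) ^ (1 / 500 : ℝ) :=
      Finset.single_le_sum (f := fun i : ℕ => |a i - L| * (i : ℝ) ^ (1 / 500 : ℝ))
        (fun i _ => hterm i) (Finset.mem_range.2 hcase)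
    have h2 : |a n - L| = (|a n - L| * (n : ℝ) ^ (1 / 500 : ℝ)) * (n : ℝ) ^ (-(1 / 500 : ℝ)) := by
      rw [mul_assoc, ← Real.rpow_add hn0]
      norm_num
    have h3 := mul_le_mul_of_nonneg_right h1 hpos.le
    rw [← h2] at h3
    have h4 : 0 ≤ 4 * (C : ℝ) * (n : ℝ) ^ (-(1 / 500 : ℝ)) := by positivity
    linarith

end Pool.Agent.NQ
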