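import Pool.Agent.NQ.UFin

/-!
# NQ-KUp: the upper bound with the actual parameters

Plan. `upper` with `l = 2 (m/(2Λ^58))` (natural division; even, `0 < l ≤ m`, `m/(2Λ^58) ≤ l`),
`M = Λ^4`, `K = Λ^4 - Λ^2`: `1 - K/M = Λ^(-2)`, `1 - (K-1)/M = Λ^(-2) + Λ^(-4) =: x ≤ 2Λ^(-2)`,
`x ≥ Λ^(-2)`. Errors: `2m/(l κ³) ≤ 4Λ^58 Λ^6 ≤ m/Λ`; `κ m log m ≤ Λ^(-2) m 1001 log Λ ≤ m/Λ`;
`8 m x (1 - log x) ≤ 16 m Λ^(-2) (1 + 2 log Λ) ≤ m/Λ`;
`2 (2m/l + 1)(2m/l + 2) log (m+1) ≤ 2 (4Λ^58 + 1)(4Λ^58 + 2)(1002 log Λ) ≤ m/Λ`, for `Λ ≥ Λ0`.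
-/

namespace Pool.Agent.NQ

open Finset

private theorem log_small' : ∃ Λ1 : ℕ, ∀ Λ : ℕ, Λ1 ≤ Λ → 1001 * Real.log (Λ : ℝ) ≤ Λ := by
  have h := (Real.isLittleO_log_id_atTop.def (show (0 : ℝ) < 1 / 1001 by norm_num))
  obtain ⟨a, ha⟩ := Filter.eventually_atTop.1 h
  refine ⟨max 1 ⌈a⌉₊, fun Λ hΛ => ?_⟩
  have h1 : a ≤ (Λ : ℝ) := le_trans (Nat.le_ceil a) (by exact_mod_cast le_trans (le_max_right _ _) hΛ)
  have h2 := ha (Λ : ℝ) h1
  have h3 : (1 : ℝ) ≤ (Λ : ℝ) := by exact_mod_cast le_trans (le_max_left _ _) hΛ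
  rw [Real.norm_eq_abs, Real.norm_eq_abs, abs_of_nonneg (Real.log_nonneg h3), id,
    abs_of_nonneg (by linarith)] at h2
  linarith

private theorem errors {L m l : ℝ} (hL : 200 ≤ L) (hl : 0 < l) (hm : L ^ 500 ≤ m)
    (hml : m ≤ 2 * L ^ 58 * l) (hlog : Real.log m ≤ 1001 * Real.log L)
    (hlogL : 1001 * Real.log L ≤ L) :
    2 * m / (l * (1 / L ^ 2) ^ 3) + (1 / L ^ 2) * (m * Real.log m) +
      8 * m * ((1 / L ^ 2 + 1 / L ^ 4) * (1 - Real.log (1 / L ^ 2 + 1 / L ^ 4))) +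
      2 * (2 * m / l + 1) * (2 * m / l + 2) * Real.log (m + 1) ≤ 4 * m / L := by
  have hL0 : 0 < L := by linarith
  have hL1 : 1 ≤ L := by linarith
  have hlogL0 : 0 ≤ Real.log L := Real.log_nonneg hL1
  have hp : (0 : ℝ) < L ^ 500 := by positivity
  have hm0 : 0 < m := by linarith
  have hbig : ∀ j : ℕ, j + 1 ≤ 499 → 200 * L ^ j ≤ m / L := by
    intro j hj
    rw [le_div_iff₀ hL0]
    have h1 : 200 * L ^ j * L ≤ L ^ (j + 2) := by
      have : L ^ (j + 2) = L * (L ^ j * L) := by ring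
      rw [this]
      have h2 : 0 ≤ L ^ j * L := by positivity
      nlinarith
    have h3 : L ^ (j + 2) ≤ L ^ 500 := pow_le_pow_right₀ hL1 (by omega)
    linarith
  have hq : m / l ≤ 2 * L ^ 58 := by
    rw [div_le_iff₀ hl]; exact hml
  have hq0 : 0 < m / l := by positivity
  -- term 1
  have t1 : 2 * m / (l * (1 / L ^ 2) ^ 3) ≤ m / L := by
    have h1 : 2 * m / (l * (1 / L ^ 2) ^ 3) = 2 * L ^ 6 * (m / l) := by
      field_simp
    rw [h1]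
    have h2 : 2 * L ^ 6 * (m / l) ≤ 2 * L ^ 6 * (2 * L ^ 58) :=
      mul_le_mul_of_nonneg_left hq (by positivity)
    have h3 : 2 * L ^ 6 * (2 * L ^ 58) = 4 * L ^ 64 := by ring
    have h4 := hbig 64 (by norm_num)
    have h5 : 0 < L ^ 64 := by positivity
    linarith
  -- term 2
  have t2 : (1 / L ^ 2) * (m * Real.log m) ≤ m / L := by
    have h1 : m * Real.log m ≤ m * L := mul_le_mul_of_nonneg_left (by linarith) hm0.le
    have h2 : (1 / L ^ 2) * (m * Real.log m) ≤ (1 / L ^ 2) * (m * L) :=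
      mul_le_mul_of_nonneg_left h1 (by positivity)
    have h3 : (1 / L ^ 2) * (m * L) = m / L := by field_simp
    linarith
  -- term 3
  have hx0 : 0 < 1 / L ^ 2 + 1 / L ^ 4 := by positivity
  have hx1 : 1 / L ^ 2 + 1 / L ^ 4 ≤ 2 / L ^ 2 := by
    have : 1 / L ^ 4 ≤ 1 / L ^ 2 := by
      apply one_div_le_one_div_of_le (by positivity)
      exact pow_le_pow_right₀ hL1 (by norm_num)
    have h2 : 2 / L ^ 2 = 1 / L ^ 2 + 1 / L ^ 2 := by ring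
    linarith
  have hx2 : -(2 * Real.log L) ≤ Real.log (1 / L ^ 2 + 1 / L ^ 4) := by
    have h1 : Real.log (1 / L ^ 2) ≤ Real.log (1 / L ^ 2 + 1 / L ^ 4) := by
      apply Real.log_le_log (by positivity)
      have : 0 < 1 / L ^ 4 := by positivity
      linarith
    have h2 : Real.log (1 / L ^ 2) = -(2 * Real.log L) := by
      rw [one_div, Real.log_inv, Real.log_pow]
      norm_num
    linarith
  have t3 : 8 * m * ((1 / L ^ 2 + 1 / L ^ 4) * (1 - Real.log (1 / L ^ 2 + 1 / L ^ 4))) ≤ m / L := by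
    have h1 : (1 / L ^ 2 + 1 / L ^ 4) * (1 - Real.log (1 / L ^ 2 + 1 / L ^ 4)) ≤
        (1 / L ^ 2 + 1 / L ^ 4) * (1 + 2 * Real.log L) :=
      mul_le_mul_of_nonneg_left (by linarith) hx0.le
    have h2 : (1 / L ^ 2 + 1 / L ^ 4) * (1 + 2 * Real.log L) ≤ 2 / L ^ 2 * (1 + 2 * Real.log L) :=
      mul_le_mul_of_nonneg_right hx1 (by linarith)
    have h3 : 8 * (1 + 2 * Real.log L) * 2 ≤ L := by linarith
    have h4 : 8 * m * (2 / L ^ 2 * (1 + 2 * Real.log L)) =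
        m / L ^ 2 * (8 * (1 + 2 * Real.log L) * 2) := by ring
    have h5 : m / L ^ 2 * (8 * (1 + 2 * Real.log L) * 2) ≤ m / L ^ 2 * L :=
      mul_le_mul_of_nonneg_left h3 (by positivity)
    have h6 : m / L ^ 2 * L = m / L := by field_simp
    have h7 : 8 * m * ((1 / L ^ 2 + 1 / L ^ 4) * (1 - Real.log (1 / L ^ 2 + 1 / L ^ 4))) ≤
        8 * m * (2 / L ^ 2 * (1 + 2 * Real.log L)) :=
      mul_le_mul_of_nonneg_left (le_trans h1 h2) (by positivity)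
    linarith
  -- term 4
  have hlm : Real.log (m + 1) ≤ 2 * L := by
    have hm1 : 1 ≤ m := le_trans (one_le_pow₀ hL1) hm
    have h1 : Real.log (m + 1) ≤ Real.log (2 * m) := Real.log_le_log (by linarith) (by linarith)
    rw [Real.log_mul (by norm_num) hm0.ne'] at h1
    have h2 : Real.log 2 ≤ 1 := by
      have := Real.log_two_lt_d9
      linarith
    linarith
  have hlm0 : 0 ≤ Real.log (m + 1) := Real.log_nonneg (by linarith)
  have t4 : 2 * (2 * m / l + 1) * (2 * m / l + 2) * Real.log (m + 1) ≤ m / L := by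
    have hP : (1 : ℝ) ≤ L ^ 58 := one_le_pow₀ hL1
    have e1 : 2 * m / l = 2 * (m / l) := by ring
    have h1 : 2 * m / l + 1 ≤ 5 * L ^ 58 := by rw [e1]; linarith
    have h2 : 2 * m / l + 2 ≤ 6 * L ^ 58 := by rw [e1]; linarith
    have h3 : 0 ≤ 2 * m / l + 1 := by positivity
    have h4 : 0 ≤ 2 * m / l + 2 := by positivity
    have h5 : (2 * m / l + 1) * (2 * m / l + 2) ≤ (5 * L ^ 58) * (6 * L ^ 58) :=
      mul_le_mul h1 h2 h4 (by positivity)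
    have h6 : (2 * m / l + 1) * (2 * m / l + 2) * Real.log (m + 1) ≤
        (5 * L ^ 58) * (6 * L ^ 58) * (2 * L) :=
      mul_le_mul h5 hlm hlm0 (by positivity)
    have h7 : (5 * L ^ 58) * (6 * L ^ 58) * (2 * L) = 60 * L ^ 117 := by ring
    have h8 := hbig 117 (by norm_num)
    have h9 : 0 < L ^ 117 := by positivity
    nlinarith
  have e : 4 * m / L = m / L + m / L + m / L + m / L := by ring
  rw [e]
  linarith

theorem upper_par : ∃ Λ0 : ℕ, ∀ Λ m : ℕ, Λ0 ≤ Λ → Λ ^ 500 ≤ m → m ≤ Λ ^ 1001 → 0 < Q m →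
    ∃ S ∈ Qset m, Real.log (Q m) ≤ Psi S ((2 * (m / (2 * Λ ^ 58)) : ℕ) : ℤ) - m + 4 * m / Λ := by
  obtain ⟨L1, hL1⟩ := log_small'
  refine ⟨L1 + 200, fun Λ m h0 hm hm' hQ => ?_⟩
  have hΛ : 200 ≤ Λ := by omega
  have hΛ1 : 1 ≤ Λ := by omega
  have hm0 : 0 < m := lt_of_lt_of_le (Nat.pow_pos hΛ1) hm
  set d : ℕ := 2 * Λ ^ 58 with hd
  have hd0 : 0 < d := by positivity
  have hdm : 2 * d ≤ m := by
    have h1 : 4 * Λ ^ 58 ≤ Λ ^ 59 := by
      rw [pow_succ]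
      nlinarith [Nat.pow_pos (n := 58) hΛ1]
    have h2 : Λ ^ 59 ≤ Λ ^ 500 := Nat.pow_le_pow_right hΛ1 (by norm_num)
    omega
  set k : ℕ := m / d with hk
  have hk1 : 1 ≤ k := by
    rw [hk, Nat.one_le_div_iff hd0]
    omega
  have hkd : k * d ≤ m := Nat.div_mul_le_self m d
  have hkd2 : m < (k + 1) * d := by
    rw [hk]
    have := Nat.lt_div_mul_add (a := m) hd0
    nlinarith
  have hl2 : m ≤ 2 * (k * d) := by nlinarith
  have hMl : Λ ^ 2 < Λ ^ 4 := Nat.pow_lt_pow_right (by omega) (by norm_num)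
  have hΛ2 : 1 ≤ Λ ^ 2 := Nat.one_le_pow _ _ hΛ1
  have hΛ4 : Λ ^ 2 * 2 ≤ Λ ^ 4 := by
    have : Λ ^ 4 = Λ ^ 2 * Λ ^ 2 := by ring
    rw [this]
    apply Nat.mul_le_mul_left
    nlinarith
  obtain ⟨S, hS, hle⟩ := upper (m := m) hm0 hQ (l := ((2 * k : ℕ) : ℤ)) (by positivity)
    (by push_cast; exact even_two_mul _)
    (by
      have : 2 * k ≤ m := by nlinarith [Nat.pow_pos (n := 58) hΛ1]
      exact_mod_cast this) (K := Λ ^ 4 - Λ ^ 2) (M := Λ ^ 4) (by omega) (by omega)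
  refine ⟨S, hS, le_trans hle ?_⟩
  have hLr : (200 : ℝ) ≤ (Λ : ℝ) := by exact_mod_cast hΛ
  have hL0 : (0 : ℝ) < (Λ : ℝ) := by linarith
  have hmr : (0 : ℝ) < m := by exact_mod_cast hm0
  have hlogm : Real.log m ≤ 1001 * Real.log (Λ : ℝ) := by
    have h1 : Real.log m ≤ Real.log ((Λ : ℝ) ^ 1001) :=
      Real.log_le_log hmr (by exact_mod_cast hm')
    rw [Real.log_pow] at h1
    push_cast at h1
    exact h1
  have hcast : ((((2 * k : ℕ) : ℤ)) : ℝ) = 2 * (k : ℝ) := by push_cast; ring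
  have hKr : ((Λ ^ 4 - Λ ^ 2 : ℕ) : ℝ) = (Λ : ℝ) ^ 4 - (Λ : ℝ) ^ 2 := by
    rw [Nat.cast_sub hMl.le]
    push_cast
    ring
  have hk0 : (0 : ℝ) < k := by exact_mod_cast hk1
  have hE := errors (L := (Λ : ℝ)) (m := m) (l := 2 * (k : ℝ)) hLr (by positivity)
    (by exact_mod_cast hm)
    (by
      have h1 : (m : ℝ) ≤ 2 * ((k : ℝ) * d) := by exact_mod_cast hl2
      rw [hd] at h1
      push_cast at h1
      linarith) hlogm (hL1 Λ (by omega))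
  have r1 : 1 - ((Λ ^ 4 - Λ ^ 2 : ℕ) : ℝ) / ((Λ ^ 4 : ℕ) : ℝ) = 1 / (Λ : ℝ) ^ 2 := by
    rw [hKr]
    push_cast
    field_simp
    ring
  have r2 : 1 - (((Λ ^ 4 - Λ ^ 2 : ℕ) : ℝ) - 1) / ((Λ ^ 4 : ℕ) : ℝ) =
      1 / (Λ : ℝ) ^ 2 + 1 / (Λ : ℝ) ^ 4 := by
    rw [hKr]
    push_cast
    field_simp
    ring
  rw [r1, r2, hcast]
  linarith

theorem Q_le (m : ℕ) : (Q m : ℝ) ≤ (m : ℝ) ^ m := by
  have h : Q m ≤ m ^ m := by
    rw [Q_eq]
    refine le_trans (Finset.card_le_univ _) ?_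
    rw [Fintype.card_fun, Fintype.card_fin]
  exact_mod_cast h

end Pool.Agent.NQ
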