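import Pool.Agent.NQ.RDefs
import Pool.Agent.NQ.APhi

/-!
# NQ-REnt: entropy and diagonal part after reserving diagonals
-/

namespace Pool.Agent.NQ

open Finset

private theorem gam_bounds {Λ : ℕ} (hL : 7000 ≤ Λ) : 1 ≤ gam Λ ∧ gam Λ ≤ 1 + 4 / (Λ : ℝ) ^ 3 := by
  have hL' : (7000 : ℝ) ≤ (Λ : ℝ) := by exact_mod_cast hL
  have hLp : (0 : ℝ) < (Λ : ℝ) := by linarith
  set x : ℝ := 1 / (Λ : ℝ) ^ 3 with hx
  set y : ℝ := 1 / (Λ : ℝ) ^ 29 with hy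
  have hx0 : 0 < x := by positivity
  have hy0 : 0 < y := by positivity
  have hx1 : x ≤ 1 / 8 := by
    rw [hx]
    apply one_div_le_one_div_of_le (by norm_num)
    calc (8 : ℝ) ≤ 7000 ^ 3 := by norm_num
      _ ≤ (Λ : ℝ) ^ 3 := by gcongr
  have hyx : y ≤ x := by
    rw [hx, hy]
    apply one_div_le_one_div_of_le (by positivity)
    exact pow_le_pow_right₀ (by linarith) (by norm_num)
  have hden : 0 < (1 - x) ^ 2 := by
    have : 0 < 1 - x := by linarith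
    positivity
  have hg : gam Λ = (1 - y) / (1 - x) ^ 2 := by
    unfold gam
    rw [hx, hy]
  constructor
  · rw [hg, le_div_iff₀ hden]
    nlinarith
  · have h4 : 4 / (Λ : ℝ) ^ 3 = 4 * x := by rw [hx]; ring
    rw [h4, hg, div_le_iff₀ hden]
    nlinarith [mul_pos hx0 hx0, mul_pos (mul_pos hx0 hx0) hx0]

private theorem sum_board_le {n : ℕ} {V : ℤ × ℤ → ℝ} (h : ∀ s, dsum n V 0 s ≤ 1) :
    ∑ e ∈ board n, V e ≤ n := by
  have h1 : ∑ e ∈ board n, V e = ∑ s ∈ Finset.Ico (0 : ℤ) n, dsum n V 0 s := by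
    unfold dsum
    symm
    apply Finset.sum_fiberwise_of_maps_to
    intro e he
    rw [mem_board] at he
    rw [ln_zero, Finset.mem_Ico]
    exact he.1
  rw [h1]
  calc ∑ s ∈ Finset.Ico (0 : ℤ) n, dsum n V 0 s ≤ ∑ s ∈ Finset.Ico (0 : ℤ) n, (1 : ℝ) :=
        Finset.sum_le_sum (fun s _ => h s)
    _ = n := by simp

theorem ent_res : ∃ Λ0 : ℕ, ∀ Λ n : ℕ, Λ0 ≤ Λ → Λ ^ 500 ≤ n → n ≤ Λ ^ 1001 →
    ∀ W : ℤ × ℤ → ℝ, GW Λ n W → ∀ Rp Rm : Finset ℤ, RW Λ n W Rp Rm →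
      Ent n W - (n : ℝ) / Λ ≤ Ent n (wres Λ W Rp Rm) := by
  refine ⟨7000, ?_⟩
  intro Λ n hΛ hn1 hn2 W hW Rp Rm hR
  have hL' : (7000 : ℝ) ≤ (Λ : ℝ) := by exact_mod_cast hΛ
  have hLp : (0 : ℝ) < (Λ : ℝ) := by linarith
  have hL1 : (1 : ℝ) ≤ (Λ : ℝ) := by linarith
  obtain ⟨hg1, hg2⟩ := gam_bounds hΛ
  have hn1' : (Λ : ℝ) ^ 500 ≤ (n : ℝ) := by exact_mod_cast hn1
  have hn2' : (n : ℝ) ≤ (Λ : ℝ) ^ 1001 := by exact_mod_cast hn2
  have hnp : (0 : ℝ) < (n : ℝ) := lt_of_lt_of_le (by positivity) hn1'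
  have hlow : (0 : ℝ) < 1 / (4 * (Λ : ℝ) ^ 2 * n) := by positivity
  have hWp : ∀ e ∈ board n, 0 < W e := fun e he => lt_of_lt_of_le hlow (hW.lo e he)
  have hW1 : ∀ e ∈ board n, W e ≤ 1 := by
    intro e he
    refine (hW.hi e he).trans ?_
    rw [div_le_one hnp]
    exact (pow_le_pow_right₀ hL1 (by norm_num)).trans hn1'
  have hlog0 : ∀ e ∈ board n, 0 ≤ -Real.log (W e) := by
    intro e he
    have := Real.log_nonpos (hWp e he).le (hW1 e he)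
    linarith
  have hlogU : ∀ e ∈ board n, -Real.log (W e) ≤ Real.log (4 * (Λ : ℝ) ^ 2 * n) := by
    intro e he
    have h1 := Real.log_le_log hlow (hW.lo e he)
    rw [one_div, Real.log_inv] at h1
    linarith
  have hres0 : ∀ e ∈ board n, 0 ≤ wres Λ W Rp Rm e := by
    intro e he
    unfold wres
    split_ifs
    · exact le_refl _
    · exact mul_nonneg (by linarith) (hWp e he).le
  have hresU : ∀ e ∈ board n, wres Λ W Rp Rm e ≤ gam Λ * W e := by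
    intro e he
    unfold wres
    split_ifs
    · exact mul_nonneg (by linarith) (hWp e he).le
    · exact le_refl _
  have hterm : ∀ e ∈ board n, wres Λ W Rp Rm e * (-Real.log (W e)) -
      (gam Λ - 1) * wres Λ W Rp Rm e ≤ Real.negMulLog (wres Λ W Rp Rm e) := by
    intro e he
    have hwe := hWp e he
    unfold wres
    split_ifs
    · simp
    · unfold Real.negMulLog
      rw [Real.log_mul (by linarith) hwe.ne']
      have h1 : Real.log (gam Λ) ≤ gam Λ - 1 := Real.log_le_sub_one_of_pos (by linarith)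
      have h2 : 0 ≤ gam Λ * W e := mul_nonneg (by linarith) hwe.le
      nlinarith [mul_le_mul_of_nonneg_left h1 h2]
  have hsumW : ∑ e ∈ board n, W e ≤ n := sum_board_le hW.row
  have hsumR : ∑ e ∈ board n, wres Λ W Rp Rm e ≤ n := sum_board_le hR.row
  have hent : ∑ e ∈ board n, (wres Λ W Rp Rm e * (-Real.log (W e)) -
      (gam Λ - 1) * wres Λ W Rp Rm e) ≤ Ent n (wres Λ W Rp Rm) := by
    unfold Ent
    exact Finset.sum_le_sum hterm
  rw [Finset.sum_sub_distrib, ← Finset.mul_sum] at hent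
  have hdiff : ∑ e ∈ board n, W e * (-Real.log (W e)) -
      ∑ e ∈ board n, wres Λ W Rp Rm e * (-Real.log (W e)) ≤
      Real.log (4 * (Λ : ℝ) ^ 2 * n) *
        (gam Λ * ∑ e ∈ board n, W e - ∑ e ∈ board n, wres Λ W Rp Rm e) := by
    rw [← Finset.sum_sub_distrib, Finset.mul_sum, ← Finset.sum_sub_distrib, Finset.mul_sum]
    apply Finset.sum_le_sum
    intro e he
    have h1 := hlog0 e he
    have h2 := hlogU e he
    have h3 := hresU e he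
    have h4 := (hWp e he).le
    have h5 : W e ≤ gam Λ * W e := by nlinarith
    calc W e * (-Real.log (W e)) - wres Λ W Rp Rm e * (-Real.log (W e))
        = (W e - wres Λ W Rp Rm e) * (-Real.log (W e)) := by ring
      _ ≤ (gam Λ * W e - wres Λ W Rp Rm e) * (-Real.log (W e)) := by
          apply mul_le_mul_of_nonneg_right _ h1
          linarith
      _ ≤ (gam Λ * W e - wres Λ W Rp Rm e) * Real.log (4 * (Λ : ℝ) ^ 2 * n) := by
          apply mul_le_mul_of_nonneg_left h2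
          linarith
      _ = Real.log (4 * (Λ : ℝ) ^ 2 * n) * (gam Λ * W e - wres Λ W Rp Rm e) := by ring
  have hEntW : Ent n W = ∑ e ∈ board n, W e * (-Real.log (W e)) := by
    unfold Ent
    apply Finset.sum_congr rfl
    intro e _
    unfold Real.negMulLog
    ring
  have hlogn : Real.log (4 * (Λ : ℝ) ^ 2 * n) ≤ 3 + 1003 * (Λ : ℝ) := by
    have hle : 4 * (Λ : ℝ) ^ 2 * n ≤ 4 * (Λ : ℝ) ^ 1003 := by
      calc 4 * (Λ : ℝ) ^ 2 * n ≤ 4 * (Λ : ℝ) ^ 2 * (Λ : ℝ) ^ 1001 := by gcongr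
        _ = 4 * (Λ : ℝ) ^ 1003 := by rw [mul_assoc, ← pow_add]
    have h1 := Real.log_le_log (by positivity) hle
    have h0 : Real.log (4 * (Λ : ℝ) ^ 1003) = Real.log 4 + 1003 * Real.log (Λ : ℝ) := by
      rw [Real.log_mul (by norm_num) (by positivity), Real.log_pow]
      norm_num
    rw [h0] at h1
    have h2 : Real.log 4 ≤ 4 - 1 := Real.log_le_sub_one_of_pos (by norm_num)
    have h3 : Real.log (Λ : ℝ) ≤ (Λ : ℝ) - 1 := Real.log_le_sub_one_of_pos hLp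
    linarith
  have hlogn0 : 0 ≤ Real.log (4 * (Λ : ℝ) ^ 2 * n) := by
    apply Real.log_nonneg
    have h1 : (1 : ℝ) ≤ (Λ : ℝ) ^ 2 := one_le_pow₀ hL1
    have h2 : (1 : ℝ) ≤ (n : ℝ) := (one_le_pow₀ hL1).trans hn1'
    nlinarith
  have hx0 : (0 : ℝ) < 1 / (Λ : ℝ) ^ 3 := by positivity
  have h28 : 2 / (Λ : ℝ) ^ 28 ≤ 2 / (Λ : ℝ) ^ 3 := by
    apply div_le_div_of_nonneg_left (by norm_num) (by positivity)
    exact pow_le_pow_right₀ hL1 (by norm_num)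
  have hg2' : gam Λ - 1 ≤ 4 * (1 / (Λ : ℝ) ^ 3) := by
    have : 4 / (Λ : ℝ) ^ 3 = 4 * (1 / (Λ : ℝ) ^ 3) := by ring
    linarith
  have h28' : 2 / (Λ : ℝ) ^ 28 ≤ 2 * (1 / (Λ : ℝ) ^ 3) := by
    have : 2 / (Λ : ℝ) ^ 3 = 2 * (1 / (Λ : ℝ) ^ 3) := by ring
    linarith
  have hgap : gam Λ * ∑ e ∈ board n, W e - ∑ e ∈ board n, wres Λ W Rp Rm e ≤
      6 * (1 / (Λ : ℝ) ^ 3) * n := by
    have h1 := hR.tot
    have h2 : gam Λ * ∑ e ∈ board n, W e ≤ gam Λ * n :=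
      mul_le_mul_of_nonneg_left hsumW (by linarith)
    have h3 : (gam Λ - 1) * n ≤ 4 * (1 / (Λ : ℝ) ^ 3) * n := by gcongr
    have h4 : 2 / (Λ : ℝ) ^ 28 * n ≤ 2 * (1 / (Λ : ℝ) ^ 3) * n := by gcongr
    nlinarith
  have hprod : Real.log (4 * (Λ : ℝ) ^ 2 * n) *
        (gam Λ * ∑ e ∈ board n, W e - ∑ e ∈ board n, wres Λ W Rp Rm e) ≤
        (3 + 1003 * (Λ : ℝ)) * (6 * (1 / (Λ : ℝ) ^ 3) * n) := by
    calc Real.log (4 * (Λ : ℝ) ^ 2 * n) *
        (gam Λ * ∑ e ∈ board n, W e - ∑ e ∈ board n, wres Λ W Rp Rm e)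
        ≤ Real.log (4 * (Λ : ℝ) ^ 2 * n) * (6 * (1 / (Λ : ℝ) ^ 3) * n) :=
          mul_le_mul_of_nonneg_left hgap hlogn0
      _ ≤ (3 + 1003 * (Λ : ℝ)) * (6 * (1 / (Λ : ℝ) ^ 3) * n) :=
          mul_le_mul_of_nonneg_right hlogn (by positivity)
  have hg3 : (gam Λ - 1) * ∑ e ∈ board n, wres Λ W Rp Rm e ≤ 4 * (1 / (Λ : ℝ) ^ 3) * n := by
    calc (gam Λ - 1) * ∑ e ∈ board n, wres Λ W Rp Rm e ≤ (gam Λ - 1) * n :=
          mul_le_mul_of_nonneg_left hsumR (by linarith)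
      _ ≤ 4 * (1 / (Λ : ℝ) ^ 3) * n := by gcongr
  have hfin : (3 + 1003 * (Λ : ℝ)) * (6 * (1 / (Λ : ℝ) ^ 3) * n) + 4 * (1 / (Λ : ℝ) ^ 3) * n ≤
      (n : ℝ) / Λ := by
    have h1 : (n : ℝ) / Λ = (1 / (Λ : ℝ) ^ 3) * n * (Λ : ℝ) ^ 2 := by
      field_simp
    rw [h1]
    have h2 : (3 + 1003 * (Λ : ℝ)) * 6 + 4 ≤ (Λ : ℝ) ^ 2 := by nlinarith
    have h3 : 0 ≤ (1 / (Λ : ℝ) ^ 3) * n := by positivity
    calc (3 + 1003 * (Λ : ℝ)) * (6 * (1 / (Λ : ℝ) ^ 3) * n) + 4 * (1 / (Λ : ℝ) ^ 3) * n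
        = (1 / (Λ : ℝ) ^ 3) * n * ((3 + 1003 * (Λ : ℝ)) * 6 + 4) := by ring
      _ ≤ (1 / (Λ : ℝ) ^ 3) * n * (Λ : ℝ) ^ 2 := mul_le_mul_of_nonneg_left h2 h3
  rw [hEntW]
  linarith

theorem phi_res : ∃ Λ0 : ℕ, ∀ Λ n : ℕ, Λ0 ≤ Λ → ∀ W : ℤ × ℤ → ℝ, GW Λ n W →
      ∑ s ∈ Finset.Ico (0 : ℤ) (2 * n), phi (dsum n W 2 s + 3 / (Λ : ℝ) ^ 3) +
        ∑ s ∈ Finset.Ioo (-(n : ℤ)) n, phi (dsum n W 3 s + 3 / (Λ : ℝ) ^ 3) ≤
          Dg n W + (n : ℝ) / Λ := by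
  refine ⟨100, ?_⟩
  intro Λ n hΛ W hW
  have hL' : (100 : ℝ) ≤ (Λ : ℝ) := by exact_mod_cast hΛ
  have hLp : (0 : ℝ) < (Λ : ℝ) := by linarith
  have hL1 : (1 : ℝ) ≤ (Λ : ℝ) := by linarith
  have hn0 : (0 : ℝ) ≤ (n : ℝ) := Nat.cast_nonneg n
  have hW0 : ∀ e ∈ board n, 0 ≤ W e := by
    intro e he
    exact le_trans (by positivity) (hW.lo e he)
  have hd0 : ∀ k s, 0 ≤ dsum n W k s := by
    intro k s
    unfold dsum
    apply Finset.sum_nonneg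
    intro e he
    exact hW0 e (Finset.mem_filter.mp he).1
  set h : ℝ := 3 / (Λ : ℝ) ^ 3 with hh
  have hh0 : 0 < h := by positivity
  have hh1 : h ≤ 1 / (10 * (Λ : ℝ) ^ 2) := by
    rw [hh, div_le_div_iff₀ (by positivity) (by positivity)]
    have h2 : 0 < (Λ : ℝ) ^ 2 := by positivity
    nlinarith
  have hh2 : h ≤ 1 := by
    refine hh1.trans ?_
    rw [div_le_one (by positivity)]
    nlinarith
  have hmod : ∀ a : ℝ, 0 ≤ a → a ≤ 1 - 1 / (10 * (Λ : ℝ) ^ 2) →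
      phi (a + h) ≤ phi a + h * (1 - Real.log h) := by
    intro a ha0 ha1
    exact phi_modulus ha0 (by linarith) (by linarith) hh0 hh2 (by linarith)
  have hE0 : 0 ≤ h * (1 - Real.log h) := by
    have := Real.log_nonpos hh0.le hh2
    exact mul_nonneg hh0.le (by linarith)
  have hS1 : ∑ s ∈ Finset.Ico (0 : ℤ) (2 * n), phi (dsum n W 2 s + h) ≤
      ∑ s ∈ Finset.Ico (0 : ℤ) (2 * n), phi (dsum n W 2 s) + 2 * n * (h * (1 - Real.log h)) := by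
    calc ∑ s ∈ Finset.Ico (0 : ℤ) (2 * n), phi (dsum n W 2 s + h)
        ≤ ∑ s ∈ Finset.Ico (0 : ℤ) (2 * n), (phi (dsum n W 2 s) + h * (1 - Real.log h)) :=
          Finset.sum_le_sum (fun s _ => hmod _ (hd0 2 s) (hW.sd s))
      _ = ∑ s ∈ Finset.Ico (0 : ℤ) (2 * n), phi (dsum n W 2 s) +
            ((Finset.Ico (0 : ℤ) (2 * n)).card : ℝ) * (h * (1 - Real.log h)) := by
          rw [Finset.sum_add_distrib, Finset.sum_const, nsmul_eq_mul]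
      _ = ∑ s ∈ Finset.Ico (0 : ℤ) (2 * n), phi (dsum n W 2 s) +
            2 * n * (h * (1 - Real.log h)) := by
          rw [Int.card_Ico]
          have : ((2 * (n : ℤ) - 0).toNat : ℝ) = 2 * n := by
            have h3 : (2 * (n : ℤ) - 0).toNat = 2 * n := by omega
            rw [h3]; push_cast; ring
          rw [this]
  have hS2 : ∑ s ∈ Finset.Ioo (-(n : ℤ)) n, phi (dsum n W 3 s + h) ≤
      ∑ s ∈ Finset.Ioo (-(n : ℤ)) n, phi (dsum n W 3 s) + 2 * n * (h * (1 - Real.log h)) := by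
    calc ∑ s ∈ Finset.Ioo (-(n : ℤ)) n, phi (dsum n W 3 s + h)
        ≤ ∑ s ∈ Finset.Ioo (-(n : ℤ)) n, (phi (dsum n W 3 s) + h * (1 - Real.log h)) :=
          Finset.sum_le_sum (fun s _ => hmod _ (hd0 3 s) (hW.dd s))
      _ = ∑ s ∈ Finset.Ioo (-(n : ℤ)) n, phi (dsum n W 3 s) +
            ((Finset.Ioo (-(n : ℤ)) n).card : ℝ) * (h * (1 - Real.log h)) := by
          rw [Finset.sum_add_distrib, Finset.sum_const, nsmul_eq_mul]
      _ ≤ ∑ s ∈ Finset.Ioo (-(n : ℤ)) n, phi (dsum n W 3 s) +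
            2 * n * (h * (1 - Real.log h)) := by
          have h3 : (Finset.Ioo (-(n : ℤ)) n).card ≤ 2 * n := by
            rw [Int.card_Ioo]; omega
          have h4 : ((Finset.Ioo (-(n : ℤ)) n).card : ℝ) ≤ 2 * n := by exact_mod_cast h3
          have := mul_le_mul_of_nonneg_right h4 hE0
          linarith
  have hlogh : -Real.log h ≤ 3 * (Λ : ℝ) := by
    rw [hh, Real.log_div (by norm_num) (by positivity), Real.log_pow]
    have h3 : Real.log (Λ : ℝ) ≤ (Λ : ℝ) - 1 := Real.log_le_sub_one_of_pos hLp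
    have h4 : 0 ≤ Real.log 3 := Real.log_nonneg (by norm_num)
    push_cast
    linarith
  have hE1 : h * (1 - Real.log h) ≤ (n : ℝ) * 0 + h * (1 + 3 * (Λ : ℝ)) := by
    have := mul_le_mul_of_nonneg_left (show 1 - Real.log h ≤ 1 + 3 * (Λ : ℝ) by linarith) hh0.le
    linarith
  have hfin : 4 * (n : ℝ) * (h * (1 + 3 * (Λ : ℝ))) ≤ (n : ℝ) / Λ := by
    have h1 : (n : ℝ) / Λ = (n : ℝ) * (1 / (Λ : ℝ) ^ 3) * (Λ : ℝ) ^ 2 := by
      field_simp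
    have h2 : 4 * (n : ℝ) * (h * (1 + 3 * (Λ : ℝ))) =
        (n : ℝ) * (1 / (Λ : ℝ) ^ 3) * (12 * (1 + 3 * (Λ : ℝ))) := by
      rw [hh]; ring
    rw [h1, h2]
    apply mul_le_mul_of_nonneg_left _ (by positivity)
    nlinarith
  have hE2 : 4 * (n : ℝ) * (h * (1 - Real.log h)) ≤ 4 * (n : ℝ) * (h * (1 + 3 * (Λ : ℝ))) := by
    apply mul_le_mul_of_nonneg_left _ (by positivity)
    linarith
  unfold Dg
  linarith

end Pool.Agent.NQ
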