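import Pool.Agent.PGr.McD

/-!
# NQ-RCon: concentration of a sum over patterns of labels

`f x = ∑_{a∈A} c a 1[x = 0 on J1 a, x ≠ 0 on J0 a]`, labels `x i ∈ Fin q` uniform.

Plan. `ex_pat`: `Ex_sum`, and for each `a` the mean of the indicator is
`∏_{j∈J1 a} Pr(x j = 0) ∏_{j∈J0 a} Pr(x j ≠ 0) = (1/q)^|J1| (1-1/q)^|J0|` (`Ex_pi_prod`/`Pr_pi_forall`
in `Pool.Agent.PGr.PrProd`, applied to `J1 a ∪ J0 a`). `inf_pat`: changing the label `i` changes only the
terms with `i ∈ J1 a ∪ J0 a`, each by at most `c a`. `tail`: `mcdiarmid` with all `c i = b`,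
`V = |ι| b²`.
-/

namespace Pool.Agent.NQ

open Finset
open Pool.Agent.PGr (Pr Ex)

open Classical in
/-- The pattern sum. -/
noncomputable def pat {α ι : Type} {q : ℕ} [NeZero q] (A : Finset α) (c : α → ℝ)
    (J1 J0 : α → Finset ι) (x : ι → Fin q) : ℝ :=
  ∑ a ∈ A, if (∀ j ∈ J1 a, x j = 0) ∧ (∀ j ∈ J0 a, x j ≠ 0) then c a else 0

private theorem pr_zero {q : ℕ} [NeZero q] : Pr (fun y : Fin q => y = 0) = 1 / (q : ℝ) := by
  classical
  rw [Pool.Agent.PGr.Pr_eq_card, Fintype.card_fin, Finset.filter_eq' univ (0 : Fin q),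
    if_pos (mem_univ _), card_singleton, Nat.cast_one]

private theorem pr_ne_zero {q : ℕ} [NeZero q] : Pr (fun y : Fin q => y ≠ 0) = 1 - 1 / (q : ℝ) := by
  have h := Pool.Agent.PGr.Pr_not (fun y : Fin q => y = 0)
  rw [pr_zero] at h
  exact h

theorem ex_pat {α ι : Type} [Fintype ι] [DecidableEq ι] {q : ℕ} [NeZero q] (A : Finset α)
    (c : α → ℝ) (J1 J0 : α → Finset ι) (hd : ∀ a ∈ A, Disjoint (J1 a) (J0 a)) :
    Ex (fun x : ι → Fin q => pat A c J1 J0 x) =
      ∑ a ∈ A, c a * ((1 / (q : ℝ)) ^ (J1 a).card * (1 - 1 / (q : ℝ)) ^ (J0 a).card) := by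
  classical
  unfold pat
  rw [Pool.Agent.PGr.Ex_sum]
  refine sum_congr rfl fun a ha => ?_
  have hda := hd a ha
  have h1 : ∀ x : ι → Fin q, (if (∀ j ∈ J1 a, x j = 0) ∧ (∀ j ∈ J0 a, x j ≠ 0) then c a else 0) =
      c a * (if (∀ j ∈ J1 a ∪ J0 a, (if j ∈ J1 a then x j = 0 else x j ≠ 0)) then (1 : ℝ) else 0) := by
    intro x
    have hiff : ((∀ j ∈ J1 a, x j = 0) ∧ (∀ j ∈ J0 a, x j ≠ 0)) ↔
        (∀ j ∈ J1 a ∪ J0 a, (if j ∈ J1 a then x j = 0 else x j ≠ 0)) := by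
      constructor
      · rintro ⟨h1, h0⟩ j hj
        by_cases hj1 : j ∈ J1 a
        · rw [if_pos hj1]; exact h1 j hj1
        · rw [if_neg hj1]
          rcases mem_union.1 hj with h | h
          · exact absurd h hj1
          · exact h0 j h
      · intro h
        constructor
        · intro j hj
          have := h j (mem_union_left _ hj)
          rw [if_pos hj] at this
          exact this
        · intro j hj
          have hj1 : j ∉ J1 a := fun h' => (Finset.disjoint_left.1 hda) h' hj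
          have := h j (mem_union_right _ hj)
          rw [if_neg hj1] at this
          exact this
    by_cases hc : (∀ j ∈ J1 a, x j = 0) ∧ (∀ j ∈ J0 a, x j ≠ 0)
    · rw [if_pos hc, if_pos (hiff.1 hc), mul_one]
    · rw [if_neg hc, if_neg (fun h => hc (hiff.2 h)), mul_zero]
  have h2 : Ex (fun x : ι → Fin q =>
      if (∀ j ∈ J1 a, x j = 0) ∧ (∀ j ∈ J0 a, x j ≠ 0) then c a else 0) =
      c a * Pr (fun x : ι → Fin q => ∀ j ∈ J1 a ∪ J0 a, (if j ∈ J1 a then x j = 0 else x j ≠ 0)) := by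
    unfold Pool.Agent.PGr.Pr
    rw [← Pool.Agent.PGr.Ex_const_mul]
    refine Pool.Agent.PGr.Ex_congr fun x => ?_
    rw [h1 x]
    by_cases hh : (∀ j ∈ J1 a ∪ J0 a, (if j ∈ J1 a then x j = 0 else x j ≠ 0))
    · rw [if_pos hh, if_pos hh]
    · rw [if_neg hh, if_neg hh]
  refine Eq.trans (Pool.Agent.PGr.Ex_congr fun x => ?_) (h2.trans ?_)
  · by_cases hh : (∀ j ∈ J1 a, x j = 0) ∧ (∀ j ∈ J0 a, x j ≠ 0)
    · rw [if_pos hh, if_pos hh]
    · rw [if_neg hh, if_neg hh]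
  congr 1
  have h3 := Pool.Agent.PGr.Pr_pi_forall (Ω := Fin q) (J1 a ∪ J0 a)
    (fun j y => if j ∈ J1 a then y = 0 else y ≠ 0)
  refine h3.trans ?_
  rw [prod_union hda]
  congr 1
  · rw [← prod_const]
    refine prod_congr rfl fun j hj => ?_
    simp only [if_pos hj]
    exact pr_zero
  · rw [← prod_const]
    refine prod_congr rfl fun j hj => ?_
    have hj1 : j ∉ J1 a := fun h' => (Finset.disjoint_left.1 hda) h' hj
    simp only [if_neg hj1]
    exact pr_ne_zero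

theorem inf_pat {α ι : Type} [Fintype ι] [DecidableEq ι] {q : ℕ} [NeZero q] (A : Finset α)
    (c : α → ℝ) (hc : ∀ a ∈ A, 0 ≤ c a) (J1 J0 : α → Finset ι) {b : ℝ}
    (hb : ∀ i, ∑ a ∈ A.filter (fun a => i ∈ J1 a ∪ J0 a), c a ≤ b) (x : ι → Fin q) (i : ι)
    (y : Fin q) : |pat A c J1 J0 (Function.update x i y) - pat A c J1 J0 x| ≤ b := by
  classical
  refine le_trans ?_ (hb i)
  unfold pat
  rw [← sum_sub_distrib, sum_filter]
  refine (abs_sum_le_sum_abs _ _).trans (sum_le_sum fun a ha => ?_)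
  have hca := hc a ha
  by_cases hi : i ∈ J1 a ∪ J0 a
  · rw [if_pos hi]
    split_ifs
    · simpa using hca
    · rw [sub_zero, abs_of_nonneg hca]
    · rw [zero_sub, abs_neg, abs_of_nonneg hca]
    · simpa using hca
  · rw [if_neg hi]
    rw [mem_union, not_or] at hi
    have h1 : ∀ j ∈ J1 a, Function.update x i y j = x j := fun j hj =>
      Function.update_of_ne (by rintro rfl; exact hi.1 hj) _ _
    have h0 : ∀ j ∈ J0 a, Function.update x i y j = x j := fun j hj =>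
      Function.update_of_ne (by rintro rfl; exact hi.2 hj) _ _
    have hiff : ((∀ j ∈ J1 a, Function.update x i y j = 0) ∧ (∀ j ∈ J0 a, Function.update x i y j ≠ 0)) ↔
        ((∀ j ∈ J1 a, x j = 0) ∧ (∀ j ∈ J0 a, x j ≠ 0)) := by
      constructor
      · rintro ⟨k1, k0⟩
        exact ⟨fun j hj => by rw [← h1 j hj]; exact k1 j hj, fun j hj => by rw [← h0 j hj]; exact k0 j hj⟩
      · rintro ⟨k1, k0⟩
        exact ⟨fun j hj => by rw [h1 j hj]; exact k1 j hj, fun j hj => by rw [h0 j hj]; exact k0 j hj⟩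
    by_cases hcond : (∀ j ∈ J1 a, x j = 0) ∧ (∀ j ∈ J0 a, x j ≠ 0)
    · rw [if_pos hcond, if_pos (hiff.2 hcond), sub_self, abs_zero]
    · rw [if_neg hcond, if_neg (fun h => hcond (hiff.1 h)), sub_self, abs_zero]

theorem tail_pat {α ι : Type} [Fintype ι] [DecidableEq ι] [Nonempty ι] {q : ℕ} [NeZero q]
    (A : Finset α) (c : α → ℝ) (hc : ∀ a ∈ A, 0 ≤ c a) (J1 J0 : α → Finset ι) {b : ℝ} (hb0 : 0 < b)
    (hb : ∀ i, ∑ a ∈ A.filter (fun a => i ∈ J1 a ∪ J0 a), c a ≤ b) {t : ℝ} (ht : 0 ≤ t) :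
    Pr (fun x : ι → Fin q => t ≤ |pat A c J1 J0 x - Ex (fun x : ι → Fin q => pat A c J1 J0 x)|) ≤
      2 * Real.exp (-(t ^ 2 / (2 * ((Fintype.card ι : ℝ) * b ^ 2)))) := by
  have hι : (0 : ℝ) < (Fintype.card ι : ℝ) := by exact_mod_cast Fintype.card_pos
  exact Pool.Agent.PGr.mcdiarmid (fun x : ι → Fin q => pat A c J1 J0 x) (fun _ => b)
    (fun s i a => inf_pat A c hc J1 J0 hb s i a) ((Fintype.card ι : ℝ) * b ^ 2)
    (by rw [sum_const, card_univ, nsmul_eq_mul]) (by positivity) t ht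

end Pool.Agent.NQ
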