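import Pool.Agent.NQ.RZm
import Pool.Agent.NQ.RCon

/-!
# NQ-RDiag: diagonal sums after reserving diagonals

Plan. As in `RRow` (labels, `ZMod`). For `k = 2` and the diagonal `s`:
`dsum n (wres ..) 2 s ≤ pat A c ∅ J0 x` with `A = (board n).filter (ln 2 e = s)`, `c = gam * W`,
`J0 e = {(1, ln 3 e)}` (only the other diagonal is used: if the own diagonal is reserved the left side
is `0`). Mean `gam (1 - 1/q) ∑ W = (1 - Λ^(-29))/(1 - Λ^(-3)) δ ≤ δ + 2 Λ^(-3)` with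
`δ = dsum n W 2 s ≤ 1`. Each label occurs for at most one square, `b = 2Λ^60/n`, `t = Λ^(-3)`:
exponent `Λ^(-6) n/(32 Λ^120) ≥ n/Λ^200`. `k = 3` the same with `(0, ln 2 e)`.
-/

namespace Pool.Agent.NQ

open Finset
open Pool.Agent.PGr (Pr Ex Pr_mono)

private theorem gam_mul {Λ : ℕ} (hΛ : 30 ≤ Λ) :
    gam Λ * (1 - 1 / (Λ : ℝ) ^ 3) ≤ 1 + 2 / (Λ : ℝ) ^ 3 := by
  have hΛr : (30 : ℝ) ≤ (Λ : ℝ) := by exact_mod_cast hΛ
  have hL0 : (0 : ℝ) < (Λ : ℝ) := by linarith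
  have h3 : (2 : ℝ) ≤ (Λ : ℝ) ^ 3 := by
    have : (30 : ℝ) ^ 3 ≤ (Λ : ℝ) ^ 3 := pow_le_pow_left₀ (by norm_num) hΛr 3
    linarith
  have hy0 : (0 : ℝ) < 1 / (Λ : ℝ) ^ 3 := by positivity
  have hy1 : 1 / (Λ : ℝ) ^ 3 ≤ 1 / 2 := by
    apply one_div_le_one_div_of_le (by norm_num) h3
  have hz : (0 : ℝ) ≤ 1 / (Λ : ℝ) ^ 29 := by positivity
  have h2y : 2 / (Λ : ℝ) ^ 3 = 2 * (1 / (Λ : ℝ) ^ 3) := by ring
  unfold gam
  rw [h2y]
  set y := 1 / (Λ : ℝ) ^ 3 with hy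
  set z := 1 / (Λ : ℝ) ^ 29 with hzd
  have hy2 : 0 < 1 - y := by linarith
  have e1 : (1 - z) / (1 - y) ^ 2 * (1 - y) = (1 - z) / (1 - y) := by
    field_simp
  rw [e1, div_le_iff₀ hy2]
  nlinarith

private theorem main {Λ n N q : ℕ} [NeZero q] [NeZero N] (hN : N = 2 * n) (hq : q = Λ ^ 3)
    (hΛ : 30 ≤ Λ) (hn : Λ ^ 500 ≤ n) {W : ℤ × ℤ → ℝ} (H : GW Λ n W) (k : Fin 4) (s : ℤ)
    (g : ℤ × ℤ → Fin 2 × ZMod N)
    (hg : ∀ e ∈ board n, ∀ f ∈ board n, ln k e = s → ln k f = s → g e = g f → e = f)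
    (hk : dsum n W k s ≤ 1)
    (hx : ∀ x : Lab N q, ∀ e ∈ board n, ln 2 e ∉ rp n x → ln 3 e ∉ rm n x → x (g e) ≠ 0) :
    Pr (fun x : Lab N q => dsum n W k s + 3 / (Λ : ℝ) ^ 3 <
      dsum n (wres Λ W (rp n x) (rm n x)) k s) ≤
      2 * Real.exp (-((n : ℝ) / (Λ : ℝ) ^ 200)) := by
  classical
  have hΛ2 : 2 ≤ Λ := by omega
  have hΛr : (30 : ℝ) ≤ (Λ : ℝ) := by exact_mod_cast hΛ
  have hnr : (Λ : ℝ) ^ 500 ≤ (n : ℝ) := by exact_mod_cast hn
  have hL0 : (0 : ℝ) < (Λ : ℝ) := by linarith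
  have hn0 : (0 : ℝ) < (n : ℝ) := lt_of_lt_of_le (by positivity) hnr
  have hg1 := one_le_gam hΛ2
  have hg2 := gam_le hΛ2
  have hW0 : ∀ e ∈ board n, 0 ≤ W e := fun e he => le_trans (by positivity) (H.lo e he)
  set A := (board n).filter (fun e => ln k e = s) with hA
  have hAb : ∀ e ∈ A, e ∈ board n ∧ ln k e = s := fun e he => Finset.mem_filter.mp he
  have hc0 : ∀ e ∈ A, 0 ≤ gam Λ * W e := fun e he =>
    mul_nonneg (by linarith) (hW0 e (hAb e he).1)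
  have hcb : ∀ e ∈ A, gam Λ * W e ≤ 2 * (Λ : ℝ) ^ 60 / n := by
    intro e he
    have h1 := H.hi e (hAb e he).1
    have h2 := hW0 e (hAb e he).1
    calc gam Λ * W e ≤ 2 * W e := mul_le_mul_of_nonneg_right hg2 h2
      _ ≤ 2 * ((Λ : ℝ) ^ 60 / n) := by linarith
      _ = 2 * (Λ : ℝ) ^ 60 / n := by ring
  have hb0 : (0 : ℝ) < 2 * (Λ : ℝ) ^ 60 / n := by positivity
  have hb : ∀ i : Fin 2 × ZMod N, ∑ a ∈ A.filter (fun a => i ∈ (∅ : Finset (Fin 2 × ZMod N)) ∪ {g a}),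
      gam Λ * W a ≤ 2 * (Λ : ℝ) ^ 60 / n := by
    intro i
    have hcard : (A.filter (fun a => i ∈ (∅ : Finset (Fin 2 × ZMod N)) ∪ {g a})).card ≤ 1 := by
      rw [Finset.card_le_one]
      intro e he f hf
      simp only [Finset.mem_filter, Finset.empty_union, Finset.mem_singleton] at he hf
      exact hg e (hAb e he.1).1 f (hAb f hf.1).1 (hAb e he.1).2 (hAb f hf.1).2
        (he.2.symm.trans hf.2)
    calc ∑ a ∈ A.filter (fun a => i ∈ (∅ : Finset (Fin 2 × ZMod N)) ∪ {g a}), gam Λ * W a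
        ≤ ∑ _a ∈ A.filter (fun a => i ∈ (∅ : Finset (Fin 2 × ZMod N)) ∪ {g a}),
            2 * (Λ : ℝ) ^ 60 / n :=
          Finset.sum_le_sum fun a ha => hcb a (Finset.mem_filter.mp ha).1
      _ = ((A.filter (fun a => i ∈ (∅ : Finset (Fin 2 × ZMod N)) ∪ {g a})).card : ℝ) *
            (2 * (Λ : ℝ) ^ 60 / n) := by rw [Finset.sum_const, nsmul_eq_mul]
      _ ≤ 1 * (2 * (Λ : ℝ) ^ 60 / n) :=
          mul_le_mul_of_nonneg_right (by exact_mod_cast hcard) hb0.le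
      _ = 2 * (Λ : ℝ) ^ 60 / n := one_mul _
  have hqr : (q : ℝ) = (Λ : ℝ) ^ 3 := by rw [hq]; push_cast; rfl
  have hmean : Ex (fun x : (Fin 2 × ZMod N) → Fin q =>
      pat A (fun e => gam Λ * W e) (fun _ => ∅) (fun e => {g e}) x) ≤
        dsum n W k s + 2 / (Λ : ℝ) ^ 3 := by
    rw [ex_pat A (fun e => gam Λ * W e) (fun _ => ∅) (fun e => {g e}) (by simp)]
    have e1 : ∑ a ∈ A, gam Λ * W a * ((1 / (q : ℝ)) ^ (∅ : Finset (Fin 2 × ZMod N)).card *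
        (1 - 1 / (q : ℝ)) ^ ({g a} : Finset (Fin 2 × ZMod N)).card) =
        (gam Λ * (1 - 1 / (Λ : ℝ) ^ 3)) * dsum n W k s := by
      unfold dsum
      rw [Finset.mul_sum]
      refine Finset.sum_congr rfl fun a _ => ?_
      rw [Finset.card_empty, Finset.card_singleton, pow_zero, pow_one, hqr]
      ring
    rw [e1]
    have hδ0 : 0 ≤ dsum n W k s := by
      unfold dsum
      exact Finset.sum_nonneg fun e he => hW0 e (Finset.mem_filter.mp he).1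
    calc (gam Λ * (1 - 1 / (Λ : ℝ) ^ 3)) * dsum n W k s
        ≤ (1 + 2 / (Λ : ℝ) ^ 3) * dsum n W k s :=
          mul_le_mul_of_nonneg_right (gam_mul hΛ) hδ0
      _ = dsum n W k s + 2 / (Λ : ℝ) ^ 3 * dsum n W k s := by ring
      _ ≤ dsum n W k s + 2 / (Λ : ℝ) ^ 3 * 1 := by
          have : 2 / (Λ : ℝ) ^ 3 * dsum n W k s ≤ 2 / (Λ : ℝ) ^ 3 * 1 :=
            mul_le_mul_of_nonneg_left hk (by positivity)
          linarith
      _ = dsum n W k s + 2 / (Λ : ℝ) ^ 3 := by ring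
  have htail := tail_pat (ι := Fin 2 × ZMod N) (q := q) A (fun e => gam Λ * W e) hc0
    (fun _ => ∅) (fun e => {g e}) hb0 hb (t := 1 / (Λ : ℝ) ^ 3) (by positivity)
  refine le_trans (Pr_mono ?_) (htail.trans ?_)
  · intro x h
    have h1 : dsum n (wres Λ W (rp n x) (rm n x)) k s ≤
        pat A (fun e => gam Λ * W e) (fun _ => ∅) (fun e => {g e}) x := by
      unfold dsum pat
      refine Finset.sum_le_sum fun e he => ?_
      have heb := (hAb e he).1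
      unfold wres
      by_cases hr : ln 2 e ∈ rp n x ∨ ln 3 e ∈ rm n x
      · rw [if_pos hr]
        split_ifs
        · exact hc0 e he
        · exact le_rfl
      · rw [if_neg hr]
        have hr' := not_or.mp hr
        rw [if_pos]
        refine ⟨fun j hj => absurd hj (Finset.notMem_empty j), ?_⟩
        intro j hj
        rw [Finset.mem_singleton] at hj
        rw [hj]
        exact hx x e heb hr'.1 hr'.2
    refine le_trans ?_ (le_abs_self _)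
    have e3 : 3 / (Λ : ℝ) ^ 3 = 1 / (Λ : ℝ) ^ 3 + 2 / (Λ : ℝ) ^ 3 := by ring
    rw [e3] at h
    linarith
  · refine mul_le_mul_of_nonneg_left (Real.exp_le_exp.mpr (neg_le_neg ?_)) (by norm_num)
    rw [card_lab hN]
    have e4 : (1 / (Λ : ℝ) ^ 3) ^ 2 / (2 * ((4 * (n : ℝ)) * (2 * (Λ : ℝ) ^ 60 / n) ^ 2)) =
        (n : ℝ) / (32 * (Λ : ℝ) ^ 126) := by
      field_simp
      ring
    rw [e4]
    refine div_le_div_of_nonneg_left hn0.le (by positivity) ?_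
    have h74 : (32 : ℝ) ≤ (Λ : ℝ) ^ 74 := by
      have h1 : (30 : ℝ) ^ 2 ≤ (Λ : ℝ) ^ 2 := pow_le_pow_left₀ (by norm_num) hΛr 2
      have h2 : (Λ : ℝ) ^ 2 ≤ (Λ : ℝ) ^ 74 := pow_le_pow_right₀ (by linarith) (by norm_num)
      linarith
    calc 32 * (Λ : ℝ) ^ 126 ≤ (Λ : ℝ) ^ 74 * (Λ : ℝ) ^ 126 :=
          mul_le_mul_of_nonneg_right h74 (by positivity)
      _ = (Λ : ℝ) ^ 200 := by ring

theorem pr_sd {Λ n N q : ℕ} [NeZero q] [NeZero N] (hN : N = 2 * n) (hq : q = Λ ^ 3) (hΛ : 30 ≤ Λ)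
    (hn : Λ ^ 500 ≤ n) {W : ℤ × ℤ → ℝ} (H : GW Λ n W) (s : ℤ) :
    Pr (fun x : Lab N q => dsum n W 2 s + 3 / (Λ : ℝ) ^ 3 <
      dsum n (wres Λ W (rp n x) (rm n x)) 2 s) ≤ 2 * Real.exp (-((n : ℝ) / (Λ : ℝ) ^ 200)) := by
  refine main hN hq hΛ hn H 2 s (fun e => (1, ((ln 3 e : ℤ) : ZMod N))) ?_ ?_ ?_
  · intro e he f hf h1 h2 h3
    have h4 : ((ln 3 e : ℤ) : ZMod N) = ((ln 3 f : ℤ) : ZMod N) := (Prod.ext_iff.mp h3).2
    rw [mem_board] at he hf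
    have hNz : (N : ℤ) = 2 * n := by rw [hN]; push_cast; rfl
    simp only [ln_two, ln_three] at h1 h2 h4
    have h5 := (cast_eq (N := N) (s := e.1 - e.2) (s' := f.1 - f.2) (by omega) (by omega)).mp h4
    ext
    · omega
    · omega
  · have := H.sd s
    have h0 : (0 : ℝ) ≤ 1 / (10 * (Λ : ℝ) ^ 2) := by positivity
    linarith
  · intro x e he _ h
    rw [mem_board] at he
    intro hc
    refine h ((mem_rm (N := N) ?_ ?_).mpr hc)
    · rw [ln_three]; omega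
    · rw [ln_three]; omega

theorem pr_dd {Λ n N q : ℕ} [NeZero q] [NeZero N] (hN : N = 2 * n) (hq : q = Λ ^ 3) (hΛ : 30 ≤ Λ)
    (hn : Λ ^ 500 ≤ n) {W : ℤ × ℤ → ℝ} (H : GW Λ n W) (s : ℤ) :
    Pr (fun x : Lab N q => dsum n W 3 s + 3 / (Λ : ℝ) ^ 3 <
      dsum n (wres Λ W (rp n x) (rm n x)) 3 s) ≤ 2 * Real.exp (-((n : ℝ) / (Λ : ℝ) ^ 200)) := by
  refine main hN hq hΛ hn H 3 s (fun e => (0, ((ln 2 e : ℤ) : ZMod N))) ?_ ?_ ?_
  · intro e he f hf h1 h2 h3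
    have h4 : ((ln 2 e : ℤ) : ZMod N) = ((ln 2 f : ℤ) : ZMod N) := (Prod.ext_iff.mp h3).2
    rw [mem_board] at he hf
    have hNz : (N : ℤ) = 2 * n := by rw [hN]; push_cast; rfl
    simp only [ln_two, ln_three] at h1 h2 h4
    have h5 := (cast_eq (N := N) (s := e.1 + e.2) (s' := f.1 + f.2) (by omega) (by omega)).mp h4
    ext
    · omega
    · omega
  · have := H.dd s
    have h0 : (0 : ℝ) ≤ 1 / (10 * (Λ : ℝ) ^ 2) := by positivity
    linarith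
  · intro x e he h _
    rw [mem_board] at he
    intro hc
    refine h ((mem_rp (N := N) ?_ ?_).mpr hc)
    · rw [ln_two]; omega
    · rw [ln_two]; omega

end Pool.Agent.NQ
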