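import Pool.Agent.NQ.RZm
import Pool.Agent.NQ.RCon

namespace Pool.Agent.NQ

open Finset
open Pool.Agent.PGr (Pr Ex)

namespace RRcAux

/-- mass of the squares with a given label -/
theorem line_mass {n N : ℕ} {W : ℤ × ℤ → ℝ} (k : Fin 4) (L : ℤ × ℤ → ℤ)
    (hW : ∀ e ∈ board n, 0 ≤ W e)
    (hL : ∀ e ∈ board n, ∀ f ∈ board n, L e = L f → ln k e = ln k f)
    (hL2 : ∀ e ∈ board n, ∀ f ∈ board n, L e - L f < N)
    (hs : ∀ s, dsum n W k s ≤ 1) (z : ZMod N) :
    ∑ e ∈ (board n).filter (fun e => ((L e : ℤ) : ZMod N) = z), W e ≤ 1 := by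
  classical
  by_cases hne : ((board n).filter (fun e => ((L e : ℤ) : ZMod N) = z)).Nonempty
  · obtain ⟨e0, he0⟩ := hne
    rw [mem_filter] at he0
    refine le_trans ?_ (hs (ln k e0))
    unfold dsum
    apply sum_le_sum_of_subset_of_nonneg
    · intro e he
      rw [mem_filter] at he ⊢
      refine ⟨he.1, hL e he.1 e0 he0.1 ?_⟩
      have h := he.2.trans he0.2.symm
      exact (cast_eq (hL2 e he.1 e0 he0.1) (hL2 e0 he0.1 e he.1)).1 h
    · intro e he _
      exact hW e (mem_filter.1 he).1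
  · rw [not_nonempty_iff_eq_empty] at hne
    rw [hne, sum_empty]; exact zero_le_one

/-- label set of the four reserved lines -/
noncomputable def J1 (N : ℕ) (r c : ℤ) (e : ℤ × ℤ) : Finset (Fin 2 × ZMod N) :=
  {((0 : Fin 2), ((r + e.2 : ℤ) : ZMod N)), ((0 : Fin 2), ((e.1 + c : ℤ) : ZMod N)),
    ((1 : Fin 2), ((r - e.2 : ℤ) : ZMod N)), ((1 : Fin 2), ((e.1 - c : ℤ) : ZMod N))}

/-- label set of the two lines of the square -/
noncomputable def J0 (N : ℕ) (e : ℤ × ℤ) : Finset (Fin 2 × ZMod N) :=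
  {((0 : Fin 2), ((e.1 + e.2 : ℤ) : ZMod N)), ((1 : Fin 2), ((e.1 - e.2 : ℤ) : ZMod N))}

/-- the squares -/
noncomputable def A (n : ℕ) (r c : ℤ) : Finset (ℤ × ℤ) :=
  (board n).filter (fun e => e.1 ≠ r ∧ e.2 ≠ c ∧ r + e.2 ≠ e.1 + c ∧ r - e.2 ≠ e.1 - c)

theorem sum_eq {Λ n N q : ℕ} [NeZero q] [NeZero N] {W : ℤ × ℤ → ℝ} {r c : ℤ}
    (hr : r ∈ Finset.Ico (0 : ℤ) n) (hc : c ∈ Finset.Ico (0 : ℤ) n) (x : Lab N q) :
    ∑ e ∈ Frc n (rp n x) (rm n x) r c, wres Λ W (rp n x) (rm n x) e =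
      pat (A n r c) (fun e => gam Λ * W e) (J1 N r c) (J0 N) x := by
  classical
  rw [mem_Ico] at hr hc
  unfold pat Frc A
  rw [sum_filter, sum_filter]
  apply sum_congr rfl
  intro e he
  have hb := mem_board.1 he
  have k1 : r + e.2 ∈ rp n x ↔ x (0, ((r + e.2 : ℤ) : ZMod N)) = 0 :=
    mem_rp (by omega) (by omega)
  have k2 : e.1 + c ∈ rp n x ↔ x (0, ((e.1 + c : ℤ) : ZMod N)) = 0 :=
    mem_rp (by omega) (by omega)
  have k3 : r - e.2 ∈ rm n x ↔ x (1, ((r - e.2 : ℤ) : ZMod N)) = 0 :=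
    mem_rm (by omega) (by omega)
  have k4 : e.1 - c ∈ rm n x ↔ x (1, ((e.1 - c : ℤ) : ZMod N)) = 0 :=
    mem_rm (by omega) (by omega)
  have k5 : ln 2 e ∈ rp n x ↔ x (0, ((e.1 + e.2 : ℤ) : ZMod N)) = 0 := by
    rw [ln_two]; exact mem_rp (by omega) (by omega)
  have k6 : ln 3 e ∈ rm n x ↔ x (1, ((e.1 - e.2 : ℤ) : ZMod N)) = 0 := by
    rw [ln_three]; exact mem_rm (by omega) (by omega)
  have j1 : (∀ j ∈ J1 N r c e, x j = 0) ↔
      (r + e.2 ∈ rp n x ∧ e.1 + c ∈ rp n x ∧ r - e.2 ∈ rm n x ∧ e.1 - c ∈ rm n x) := by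
    rw [k1, k2, k3, k4]; unfold J1; simp only [mem_insert, mem_singleton, forall_eq_or_imp, forall_eq]
  have j0 : (∀ j ∈ J0 N e, x j ≠ 0) ↔ ¬ (ln 2 e ∈ rp n x ∨ ln 3 e ∈ rm n x) := by
    rw [k5, k6, not_or]; unfold J0; simp only [mem_insert, mem_singleton, forall_eq_or_imp, forall_eq, ne_eq]
  unfold wres
  by_cases h1 : (r + e.2 ∈ rp n x ∧ e.1 + c ∈ rp n x ∧ r - e.2 ∈ rm n x ∧ e.1 - c ∈ rm n x)
  · by_cases h2 : e.1 ≠ r ∧ e.2 ≠ c ∧ r + e.2 ≠ e.1 + c ∧ r - e.2 ≠ e.1 - c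
    · rw [if_pos ⟨h1, h2⟩, if_pos h2]
      by_cases h3 : ln 2 e ∈ rp n x ∨ ln 3 e ∈ rm n x
      · rw [if_pos h3, if_neg (fun h => (j0.1 h.2) h3)]
      · rw [if_neg h3, if_pos ⟨j1.2 h1, j0.2 h3⟩]
    · rw [if_neg (fun h => h2 h.2), if_neg h2]
  · rw [if_neg (fun h => h1 h.1)]
    by_cases h2 : e.1 ≠ r ∧ e.2 ≠ c ∧ r + e.2 ≠ e.1 + c ∧ r - e.2 ≠ e.1 - c
    · rw [if_pos h2, if_neg (fun h => h1 (j1.1 h.1))]
    · rw [if_neg h2]

theorem prod_ne {N : ℕ} {k : Fin 2} {a b : ZMod N} (h : a ≠ b) : (k, a) ≠ (k, b) := fun h' =>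
  h (Prod.mk.inj h').2

theorem zne {N n : ℕ} (hN : N = 2 * n) {a b : ℤ} (h1 : a - b < 2 * n) (h2 : b - a < 2 * n)
    (h : a ≠ b) : ((a : ℤ) : ZMod N) ≠ ((b : ℤ) : ZMod N) := by
  subst hN
  intro h'
  exact h ((cast_eq (by push_cast; omega) (by push_cast; omega)).1 h')

theorem card_J1 {n N : ℕ} (hN : N = 2 * n) {r c : ℤ}
    (hr : r ∈ Finset.Ico (0 : ℤ) n) (hc : c ∈ Finset.Ico (0 : ℤ) n) {e : ℤ × ℤ}
    (he : e ∈ A n r c) : (J1 N r c e).card = 4 := by
  classical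
  rw [mem_Ico] at hr hc
  unfold A at he
  rw [mem_filter] at he
  have hb := mem_board.1 he.1
  obtain ⟨-, h1, h2, h3, h4⟩ := he
  have e1 : ((r + e.2 : ℤ) : ZMod N) ≠ ((e.1 + c : ℤ) : ZMod N) :=
    zne hN (by omega) (by omega) h3
  have e2 : ((r - e.2 : ℤ) : ZMod N) ≠ ((e.1 - c : ℤ) : ZMod N) :=
    zne hN (by omega) (by omega) h4
  have h01 : (0 : Fin 2) ≠ 1 := by decide
  unfold J1
  rw [card_insert_of_notMem, card_insert_of_notMem, card_insert_of_notMem, card_singleton]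
  · simp only [mem_singleton, Prod.mk.injEq, not_and]; intro _; exact e2
  · simp only [mem_insert, mem_singleton, Prod.mk.injEq, not_or, not_and]
    exact ⟨fun h => absurd h h01, fun h => absurd h h01⟩
  · simp only [mem_insert, mem_singleton, Prod.mk.injEq, not_or, not_and]
    exact ⟨fun _ => e1, fun h => absurd h h01, fun h => absurd h h01⟩

theorem card_J0 {N : ℕ} (e : ℤ × ℤ) : (J0 N e).card = 2 := by
  classical
  have h01 : (0 : Fin 2) ≠ 1 := by decide
  unfold J0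
  rw [card_insert_of_notMem, card_singleton]
  simp only [mem_singleton, Prod.mk.injEq, not_and]
  exact fun h => absurd h h01

theorem disj {n N : ℕ} (hN : N = 2 * n) {r c : ℤ}
    (hr : r ∈ Finset.Ico (0 : ℤ) n) (hc : c ∈ Finset.Ico (0 : ℤ) n) {e : ℤ × ℤ}
    (he : e ∈ A n r c) : Disjoint (J1 N r c e) (J0 N e) := by
  classical
  rw [mem_Ico] at hr hc
  unfold A at he
  rw [mem_filter] at he
  have hb := mem_board.1 he.1
  obtain ⟨-, h1, h2, h3, h4⟩ := he
  have h01 : (0 : Fin 2) ≠ 1 := by decide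
  have h10 : (1 : Fin 2) ≠ 0 := by decide
  have e1 : ((e.1 + e.2 : ℤ) : ZMod N) ≠ ((r + e.2 : ℤ) : ZMod N) :=
    zne hN (by omega) (by omega) (by omega)
  have e2 : ((e.1 + e.2 : ℤ) : ZMod N) ≠ ((e.1 + c : ℤ) : ZMod N) :=
    zne hN (by omega) (by omega) (by omega)
  have e3 : ((e.1 - e.2 : ℤ) : ZMod N) ≠ ((r - e.2 : ℤ) : ZMod N) :=
    zne hN (by omega) (by omega) (by omega)
  have e4 : ((e.1 - e.2 : ℤ) : ZMod N) ≠ ((e.1 - c : ℤ) : ZMod N) :=
    zne hN (by omega) (by omega) (by omega)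
  rw [disjoint_right]
  intro j hj hj1
  unfold J0 at hj
  unfold J1 at hj1
  simp only [mem_insert, mem_singleton] at hj hj1
  rcases hj with rfl | rfl
  · simp only [Prod.mk.injEq] at hj1
    rcases hj1 with h | h | h | h
    · exact e1 h.2
    · exact e2 h.2
    · exact h01 h.1
    · exact h01 h.1
  · simp only [Prod.mk.injEq] at hj1
    rcases hj1 with h | h | h | h
    · exact h10 h.1
    · exact h10 h.1
    · exact e3 h.2
    · exact e4 h.2

theorem label_mass {Λ n N : ℕ} (hN : N = 2 * n) (hΛ : 30 ≤ Λ) {W : ℤ × ℤ → ℝ} (H : GW Λ n W)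
    (hW : ∀ e ∈ board n, 0 ≤ W e) {r c : ℤ}
    (i : Fin 2 × ZMod N) :
    ∑ a ∈ (A n r c).filter (fun a => i ∈ J1 N r c a ∪ J0 N a), gam Λ * W a ≤ 6 := by
  classical
  rw [← mul_sum]
  have hΛ0 : (0 : ℝ) < (Λ : ℝ) := by
    have : (30 : ℝ) ≤ (Λ : ℝ) := by exact_mod_cast hΛ
    linarith
  have hg := gam_le (Λ := Λ) (by omega)
  have hg1 := one_le_gam (Λ := Λ) (by omega)
  have hsd : ∀ s, dsum n W 2 s ≤ 1 := fun s => (H.sd s).trans (by
    have : 0 ≤ 1 / (10 * (Λ : ℝ) ^ 2) := by positivity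
    linarith)
  have hdd : ∀ s, dsum n W 3 s ≤ 1 := fun s => (H.dd s).trans (by
    have : 0 ≤ 1 / (10 * (Λ : ℝ) ^ 2) := by positivity
    linarith)
  have key : ∀ (z : ZMod N) (L1 L2 L3 : ℤ × ℤ → ℤ)
      (_ : ∑ e ∈ (board n).filter (fun e => ((L1 e : ℤ) : ZMod N) = z), W e ≤ 1)
      (_ : ∑ e ∈ (board n).filter (fun e => ((L2 e : ℤ) : ZMod N) = z), W e ≤ 1)
      (_ : ∑ e ∈ (board n).filter (fun e => ((L3 e : ℤ) : ZMod N) = z), W e ≤ 1)
      (_ : ∀ a ∈ (A n r c).filter (fun a => i ∈ J1 N r c a ∪ J0 N a),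
        ((L1 a : ℤ) : ZMod N) = z ∨ ((L2 a : ℤ) : ZMod N) = z ∨ ((L3 a : ℤ) : ZMod N) = z),
      ∑ a ∈ (A n r c).filter (fun a => i ∈ J1 N r c a ∪ J0 N a), W a ≤ 3 := by
    intro z L1 L2 L3 h1 h2 h3 h4
    have hsub : (A n r c).filter (fun a => i ∈ J1 N r c a ∪ J0 N a) ⊆
        ((board n).filter (fun e => ((L1 e : ℤ) : ZMod N) = z) ∪
        (board n).filter (fun e => ((L2 e : ℤ) : ZMod N) = z)) ∪
        (board n).filter (fun e => ((L3 e : ℤ) : ZMod N) = z) := by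
      intro a ha
      have hab : a ∈ board n := (mem_filter.1 ((mem_filter.1 ha).1)).1
      rw [mem_union, mem_union, mem_filter, mem_filter, mem_filter]
      rcases h4 a ha with h | h | h
      · exact Or.inl (Or.inl ⟨hab, h⟩)
      · exact Or.inl (Or.inr ⟨hab, h⟩)
      · exact Or.inr ⟨hab, h⟩
    have hun : ∀ (S T : Finset (ℤ × ℤ)), S ⊆ board n → T ⊆ board n →
        ∑ e ∈ S ∪ T, W e ≤ ∑ e ∈ S, W e + ∑ e ∈ T, W e := by
      intro S T hS hT
      have := sum_union_inter (s₁ := S) (s₂ := T) (f := W)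
      have h0 : 0 ≤ ∑ e ∈ S ∩ T, W e := sum_nonneg (fun e he => hW e (hS (mem_inter.1 he).1))
      linarith
    have hf : ∀ L : ℤ × ℤ → ℤ, (board n).filter (fun e => ((L e : ℤ) : ZMod N) = z) ⊆ board n :=
      fun L => filter_subset _ _
    calc _ ≤ ∑ e ∈ ((board n).filter (fun e => ((L1 e : ℤ) : ZMod N) = z) ∪
        (board n).filter (fun e => ((L2 e : ℤ) : ZMod N) = z)) ∪
        (board n).filter (fun e => ((L3 e : ℤ) : ZMod N) = z), W e := by
          apply sum_le_sum_of_subset_of_nonneg hsub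
          intro e he _
          exact hW e ((union_subset (union_subset (hf L1) (hf L2)) (hf L3)) he)
      _ ≤ _ := hun _ _ (union_subset (hf L1) (hf L2)) (hf L3)
      _ ≤ _ := add_le_add (hun _ _ (hf L1) (hf L2)) le_rfl
      _ ≤ _ := by linarith
  have h3 : ∑ a ∈ (A n r c).filter (fun a => i ∈ J1 N r c a ∪ J0 N a), W a ≤ 3 := by
    obtain ⟨k, z⟩ := i
    have hk : k = 0 ∨ k = 1 := by omega
    rcases hk with rfl | rfl
    · apply key z (fun e => r + e.2) (fun e => e.1 + c) (fun e => e.1 + e.2)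
      · apply line_mass 1 _ hW
        · intro e _ f _ h; simp only [ln_one]; omega
        · intro e he f hf; have := mem_board.1 he; have := mem_board.1 hf; subst hN; push_cast; omega
        · exact H.col
      · apply line_mass 0 _ hW
        · intro e _ f _ h; simp only [ln_zero]; omega
        · intro e he f hf; have := mem_board.1 he; have := mem_board.1 hf; subst hN; push_cast; omega
        · exact H.row
      · apply line_mass 2 _ hW
        · intro e _ f _ h; simp only [ln_two]; omega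
        · intro e he f hf; have := mem_board.1 he; have := mem_board.1 hf; subst hN; push_cast; omega
        · exact hsd
      · intro a ha
        have h := (mem_filter.1 ha).2
        unfold J1 J0 at h
        simp only [mem_union, mem_insert, mem_singleton, Prod.mk.injEq] at h
        rcases h with (h | h | h | h) | (h | h)
        · exact Or.inl h.2.symm
        · exact Or.inr (Or.inl h.2.symm)
        · exact absurd h.1 (by decide)
        · exact absurd h.1 (by decide)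
        · exact Or.inr (Or.inr h.2.symm)
        · exact absurd h.1 (by decide)
    · apply key z (fun e => r - e.2) (fun e => e.1 - c) (fun e => e.1 - e.2)
      · apply line_mass 1 _ hW
        · intro e _ f _ h; simp only [ln_one]; omega
        · intro e he f hf; have := mem_board.1 he; have := mem_board.1 hf; subst hN; push_cast; omega
        · exact H.col
      · apply line_mass 0 _ hW
        · intro e _ f _ h; simp only [ln_zero]; omega
        · intro e he f hf; have := mem_board.1 he; have := mem_board.1 hf; subst hN; push_cast; omega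
        · exact H.row
      · apply line_mass 3 _ hW
        · intro e _ f _ h; simp only [ln_three]; omega
        · intro e he f hf; have := mem_board.1 he; have := mem_board.1 hf; subst hN; push_cast; omega
        · exact hdd
      · intro a ha
        have h := (mem_filter.1 ha).2
        unfold J1 J0 at h
        simp only [mem_union, mem_insert, mem_singleton, Prod.mk.injEq] at h
        rcases h with (h | h | h | h) | (h | h)
        · exact absurd h.1 (by decide)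
        · exact absurd h.1 (by decide)
        · exact Or.inl h.2.symm
        · exact Or.inr (Or.inl h.2.symm)
        · exact absurd h.1 (by decide)
        · exact Or.inr (Or.inr h.2.symm)
  have h0 : 0 ≤ ∑ a ∈ (A n r c).filter (fun a => i ∈ J1 N r c a ∪ J0 N a), W a :=
    sum_nonneg (fun a ha => hW a (mem_filter.1 ((mem_filter.1 ha).1)).1)
  nlinarith

theorem massA {Λ n : ℕ} (hΛ : 30 ≤ Λ) {W : ℤ × ℤ → ℝ} (H : GW Λ n W)
    (hW : ∀ e ∈ board n, 0 ≤ W e) {r c : ℤ} :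
    (n : ℝ) * (1 - 1 / (Λ : ℝ) ^ 28) - 4 ≤ ∑ e ∈ A n r c, W e := by
  classical
  have hΛ0 : (0 : ℝ) < (Λ : ℝ) := by
    have : (30 : ℝ) ≤ (Λ : ℝ) := by exact_mod_cast hΛ
    linarith
  have hsd : ∀ s, dsum n W 2 s ≤ 1 := fun s => (H.sd s).trans (by
    have : 0 ≤ 1 / (10 * (Λ : ℝ) ^ 2) := by positivity
    linarith)
  have hdd : ∀ s, dsum n W 3 s ≤ 1 := fun s => (H.dd s).trans (by
    have : 0 ≤ 1 / (10 * (Λ : ℝ) ^ 2) := by positivity
    linarith)
  have hpt : ∀ e ∈ board n, W e ≤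
      (if e.1 ≠ r ∧ e.2 ≠ c ∧ r + e.2 ≠ e.1 + c ∧ r - e.2 ≠ e.1 - c then W e else 0) +
      (((if ln 0 e = r then W e else 0) + (if ln 1 e = c then W e else 0)) +
      ((if ln 2 e = r + c then W e else 0) + (if ln 3 e = r - c then W e else 0))) := by
    intro e he
    have h0 := hW e he
    have n0 : 0 ≤ (if ln 0 e = r then W e else 0) := by split_ifs <;> simp [h0]
    have n1 : 0 ≤ (if ln 1 e = c then W e else 0) := by split_ifs <;> simp [h0]
    have n2 : 0 ≤ (if ln 2 e = r + c then W e else 0) := by split_ifs <;> simp [h0]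
    have n3 : 0 ≤ (if ln 3 e = r - c then W e else 0) := by split_ifs <;> simp [h0]
    by_cases hh : e.1 ≠ r ∧ e.2 ≠ c ∧ r + e.2 ≠ e.1 + c ∧ r - e.2 ≠ e.1 - c
    · rw [if_pos hh]; linarith
    · rw [if_neg hh]
      have : ln 0 e = r ∨ ln 1 e = c ∨ ln 2 e = r + c ∨ ln 3 e = r - c := by
        simp only [ln_zero, ln_one, ln_two, ln_three]
        by_contra hcon
        apply hh
        push Not at hcon
        obtain ⟨a1, a2, a3, a4⟩ := hcon
        exact ⟨a1, a2, by omega, by omega⟩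
      rcases this with h | h | h | h
      · rw [if_pos h] at n0 ⊢; linarith
      · rw [if_pos h] at n1 ⊢; linarith
      · rw [if_pos h] at n2 ⊢; linarith
      · rw [if_pos h] at n3 ⊢; linarith
  have hsum := sum_le_sum hpt
  rw [sum_add_distrib, sum_add_distrib, sum_add_distrib, sum_add_distrib, ← sum_filter,
    ← sum_filter, ← sum_filter, ← sum_filter, ← sum_filter] at hsum
  have d0 := H.row r
  have d1 := H.col c
  have d2 := hsd (r + c)
  have d3 := hdd (r - c)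
  unfold dsum at d0 d1 d2 d3
  have htot := H.tot
  unfold A
  linarith

end RRcAux

open RRcAux in
theorem pr_rc {Λ n N q : ℕ} [NeZero q] [NeZero N] (hN : N = 2 * n) (hq : q = Λ ^ 3) (hΛ : 30 ≤ Λ)
    (hn : Λ ^ 500 ≤ n) {W : ℤ × ℤ → ℝ} (H : GW Λ n W) {r c : ℤ} (hr : r ∈ Finset.Ico (0 : ℤ) n)
    (hc : c ∈ Finset.Ico (0 : ℤ) n) :
    Pr (fun x : Lab N q => ∑ e ∈ Frc n (rp n x) (rm n x) r c, wres Λ W (rp n x) (rm n x) e <
      (n : ℝ) / (4 * (Λ : ℝ) ^ 12)) ≤ 2 * Real.exp (-((n : ℝ) / (Λ : ℝ) ^ 200)) := by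
  classical
  have hL : (30 : ℝ) ≤ (Λ : ℝ) := by exact_mod_cast hΛ
  have hL0 : (0 : ℝ) < (Λ : ℝ) := by linarith
  have hnR : (Λ : ℝ) ^ 500 ≤ (n : ℝ) := by exact_mod_cast hn
  have hn0 : (0 : ℝ) < (n : ℝ) := lt_of_lt_of_le (by positivity) hnR
  have hW : ∀ e ∈ board n, 0 ≤ W e := fun e he => le_trans (by positivity) (H.lo e he)
  have hg1 := one_le_gam (Λ := Λ) (by omega)
  have hmass := massA hΛ H hW (r := r) (c := c)
  have hEx : Ex (fun x : Lab N q => pat (A n r c) (fun e => gam Λ * W e) (J1 N r c) (J0 N) x) =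
      (1 - 1 / (Λ : ℝ) ^ 29) * (1 / (Λ : ℝ) ^ 12) * ∑ e ∈ A n r c, W e := by
    rw [ex_pat _ _ _ _ (fun a ha => disj hN hr hc ha), mul_sum]
    apply sum_congr rfl
    intro e he
    rw [card_J1 hN hr hc he, card_J0, hq]
    unfold gam
    have h1 : (1 : ℝ) - 1 / (Λ : ℝ) ^ 3 ≠ 0 := by
      have : 1 / (Λ : ℝ) ^ 3 < 1 := by
        rw [div_lt_one (by positivity)]
        exact one_lt_pow₀ (by linarith) (by norm_num)
      linarith
    push_cast
    have h2 : (1 / (Λ : ℝ) ^ 3) ^ 4 = 1 / (Λ : ℝ) ^ 12 := by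
      rw [div_pow, one_pow, ← pow_mul]
    rw [h2]
    have h3 : ((1 : ℝ) - 1 / (Λ : ℝ) ^ 3) ^ 2 ≠ 0 := pow_ne_zero 2 h1
    generalize (1 : ℝ) - 1 / (Λ : ℝ) ^ 3 = u at h1 h3 ⊢
    generalize (1 : ℝ) - 1 / (Λ : ℝ) ^ 29 = v
    field_simp
  have hExlow : (n : ℝ) / (2 * (Λ : ℝ) ^ 12) ≤
      Ex (fun x : Lab N q => pat (A n r c) (fun e => gam Λ * W e) (J1 N r c) (J0 N) x) := by
    rw [hEx]
    have p29 : 1 / (Λ : ℝ) ^ 29 ≤ 1 / 30 := by
      apply one_div_le_one_div_of_le (by norm_num)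
      calc (30 : ℝ) ≤ Λ := hL
        _ ≤ (Λ : ℝ) ^ 29 := le_self_pow₀ (by linarith) (by norm_num)
    have p28 : 1 / (Λ : ℝ) ^ 28 ≤ 1 / 30 := by
      apply one_div_le_one_div_of_le (by norm_num)
      calc (30 : ℝ) ≤ Λ := hL
        _ ≤ (Λ : ℝ) ^ 28 := le_self_pow₀ (by linarith) (by norm_num)
    have n4 : (4 : ℝ) ≤ (n : ℝ) / 7 := by
      have : (30 : ℝ) ≤ (Λ : ℝ) ^ 500 := hL.trans (le_self_pow₀ (by linarith) (by norm_num))
      linarith
    have hA : (n : ℝ) * (4 / 5) ≤ ∑ e ∈ A n r c, W e := by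
      have h5 : (n : ℝ) * (1 - 1 / 30) ≤ (n : ℝ) * (1 - 1 / (Λ : ℝ) ^ 28) := by
        apply mul_le_mul_of_nonneg_left _ hn0.le
        linarith
      linarith
    calc (n : ℝ) / (2 * (Λ : ℝ) ^ 12) = (1 / 2) * (1 / (Λ : ℝ) ^ 12) * n := by
          field_simp
      _ ≤ (1 - 1 / 30) * (1 / (Λ : ℝ) ^ 12) * ((n : ℝ) * (4 / 5)) := by
          have : 0 ≤ (1 / (Λ : ℝ) ^ 12) * n := by positivity
          nlinarith
      _ ≤ (1 - 1 / (Λ : ℝ) ^ 29) * (1 / (Λ : ℝ) ^ 12) * ∑ e ∈ A n r c, W e := by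
          apply mul_le_mul _ hA (by positivity) _
          · apply mul_le_mul_of_nonneg_right _ (by positivity)
            linarith
          · apply mul_nonneg _ (by positivity)
            linarith
  have htail := tail_pat (ι := Fin 2 × ZMod N) (q := q) (A n r c) (fun e => gam Λ * W e)
    (fun a ha => mul_nonneg (by linarith) (hW a (mem_filter.1 ha).1)) (J1 N r c) (J0 N)
    (b := 6) (by norm_num) (fun i => label_mass hN hΛ H hW i)
    (t := (n : ℝ) / (4 * (Λ : ℝ) ^ 12)) (by positivity)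
  refine le_trans (Pool.Agent.PGr.Pr_mono ?_) (htail.trans ?_)
  · intro x hx
    rw [sum_eq hr hc x] at hx
    have e2 : (n : ℝ) / (2 * (Λ : ℝ) ^ 12) = 2 * ((n : ℝ) / (4 * (Λ : ℝ) ^ 12)) := by
      field_simp; norm_num
    rw [abs_sub_comm]
    refine le_trans ?_ (le_abs_self _)
    linarith
  · rw [card_lab hN]
    apply mul_le_mul_of_nonneg_left _ (by norm_num)
    apply Real.exp_le_exp.2
    apply neg_le_neg
    have e3 : ((n : ℝ) / (4 * (Λ : ℝ) ^ 12)) ^ 2 / (2 * (4 * (n : ℝ) * 6 ^ 2)) =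
        (n : ℝ) / (4608 * (Λ : ℝ) ^ 24) := by
      field_simp
      norm_num
    rw [e3]
    apply div_le_div_of_nonneg_left hn0.le (by positivity)
    calc 4608 * (Λ : ℝ) ^ 24 ≤ (Λ : ℝ) ^ 3 * (Λ : ℝ) ^ 24 := by
          apply mul_le_mul_of_nonneg_right _ (by positivity)
          calc (4608 : ℝ) ≤ 30 ^ 3 := by norm_num
            _ ≤ (Λ : ℝ) ^ 3 := pow_le_pow_left₀ (by norm_num) hL 3
      _ = (Λ : ℝ) ^ 27 := by rw [← pow_add]
      _ ≤ (Λ : ℝ) ^ 200 := pow_le_pow_right₀ (by linarith) (by norm_num)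

end Pool.Agent.NQ
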