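import Pool.Agent.NQ.RZm
import Pool.Agent.NQ.RCon

/-!
# NQ-RTot: total mass after reserving diagonals

Plan. As in `RRow` with `A = board n`, `c = gam * W`, `J1 = ∅`, `J0 e = {(0, ln 2 e), (1, ln 3 e)}`:
mean `(1 - Λ^(-29)) ∑ W ≥ n (1 - Λ^(-28) - Λ^(-29))`. The label `(0, s)` occurs for the squares of one
diagonal, whose `W`-mass is at most `1`, so `b = 2`; `t = n Λ^(-29)`, exponent
`Λ^(-58) n²/(2·4n·4) = n/(32 Λ^58)`.
-/

namespace Pool.Agent.NQ

open Finset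
open Pool.Agent.PGr (Pr Ex)

/-- the labels of the diagonals of a square -/
private noncomputable def rtJ (N : ℕ) (e : ℤ × ℤ) : Finset (Fin 2 × ZMod N) :=
  open Classical in {(0, ((ln 2 e : ℤ) : ZMod N)), (1, ((ln 3 e : ℤ) : ZMod N))}

private theorem rt_mem {N : ℕ} {e : ℤ × ℤ} {i : Fin 2 × ZMod N} :
    i ∈ rtJ N e ↔ i = (0, ((ln 2 e : ℤ) : ZMod N)) ∨ i = (1, ((ln 3 e : ℤ) : ZMod N)) := by
  classical
  unfold rtJ
  rw [mem_insert, mem_singleton]

private theorem rt_card (N : ℕ) (e : ℤ × ℤ) : (rtJ N e).card = 2 := by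
  classical
  unfold rtJ
  rw [card_pair]
  intro h
  have h1 : (0 : Fin 2) = 1 := (Prod.ext_iff.1 h).1
  exact absurd h1 (by decide)

private theorem rt_term {Λ n N q : ℕ} [NeZero q] {W : ℤ × ℤ → ℝ} (x : Lab N q) {e : ℤ × ℤ}
    (he : e ∈ board n) : wres Λ W (rp n x) (rm n x) e =
      open Classical in if (∀ j ∈ (∅ : Finset (Fin 2 × ZMod N)), x j = 0) ∧
        (∀ j ∈ rtJ N e, x j ≠ 0) then gam Λ * W e else 0 := by
  classical
  rw [mem_board] at he
  have h2 : ln 2 e ∈ rp n x ↔ x (0, ((ln 2 e : ℤ) : ZMod N)) = 0 :=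
    mem_rp (by rw [ln_two]; omega) (by rw [ln_two]; omega)
  have h3 : ln 3 e ∈ rm n x ↔ x (1, ((ln 3 e : ℤ) : ZMod N)) = 0 :=
    mem_rm (by rw [ln_three]; omega) (by rw [ln_three]; omega)
  unfold wres
  by_cases hc : ln 2 e ∈ rp n x ∨ ln 3 e ∈ rm n x
  · rw [if_pos hc, if_neg]
    rintro ⟨_, h⟩
    rcases hc with h4 | h4
    · exact h _ (rt_mem.2 (Or.inl rfl)) (h2.1 h4)
    · exact h _ (rt_mem.2 (Or.inr rfl)) (h3.1 h4)
  · rw [if_neg hc, if_pos]
    refine ⟨fun j hj => absurd hj (notMem_empty j), fun j hj => ?_⟩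
    push Not at hc
    rcases rt_mem.1 hj with rfl | rfl
    · exact fun h => hc.1 (h2.2 h)
    · exact fun h => hc.2 (h3.2 h)

private theorem rt_b {Λ n N : ℕ} (hN : N = 2 * n) (hΛ : 30 ≤ Λ) (hn : 0 < n)
    {W : ℤ × ℤ → ℝ} (H : GW Λ n W) (i : Fin 2 × ZMod N)
    (hd : DecidablePred fun e : ℤ × ℤ => i ∈ (∅ : Finset (Fin 2 × ZMod N)) ∪ rtJ N e) :
    ∑ e ∈ (board n).filter (fun e => i ∈ (∅ : Finset (Fin 2 × ZMod N)) ∪ rtJ N e),
      gam Λ * W e ≤ 2 := by
  have hW0 : ∀ e ∈ board n, 0 ≤ W e := fun e he => le_trans (by positivity) (H.lo e he)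
  have hg0 : 0 ≤ gam Λ := le_trans zero_le_one (one_le_gam (by omega))
  have hg2 : gam Λ ≤ 2 := gam_le (by omega)
  have key : ∀ k : Fin 4, (∀ s, dsum n W k s ≤ 1) →
      (∀ e ∈ board n, ∀ f ∈ board n, i ∈ (∅ : Finset (Fin 2 × ZMod N)) ∪ rtJ N e →
        i ∈ (∅ : Finset (Fin 2 × ZMod N)) ∪ rtJ N f → ln k e = ln k f) →
      ∑ e ∈ (board n).filter (fun e => i ∈ (∅ : Finset (Fin 2 × ZMod N)) ∪ rtJ N e),
        gam Λ * W e ≤ 2 := by
    intro k hk hsame
    rcases ((board n).filter (fun e => i ∈ (∅ : Finset (Fin 2 × ZMod N)) ∪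
      rtJ N e)).eq_empty_or_nonempty with h0 | ⟨e0, he0⟩
    · rw [h0, sum_empty]
      norm_num
    · obtain ⟨he1, he2⟩ := mem_filter.1 he0
      rw [← mul_sum]
      have h1 : ∑ e ∈ (board n).filter (fun e => i ∈ (∅ : Finset (Fin 2 × ZMod N)) ∪ rtJ N e),
          W e ≤ dsum n W k (ln k e0) := by
        unfold dsum
        refine sum_le_sum_of_subset_of_nonneg ?_ fun e he _ => hW0 e (mem_filter.1 he).1
        intro e he
        obtain ⟨he3, he4⟩ := mem_filter.1 he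
        exact mem_filter.2 ⟨he3, hsame e he3 e0 he1 he4 he2⟩
      have h2 : 0 ≤ ∑ e ∈ (board n).filter (fun e => i ∈ (∅ : Finset (Fin 2 × ZMod N)) ∪
          rtJ N e), W e := sum_nonneg fun e he => hW0 e (mem_filter.1 he).1
      have h3 := hk (ln k e0)
      calc gam Λ * ∑ e ∈ (board n).filter (fun e => i ∈ (∅ : Finset (Fin 2 × ZMod N)) ∪
          rtJ N e), W e ≤ 2 * 1 := mul_le_mul hg2 (h1.trans h3) h2 (by norm_num)
        _ = 2 := by norm_num
  have hpos : (0 : ℝ) ≤ 1 / (10 * (Λ : ℝ) ^ 2) := by positivity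
  obtain ⟨a, z⟩ := i
  have ha : a = 0 ∨ a = 1 := by
    fin_cases a
    · exact Or.inl rfl
    · exact Or.inr rfl
  have hNn : (N : ℤ) = 2 * n := by rw [hN]; push_cast; ring
  rcases ha with rfl | rfl
  · refine key 2 (fun s => (H.sd s).trans (by linarith)) ?_
    intro e he f hf h1 h2
    rw [empty_union, rt_mem] at h1 h2
    rw [mem_board] at he hf
    have e1 : z = ((ln 2 e : ℤ) : ZMod N) := by
      rcases h1 with h1 | h1
      · exact (Prod.ext_iff.1 h1).2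
      · exact absurd (show (0 : Fin 2) = 1 from (Prod.ext_iff.1 h1).1) (by decide)
    have e2 : z = ((ln 2 f : ℤ) : ZMod N) := by
      rcases h2 with h2 | h2
      · exact (Prod.ext_iff.1 h2).2
      · exact absurd (show (0 : Fin 2) = 1 from (Prod.ext_iff.1 h2).1) (by decide)
    refine (cast_eq (N := N) ?_ ?_).1 (e1.symm.trans e2)
    · rw [ln_two, ln_two, hNn]
      omega
    · rw [ln_two, ln_two, hNn]
      omega
  · refine key 3 (fun s => (H.dd s).trans (by linarith)) ?_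
    intro e he f hf h1 h2
    rw [empty_union, rt_mem] at h1 h2
    rw [mem_board] at he hf
    have e1 : z = ((ln 3 e : ℤ) : ZMod N) := by
      rcases h1 with h1 | h1
      · exact absurd (show (1 : Fin 2) = 0 from (Prod.ext_iff.1 h1).1) (by decide)
      · exact (Prod.ext_iff.1 h1).2
    have e2 : z = ((ln 3 f : ℤ) : ZMod N) := by
      rcases h2 with h2 | h2
      · exact absurd (show (1 : Fin 2) = 0 from (Prod.ext_iff.1 h2).1) (by decide)
      · exact (Prod.ext_iff.1 h2).2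
    refine (cast_eq (N := N) ?_ ?_).1 (e1.symm.trans e2)
    · rw [ln_three, ln_three, hNn]
      omega
    · rw [ln_three, ln_three, hNn]
      omega

theorem pr_tot {Λ n N q : ℕ} [NeZero q] [NeZero N] (hN : N = 2 * n) (hq : q = Λ ^ 3) (hΛ : 30 ≤ Λ)
    (hn : Λ ^ 500 ≤ n) {W : ℤ × ℤ → ℝ} (H : GW Λ n W) :
    Pr (fun x : Lab N q => ∑ e ∈ board n, wres Λ W (rp n x) (rm n x) e <
      (n : ℝ) * (1 - 2 / (Λ : ℝ) ^ 28)) ≤ 2 * Real.exp (-((n : ℝ) / (Λ : ℝ) ^ 200)) := by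
  classical
  have hΛr : (30 : ℝ) ≤ Λ := by exact_mod_cast hΛ
  have hΛ0 : (0 : ℝ) < Λ := by linarith
  have hnp : 0 < n := lt_of_lt_of_le (Nat.pow_pos (by omega)) hn
  have hnr : (0 : ℝ) < n := by exact_mod_cast hnp
  have hg0 : 0 ≤ gam Λ := le_trans zero_le_one (one_le_gam (by omega))
  have hW0 : ∀ e ∈ board n, 0 ≤ W e := fun e he => le_trans (by positivity) (H.lo e he)
  have hpat : ∀ x : Lab N q, ∑ e ∈ board n, wres Λ W (rp n x) (rm n x) e =
      pat (board n) (fun e => gam Λ * W e) (fun _ => (∅ : Finset (Fin 2 × ZMod N)))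
        (fun e => rtJ N e) x := by
    intro x
    unfold pat
    exact sum_congr rfl fun e he => rt_term x he
  have hex : Ex (fun x : Lab N q => pat (board n) (fun e => gam Λ * W e)
      (fun _ => (∅ : Finset (Fin 2 × ZMod N))) (fun e => rtJ N e) x) =
      (1 - 1 / (Λ : ℝ) ^ 29) * ∑ e ∈ board n, W e := by
    rw [ex_pat (board n) (fun e => gam Λ * W e) (fun _ => (∅ : Finset (Fin 2 × ZMod N)))
      (fun e => rtJ N e) (fun _ _ => disjoint_empty_left _), mul_sum]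
    refine sum_congr rfl fun e _ => ?_
    rw [card_empty, pow_zero, one_mul, rt_card, hq]
    push_cast
    unfold gam
    have h1 : (1 - 1 / (Λ : ℝ) ^ 3) ≠ 0 := by
      have h2 : 1 / (Λ : ℝ) ^ 3 < 1 := by
        rw [div_lt_one (by positivity)]
        exact one_lt_pow₀ (by linarith) (by norm_num)
      linarith
    have h3 : ∀ a b w : ℝ, a ≠ 0 → b / a ^ 2 * w * a ^ 2 = b * w := by
      intro a b w ha
      field_simp
    exact h3 _ _ _ h1
  have htail := tail_pat (q := q) (board n) (fun e => gam Λ * W e)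
    (fun e he => mul_nonneg hg0 (hW0 e he)) (fun _ => (∅ : Finset (Fin 2 × ZMod N)))
    (fun e => rtJ N e) (b := 2) (by norm_num)
    (fun i => rt_b hN hΛ hnp H i _) (t := (n : ℝ) / (Λ : ℝ) ^ 29) (by positivity)
  rw [hex, card_lab hN] at htail
  refine le_trans ?_ (htail.trans ?_)
  · refine PGr.Pr_mono fun x hx => ?_
    rw [hpat x] at hx
    rw [abs_sub_comm]
    refine le_trans ?_ (le_abs_self _)
    have h1 := H.tot
    set T := ∑ e ∈ board n, W e with hT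
    have h29 : (0 : ℝ) < 1 / (Λ : ℝ) ^ 29 := by positivity
    have h29' : 1 / (Λ : ℝ) ^ 29 ≤ 1 := by
      rw [div_le_one (by positivity)]
      exact one_le_pow₀ (by linarith)
    have h28 : 1 / (Λ : ℝ) ^ 28 = Λ * (1 / (Λ : ℝ) ^ 29) := by
      field_simp
    set y := 1 / (Λ : ℝ) ^ 29 with hy
    have e1 : (n : ℝ) / (Λ : ℝ) ^ 29 = n * y := by rw [hy]; ring
    have e2 : 2 / (Λ : ℝ) ^ 28 = 2 * (Λ * y) := by
      rw [← h28]
      ring
    rw [e1]
    rw [e2] at hx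
    rw [h28] at h1
    have h3 : (1 - y) * (n * (1 - Λ * y)) ≤ (1 - y) * T :=
      mul_le_mul_of_nonneg_left h1 (by linarith)
    have h4 : 30 * y ≤ Λ * y := mul_le_mul_of_nonneg_right hΛr h29.le
    have h5 : 0 ≤ y * (Λ * y) := by positivity
    have h6 : (n : ℝ) * (2 * y) ≤ n * (Λ * y) := mul_le_mul_of_nonneg_left (by linarith) hnr.le
    have h7 : 0 ≤ (n : ℝ) * (y * (Λ * y)) := by positivity
    have h8 : (1 - y) * (n * (1 - Λ * y)) = n - n * (Λ * y) - n * y + n * (y * (Λ * y)) := by ring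
    have h9 : (n : ℝ) * (1 - 2 * (Λ * y)) = n - 2 * (n * (Λ * y)) := by ring
    have h10 : (n : ℝ) * (2 * y) = 2 * (n * y) := by ring
    linarith
  · have h1 : (n : ℝ) / (Λ : ℝ) ^ 200 ≤
        ((n : ℝ) / (Λ : ℝ) ^ 29) ^ 2 / (2 * ((4 * (n : ℝ)) * 2 ^ 2)) := by
      have h2 : ((n : ℝ) / (Λ : ℝ) ^ 29) ^ 2 / (2 * ((4 * (n : ℝ)) * 2 ^ 2)) =
          n / (32 * (Λ : ℝ) ^ 58) := by
        field_simp
        ring
      rw [h2]
      refine div_le_div_of_nonneg_left hnr.le (by positivity) ?_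
      have h3 : (32 : ℝ) ≤ (Λ : ℝ) ^ 142 := by
        calc (32 : ℝ) ≤ (Λ : ℝ) ^ 2 := by nlinarith
          _ ≤ (Λ : ℝ) ^ 142 := pow_le_pow_right₀ (by linarith) (by norm_num)
      calc 32 * (Λ : ℝ) ^ 58 ≤ (Λ : ℝ) ^ 142 * (Λ : ℝ) ^ 58 :=
            mul_le_mul_of_nonneg_right h3 (by positivity)
        _ = (Λ : ℝ) ^ 200 := by rw [← pow_add]
    have h4 := Real.exp_le_exp.2 (neg_le_neg h1)
    linarith

end Pool.Agent.NQ
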