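import Pool.Agent.NQ.RRow
import Pool.Agent.NQ.RDiag
import Pool.Agent.NQ.RTot
import Pool.Agent.NQ.RRc

/-!
# NQ-RUni: existence of good reserved diagonals

Plan. Union bound (`Pool.Agent.PGr.Pr_or_le`, or sum of indicators and `Ex_sum`) over the rows
`s ∈ [0,n)`, columns, sum diagonals `s ∈ [0,2n)`, difference diagonals `s ∈ (-n,n)` (for other `s` the
sums are empty and the inequalities hold), the total, and the pairs `(r,c)`: at most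
`n² + 6n + 1 ≤ 8 n²` events of probability `≤ 2 exp(-n/Λ^200)` each. Since `exp z ≥ z^5/120`
(`Real.pow_div_factorial_le_exp` or `Real.exp` lower bounds) and `n² ≥ Λ^1000`,
`exp (n/Λ^200) ≥ n^5/(120 Λ^1000) ≥ n³/120 > 16 n²`. So some `x` avoids all bad events; `q = Λ^3`.
-/

namespace Pool.Agent.NQ

open Finset

private theorem dsum_zero_out {n : ℕ} (V : ℤ × ℤ → ℝ) (k : Fin 4) (s : ℤ)
    (h : ∀ e ∈ board n, ln k e ≠ s) : dsum n V k s = 0 := by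
  unfold dsum
  rw [filter_eq_empty_iff.2 (fun e he => h e he), sum_empty]

private theorem num_lt {Λ n : ℕ} (hΛ : 30 ≤ Λ) (hn : Λ ^ 500 ≤ n) :
    ((n : ℝ) ^ 2 + 6 * n + 1) * (2 * Real.exp (-((n : ℝ) / (Λ : ℝ) ^ 200))) < 1 := by
  have hL : (30 : ℝ) ≤ (Λ : ℝ) := by exact_mod_cast hΛ
  have hL0 : (0 : ℝ) < (Λ : ℝ) := by linarith
  have hnR : (Λ : ℝ) ^ 500 ≤ (n : ℝ) := by exact_mod_cast hn
  have hn0 : (0 : ℝ) < (n : ℝ) := lt_of_lt_of_le (by positivity) hnR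
  have hnbig : (2000 : ℝ) ≤ (n : ℝ) := by
    refine le_trans ?_ hnR
    calc (2000 : ℝ) ≤ 30 ^ 3 := by norm_num
      _ ≤ (Λ : ℝ) ^ 3 := pow_le_pow_left₀ (by norm_num) hL 3
      _ ≤ (Λ : ℝ) ^ 500 := pow_le_pow_right₀ (by linarith) (by norm_num)
  set z : ℝ := (n : ℝ) / (Λ : ℝ) ^ 200 with hz
  have hz0 : 0 ≤ z := by positivity
  have h1 : z ^ 5 / (Nat.factorial 5 : ℝ) ≤ Real.exp z := Real.pow_div_factorial_le_exp z hz0 5
  have h5 : (Nat.factorial 5 : ℝ) = 120 := by norm_num [Nat.factorial]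
  rw [h5] at h1
  have h2 : (n : ℝ) ^ 3 ≤ z ^ 5 := by
    rw [hz, div_pow, ← pow_mul, le_div_iff₀ (by positivity)]
    have h3 : (Λ : ℝ) ^ (200 * 5) ≤ (n : ℝ) ^ 2 := by
      have : ((Λ : ℝ) ^ 500) ^ 2 ≤ (n : ℝ) ^ 2 := pow_le_pow_left₀ (by positivity) hnR 2
      rw [← pow_mul] at this
      exact this
    calc (n : ℝ) ^ 3 * (Λ : ℝ) ^ (200 * 5) ≤ (n : ℝ) ^ 3 * (n : ℝ) ^ 2 :=
          mul_le_mul_of_nonneg_left h3 (by positivity)
      _ = (n : ℝ) ^ 5 := by ring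
  have h4 : 2 * ((n : ℝ) ^ 2 + 6 * n + 1) < Real.exp z := by
    have h6 : (n : ℝ) ^ 3 / 120 ≤ Real.exp z := by linarith
    have h7 : 2 * ((n : ℝ) ^ 2 + 6 * n + 1) < (n : ℝ) ^ 3 / 120 := by nlinarith
    linarith
  have h8 : 0 < Real.exp z := Real.exp_pos z
  rw [Real.exp_neg]
  rw [show ((n : ℝ) ^ 2 + 6 * n + 1) * (2 * (Real.exp z)⁻¹) =
    (2 * ((n : ℝ) ^ 2 + 6 * n + 1)) / Real.exp z by field_simp]
  rwa [div_lt_one h8]

theorem exists_res {Λ n : ℕ} (hΛ : 30 ≤ Λ) (hn : Λ ^ 500 ≤ n) {W : ℤ × ℤ → ℝ} (H : GW Λ n W) :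
    ∃ Rp Rm : Finset ℤ, RW Λ n W Rp Rm := by
  classical
  have hnpos : 0 < n := lt_of_lt_of_le (by positivity) hn
  have : NeZero (Λ ^ 3) := ⟨by positivity⟩
  have : NeZero (2 * n) := ⟨by omega⟩
  have hL0 : (0 : ℝ) < (Λ : ℝ) := by exact_mod_cast (by omega : 0 < Λ)
  set N : ℕ := 2 * n with hN
  set q : ℕ := Λ ^ 3 with hq
  set ε : ℝ := 2 * Real.exp (-((n : ℝ) / (Λ : ℝ) ^ 200)) with hε
  have hε0 : 0 ≤ ε := by positivity
  let Brow : ℤ → Lab N q → Prop := fun s x => 1 < dsum n (wres Λ W (rp n x) (rm n x)) 0 s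
  let Bcol : ℤ → Lab N q → Prop := fun s x => 1 < dsum n (wres Λ W (rp n x) (rm n x)) 1 s
  let Bsd : ℤ → Lab N q → Prop := fun s x => dsum n W 2 s + 3 / (Λ : ℝ) ^ 3 <
      dsum n (wres Λ W (rp n x) (rm n x)) 2 s
  let Bdd : ℤ → Lab N q → Prop := fun s x => dsum n W 3 s + 3 / (Λ : ℝ) ^ 3 <
      dsum n (wres Λ W (rp n x) (rm n x)) 3 s
  let Btot : Lab N q → Prop := fun x => ∑ e ∈ board n, wres Λ W (rp n x) (rm n x) e <
      (n : ℝ) * (1 - 2 / (Λ : ℝ) ^ 28)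
  let Brc : ℤ × ℤ → Lab N q → Prop := fun p x =>
      ∑ e ∈ Frc n (rp n x) (rm n x) p.1 p.2, wres Λ W (rp n x) (rm n x) e <
      (n : ℝ) / (4 * (Λ : ℝ) ^ 12)
  let I1 : Finset ℤ := Finset.Ico (0 : ℤ) n
  let I2 : Finset ℤ := Finset.Ico (0 : ℤ) (2 * n)
  let I3 : Finset ℤ := Finset.Ioo (-(n : ℤ)) n
  have c1 : (I1.card : ℝ) = n := by
    simp only [I1, Int.card_Ico]; simp
  have c2 : (I2.card : ℝ) = 2 * n := by
    simp only [I2, Int.card_Ico]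
    have : ((2 * (n : ℤ) - 0).toNat) = 2 * n := by omega
    rw [this]; push_cast; ring
  have c3 : (I3.card : ℝ) ≤ 2 * n := by
    simp only [I3, Int.card_Ioo]
    have : (((n : ℤ) - -(n : ℤ) - 1).toNat) ≤ 2 * n := by omega
    exact_mod_cast this
  have hun : ∀ {J : Type} (s : Finset J) (p : J → Lab N q → Prop),
      (∀ j ∈ s, Pool.Agent.PGr.Pr (p j) ≤ ε) →
      Pool.Agent.PGr.Pr (fun x => ∃ j ∈ s, p j x) ≤ s.card * ε := by
    intro J s p hp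
    refine (Pool.Agent.PGr.Pr_exists_le s p).trans ?_
    calc _ ≤ ∑ j ∈ s, ε := sum_le_sum hp
      _ = s.card * ε := by rw [sum_const, nsmul_eq_mul]
  have p1 : Pool.Agent.PGr.Pr (fun x => ∃ s ∈ I1, Brow s x) ≤ n * ε := by
    rw [← c1]; exact hun I1 Brow (fun s _ => pr_row hN hq hΛ hn H s)
  have p2 : Pool.Agent.PGr.Pr (fun x => ∃ s ∈ I1, Bcol s x) ≤ n * ε := by
    rw [← c1]; exact hun I1 Bcol (fun s _ => pr_col hN hq hΛ hn H s)
  have p3 : Pool.Agent.PGr.Pr (fun x => ∃ s ∈ I2, Bsd s x) ≤ (2 * n) * ε := by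
    rw [← c2]; exact hun I2 Bsd (fun s _ => pr_sd hN hq hΛ hn H s)
  have p4 : Pool.Agent.PGr.Pr (fun x => ∃ s ∈ I3, Bdd s x) ≤ (2 * n) * ε :=
    (hun I3 Bdd (fun s _ => pr_dd hN hq hΛ hn H s)).trans (mul_le_mul_of_nonneg_right c3 hε0)
  have p5 : Pool.Agent.PGr.Pr Btot ≤ ε := pr_tot hN hq hΛ hn H
  have p6 : Pool.Agent.PGr.Pr (fun x => ∃ p ∈ I1 ×ˢ I1, Brc p x) ≤ (n * n) * ε := by
    have h := hun (I1 ×ˢ I1) Brc (fun p hp => by
      rw [mem_product] at hp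
      exact pr_rc hN hq hΛ hn H hp.1 hp.2)
    rw [card_product] at h
    push_cast at h
    rwa [c1] at h
  have q5 := Pool.Agent.PGr.Pr_or_le Btot (fun x => ∃ p ∈ I1 ×ˢ I1, Brc p x)
  have q4 := Pool.Agent.PGr.Pr_or_le (fun x => ∃ s ∈ I3, Bdd s x)
    (fun x => Btot x ∨ ∃ p ∈ I1 ×ˢ I1, Brc p x)
  have q3 := Pool.Agent.PGr.Pr_or_le (fun x => ∃ s ∈ I2, Bsd s x)
    (fun x => (∃ s ∈ I3, Bdd s x) ∨ Btot x ∨ ∃ p ∈ I1 ×ˢ I1, Brc p x)
  have q2 := Pool.Agent.PGr.Pr_or_le (fun x => ∃ s ∈ I1, Bcol s x)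
    (fun x => (∃ s ∈ I2, Bsd s x) ∨ (∃ s ∈ I3, Bdd s x) ∨ Btot x ∨ ∃ p ∈ I1 ×ˢ I1, Brc p x)
  have q1 := Pool.Agent.PGr.Pr_or_le (fun x => ∃ s ∈ I1, Brow s x)
    (fun x => (∃ s ∈ I1, Bcol s x) ∨ (∃ s ∈ I2, Bsd s x) ∨ (∃ s ∈ I3, Bdd s x) ∨ Btot x ∨
      ∃ p ∈ I1 ×ˢ I1, Brc p x)
  have hnum := num_lt hΛ hn
  rw [← hε] at hnum
  have hlt : Pool.Agent.PGr.Pr (fun x => (∃ s ∈ I1, Brow s x) ∨ (∃ s ∈ I1, Bcol s x) ∨
      (∃ s ∈ I2, Bsd s x) ∨ (∃ s ∈ I3, Bdd s x) ∨ Btot x ∨ ∃ p ∈ I1 ×ˢ I1, Brc p x) < 1 := by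
    have : ((n : ℝ) ^ 2 + 6 * n + 1) * ε = n * ε + (n * ε + ((2 * n) * ε + ((2 * n) * ε +
      (ε + (n * n) * ε)))) := by ring
    linarith
  obtain ⟨x, hx⟩ := Pool.Agent.PGr.exists_not_of_Pr_lt_one hlt
  simp only [not_or, not_exists, not_and] at hx
  obtain ⟨x1, x2, x3, x4, x5, x6⟩ := hx
  refine ⟨rp n x, rm n x, ?_, ?_, ?_, ?_, ?_, ?_⟩
  · intro s
    by_cases hs : s ∈ I1
    · exact not_lt.1 (x1 s hs)
    · rw [dsum_zero_out _ _ _ (fun e he h => hs (by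
        have := mem_board.1 he
        rw [ln_zero] at h
        simp only [I1, mem_Ico]; omega))]
      exact zero_le_one
  · intro s
    by_cases hs : s ∈ I1
    · exact not_lt.1 (x2 s hs)
    · rw [dsum_zero_out _ _ _ (fun e he h => hs (by
        have := mem_board.1 he
        rw [ln_one] at h
        simp only [I1, mem_Ico]; omega))]
      exact zero_le_one
  · intro s
    by_cases hs : s ∈ I2
    · exact not_lt.1 (x3 s hs)
    · have hout : ∀ e ∈ board n, ln 2 e ≠ s := fun e he h => hs (by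
        have := mem_board.1 he
        rw [ln_two] at h
        simp only [I2, mem_Ico]; omega)
      rw [dsum_zero_out _ _ _ hout, dsum_zero_out _ _ _ hout]
      positivity
  · intro s
    by_cases hs : s ∈ I3
    · exact not_lt.1 (x4 s hs)
    · have hout : ∀ e ∈ board n, ln 3 e ≠ s := fun e he h => hs (by
        have := mem_board.1 he
        rw [ln_three] at h
        simp only [I3, mem_Ioo]; omega)
      rw [dsum_zero_out _ _ _ hout, dsum_zero_out _ _ _ hout]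
      positivity
  · exact not_lt.1 x5
  · intro r hr c hc
    exact not_lt.1 (x6 (r, c) (mem_product.2 ⟨hr, hc⟩))

end Pool.Agent.NQ
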