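import Pool.Agent.NQ.CEnc
import Pool.Agent.NQ.CMain
import Pool.Agent.NQ.RUni
import Pool.Agent.NQ.REnt

/-!
# NQ-Lower: the lower bound for the number of configurations

Plan. `exists_res`, `ent_main`, `ent_up`, `ent_res`, `phi_res`; `log (Q + 1) ≤ log Q + log 2`
(`Q ≥ 1`), `log 2 ≤ n/Λ`.
-/

namespace Pool.Agent.NQ

open Finset

theorem lower : ∃ Λ0 C : ℕ, ∀ Λ n : ℕ, Λ0 ≤ Λ → Λ ^ 500 ≤ n → n ≤ Λ ^ 1001 →
    ∀ W : ℤ × ℤ → ℝ, GW Λ n W →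
      0 < Q n ∧ F n W - n - C * n / Λ ≤ Real.log (Q n) := by
  obtain ⟨L1, h1⟩ := ent_up
  obtain ⟨L2, h2⟩ := ent_main
  obtain ⟨L3, h3⟩ := ent_res
  obtain ⟨L4, h4⟩ := phi_res
  refine ⟨L1 + L2 + L3 + L4 + 30, 5015, ?_⟩
  intro Λ n hΛ hn hn2 W HG
  obtain ⟨Rp, Rm, HR⟩ := exists_res (by omega) hn HG
  obtain ⟨hQ, k1⟩ := h1 Λ n (by omega) hn hn2 W HG Rp Rm HR
  have k2 := h2 Λ n (by omega) hn hn2 W HG Rp Rm HR
  have k3 := h3 Λ n (by omega) hn hn2 W HG Rp Rm HR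
  have k4 := h4 Λ n (by omega) W HG
  refine ⟨hQ, ?_⟩
  have hL0 : (0 : ℝ) < (Λ : ℝ) := by
    have : 0 < Λ := by omega
    exact_mod_cast this
  have hLn : Λ ≤ n := by
    refine le_trans ?_ hn
    exact Nat.le_self_pow (by norm_num) Λ
  have hnL : 1 ≤ (n : ℝ) / (Λ : ℝ) := by
    rw [one_le_div hL0]
    exact_mod_cast hLn
  have hQr : (1 : ℝ) ≤ (Q n : ℝ) := by exact_mod_cast hQ
  have hlog : Real.log ((Q n : ℝ) + 1) ≤ Real.log (Q n : ℝ) + Real.log 2 := by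
    rw [← Real.log_mul (by positivity) (by norm_num)]
    refine Real.log_le_log (by positivity) ?_
    linarith
  have hlog2 : Real.log 2 ≤ 1 := by
    have := Real.log_two_lt_d9
    linarith
  have e1 : (5002 : ℝ) * n / Λ = 5002 * (n / Λ) := by ring
  have e2 : (10 : ℝ) * n / Λ = 10 * (n / Λ) := by ring
  have e3 : ((5015 : ℕ) : ℝ) * n / Λ = 5015 * (n / Λ) := by push_cast; ring
  rw [e1] at k1
  rw [e2] at k2
  rw [e3]
  unfold F
  linarith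

end Pool.Agent.NQ
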