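import Pool.Agent.NQ.Nice
import Pool.Agent.NQ.APhi

/-!
# NQ-Mix: mixing with the nice weights

`W' = (1 - Λ⁻²) W + Λ⁻² wn`.
-/

namespace Pool.Agent.NQ

open Finset

/-- The mixed weights. -/
noncomputable def wmix (Λ n : ℕ) (W : ℤ × ℤ → ℝ) (e : ℤ × ℤ) : ℝ :=
  (1 - 1 / (Λ : ℝ) ^ 2) * W e + 1 / (Λ : ℝ) ^ 2 * wn n e

private theorem dsum_wmix (Λ n : ℕ) (W : ℤ × ℤ → ℝ) (k : Fin 4) (s : ℤ) :
    dsum n (wmix Λ n W) k s =
      (1 - 1 / (Λ : ℝ) ^ 2) * dsum n W k s + 1 / (Λ : ℝ) ^ 2 * dsum n (wn n) k s := by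
  unfold dsum wmix
  rw [sum_add_distrib, mul_sum, mul_sum]

private theorem eta_bounds {Λ : ℕ} (hΛ : 20 ≤ Λ) :
    0 < 1 / (Λ : ℝ) ^ 2 ∧ 1 / (Λ : ℝ) ^ 2 ≤ 1 / 400 ∧ (400 : ℝ) ≤ (Λ : ℝ) ^ 2 := by
  have h : (20 : ℝ) ≤ Λ := by exact_mod_cast hΛ
  have h2 : (400 : ℝ) ≤ (Λ : ℝ) ^ 2 := by nlinarith
  exact ⟨by positivity, one_div_le_one_div_of_le (by norm_num) h2, h2⟩

private theorem n_bounds {Λ n : ℕ} (hΛ : 20 ≤ Λ) (hn : Λ ^ 500 ≤ n) :
    (20 : ℝ) ≤ Λ ∧ (Λ : ℝ) ^ 29 ≤ n ∧ (400 : ℝ) ≤ n ∧ 10 ≤ n := by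
  have h : (20 : ℝ) ≤ Λ := by exact_mod_cast hΛ
  have h1 : (Λ : ℝ) ^ 500 ≤ n := by exact_mod_cast hn
  have h2 : (Λ : ℝ) ^ 29 ≤ (Λ : ℝ) ^ 500 := pow_le_pow_right₀ (by linarith) (by norm_num)
  have h3 : (Λ : ℝ) ^ 2 ≤ (Λ : ℝ) ^ 29 := pow_le_pow_right₀ (by linarith) (by norm_num)
  have h4 := (eta_bounds hΛ).2.2
  have h5 : (400 : ℝ) ≤ n := by linarith
  refine ⟨h, h2.trans h1, h5, ?_⟩
  have : (10 : ℝ) ≤ n := by linarith
  exact_mod_cast this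

private theorem two_le_div {Λ n : ℕ} (hΛ : 20 ≤ Λ) (hn : Λ ^ 500 ≤ n) :
    10 * ((n : ℝ) / (Λ : ℝ) ^ 29) + 2 ≤ (n : ℝ) / (Λ : ℝ) ^ 28 ∧ 1 ≤ (n : ℝ) / (Λ : ℝ) ^ 29 := by
  obtain ⟨b1, b2, b3, b4⟩ := n_bounds hΛ hn
  have p : (0 : ℝ) < (Λ : ℝ) ^ 29 := by positivity
  have h1 : 1 ≤ (n : ℝ) / (Λ : ℝ) ^ 29 := by
    rw [le_div_iff₀ p, one_mul]; exact b2
  have h2 : (n : ℝ) / (Λ : ℝ) ^ 28 = Λ * ((n : ℝ) / (Λ : ℝ) ^ 29) := by
    have : (Λ : ℝ) ≠ 0 := by positivity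
    field_simp
  refine ⟨?_, h1⟩
  rw [h2]
  have h3 : 20 * ((n : ℝ) / (Λ : ℝ) ^ 29) ≤ Λ * ((n : ℝ) / (Λ : ℝ) ^ 29) :=
    mul_le_mul_of_nonneg_right b1 (by linarith)
  linarith

theorem mix_GW {Λ n : ℕ} (hΛ : 20 ≤ Λ) (hn : Λ ^ 500 ≤ n) {W : ℤ × ℤ → ℝ}
    (h0 : ∀ e, 0 ≤ W e) (h1 : ∀ e, W e ≤ 4 * (Λ : ℝ) ^ 58 / n) (hd : ∀ k s, dsum n W k s ≤ 1)
    (ht : (n : ℝ) * (1 - 10 / (Λ : ℝ) ^ 29) ≤ ∑ e ∈ board n, W e) : GW Λ n (wmix Λ n W) := by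
  obtain ⟨b1, b2, b3, b4⟩ := n_bounds hΛ hn
  obtain ⟨e1, e2, e3⟩ := eta_bounds hΛ
  have n0 : (0 : ℝ) < n := by linarith
  have L0 : (0 : ℝ) < Λ := by linarith
  set η : ℝ := 1 / (Λ : ℝ) ^ 2 with hη
  have hdd : ∀ k s, ∀ c : ℝ, dsum n (wn n) k s ≤ c →
      dsum n (wmix Λ n W) k s ≤ (1 - η) + η * c := by
    intro k s c hc
    rw [dsum_wmix]
    have h2 : (1 - η) * dsum n W k s ≤ (1 - η) * 1 :=
      mul_le_mul_of_nonneg_left (hd k s) (by linarith)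
    have h3 : η * dsum n (wn n) k s ≤ η * c := mul_le_mul_of_nonneg_left hc e1.le
    rw [← hη]
    linarith
  have hη10 : (1 - η) + η * (9 / 10) = 1 - 1 / (10 * (Λ : ℝ) ^ 2) := by
    rw [hη]; field_simp; ring
  constructor
  · intro e _
    have h2 : 0 ≤ (1 - η) * W e := mul_nonneg (by linarith) (h0 e)
    have h3 : η * (1 / (2 * (n : ℝ))) ≤ η * wn n e := mul_le_mul_of_nonneg_left (wn_lo b4 e) e1.le
    have h4 : 1 / (4 * (Λ : ℝ) ^ 2 * n) ≤ η * (1 / (2 * (n : ℝ))) := by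
      have : η * (1 / (2 * (n : ℝ))) = 1 / (2 * (Λ : ℝ) ^ 2 * n) := by
        rw [hη]; field_simp
      rw [this]
      refine one_div_le_one_div_of_le (by positivity) ?_
      have : 0 < (Λ : ℝ) ^ 2 * n := by positivity
      linarith
    unfold wmix
    rw [← hη]
    linarith
  · intro e _
    have h2 : (1 - η) * W e ≤ 4 * (Λ : ℝ) ^ 58 / n := by
      have : (1 - η) * W e ≤ 1 * W e := mul_le_mul_of_nonneg_right (by linarith) (h0 e)
      linarith [h1 e]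
    have h3 : η * wn n e ≤ 2 / (n : ℝ) := by
      have h5 : 0 ≤ wn n e := le_trans (by positivity) (wn_lo b4 e)
      have : η * wn n e ≤ 1 * wn n e := mul_le_mul_of_nonneg_right (by linarith) h5
      linarith [wn_hi b4 e]
    have h4 : 4 * (Λ : ℝ) ^ 58 / n + 2 / (n : ℝ) ≤ (Λ : ℝ) ^ 60 / n := by
      rw [← add_div]
      refine div_le_div_of_nonneg_right ?_ n0.le
      have h5 : (Λ : ℝ) ^ 60 = (Λ : ℝ) ^ 2 * (Λ : ℝ) ^ 58 := by ring
      have h6 : (1 : ℝ) ≤ (Λ : ℝ) ^ 58 := one_le_pow₀ (by linarith)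
      have h7 : 400 * (Λ : ℝ) ^ 58 ≤ (Λ : ℝ) ^ 2 * (Λ : ℝ) ^ 58 :=
        mul_le_mul_of_nonneg_right e3 (by positivity)
      rw [h5]
      linarith
    unfold wmix
    rw [← hη]
    linarith
  · intro s
    have := hdd 0 s 1 (wn_row b4 s)
    linarith
  · intro s
    have := hdd 1 s 1 (wn_col b4 s)
    linarith
  · intro s
    have := hdd 2 s _ (wn_sd b4 s)
    rwa [hη10] at this
  · intro s
    have := hdd 3 s _ (wn_dd b4 s)
    rwa [hη10] at this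
  · obtain ⟨c1, c2⟩ := two_le_div hΛ hn
    have h2 : ∑ e ∈ board n, wmix Λ n W e =
        (1 - η) * ∑ e ∈ board n, W e + η * ∑ e ∈ board n, wn n e := by
      unfold wmix
      rw [sum_add_distrib, mul_sum, mul_sum]
    rw [h2]
    have h3 : (1 - η) * ((n : ℝ) * (1 - 10 / (Λ : ℝ) ^ 29)) ≤ (1 - η) * ∑ e ∈ board n, W e :=
      mul_le_mul_of_nonneg_left ht (by linarith)
    have h4 : η * ((n : ℝ) - 2) ≤ η * ∑ e ∈ board n, wn n e :=
      mul_le_mul_of_nonneg_left (wn_tot b4) e1.le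
    have h5 : (n : ℝ) * (1 - 10 / (Λ : ℝ) ^ 29) = n - 10 * ((n : ℝ) / (Λ : ℝ) ^ 29) := by ring
    have h6 : (n : ℝ) * (1 - 1 / (Λ : ℝ) ^ 28) = n - (n : ℝ) / (Λ : ℝ) ^ 28 := by ring
    rw [h5] at h3
    rw [h6]
    have h7 : (1 - η) * ((n : ℝ) - 10 * ((n : ℝ) / (Λ : ℝ) ^ 29)) =
      n - η * n - 10 * ((n : ℝ) / (Λ : ℝ) ^ 29) + η * (10 * ((n : ℝ) / (Λ : ℝ) ^ 29)) := by ring
    have h8 : 0 ≤ η * (10 * ((n : ℝ) / (Λ : ℝ) ^ 29)) := mul_nonneg e1.le (by linarith)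
    have h9 : η * ((n : ℝ) - 2) = η * n - 2 * η := by ring
    linarith

theorem wn_GW {Λ n : ℕ} (hΛ : 20 ≤ Λ) (hn : Λ ^ 500 ≤ n) : GW Λ n (wn n) := by
  obtain ⟨b1, b2, b3, b4⟩ := n_bounds hΛ hn
  obtain ⟨e1, e2, e3⟩ := eta_bounds hΛ
  have n0 : (0 : ℝ) < n := by linarith
  have L0 : (0 : ℝ) < Λ := by linarith
  have h10 : (9 : ℝ) / 10 ≤ 1 - 1 / (10 * (Λ : ℝ) ^ 2) := by
    have : 1 / (10 * (Λ : ℝ) ^ 2) = (1 / 10) * (1 / (Λ : ℝ) ^ 2) := by ring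
    rw [this]
    linarith
  constructor
  · intro e _
    refine le_trans ?_ (wn_lo b4 e)
    refine one_div_le_one_div_of_le (by positivity) ?_
    have h7 : 400 * (n : ℝ) ≤ (Λ : ℝ) ^ 2 * n := mul_le_mul_of_nonneg_right e3 n0.le
    have h8 : 4 * (Λ : ℝ) ^ 2 * n = 4 * ((Λ : ℝ) ^ 2 * n) := by ring
    rw [h8]
    linarith
  · intro e _
    refine (wn_hi b4 e).trans (div_le_div_of_nonneg_right ?_ n0.le)
    have : (Λ : ℝ) ^ 2 ≤ (Λ : ℝ) ^ 60 := pow_le_pow_right₀ (by linarith) (by norm_num)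
    linarith
  · exact wn_row b4
  · exact wn_col b4
  · exact fun s => (wn_sd b4 s).trans h10
  · exact fun s => (wn_dd b4 s).trans h10
  · obtain ⟨c1, c2⟩ := two_le_div hΛ hn
    have h6 : (n : ℝ) * (1 - 1 / (Λ : ℝ) ^ 28) = n - (n : ℝ) / (Λ : ℝ) ^ 28 := by ring
    rw [h6]
    linarith [wn_tot b4]

private theorem negMulLog_le {x N : ℝ} (hx : 0 ≤ x) (hN : 0 < N) :
    Real.negMulLog x ≤ x * Real.log N + 1 / N - x := by
  rcases hx.eq_or_lt with h | h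
  · rw [← h]
    simp [hN.le]
  · have h1 := Real.log_le_sub_one_of_pos (x := 1 / (N * x)) (by positivity)
    rw [one_div, Real.log_inv, Real.log_mul hN.ne' h.ne'] at h1
    have h2 : x * (-(Real.log N + Real.log x)) ≤ x * ((N * x)⁻¹ - 1) :=
      mul_le_mul_of_nonneg_left h1 h.le
    have h3 : x * ((N * x)⁻¹ - 1) = 1 / N - x := by
      field_simp
    rw [h3] at h2
    unfold Real.negMulLog
    linarith

private theorem mass_le {n : ℕ} {W : ℤ × ℤ → ℝ} (hd : ∀ k s, dsum n W k s ≤ 1) :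
    ∑ e ∈ board n, W e ≤ n := by
  have h1 : ∑ s ∈ Finset.Ico (0 : ℤ) n, dsum n W 0 s = ∑ e ∈ board n, W e := by
    unfold dsum
    refine Finset.sum_fiberwise_of_maps_to ?_ W
    intro e he
    rw [mem_board] at he
    rw [ln_zero, Finset.mem_Ico]
    exact he.1
  rw [← h1]
  refine (Finset.sum_le_sum fun s _ => hd 0 s).trans ?_
  simp

private theorem card_board (n : ℕ) : (board n).card = n * n := by
  unfold board
  rw [Finset.card_product]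
  simp

private theorem dsum_nonneg' {n : ℕ} {W : ℤ × ℤ → ℝ} (h0 : ∀ e, 0 ≤ W e) (k : Fin 4) (s : ℤ) :
    0 ≤ dsum n W k s := by
  unfold dsum
  exact Finset.sum_nonneg fun e _ => h0 e

private theorem F_upper {n : ℕ} (hn : 10 ≤ n) {W : ℤ × ℤ → ℝ}
    (h0 : ∀ e, 0 ≤ W e) (hd : ∀ k s, dsum n W k s ≤ 1) : F n W ≤ n * Real.log n := by
  have n10 : (10 : ℝ) ≤ n := by exact_mod_cast hn
  have n0 : (0 : ℝ) < n := by linarith
  have hlog : 1 ≤ Real.log n := by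
    rw [Real.le_log_iff_exp_le n0]
    have := Real.exp_one_lt_d9
    linarith
  have hE : Ent n W ≤ n * Real.log n := by
    unfold Ent
    have h1 : ∑ e ∈ board n, Real.negMulLog (W e) ≤
        ∑ e ∈ board n, (W e * Real.log n + 1 / (n : ℝ) - W e) :=
      Finset.sum_le_sum fun e _ => negMulLog_le (h0 e) n0
    refine h1.trans ?_
    have h2 : ∑ e ∈ board n, (W e * Real.log n + 1 / (n : ℝ) - W e) =
        (∑ e ∈ board n, W e) * (Real.log n - 1) + n := by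
      rw [Finset.sum_sub_distrib, Finset.sum_add_distrib, Finset.sum_const, card_board, ← Finset.sum_mul]
      rw [nsmul_eq_mul]
      push_cast
      field_simp
      ring
    rw [h2]
    have h3 : (∑ e ∈ board n, W e) * (Real.log n - 1) ≤ n * (Real.log n - 1) :=
      mul_le_mul_of_nonneg_right (mass_le hd) (by linarith)
    linarith
  have hD : 0 ≤ Dg n W := by
    unfold Dg
    exact add_nonneg (Finset.sum_nonneg fun s _ => phi_nonneg (dsum_nonneg' h0 _ _) (hd _ _))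
      (Finset.sum_nonneg fun s _ => phi_nonneg (dsum_nonneg' h0 _ _) (hd _ _))
  unfold F
  linarith

private theorem wn_nonneg' {n : ℕ} (hn : 10 ≤ n) (e : ℤ × ℤ) : 0 ≤ wn n e :=
  le_trans (by positivity) (wn_lo hn e)

private theorem F_wn_lower {n : ℕ} (hn : 10 ≤ n) : -(4 * (n : ℝ)) ≤ F n (wn n) := by
  have n10 : (10 : ℝ) ≤ n := by exact_mod_cast hn
  have n0 : (0 : ℝ) < n := by linarith
  have hE : 0 ≤ Ent n (wn n) := by
    unfold Ent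
    refine Finset.sum_nonneg fun e _ => Real.negMulLog_nonneg (wn_nonneg' hn e) ?_
    refine (wn_hi hn e).trans ?_
    rw [div_le_one n0]
    linarith
  have hD : Dg n (wn n) ≤ 4 * n := by
    unfold Dg
    have h1 : ∑ s ∈ Finset.Ico (0 : ℤ) (2 * n), phi (dsum n (wn n) 2 s) ≤
        ∑ s ∈ Finset.Ico (0 : ℤ) (2 * n), (1 : ℝ) :=
      Finset.sum_le_sum fun s _ => phi_le_one (dsum_nonneg' (wn_nonneg' hn) _ _)
        ((wn_sd hn s).trans (by norm_num))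
    have h2 : ∑ s ∈ Finset.Ioo (-(n : ℤ)) n, phi (dsum n (wn n) 3 s) ≤
        ∑ s ∈ Finset.Ioo (-(n : ℤ)) n, (1 : ℝ) :=
      Finset.sum_le_sum fun s _ => phi_le_one (dsum_nonneg' (wn_nonneg' hn) _ _)
        ((wn_dd hn s).trans (by norm_num))
    have h3 : ∑ s ∈ Finset.Ico (0 : ℤ) (2 * n), (1 : ℝ) = 2 * n := by
      rw [Finset.sum_const, Int.card_Ico, nsmul_eq_mul, mul_one]
      have : ((2 * (n : ℤ) - 0).toNat) = 2 * n := by omega
      rw [this]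
      push_cast
      ring
    have h4 : ∑ s ∈ Finset.Ioo (-(n : ℤ)) n, (1 : ℝ) ≤ 2 * n := by
      rw [Finset.sum_const, Int.card_Ioo, nsmul_eq_mul, mul_one]
      have : (((n : ℤ) - -(n : ℤ) - 1).toNat) ≤ 2 * n := by omega
      exact_mod_cast this
    linarith
  unfold F
  linarith

theorem F_mix {Λ n : ℕ} (hΛ : 20 ≤ Λ) (hn : Λ ^ 500 ≤ n) {W : ℤ × ℤ → ℝ}
    (h0 : ∀ e, 0 ≤ W e) (hd : ∀ k s, dsum n W k s ≤ 1) :
    F n W - (n * Real.log n + 4 * n) / (Λ : ℝ) ^ 2 ≤ F n (wmix Λ n W) := by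
  obtain ⟨b1, b2, b3, b4⟩ := n_bounds hΛ hn
  obtain ⟨e1, e2, e3⟩ := eta_bounds hΛ
  have n0 : (0 : ℝ) < n := by linarith
  set η : ℝ := 1 / (Λ : ℝ) ^ 2 with hη
  have hE : (1 - η) * Ent n W + η * Ent n (wn n) ≤ Ent n (wmix Λ n W) := by
    unfold Ent
    rw [Finset.mul_sum, Finset.mul_sum, ← Finset.sum_add_distrib]
    refine Finset.sum_le_sum fun e _ => ?_
    have := Real.concaveOn_negMulLog.2 (show W e ∈ Set.Ici (0 : ℝ) from h0 e)
      (show wn n e ∈ Set.Ici (0 : ℝ) from wn_nonneg' b4 e)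
      (show (0 : ℝ) ≤ 1 - η by linarith) e1.le (by ring)
    simp only [smul_eq_mul] at this
    exact this
  have hphi : ∀ k s, (hw : dsum n (wn n) k s ≤ 1) →
      phi (dsum n (wmix Λ n W) k s) ≤ (1 - η) * phi (dsum n W k s) + η * phi (dsum n (wn n) k s) := by
    intro k s hw
    have := phi_convex.2 (show dsum n W k s ∈ Set.Iic (1 : ℝ) from hd k s)
      (show dsum n (wn n) k s ∈ Set.Iic (1 : ℝ) from hw)
      (show (0 : ℝ) ≤ 1 - η by linarith) e1.le (by ring)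
    simp only [smul_eq_mul] at this
    rw [dsum_wmix]
    exact this
  have hD : Dg n (wmix Λ n W) ≤ (1 - η) * Dg n W + η * Dg n (wn n) := by
    unfold Dg
    have h1 : ∑ s ∈ Finset.Ico (0 : ℤ) (2 * n), phi (dsum n (wmix Λ n W) 2 s) ≤
        (1 - η) * ∑ s ∈ Finset.Ico (0 : ℤ) (2 * n), phi (dsum n W 2 s) +
          η * ∑ s ∈ Finset.Ico (0 : ℤ) (2 * n), phi (dsum n (wn n) 2 s) := by
      rw [Finset.mul_sum, Finset.mul_sum, ← Finset.sum_add_distrib]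
      exact Finset.sum_le_sum fun s _ => hphi 2 s ((wn_sd b4 s).trans (by norm_num))
    have h2 : ∑ s ∈ Finset.Ioo (-(n : ℤ)) n, phi (dsum n (wmix Λ n W) 3 s) ≤
        (1 - η) * ∑ s ∈ Finset.Ioo (-(n : ℤ)) n, phi (dsum n W 3 s) +
          η * ∑ s ∈ Finset.Ioo (-(n : ℤ)) n, phi (dsum n (wn n) 3 s) := by
      rw [Finset.mul_sum, Finset.mul_sum, ← Finset.sum_add_distrib]
      exact Finset.sum_le_sum fun s _ => hphi 3 s ((wn_dd b4 s).trans (by norm_num))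
    linarith
  have hF : (1 - η) * F n W + η * F n (wn n) ≤ F n (wmix Λ n W) := by
    unfold F
    linarith
  have h1 : η * F n W ≤ η * (n * Real.log n) := mul_le_mul_of_nonneg_left (F_upper b4 h0 hd) e1.le
  have h2 : η * (-(4 * (n : ℝ))) ≤ η * F n (wn n) := mul_le_mul_of_nonneg_left (F_wn_lower b4) e1.le
  have h3 : (n * Real.log n + 4 * n) / (Λ : ℝ) ^ 2 = η * (n * Real.log n) + η * (4 * n) := by
    rw [hη]; ring
  rw [h3]
  linarith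

end Pool.Agent.NQ
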