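import Pool.Agent.NQ.KPar
import Pool.Agent.NQ.KUp
import Pool.Agent.NQ.Lower
import Pool.Agent.NQ.Mix

/-!
# NQ-KCore: comparison of two sizes

`AA n = log (Q n) - n log n`.

Plan. `Q n > 0`: `lower` with `W = wn n` (`wn_GW`). The inequality: `Q m > 0` likewise; `upper_par`
gives `S` with `Psi ≥ log (Q m) + m - 4m/Λ = AA m + m log m + m - 4m/Λ`; `trans` gives `W, x`;
`mix_GW`, `lower`, `F_mix`:
`log (Q n) ≥ F n (wmix W) - n - C n/Λ ≥ F n W - (n log n + 4n)/Λ² - n - C n/Λ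
≥ (x/m) Psi + x log (x/m) - n/Λ - (n log n + 4n)/Λ² - n - C n/Λ`, and
`(x/m) Psi + x log (x/m) ≥ (x/m) AA m + x log m + x - 4x/Λ + x log x - x log m
= (x/m) AA m + x log x + x - 4x/Λ`. Since `AA m ≤ 0` (`Q_le`) and `x ≤ n`: `(x/m) AA m ≥ (n/m) AA m`.
`x log x + x - n log n - n ≥ -(n - x)(log n + 2)` (mean value, or `log (x/n) ≥ 1 - n/x` and
`x ≥ n/2`): `≥ -6 n Λ^(-29) (log n + 2) ≥ -n/Λ`. `log n ≤ 1001 log Λ ≤ Λ`. Divide by `n`.
-/

namespace Pool.Agent.NQ

open Finset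

/-- The normalised logarithm. -/
noncomputable def AA (n : ℕ) : ℝ := Real.log (Q n) - n * Real.log n

private theorem log_small : ∃ Λ1 : ℕ, ∀ Λ : ℕ, Λ1 ≤ Λ → 1001 * Real.log (Λ : ℝ) ≤ Λ := by
  have h := (Real.isLittleO_log_id_atTop.def (show (0 : ℝ) < 1 / 1001 by norm_num))
  obtain ⟨a, ha⟩ := Filter.eventually_atTop.1 h
  refine ⟨max 1 ⌈a⌉₊, fun Λ hΛ => ?_⟩
  have h1 : a ≤ (Λ : ℝ) := le_trans (Nat.le_ceil a) (by exact_mod_cast le_trans (le_max_right _ _) hΛ)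
  have h2 := ha (Λ : ℝ) h1
  have h3 : (1 : ℝ) ≤ (Λ : ℝ) := by exact_mod_cast le_trans (le_max_left _ _) hΛ
  rw [Real.norm_eq_abs, Real.norm_eq_abs, abs_of_nonneg (Real.log_nonneg h3), id,
    abs_of_nonneg (by linarith)] at h2
  linarith

private theorem tangent {x n : ℝ} (hx : 0 < x) (hn : 0 < n) :
    n * Real.log n + (Real.log n + 1) * (x - n) ≤ x * Real.log x := by
  have h1 : 1 - (x / n)⁻¹ ≤ Real.log (x / n) := Real.one_sub_inv_le_log_of_pos (div_pos hx hn)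
  rw [inv_div, Real.log_div hx.ne' hn.ne'] at h1
  have h2 := mul_le_mul_of_nonneg_left h1 hx.le
  have h3 : x * (1 - n / x) = x - n := by field_simp
  rw [h3] at h2
  nlinarith

private theorem real_part {L m n x P lm lq F1 F2 C : ℝ} (hL : 20 ≤ L) (hm : 0 < m) (hn : 0 < n)
    (hlog : Real.log n ≤ L)
    (h1 : lm ≤ P - m + 4 * m / L) (h2 : (x / m) * P + x * Real.log (x / m) - n / L ≤ F1)
    (h3 : F1 - (n * Real.log n + 4 * n) / L ^ 2 ≤ F2) (h4 : F2 - n - C * n / L ≤ lq)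
    (h5 : n * (1 - 6 / L ^ 29) ≤ x) (h6 : x ≤ n) (h7 : lm ≤ m * Real.log m) :
    (lm - m * Real.log m) / m - (C + 30) / L ≤ (lq - n * Real.log n) / n := by
  have hL0 : 0 < L := by linarith
  have hL1 : 1 ≤ L := by linarith
  have h29 : 6 / L ^ 29 ≤ 1 / 2 := by
    rw [div_le_div_iff₀ (by positivity) (by norm_num)]
    have : L ≤ L ^ 29 := le_self_pow₀ hL1 (by norm_num)
    linarith
  have hx : 0 < x := by nlinarith
  have hxm : 0 ≤ x / m := by positivity
  -- the main term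
  have e1 : (x / m) * (lm + m - 4 * m / L) ≤ (x / m) * P :=
    mul_le_mul_of_nonneg_left (by linarith) hxm
  have e2 : (x / m) * (lm + m - 4 * m / L) = (x / m) * lm + x - 4 * x / L := by
    field_simp
  have e3 : x * Real.log (x / m) = x * Real.log x - x * Real.log m := by
    rw [Real.log_div hx.ne' hm.ne']; ring
  have e4 : (n / m) * (lm - m * Real.log m) ≤ (x / m) * (lm - m * Real.log m) := by
    have : x / m ≤ n / m := div_le_div_of_nonneg_right h6 hm.le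
    nlinarith
  have e5 : (x / m) * (lm - m * Real.log m) = (x / m) * lm - x * Real.log m := by
    field_simp
  have e6 := tangent hx hn
  have e7 : -(6 * n / L ^ 29) ≤ x - n := by
    have : n * (1 - 6 / L ^ 29) = n - 6 * n / L ^ 29 := by ring
    linarith
  have hlog2 : Real.log n + 2 ≤ 2 * L := by linarith
  have e8 : -(12 * n / L ^ 28) ≤ (Real.log n + 2) * (x - n) := by
    have h8 : (2 * L) * (x - n) ≤ (Real.log n + 2) * (x - n) := by nlinarith
    have h9 : (2 * L) * (-(6 * n / L ^ 29)) ≤ (2 * L) * (x - n) :=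
      mul_le_mul_of_nonneg_left e7 (by linarith)
    have h10 : (2 * L) * (-(6 * n / L ^ 29)) = -(12 * n / L ^ 28) := by
      field_simp
      ring
    linarith
  have e9 : 12 * n / L ^ 28 ≤ 12 * n / L := by
    apply div_le_div_of_nonneg_left (by positivity) hL0 (le_self_pow₀ hL1 (by norm_num))
  have e10 : (n * Real.log n + 4 * n) / L ^ 2 ≤ 2 * n / L := by
    rw [div_le_div_iff₀ (by positivity) hL0]
    have : n * Real.log n + 4 * n ≤ n * (2 * L) := by nlinarith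
    have h11 := mul_le_mul_of_nonneg_right this hL0.le
    nlinarith
  have e11 : 4 * x / L ≤ 4 * n / L := div_le_div_of_nonneg_right (by linarith) hL0.le
  have key : (n / m) * (lm - m * Real.log m) + n * Real.log n - (C + 30) * n / L ≤ lq := by
    have h12 : (C + 30) * n / L = C * n / L + 30 * (n / L) := by ring
    have h13 : 12 * n / L = 12 * (n / L) := by ring
    have h14 : 2 * n / L = 2 * (n / L) := by ring
    have h15 : 4 * n / L = 4 * (n / L) := by ring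
    have h16 : 0 < n / L := by positivity
    nlinarith
  rw [le_div_iff₀ hn]
  have h17 : ((lm - m * Real.log m) / m - (C + 30) / L) * n =
      (n / m) * (lm - m * Real.log m) - (C + 30) * n / L := by
    field_simp
  rw [h17]
  linarith

theorem core : ∃ Λ0 C : ℕ, ∀ Λ m n : ℕ, Λ0 ≤ Λ → Λ ^ 500 ≤ m → m ≤ Λ ^ 1001 → Λ ^ 500 ≤ n →
    n ≤ Λ ^ 1001 → 0 < Q n ∧ AA m / m - C / Λ ≤ AA n / n := by
  obtain ⟨L1, C, hlow⟩ := lower
  obtain ⟨L2, hup⟩ := upper_par
  obtain ⟨L3, htr⟩ := trans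
  obtain ⟨L4, hlog⟩ := log_small
  refine ⟨L1 + L2 + L3 + L4 + 20, C + 30, fun Λ m n h0 hm hm' hn hn' => ?_⟩
  have hΛ : 20 ≤ Λ := by omega
  have hQn := (hlow Λ n (by omega) hn hn' (wn n) (wn_GW hΛ hn)).1
  have hQm := (hlow Λ m (by omega) hm hm' (wn m) (wn_GW hΛ hm)).1
  refine ⟨hQn, ?_⟩
  obtain ⟨S, hS, hPsi⟩ := hup Λ m (by omega) hm hm' hQm
  obtain ⟨W, x, hW0, hW1, hWd, hWt, hx1, hx2, hF⟩ := htr Λ m n (by omega) hm hm' hn hn' S hS
  have hmix := mix_GW hΛ hn hW0 hW1 hWd hWt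
  have hl := (hlow Λ n (by omega) hn hn' _ hmix).2
  have hFm := F_mix hΛ hn hW0 hWd
  have hΛ1 : 1 ≤ Λ := by omega
  have hm0 : 0 < m := lt_of_lt_of_le (Nat.pow_pos hΛ1) hm
  have hn0 : 0 < n := lt_of_lt_of_le (Nat.pow_pos hΛ1) hn
  have hΛr : (20 : ℝ) ≤ (Λ : ℝ) := by exact_mod_cast hΛ
  have hmr : (0 : ℝ) < m := by exact_mod_cast hm0
  have hnr : (0 : ℝ) < n := by exact_mod_cast hn0
  have hlogn : Real.log n ≤ (Λ : ℝ) := by
    have h1 : Real.log n ≤ Real.log ((Λ : ℝ) ^ 1001) :=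
      Real.log_le_log hnr (by exact_mod_cast hn')
    rw [Real.log_pow] at h1
    have h2 := hlog Λ (by omega)
    push_cast at h1
    linarith
  have hQle : Real.log (Q m) ≤ m * Real.log m := by
    have h1 : Real.log (Q m) ≤ Real.log ((m : ℝ) ^ m) :=
      Real.log_le_log (by exact_mod_cast hQm) (Q_le m)
    rwa [Real.log_pow] at h1
  have hfin := real_part (C := (C : ℝ)) hΛr hmr hnr hlogn hPsi hF hFm hl hx1 hx2
    hQle
  unfold AA
  push_cast
  exact hfin

end Pool.Agent.NQ
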