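import Pool.Agent.NQ.KCore
import Pool.Agent.NQ.KCau
import Pool.Agent.NQ.KBri

/-!
# NQ-KFin: the theorem
-/

namespace Pool.Agent.NQ

open Finset

theorem power_saving : ∃ α C : ℝ, ∀ n : ℕ, 1 ≤ n →
    |Real.log (QN n) - n * Real.log n + α * n| ≤ C * (n : ℝ) ^ (1 - 1 / 500 : ℝ) := by
  obtain ⟨Λ0, C, h⟩ := core
  obtain ⟨α, K, hK⟩ := cauchy (a := fun n => AA n / n) (Λ0 := Λ0) (C := C)
    (fun Λ m n h0 h1 h2 h3 h4 => (h Λ m n h0 h1 h2 h3 h4).2)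
  refine ⟨α, K, fun n hn => ?_⟩
  have hn0 : (0 : ℝ) < n := by exact_mod_cast hn
  have h1 := hK n hn
  have h2 : Real.log (QN n) - n * Real.log n + α * n = n * (AA n / n + α) := by
    rw [QN_eq, AA]
    field_simp
  rw [h2, abs_mul, abs_of_pos hn0]
  have h3 : (n : ℝ) ^ (1 - 1 / 500 : ℝ) = n * (n : ℝ) ^ (-(1 / 500 : ℝ)) := by
    rw [sub_eq_add_neg, Real.rpow_add hn0, Real.rpow_one]
  rw [h3]
  calc (n : ℝ) * |AA n / n + α| ≤ n * (K * (n : ℝ) ^ (-(1 / 500 : ℝ))) :=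
        mul_le_mul_of_nonneg_left h1 hn0.le
    _ = K * (n * (n : ℝ) ^ (-(1 / 500 : ℝ))) := by ring

end Pool.Agent.NQ
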