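import Pool.Agent.NQ.TDefs

/-!
# NQ-KNum: the parameters of the transfer

`l = 2 (m / (2 Λ^58))` (natural division), `R = n / Λ^29`,
`l' = 2 ((n * (Λ^29 - 5) * l) / (2 * m * Λ^29))`; `x = l' m/l`, `ω = Λ^(-29)`.

Plan. `Nat.div_mul_le_self`, `Nat.lt_div_mul_add`-type bounds, cast to reals.
* `m/Λ^58 - 2 < l ≤ m/Λ^58`. `l' m ≤ (1 - 5ω) n l`; `l' m ≥ (1 - 5ω) n l - 2m`, so
  `(1 - 5ω) n - 2 m/l ≤ x ≤ (1 - 5ω) n`, `m/l ≤ 2Λ^58`: `(1 - 6ω) n ≤ x ≤ n`.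
* `fit`: `l' ≤ n l/m ≤ n Λ^(-58)`, `R ≤ ω n`:
  `l' m + l R + 2 l l' ≤ l n (1 - 5ω + ω + 2Λ^(-58)) ≤ l n`.
* `l' = x l/m ≥ (1-6ω) n (Λ^(-58) - 2/m) ≥ n/(2Λ^58)`.
* `lam l l' R * m = x (1 - ε)`, `ε = 3l'/(R + 3l')`, `R ≥ ω n - 1 ≥ (3/4) ω n`, so
  `ε ≤ 3 l'/R ≤ 4 n Λ^(-58)/(ω n) = 4 ω`, and `lam m ≥ n (1 - 6ω)(1 - 4ω) ≥ n (1 - 10 ω)`.
-/

namespace Pool.Agent.NQ

open Finset

private lemma par_aux {a m n : ℕ} (ha : 1000 ≤ a) (hm : a ^ 10 ≤ m) (hn : a ^ 10 ≤ n) :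
    ∃ k R : ℕ, 0 < m / (2 * a ^ 2) ∧ 0 < k ∧ 0 < R ∧
      (2 * k) * m + (2 * (m / (2 * a ^ 2))) * (R + 2 * (2 * k)) ≤ (2 * (m / (2 * a ^ 2))) * n ∧
      (n : ℝ) * (1 - 6 / (a : ℝ)) ≤ ((2 * k : ℕ) : ℝ) * m / ((2 * (m / (2 * a ^ 2)) : ℕ) : ℝ) ∧
      ((2 * k : ℕ) : ℝ) * m / ((2 * (m / (2 * a ^ 2)) : ℕ) : ℝ) ≤ n ∧
      (n : ℝ) / (2 * (a : ℝ) ^ 2) ≤ ((2 * k : ℕ) : ℝ) ∧
      (1 - 4 / (a : ℝ)) * (((2 * k : ℕ) : ℝ) * m / ((2 * (m / (2 * a ^ 2)) : ℕ) : ℝ)) ≤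
        lam (2 * (m / (2 * a ^ 2))) (2 * k) R * m := by
  set h : ℕ := m / (2 * a ^ 2) with hh
  have ha0 : 0 < a := by omega
  have hA : (1000 : ℝ) ≤ (a : ℝ) := by exact_mod_cast ha
  have hA0 : (0 : ℝ) < (a : ℝ) := by linarith
  have hpm : ∀ x : ℕ, a ^ 10 ≤ x → 8 * (a : ℝ) ^ 3 ≤ x := by
    intro x hx
    have h1 : 8 * a ^ 3 ≤ a ^ 10 := by
      have e1 : a ^ 10 = a ^ 7 * a ^ 3 := by ring
      rw [e1]
      apply Nat.mul_le_mul_right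
      calc 8 ≤ a := by omega
        _ = a ^ 1 := (pow_one a).symm
        _ ≤ a ^ 7 := Nat.pow_le_pow_right ha0 (by norm_num)
    have h2 : 8 * a ^ 3 ≤ x := h1.trans hx
    exact_mod_cast h2
  have hM := hpm m hm
  have hN := hpm n hn
  clear hpm
  have hb0 : 0 < 2 * a ^ 2 := by positivity
  have F1 : 2 * (a : ℝ) ^ 2 * h ≤ m := by
    have := Nat.mul_div_le m (2 * a ^ 2)
    rw [← hh] at this
    exact_mod_cast this
  have F2 : (m : ℝ) < 2 * (a : ℝ) ^ 2 * (h + 1) := by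
    have := Nat.lt_mul_div_succ m hb0
    rw [← hh] at this
    exact_mod_cast this
  have ha3 : (a : ℝ) ^ 3 = (a : ℝ) ^ 2 * a := by ring
  have hA2 : (0 : ℝ) < (a : ℝ) ^ 2 := by positivity
  have H2 : (2 : ℝ) ≤ (h : ℝ) := by
    by_contra hc
    push Not at hc
    have h1 : 2 * (a : ℝ) ^ 2 * (h + 1) ≤ 2 * (a : ℝ) ^ 2 * 3 :=
      mul_le_mul_of_nonneg_left (by linarith) (by positivity)
    have h2 : (a : ℝ) ^ 2 * 1000 ≤ (a : ℝ) ^ 2 * a := mul_le_mul_of_nonneg_left hA hA2.le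
    rw [ha3] at hM
    linarith
  have hh0 : 0 < h := by
    have : (0 : ℝ) < (h : ℝ) := by linarith
    exact_mod_cast this
  have hH0 : (0 : ℝ) < (h : ℝ) := by linarith
  have hM0 : (0 : ℝ) < (m : ℝ) := lt_of_lt_of_le (by positivity) hM
  have hN0 : (0 : ℝ) < (n : ℝ) := lt_of_lt_of_le (by positivity) hN
  have hm0 : 0 < m := by exact_mod_cast hM0
  -- k and R
  set k : ℕ := (n * (a - 5) * (2 * h)) / (2 * m * a) with hk
  set R : ℕ := n / a with hR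
  have hd0 : 0 < 2 * m * a := by positivity
  have hcast : ((a - 5 : ℕ) : ℝ) = (a : ℝ) - 5 := by
    rw [Nat.cast_sub (by omega)]; norm_num
  have F3 : 2 * (m : ℝ) * a * k ≤ n * ((a : ℝ) - 5) * (2 * h) := by
    have := Nat.mul_div_le (n * (a - 5) * (2 * h)) (2 * m * a)
    rw [← hk] at this
    rw [← hcast]
    exact_mod_cast this
  have F4 : (n : ℝ) * ((a : ℝ) - 5) * (2 * h) < 2 * (m : ℝ) * a * (k + 1) := by
    have := Nat.lt_mul_div_succ (n * (a - 5) * (2 * h)) hd0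
    rw [← hk] at this
    rw [← hcast]
    exact_mod_cast this
  have F5 : (a : ℝ) * R ≤ n := by
    have := Nat.mul_div_le n a
    rw [← hR] at this
    exact_mod_cast this
  have F6 : (n : ℝ) < a * (R + 1) := by
    have := Nat.lt_mul_div_succ n ha0
    rw [← hR] at this
    exact_mod_cast this
  clear_value h k R
  have hK0 : (0 : ℝ) ≤ (k : ℝ) := Nat.cast_nonneg k
  have hR0 : (0 : ℝ) ≤ (R : ℝ) := Nat.cast_nonneg R
  -- D1
  have D1 : (m : ℝ) ≤ 3 * (a : ℝ) ^ 2 * h := by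
    have : 2 * (a : ℝ) ^ 2 ≤ (a : ℝ) ^ 2 * h := by
      have := mul_le_mul_of_nonneg_left H2 hA2.le
      linarith
    nlinarith
  -- X
  set X : ℝ := (k : ℝ) * m / h with hX
  have eX : ((2 * k : ℕ) : ℝ) * m / ((2 * h : ℕ) : ℝ) = X := by
    rw [hX]
    push_cast
    field_simp
  have D2 : X ≤ n * (1 - 5 / (a : ℝ)) := by
    rw [hX, div_le_iff₀ hH0]
    have e : (n : ℝ) * (1 - 5 / (a : ℝ)) * h = n * ((a : ℝ) - 5) * h / a := by
      field_simp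
    rw [e, le_div_iff₀ hA0]
    linarith
  have D3 : (n : ℝ) * (1 - 5 / (a : ℝ)) - 3 * (a : ℝ) ^ 2 ≤ X := by
    rw [hX, le_div_iff₀ hH0]
    have e : ((n : ℝ) * (1 - 5 / (a : ℝ)) - 3 * (a : ℝ) ^ 2) * h =
        (n * ((a : ℝ) - 5) * h - 3 * (a : ℝ) ^ 2 * h * a) / a := by
      field_simp
    rw [e, div_le_iff₀ hA0]
    have h1 : (m : ℝ) * a ≤ 3 * (a : ℝ) ^ 2 * h * a := mul_le_mul_of_nonneg_right D1 hA0.le
    linarith
  have hNA : 8 * (a : ℝ) ^ 2 ≤ n / (a : ℝ) := by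
    rw [le_div_iff₀ hA0]
    rw [ha3] at hN
    linarith
  have G1 : (n : ℝ) * (1 - 6 / (a : ℝ)) ≤ X := by
    have e : (n : ℝ) * (1 - 6 / (a : ℝ)) = n * (1 - 5 / (a : ℝ)) - n / a := by ring
    rw [e]
    linarith
  have G2 : X ≤ n := by
    refine D2.trans ?_
    have : (n : ℝ) * (1 - 5 / (a : ℝ)) = n - 5 * (n / a) := by ring
    rw [this]
    have : 0 < (n : ℝ) / a := by positivity
    linarith
  have hX0 : 0 ≤ X := by rw [hX]; positivity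
  have h6 : (3 : ℝ) / 4 ≤ 1 - 6 / (a : ℝ) := by
    have : 6 / (a : ℝ) ≤ 6 / 1000 := div_le_div_of_nonneg_left (by norm_num) (by norm_num) hA
    linarith
  have G3 : (n : ℝ) / (2 * (a : ℝ) ^ 2) ≤ ((2 * k : ℕ) : ℝ) := by
    have h1 : (3 : ℝ) / 4 * n ≤ X := by
      have := mul_le_mul_of_nonneg_left h6 hN0.le
      linarith
    rw [hX, le_div_iff₀ hH0] at h1
    -- (3/4) n h ≤ k m ≤ k 3 a² h
    have h2 : (k : ℝ) * m ≤ k * (3 * (a : ℝ) ^ 2 * h) := mul_le_mul_of_nonneg_left D1 hK0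
    have h3 : (3 : ℝ) / 4 * n ≤ 3 * (a : ℝ) ^ 2 * k := by
      have h4 : (3 : ℝ) / 4 * n * h ≤ 3 * (a : ℝ) ^ 2 * k * h := by linarith
      exact le_of_mul_le_mul_right h4 hH0
    rw [div_le_iff₀ (by positivity)]
    push_cast
    nlinarith
  have hk0 : 0 < k := by
    have h1 : (0 : ℝ) < (n : ℝ) / (2 * (a : ℝ) ^ 2) := by positivity
    have h2 : (0 : ℝ) < ((2 * k : ℕ) : ℝ) := lt_of_lt_of_le h1 G3
    have h3 : 0 < 2 * k := by exact_mod_cast h2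
    omega
  have hRp : 0 < R := by
    by_contra hc
    have : R = 0 := by omega
    rw [this] at F6
    have h1 : (n : ℝ) < a := by simpa using F6
    have h2 : (a : ℝ) ≤ 8 * (a : ℝ) ^ 3 := by
      have h3 : (1 : ℝ) ≤ (a : ℝ) ^ 2 := by nlinarith
      rw [ha3]
      nlinarith
    linarith
  have D5 : 2 * (a : ℝ) ^ 2 * k ≤ n := by
    have h1 : (m : ℝ) * k ≤ n * h := by
      have h2 : 2 * (m : ℝ) * a * k ≤ n * (a : ℝ) * (2 * h) := by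
        refine F3.trans ?_
        apply mul_le_mul_of_nonneg_right _ (by positivity)
        apply mul_le_mul_of_nonneg_left _ hN0.le
        linarith
      have h3 : (m : ℝ) * k * (2 * a) ≤ n * h * (2 * a) := by linarith
      exact le_of_mul_le_mul_right h3 (by positivity)
    have h2 : 2 * (a : ℝ) ^ 2 * h * k ≤ m * k := mul_le_mul_of_nonneg_right F1 hK0
    have h3 : 2 * (a : ℝ) ^ 2 * k * h ≤ n * h := by linarith
    exact le_of_mul_le_mul_right h3 hH0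
  refine ⟨k, R, hh0, hk0, hRp, ?_, ?_, ?_, G3, ?_⟩
  · have key : (2 * (k : ℝ)) * m + (2 * (h : ℝ)) * (R + 2 * (2 * k)) ≤ (2 * (h : ℝ)) * n := by
      have h1 : 2 * (k : ℝ) * m ≤ 2 * (h : ℝ) * (n * (1 - 5 / (a : ℝ))) := by
        rw [hX, div_le_iff₀ hH0] at D2
        linarith
      have h2 : (R : ℝ) ≤ n / a := by
        rw [le_div_iff₀ hA0]; linarith
      have h3 : 4 * (k : ℝ) ≤ 4 * (n / a) := by
        have h4 : (k : ℝ) ≤ n / a := by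
          rw [le_div_iff₀ hA0]
          have h5 : (k : ℝ) * a ≤ 2 * (a : ℝ) ^ 2 * k := by
            have : (k : ℝ) * a * 1 ≤ (k : ℝ) * a * (2 * a) :=
              mul_le_mul_of_nonneg_left (by linarith) (by positivity)
            linarith
          linarith
        linarith
      have h4 : (R : ℝ) + 2 * (2 * k) ≤ 5 * (n / a) := by linarith
      have h5 : (2 * (h : ℝ)) * (R + 2 * (2 * k)) ≤ (2 * (h : ℝ)) * (5 * (n / a)) :=
        mul_le_mul_of_nonneg_left h4 (by positivity)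
      have e : 2 * (h : ℝ) * (n * (1 - 5 / (a : ℝ))) = 2 * (h : ℝ) * n - 2 * (h : ℝ) * (5 * (n / a)) := by
        ring
      linarith
    exact_mod_cast key
  · rw [eX]; exact G1
  · rw [eX]; exact G2
  · rw [eX]
    have hden : (0 : ℝ) < (R : ℝ) + 3 * (2 * k) := by
      have : (0 : ℝ) < (R : ℝ) := by exact_mod_cast hRp
      positivity
    have e : lam (2 * h) (2 * k) R * m = X * (R / ((R : ℝ) + 3 * (2 * k))) := by
      rw [hX]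
      unfold lam
      push_cast
      field_simp
    rw [e, mul_comm]
    apply mul_le_mul_of_nonneg_left _ hX0
    rw [le_div_iff₀ hden]
    have h1 : 6 * (k : ℝ) * a ≤ 4 * R := by
      have h2 : 6 * (k : ℝ) * a ≤ 3 * (n / a) := by
        have e2 : 3 * ((n : ℝ) / a) = (3 * n) / a := by ring
        rw [e2, le_div_iff₀ hA0]
        have e3 : 6 * (k : ℝ) * a * a = 3 * (2 * (a : ℝ) ^ 2 * k) := by ring
        rw [e3]
        linarith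
      have h3 : (n : ℝ) / a < R + 1 := by
        rw [div_lt_iff₀ hA0]; linarith
      have h4 : (4 : ℝ) ≤ n / a := by
        have : (1 : ℝ) ≤ (a : ℝ) ^ 2 := by nlinarith
        linarith
      linarith
    have h2 : 6 * (k : ℝ) ≤ 4 / (a : ℝ) * (R + 3 * (2 * k)) := by
      rw [div_mul_eq_mul_div, le_div_iff₀ hA0]
      nlinarith
    have e4 : (1 - 4 / (a : ℝ)) * ((R : ℝ) + 3 * (2 * k)) =
        ((R : ℝ) + 3 * (2 * k)) - 4 / (a : ℝ) * (R + 3 * (2 * k)) := by ring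
    rw [e4]
    linarith

theorem par {Λ m n : ℕ} (hΛ : 30 ≤ Λ) (hm : Λ ^ 500 ≤ m) (hn : Λ ^ 500 ≤ n)
    {S : Finset (ℤ × ℤ)} (hS : QS m S) :
    ∃ l' R : ℕ, TH m (2 * (m / (2 * Λ ^ 58))) n l' R S ∧
      (n : ℝ) * (1 - 6 / (Λ : ℝ) ^ 29) ≤ (l' : ℝ) * m / ((2 * (m / (2 * Λ ^ 58)) : ℕ) : ℝ) ∧
      (l' : ℝ) * m / ((2 * (m / (2 * Λ ^ 58)) : ℕ) : ℝ) ≤ n ∧
      (n : ℝ) / (2 * (Λ : ℝ) ^ 58) ≤ l' ∧
      (1 - 4 / (Λ : ℝ) ^ 29) * ((l' : ℝ) * m / ((2 * (m / (2 * Λ ^ 58)) : ℕ) : ℝ)) ≤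
        lam (2 * (m / (2 * Λ ^ 58))) l' R * m := by
  have ha : 1000 ≤ Λ ^ 29 := by
    calc 1000 ≤ 30 ^ 3 := by norm_num
      _ ≤ Λ ^ 3 := Nat.pow_le_pow_left hΛ 3
      _ ≤ Λ ^ 29 := Nat.pow_le_pow_right (by omega) (by norm_num)
  have h10 : (Λ ^ 29) ^ 10 ≤ Λ ^ 500 := by
    rw [← pow_mul]
    exact Nat.pow_le_pow_right (by omega) (by norm_num)
  obtain ⟨k, R, h1, h2, h3, h4, h5, h6, h7, h8⟩ :=
    par_aux ha (h10.trans hm) (h10.trans hn)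
  have e1 : (Λ ^ 29) ^ 2 = Λ ^ 58 := by rw [← pow_mul]
  have e2 : (((Λ ^ 29 : ℕ) : ℝ)) = (Λ : ℝ) ^ 29 := by push_cast; rfl
  have e3 : ((Λ : ℝ) ^ 29) ^ 2 = (Λ : ℝ) ^ 58 := by rw [← pow_mul]
  rw [e1] at h1 h4 h5 h6 h8
  rw [e2] at h5 h7 h8
  rw [e3] at h7
  refine ⟨2 * k, R, ?_, h5, h6, h7, h8⟩
  exact ⟨hS, by omega, by omega, even_two_mul k, h3, h4⟩

end Pool.Agent.NQ
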