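import Pool.Agent.NQ.TGeo

/-!
# NQ-TDia: exact diagonal sums

Plan. `diag2`: on the sum diagonal `s` (`e.1 + e.2 = s`) with `a = s / l' - 2`: for every `b` with
`cnt S l (a,b) ≠ 0` there are exactly `l'/2` squares `e` with `(e.1-e.2)/l' = b` (differences
`d ∈ [b l', (b+1) l')` of the parity of `s`, `l'` even), all on the board (`supp`); and
`∑_b cnt S l (a,b) = cs S l a` (sum over the `b` of the image of `S`).
`diag3`: the same with the roles exchanged (`b = s / l'`, `∑_a cnt S l (a,b) = cd S l b`).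
-/

namespace Pool.Agent.NQ

open Finset

variable {m l n l' R : ℕ} {S : Finset (ℤ × ℤ)}

private theorem tdia_div {L : ℤ} (hL : 0 < L) (z b : ℤ) :
    z / L = b ↔ b * L ≤ z ∧ z < b * L + L := by
  have h1 := Int.emod_add_mul_ediv z L
  have h2 := Int.emod_nonneg z hL.ne'
  have h3 := Int.emod_lt_of_pos z hL
  constructor
  · intro h
    rw [h, mul_comm] at h1
    constructor <;> linarith
  · rintro ⟨h4, h5⟩
    have h6 : L * (z / L) < L * (b + 1) := by linarith
    have h7 : L * b < L * (z / L + 1) := by linarith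
    have h8 := lt_of_mul_lt_mul_left h6 hL.le
    have h9 := lt_of_mul_lt_mul_left h7 hL.le
    omega

/-- the number of the `x` with `(2 x - s) / (2 h) = b` -/
private theorem tdia_x {h : ℕ} (hh : 0 < h) (s b x : ℤ) :
    (2 * x - s) / ((h + h : ℕ) : ℤ) = b ↔
      x ∈ Ico ((s + 1) / 2 + b * h) ((s + 1) / 2 + b * h + h) := by
  have hL : (0 : ℤ) < ((h + h : ℕ) : ℤ) := by exact_mod_cast Nat.add_pos_left hh h
  rw [tdia_div hL, mem_Ico]
  have e1 : b * ((h + h : ℕ) : ℤ) = 2 * (b * h) := by push_cast; ring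
  have e2 : ((h + h : ℕ) : ℤ) = 2 * (h : ℤ) := by push_cast; ring
  rw [e1, e2]
  generalize b * (h : ℤ) = c
  omega

private theorem tdia_swap (A S : Finset (ℤ × ℤ)) (l l' : ℕ) (h : ℕ) (P : ℤ × ℤ → Prop)
    [DecidablePred P]
    (hc : ∀ q ∈ S, (A.filter (fun e => cell l q = cellT l' e)).card = if P q then h else 0) :
    ∑ e ∈ A, (cnt S l (cellT l' e) : ℝ) = (h : ℝ) * ((S.filter P).card : ℝ) := by
  have h1 : ∑ e ∈ A, cnt S l (cellT l' e) = h * (S.filter P).card := by
    unfold cnt
    simp only [card_filter]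
    rw [sum_comm, mul_sum]
    refine sum_congr rfl fun q hq => ?_
    rw [← card_filter, hc q hq]
    split_ifs <;> simp
  have h2 : ((∑ e ∈ A, cnt S l (cellT l' e) : ℕ) : ℝ) = ((h * (S.filter P).card : ℕ) : ℝ) := by
    rw [h1]
  push_cast at h2
  exact h2

private theorem tdia_card {A : Finset (ℤ × ℤ)} {h : ℕ} (mk : ℤ → ℤ × ℤ)
    (hinj : Function.Injective mk) (c : ℤ)
    (hA : ∀ e, e ∈ A ↔ ∃ x ∈ Ico c (c + h), mk x = e) : A.card = h := by
  have h1 : A = (Ico c (c + h)).image mk := by
    ext e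
    rw [mem_image, hA]
  rw [h1, card_image_of_injective _ hinj, Int.card_Ico]
  have h2 : c + (h : ℤ) - c = h := by ring
  rw [h2, Int.toNat_natCast]

theorem diag2 (H : TH m l n l' R S) (s : ℤ) :
    ∑ e ∈ (board n).filter (fun e => ln 2 e = s), (cnt S l (cellT l' e) : ℝ) =
      ((l' : ℝ) / 2) * (cs S l (s / (l' : ℤ) - 2) : ℝ) := by
  obtain ⟨h, hh⟩ := H.ev
  have hpos : 0 < h := by
    have := H.hl'
    omega
  have e0 : ((l' : ℝ) / 2) = (h : ℝ) := by
    rw [hh]
    push_cast
    ring
  rw [e0]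
  unfold cs
  refine tdia_swap _ S l l' h (fun e => (e.1 + e.2) / (l : ℤ) = s / (l' : ℤ) - 2) fun q hq => ?_
  split_ifs with hP
  · refine tdia_card (fun x => (x, s - x)) (fun x y hxy => (Prod.mk.inj hxy).1)
      ((s + 1) / 2 + ((q.1 - q.2) / (l : ℤ)) * h) fun e => ?_
    rw [mem_filter, mem_filter, ln_two]
    constructor
    · rintro ⟨⟨h1, h2⟩, h3⟩
      refine ⟨e.1, ?_, ?_⟩
      · rw [← tdia_x hpos, ← hh]
        have h4 : (q.1 - q.2) / (l : ℤ) = (e.1 - e.2) / (l' : ℤ) := congrArg Prod.snd h3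
        rw [h4]
        congr 1
        omega
      · refine Prod.ext rfl ?_
        show s - e.1 = e.2
        omega
    · rintro ⟨x, hx, rfl⟩
      rw [← tdia_x hpos, ← hh] at hx
      have h4 : cell l q = cellT l' (x, s - x) := by
        unfold cell cellT
        refine Prod.ext ?_ ?_
        · show (q.1 + q.2) / (l : ℤ) = (x + (s - x)) / (l' : ℤ) - 2
          rw [hP]
          congr 2
          omega
        · show (q.1 - q.2) / (l : ℤ) = (x - (s - x)) / (l' : ℤ)
          rw [← hx]
          congr 1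
          omega
      refine ⟨⟨?_, ?_⟩, h4⟩
      · have h5 : cnt S l (cellT l' (x, s - x)) ≠ 0 := by
          unfold cnt
          exact card_ne_zero_of_mem (mem_filter.2 ⟨hq, h4⟩)
        have h6 := supp H h5
        have h7 : (0 : ℤ) < R := by exact_mod_cast H.hR
        rw [mem_board]
        omega
      · show x + (s - x) = s
        omega
  · rw [card_eq_zero, filter_eq_empty_iff]
    intro e he h1
    rw [mem_filter, ln_two] at he
    apply hP
    have h2 : (q.1 + q.2) / (l : ℤ) = (e.1 + e.2) / (l' : ℤ) - 2 := congrArg Prod.fst h1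
    rw [h2, he.2]

theorem diag3 (H : TH m l n l' R S) (s : ℤ) :
    ∑ e ∈ (board n).filter (fun e => ln 3 e = s), (cnt S l (cellT l' e) : ℝ) =
      ((l' : ℝ) / 2) * (cd S l (s / (l' : ℤ)) : ℝ) := by
  obtain ⟨h, hh⟩ := H.ev
  have hpos : 0 < h := by
    have := H.hl'
    omega
  have e0 : ((l' : ℝ) / 2) = (h : ℝ) := by
    rw [hh]
    push_cast
    ring
  rw [e0]
  unfold cd
  refine tdia_swap _ S l l' h (fun e => (e.1 - e.2) / (l : ℤ) = s / (l' : ℤ)) fun q hq => ?_
  split_ifs with hP
  · refine tdia_card (fun x => (x, x - s)) (fun x y hxy => (Prod.mk.inj hxy).1)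
      ((s + 1) / 2 + ((q.1 + q.2) / (l : ℤ) + 2) * h) fun e => ?_
    rw [mem_filter, mem_filter, ln_three]
    constructor
    · rintro ⟨⟨h1, h2⟩, h3⟩
      refine ⟨e.1, ?_, ?_⟩
      · rw [← tdia_x hpos, ← hh]
        have h4 : (q.1 + q.2) / (l : ℤ) = (e.1 + e.2) / (l' : ℤ) - 2 := congrArg Prod.fst h3
        rw [h4]
        have h5 : 2 * e.1 - s = e.1 + e.2 := by omega
        rw [h5]
        omega
      · refine Prod.ext rfl ?_
        show e.1 - s = e.2
        omega
    · rintro ⟨x, hx, rfl⟩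
      rw [← tdia_x hpos, ← hh] at hx
      have h4 : cell l q = cellT l' (x, x - s) := by
        unfold cell cellT
        refine Prod.ext ?_ ?_
        · show (q.1 + q.2) / (l : ℤ) = (x + (x - s)) / (l' : ℤ) - 2
          have h5 : x + (x - s) = 2 * x - s := by omega
          rw [h5, hx]
          omega
        · show (q.1 - q.2) / (l : ℤ) = (x - (x - s)) / (l' : ℤ)
          rw [hP]
          congr 1
          omega
      refine ⟨⟨?_, ?_⟩, h4⟩
      · have h5 : cnt S l (cellT l' (x, x - s)) ≠ 0 := by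
          unfold cnt
          exact card_ne_zero_of_mem (mem_filter.2 ⟨hq, h4⟩)
        have h6 := supp H h5
        have h7 : (0 : ℤ) < R := by exact_mod_cast H.hR
        rw [mem_board]
        omega
      · show x - (x - s) = s
        omega
  · rw [card_eq_zero, filter_eq_empty_iff]
    intro e he h1
    rw [mem_filter, ln_three] at he
    apply hP
    have h2 : (q.1 - q.2) / (l : ℤ) = (e.1 - e.2) / (l' : ℤ) := congrArg Prod.snd h1
    rw [h2, he.2]

end Pool.Agent.NQ
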