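import Pool.Agent.NQ.TGeo

/-!
# NQ-TShf: shifting the weights

Plan. For `u, v < R` and a function `g` of the weight with `g 0 = 0`:
`∑ e ∈ board n, g (W0 (e - (u,v))) = ∑ e ∈ board n, g (W0 e)`, also with the line condition. The map
`e ↦ (e.1 - u, e.2 - v)` is injective; if `W0 e' ≠ 0` then `cnt S l (cellT l' e') ≠ 0` and by `supp`
both `e'` and `e' + (u,v)` are in `board n` (`Finset.sum_bij_ne_zero`, or extend both sums to a big
common box). `ln k (e - (u,v)) = ln k e - ln k (u,v)` (`fin_cases k`).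
`dsum_WT` follows by expanding `WT` and exchanging the sums.
-/

namespace Pool.Agent.NQ

open Finset

variable {m l n l' R : ℕ} {S : Finset (ℤ × ℤ)}

private theorem tshf_gen (H : TH m l n l' R S) (g : ℝ → ℝ) (hg : g 0 = 0) {u v : ℕ} (hu : u < R)
    (hv : v < R) (P P' : ℤ × ℤ → Prop) [DecidablePred P] [DecidablePred P']
    (hP : ∀ e : ℤ × ℤ, P e ↔ P' (e.1 - (u : ℤ), e.2 - (v : ℤ))) :
    ∑ e ∈ (board n).filter P, g (W0 S l l' R (e.1 - (u : ℤ), e.2 - (v : ℤ))) =
      ∑ e ∈ (board n).filter P', g (W0 S l l' R e) := by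
  have hc : ∀ e : ℤ × ℤ, g (W0 S l l' R e) ≠ 0 → cnt S l (cellT l' e) ≠ 0 := by
    intro e he h0
    apply he
    unfold W0
    rw [h0, Nat.cast_zero, mul_zero, zero_mul, hg]
  have hR := H.hR
  refine Finset.sum_bij_ne_zero (fun e _ _ => (e.1 - (u : ℤ), e.2 - (v : ℤ))) ?_ ?_ ?_ ?_
  · intro a h1 h2
    obtain ⟨⟨h3, h4⟩, h5, h6⟩ := supp H (hc _ h2)
    rw [mem_filter, mem_board]
    refine ⟨⟨⟨h3, ?_⟩, h5, ?_⟩, (hP a).1 (mem_filter.1 h1).2⟩
    · have : (0 : ℤ) < R := by exact_mod_cast hR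
      linarith
    · have : (0 : ℤ) < R := by exact_mod_cast hR
      linarith
  · intro a _ _ b _ _ h
    rw [Prod.mk.injEq] at h
    ext
    · linarith [h.1]
    · linarith [h.2]
  · intro b hb hb0
    obtain ⟨⟨h3, h4⟩, h5, h6⟩ := supp H (hc _ hb0)
    have hu' : (u : ℤ) < R := by exact_mod_cast hu
    have hv' : (v : ℤ) < R := by exact_mod_cast hv
    have hu0 : (0 : ℤ) ≤ u := Int.natCast_nonneg u
    have hv0 : (0 : ℤ) ≤ v := Int.natCast_nonneg v
    have e1 : ((b.1 + (u : ℤ)) - (u : ℤ), (b.2 + (v : ℤ)) - (v : ℤ)) = b := by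
      ext
      · simp
      · simp
    refine ⟨(b.1 + u, b.2 + v), ?_, ?_, ?_⟩
    · rw [mem_filter, mem_board]
      refine ⟨⟨⟨?_, ?_⟩, ?_, ?_⟩, ?_⟩
      · simp only
        linarith
      · simp only
        linarith
      · simp only
        linarith
      · simp only
        linarith
      · rw [hP]
        simp only
        rw [e1]
        exact (mem_filter.1 hb).2
    · simp only
      rw [e1]
      exact hb0
    · simp only
      rw [e1]
  · intro a _ _
    rfl

private theorem tshf_ln (k : Fin 4) (a b c d : ℤ) : ln k (a - b, c - d) = ln k (a, c) - ln k (b, d) := by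
  fin_cases k
  · simp [ln]
  · simp [ln]
  · simp [ln]
    ring
  · simp [ln]
    ring

theorem shift_board (H : TH m l n l' R S) (g : ℝ → ℝ) (hg : g 0 = 0) {u v : ℕ} (hu : u < R)
    (hv : v < R) :
    ∑ e ∈ board n, g (W0 S l l' R (e.1 - (u : ℤ), e.2 - (v : ℤ))) =
      ∑ e ∈ board n, g (W0 S l l' R e) := by
  have h := tshf_gen H g hg hu hv (fun _ => True) (fun _ => True) (fun _ => Iff.rfl)
  simpa only [filter_true] using h

theorem shift_line (H : TH m l n l' R S) (k : Fin 4) (s : ℤ) {u v : ℕ} (hu : u < R)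
    (hv : v < R) :
    ∑ e ∈ (board n).filter (fun e => ln k e = s), W0 S l l' R (e.1 - (u : ℤ), e.2 - (v : ℤ)) =
      dsum n (W0 S l l' R) k (s - ln k ((u : ℤ), (v : ℤ))) := by
  refine tshf_gen H (fun x => x) rfl hu hv (fun e => ln k e = s)
    (fun e => ln k e = s - ln k ((u : ℤ), (v : ℤ))) (fun e => ?_)
  rw [tshf_ln]
  constructor
  · intro h
    rw [← h]
  · intro h
    exact sub_left_inj.mp h

theorem dsum_WT (H : TH m l n l' R S) (k : Fin 4) (s : ℤ) :
    dsum n (WT S l l' R) k s = (1 / (R : ℝ) ^ 2) *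
      ∑ u ∈ range R, ∑ v ∈ range R, dsum n (W0 S l l' R) k (s - ln k ((u : ℤ), (v : ℤ))) := by
  have h1 : dsum n (WT S l l' R) k s = (1 / (R : ℝ) ^ 2) *
      ∑ u ∈ range R, ∑ v ∈ range R, ∑ e ∈ (board n).filter (fun e => ln k e = s),
        W0 S l l' R (e.1 - (u : ℤ), e.2 - (v : ℤ)) := by
    unfold dsum WT
    rw [← mul_sum, sum_comm]
    congr 1
    refine sum_congr rfl fun u _ => ?_
    rw [sum_comm]
  rw [h1]
  congr 1
  refine sum_congr rfl fun u hu => sum_congr rfl fun v hv => ?_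
  exact shift_line H k s (mem_range.1 hu) (mem_range.1 hv)

end Pool.Agent.NQ
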