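import Pool.Agent.NQ.TGeo

/-!
# NQ-TSum: exact cell sums

Plan. If `cnt S l c ≠ 0` then by `supp` all squares `e : ℤ × ℤ` with `cellT l' e = c = (a,b)` lie in
`board n`, and there are exactly `l'²/2` of them: `(s,d) = (e.1+e.2, e.1-e.2)` runs through the pairs with
`(a+2) l' ≤ s < (a+3) l'`, `b l' ≤ d < (b+1) l'`, `s ≡ d mod 2` (`l'` is even: for each `s` there are
`l'/2` values of `d`). Group the squares by `c = cellT l' e` (`Finset.sum_comp` / `sum_fiberwise`); cells
not in `S.image (cell l)` have `cnt = 0`, `G 0 = 0`.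
-/

namespace Pool.Agent.NQ

open Finset

variable {m l n l' R : ℕ} {S : Finset (ℤ × ℤ)}

private theorem ts_div {l : ℤ} (hl : 0 < l) (x A : ℤ) :
    x / l = A ↔ l * A ≤ x ∧ x < l * A + l := by
  constructor
  · rintro rfl
    constructor
    · exact Int.mul_ediv_self_le hl.ne'
    · have h := Int.lt_mul_ediv_self_add (x := x) hl
      exact h
  · rintro ⟨h1, h2⟩
    refine le_antisymm ?_ ?_
    · refine Int.lt_add_one_iff.1 ((Int.ediv_lt_iff_lt_mul hl).2 ?_)
      linarith [mul_comm l A, add_mul A 1 l]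
    · refine (Int.le_ediv_iff_mul_le hl).2 ?_
      linarith [mul_comm l A]

private theorem ts_card {n l' : ℕ} (hl' : 0 < l') (hev : Even l') (c : ℤ × ℤ)
    (hsub : ∀ e, cellT l' e = c → e ∈ board n) :
    (((board n).filter (fun e => cellT l' e = c)).card : ℝ) = (l' : ℝ) ^ 2 / 2 := by
  obtain ⟨h, hh⟩ := hev
  obtain ⟨a, b⟩ := c
  obtain ⟨P, hP⟩ : ∃ P : ℤ, P = (h : ℤ) * (a + 2) := ⟨_, rfl⟩
  obtain ⟨Q, hQ⟩ : ∃ Q : ℤ, Q = (h : ℤ) * b := ⟨_, rfl⟩
  have hlz : (0 : ℤ) < (l' : ℤ) := by exact_mod_cast hl'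
  have key : ∀ e : ℤ × ℤ, cellT l' e = (a, b) ↔ (2 * P ≤ e.1 + e.2 ∧ e.1 + e.2 < 2 * P + 2 * h) ∧
      (2 * Q ≤ e.1 - e.2 ∧ e.1 - e.2 < 2 * Q + 2 * h) := by
    intro e
    have e1 : (l' : ℤ) * (a + 2) = 2 * P := by
      rw [hP, hh]
      push_cast
      ring
    have e2 : (l' : ℤ) * b = 2 * Q := by
      rw [hQ, hh]
      push_cast
      ring
    have e3 : (l' : ℤ) = 2 * h := by
      rw [hh]
      push_cast
      ring
    have e4 := ts_div hlz (e.1 + e.2) (a + 2)
    have e5 := ts_div hlz (e.1 - e.2) b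
    rw [e1] at e4
    rw [e2] at e5
    unfold cellT
    rw [Prod.mk.injEq]
    have e6 : (e.1 + e.2) / (l' : ℤ) - 2 = a ↔ (e.1 + e.2) / (l' : ℤ) = a + 2 := by
      constructor <;> intro h <;> linarith
    rw [e6, e4, e5, e3]
  have hc : ((Finset.Ico (0 : ℤ) (2 * h)) ×ˢ (Finset.Ico (0 : ℤ) h)).card =
      ((board n).filter (fun e => cellT l' e = (a, b))).card := by
    refine Finset.card_nbij' (fun u => (P + Q + u.2 + (u.1 + u.1 % 2) / 2,
      P - Q - u.2 + (u.1 - u.1 % 2) / 2)) (fun e => (e.1 + e.2 - 2 * P, (e.1 - e.2 - 2 * Q) / 2))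
      ?_ ?_ ?_ ?_
    · rintro ⟨s, t⟩ hu
      rw [Finset.mem_coe, Finset.mem_product, Finset.mem_Ico, Finset.mem_Ico] at hu
      have h1 : cellT l' (P + Q + t + (s + s % 2) / 2, P - Q - t + (s - s % 2) / 2) = (a, b) := by
        rw [key]
        simp only at hu ⊢
        omega
      rw [Finset.mem_coe, Finset.mem_filter]
      exact ⟨hsub _ h1, h1⟩
    · intro e he
      rw [Finset.mem_coe, Finset.mem_filter, key] at he
      rw [Finset.mem_coe, Finset.mem_product, Finset.mem_Ico, Finset.mem_Ico]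
      obtain ⟨-, h1, h2⟩ := he
      simp only
      omega
    · rintro ⟨s, t⟩ hu
      rw [Finset.mem_coe, Finset.mem_product, Finset.mem_Ico, Finset.mem_Ico] at hu
      simp only at hu ⊢
      rw [Prod.mk.injEq]
      omega
    · rintro ⟨x, y⟩ he
      rw [Finset.mem_coe, Finset.mem_filter, key] at he
      obtain ⟨-, h1, h2⟩ := he
      simp only at h1 h2 ⊢
      rw [Prod.mk.injEq]
      omega
  rw [← hc, Finset.card_product, Int.card_Ico, Int.card_Ico]
  have e1 : (2 * (h : ℤ) - 0).toNat = 2 * h := by omega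
  have e2 : ((h : ℤ) - 0).toNat = h := by omega
  rw [e1, e2, hh]
  push_cast
  ring

theorem sum_cell (H : TH m l n l' R S) (G : ℕ → ℝ) (hG : G 0 = 0) :
    ∑ e ∈ board n, G (cnt S l (cellT l' e)) =
      ∑ c ∈ S.image (cell l), ((l' : ℝ) ^ 2 / 2) * G (cnt S l c) := by
  have h1 : ∑ e ∈ board n, G (cnt S l (cellT l' e)) =
      ∑ e ∈ (board n).filter (fun e => cellT l' e ∈ S.image (cell l)),
        G (cnt S l (cellT l' e)) := by
    rw [Finset.sum_filter]
    refine Finset.sum_congr rfl fun e _ => ?_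
    by_cases h2 : cellT l' e ∈ S.image (cell l)
    · rw [if_pos h2]
    · rw [if_neg h2]
      have h3 : cnt S l (cellT l' e) = 0 := by
        unfold cnt
        rw [Finset.card_eq_zero, Finset.filter_eq_empty_iff]
        intro f hf h4
        exact h2 (Finset.mem_image.2 ⟨f, hf, h4⟩)
      rw [h3, hG]
  rw [h1, ← Finset.sum_fiberwise_of_maps_to (s := (board n).filter
    (fun e => cellT l' e ∈ S.image (cell l))) (t := S.image (cell l)) (g := cellT l')
    (fun e he => (Finset.mem_filter.1 he).2)]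
  refine Finset.sum_congr rfl fun c hc => ?_
  have h2 : ((board n).filter (fun e => cellT l' e ∈ S.image (cell l))).filter
      (fun e => cellT l' e = c) = (board n).filter (fun e => cellT l' e = c) := by
    ext e
    rw [Finset.mem_filter, Finset.mem_filter, Finset.mem_filter]
    constructor
    · rintro ⟨⟨h3, _⟩, h4⟩
      exact ⟨h3, h4⟩
    · rintro ⟨h3, h4⟩
      exact ⟨⟨h3, by rw [h4]; exact hc⟩, h4⟩
  have h3 : cnt S l c ≠ 0 := by
    obtain ⟨f, hf, hfc⟩ := Finset.mem_image.1 hc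
    unfold cnt
    rw [Finset.card_ne_zero]
    exact ⟨f, Finset.mem_filter.2 ⟨hf, hfc⟩⟩
  have h4 := ts_card (n := n) H.hl' H.ev c (by
    intro e he
    have h5 := supp H (e := e) (by rw [he]; exact h3)
    have h6 := H.hR
    rw [mem_board]
    omega)
  rw [h2, Finset.sum_congr rfl (g := fun _ => G (cnt S l c)) (fun e he => by
    rw [(Finset.mem_filter.1 he).2]), Finset.sum_const, nsmul_eq_mul, h4]

end Pool.Agent.NQ
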