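import Pool.Agent.NQ.TGeo

/-!
# NQ-TWin: the mass in a window of `R` rows or columns

Plan.
* `win1`: for the rows `i1 ≤ i < i1 + R` all squares `(i,j)` of positive weight lie in cells of queens
  with `l (i1 - 2 l') < x l' < l (i1 + R - 1) `... i.e. `x` in an open interval of length
  `(R + 2 l' - 1) l/l'`, which contains at most `(R + 2l' - 1) l/l' + 1 ≤ (R + 3 l') l/l'` integers;
  each row of the `m`-board has at most one queen.
  `∑_{e, i1 ≤ e.1 < i1+R} cnt(cellT e) ≤ ∑_{c} cnt c * #{e : cellT e = c}` over cells `c` with a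
  square in the window, `#{e : cellT l' e = c} ≤ l'^2/2` (as `l'` is even:
  `e ↦ (e.1+e.2, e.1-e.2)`, for given sum there are `l'/2` differences of the right parity).
* `win2` the same for columns.
-/

namespace Pool.Agent.NQ

open Finset

variable {m l n l' R : ℕ} {S : Finset (ℤ × ℤ)}

theorem card_cellT (hl' : 0 < l') (ev : Even l') (A : Finset (ℤ × ℤ)) (c : ℤ × ℤ) :
    ((A.filter (fun e => cellT l' e = c)).card : ℝ) ≤ (l' : ℝ) ^ 2 / 2 := by
  have hl0 : (0 : ℤ) < (l' : ℤ) := by exact_mod_cast hl'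
  obtain ⟨h, hh⟩ := ev
  have hh' : (l' : ℤ) = 2 * (h : ℤ) := by rw [hh]; push_cast; ring
  have hmem : ∀ e ∈ A.filter (fun e => cellT l' e = c),
      (((c.1 + 2) * (l' : ℤ) ≤ e.1 + e.2 ∧ e.1 + e.2 < (c.1 + 2) * (l' : ℤ) + l') ∧
        (c.2 * (l' : ℤ) ≤ e.1 - e.2 ∧ e.1 - e.2 < c.2 * (l' : ℤ) + l')) := by
    intro e he
    have he2 := (mem_filter.mp he).2
    have e1 : (e.1 + e.2) / (l' : ℤ) - 2 = c.1 := congrArg Prod.fst he2
    have e2 : (e.1 - e.2) / (l' : ℤ) = c.2 := congrArg Prod.snd he2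
    have f1 : (e.1 + e.2) / (l' : ℤ) = c.1 + 2 := by linarith
    have g1 := Int.mul_ediv_add_emod (e.1 + e.2) (l' : ℤ)
    have g2 := Int.emod_nonneg (e.1 + e.2) hl0.ne'
    have g3 := Int.emod_lt_of_pos (e.1 + e.2) hl0
    have g4 := Int.mul_ediv_add_emod (e.1 - e.2) (l' : ℤ)
    have g5 := Int.emod_nonneg (e.1 - e.2) hl0.ne'
    have g6 := Int.emod_lt_of_pos (e.1 - e.2) hl0
    rw [f1] at g1
    rw [e2] at g4
    refine ⟨⟨?_, ?_⟩, ⟨?_, ?_⟩⟩ <;> linarith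
  have hcard : (A.filter (fun e => cellT l' e = c)).card ≤
      ((Finset.Ico (0 : ℤ) l') ×ˢ (Finset.Ico (0 : ℤ) h)).card := by
    apply Finset.card_le_card_of_injOn
      (fun e => ((e.1 + e.2) - (c.1 + 2) * (l' : ℤ), ((e.1 - e.2) - c.2 * (l' : ℤ)) / 2))
    · intro e he
      obtain ⟨⟨a1, a2⟩, ⟨a3, a4⟩⟩ := hmem e he
      show ((e.1 + e.2) - (c.1 + 2) * (l' : ℤ), ((e.1 - e.2) - c.2 * (l' : ℤ)) / 2) ∈
        (((Finset.Ico (0 : ℤ) l') ×ˢ (Finset.Ico (0 : ℤ) h) : Finset (ℤ × ℤ)) : Set (ℤ × ℤ))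
      rw [Finset.mem_coe, mem_product, mem_Ico, mem_Ico]
      generalize (c.1 + 2) * (l' : ℤ) = u at *
      generalize c.2 * (l' : ℤ) = v at *
      dsimp only
      omega
    · intro e he e' he' hee
      have q1 : (e.1 + e.2) - (c.1 + 2) * (l' : ℤ) = (e'.1 + e'.2) - (c.1 + 2) * (l' : ℤ) :=
        congrArg Prod.fst hee
      have q2 : ((e.1 - e.2) - c.2 * (l' : ℤ)) / 2 = ((e'.1 - e'.2) - c.2 * (l' : ℤ)) / 2 :=
        congrArg Prod.snd hee
      generalize (c.1 + 2) * (l' : ℤ) = u at *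
      generalize c.2 * (l' : ℤ) = v at *
      have r1 : e.1 = e'.1 := by omega
      have r2 : e.2 = e'.2 := by omega
      exact Prod.ext r1 r2
  rw [card_product, Int.card_Ico, Int.card_Ico] at hcard
  have e1 : ((l' : ℤ) - 0).toNat = l' := by simp
  have e2 : ((h : ℤ) - 0).toNat = h := by simp
  rw [e1, e2] at hcard
  have e3 : ((A.filter (fun e => cellT l' e = c)).card : ℝ) ≤ ((l' * h : ℕ) : ℝ) := by
    exact_mod_cast hcard
  have e4 : ((l' * h : ℕ) : ℝ) = (l' : ℝ) ^ 2 / 2 := by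
    have : (l' : ℝ) = 2 * (h : ℝ) := by exact_mod_cast hh'
    push_cast
    rw [this]
    ring
  rw [← e4]
  exact e3

private lemma count_aux (g : ℤ × ℤ → ℤ) (T : Finset (ℤ × ℤ))
    (inj : Set.InjOn g (T : Set (ℤ × ℤ))) (A B : ℤ)
    (hl' : 0 < l') (h : ∀ q ∈ T, A < g q * (l' : ℤ) ∧ g q * (l' : ℤ) < B)
    (hAB : 0 ≤ B - A + l' - 1) : (T.card : ℤ) * (l' : ℤ) ≤ B - A + l' - 1 := by
  have hl0 : (0 : ℤ) < (l' : ℤ) := by exact_mod_cast hl'
  have h1 : T.card ≤ (Finset.Ioc (A / (l' : ℤ)) (B / (l' : ℤ))).card := by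
    apply Finset.card_le_card_of_injOn g _ inj
    intro q hq
    obtain ⟨a1, a2⟩ := h q hq
    rw [Finset.mem_coe, mem_Ioc]
    constructor
    · exact Int.ediv_lt_of_lt_mul hl0 a1
    · exact (Int.le_ediv_iff_mul_le hl0).mpr a2.le
  rw [Int.card_Ioc] at h1
  have g1 := Int.mul_ediv_add_emod B (l' : ℤ)
  have g2 := Int.emod_nonneg B hl0.ne'
  have g3 := Int.mul_ediv_add_emod A (l' : ℤ)
  have g4 := Int.emod_lt_of_pos A hl0
  rcases le_or_gt (B / (l' : ℤ) - A / (l' : ℤ)) 0 with hc | hc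
  · have : T.card = 0 := by
      have := Int.toNat_of_nonpos hc
      omega
    rw [this]
    simpa using hAB
  · have h2 : (T.card : ℤ) ≤ B / (l' : ℤ) - A / (l' : ℤ) := by
      have := Int.toNat_of_nonneg hc.le
      omega
    have h3 := mul_le_mul_of_nonneg_right h2 hl0.le
    have h4 : (B / (l' : ℤ) - A / (l' : ℤ)) * (l' : ℤ) =
        (l' : ℤ) * (B / (l' : ℤ)) - (l' : ℤ) * (A / (l' : ℤ)) := by ring
    linarith

private lemma winG (H : TH m l n l' R S) (i1 : ℤ) (g : ℤ × ℤ → ℤ)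
    (hinj : Set.InjOn g (S : Set (ℤ × ℤ)))
    (hgeo : ∀ q e : ℤ × ℤ, cell l q = cellT l' e →
      g q * (l' : ℤ) < g e * (l : ℤ) ∧ g e * (l : ℤ) < g q * (l' : ℤ) + 2 * (l : ℤ) * (l' : ℤ)) :
    ∑ e ∈ (board n).filter (fun e => i1 ≤ g e ∧ g e < i1 + R), (cnt S l (cellT l' e) : ℝ) ≤
      ((l' : ℝ) ^ 2 / 2) * (((R : ℝ) + 3 * l') * l / l') := by
  classical
  have hl0 : (0 : ℤ) < (l : ℤ) := by exact_mod_cast H.hl
  have hl0' : (0 : ℤ) < (l' : ℤ) := by exact_mod_cast H.hl'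
  have hlr' : (0 : ℝ) < (l' : ℝ) := by exact_mod_cast H.hl'
  have hR0 : (1 : ℤ) ≤ (R : ℤ) := by exact_mod_cast H.hR
  set Wd : Finset (ℤ × ℤ) := (board n).filter (fun e => i1 ≤ g e ∧ g e < i1 + R) with hWd
  have h1 : ∑ e ∈ Wd, (cnt S l (cellT l' e) : ℝ) =
      ∑ q ∈ S, ((Wd.filter (fun e => cellT l' e = cell l q)).card : ℝ) := by
    have e1 : ∀ e ∈ Wd, (cnt S l (cellT l' e) : ℝ) =
        ∑ q ∈ S, if cell l q = cellT l' e then (1 : ℝ) else 0 := by
      intro e _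
      unfold cnt
      rw [Finset.card_filter]
      push_cast
      rfl
    have e2 : ∀ q ∈ S, ((Wd.filter (fun e => cellT l' e = cell l q)).card : ℝ) =
        ∑ e ∈ Wd, if cell l q = cellT l' e then (1 : ℝ) else 0 := by
      intro q _
      rw [Finset.card_filter]
      push_cast
      refine Finset.sum_congr rfl fun e _ => ?_
      by_cases hc : cell l q = cellT l' e
      · rw [if_pos hc, if_pos hc.symm]
      · rw [if_neg hc, if_neg (fun h => hc h.symm)]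
    rw [Finset.sum_congr rfl e1, Finset.sum_congr rfl e2, Finset.sum_comm]
  rw [h1]
  set T : Finset (ℤ × ℤ) := S.filter (fun q => ∃ e ∈ Wd, cellT l' e = cell l q) with hT
  have h2 : ∑ q ∈ S, ((Wd.filter (fun e => cellT l' e = cell l q)).card : ℝ) =
      ∑ q ∈ T, ((Wd.filter (fun e => cellT l' e = cell l q)).card : ℝ) := by
    symm
    apply Finset.sum_subset (filter_subset _ _)
    intro q hq hqT
    have : Wd.filter (fun e => cellT l' e = cell l q) = ∅ := by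
      rw [Finset.filter_eq_empty_iff]
      intro e he hc
      exact hqT (mem_filter.mpr ⟨hq, e, he, hc⟩)
    rw [this]
    simp
  rw [h2]
  have h3 : ∑ q ∈ T, ((Wd.filter (fun e => cellT l' e = cell l q)).card : ℝ) ≤
      ∑ q ∈ T, (l' : ℝ) ^ 2 / 2 :=
    Finset.sum_le_sum fun q _ => card_cellT H.hl' H.ev Wd (cell l q)
  refine h3.trans ?_
  rw [Finset.sum_const, nsmul_eq_mul, mul_comm]
  apply mul_le_mul_of_nonneg_left _ (by positivity)
  have h4 : (T.card : ℤ) * (l' : ℤ) ≤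
      (i1 + R - 1) * (l : ℤ) - (i1 * (l : ℤ) - 2 * (l : ℤ) * (l' : ℤ)) + l' - 1 := by
    apply count_aux g T (hinj.mono (by
      intro q hq
      exact (mem_filter.mp hq).1)) _ _ H.hl'
    · intro q hq
      obtain ⟨_, e, he, hc⟩ := mem_filter.mp hq
      obtain ⟨_, b1, b2⟩ := mem_filter.mp he
      obtain ⟨a1, a2⟩ := hgeo q e hc.symm
      have c1 : i1 * (l : ℤ) ≤ g e * (l : ℤ) := mul_le_mul_of_nonneg_right b1 hl0.le
      have c2 : g e * (l : ℤ) ≤ (i1 + R - 1) * (l : ℤ) :=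
        mul_le_mul_of_nonneg_right (by linarith) hl0.le
      constructor <;> linarith
    · have : 0 ≤ ((R : ℤ) - 1) * (l : ℤ) := mul_nonneg (by linarith) hl0.le
      have h5 : 0 ≤ 2 * (l : ℤ) * (l' : ℤ) := by positivity
      nlinarith
  have h5 : (T.card : ℤ) * (l' : ℤ) ≤ ((R : ℤ) + 3 * (l' : ℤ)) * (l : ℤ) := by
    have h6 : (l' : ℤ) ≤ (l' : ℤ) * (l : ℤ) := by
      have : (1 : ℤ) ≤ (l : ℤ) := by linarith
      nlinarith
    nlinarith
  rw [le_div_iff₀ hlr']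
  exact_mod_cast h5

theorem win1 (H : TH m l n l' R S) (i1 : ℤ) :
    ∑ e ∈ (board n).filter (fun e => i1 ≤ e.1 ∧ e.1 < i1 + R), (cnt S l (cellT l' e) : ℝ) ≤
      ((l' : ℝ) ^ 2 / 2) * (((R : ℝ) + 3 * l') * l / l') := by
  exact winG H i1 (fun e => e.1) (by
    intro q hq q' hq' hqq
    by_contra hne
    exact H.qs.2.2 q hq q' hq' hne 0 hqq) (fun q e h => geo1 H.hl H.hl' h)

theorem win2 (H : TH m l n l' R S) (i1 : ℤ) :
    ∑ e ∈ (board n).filter (fun e => i1 ≤ e.2 ∧ e.2 < i1 + R), (cnt S l (cellT l' e) : ℝ) ≤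
      ((l' : ℝ) ^ 2 / 2) * (((R : ℝ) + 3 * l') * l / l') := by
  exact winG H i1 (fun e => e.2) (by
    intro q hq q' hq' hqq
    by_contra hne
    exact H.qs.2.2 q hq q' hq' hne 1 hqq) (fun q e h => geo2 H.hl H.hl' h)

end Pool.Agent.NQ
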