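import Pool.Agent.NQ.TCnt
import Pool.Agent.NQ.TSum
import Pool.Agent.NQ.TDia
import Pool.Agent.NQ.TWin
import Pool.Agent.NQ.TShf

/-!
# NQ-TAvg: line sums of the averaged weights
-/

namespace Pool.Agent.NQ

open Finset

variable {m l n l' R : ℕ} {S : Finset (ℤ × ℤ)}

private theorem lam_nn (l l' R : ℕ) : 0 ≤ lam l l' R := by
  unfold lam
  positivity

private theorem W0_nn (l l' R : ℕ) (e : ℤ × ℤ) : 0 ≤ W0 S l l' R e := by
  unfold W0
  have := lam_nn l l' R
  positivity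

private theorem lam_mul (H : TH m l n l' R S) :
    lam l l' R * l = (l' : ℝ) * ((R : ℝ) / ((R : ℝ) + 3 * l')) := by
  have h1 : (0 : ℝ) < l := by exact_mod_cast H.hl
  have h2 : (0 : ℝ) < l' := by exact_mod_cast H.hl'
  have h3 : (0 : ℝ) < R := by exact_mod_cast H.hR
  unfold lam
  field_simp

private theorem ratio_le (H : TH m l n l' R S) : (R : ℝ) / ((R : ℝ) + 3 * l') ≤ 1 := by
  have h2 : (0 : ℝ) < l' := by exact_mod_cast H.hl'
  have h3 : (0 : ℝ) < R := by exact_mod_cast H.hR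
  rw [div_le_one (by positivity)]
  linarith

private theorem lam_mul_le (H : TH m l n l' R S) : lam l l' R * l ≤ (l' : ℝ) := by
  rw [lam_mul H]
  exact mul_le_of_le_one_right (Nat.cast_nonneg _) (ratio_le H)

private theorem avg_le {R : ℕ} (hR : 0 < R) {f : ℕ → ℕ → ℝ} {c : ℝ}
    (h : ∀ u ∈ range R, ∀ v ∈ range R, f u v ≤ c) :
    (1 / (R : ℝ) ^ 2) * ∑ u ∈ range R, ∑ v ∈ range R, f u v ≤ c := by
  have h3 : (0 : ℝ) < R := by exact_mod_cast hR
  have h1 : ∑ u ∈ range R, ∑ v ∈ range R, f u v ≤ ∑ u ∈ range R, ∑ v ∈ range R, c :=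
    sum_le_sum fun u hu => sum_le_sum fun v hv => h u hu v hv
  simp only [sum_const, card_range, nsmul_eq_mul] at h1
  rw [div_mul_eq_mul_div, one_mul, div_le_iff₀ (by positivity)]
  calc _ ≤ _ := h1
    _ = c * (R : ℝ) ^ 2 := by ring

private theorem W0_le (H : TH m l n l' R S) (e : ℤ × ℤ) : W0 S l l' R e ≤ 2 / (l' : ℝ) := by
  have h2 : (0 : ℝ) < l' := by exact_mod_cast H.hl'
  have h4 : (cnt S l (cellT l' e) : ℝ) ≤ l := by exact_mod_cast cnt_le H _
  have h5 : lam l l' R * (cnt S l (cellT l' e) : ℝ) ≤ l' :=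
    (mul_le_mul_of_nonneg_left h4 (lam_nn _ _ _)).trans (lam_mul_le H)
  unfold W0
  calc _ ≤ (l' : ℝ) * (2 / (l' : ℝ) ^ 2) := mul_le_mul_of_nonneg_right h5 (by positivity)
    _ = 2 / (l' : ℝ) := by field_simp

theorem WT_nonneg (H : TH m l n l' R S) (e : ℤ × ℤ) : 0 ≤ WT S l l' R e := by
  unfold WT
  exact mul_nonneg (by positivity) (sum_nonneg fun u _ => sum_nonneg fun v _ => W0_nn _ _ _ _)

theorem WT_le (H : TH m l n l' R S) (e : ℤ × ℤ) : WT S l l' R e ≤ 2 / (l' : ℝ) := by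
  unfold WT
  exact avg_le H.hR fun u _ v _ => W0_le H _

theorem mass_WT (H : TH m l n l' R S) : ∑ e ∈ board n, WT S l l' R e = lam l l' R * m := by
  have h2 : (0 : ℝ) < l' := by exact_mod_cast H.hl'
  have h3 : (0 : ℝ) < R := by exact_mod_cast H.hR
  have h4 : ∑ e ∈ board n, W0 S l l' R e = lam l l' R * m := by
    have h5 := sum_cell H (fun x => lam l l' R * (x : ℝ) * (2 / (l' : ℝ) ^ 2)) (by simp)
    unfold W0
    rw [h5, ← sum_cnt H, mul_sum]
    refine sum_congr rfl fun c _ => ?_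
    field_simp
  unfold WT
  rw [← mul_sum, sum_comm]
  have h5 : ∀ u ∈ range R, ∑ e ∈ board n, ∑ v ∈ range R,
      W0 S l l' R (e.1 - (u : ℤ), e.2 - (v : ℤ)) = R * (lam l l' R * m) := by
    intro u hu
    rw [sum_comm]
    have h6 : ∀ v ∈ range R, ∑ e ∈ board n, W0 S l l' R (e.1 - (u : ℤ), e.2 - (v : ℤ)) =
        lam l l' R * m := by
      intro v hv
      rw [← h4]
      exact shift_board H (fun x => x) rfl (mem_range.1 hu) (mem_range.1 hv)
    rw [sum_congr rfl h6, sum_const, card_range, nsmul_eq_mul]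
  rw [sum_congr rfl h5, sum_const, card_range, nsmul_eq_mul]
  field_simp

private theorem W0_sum (A : Finset (ℤ × ℤ)) : ∑ e ∈ A, W0 S l l' R e =
    lam l l' R * (2 / (l' : ℝ) ^ 2) * ∑ e ∈ A, (cnt S l (cellT l' e) : ℝ) := by
  rw [mul_sum]
  refine sum_congr rfl fun e _ => ?_
  unfold W0
  ring

/-- sum over a window of `R` rows or columns -/
private theorem window (k : Fin 4) (s : ℤ) (f : ℤ × ℤ → ℝ) :
    ∑ u ∈ range R, dsum n f k (s - (u : ℤ)) =
      ∑ e ∈ (board n).filter (fun e => s - R + 1 ≤ ln k e ∧ ln k e < s - R + 1 + R), f e := by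
  rw [← sum_fiberwise_of_maps_to (s := (board n).filter
    (fun e => s - R + 1 ≤ ln k e ∧ ln k e < s - R + 1 + R)) (t := range R)
    (g := fun e => (s - ln k e).toNat) ?_ f]
  · refine sum_congr rfl fun u hu => ?_
    unfold dsum
    rw [filter_filter]
    refine sum_congr (filter_congr fun e _ => ?_) fun _ _ => rfl
    have := mem_range.1 hu
    omega
  · intro e he
    have := (mem_filter.1 he).2
    rw [mem_range]
    omega

private theorem win_bound (H : TH m l n l' R S) {A : Finset (ℤ × ℤ)}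
    (hA : ∑ e ∈ A, (cnt S l (cellT l' e) : ℝ) ≤
      ((l' : ℝ) ^ 2 / 2) * (((R : ℝ) + 3 * l') * l / l')) :
    ∑ e ∈ A, W0 S l l' R e ≤ R := by
  have h1 : (0 : ℝ) < l := by exact_mod_cast H.hl
  have h2 : (0 : ℝ) < l' := by exact_mod_cast H.hl'
  have h3 : (0 : ℝ) < R := by exact_mod_cast H.hR
  rw [W0_sum]
  refine (mul_le_mul_of_nonneg_left hA (mul_nonneg (lam_nn _ _ _) (by positivity))).trans ?_
  apply le_of_eq
  unfold lam
  field_simp

theorem row_le (H : TH m l n l' R S) (s : ℤ) : dsum n (WT S l l' R) 0 s ≤ 1 := by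
  have h3 : (0 : ℝ) < R := by exact_mod_cast H.hR
  rw [dsum_WT H]
  have h4 : ∑ u ∈ range R, ∑ v ∈ range R,
      dsum n (W0 S l l' R) 0 (s - ln 0 ((u : ℤ), (v : ℤ))) =
      R * ∑ u ∈ range R, dsum n (W0 S l l' R) 0 (s - (u : ℤ)) := by
    rw [mul_sum]
    refine sum_congr rfl fun u _ => ?_
    simp only [ln_zero, sum_const, card_range, nsmul_eq_mul]
  rw [h4, window]
  simp only [ln_zero]
  have h5 := win_bound H (win1 H (s - R + 1))
  calc _ ≤ 1 / (R : ℝ) ^ 2 * (R * R) :=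
        mul_le_mul_of_nonneg_left (mul_le_mul_of_nonneg_left h5 h3.le) (by positivity)
    _ = 1 := by field_simp

theorem col_le (H : TH m l n l' R S) (s : ℤ) : dsum n (WT S l l' R) 1 s ≤ 1 := by
  have h3 : (0 : ℝ) < R := by exact_mod_cast H.hR
  rw [dsum_WT H]
  have h4 : ∑ u ∈ range R, ∑ v ∈ range R,
      dsum n (W0 S l l' R) 1 (s - ln 1 ((u : ℤ), (v : ℤ))) =
      R * ∑ v ∈ range R, dsum n (W0 S l l' R) 1 (s - (v : ℤ)) := by
    simp only [ln_one, sum_const, card_range, nsmul_eq_mul]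
  rw [h4, window]
  simp only [ln_one]
  have h5 := win_bound H (win2 H (s - R + 1))
  calc _ ≤ 1 / (R : ℝ) ^ 2 * (R * R) :=
        mul_le_mul_of_nonneg_left (mul_le_mul_of_nonneg_left h5 h3.le) (by positivity)
    _ = 1 := by field_simp

private theorem diag_bound (H : TH m l n l' R S) (k : Fin 4) (s : ℤ) (c : ℕ) (hc : c ≤ l)
    (h : ∑ e ∈ (board n).filter (fun e => ln k e = s), (cnt S l (cellT l' e) : ℝ) =
      ((l' : ℝ) / 2) * (c : ℝ)) : dsum n (W0 S l l' R) k s ≤ 1 := by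
  have h2 : (0 : ℝ) < l' := by exact_mod_cast H.hl'
  have hc' : (c : ℝ) ≤ l := by exact_mod_cast hc
  unfold dsum
  rw [W0_sum, h]
  have h5 : lam l l' R * (c : ℝ) ≤ l' :=
    (mul_le_mul_of_nonneg_left hc' (lam_nn _ _ _)).trans (lam_mul_le H)
  calc _ = lam l l' R * (c : ℝ) / l' := by field_simp
    _ ≤ 1 := (div_le_one h2).2 h5

theorem sd_le (H : TH m l n l' R S) (s : ℤ) : dsum n (WT S l l' R) 2 s ≤ 1 := by
  rw [dsum_WT H]
  exact avg_le H.hR fun u _ v _ => diag_bound H 2 _ _ (cs_le H _) (diag2 H _)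

theorem dd_le (H : TH m l n l' R S) (s : ℤ) : dsum n (WT S l l' R) 3 s ≤ 1 := by
  rw [dsum_WT H]
  exact avg_le H.hR fun u _ v _ => diag_bound H 3 _ _ (cd_le H _) (diag3 H _)

end Pool.Agent.NQ
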