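import Pool.Agent.NQ.TAvg
import Pool.Agent.NQ.APhi

/-!
# NQ-TDg: the diagonal part of the averaged weights

Plan. For `k = 2`: `dsum n WT 2 s` is the average over `(u,v)` of `dsum n W0 2 (s - u - v) ∈ [0,1]`
(`dsum_WT`), so by convexity (`phi_convex.map_sum_le`) `phi (dsum n WT 2 s) ≤ (1/R²) ∑ phi (dsum n W0 2 (s-u-v))`.
Sum over `s ∈ [0,2n)`: for fixed `u, v` the sum `∑_s phi (dsum n W0 2 (s - u - v))` is at most
`∑_{s ∈ [0,2n)} phi (dsum n W0 2 s)` because `dsum n W0 2 s' = 0` for `s' < 0` (`phi 0 = 0`,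
`phi ≥ 0`). By `diag2`, `dsum n W0 2 s = lam (2/l'^2) (l'/2) cs(s/l' - 2) = (R/(R+3l')) (cs/l)`, so
`phi (dsum n W0 2 s) ≤ phi (cs/l)` (`phi_mono`), and each strip `a = s/l' - 2` has `l'` values of `s`:
`∑_s ≤ ∑_a l' phi (cs a/l) = (l'/l) ∑_a l phi (cs a / l)` (only `a ∈ S.image _` contribute).
For `k = 3` the same with `s ∈ (-n, n)`, using that `dsum n W0 3 s' = 0` unless `-n < s' < n`; the
shift is `u - v`.
-/

namespace Pool.Agent.NQ

open Finset

variable {m l n l' R : ℕ} {S : Finset (ℤ × ℤ)}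

private theorem tdg_avg (D : ℤ → ℝ) (I : Finset ℤ) (h0 : ∀ s, 0 ≤ D s) (h1 : ∀ s, D s ≤ 1)
    (hI : ∀ s, s ∉ I → D s = 0) (R : ℕ) (hR : 0 < R) (t : ℕ → ℕ → ℤ) :
    ∑ s ∈ I, phi ((1 / (R : ℝ) ^ 2) * ∑ u ∈ range R, ∑ v ∈ range R, D (s - t u v)) ≤
      ∑ s ∈ I, phi (D s) := by
  have hR0 : (0 : ℝ) < R := by exact_mod_cast hR
  -- the shifted sums
  have hsh : ∀ c : ℤ, ∑ s ∈ I, phi (D (s - c)) ≤ ∑ s ∈ I, phi (D s) := by
    intro c
    have e1 : ∑ s ∈ I, phi (D (s - c)) = ∑ s ∈ I.image (fun s => s - c), phi (D s) := by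
      rw [sum_image]
      intro x _ y _ hxy
      have : x - c = y - c := hxy
      omega
    have e2 : ∑ s ∈ I.image (fun s => s - c), phi (D s) =
        ∑ s ∈ (I.image (fun s => s - c)).filter (fun s => s ∈ I), phi (D s) := by
      rw [sum_filter]
      apply sum_congr rfl
      intro s _
      by_cases hs : s ∈ I
      · rw [if_pos hs]
      · rw [if_neg hs, hI s hs, phi_zero]
    rw [e1, e2]
    apply sum_le_sum_of_subset_of_nonneg
    · intro s hs
      exact (mem_filter.1 hs).2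
    · intro s _ _
      exact phi_nonneg (h0 s) (h1 s)
  -- Jensen
  have hj : ∀ s, phi ((1 / (R : ℝ) ^ 2) * ∑ u ∈ range R, ∑ v ∈ range R, D (s - t u v)) ≤
      (1 / (R : ℝ) ^ 2) * ∑ u ∈ range R, ∑ v ∈ range R, phi (D (s - t u v)) := by
    intro s
    have h2 := phi_convex.map_sum_le (t := range R ×ˢ range R) (w := fun _ => 1 / (R : ℝ) ^ 2)
      (p := fun x : ℕ × ℕ => D (s - t x.1 x.2)) (fun _ _ => by positivity)
      (by
        rw [sum_const, card_product, card_range, nsmul_eq_mul]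
        push_cast
        field_simp)
      (fun x _ => h1 _)
    simp only [smul_eq_mul] at h2
    rw [← mul_sum, ← mul_sum, sum_product, sum_product] at h2
    exact h2
  calc ∑ s ∈ I, phi ((1 / (R : ℝ) ^ 2) * ∑ u ∈ range R, ∑ v ∈ range R, D (s - t u v))
      ≤ ∑ s ∈ I, (1 / (R : ℝ) ^ 2) * ∑ u ∈ range R, ∑ v ∈ range R, phi (D (s - t u v)) :=
        sum_le_sum fun s _ => hj s
    _ = (1 / (R : ℝ) ^ 2) * ∑ u ∈ range R, ∑ v ∈ range R, ∑ s ∈ I, phi (D (s - t u v)) := by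
        rw [← mul_sum, sum_comm]
        congr 1
        apply sum_congr rfl
        intro u _
        rw [sum_comm]
    _ ≤ (1 / (R : ℝ) ^ 2) * ∑ u ∈ range R, ∑ v ∈ range R, ∑ s ∈ I, phi (D s) := by
        apply mul_le_mul_of_nonneg_left _ (by positivity)
        exact sum_le_sum fun u _ => sum_le_sum fun v _ => hsh _
    _ = ∑ s ∈ I, phi (D s) := by
        rw [sum_const, sum_const, card_range, nsmul_eq_mul, nsmul_eq_mul]
        field_simp

private theorem tdg_group (A I : Finset ℤ) (a : ℤ → ℤ) (G : ℤ → ℝ) (hG : ∀ x, 0 ≤ G x)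
    (hA : ∀ x, x ∉ A → G x = 0) (L : ℕ) (hc : ∀ x, (I.filter (fun s => a s = x)).card ≤ L) :
    ∑ s ∈ I, G (a s) ≤ ∑ x ∈ A, (L : ℝ) * G x := by
  have e1 : ∑ s ∈ I, G (a s) = ∑ s ∈ I.filter (fun s => a s ∈ A), G (a s) := by
    rw [sum_filter]
    apply sum_congr rfl
    intro s _
    by_cases hs : a s ∈ A
    · rw [if_pos hs]
    · rw [if_neg hs, hA _ hs]
  rw [e1, ← sum_fiberwise_of_maps_to (g := a) (t := A) (fun s hs => (mem_filter.1 hs).2)]
  apply sum_le_sum
  intro x _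
  have e2 : ∑ s ∈ (I.filter (fun s => a s ∈ A)).filter (fun s => a s = x), G (a s) =
      ∑ s ∈ (I.filter (fun s => a s ∈ A)).filter (fun s => a s = x), G x :=
    sum_congr rfl fun s hs => by rw [(mem_filter.1 hs).2]
  rw [e2, sum_const, nsmul_eq_mul]
  apply mul_le_mul_of_nonneg_right _ (hG x)
  have h3 : ((I.filter (fun s => a s ∈ A)).filter (fun s => a s = x)).card ≤ L := by
    refine le_trans (card_le_card ?_) (hc x)
    intro s hs
    rw [mem_filter, mem_filter] at hs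
    rw [mem_filter]
    exact ⟨hs.1.1, hs.2⟩
  exact_mod_cast h3

private theorem tdg_card {L : ℕ} (hL : 0 < L) (I : Finset ℤ) (x : ℤ) :
    (I.filter (fun s => s / (L : ℤ) = x)).card ≤ L := by
  have h1 : I.filter (fun s => s / (L : ℤ) = x) ⊆ Ico (x * L) (x * L + L) := by
    intro s hs
    rw [mem_filter] at hs
    rw [mem_Ico]
    have hL' : (0 : ℤ) < L := by exact_mod_cast hL
    have h3 := Int.emod_add_mul_ediv s (L : ℤ)
    have h4 := Int.emod_nonneg s hL'.ne'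
    have h5 := Int.emod_lt_of_pos s hL'
    rw [hs.2, mul_comm] at h3
    constructor <;> linarith
  refine (card_le_card h1).trans ?_
  rw [Int.card_Ico]
  have h2 : x * (L : ℤ) + L - x * L = L := by ring
  rw [h2, Int.toNat_natCast]

/-- one of the two types of diagonals -/
private theorem tdg_one (H : TH m l n l' R S) (k : Fin 4) (I A : Finset ℤ) (a : ℤ → ℤ)
    (c : ℤ → ℕ) (hc : ∀ x, c x ≤ l) (hA : ∀ x, x ∉ A → c x = 0)
    (hcard : ∀ x, (I.filter (fun s => a s = x)).card ≤ l')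
    (hd : ∀ s, ∑ e ∈ (board n).filter (fun e => ln k e = s), (cnt S l (cellT l' e) : ℝ) =
      ((l' : ℝ) / 2) * (c (a s) : ℝ))
    (hI : ∀ s, s ∉ I → (board n).filter (fun e => ln k e = s) = ∅) :
    ∑ s ∈ I, phi (dsum n (WT S l l' R) k s) ≤
      ((l' : ℝ) / l) * ∑ x ∈ A, (l : ℝ) * phi ((c x : ℝ) / l) := by
  have hl0 : (0 : ℝ) < l := by exact_mod_cast H.hl
  have hl'0 : (0 : ℝ) < l' := by exact_mod_cast H.hl'
  have hR0 : (0 : ℝ) < R := by exact_mod_cast H.hR
  have hD : ∀ s, dsum n (W0 S l l' R) k s =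
      ((R : ℝ) / (R + 3 * l')) * ((c (a s) : ℝ) / l) := by
    intro s
    unfold dsum W0
    rw [← sum_mul, ← mul_sum, hd]
    unfold lam
    field_simp
  have hc0 : ∀ x, 0 ≤ (c x : ℝ) / l := fun x => by positivity
  have hc1 : ∀ x, (c x : ℝ) / l ≤ 1 := by
    intro x
    rw [div_le_one hl0]
    exact_mod_cast hc x
  have hρ0 : 0 ≤ (R : ℝ) / (R + 3 * l') := by positivity
  have hρ1 : (R : ℝ) / (R + 3 * l') ≤ 1 := by
    rw [div_le_one (by positivity)]
    linarith
  have hle : ∀ s, dsum n (W0 S l l' R) k s ≤ (c (a s) : ℝ) / l := by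
    intro s
    rw [hD]
    exact mul_le_of_le_one_left (hc0 _) hρ1
  have h0 : ∀ s, 0 ≤ dsum n (W0 S l l' R) k s := by
    intro s
    rw [hD]
    exact mul_nonneg hρ0 (hc0 _)
  have h1 : ∀ s, dsum n (W0 S l l' R) k s ≤ 1 := fun s => (hle s).trans (hc1 _)
  have hz : ∀ s, s ∉ I → dsum n (W0 S l l' R) k s = 0 := by
    intro s hs
    unfold dsum
    rw [hI s hs, sum_empty]
  calc ∑ s ∈ I, phi (dsum n (WT S l l' R) k s)
      = ∑ s ∈ I, phi ((1 / (R : ℝ) ^ 2) * ∑ u ∈ range R, ∑ v ∈ range R,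
        dsum n (W0 S l l' R) k (s - ln k ((u : ℤ), (v : ℤ)))) :=
        sum_congr rfl fun s _ => by rw [dsum_WT H]
    _ ≤ ∑ s ∈ I, phi (dsum n (W0 S l l' R) k s) :=
        tdg_avg (fun s => dsum n (W0 S l l' R) k s) I h0 h1 hz R H.hR
          (fun u v => ln k ((u : ℤ), (v : ℤ)))
    _ ≤ ∑ s ∈ I, phi ((c (a s) : ℝ) / l) :=
        sum_le_sum fun s _ => phi_mono (h0 s) (hle s) (hc1 _)
    _ ≤ ∑ x ∈ A, (l' : ℝ) * phi ((c x : ℝ) / l) :=
        tdg_group A I a (fun x => phi ((c x : ℝ) / l)) (fun x => phi_nonneg (hc0 x) (hc1 x))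
          (fun x hx => by rw [hA x hx, Nat.cast_zero, zero_div, phi_zero]) l' hcard
    _ = ((l' : ℝ) / l) * ∑ x ∈ A, (l : ℝ) * phi ((c x : ℝ) / l) := by
        rw [mul_sum]
        apply sum_congr rfl
        intro x _
        field_simp

theorem Dg_WT (H : TH m l n l' R S) : Dg n (WT S l l' R) ≤ ((l' : ℝ) / l) * Pd S l := by
  unfold Dg Pd
  rw [mul_add]
  apply add_le_add
  · refine tdg_one H 2 _ _ (fun s => s / (l' : ℤ) - 2) (cs S l) (cs_le H) ?_ ?_ (diag2 H) ?_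
    · intro x hx
      unfold cs
      rw [card_eq_zero, filter_eq_empty_iff]
      intro e he h1
      exact hx (mem_image.2 ⟨e, he, h1⟩)
    · intro x
      have h1 := tdg_card H.hl' (Finset.Ico (0 : ℤ) (2 * n)) (x + 2)
      refine le_trans (le_of_eq ?_) h1
      congr 1
      apply filter_congr
      intro s _
      show s / (l' : ℤ) - 2 = x ↔ s / (l' : ℤ) = x + 2
      omega
    · intro s hs
      rw [filter_eq_empty_iff]
      intro e he h1
      rw [mem_board] at he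
      apply hs
      rw [mem_Ico, ← h1, ln_two]
      omega
  · refine tdg_one H 3 _ _ (fun s => s / (l' : ℤ)) (cd S l) (cd_le H) ?_ ?_ (diag3 H) ?_
    · intro x hx
      unfold cd
      rw [card_eq_zero, filter_eq_empty_iff]
      intro e he h1
      exact hx (mem_image.2 ⟨e, he, h1⟩)
    · intro x
      exact tdg_card H.hl' (Finset.Ioo (-(n : ℤ)) n) x
    · intro s hs
      rw [filter_eq_empty_iff]
      intro e he h1
      rw [mem_board] at he
      apply hs
      rw [mem_Ioo, ← h1, ln_three]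
      omega

end Pool.Agent.NQ
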