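import Pool.Agent.NQ.TCnt
import Pool.Agent.NQ.TSum
import Pool.Agent.NQ.TShf

/-!
# NQ-TEnt: the entropy of the averaged weights

Plan. For `e ∈ board n`, Jensen for `negMulLog` (`Real.concaveOn_negMulLog.le_map_sum`, weights `1/R²`):
`negMulLog (WT e) ≥ (1/R²) ∑_{u,v} negMulLog (W0 (e - (u,v)))`. Sum over `e`, exchange; for fixed
`u, v` the sum over the board of `negMulLog (W0 (e - (u,v)))` equals the sum over the board of
`negMulLog (W0 e)` (`shift_board`, `negMulLog 0 = 0`). So `Ent n WT ≥ Ent n W0`. By `sum_cell` with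
`G x = negMulLog (lam * x * (2/l'^2))`:
`Ent n W0 = ∑_c (l'^2/2) negMulLog (lam w_c 2/l'^2) = ∑_c lam w_c log (l'^2/(2 lam w_c))`
and `l'^2/(2 lam w) = (l^2/(2w)) * (l'^2/(l^2 lam))`, `l'^2/(l^2 lam) = (l'/l) (R+3l')/R ≥ l'/l`. So
`Ent n WT ≥ lam (Se S l + m log (l'/l))`.
-/

namespace Pool.Agent.NQ

open Finset

variable {m l n l' R : ℕ} {S : Finset (ℤ × ℤ)}

private theorem tent_lam_pos (H : TH m l n l' R S) : 0 < lam l l' R := by
  have hl0 : (0 : ℝ) < l := by exact_mod_cast H.hl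
  have hl'0 : (0 : ℝ) < l' := by exact_mod_cast H.hl'
  have hR0 : (0 : ℝ) < R := by exact_mod_cast H.hR
  unfold lam
  positivity

private theorem tent_jensen (H : TH m l n l' R S) (e : ℤ × ℤ) :
    (1 / (R : ℝ) ^ 2) * ∑ u ∈ range R, ∑ v ∈ range R,
      Real.negMulLog (W0 S l l' R (e.1 - (u : ℤ), e.2 - (v : ℤ))) ≤
      Real.negMulLog (WT S l l' R e) := by
  have hR0 : (0 : ℝ) < R := by exact_mod_cast H.hR
  have h2 := Real.concaveOn_negMulLog.le_map_sum (t := range R ×ˢ range R)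
    (w := fun _ => 1 / (R : ℝ) ^ 2)
    (p := fun x : ℕ × ℕ => W0 S l l' R (e.1 - (x.1 : ℤ), e.2 - (x.2 : ℤ)))
    (fun _ _ => by positivity)
    (by
      rw [sum_const, card_product, card_range, nsmul_eq_mul]
      push_cast
      field_simp)
    (fun x _ => by
      rw [Set.mem_Ici]
      unfold W0
      have := (tent_lam_pos H).le
      positivity)
  simp only [smul_eq_mul] at h2
  rw [← mul_sum, ← mul_sum, sum_product, sum_product] at h2
  exact h2

private theorem tent_cell (H : TH m l n l' R S) {w : ℕ} (hw : 0 < w) :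
    lam l l' R * ((w : ℝ) * Real.log ((l : ℝ) ^ 2 / (2 * (w : ℝ))) +
      w * Real.log ((l' : ℝ) / l)) ≤
      ((l' : ℝ) ^ 2 / 2) * Real.negMulLog (lam l l' R * (w : ℝ) * (2 / (l' : ℝ) ^ 2)) := by
  have hl0 : (0 : ℝ) < l := by exact_mod_cast H.hl
  have hl'0 : (0 : ℝ) < l' := by exact_mod_cast H.hl'
  have hR0 : (0 : ℝ) < R := by exact_mod_cast H.hR
  have hw0 : (0 : ℝ) < w := by exact_mod_cast hw
  have hlam := tent_lam_pos H
  have h1 : ((l' : ℝ) ^ 2 / 2) * Real.negMulLog (lam l l' R * (w : ℝ) * (2 / (l' : ℝ) ^ 2)) =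
      lam l l' R * (w * -Real.log (lam l l' R * (w : ℝ) * (2 / (l' : ℝ) ^ 2))) := by
    unfold Real.negMulLog
    field_simp
  rw [h1, ← mul_add]
  apply mul_le_mul_of_nonneg_left _ hlam.le
  apply mul_le_mul_of_nonneg_left _ hw0.le
  rw [← Real.log_inv, ← Real.log_mul (by positivity) (by positivity)]
  apply Real.log_le_log (by positivity)
  have h2 : (lam l l' R * (w : ℝ) * (2 / (l' : ℝ) ^ 2))⁻¹ =
      (l : ℝ) ^ 2 / (2 * (w : ℝ)) * ((l' : ℝ) / l) * ((R + 3 * l') / R) := by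
    unfold lam
    field_simp
  rw [h2]
  have h3 : (1 : ℝ) ≤ (R + 3 * l') / R := by
    rw [le_div_iff₀ hR0]
    linarith
  exact le_mul_of_one_le_right (by positivity) h3

theorem Ent_WT (H : TH m l n l' R S) :
    lam l l' R * (Se S l + m * Real.log ((l' : ℝ) / l)) ≤ Ent n (WT S l l' R) := by
  have hR0 : (0 : ℝ) < R := by exact_mod_cast H.hR
  have hlam := tent_lam_pos H
  -- the weights before averaging
  have e1 : ∑ e ∈ board n, Real.negMulLog (W0 S l l' R e) ≤ Ent n (WT S l l' R) := by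
    unfold Ent
    calc ∑ e ∈ board n, Real.negMulLog (W0 S l l' R e)
        = (1 / (R : ℝ) ^ 2) * ∑ u ∈ range R, ∑ v ∈ range R, ∑ e ∈ board n,
          Real.negMulLog (W0 S l l' R e) := by
          rw [sum_const, sum_const, card_range, nsmul_eq_mul, nsmul_eq_mul]
          field_simp
      _ = (1 / (R : ℝ) ^ 2) * ∑ u ∈ range R, ∑ v ∈ range R, ∑ e ∈ board n,
          Real.negMulLog (W0 S l l' R (e.1 - (u : ℤ), e.2 - (v : ℤ))) := by
          congr 1
          refine sum_congr rfl fun u hu => sum_congr rfl fun v hv => ?_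
          exact (shift_board H Real.negMulLog Real.negMulLog_zero (mem_range.1 hu)
            (mem_range.1 hv)).symm
      _ = ∑ e ∈ board n, (1 / (R : ℝ) ^ 2) * ∑ u ∈ range R, ∑ v ∈ range R,
          Real.negMulLog (W0 S l l' R (e.1 - (u : ℤ), e.2 - (v : ℤ))) := by
          rw [← mul_sum]
          congr 1
          symm
          rw [sum_comm]
          apply sum_congr rfl
          intro u _
          rw [sum_comm]
      _ ≤ ∑ e ∈ board n, Real.negMulLog (WT S l l' R e) :=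
          sum_le_sum fun e _ => tent_jensen H e
  refine le_trans ?_ e1
  have e2 : ∑ e ∈ board n, Real.negMulLog (W0 S l l' R e) =
      ∑ c ∈ S.image (cell l), ((l' : ℝ) ^ 2 / 2) *
        Real.negMulLog (lam l l' R * (cnt S l c : ℝ) * (2 / (l' : ℝ) ^ 2)) :=
    sum_cell H (fun x => Real.negMulLog (lam l l' R * (x : ℝ) * (2 / (l' : ℝ) ^ 2)))
      (by simp)
  rw [e2]
  have e3 : lam l l' R * (Se S l + m * Real.log ((l' : ℝ) / l)) =
      ∑ c ∈ S.image (cell l), lam l l' R * ((cnt S l c : ℝ) *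
        Real.log ((l : ℝ) ^ 2 / (2 * (cnt S l c : ℝ))) +
        (cnt S l c : ℝ) * Real.log ((l' : ℝ) / l)) := by
    rw [← mul_sum, sum_add_distrib, ← sum_mul, sum_cnt H]
    rfl
  rw [e3]
  apply sum_le_sum
  intro c hc
  apply tent_cell H
  obtain ⟨e, he, hec⟩ := mem_image.1 hc
  unfold cnt
  rw [card_pos]
  exact ⟨e, mem_filter.2 ⟨he, hec⟩⟩

end Pool.Agent.NQ
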