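import Pool.Agent.NQ.KNum
import Pool.Agent.NQ.TAvg
import Pool.Agent.NQ.TEnt
import Pool.Agent.NQ.TDg

/-!
# NQ-KPar: the transfer with the actual parameters

Plan. `par` gives `l', R`; `x = l' m/l`; `ω = Λ^(-29)`.
* `2/l' ≤ 4Λ^58/n` (`WT_le`). Total mass: `mass_WT`, `lam m ≥ (1 - 4ω) x ≥ n (1 - 10 ω)`. Line sums:
  `row_le`, `col_le`, `sd_le`, `dd_le`.
* `F n WT ≥ lam (Se + m log (l'/l)) - (l'/l) Pd` (`Ent_WT`, `Dg_WT`), `lam = (l'/l)(1 - ε)`: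
  `= (x/m) (Se - Pd) + x log (x/m) - ε (x/m) Se - ε x log (x/m)` (note `l'/l = x/m`).
  `Se ≤ 2 m log m` (`cnt ≥ 1`, `log (l²/2) ≤ 2 log m`, `∑ cnt = m`), `log m ≤ Λ`, `log (x/m) ≤ log n ≤ Λ`
  (and if `log (x/m) < 0` the last term is `≥ 0`), for `Λ ≥ Λ0` (`m, n ≤ Λ^1001`). Total error
  `≤ 4ω (2 n Λ + n Λ) ≤ n/Λ`.
-/

namespace Pool.Agent.NQ

open Finset

/-- Logarithms of the sizes are at most `Λ`. -/
theorem kpar_log_le : ∃ Λ0 : ℕ, ∀ Λ m : ℕ, Λ0 ≤ Λ → 0 < m → m ≤ Λ ^ 1001 →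
    Real.log (m : ℝ) ≤ Λ := by
  have h1 : ∀ᶠ x : ℝ in Filter.atTop, 1001 * Real.log x ≤ x := by
    have h2 := Real.isLittleO_log_id_atTop.def (c := 1 / 1001) (by norm_num)
    filter_upwards [h2, Filter.eventually_ge_atTop (1 : ℝ)] with x hx h1x
    have h3 : 0 ≤ Real.log x := Real.log_nonneg h1x
    rw [Real.norm_of_nonneg h3, id, Real.norm_of_nonneg (by linarith)] at hx
    linarith
  obtain ⟨y, hy⟩ := Filter.eventually_atTop.mp h1
  refine ⟨⌈y⌉₊ + 1, fun Λ m hΛ hm hmΛ => ?_⟩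
  have hΛ1 : y ≤ (Λ : ℝ) := by
    have h4 : y ≤ (⌈y⌉₊ : ℝ) := Nat.le_ceil y
    have h5 : ((⌈y⌉₊ + 1 : ℕ) : ℝ) ≤ Λ := by exact_mod_cast hΛ
    push_cast at h5
    linarith
  have h6 := hy _ hΛ1
  have h7 : (m : ℝ) ≤ (Λ : ℝ) ^ 1001 := by exact_mod_cast hmΛ
  have h8 : Real.log (m : ℝ) ≤ Real.log ((Λ : ℝ) ^ 1001) :=
    Real.log_le_log (by exact_mod_cast hm) h7
  rw [Real.log_pow] at h8
  push_cast at h8
  linarith

/-- Upper bound for the cell entropy. -/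
theorem kpar_Se_le {m l n l' R : ℕ} {S : Finset (ℤ × ℤ)} (H : TH m l n l' R S) (hm : 1 ≤ m)
    (hlm : l ≤ m) : Se S l ≤ 2 * m * Real.log m := by
  have hm1 : (1 : ℝ) ≤ m := by exact_mod_cast hm
  have hl1 : (1 : ℝ) ≤ l := by exact_mod_cast H.hl
  have hlm' : (l : ℝ) ≤ m := by exact_mod_cast hlm
  have key : ∀ c ∈ S.image (cell l), (cnt S l c : ℝ) * Real.log ((((l : ℕ) : ℤ) : ℝ) ^ 2 /
      (2 * (cnt S l c : ℝ))) ≤ (cnt S l c : ℝ) * (2 * Real.log m) := by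
    intro c hc
    apply mul_le_mul_of_nonneg_left _ (Nat.cast_nonneg _)
    have hc1 : 1 ≤ cnt S l c := by
      obtain ⟨e, he, hec⟩ := mem_image.mp hc
      exact Finset.card_pos.mpr ⟨e, mem_filter.mpr ⟨he, hec⟩⟩
    have hc2 : (1 : ℝ) ≤ cnt S l c := by exact_mod_cast hc1
    have e1 : (2 : ℝ) * Real.log m = Real.log ((m : ℝ) ^ 2) := by
      rw [Real.log_pow]; push_cast; ring
    rw [e1]
    apply Real.log_le_log
    · push_cast
      positivity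
    · push_cast
      rw [div_le_iff₀ (by positivity)]
      have h3 : (l : ℝ) ^ 2 ≤ (m : ℝ) ^ 2 := by
        apply pow_le_pow_left₀ (by linarith) hlm'
      nlinarith [sq_nonneg (m : ℝ)]
  unfold Se
  refine (Finset.sum_le_sum key).trans ?_
  rw [← Finset.sum_mul, sum_cnt H]
  linarith

theorem trans : ∃ Λ0 : ℕ, ∀ Λ m n : ℕ, Λ0 ≤ Λ → Λ ^ 500 ≤ m → m ≤ Λ ^ 1001 → Λ ^ 500 ≤ n →
    n ≤ Λ ^ 1001 → ∀ S ∈ Qset m, ∃ (W : ℤ × ℤ → ℝ) (x : ℝ), (∀ e, 0 ≤ W e) ∧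
      (∀ e, W e ≤ 4 * (Λ : ℝ) ^ 58 / n) ∧ (∀ k s, dsum n W k s ≤ 1) ∧
      (n : ℝ) * (1 - 10 / (Λ : ℝ) ^ 29) ≤ ∑ e ∈ board n, W e ∧
      (n : ℝ) * (1 - 6 / (Λ : ℝ) ^ 29) ≤ x ∧ x ≤ n ∧
      (x / m) * Psi S ((2 * (m / (2 * Λ ^ 58)) : ℕ) : ℤ) + x * Real.log (x / m) - n / Λ ≤ F n W := by
  obtain ⟨Λ1, hΛ1⟩ := kpar_log_le
  refine ⟨Λ1 + 30, fun Λ m n hΛ hm hmΛ hn hnΛ S hS => ?_⟩
  have hΛ30 : 30 ≤ Λ := by omega
  have hΛ1' : Λ1 ≤ Λ := by omega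
  have hm0 : 0 < m := lt_of_lt_of_le (by positivity) hm
  have hn0 : 0 < n := lt_of_lt_of_le (by positivity) hn
  have hlogm := hΛ1 Λ m hΛ1' hm0 hmΛ
  have hlogn := hΛ1 Λ n hΛ1' hn0 hnΛ
  obtain ⟨l', R, H, hx6, hxn, hl', hlam⟩ := par hΛ30 hm hn (mem_Qset.mp hS)
  have hlm : 2 * (m / (2 * Λ ^ 58)) ≤ m := by
    have h1 : m / (2 * Λ ^ 58) ≤ m / 2 := by
      apply Nat.div_le_div_left _ (by norm_num)
      have : 1 ≤ Λ ^ 58 := Nat.one_le_pow _ _ (by omega)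
      omega
    omega
  have hSe := kpar_Se_le H (by omega) hlm
  generalize hldef : 2 * (m / (2 * Λ ^ 58)) = l at *
  have hl0 : (0 : ℝ) < l := by exact_mod_cast H.hl
  have hl'0 : (0 : ℝ) < l' := by exact_mod_cast H.hl'
  have hR0 : (0 : ℝ) < R := by exact_mod_cast H.hR
  have hm0' : (0 : ℝ) < m := by exact_mod_cast hm0
  have hn0' : (0 : ℝ) < n := by exact_mod_cast hn0
  have hΛ0' : (30 : ℝ) ≤ Λ := by exact_mod_cast hΛ30
  have hΛpos : (0 : ℝ) < Λ := by linarith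
  set x : ℝ := (l' : ℝ) * m / l with hx
  have hx0 : 0 < x := by positivity
  set ω : ℝ := 1 / (Λ : ℝ) ^ 29 with hω
  have hω0 : 0 < ω := by positivity
  have h6ω : 6 / (Λ : ℝ) ^ 29 = 6 * ω := by rw [hω]; ring
  have h4ω : 4 / (Λ : ℝ) ^ 29 = 4 * ω := by rw [hω]; ring
  have h10ω : 10 / (Λ : ℝ) ^ 29 = 10 * ω := by rw [hω]; ring
  have hω1 : ω * (Λ : ℝ) ^ 29 = 1 := by rw [hω]; field_simp
  have hω2 : ω * (Λ : ℝ) * (12 * Λ) ≤ 1 := by
    have h1 : (Λ : ℝ) * (12 * Λ) ≤ (Λ : ℝ) ^ 29 := by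
      have h2 : (Λ : ℝ) ^ 3 ≤ (Λ : ℝ) ^ 29 := pow_le_pow_right₀ (by linarith) (by norm_num)
      nlinarith [sq_nonneg (Λ : ℝ), mul_pos hΛpos hΛpos]
    calc ω * (Λ : ℝ) * (12 * Λ) = ω * ((Λ : ℝ) * (12 * Λ)) := by ring
      _ ≤ ω * (Λ : ℝ) ^ 29 := mul_le_mul_of_nonneg_left h1 hω0.le
      _ = 1 := hω1
  rw [h6ω] at hx6
  rw [h4ω] at hlam
  rw [h6ω, h10ω]
  refine ⟨WT S l l' R, x, fun e => WT_nonneg H e, fun e => ?_, fun k s => ?_, ?_, hx6, hxn, ?_⟩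
  · refine (WT_le H e).trans ?_
    rw [div_le_div_iff₀ hl'0 hn0']
    rw [div_le_iff₀ (by positivity)] at hl'
    nlinarith
  · fin_cases k
    · exact row_le H s
    · exact col_le H s
    · exact sd_le H s
    · exact dd_le H s
  · rw [mass_WT H]
    refine le_trans ?_ hlam
    have h1 : (1 - 4 * ω) * ((n : ℝ) * (1 - 6 * ω)) ≤ (1 - 4 * ω) * x := by
      apply mul_le_mul_of_nonneg_left hx6
      have : ω * 30 * (12 * 30) ≤ 1 := by
        refine le_trans ?_ hω2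
        have : (30 : ℝ) * (12 * 30) ≤ Λ * (12 * Λ) := by nlinarith
        nlinarith
      linarith
    refine le_trans ?_ h1
    have : 0 ≤ (n : ℝ) * (24 * ω ^ 2) := by positivity
    nlinarith
  · -- the functional
    have hF : lam l l' R * (Se S l + m * Real.log ((l' : ℝ) / l)) - ((l' : ℝ) / l) * Pd S l ≤
        F n (WT S l l' R) := by
      unfold F
      have h1 := Ent_WT H
      have h2 := Dg_WT H
      linarith
    refine le_trans ?_ hF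
    have hxm : x / m = (l' : ℝ) / l := by
      rw [hx]; field_simp
    have hlamle : lam l l' R ≤ (l' : ℝ) / l := by
      unfold lam
      rw [div_le_div_iff₀ (by positivity) hl0]
      have : 0 ≤ (l' : ℝ) * (l' * (3 * l)) := by positivity
      nlinarith
    have hlam0 : 0 ≤ lam l l' R := by unfold lam; positivity
    -- ε' = l'/l - lam
    have hε1 : ((l' : ℝ) / l - lam l l' R) * m ≤ 4 * ω * x := by
      have h1 : (l' : ℝ) / l * m = x := by rw [hx]; ring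
      have : ((l' : ℝ) / l - lam l l' R) * m = x - lam l l' R * m := by rw [sub_mul, h1]
      rw [this]
      linarith
    have hε0 : 0 ≤ (l' : ℝ) / l - lam l l' R := by linarith
    have hlogx : Real.log ((l' : ℝ) / l) ≤ Λ := by
      rw [← hxm]
      refine le_trans (Real.log_le_log (by positivity) (?_ : x / m ≤ n)) hlogn
      rw [div_le_iff₀ hm0']
      have h1m : (1 : ℝ) ≤ m := by exact_mod_cast hm0
      exact hxn.trans (le_mul_of_one_le_right hn0'.le h1m)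
    have hb : Se S l + m * Real.log ((l' : ℝ) / l) ≤ 3 * m * Λ := by
      have h1 : (m : ℝ) * Real.log m ≤ m * Λ := mul_le_mul_of_nonneg_left hlogm hm0'.le
      have h2 : (m : ℝ) * Real.log ((l' : ℝ) / l) ≤ m * Λ := mul_le_mul_of_nonneg_left hlogx hm0'.le
      linarith
    have hfin : ((l' : ℝ) / l - lam l l' R) * (Se S l + m * Real.log ((l' : ℝ) / l)) ≤ n / Λ := by
      calc ((l' : ℝ) / l - lam l l' R) * (Se S l + m * Real.log ((l' : ℝ) / l))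
          ≤ ((l' : ℝ) / l - lam l l' R) * (3 * m * Λ) := mul_le_mul_of_nonneg_left hb hε0
        _ = (((l' : ℝ) / l - lam l l' R) * m) * (3 * Λ) := by ring
        _ ≤ (4 * ω * x) * (3 * Λ) := mul_le_mul_of_nonneg_right hε1 (by positivity)
        _ = x * (ω * Λ * 12) := by ring
        _ ≤ n * (ω * Λ * 12) := mul_le_mul_of_nonneg_right hxn (by positivity)
        _ ≤ n / Λ := by
          rw [le_div_iff₀ hΛpos]
          have : (n : ℝ) * (ω * Λ * 12) * Λ = n * (ω * Λ * (12 * Λ)) := by ring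
          rw [this]
          exact mul_le_of_le_one_right hn0'.le hω2
    rw [hxm]
    have hxx : x = (l' : ℝ) / l * m := by rw [hx]; ring
    have hPsi : Psi S (l : ℤ) = Se S l - Pd S l := rfl
    rw [hPsi, hxx]
    have hexp : lam l l' R * (Se S l + m * Real.log ((l' : ℝ) / l)) =
      (l' : ℝ) / l * (Se S l + m * Real.log ((l' : ℝ) / l)) -
      ((l' : ℝ) / l - lam l l' R) * (Se S l + m * Real.log ((l' : ℝ) / l)) := by ring
    rw [hexp]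
    linarith

end Pool.Agent.NQ
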