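import Pool.Agent.NQ.NDefs

/-!
# NQ-NBasA: basic bounds, densities and probabilities of the edges
-/

namespace Pool.Agent.NQ

open Finset

variable {V J : Type} [DecidableEq V] [DecidableEq J] {D : Dat V J}

theorem t_nonneg (H : OK D) {k : ℕ} (hk : k ≤ D.N) : 0 ≤ D.t k := by
  induction k with
  | zero => exact H.t0.ge
  | succ k ih => exact (ih (Nat.le_of_succ_le hk)).trans (H.tm k hk)

theorem one_sub_ge (H : OK D) {k : ℕ} (hk : k ≤ D.N) (v : V) : D.κ ≤ 1 - D.d v * D.t k := by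
  have h1 := t_nonneg H hk
  have h2 := H.tN k hk
  have h3 : D.d v * D.t k ≤ 1 * D.t k := mul_le_mul_of_nonneg_right (H.d1 v) h1
  linarith

theorem one_sub_le (H : OK D) {k : ℕ} (hk : k ≤ D.N) (v : V) : 1 - D.d v * D.t k ≤ 1 := by
  have h1 := mul_nonneg (H.d0 v) (t_nonneg H hk)
  linarith

theorem pe_ge (H : OK D) {k : ℕ} (hk : k ≤ D.N) {e : J} (he : e ∈ D.E) :
    D.κ ^ 4 ≤ pe D e (D.t k) := by
  unfold pe
  rw [← H.card e he, ← prod_const]
  exact prod_le_prod (fun v _ => H.κ0.le) fun v _ => one_sub_ge H hk v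

theorem pe_pos (H : OK D) {k : ℕ} (hk : k ≤ D.N) {e : J} (he : e ∈ D.E) :
    0 < pe D e (D.t k) :=
  lt_of_lt_of_le (pow_pos H.κ0 4) (pe_ge H hk he)

theorem pe_le_one (H : OK D) {k : ℕ} (hk : k ≤ D.N) (e : J) : pe D e (D.t k) ≤ 1 := by
  unfold pe
  exact prod_le_one (fun v _ => H.κ0.le.trans (one_sub_ge H hk v)) fun v _ => one_sub_le H hk v

theorem dl_nonneg (H : OK D) {k : ℕ} (hk : k < D.N) : 0 ≤ dl D k := by
  have h1 := H.tm k hk
  unfold dl
  linarith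

theorem dl_le_one (H : OK D) {k : ℕ} (hk : k < D.N) : dl D k ≤ 1 := by
  have h1 := H.tN (k + 1) hk
  have h2 := t_nonneg H hk.le
  have h3 := H.κ0
  unfold dl
  linarith

theorem κ_le_one (H : OK D) : D.κ ≤ 1 := by
  have h1 := H.tN 0 (Nat.zero_le _)
  have h2 := H.t0
  linarith

theorem qm_nonneg (H : OK D) : 0 ≤ qm D :=
  div_nonneg H.β0 (pow_pos H.κ0 4).le

theorem qm_le (H : OK D) : qm D ≤ 1 / 100 := by
  unfold qm
  rw [div_le_div_iff₀ (pow_pos H.κ0 4) (by norm_num)]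
  linarith [H.small]

theorem qq_nonneg (H : OK D) {k : ℕ} (hk : k < D.N) {u : J → ℝ} (hu : Inv D k u) {e : J}
    (he : e ∈ D.E) : 0 ≤ qq D k u e := by
  unfold qq
  exact div_nonneg (mul_nonneg (dl_nonneg H hk) (hu.u0 e he)) (pe_pos H hk.le he).le

/-- Also useful without the factor `dl`. -/
theorem div_pe_le (H : OK D) {k : ℕ} (hk : k ≤ D.N) {u : J → ℝ} (h0 : ∀ e ∈ D.E, 0 ≤ u e)
    (h1 : ∀ e ∈ D.E, u e ≤ D.w e) {e : J} (he : e ∈ D.E) : u e / pe D e (D.t k) ≤ qm D := by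
  unfold qm
  exact div_le_div₀ H.β0 ((h1 e he).trans (H.wβ e he)) (pow_pos H.κ0 4) (pe_ge H hk he)

theorem qq_le (H : OK D) {k : ℕ} (hk : k < D.N) {u : J → ℝ} (hu : Inv D k u) {e : J}
    (he : e ∈ D.E) : qq D k u e ≤ qm D := by
  have h1 := div_pe_le H hk.le hu.u0 hu.uw he
  have h2 : 0 ≤ u e / pe D e (D.t k) := div_nonneg (hu.u0 e he) (pe_pos H hk.le he).le
  unfold qq
  rw [mul_div_assoc]
  calc dl D k * (u e / pe D e (D.t k)) ≤ 1 * (u e / pe D e (D.t k)) :=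
        mul_le_mul_of_nonneg_right (dl_le_one H hk) h2
    _ ≤ qm D := by rw [one_mul]; exact h1

end Pool.Agent.NQ
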