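import Pool.Agent.NQ.GEnc

/-!
# NQ block N (nibble with entropy): definitions

Abstract setting: `E` a finite set of edges, `S e` the set of the four lines of the edge `e`, weights
`w`, target degrees `d`, times `t 0 = 0 ≤ t 1 ≤ ... ≤ t N ≤ 1 - κ`. The state of the process is a
weight function `u : J → ℝ` (`u e = 0` for the dead edges). In round `k` every edge is chosen with
probability `q k u e = (t (k+1) - t k) u e / pe e (t k)` and every line `v` is killed with probability
`kp k u v`, all independently; then the weights of the edges which have a line that is killed or lies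
on a chosen edge become `0`, and the other weights are truncated.
-/

namespace Pool.Agent.NQ

open Finset
open Pool.Agent.PGr.Nib (EW)

/-- The data of the process. -/
structure Dat (V J : Type) where
  /-- edges -/
  E : Finset J
  /-- lines of an edge -/
  S : J → Finset V
  /-- weights -/
  w : J → ℝ
  /-- target degrees -/
  d : V → ℝ
  /-- times -/
  t : ℕ → ℝ
  /-- number of rounds -/
  N : ℕ
  /-- final density -/
  κ : ℝ
  /-- bound for the weights -/
  β : ℝ
  /-- error of one line in one round -/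
  ζ : ℝ

variable {V J : Type} [DecidableEq V] [DecidableEq J]

/-- All lines. -/
def VS (D : Dat V J) : Finset V := D.E.biUnion D.S

/-- Density of an edge. -/
noncomputable def pe (D : Dat V J) (e : J) (x : ℝ) : ℝ := ∏ v ∈ D.S e, (1 - D.d v * x)

/-- Length of a round. -/
noncomputable def dl (D : Dat V J) (k : ℕ) : ℝ := D.t (k + 1) - D.t k

/-- Probability that an edge is chosen. -/
noncomputable def qq (D : Dat V J) (k : ℕ) (u : J → ℝ) (e : J) : ℝ :=
  dl D k * u e / pe D e (D.t k)

/-- Survival probability of a line. -/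
noncomputable def rho (D : Dat V J) (k : ℕ) (v : V) : ℝ :=
  (1 - D.d v * D.t (k + 1)) / (1 - D.d v * D.t k)

/-- Probability that no edge at the line `v` is chosen. -/
noncomputable def sv (D : Dat V J) (k : ℕ) (u : J → ℝ) (v : V) : ℝ :=
  ∏ e ∈ D.E.filter (fun e => v ∈ D.S e), (1 - qq D k u e)

/-- Probability that a line is killed. -/
noncomputable def kp (D : Dat V J) (k : ℕ) (u : J → ℝ) (v : V) : ℝ := 1 - rho D k v / sv D k u v

/-- The lines of `X` survive when the edges `T` are chosen and the lines `Z` are killed. -/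
def Alive (D : Dat V J) (X : Finset V) (T : Finset J) (Z : Finset V) : Prop :=
  Disjoint X Z ∧ ∀ e ∈ T, Disjoint (D.S e) X

instance (D : Dat V J) (X : Finset V) (T : Finset J) (Z : Finset V) :
    Decidable (Alive D X T Z) := inferInstanceAs (Decidable (_ ∧ _))

/-- The bound for the degrees at time `t k`. -/
noncomputable def tau (D : Dat V J) (k : ℕ) (v : V) : ℝ := D.d v / (1 - D.d v * D.t k)

/-- The degree after the round, before truncation. -/
noncomputable def xs (D : Dat V J) (k : ℕ) (u : J → ℝ) (T : Finset J) (Z : Finset V) (v : V) : ℝ :=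
  ∑ e ∈ D.E.filter (fun e => v ∈ D.S e),
    if Alive D (D.S e) T Z then u e / pe D e (D.t (k + 1)) else 0

/-- The truncation factor. -/
noncomputable def theta (D : Dat V J) (k : ℕ) (u : J → ℝ) (T : Finset J) (Z : Finset V) (v : V) : ℝ :=
  if xs D k u T Z v ≤ tau D (k + 1) v then 1 else tau D (k + 1) v / xs D k u T Z v

/-- The next state. -/
noncomputable def next (D : Dat V J) (k : ℕ) (u : J → ℝ) (T : Finset J) (Z : Finset V) (e : J) : ℝ :=
  if Alive D (D.S e) T Z then u e * ∏ v ∈ D.S e, theta D k u T Z v else 0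

/-- Mean over the choices of one round. -/
noncomputable def R1 (D : Dat V J) (k : ℕ) (u : J → ℝ) (f : Finset J → Finset V → ℝ) : ℝ :=
  EW D.E (qq D k u) (fun T => EW (VS D) (kp D k u) (fun Z => f T Z))

/-- The transition operator. -/
noncomputable def RR (D : Dat V J) (k : ℕ) (f : (J → ℝ) → ℝ) (u : J → ℝ) : ℝ :=
  R1 D k u (fun T Z => f (next D k u T Z))

/-- The mean of a function of the state at time `k`. -/
noncomputable def EE (D : Dat V J) : ℕ → ((J → ℝ) → ℝ) → ℝ
  | 0, f => f D.w
  | k + 1, f => EE D k (RR D k f)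

/-- The law of the sets chosen in the rounds `k, ..., k + r - 1`, started in the state `u`. -/
noncomputable def law (D : Dat V J) : (r : ℕ) → ℕ → (J → ℝ) → (Fin r → Finset J) → ℝ
  | 0, _, _, _ => 1
  | r + 1, k, u, l => bern D.E (qq D k u) (l 0) *
      EW (VS D) (kp D k u) (fun Z => law D r (k + 1) (next D k u (l 0) Z) (Fin.tail l))

/-- The hypotheses. -/
structure OK (D : Dat V J) : Prop where
  card : ∀ e ∈ D.E, (D.S e).card = 4
  lin : ∀ e ∈ D.E, ∀ f ∈ D.E, e ≠ f → (D.S e ∩ D.S f).card ≤ 1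
  w0 : ∀ e ∈ D.E, 0 ≤ D.w e
  wβ : ∀ e ∈ D.E, D.w e ≤ D.β
  d0 : ∀ v, 0 ≤ D.d v
  d1 : ∀ v, D.d v ≤ 1
  deg : ∀ v, ∑ e ∈ D.E.filter (fun e => v ∈ D.S e), D.w e ≤ D.d v
  t0 : D.t 0 = 0
  tm : ∀ k < D.N, D.t k ≤ D.t (k + 1)
  tN : ∀ k ≤ D.N, D.t k ≤ 1 - D.κ
  κ0 : 0 < D.κ
  β0 : 0 ≤ D.β
  small : 100 * D.β ≤ D.κ ^ 4
  ζ0 : 0 < D.ζ
  ζ2 : 30 * D.β ≤ D.ζ ^ 2 * D.κ ^ 6
  ζ5 : 5 * D.β ≤ D.ζ * D.κ ^ 5

/-- The invariant of the states at time `k`. -/
structure Inv (D : Dat V J) (k : ℕ) (u : J → ℝ) : Prop where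
  u0 : ∀ e ∈ D.E, 0 ≤ u e
  uw : ∀ e ∈ D.E, u e ≤ D.w e
  deg : ∀ v, ∑ e ∈ D.E.filter (fun e => v ∈ D.S e), u e / pe D e (D.t k) ≤ tau D k v

/-- The normalised mass of a state at time `k`. -/
noncomputable def mass (D : Dat V J) (k : ℕ) (u : J → ℝ) : ℝ :=
  ∑ e ∈ D.E, u e / pe D e (D.t k)

/-- The upper bound for all probabilities `qq`. -/
noncomputable def qm (D : Dat V J) : ℝ := D.β / D.κ ^ 4

end Pool.Agent.NQ
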