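import Pool.Agent.NQ.NBas

/-!
# NQ-NInv: the invariant is preserved; loss by truncation (deterministic)

Plan. `inv_next`: `theta ∈ [0,1]` (`xs ≥ 0`, `tau ≥ 0`; if `xs > tau` then `xs > 0`). So
`0 ≤ next e ≤ u e ≤ w e`. For the line `v`: each alive edge `e ∋ v` has
`next e ≤ u e * theta v` (the other factors are `≤ 1`), so the sum of `next e/pe e (t (k+1))` over
`e ∋ v` is at most `theta v * xs v ≤ tau (k+1) v`.
`mass_next`: `next e = u e ∏ theta ≥ u e (1 - ∑_{v ∈ S e} (1 - theta v))` for alive `e`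
(`∏ (1 - x_i) ≥ 1 - ∑ x_i`), sum over `e` and exchange:
`∑_e 1[alive] (u e/pe) ∑_{v∈S e} (1 - theta v) = ∑_v xs v (1 - theta v) = ∑_v max (xs v - tau v) 0`
(`v` runs over `VS D`).
`edge_next`: `next e ≤ 1[alive] u e`.
-/

namespace Pool.Agent.NQ

open Finset

variable {V J : Type} [DecidableEq V] [DecidableEq J] {D : Dat V J}

private theorem xs_nonneg (H : OK D) {k : ℕ} (hk : k < D.N) {u : J → ℝ} (hu : Inv D k u)
    (T : Finset J) (Z : Finset V) (v : V) : 0 ≤ xs D k u T Z v := by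
  unfold xs
  refine sum_nonneg fun e he => ?_
  have he' := (mem_filter.1 he).1
  split_ifs
  · exact div_nonneg (hu.u0 e he') (pe_pos H (by omega : k + 1 ≤ D.N) he').le
  · exact le_rfl

private theorem theta_nonneg (H : OK D) {k : ℕ} (hk : k < D.N) {u : J → ℝ} (hu : Inv D k u)
    (T : Finset J) (Z : Finset V) (v : V) : 0 ≤ theta D k u T Z v := by
  unfold theta
  split_ifs
  · exact zero_le_one
  · exact div_nonneg (tau_nonneg H (by omega) v) (xs_nonneg H hk hu T Z v)

private theorem theta_le_one (H : OK D) {k : ℕ} (hk : k < D.N) {u : J → ℝ} (hu : Inv D k u)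
    (T : Finset J) (Z : Finset V) (v : V) : theta D k u T Z v ≤ 1 := by
  unfold theta
  split_ifs with h
  · exact le_rfl
  · exact div_le_one_of_le₀ (not_le.1 h).le (xs_nonneg H hk hu T Z v)

private theorem theta_mul (H : OK D) {k : ℕ} (hk : k < D.N) (u : J → ℝ)
    (T : Finset J) (Z : Finset V) (v : V) :
    theta D k u T Z v * xs D k u T Z v ≤ tau D (k + 1) v := by
  unfold theta
  split_ifs with h
  · rw [one_mul]
    exact h
  · have h1 : 0 < xs D k u T Z v :=
      lt_of_le_of_lt (tau_nonneg H (by omega : k + 1 ≤ D.N) v) (not_le.1 h)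
    rw [div_mul_cancel₀ _ h1.ne']

private theorem theta_max (H : OK D) {k : ℕ} (hk : k < D.N) (u : J → ℝ)
    (T : Finset J) (Z : Finset V) (v : V) :
    xs D k u T Z v * (1 - theta D k u T Z v) = max (xs D k u T Z v - tau D (k + 1) v) 0 := by
  unfold theta
  split_ifs with h
  · rw [sub_self, mul_zero, max_eq_right (sub_nonpos.2 h)]
  · have h1 : 0 < xs D k u T Z v :=
      lt_of_le_of_lt (tau_nonneg H (by omega : k + 1 ≤ D.N) v) (not_le.1 h)
    rw [max_eq_left (sub_nonneg.2 (not_le.1 h).le), mul_sub, mul_one, mul_div_cancel₀ _ h1.ne']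

private theorem prod_theta_le_one (H : OK D) {k : ℕ} (hk : k < D.N) {u : J → ℝ} (hu : Inv D k u)
    (T : Finset J) (Z X : Finset V) : ∏ v ∈ X, theta D k u T Z v ≤ 1 :=
  prod_le_one (fun v _ => theta_nonneg H hk hu T Z v) (fun v _ => theta_le_one H hk hu T Z v)

private theorem prod_theta_nonneg (H : OK D) {k : ℕ} (hk : k < D.N) {u : J → ℝ} (hu : Inv D k u)
    (T : Finset J) (Z X : Finset V) : 0 ≤ ∏ v ∈ X, theta D k u T Z v :=
  prod_nonneg (fun v _ => theta_nonneg H hk hu T Z v)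

private theorem prod_theta_le (H : OK D) {k : ℕ} (hk : k < D.N) {u : J → ℝ} (hu : Inv D k u)
    (T : Finset J) (Z X : Finset V) {v : V} (hv : v ∈ X) :
    ∏ v ∈ X, theta D k u T Z v ≤ theta D k u T Z v := by
  rw [← mul_prod_erase X _ hv]
  exact mul_le_of_le_one_right (theta_nonneg H hk hu T Z v) (prod_theta_le_one H hk hu T Z _)

private theorem one_sub_sum_le (X : Finset V) (f : V → ℝ) (h0 : ∀ v, 0 ≤ f v) (h1 : ∀ v, f v ≤ 1) :
    1 - ∑ v ∈ X, (1 - f v) ≤ ∏ v ∈ X, f v := by
  induction X using Finset.induction_on with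
  | empty => simp
  | insert a X ha ih =>
    rw [sum_insert ha, prod_insert ha]
    have h2 : 0 ≤ ∏ v ∈ X, f v := prod_nonneg fun v _ => h0 v
    have h3 : ∏ v ∈ X, f v ≤ 1 := prod_le_one (fun v _ => h0 v) fun v _ => h1 v
    have h4 := h0 a
    have h5 := h1 a
    nlinarith

theorem edge_next (H : OK D) {k : ℕ} (hk : k < D.N) {u : J → ℝ} (hu : Inv D k u) (T : Finset J)
    (Z : Finset V) {e : J} (he : e ∈ D.E) :
    next D k u T Z e ≤ if Alive D (D.S e) T Z then u e else 0 := by
  unfold next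
  split_ifs
  · exact mul_le_of_le_one_right (hu.u0 e he) (prod_theta_le_one H hk hu T Z _)
  · exact le_rfl

theorem inv_next (H : OK D) {k : ℕ} (hk : k < D.N) {u : J → ℝ} (hu : Inv D k u) (T : Finset J)
    (Z : Finset V) : Inv D (k + 1) (next D k u T Z) := by
  refine ⟨?_, ?_, ?_⟩
  · intro e he
    unfold next
    split_ifs
    · exact mul_nonneg (hu.u0 e he) (prod_theta_nonneg H hk hu T Z _)
    · exact le_rfl
  · intro e he
    refine (edge_next H hk hu T Z he).trans ?_
    split_ifs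
    · exact hu.uw e he
    · exact H.w0 e he
  · intro v
    refine le_trans ?_ (theta_mul H hk u T Z v)
    unfold xs
    rw [mul_sum]
    refine sum_le_sum fun e he => ?_
    have he1 := mem_filter.1 he
    have hpe := pe_pos H (by omega : k + 1 ≤ D.N) he1.1
    unfold next
    split_ifs
    · rw [div_eq_mul_inv, div_eq_mul_inv]
      have h1 := prod_theta_le H hk hu T Z (D.S e) he1.2
      have h2 : 0 ≤ u e * (pe D e (D.t (k + 1)))⁻¹ :=
        mul_nonneg (hu.u0 e he1.1) (inv_nonneg.2 hpe.le)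
      calc u e * (∏ v ∈ D.S e, theta D k u T Z v) * (pe D e (D.t (k + 1)))⁻¹ =
            (∏ v ∈ D.S e, theta D k u T Z v) * (u e * (pe D e (D.t (k + 1)))⁻¹) := by ring
        _ ≤ theta D k u T Z v * (u e * (pe D e (D.t (k + 1)))⁻¹) :=
            mul_le_mul_of_nonneg_right h1 h2
    · rw [zero_div, mul_zero]

theorem mass_next (H : OK D) {k : ℕ} (hk : k < D.N) {u : J → ℝ} (hu : Inv D k u) (T : Finset J)
    (Z : Finset V) :
    (∑ e ∈ D.E, if Alive D (D.S e) T Z then u e / pe D e (D.t (k + 1)) else 0) -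
      ∑ v ∈ VS D, max (xs D k u T Z v - tau D (k + 1) v) 0 ≤
        mass D (k + 1) (next D k u T Z) := by
  have h1 : ∑ v ∈ VS D, max (xs D k u T Z v - tau D (k + 1) v) 0 =
      ∑ e ∈ D.E, ∑ v ∈ D.S e, (if Alive D (D.S e) T Z then u e / pe D e (D.t (k + 1)) else 0) *
        (1 - theta D k u T Z v) := by
    rw [sum_comm' (t' := VS D) (s' := fun v => D.E.filter (fun e => v ∈ D.S e))]
    · refine sum_congr rfl fun v _ => ?_
      rw [← theta_max H hk u T Z v, ← sum_mul]
      rfl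
    · intro e v
      unfold VS
      rw [mem_filter, mem_biUnion]
      constructor
      · rintro ⟨h2, h3⟩
        exact ⟨⟨h2, h3⟩, e, h2, h3⟩
      · rintro ⟨⟨h2, h3⟩, -⟩
        exact ⟨h2, h3⟩
  rw [h1, ← sum_sub_distrib]
  unfold mass
  refine sum_le_sum fun e he => ?_
  have hpe := pe_pos H (by omega : k + 1 ≤ D.N) he
  unfold next
  split_ifs
  · rw [← mul_sum]
    have h2 := one_sub_sum_le (D.S e) (theta D k u T Z) (theta_nonneg H hk hu T Z)
      (theta_le_one H hk hu T Z)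
    have h3 : 0 ≤ u e / pe D e (D.t (k + 1)) := div_nonneg (hu.u0 e he) hpe.le
    calc u e / pe D e (D.t (k + 1)) - u e / pe D e (D.t (k + 1)) *
          ∑ v ∈ D.S e, (1 - theta D k u T Z v) =
          u e / pe D e (D.t (k + 1)) * (1 - ∑ v ∈ D.S e, (1 - theta D k u T Z v)) := by ring
      _ ≤ u e / pe D e (D.t (k + 1)) * ∏ v ∈ D.S e, theta D k u T Z v :=
          mul_le_mul_of_nonneg_left h2 h3
      _ = u e * (∏ v ∈ D.S e, theta D k u T Z v) / pe D e (D.t (k + 1)) := by ring
  · simp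

end Pool.Agent.NQ
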