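import Pool.Agent.NQ.NInv

/-!
# NQ-NLaw: the law of the chosen sets

Plan. Sums over `hs D.E (r+1)` split as sums over `l 0 ∈ D.E.powerset` and `Fin.tail l ∈ hs D.E r`
(`Fin.cons` equivalence; prove first the lemma
`∑ l ∈ hs E (r+1), g (l 0) (Fin.tail l) = ∑ T ∈ E.powerset, ∑ l' ∈ hs E r, g T l'`).
* `law_nonneg`: induction on `r`, `bern_nonneg`, `EW_mono`/positivity of the weights, `inv_next`.
* `law_sum`: induction on `r` (for all `k`, `u`): exchange with `EW` (`EW_sum`), `EW_one`, `bern_sum`.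
-/

namespace Pool.Agent.NQ

open Finset
open Pool.Agent.PGr.Nib (EW)

variable {V J : Type} [DecidableEq V] [DecidableEq J] {D : Dat V J}

theorem sum_hs_succ (E : Finset J) (r : ℕ) (g : Finset J → (Fin r → Finset J) → ℝ) :
    ∑ l ∈ hs E (r + 1), g (l 0) (Fin.tail l) = ∑ T ∈ E.powerset, ∑ l ∈ hs E r, g T l := by
  rw [← Finset.sum_product']
  refine Finset.sum_nbij' (fun l => (l 0, Fin.tail l)) (fun x => Fin.cons x.1 x.2) ?_ ?_ ?_ ?_ ?_
  · intro l hl
    rw [mem_hs] at hl
    simp only [Finset.mem_product, Finset.mem_powerset, mem_hs]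
    exact ⟨hl 0, fun k => hl k.succ⟩
  · rintro ⟨T, l⟩ hx
    simp only [Finset.mem_product, Finset.mem_powerset, mem_hs] at hx
    rw [mem_hs]
    intro k
    refine Fin.cases ?_ (fun k => ?_) k
    · exact hx.1
    · exact hx.2 k
  · intro l _
    exact Fin.cons_self_tail l
  · rintro ⟨T, l⟩ _
    simp
  · intro l _
    rfl

theorem law_nonneg (H : OK D) {r k : ℕ} (hk : k + r ≤ D.N) {u : J → ℝ} (hu : Inv D k u)
    {l : Fin r → Finset J} (hl : l ∈ hs D.E r) : 0 ≤ law D r k u l := by
  induction r generalizing k u with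
  | zero => exact zero_le_one
  | succ r ih =>
    have hk' : k < D.N := by omega
    rw [mem_hs] at hl
    show 0 ≤ bern D.E (qq D k u) (l 0) *
      EW (VS D) (kp D k u) (fun Z => law D r (k + 1) (next D k u (l 0) Z) (Fin.tail l))
    refine mul_nonneg (bern_nonneg (fun e he => qq_nonneg H hk' hu he) (fun e he => ?_) (hl 0)) ?_
    · have h1 := qq_le H hk' hu he
      have h2 := qm_le H
      linarith
    · have h0 : EW (VS D) (kp D k u) (fun _ => 0) = 0 := by simp [EW]
      rw [← h0]
      refine Pool.Agent.PGr.Nib.EW_mono (fun v _ => kp_nonneg H hk' hu v)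
        (fun v _ => kp_le_one H hk' hu v) fun Z _ => ?_
      refine ih (by omega) (inv_next H hk' hu (l 0) Z) ?_
      rw [mem_hs]
      exact fun i => hl i.succ

theorem law_sum (r k : ℕ) (u : J → ℝ) : ∑ l ∈ hs D.E r, law D r k u l = 1 := by
  induction r generalizing k u with
  | zero => simp [hs, law]
  | succ r ih =>
    have h1 := sum_hs_succ D.E r (fun T l => bern D.E (qq D k u) T *
      EW (VS D) (kp D k u) (fun Z => law D r (k + 1) (next D k u T Z) l))
    have h2 : ∑ l ∈ hs D.E (r + 1), law D (r + 1) k u l =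
        ∑ l ∈ hs D.E (r + 1), bern D.E (qq D k u) (l 0) *
          EW (VS D) (kp D k u) (fun Z => law D r (k + 1) (next D k u (l 0) Z) (Fin.tail l)) := rfl
    rw [h2]
    refine h1.trans ?_
    rw [← bern_sum D.E (qq D k u)]
    refine Finset.sum_congr rfl fun T _ => ?_
    rw [← Finset.mul_sum, ← Pool.Agent.PGr.Nib.EW_sum]
    simp_rw [ih]
    rw [Pool.Agent.PGr.Nib.EW_one, mul_one]

end Pool.Agent.NQ
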