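import Pool.Agent.NQ.NPair
import Pool.Agent.NQ.NR1

/-!
# NQ-NMom: first and second moment of a degree after one round

`v ∈ VS D`, `x_e = u e/pe e (t (k+1))`, `0 ≤ x_e ≤ qm` (`div_pe_le`), `ρ = rho k v`.

`E[xs] = ∑_{e∋v} x_e surv (S e)`, and
`x_e surv (S e) (1-qm)^3 ≤ x_e surv (S e) (1 - qq e)^3 = x_e ∏_{S e} rho = u e/pe e (t k)`.
`mom2`: expand the square; `Alive (S e) ∧ Alive (S f) ↔ Alive (S e ∪ S f)`. Diagonal terms:
`x_e² surv (S e) ≤ qm x_e surv (S e)`. Off-diagonal (`e ≠ f` through `v`): `surv_pair` and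
`∏_{S e} rho ≤ surv (S e)`.
-/

namespace Pool.Agent.NQ

open Finset

variable {V J : Type} [DecidableEq V] [DecidableEq J] {D : Dat V J}

private noncomputable def nx (D : Dat V J) (k : ℕ) (u : J → ℝ) (e : J) : ℝ :=
  u e / pe D e (D.t (k + 1))

private theorem nmom_surv_nonneg (H : OK D) {k : ℕ} (hk : k < D.N) {u : J → ℝ} (hu : Inv D k u)
    (X : Finset V) : 0 ≤ surv D k u X := by
  have h := R1_mono H hk hu (f := fun _ _ => (0 : ℝ))
    (g := fun T Z => if Alive D X T Z then 1 else 0) (fun T _ Z _ => by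
      show (0 : ℝ) ≤ if Alive D X T Z then 1 else 0
      split_ifs
      · exact zero_le_one
      · exact le_refl 0)
  rwa [R1_const] at h

private theorem nmom_nx_nonneg (H : OK D) {k : ℕ} (hk : k < D.N) {u : J → ℝ} (hu : Inv D k u)
    {e : J} (he : e ∈ D.E) : 0 ≤ nx D k u e :=
  div_nonneg (hu.u0 e he) (pe_pos H (Nat.succ_le_of_lt hk) he).le

private theorem nmom_one (k : ℕ) (u : J → ℝ) (v : V) :
    R1 D k u (fun T Z => xs D k u T Z v) =
      ∑ e ∈ D.E.filter (fun e => v ∈ D.S e), nx D k u e * surv D k u (D.S e) := by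
  have h1 : (fun (T : Finset J) (Z : Finset V) => xs D k u T Z v) = fun T Z =>
      ∑ e ∈ D.E.filter (fun e => v ∈ D.S e),
        nx D k u e * (if Alive D (D.S e) T Z then (1 : ℝ) else 0) := by
    funext T Z
    unfold xs
    refine sum_congr rfl fun e _ => ?_
    unfold nx
    split_ifs <;> ring
  rw [h1, R1_sum k u _ (fun e T Z => nx D k u e * (if Alive D (D.S e) T Z then (1 : ℝ) else 0))]
  exact sum_congr rfl fun e _ => R1_const_mul k u _ _

private theorem nmom_rho_prod_pos (H : OK D) {k : ℕ} (hk : k < D.N) (X : Finset V) :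
    0 < ∏ v ∈ X, rho D k v := prod_pos fun v _ => rho_pos H hk v

private theorem nmom_prod_le (H : OK D) {k : ℕ} (hk : k < D.N) {u : J → ℝ} (hu : Inv D k u) {e : J}
    (he : e ∈ D.E) : ∏ v ∈ D.S e, rho D k v ≤ surv D k u (D.S e) := by
  rw [← surv_edge H hk hu he]
  have h0 := qq_nonneg H hk hu he
  have h1 := qq_le H hk hu he
  have h2 := qm_le H
  exact mul_le_of_le_one_right (nmom_surv_nonneg H hk hu _)
    (pow_le_one₀ (by linarith) (by linarith))

theorem mom1_le (H : OK D) {k : ℕ} (hk : k < D.N) {u : J → ℝ} (hu : Inv D k u) {v : V}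
    (hv : v ∈ VS D) :
    R1 D k u (fun T Z => xs D k u T Z v) * (1 - qm D) ^ 3 ≤ rho D k v * tau D (k + 1) v := by
  rw [nmom_one, sum_mul, rho_tau H hk]
  refine le_trans (sum_le_sum fun e he => ?_) (hu.deg v)
  have heE := (mem_filter.1 he).1
  have h0 := qq_nonneg H hk hu heE
  have h1 := qq_le H hk hu heE
  have h2 := qm_le H
  have h3 := nmom_surv_nonneg H hk hu (D.S e)
  have h4 := nmom_nx_nonneg H hk hu heE
  have h5 : (1 - qm D) ^ 3 ≤ (1 - qq D k u e) ^ 3 := pow_le_pow_left₀ (by linarith) (by linarith) 3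
  calc nx D k u e * surv D k u (D.S e) * (1 - qm D) ^ 3
      ≤ nx D k u e * surv D k u (D.S e) * (1 - qq D k u e) ^ 3 :=
        mul_le_mul_of_nonneg_left h5 (mul_nonneg h4 h3)
    _ = nx D k u e * ∏ x ∈ D.S e, rho D k x := by rw [mul_assoc, surv_edge H hk hu heE]
    _ = u e / pe D e (D.t k) := by
        unfold nx
        rw [pe_succ H hk e]
        have h6 := (pe_pos H hk.le heE).ne'
        have h7 := (nmom_rho_prod_pos H hk (D.S e)).ne'
        field_simp

theorem mom1_nonneg (H : OK D) {k : ℕ} (hk : k < D.N) {u : J → ℝ} (hu : Inv D k u) {v : V}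
    (hv : v ∈ VS D) : 0 ≤ R1 D k u (fun T Z => xs D k u T Z v) := by
  rw [nmom_one]
  exact sum_nonneg fun e he => mul_nonneg (nmom_nx_nonneg H hk hu (mem_filter.1 he).1)
    (nmom_surv_nonneg H hk hu _)

private theorem nmom_alive (X Y : Finset V) (T : Finset J) (Z : Finset V) :
    Alive D (X ∪ Y) T Z ↔ Alive D X T Z ∧ Alive D Y T Z := by
  unfold Alive
  simp only [disjoint_union_left, disjoint_union_right]
  constructor
  · rintro ⟨⟨h1, h2⟩, h3⟩
    exact ⟨⟨h1, fun e he => (h3 e he).1⟩, ⟨h2, fun e he => (h3 e he).2⟩⟩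
  · rintro ⟨⟨h1, h3⟩, ⟨h2, h4⟩⟩
    exact ⟨⟨h1, h2⟩, fun e he => ⟨h3 e he, h4 e he⟩⟩

private theorem nmom_two (k : ℕ) (u : J → ℝ) (v : V) :
    R1 D k u (fun T Z => xs D k u T Z v ^ 2) =
      ∑ e ∈ D.E.filter (fun e => v ∈ D.S e), ∑ f ∈ D.E.filter (fun e => v ∈ D.S e),
        nx D k u e * nx D k u f * surv D k u (D.S e ∪ D.S f) := by
  have h1 : (fun (T : Finset J) (Z : Finset V) => xs D k u T Z v ^ 2) = fun T Z =>
      ∑ e ∈ D.E.filter (fun e => v ∈ D.S e), ∑ f ∈ D.E.filter (fun e => v ∈ D.S e),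
        nx D k u e * nx D k u f * (if Alive D (D.S e ∪ D.S f) T Z then (1 : ℝ) else 0) := by
    funext T Z
    unfold xs
    rw [sq, sum_mul_sum]
    refine sum_congr rfl fun e _ => sum_congr rfl fun f _ => ?_
    unfold nx
    by_cases h2 : Alive D (D.S e) T Z
    · by_cases h3 : Alive D (D.S f) T Z
      · rw [if_pos h2, if_pos h3, if_pos ((nmom_alive _ _ _ _).2 ⟨h2, h3⟩), mul_one]
      · rw [if_neg h3, if_neg (fun h => h3 ((nmom_alive _ _ _ _).1 h).2), mul_zero, mul_zero]
    · rw [if_neg h2, if_neg (fun h => h2 ((nmom_alive _ _ _ _).1 h).1), zero_mul, mul_zero]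
  rw [h1, R1_sum k u _ (fun e T Z => ∑ f ∈ D.E.filter (fun e => v ∈ D.S e),
        nx D k u e * nx D k u f * (if Alive D (D.S e ∪ D.S f) T Z then (1 : ℝ) else 0))]
  refine sum_congr rfl fun e _ => ?_
  rw [R1_sum k u _ (fun f T Z =>
        nx D k u e * nx D k u f * (if Alive D (D.S e ∪ D.S f) T Z then (1 : ℝ) else 0))]
  exact sum_congr rfl fun f _ => R1_const_mul k u _ _

theorem mom2_le (H : OK D) {k : ℕ} (hk : k < D.N) {u : J → ℝ} (hu : Inv D k u) {v : V}
    (hv : v ∈ VS D) :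
    R1 D k u (fun T Z => xs D k u T Z v ^ 2) * (1 - qm D) ^ 15 * rho D k v ≤
      R1 D k u (fun T Z => xs D k u T Z v) ^ 2 +
        qm D * rho D k v * R1 D k u (fun T Z => xs D k u T Z v) := by
  rw [nmom_two, nmom_one]
  set A := D.E.filter (fun e => v ∈ D.S e) with hA
  set a : J → ℝ := fun e => nx D k u e * surv D k u (D.S e) with ha
  have hρ := (rho_pos H hk v).le
  have hq0 := qm_nonneg H
  have hq1 := qm_le H
  have hpow0 : 0 ≤ (1 - qm D) ^ 15 := pow_nonneg (by linarith) _
  have hpow1 : (1 - qm D) ^ 15 ≤ 1 := pow_le_one₀ (by linarith) (by linarith)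
  have ha0 : ∀ e ∈ A, 0 ≤ a e := fun e he =>
    mul_nonneg (nmom_nx_nonneg H hk hu (mem_filter.1 he).1) (nmom_surv_nonneg H hk hu _)
  have hterm : ∀ e ∈ A, ∀ f ∈ A,
      nx D k u e * nx D k u f * surv D k u (D.S e ∪ D.S f) * ((1 - qm D) ^ 15 * rho D k v) ≤
        a e * a f + (if e = f then qm D * rho D k v * a e else 0) := by
    intro e he f hf
    have heE := (mem_filter.1 he).1
    have hfE := (mem_filter.1 hf).1
    have hxe := nmom_nx_nonneg H hk hu heE
    have hxf := nmom_nx_nonneg H hk hu hfE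
    by_cases hef : e = f
    · subst hef
      rw [if_pos rfl, union_self]
      have hs := nmom_surv_nonneg H hk hu (D.S e)
      have hle : nx D k u e ≤ qm D := div_pe_le H (Nat.succ_le_of_lt hk) hu.u0 hu.uw heE
      have h1 : nx D k u e * nx D k u e * surv D k u (D.S e) * ((1 - qm D) ^ 15 * rho D k v) ≤
          qm D * rho D k v * a e := by
        have h2 : nx D k u e * a e * ((1 - qm D) ^ 15 * rho D k v) ≤
            qm D * a e * (1 * rho D k v) := by
          apply mul_le_mul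
          · exact mul_le_mul_of_nonneg_right hle (ha0 e he)
          · exact mul_le_mul_of_nonneg_right hpow1 hρ
          · exact mul_nonneg hpow0 hρ
          · exact mul_nonneg hq0 (ha0 e he)
        calc nx D k u e * nx D k u e * surv D k u (D.S e) * ((1 - qm D) ^ 15 * rho D k v)
            = nx D k u e * a e * ((1 - qm D) ^ 15 * rho D k v) := by simp only [ha]; ring
          _ ≤ qm D * a e * (1 * rho D k v) := h2
          _ = qm D * rho D k v * a e := by ring
      have h3 := mul_self_nonneg (a e)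
      linarith
    · rw [if_neg hef, add_zero]
      have h1 := surv_pair H hk hu heE hfE hef (mem_filter.1 he).2 (mem_filter.1 hf).2
      have h2 := nmom_prod_le H hk hu heE
      have h3 := nmom_prod_le H hk hu hfE
      have h4 : surv D k u (D.S e ∪ D.S f) * (1 - qm D) ^ 15 * rho D k v ≤
          surv D k u (D.S e) * surv D k u (D.S f) :=
        h1.trans (mul_le_mul h2 h3 (nmom_rho_prod_pos H hk _).le (nmom_surv_nonneg H hk hu _))
      calc nx D k u e * nx D k u f * surv D k u (D.S e ∪ D.S f) * ((1 - qm D) ^ 15 * rho D k v)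
          = (nx D k u e * nx D k u f) *
            (surv D k u (D.S e ∪ D.S f) * (1 - qm D) ^ 15 * rho D k v) := by ring
        _ ≤ (nx D k u e * nx D k u f) * (surv D k u (D.S e) * surv D k u (D.S f)) :=
            mul_le_mul_of_nonneg_left h4 (mul_nonneg hxe hxf)
        _ = a e * a f := by simp only [ha]; ring
  have h5 : (∑ e ∈ A, ∑ f ∈ A, nx D k u e * nx D k u f * surv D k u (D.S e ∪ D.S f)) *
      (1 - qm D) ^ 15 * rho D k v =
      ∑ e ∈ A, ∑ f ∈ A, nx D k u e * nx D k u f * surv D k u (D.S e ∪ D.S f) *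
        ((1 - qm D) ^ 15 * rho D k v) := by
    rw [mul_assoc, sum_mul]
    exact sum_congr rfl fun e _ => by rw [sum_mul]
  rw [h5]
  refine (sum_le_sum fun e he => sum_le_sum fun f hf => hterm e he f hf).trans (le_of_eq ?_)
  have h6 : ∀ e ∈ A, ∑ f ∈ A, (a e * a f + (if e = f then qm D * rho D k v * a e else 0)) =
      a e * (∑ f ∈ A, a f) + qm D * rho D k v * a e := by
    intro e he
    rw [sum_add_distrib, ← mul_sum, sum_ite_eq, if_pos he]
  rw [sum_congr rfl h6, sum_add_distrib, ← sum_mul, ← mul_sum, sq]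

end Pool.Agent.NQ
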