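import Pool.Agent.NQ.NSur

/-!
# NQ-NPair: survival of two edges on a common line

For `e ≠ f` in `E` with a common line `v` the set `X = S e ∪ S f` has seven lines, and the product
of the `sv` over `X` is the product of `(1 - qq g) ^ |S g ∩ X|` over all edges `g`. The sum of
`|S g ∩ X| - 1` over the edges meeting `X` is at most `3 + 3 + 9 = 15`, which compares this product
with the product of the `1 - qq g` over the edges meeting `X`.
-/

namespace Pool.Agent.NQ

open Finset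

variable {V J : Type} [DecidableEq V] [DecidableEq J] {D : Dat V J}

/-- The double product over lines and edges. -/
private theorem prod_sv_eq (k : ℕ) (u : J → ℝ) (X : Finset V) :
    ∏ x ∈ X, sv D k u x = ∏ g ∈ D.E, (1 - qq D k u g) ^ (D.S g ∩ X).card := by
  unfold sv
  have h1 : ∀ x ∈ X, ∏ g ∈ D.E.filter (fun g => x ∈ D.S g), (1 - qq D k u g)
      = ∏ g ∈ D.E, if x ∈ D.S g then (1 - qq D k u g) else 1 := by
    intro x _
    rw [prod_filter]
  rw [prod_congr rfl h1, prod_comm]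
  refine prod_congr rfl (fun g _ => ?_)
  rw [← prod_filter, prod_const]
  congr 1
  rw [inter_comm]
  congr 1

/-- An edge different from `e` and `f` which has two lines in the union avoids the common line. -/
private theorem two_lines (H : OK D) {e f g : J} (he : e ∈ D.E) (hf : f ∈ D.E) (hg : g ∈ D.E)
    (hge : g ≠ e) (hgf : g ≠ f) :
    (D.S g ∩ (D.S e ∪ D.S f)).card ≤ 2 := by
  rw [inter_union_distrib_left]
  have h1 := H.lin g hg e he hge
  have h2 := H.lin g hg f hf hgf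
  have h3 := card_union_le (D.S g ∩ D.S e) (D.S g ∩ D.S f)
  omega

private theorem two_pair (H : OK D) {e f g : J} (he : e ∈ D.E) (hf : f ∈ D.E) (hg : g ∈ D.E)
    (hge : g ≠ e) (hgf : g ≠ f) {v : V} (hve : v ∈ D.S e) (hvf : v ∈ D.S f)
    (h2 : 2 ≤ (D.S g ∩ (D.S e ∪ D.S f)).card) :
    ∃ a ∈ (D.S e).erase v, ∃ b ∈ (D.S f).erase v, a ≠ b ∧ a ∈ D.S g ∧ b ∈ D.S g := by
  have h1 := H.lin g hg e he hge
  have h3 := H.lin g hg f hf hgf
  have hu : (D.S g ∩ (D.S e ∪ D.S f)).card ≤ (D.S g ∩ D.S e).card + (D.S g ∩ D.S f).card := by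
    rw [inter_union_distrib_left]; exact card_union_le _ _
  have c1 : (D.S g ∩ D.S e).card = 1 := by omega
  have c2 : (D.S g ∩ D.S f).card = 1 := by omega
  obtain ⟨a, ha⟩ := card_eq_one.1 c1
  obtain ⟨b, hb⟩ := card_eq_one.1 c2
  have hab : a ≠ b := by
    intro hab
    rw [inter_union_distrib_left, ha, hb, hab, union_self, card_singleton] at h2
    omega
  have ha' : a ∈ D.S g ∩ D.S e := by rw [ha]; exact mem_singleton_self a
  have hb' : b ∈ D.S g ∩ D.S f := by rw [hb]; exact mem_singleton_self b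
  rw [mem_inter] at ha' hb'
  have hvg : v ∉ D.S g := by
    intro hvg
    have h4 : v ∈ D.S g ∩ D.S e := mem_inter.2 ⟨hvg, hve⟩
    have h5 : v ∈ D.S g ∩ D.S f := mem_inter.2 ⟨hvg, hvf⟩
    rw [ha, mem_singleton] at h4
    rw [hb, mem_singleton] at h5
    exact hab (h4.symm.trans h5)
  refine ⟨a, mem_erase.2 ⟨?_, ha'.2⟩, b, mem_erase.2 ⟨?_, hb'.2⟩, hab, ha'.1, hb'.1⟩
  · rintro rfl; exact hvg ha'.1
  · rintro rfl; exact hvg hb'.1

/-- At most nine other edges have two lines in the union. -/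
private theorem card_two (H : OK D) {e f : J} (he : e ∈ D.E) (hf : f ∈ D.E) {v : V}
    (hve : v ∈ D.S e) (hvf : v ∈ D.S f) :
    ((((D.E.erase e).erase f).filter
      (fun g => 2 ≤ (D.S g ∩ (D.S e ∪ D.S f)).card))).card ≤ 9 := by
  have hsub : (((D.E.erase e).erase f).filter
      (fun g => 2 ≤ (D.S g ∩ (D.S e ∪ D.S f)).card)) ⊆
      (((D.S e).erase v) ×ˢ ((D.S f).erase v)).biUnion
        (fun p => D.E.filter (fun g => p.1 ≠ p.2 ∧ p.1 ∈ D.S g ∧ p.2 ∈ D.S g)) := by
    intro g hg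
    rw [mem_filter, mem_erase, mem_erase] at hg
    obtain ⟨⟨hgf, hge, hgE⟩, h2⟩ := hg
    obtain ⟨a, ha, b, hb, hab, hag, hbg⟩ := two_pair H he hf hgE hge hgf hve hvf h2
    rw [mem_biUnion]
    exact ⟨(a, b), mem_product.2 ⟨ha, hb⟩, mem_filter.2 ⟨hgE, hab, hag, hbg⟩⟩
  have hc := card_biUnion_le_card_mul (((D.S e).erase v) ×ˢ ((D.S f).erase v))
    (fun p => D.E.filter (fun g => p.1 ≠ p.2 ∧ p.1 ∈ D.S g ∧ p.2 ∈ D.S g)) 1 (by
      intro p _
      rw [card_le_one]
      intro g hg g' hg'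
      rw [mem_filter] at hg hg'
      by_contra hne
      have h := H.lin g hg.1 g' hg'.1 hne
      rw [card_le_one] at h
      exact hg.2.1 (h p.1 (mem_inter.2 ⟨hg.2.2.1, hg'.2.2.1⟩) p.2
        (mem_inter.2 ⟨hg.2.2.2, hg'.2.2.2⟩)))
  have hp : ((((D.S e).erase v) ×ˢ ((D.S f).erase v))).card = 9 := by
    rw [card_product, card_erase_of_mem hve, card_erase_of_mem hvf, H.card e he, H.card f hf]
  calc _ ≤ _ := card_le_card hsub
    _ ≤ _ := hc
    _ = 9 := by rw [hp]

/-- The total excess of the edges is at most fifteen. -/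
private theorem excess (H : OK D) {e f : J} (he : e ∈ D.E) (hf : f ∈ D.E) (hef : e ≠ f) {v : V}
    (hve : v ∈ D.S e) (hvf : v ∈ D.S f) :
    ∑ g ∈ D.E, ((D.S g ∩ (D.S e ∪ D.S f)).card - 1) ≤ 15 := by
  have hfe : f ∈ D.E.erase e := mem_erase.2 ⟨hef.symm, hf⟩
  rw [← add_sum_erase _ _ he, ← add_sum_erase _ _ hfe]
  have h1 : (D.S e ∩ (D.S e ∪ D.S f)).card = 4 := by
    rw [inter_eq_left.2 subset_union_left]; exact H.card e he
  have h2 : (D.S f ∩ (D.S e ∪ D.S f)).card = 4 := by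
    rw [inter_eq_left.2 subset_union_right]; exact H.card f hf
  have h3 : ∑ g ∈ (D.E.erase e).erase f, ((D.S g ∩ (D.S e ∪ D.S f)).card - 1) ≤ 9 := by
    have h4 : ∀ g ∈ (D.E.erase e).erase f, (D.S g ∩ (D.S e ∪ D.S f)).card - 1 ≤
        if 2 ≤ (D.S g ∩ (D.S e ∪ D.S f)).card then 1 else 0 := by
      intro g hg
      rw [mem_erase, mem_erase] at hg
      have := two_lines H he hf hg.2.2 hg.2.1 hg.1
      split_ifs with h <;> omega
    refine (sum_le_sum h4).trans ?_
    rw [← card_filter]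
    exact card_two H he hf hve hvf
  rw [h1, h2]
  omega

theorem surv_pair (H : OK D) {k : ℕ} (hk : k < D.N) {u : J → ℝ} (hu : Inv D k u) {e f : J}
    (he : e ∈ D.E) (hf : f ∈ D.E) (hef : e ≠ f) {v : V} (hve : v ∈ D.S e) (hvf : v ∈ D.S f) :
    surv D k u (D.S e ∪ D.S f) * (1 - qm D) ^ 15 * rho D k v ≤
      (∏ x ∈ D.S e, rho D k x) * ∏ x ∈ D.S f, rho D k x := by
  have hX : D.S e ∪ D.S f ⊆ VS D := by
    intro x hx
    rw [mem_union] at hx
    unfold VS
    rw [mem_biUnion]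
    rcases hx with h | h
    · exact ⟨e, he, h⟩
    · exact ⟨f, hf, h⟩
  have hint : D.S e ∩ D.S f = {v} := by
    have h := H.lin e he f hf hef
    rw [card_le_one] at h
    ext x
    rw [mem_singleton]
    constructor
    · intro hx; exact h x hx v (mem_inter.2 ⟨hve, hvf⟩)
    · rintro rfl; exact mem_inter.2 ⟨hve, hvf⟩
  rw [← prod_union_inter, hint, prod_singleton]
  refine mul_le_mul_of_nonneg_right ?_ (rho_pos H hk v).le
  set X := D.S e ∪ D.S f with hXdef
  set c : ℝ := 1 - qm D with hc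
  have hc0 : 0 < c := by have := qm_le H; rw [hc]; linarith
  have hc1 : c ≤ 1 := by have := qm_nonneg H; rw [hc]; linarith
  have ha : ∀ g ∈ D.E, c ≤ 1 - qq D k u g := by
    intro g hg
    have := qq_le H hk hu hg
    rw [hc]; linarith
  have ha0 : ∀ g ∈ D.E, 0 < 1 - qq D k u g := fun g hg => lt_of_lt_of_le hc0 (ha g hg)
  set N : ℝ := ∏ g ∈ D.E.filter (fun g => ¬ Disjoint (D.S g) X), (1 - qq D k u g) with hN
  set P : ℝ := ∏ x ∈ X, sv D k u x with hP
  have hP0 : 0 < P := prod_pos (fun x _ => sv_pos H hk hu x)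
  have hR0 : 0 ≤ ∏ x ∈ X, rho D k x := prod_nonneg (fun x _ => (rho_pos H hk x).le)
  have hsurv : surv D k u X = (∏ x ∈ X, rho D k x) / P * N := by
    rw [R1_alive H hk hu hX, prod_div_distrib]
  -- comparison of `N` and `P`
  have hPN : P = N * ∏ g ∈ D.E, (1 - qq D k u g) ^ ((D.S g ∩ X).card - 1) := by
    rw [hP, prod_sv_eq, hN, prod_filter, ← prod_mul_distrib]
    refine prod_congr rfl (fun g _ => ?_)
    by_cases hd : Disjoint (D.S g) X
    · have h0 : (D.S g ∩ X).card = 0 := by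
        rw [card_eq_zero]; exact disjoint_iff_inter_eq_empty.1 hd
      rw [h0]
      simp [hd]
    · have h0 : 1 ≤ (D.S g ∩ X).card := by
        rw [Nat.one_le_iff_ne_zero, ne_eq, card_eq_zero]
        intro h; exact hd (disjoint_iff_inter_eq_empty.2 h)
      rw [if_pos hd, ← pow_succ']
      congr 1
      omega
  have hN0 : 0 < N := prod_pos (fun g hg => ha0 g (mem_filter.1 hg).1)
  have hexc : c ^ 15 ≤ ∏ g ∈ D.E, (1 - qq D k u g) ^ ((D.S g ∩ X).card - 1) := by
    calc c ^ 15 ≤ c ^ (∑ g ∈ D.E, ((D.S g ∩ X).card - 1)) :=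
          pow_le_pow_of_le_one hc0.le hc1 (excess H he hf hef hve hvf)
      _ = ∏ g ∈ D.E, c ^ ((D.S g ∩ X).card - 1) := (prod_pow_eq_pow_sum _ _ _).symm
      _ ≤ ∏ g ∈ D.E, (1 - qq D k u g) ^ ((D.S g ∩ X).card - 1) :=
          prod_le_prod (fun g _ => pow_nonneg hc0.le _)
            (fun g hg => pow_le_pow_left₀ hc0.le (ha g hg) _)
  have hfin : N * c ^ 15 ≤ P := by
    rw [hPN]
    exact mul_le_mul_of_nonneg_left hexc hN0.le
  rw [hsurv, div_mul_eq_mul_div, div_mul_eq_mul_div, div_le_iff₀ hP0]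
  calc (∏ x ∈ X, rho D k x) * N * c ^ 15 = (∏ x ∈ X, rho D k x) * (N * c ^ 15) := by ring
    _ ≤ (∏ x ∈ X, rho D k x) * P := mul_le_mul_of_nonneg_left hfin hR0

end Pool.Agent.NQ
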