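import Pool.Agent.NQ.NMom

/-!
# NQ-NVar: the expected overshoot of a degree

`v ∈ VS D`, `ρ = rho k v`, `E = R1`, `m = E[xs]/ρ`, `τ = tau (k+1) v ≤ 1/κ`, `1_v` the indicator of
`Alive D {v} T Z`, `E[1_v] = ρ` (`surv_line`).

Plan.
1. `m ≤ (1-qm)^(-3) τ` (`mom1_le`), so `m ≤ (26 / 25)/κ`, `max (m - τ) 0 ≤ ((1-qm)^(-3) - 1)/κ ≤ 4 qm/κ ≤ ζ`
   (`qm ≤ 1/100`, `OK.ζ5`).
2. `xs 1_v = xs` (an alive edge through `v` means that `v` is alive; else the sum is `0`), so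
   `E[(xs - m 1_v)²] = E[xs²] - ρ m²`, and `mom2_le` divided by `(1-qm)^15 ρ`:
   `E[xs²] ≤ ρ (1-qm)^(-15) (m² + qm m)`. So
   `E[(xs - m 1_v)²] ≤ m² ((1-qm)^(-15) - 1) + (1-qm)^(-15) qm m ≤ 30 qm/κ² ≤ ζ²`:
   `(1 - x)^15 ≥ 1 - 15 x` (`one_add_mul_le_pow`), `(1-x)^(-15) - 1 ≤ 15 x/(1-15x) ≤ 17.7 x` for
   `x ≤ 1/100`; `(26 / 25)² · 17.7 + 1.18 · (26 / 25) ≤ 21` (`OK.ζ2`: `30 β ≤ ζ² κ^6`, `qm/κ² = β/κ^6`).
3. pointwise `max (xs - τ) 0 ≤ (xs - m 1_v)²/(2ζ) + ζ/2 + max (m - τ) 0` (if `1_v = 0` then `xs = 0` and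
   the left side is `0`; if `1_v = 1`: `xs - τ = (xs - m) + (m - τ)` and `y ≤ y²/(2ζ) + ζ/2`). Take means:
   `≤ ζ/2 + ζ/2 + ζ`.
-/

namespace Pool.Agent.NQ

open Finset

variable {V J : Type} [DecidableEq V] [DecidableEq J] {D : Dat V J}

private theorem xs_nonneg' (H : OK D) {k : ℕ} (hk : k < D.N) {u : J → ℝ} (hu : Inv D k u) (v : V)
    (T : Finset J) (Z : Finset V) : 0 ≤ xs D k u T Z v := by
  unfold xs
  refine Finset.sum_nonneg fun e he => ?_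
  have heE := (Finset.mem_filter.mp he).1
  split_ifs
  · exact div_nonneg (hu.u0 e heE) (pe_pos H hk heE).le
  · exact le_rfl

private theorem xs_dead {k : ℕ} {u : J → ℝ} {v : V} {T : Finset J} {Z : Finset V}
    (h : ¬ Alive D {v} T Z) : xs D k u T Z v = 0 := by
  unfold xs
  refine Finset.sum_eq_zero fun e he => ?_
  have hv := (Finset.mem_filter.mp he).2
  rw [if_neg]
  intro hA
  apply h
  refine ⟨hA.1.mono_left (Finset.singleton_subset_iff.mpr hv), fun f hf => ?_⟩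
  exact (hA.2 f hf).mono_right (Finset.singleton_subset_iff.mpr hv)

private theorem real_core {q κ β ζ ρ τ E1 E2 : ℝ} (hq0 : 0 ≤ q) (hq1 : q ≤ 1 / 100)
    (hκ0 : 0 < κ) (hκ1 : κ ≤ 1) (hζ : 0 < ζ) (hqβ : q * κ ^ 4 = β) (h2 : 30 * β ≤ ζ ^ 2 * κ ^ 6)
    (h5 : 5 * β ≤ ζ * κ ^ 5) (hρ : 0 < ρ) (hρ1 : ρ ≤ 1) (hτκ : τ ≤ 1 / κ)
    (hE1 : 0 ≤ E1) (hm1 : E1 * (1 - q) ^ 3 ≤ ρ * τ)
    (hm2 : E2 * (1 - q) ^ 15 * ρ ≤ E1 ^ 2 + q * ρ * E1) :
    E1 / ρ - τ ≤ ζ ∧ E2 - ρ * (E1 / ρ) ^ 2 ≤ ζ ^ 2 := by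
  obtain ⟨m, hm⟩ : ∃ m, m = E1 / ρ := ⟨_, rfl⟩
  have hE : E1 = ρ * m := by rw [hm]; field_simp
  rw [← hm]
  have hm0 : 0 ≤ m := by rw [hm]; exact div_nonneg hE1 hρ.le
  have ha3 : 1 - 3 * q ≤ (1 - q) ^ 3 := by
    have := one_add_mul_le_pow (a := -q) (by linarith) 3
    push_cast at this
    rw [← sub_eq_add_neg] at this
    linarith
  have ha15 : 1 - 15 * q ≤ (1 - q) ^ 15 := by
    have := one_add_mul_le_pow (a := -q) (by linarith) 15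
    push_cast at this
    rw [← sub_eq_add_neg] at this
    linarith
  have h1 : m * (1 - q) ^ 3 ≤ τ := by
    rw [hE] at hm1
    have : ρ * (m * (1 - q) ^ 3) ≤ ρ * τ := by linarith
    exact le_of_mul_le_mul_left this hρ
  have h1' : m * (1 - 3 * q) ≤ τ := (mul_le_mul_of_nonneg_left ha3 hm0).trans h1
  have hτκ' : τ * κ ≤ 1 := by
    rw [le_div_iff₀ hκ0] at hτκ
    exact hτκ
  -- `m κ ≤ (26 / 25)`
  have hmκ : m * κ ≤ (26 / 25) := by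
    have h3 : m * κ * (1 - 3 * q) ≤ 1 := by
      have := mul_le_mul_of_nonneg_right h1' hκ0.le
      linarith
    have h4 : 0 ≤ m * κ := mul_nonneg hm0 hκ0.le
    nlinarith
  have h5' : 5 * q ≤ ζ * κ := by
    have h3 : κ ^ 4 * (5 * q) ≤ κ ^ 4 * (ζ * κ) := by
      rw [← hqβ] at h5
      nlinarith
    exact le_of_mul_le_mul_left h3 (by positivity)
  have h2' : 30 * q ≤ ζ ^ 2 * κ ^ 2 := by
    have h3 : κ ^ 4 * (30 * q) ≤ κ ^ 4 * (ζ ^ 2 * κ ^ 2) := by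
      rw [← hqβ] at h2
      nlinarith
    exact le_of_mul_le_mul_left h3 (by positivity)
  constructor
  · have h3 : m - τ ≤ 3 * q * m := by nlinarith
    have h4 : 3 * q * m * κ ≤ ζ * κ := by
      have : 3 * q * m * κ = 3 * q * (m * κ) := by ring
      rw [this]
      nlinarith
    exact h3.trans (le_of_mul_le_mul_right h4 hκ0)
  · obtain ⟨a, ha⟩ : ∃ a, a = (1 - q) ^ 15 := ⟨_, rfl⟩
    rw [← ha] at ha15 hm2
    have ha85 : (17 / 20) ≤ a := by linarith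
    have h3 : E2 * a ≤ ρ * (m ^ 2 + q * m) := by
      have : ρ * (E2 * a) ≤ ρ * (ρ * (m ^ 2 + q * m)) := by
        rw [hE] at hm2
        nlinarith
      exact le_of_mul_le_mul_left this hρ
    have h4 : a * (E2 - ρ * m ^ 2) ≤ q * (15 * m ^ 2 + m) := by
      have h6 : ρ * m ^ 2 * (1 - a) ≤ 1 * m ^ 2 * (15 * q) := by
        have h7 : ρ * m ^ 2 ≤ 1 * m ^ 2 := mul_le_mul_of_nonneg_right hρ1 (by positivity)
        have h8 : 1 - a ≤ 15 * q := by linarith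
        calc ρ * m ^ 2 * (1 - a) ≤ ρ * m ^ 2 * (15 * q) :=
              mul_le_mul_of_nonneg_left h8 (by positivity)
          _ ≤ 1 * m ^ 2 * (15 * q) := mul_le_mul_of_nonneg_right h7 (by positivity)
      have h9 : ρ * (q * m) ≤ 1 * (q * m) :=
        mul_le_mul_of_nonneg_right hρ1 (mul_nonneg hq0 hm0)
      nlinarith
    by_contra hcon
    push Not at hcon
    have hW : 0 < E2 - ρ * m ^ 2 := lt_trans (by positivity) hcon
    have h6 : κ ^ 2 * ((17 / 20) * (E2 - ρ * m ^ 2)) ≤ κ ^ 2 * (q * (15 * m ^ 2 + m)) := by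
      refine mul_le_mul_of_nonneg_left ?_ (by positivity)
      refine le_trans ?_ h4
      exact mul_le_mul_of_nonneg_right ha85 hW.le
    have h7 : κ ^ 2 * (q * (15 * m ^ 2 + m)) ≤ q * (35 / 2) := by
      have h8 : κ ^ 2 * (q * (15 * m ^ 2 + m)) = q * (15 * (m * κ) ^ 2 + (m * κ) * κ) := by ring
      rw [h8]
      refine mul_le_mul_of_nonneg_left ?_ hq0
      have h9 : 0 ≤ m * κ := mul_nonneg hm0 hκ0.le
      have h10 : (m * κ) * κ ≤ (26 / 25) * 1 := mul_le_mul hmκ hκ1 hκ0.le (by norm_num)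
      have h11 : (m * κ) ^ 2 ≤ (26 / 25) ^ 2 := pow_le_pow_left₀ h9 hmκ 2
      have h12 : ((26 : ℝ) / 25) ^ 2 = 676 / 625 := by norm_num
      rw [h12] at h11
      linarith
    have h8 : κ ^ 2 * ζ ^ 2 < κ ^ 2 * (E2 - ρ * m ^ 2) :=
      mul_lt_mul_of_pos_left hcon (by positivity)
    have h9 : κ ^ 2 * ((17 / 20) * (E2 - ρ * m ^ 2)) =
        (17 / 20) * (κ ^ 2 * (E2 - ρ * m ^ 2)) := by ring
    have h10 : ζ ^ 2 * κ ^ 2 = κ ^ 2 * ζ ^ 2 := mul_comm _ _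
    rw [h9] at h6
    rw [h10] at h2'
    linarith

theorem overshoot (H : OK D) {k : ℕ} (hk : k < D.N) {u : J → ℝ} (hu : Inv D k u) {v : V}
    (hv : v ∈ VS D) :
    R1 D k u (fun T Z => max (xs D k u T Z v - tau D (k + 1) v) 0) ≤ 2 * D.ζ := by
  obtain ⟨m, hm⟩ : ∃ m, m = R1 D k u (fun T Z => xs D k u T Z v) / rho D k v := ⟨_, rfl⟩
  have hρ := rho_pos H hk v
  have hρ1 := rho_le_one H hk v
  have hqβ : qm D * D.κ ^ 4 = D.β := by
    unfold qm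
    exact div_mul_cancel₀ _ (pow_pos H.κ0 4).ne'
  obtain ⟨hA, hB⟩ := real_core (qm_nonneg H) (qm_le H) H.κ0 (κ_le_one H) H.ζ0 hqβ H.ζ2 H.ζ5 hρ hρ1
    (tau_le H (k := k + 1) hk v) (mom1_nonneg H hk hu hv) (mom1_le H hk hu hv)
    (mom2_le H hk hu hv)
  rw [← hm] at hA hB
  have hζ := H.ζ0
  have hpt : ∀ T ⊆ D.E, ∀ Z ⊆ VS D, max (xs D k u T Z v - tau D (k + 1) v) 0 ≤
      ((2 * D.ζ)⁻¹ * (xs D k u T Z v ^ 2) + (-(2 * D.ζ)⁻¹ * (2 * m)) * xs D k u T Z v) +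
      (((2 * D.ζ)⁻¹ * m ^ 2) * (if Alive D {v} T Z then 1 else 0) + 3 / 2 * D.ζ) := by
    intro T _ Z _
    have hx0 := xs_nonneg' H hk hu v T Z
    have hc : 0 < (2 * D.ζ)⁻¹ := by positivity
    have hτ0 := tau_nonneg H (k := k + 1) hk v
    by_cases hal : Alive D {v} T Z
    · rw [if_pos hal]
      have h1 : (2 * D.ζ)⁻¹ * xs D k u T Z v ^ 2 + -(2 * D.ζ)⁻¹ * (2 * m) * xs D k u T Z v +
          ((2 * D.ζ)⁻¹ * m ^ 2 * 1 + 3 / 2 * D.ζ) =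
          (2 * D.ζ)⁻¹ * (xs D k u T Z v - m) ^ 2 + 3 / 2 * D.ζ := by ring
      rw [h1]
      have h2 : xs D k u T Z v - m ≤
          (2 * D.ζ)⁻¹ * (xs D k u T Z v - m) ^ 2 + 1 / 2 * D.ζ := by
        have h3 : (2 * D.ζ)⁻¹ * (xs D k u T Z v - m) ^ 2 + 1 / 2 * D.ζ -
            (xs D k u T Z v - m) = (2 * D.ζ)⁻¹ * (xs D k u T Z v - m - D.ζ) ^ 2 := by
          field_simp
          ring
        have h4 : 0 ≤ (2 * D.ζ)⁻¹ * (xs D k u T Z v - m - D.ζ) ^ 2 := by positivity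
        linarith
      refine max_le ?_ ?_
      · linarith
      · positivity
    · rw [if_neg hal, xs_dead hal]
      refine max_le ?_ ?_
      · linarith
      · have : 0 ≤ 3 / 2 * D.ζ := by positivity
        simpa using this
  refine (R1_mono H hk hu hpt).trans ?_
  have hsurv : R1 D k u (fun T Z => if Alive D {v} T Z then (1 : ℝ) else 0) = rho D k v :=
    surv_line H hk hu hv
  rw [R1_add, R1_add, R1_const_mul, R1_const_mul, R1_add, R1_const_mul, R1_const, hsurv]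
  have hE : R1 D k u (fun T Z => xs D k u T Z v) = rho D k v * m := by
    rw [hm]; field_simp
  rw [hE]
  have h1 : (2 * D.ζ)⁻¹ * R1 D k u (fun T Z => xs D k u T Z v ^ 2) +
      -(2 * D.ζ)⁻¹ * (2 * m) * (rho D k v * m) +
      ((2 * D.ζ)⁻¹ * m ^ 2 * rho D k v + 3 / 2 * D.ζ) =
      (2 * D.ζ)⁻¹ * (R1 D k u (fun T Z => xs D k u T Z v ^ 2) - rho D k v * m ^ 2) +
        3 / 2 * D.ζ := by ring
  rw [h1]
  have h2 : (2 * D.ζ)⁻¹ * (R1 D k u (fun T Z => xs D k u T Z v ^ 2) - rho D k v * m ^ 2) ≤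
      (2 * D.ζ)⁻¹ * D.ζ ^ 2 := mul_le_mul_of_nonneg_left hB (by positivity)
  have h3 : (2 * D.ζ)⁻¹ * D.ζ ^ 2 = 1 / 2 * D.ζ := by
    field_simp
  linarith

end Pool.Agent.NQ
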