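import Pool.Agent.NQ.NInv
import Pool.Agent.NQ.NVar

/-!
# NQ-NRR: one round

Plan. `RR_mass`: `mass_next` pointwise, mean (`R1_mono`, `R1_sub`, `R1_sum`):
`∑_e x_e surv(S e) ≥ ∑_e x_e ∏ rho = ∑_e u e/pe e (t k)` (`surv_edge`, `pe_succ`), minus `∑_v 2ζ`
(`overshoot`), `x_e = u e/pe e (t (k+1))`.
`RR_edge`: `next e/pe ≤ 1[alive] x_e` (`edge_next`), mean `= x_e surv (S e)`, times `(1-qm)^3` at most
`x_e ∏ rho = u e/pe e (t k)`.
-/

namespace Pool.Agent.NQ

open Finset

variable {V J : Type} [DecidableEq V] [DecidableEq J] {D : Dat V J}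

private theorem nrr_surv_nonneg (H : OK D) {k : ℕ} (hk : k < D.N) {u : J → ℝ} (hu : Inv D k u)
    (X : Finset V) : 0 ≤ surv D k u X := by
  rw [← R1_const (D := D) k u 0]
  unfold surv
  refine R1_mono H hk hu fun T _ Z _ => ?_
  split_ifs
  · exact zero_le_one
  · exact le_refl _

private theorem nrr_ind (k : ℕ) (u : J → ℝ) (X : Finset V) (c : ℝ) :
    R1 D k u (fun T Z => if Alive D X T Z then c else 0) = c * surv D k u X := by
  unfold surv
  rw [← R1_const_mul]
  congr 1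
  funext T Z
  split_ifs
  · rw [mul_one]
  · rw [mul_zero]

private theorem nrr_x (H : OK D) {k : ℕ} (hk : k < D.N) (u : J → ℝ) {e : J} (he : e ∈ D.E) :
    u e / pe D e (D.t (k + 1)) * ∏ v ∈ D.S e, rho D k v = u e / pe D e (D.t k) := by
  have h1 : 0 < ∏ v ∈ D.S e, rho D k v := Finset.prod_pos fun v _ => rho_pos H hk v
  have h2 : 0 < pe D e (D.t k) := pe_pos H hk.le he
  rw [pe_succ H hk e]
  field_simp

private theorem nrr_x_nonneg (H : OK D) {k : ℕ} (hk : k < D.N) {u : J → ℝ} (hu : Inv D k u) {e : J}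
    (he : e ∈ D.E) : 0 ≤ u e / pe D e (D.t (k + 1)) :=
  div_nonneg (hu.u0 e he) (pe_pos H hk he).le

theorem RR_mass (H : OK D) {k : ℕ} (hk : k < D.N) {u : J → ℝ} (hu : Inv D k u) :
    mass D k u - 2 * D.ζ * (VS D).card ≤ RR D k (mass D (k + 1)) u := by
  unfold RR
  have h1 := R1_mono H hk hu (f := fun T Z =>
    (∑ e ∈ D.E, if Alive D (D.S e) T Z then u e / pe D e (D.t (k + 1)) else 0) -
      ∑ v ∈ VS D, max (xs D k u T Z v - tau D (k + 1) v) 0)
    (g := fun T Z => mass D (k + 1) (next D k u T Z)) (fun T _ Z _ => mass_next H hk hu T Z)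
  refine le_trans ?_ h1
  rw [R1_sub, R1_sum, R1_sum]
  have h2 : mass D k u ≤ ∑ e ∈ D.E, R1 D k u
      (fun T Z => if Alive D (D.S e) T Z then u e / pe D e (D.t (k + 1)) else 0) := by
    unfold mass
    refine Finset.sum_le_sum fun e he => ?_
    rw [nrr_ind, ← nrr_x H hk u he]
    refine mul_le_mul_of_nonneg_left ?_ (nrr_x_nonneg H hk hu he)
    rw [← surv_edge H hk hu he]
    have h3 := nrr_surv_nonneg H hk hu (D.S e)
    have h4 : (1 - qq D k u e) ^ 3 ≤ 1 := by
      have h5 := qq_nonneg H hk hu he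
      have h6 := qq_le H hk hu he
      have h7 := qm_le H
      exact pow_le_one₀ (by linarith) (by linarith)
    calc surv D k u (D.S e) * (1 - qq D k u e) ^ 3 ≤ surv D k u (D.S e) * 1 :=
          mul_le_mul_of_nonneg_left h4 h3
      _ = surv D k u (D.S e) := mul_one _
  have h3 : ∑ v ∈ VS D, R1 D k u (fun T Z => max (xs D k u T Z v - tau D (k + 1) v) 0) ≤
      2 * D.ζ * (VS D).card := by
    refine (Finset.sum_le_sum fun v hv => overshoot H hk hu hv).trans ?_
    rw [Finset.sum_const, nsmul_eq_mul]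
    apply le_of_eq
    ring
  linarith

theorem RR_edge (H : OK D) {k : ℕ} (hk : k < D.N) {u : J → ℝ} (hu : Inv D k u) {e : J}
    (he : e ∈ D.E) :
    RR D k (fun u' => u' e / pe D e (D.t (k + 1))) u * (1 - qm D) ^ 3 ≤ u e / pe D e (D.t k) := by
  unfold RR
  have hp : 0 < pe D e (D.t (k + 1)) := pe_pos H hk he
  have h1 := R1_mono H hk hu (f := fun T Z => next D k u T Z e / pe D e (D.t (k + 1)))
    (g := fun T Z => if Alive D (D.S e) T Z then u e / pe D e (D.t (k + 1)) else 0)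
    (fun T _ Z _ => by
      have h2 := edge_next H hk hu T Z he
      show next D k u T Z e / pe D e (D.t (k + 1)) ≤
        if Alive D (D.S e) T Z then u e / pe D e (D.t (k + 1)) else 0
      by_cases h3 : Alive D (D.S e) T Z
      · rw [if_pos h3] at h2 ⊢
        exact div_le_div_of_nonneg_right h2 hp.le
      · rw [if_neg h3] at h2 ⊢
        exact div_nonpos_of_nonpos_of_nonneg h2 hp.le)
  rw [nrr_ind] at h1
  have h3 := nrr_surv_nonneg H hk hu (D.S e)
  have h5 := qq_nonneg H hk hu he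
  have h6 := qq_le H hk hu he
  have h7 := qm_le H
  have h8 := nrr_x_nonneg H hk hu he
  have h9 : (1 - qm D) ^ 3 ≤ (1 - qq D k u e) ^ 3 :=
    pow_le_pow_left₀ (by linarith) (by linarith) 3
  have h10 : (0 : ℝ) ≤ (1 - qm D) ^ 3 := pow_nonneg (by linarith) 3
  calc R1 D k u (fun T Z => next D k u T Z e / pe D e (D.t (k + 1))) * (1 - qm D) ^ 3
      ≤ (u e / pe D e (D.t (k + 1)) * surv D k u (D.S e)) * (1 - qm D) ^ 3 :=
        mul_le_mul_of_nonneg_right h1 h10
    _ ≤ (u e / pe D e (D.t (k + 1)) * surv D k u (D.S e)) * (1 - qq D k u e) ^ 3 :=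
        mul_le_mul_of_nonneg_left h9 (mul_nonneg h8 h3)
    _ = u e / pe D e (D.t (k + 1)) * (surv D k u (D.S e) * (1 - qq D k u e) ^ 3) := by ring
    _ = u e / pe D e (D.t k) := by
        rw [surv_edge H hk hu he]
        exact nrr_x H hk u he

end Pool.Agent.NQ
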