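import Pool.Agent.NQ.NRR
import Pool.Agent.NQ.NEE

/-!
# NQ-NStep: the mean mass and the mean weight of an edge

Plan. Induction on `k`: `EE (k+1) f = EE k (RR D k f)`, `EE_mono` with `RR_mass` resp. `RR_edge`, and
linearity (`EE_add`, `EE_const`, `EE_const_mul`). At `k = 0`: `pe e (t 0) = pe e 0 = 1`.
-/

namespace Pool.Agent.NQ

open Finset

variable {V J : Type} [DecidableEq V] [DecidableEq J] {D : Dat V J}

private theorem pe_zero (H : OK D) (e : J) : pe D e (D.t 0) = 1 := by
  unfold pe
  rw [H.t0]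
  exact Finset.prod_eq_one fun v _ => by rw [mul_zero, sub_zero]

private theorem one_sub_qm (H : OK D) : 0 ≤ 1 - qm D := by
  have h1 : 0 < D.κ ^ 4 := pow_pos H.κ0 4
  have h2 : D.β / D.κ ^ 4 ≤ 1 := by
    rw [div_le_one h1]
    have h3 := H.small
    have h4 := H.β0
    linarith
  unfold qm
  linarith

theorem EE_mass (H : OK D) {k : ℕ} (hk : k ≤ D.N) :
    (∑ e ∈ D.E, D.w e) - k * (2 * D.ζ * (VS D).card) ≤ EE D k (mass D k) := by
  induction k with
  | zero =>
    have h1 : EE D 0 (mass D 0) = ∑ e ∈ D.E, D.w e := by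
      show mass D 0 D.w = _
      unfold mass
      exact Finset.sum_congr rfl fun e _ => by rw [pe_zero H e, div_one]
    rw [h1]
    simp
  | succ k ih =>
    have hk' : k ≤ D.N := by omega
    have h1 : EE D k (fun u => mass D k u + -(2 * D.ζ * (VS D).card)) ≤
        EE D k (RR D k (mass D (k + 1))) := by
      refine EE_mono H hk' fun u hu => ?_
      have := RR_mass H (by omega : k < D.N) hu
      linarith
    rw [EE_add, EE_const] at h1
    have h2 := ih hk'
    show _ ≤ EE D k (RR D k (mass D (k + 1)))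
    push_cast
    linarith

theorem EE_edge (H : OK D) {k : ℕ} (hk : k ≤ D.N) {e : J} (he : e ∈ D.E) :
    EE D k (fun u => u e / pe D e (D.t k)) * (1 - qm D) ^ (3 * k) ≤ D.w e := by
  induction k with
  | zero =>
    show D.w e / pe D e (D.t 0) * (1 - qm D) ^ (3 * 0) ≤ D.w e
    rw [pe_zero H e, div_one, mul_zero, pow_zero, mul_one]
  | succ k ih =>
    have hk' : k ≤ D.N := by omega
    have h0 := one_sub_qm H
    have h1 : EE D k (fun u => (1 - qm D) ^ 3 *
        RR D k (fun u' => u' e / pe D e (D.t (k + 1))) u) ≤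
        EE D k (fun u => u e / pe D e (D.t k)) := by
      refine EE_mono H hk' fun u hu => ?_
      have := RR_edge H (by omega : k < D.N) hu he
      linarith
    rw [EE_const_mul] at h1
    have h2 := ih hk'
    show EE D k (RR D k (fun u' => u' e / pe D e (D.t (k + 1)))) * (1 - qm D) ^ (3 * (k + 1)) ≤ _
    have h3 : (1 - qm D) ^ (3 * (k + 1)) = (1 - qm D) ^ 3 * (1 - qm D) ^ (3 * k) := by
      rw [← pow_add]
      congr 1
      ring
    rw [h3]
    have h4 : 0 ≤ (1 - qm D) ^ (3 * k) := pow_nonneg h0 _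
    have h5 := mul_le_mul_of_nonneg_right h1 h4
    refine le_trans (le_of_eq ?_) (h5.trans h2)
    ring

end Pool.Agent.NQ
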