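import Pool.Agent.NQ.NBas

/-!
# NQ-NSur: survival probabilities in one round

`R1_alive`: the indicator of `Alive D X T Z` is the product of the indicators of
`Disjoint Z X` and `Disjoint T (E.filter (¬ Disjoint (S e) X))` (for `T ⊆ E`), so the mean is
`∏_{v∈X} (1 - kp v) ∏_{e ∈ E, S e ∩ X ≠ ∅} (1 - qq e)`, and `1 - kp v = rho v / sv v`.
`surv_line`: `X = {v}`: `(rho/sv) * sv = rho`.
`surv_edge`: `∏_{v∈S e} sv v = ∏_{f∈E} (1 - qq f)^{|S f ∩ S e|}`, where `|S f ∩ S e| = 4` for `f = e` and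
`0` or `1` for `f ≠ e`. Hence `R1[alive (S e)] (1 - qq e)^3 = ∏ rho`.
-/

namespace Pool.Agent.NQ

open Finset
open Pool.Agent.PGr.Nib (EW)

variable {V J : Type} [DecidableEq V] [DecidableEq J] {D : Dat V J}

/-- Probability that all lines of `X` survive. -/
noncomputable def surv (D : Dat V J) (k : ℕ) (u : J → ℝ) (X : Finset V) : ℝ :=
  R1 D k u (fun T Z => if Alive D X T Z then 1 else 0)

private theorem nsur_inner (k : ℕ) (u : J → ℝ) {X : Finset V} (hX : X ⊆ VS D) {T : Finset J}
    (hT : T ⊆ D.E) :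
    EW (VS D) (kp D k u) (fun Z => if Alive D X T Z then (1 : ℝ) else 0) =
      (∏ v ∈ X, rho D k v / sv D k u v) *
        (if Disjoint T (D.E.filter (fun e => ¬ Disjoint (D.S e) X)) then (1 : ℝ) else 0) := by
  have hiff : (∀ e ∈ T, Disjoint (D.S e) X) ↔
      Disjoint T (D.E.filter (fun e => ¬ Disjoint (D.S e) X)) := by
    rw [Finset.disjoint_left]
    constructor
    · intro h e he he'
      exact (mem_filter.1 he').2 (h e he)
    · intro h e he
      by_contra hc
      exact h he (mem_filter.2 ⟨hT he, hc⟩)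
  have h1 : ∀ v ∈ X, rho D k v / sv D k u v = 1 - kp D k u v := by
    intro v _
    unfold kp
    ring
  rw [prod_congr rfl h1]
  by_cases hd : Disjoint T (D.E.filter (fun e => ¬ Disjoint (D.S e) X))
  · rw [if_pos hd, mul_one, ← Pool.Agent.PGr.Nib.EW_disj (VS D) (kp D k u) X hX]
    refine Pool.Agent.PGr.Nib.EW_congr fun Z _ => ?_
    have h2 : Alive D X T Z ↔ Disjoint Z X := by
      unfold Alive
      rw [disjoint_comm]
      exact ⟨fun h => h.1, fun h => ⟨h, hiff.2 hd⟩⟩
    simp only [h2]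
  · rw [if_neg hd, mul_zero]
    have h2 : EW (VS D) (kp D k u) (fun Z => if Alive D X T Z then (1 : ℝ) else 0) =
        EW (VS D) (kp D k u) (fun _ => (0 : ℝ) * 1) := by
      refine Pool.Agent.PGr.Nib.EW_congr fun Z _ => ?_
      have h3 : ¬ Alive D X T Z := by
        intro h
        exact hd (hiff.1 h.2)
      rw [if_neg h3, zero_mul]
    rw [h2, Pool.Agent.PGr.Nib.EW_const_mul, zero_mul]

theorem R1_alive (H : OK D) {k : ℕ} (hk : k < D.N) {u : J → ℝ} (hu : Inv D k u) {X : Finset V}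
    (hX : X ⊆ VS D) : surv D k u X = (∏ v ∈ X, rho D k v / sv D k u v) *
      ∏ e ∈ D.E.filter (fun e => ¬ Disjoint (D.S e) X), (1 - qq D k u e) := by
  unfold surv R1
  rw [Pool.Agent.PGr.Nib.EW_congr (fun T hT => nsur_inner k u hX hT),
    Pool.Agent.PGr.Nib.EW_const_mul, Pool.Agent.PGr.Nib.EW_disj D.E (qq D k u) _ (filter_subset _ _)]

theorem surv_line (H : OK D) {k : ℕ} (hk : k < D.N) {u : J → ℝ} (hu : Inv D k u) {v : V}
    (hv : v ∈ VS D) : surv D k u {v} = rho D k v := by
  rw [R1_alive H hk hu (singleton_subset_iff.2 hv), prod_singleton]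
  have h1 : D.E.filter (fun e => ¬ Disjoint (D.S e) {v}) = D.E.filter (fun e => v ∈ D.S e) := by
    refine filter_congr fun e _ => ?_
    rw [disjoint_singleton_right, not_not]
  rw [h1]
  change rho D k v / sv D k u v * sv D k u v = rho D k v
  exact div_mul_cancel₀ _ (sv_pos H hk hu v).ne'

private theorem nsur_prod (k : ℕ) (u : J → ℝ) (X : Finset V) :
    ∏ v ∈ X, sv D k u v = ∏ f ∈ D.E, (1 - qq D k u f) ^ (D.S f ∩ X).card := by
  unfold sv
  simp only [prod_filter]
  rw [prod_comm]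
  refine prod_congr rfl fun f _ => ?_
  rw [← prod_filter, prod_const, filter_mem_eq_inter, inter_comm]

theorem surv_edge (H : OK D) {k : ℕ} (hk : k < D.N) {u : J → ℝ} (hu : Inv D k u) {e : J}
    (he : e ∈ D.E) : surv D k u (D.S e) * (1 - qq D k u e) ^ 3 = ∏ v ∈ D.S e, rho D k v := by
  have hX : D.S e ⊆ VS D := fun v hv => mem_biUnion.2 ⟨e, he, hv⟩
  rw [R1_alive H hk hu hX, prod_div_distrib]
  have hne : ¬ Disjoint (D.S e) (D.S e) := by
    rw [disjoint_self_iff_empty]
    intro h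
    have := H.card e he
    rw [h, card_empty] at this
    omega
  have h1 : (∏ f ∈ D.E.filter (fun f => ¬ Disjoint (D.S f) (D.S e)), (1 - qq D k u f)) *
      (1 - qq D k u e) ^ 3 = ∏ v ∈ D.S e, sv D k u v := by
    rw [nsur_prod, prod_filter, ← mul_prod_erase D.E _ he, ← mul_prod_erase D.E _ he, if_pos hne,
      inter_self, H.card e he]
    have h2 : ∏ f ∈ D.E.erase e, (if ¬ Disjoint (D.S f) (D.S e) then 1 - qq D k u f else 1) =
        ∏ f ∈ D.E.erase e, (1 - qq D k u f) ^ (D.S f ∩ D.S e).card := by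
      refine prod_congr rfl fun f hf => ?_
      have hfe := (mem_erase.1 hf).1
      have hle := H.lin f (mem_erase.1 hf).2 e he hfe
      by_cases hd : Disjoint (D.S f) (D.S e)
      · rw [if_neg (not_not.2 hd), disjoint_iff_inter_eq_empty.1 hd, card_empty, pow_zero]
      · rw [if_pos hd]
        have h3 : (D.S f ∩ D.S e).card = 1 := by
          have h4 : (D.S f ∩ D.S e).card ≠ 0 := by
            intro h5
            exact hd (disjoint_iff_inter_eq_empty.2 (card_eq_zero.1 h5))
          omega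
        rw [h3, pow_one]
    rw [h2]
    ring
  have h2 : 0 < ∏ v ∈ D.S e, sv D k u v := prod_pos fun v _ => sv_pos H hk hu v
  rw [mul_assoc, h1, div_mul_cancel₀ _ h2.ne']

end Pool.Agent.NQ
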