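import Pool.Agent.NQ.NiceA

/-!
# NQ-Nice: weights whose diagonal sums are at most `9/10`

Row sums by `sum_sg`, difference diagonals by `sg_corr`, sum diagonals by reflection (`sg_symm`).
-/

namespace Pool.Agent.NQ

open Finset

/-- The nice weights. -/
noncomputable def wn (n : ℕ) (e : ℤ × ℤ) : ℝ :=
  (1 - 1 / (n : ℝ)) * (1 / (n : ℝ)) * (1 - (1 / 10) * (sg n e.1 * sg n e.2))

private theorem sg2 (n : ℕ) (i j : ℤ) : sg n i * sg n j = 1 ∨ sg n i * sg n j = -1 := by
  rcases sg_cases n i with h | h <;> rcases sg_cases n j with h' | h' <;> rw [h, h'] <;> norm_num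

private theorem nR {n : ℕ} (hn : 10 ≤ n) : (10 : ℝ) ≤ n := by exact_mod_cast hn

private theorem cpos {n : ℕ} (hn : 10 ≤ n) : 0 ≤ (1 - 1 / (n : ℝ)) * (1 / (n : ℝ)) := by
  have h := nR hn
  have h1 : 1 / (n : ℝ) ≤ 1 := by
    rw [div_le_one (by linarith)]
    linarith
  exact mul_nonneg (by linarith) (by positivity)

theorem wn_lo {n : ℕ} (hn : 10 ≤ n) (e : ℤ × ℤ) : 1 / (2 * (n : ℝ)) ≤ wn n e := by
  have h := nR hn
  have hx : 1 / (n : ℝ) ≤ 1 / 10 := one_div_le_one_div_of_le (by norm_num) h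
  have hx0 : 0 < 1 / (n : ℝ) := by positivity
  have e1 : 1 / (2 * (n : ℝ)) = (1 / 2) * (1 / (n : ℝ)) := by ring
  unfold wn
  rw [e1]
  generalize 1 / (n : ℝ) = x at hx hx0
  rcases sg2 n e.1 e.2 with h1 | h1 <;> rw [h1] <;> nlinarith

theorem wn_hi {n : ℕ} (hn : 10 ≤ n) (e : ℤ × ℤ) : wn n e ≤ 2 / (n : ℝ) := by
  have h := nR hn
  have hx : 1 / (n : ℝ) ≤ 1 / 10 := one_div_le_one_div_of_le (by norm_num) h
  have hx0 : 0 < 1 / (n : ℝ) := by positivity
  have e1 : 2 / (n : ℝ) = 2 * (1 / (n : ℝ)) := by ring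
  unfold wn
  rw [e1]
  generalize 1 / (n : ℝ) = x at hx hx0
  rcases sg2 n e.1 e.2 with h1 | h1 <;> rw [h1] <;> nlinarith

private theorem row_val {n : ℕ} {s : ℤ} (h0 : 0 ≤ s) (h1 : s < n) :
    dsum n (wn n) 0 s = (1 - 1 / (n : ℝ)) * (1 / (n : ℝ)) *
      (n - (1 / 10) * (sg n s * ∑ j ∈ Finset.Ico (0 : ℤ) n, sg n j)) := by
  have h2 : dsum n (wn n) 0 s = ∑ j ∈ Finset.Ico (0 : ℤ) n, wn n (s, j) := by
    unfold dsum
    refine sum_nbij' (fun e => e.2) (fun j => (s, j)) ?_ ?_ ?_ ?_ ?_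
    · intro e he
      rw [mem_filter, mem_board] at he
      rw [mem_Ico]
      exact he.1.2
    · intro j hj
      rw [mem_Ico] at hj
      rw [mem_filter, mem_board]
      exact ⟨⟨⟨h0, h1⟩, hj⟩, rfl⟩
    · intro e he
      rw [mem_filter] at he
      exact Prod.ext he.2.symm rfl
    · intro j _
      rfl
    · intro e he
      rw [mem_filter] at he
      have h3 : e.1 = s := he.2
      rw [← h3]
  rw [h2]
  unfold wn
  simp only
  rw [← mul_sum, sum_sub_distrib, ← mul_sum, ← mul_sum, sum_const, Int.card_Ico, nsmul_eq_mul,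
    mul_one]
  simp

theorem wn_row {n : ℕ} (hn : 10 ≤ n) (s : ℤ) : dsum n (wn n) 0 s ≤ 1 := by
  by_cases hs : 0 ≤ s ∧ s < n
  · rw [row_val hs.1 hs.2]
    obtain ⟨h1, h2⟩ := sum_sg hn
    have h := nR hn
    have hc := cpos hn
    set A := ∑ j ∈ Finset.Ico (0 : ℤ) n, sg n j with hA
    have h3 : (n : ℝ) - (1 / 10) * (sg n s * A) ≤ n + 3 / 10 := by
      rcases sg_cases n s with h4 | h4 <;> rw [h4] <;> linarith
    refine (mul_le_mul_of_nonneg_left h3 hc).trans ?_
    have e1 : (1 - 1 / (n : ℝ)) * (1 / (n : ℝ)) * (n + 3 / 10) =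
        (1 - 1 / (n : ℝ)) * (1 + 3 / 10 * (1 / (n : ℝ))) := by
      field_simp
    rw [e1]
    have hx0 : 0 < 1 / (n : ℝ) := by positivity
    generalize 1 / (n : ℝ) = x at hx0
    nlinarith
  · have h2 : dsum n (wn n) 0 s = 0 := by
      unfold dsum
      have h3 : (board n).filter (fun e => ln 0 e = s) = ∅ := by
        rw [filter_eq_empty_iff]
        intro e he h4
        rw [mem_board] at he
        have h5 : e.1 = s := h4
        exact hs (h5 ▸ he.1)
      rw [h3, sum_empty]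
    rw [h2]
    exact zero_le_one

private theorem wn_swap (n : ℕ) (e : ℤ × ℤ) : wn n e.swap = wn n e := by
  unfold wn
  rw [Prod.fst_swap, Prod.snd_swap, mul_comm (sg n e.2)]

theorem wn_col {n : ℕ} (hn : 10 ≤ n) (s : ℤ) : dsum n (wn n) 1 s ≤ 1 := by
  have h1 : dsum n (wn n) 1 s = dsum n (wn n) 0 s := by
    unfold dsum
    refine sum_nbij' Prod.swap Prod.swap ?_ ?_ ?_ ?_ ?_
    · intro e he
      rw [mem_filter, mem_board] at he ⊢
      exact ⟨⟨he.1.2, he.1.1⟩, he.2⟩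
    · intro e he
      rw [mem_filter, mem_board] at he ⊢
      exact ⟨⟨he.1.2, he.1.1⟩, he.2⟩
    · intro e _
      rfl
    · intro e _
      rfl
    · intro e _
      exact (wn_swap n e).symm
  rw [h1]
  exact wn_row hn s

private theorem dd_swap (n : ℕ) (s : ℤ) : dsum n (wn n) 3 s = dsum n (wn n) 3 (-s) := by
  unfold dsum
  refine sum_nbij' Prod.swap Prod.swap ?_ ?_ ?_ ?_ ?_
  · intro e he
    rw [mem_filter, mem_board, ln_three] at he ⊢
    refine ⟨⟨he.1.2, he.1.1⟩, ?_⟩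
    rw [Prod.fst_swap, Prod.snd_swap]
    omega
  · intro e he
    rw [mem_filter, mem_board, ln_three] at he ⊢
    refine ⟨⟨he.1.2, he.1.1⟩, ?_⟩
    rw [Prod.fst_swap, Prod.snd_swap]
    omega
  · intro e _
    rfl
  · intro e _
    rfl
  · intro e _
    exact (wn_swap n e).symm

private theorem sd_eq (n : ℕ) (s : ℤ) :
    dsum n (wn n) 2 s = dsum n (wn n) 3 (s - ((n : ℤ) - 1)) := by
  unfold dsum
  refine sum_nbij' (fun e => (e.1, (n : ℤ) - 1 - e.2)) (fun e => (e.1, (n : ℤ) - 1 - e.2))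
    ?_ ?_ ?_ ?_ ?_
  · intro e he
    rw [mem_filter, mem_board, ln_two] at he
    rw [mem_filter, mem_board, ln_three]
    obtain ⟨⟨⟨a1, a2⟩, a3, a4⟩, a5⟩ := he
    refine ⟨⟨⟨a1, a2⟩, ?_, ?_⟩, ?_⟩ <;> simp only <;> omega
  · intro e he
    rw [mem_filter, mem_board, ln_three] at he
    rw [mem_filter, mem_board, ln_two]
    obtain ⟨⟨⟨a1, a2⟩, a3, a4⟩, a5⟩ := he
    refine ⟨⟨⟨a1, a2⟩, ?_, ?_⟩, ?_⟩ <;> simp only <;> omega
  · intro e _
    refine Prod.ext rfl ?_
    simp only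
    omega
  · intro e _
    refine Prod.ext rfl ?_
    simp only
    omega
  · intro e _
    unfold wn
    simp only
    rw [sg_symm]

private theorem dd_pos {n : ℕ} (hn : 10 ≤ n) {s : ℤ} (hs : 0 ≤ s) :
    dsum n (wn n) 3 s ≤ 9 / 10 := by
  by_cases h1 : s < n
  · have h2 : dsum n (wn n) 3 s = ∑ i ∈ Finset.Ico s (n : ℤ), wn n (i, i - s) := by
      unfold dsum
      refine sum_nbij' (fun e => e.1) (fun i => (i, i - s)) ?_ ?_ ?_ ?_ ?_
      · intro e he
        rw [mem_filter, mem_board, ln_three] at he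
        rw [mem_Ico]
        omega
      · intro i hi
        rw [mem_Ico] at hi
        rw [mem_filter, mem_board, ln_three]
        simp only
        omega
      · intro e he
        rw [mem_filter, ln_three] at he
        refine Prod.ext rfl ?_
        simp only
        omega
      · intro i _
        rfl
      · intro e he
        rw [mem_filter, ln_three] at he
        have h3 : e.1 - s = e.2 := by omega
        rw [h3]
    have h3 : ∑ i ∈ Finset.Ico s (n : ℤ), wn n (i, i - s) =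
        (1 - 1 / (n : ℝ)) * (1 / (n : ℝ)) * (((n : ℝ) - s) -
          (1 / 10) * ∑ i ∈ Finset.Ico s (n : ℤ), sg n i * sg n (i - s)) := by
      unfold wn
      simp only
      rw [← mul_sum, sum_sub_distrib, ← mul_sum, sum_const, Int.card_Ico, nsmul_eq_mul, mul_one]
      have h4 : (((n : ℤ) - s).toNat : ℝ) = (n : ℝ) - s := by
        have h5 : ((((n : ℤ) - s).toNat : ℤ) : ℝ) = (((n : ℤ) - s : ℤ) : ℝ) := by
          rw [Int.toNat_of_nonneg (by omega)]
        rw [Int.cast_sub, Int.cast_natCast, Int.cast_natCast] at h5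
        exact h5
      rw [h4]
    have h4 := sg_corr hn hs h1
    have h := nR hn
    have hc := cpos hn
    rw [h2, h3]
    have hs' : (0 : ℝ) ≤ s := by exact_mod_cast hs
    have h5 : ((n : ℝ) - s) - (1 / 10) * ∑ i ∈ Finset.Ico s (n : ℤ), sg n i * sg n (i - s) ≤
        9 / 10 * n := by linarith
    refine (mul_le_mul_of_nonneg_left h5 hc).trans ?_
    have e1 : (1 - 1 / (n : ℝ)) * (1 / (n : ℝ)) * (9 / 10 * n) = 9 / 10 * (1 - 1 / (n : ℝ)) := by
      field_simp
    rw [e1]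
    have hx0 : 0 < 1 / (n : ℝ) := by positivity
    linarith
  · have h2 : dsum n (wn n) 3 s = 0 := by
      unfold dsum
      have h3 : (board n).filter (fun e => ln 3 e = s) = ∅ := by
        rw [filter_eq_empty_iff]
        intro e he h4
        rw [mem_board] at he
        rw [ln_three] at h4
        omega
      rw [h3, sum_empty]
    rw [h2]
    norm_num

theorem wn_dd {n : ℕ} (hn : 10 ≤ n) (s : ℤ) : dsum n (wn n) 3 s ≤ 9 / 10 := by
  rcases le_total 0 s with h | h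
  · exact dd_pos hn h
  · rw [dd_swap]
    exact dd_pos hn (by omega)

theorem wn_sd {n : ℕ} (hn : 10 ≤ n) (s : ℤ) : dsum n (wn n) 2 s ≤ 9 / 10 := by
  rw [sd_eq]
  exact wn_dd hn _

theorem wn_tot {n : ℕ} (hn : 10 ≤ n) : (n : ℝ) - 2 ≤ ∑ e ∈ board n, wn n e := by
  obtain ⟨h1, h2⟩ := sum_sg hn
  have h := nR hn
  have hc := cpos hn
  have h3 : ∑ e ∈ board n, wn n e = (1 - 1 / (n : ℝ)) * (1 / (n : ℝ)) * ((n : ℝ) * n -
      (1 / 10) * ((∑ i ∈ Finset.Ico (0 : ℤ) n, sg n i) *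
        ∑ i ∈ Finset.Ico (0 : ℤ) n, sg n i)) := by
    unfold wn board
    rw [← mul_sum, sum_sub_distrib, ← mul_sum, sum_const, card_product, Int.card_Ico,
      sum_mul_sum, ← sum_product']
    simp
  rw [h3]
  set A := ∑ i ∈ Finset.Ico (0 : ℤ) n, sg n i with hA
  have h4 : (n : ℝ) * n - 9 / 10 ≤ (n : ℝ) * n - (1 / 10) * (A * A) := by nlinarith
  refine le_trans ?_ (mul_le_mul_of_nonneg_left h4 hc)
  have e1 : (1 - 1 / (n : ℝ)) * (1 / (n : ℝ)) * ((n : ℝ) * n - 9 / 10) =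
      n - 1 - 9 / 10 * (1 / (n : ℝ)) + 9 / 10 * (1 / (n : ℝ)) ^ 2 := by
    field_simp
    ring
  rw [e1]
  have hx : 1 / (n : ℝ) ≤ 1 / 10 := one_div_le_one_div_of_le (by norm_num) h
  have hx0 : 0 < 1 / (n : ℝ) := by positivity
  have hx2 : 0 ≤ (1 / (n : ℝ)) ^ 2 := sq_nonneg _
  linarith

end Pool.Agent.NQ
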