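import Pool.Agent.NQ.Defs

/-!
# NQ-NiceA: the sign pattern and its autocorrelation

`sg n i = 1` for `i` in the first or last quarter of `[0,n)`, `-1` else.

Plan. `p = ⌈n/4⌉`: the `i ∈ [0,n)` with `4 i < n` are `p` in number, also those with `4 (n-1-i) < n`, the
two sets are disjoint for `n ≥ 2`. So `A = ∑_i sg n i = 4 p - n ∈ {0,1,2,3}`.
`sg_corr`: for `0 ≤ d < n` the number of `i ∈ [d, n)` with `sg i ≠ sg (i - d)` is at most `2 d`: `sg` is
`1, -1, 1` on three consecutive intervals, so such an `i` satisfies (`4(i-d) < n` and not `4 i < n`, or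
the analogous condition at the other change), each of the two conditions holds for at most `d` values
of `i` (`i - d < n/4 ≤ i`). Each summand is `1 - 2·1[sg i ≠ sg (i-d)]`, so the sum over the `n - d` values
is at least `(n - d) - 4 d = n - 5 d`.
-/

namespace Pool.Agent.NQ

open Finset

/-- The sign pattern. -/
noncomputable def sg (n : ℕ) (i : ℤ) : ℝ := if 4 * i < n ∨ 4 * ((n : ℤ) - 1 - i) < n then 1 else -1

theorem sg_cases (n : ℕ) (i : ℤ) : sg n i = 1 ∨ sg n i = -1 := by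
  unfold sg
  split_ifs
  · exact Or.inl rfl
  · exact Or.inr rfl

theorem sg_symm (n : ℕ) (i : ℤ) : sg n ((n : ℤ) - 1 - i) = sg n i := by
  unfold sg
  have h : (n : ℤ) - 1 - ((n : ℤ) - 1 - i) = i := by ring
  rw [h]
  by_cases h1 : 4 * i < n
  · rw [if_pos (Or.inr h1), if_pos (Or.inl h1)]
  · by_cases h2 : 4 * ((n : ℤ) - 1 - i) < n
    · rw [if_pos (Or.inl h2), if_pos (Or.inr h2)]
    · rw [if_neg (by rintro (h3 | h3); exacts [h2 h3, h1 h3]),
        if_neg (by rintro (h3 | h3); exacts [h1 h3, h2 h3])]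

theorem sum_sg {n : ℕ} (hn : 10 ≤ n) :
    0 ≤ ∑ i ∈ Finset.Ico (0 : ℤ) n, sg n i ∧ ∑ i ∈ Finset.Ico (0 : ℤ) n, sg n i ≤ 3 := by
  classical
  have h1 : ∀ i : ℤ, sg n i =
      2 * (if 4 * i < n ∨ 4 * ((n : ℤ) - 1 - i) < n then (1 : ℝ) else 0) - 1 := by
    intro i
    unfold sg
    split_ifs <;> norm_num
  have h2 : ∑ i ∈ Finset.Ico (0 : ℤ) n, sg n i =
      2 * ((((Finset.Ico (0 : ℤ) n).filter
        (fun i : ℤ => 4 * i < n ∨ 4 * ((n : ℤ) - 1 - i) < n)).card : ℕ) : ℝ) - n := by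
    rw [Finset.sum_congr rfl fun i _ => h1 i, Finset.sum_sub_distrib, ← Finset.mul_sum,
      Finset.sum_boole]
    simp
  have h3 : (Finset.Ico (0 : ℤ) n).filter (fun i : ℤ => 4 * i < n ∨ 4 * ((n : ℤ) - 1 - i) < n) =
      Finset.Ico (0 : ℤ) (((n : ℤ) + 3) / 4) ∪ Finset.Ico ((n : ℤ) - ((n : ℤ) + 3) / 4) n := by
    ext i
    simp only [mem_filter, mem_Ico, mem_union]
    omega
  have h4 : Disjoint (Finset.Ico (0 : ℤ) (((n : ℤ) + 3) / 4))
      (Finset.Ico ((n : ℤ) - ((n : ℤ) + 3) / 4) n) := by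
    rw [Finset.disjoint_left]
    intro i hi hi2
    rw [mem_Ico] at hi hi2
    omega
  have h5 : (((Finset.Ico (0 : ℤ) n).filter
        (fun i : ℤ => 4 * i < n ∨ 4 * ((n : ℤ) - 1 - i) < n)).card : ℤ) =
      2 * (((n : ℤ) + 3) / 4) := by
    rw [h3, card_union_of_disjoint h4, Int.card_Ico, Int.card_Ico]
    push_cast
    omega
  have h6 : ((((Finset.Ico (0 : ℤ) n).filter
        (fun i : ℤ => 4 * i < n ∨ 4 * ((n : ℤ) - 1 - i) < n)).card : ℕ) : ℝ) =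
      2 * ((((n : ℤ) + 3) / 4 : ℤ) : ℝ) := by
    exact_mod_cast h5
  rw [h2, h6]
  have h7 : (n : ℤ) ≤ 4 * (((n : ℤ) + 3) / 4) := by omega
  have h8 : 4 * (((n : ℤ) + 3) / 4) ≤ (n : ℤ) + 3 := by omega
  have h9 : (n : ℝ) ≤ 4 * ((((n : ℤ) + 3) / 4 : ℤ) : ℝ) := by exact_mod_cast h7
  have h10 : 4 * ((((n : ℤ) + 3) / 4 : ℤ) : ℝ) ≤ (n : ℝ) + 3 := by exact_mod_cast h8
  constructor <;> linarith

theorem sg_corr {n : ℕ} (hn : 10 ≤ n) {d : ℤ} (hd0 : 0 ≤ d) (hd : d < n) :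
    (n : ℝ) - 5 * d ≤ ∑ i ∈ Finset.Ico d (n : ℤ), sg n i * sg n (i - d) := by
  classical
  have h1 : ∀ i : ℤ, 1 - 2 * (if 4 * (i - d) < n ∧ ¬ 4 * i < n then (1 : ℝ) else 0) -
      2 * (if 4 * ((n : ℤ) - 1 - i) < n ∧ ¬ 4 * ((n : ℤ) - 1 - (i - d)) < n then (1 : ℝ) else 0) ≤
      sg n i * sg n (i - d) := by
    intro i
    have h0 : -1 ≤ sg n i * sg n (i - d) := by
      rcases sg_cases n i with h | h <;> rcases sg_cases n (i - d) with h' | h' <;>
        rw [h, h'] <;> norm_num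
    by_cases hA : 4 * (i - d) < n ∧ ¬ 4 * i < n
    · rw [if_pos hA]
      split_ifs <;> linarith
    · by_cases hB : 4 * ((n : ℤ) - 1 - i) < n ∧ ¬ 4 * ((n : ℤ) - 1 - (i - d)) < n
      · rw [if_pos hB, if_neg hA]
        linarith
      · rw [if_neg hA, if_neg hB]
        have h2 : sg n (i - d) = sg n i := by
          unfold sg
          have h3 : (4 * (i - d) < n ∨ 4 * ((n : ℤ) - 1 - (i - d)) < n) ↔
              (4 * i < n ∨ 4 * ((n : ℤ) - 1 - i) < n) := by omega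
          by_cases h4 : 4 * i < n ∨ 4 * ((n : ℤ) - 1 - i) < n
          · rw [if_pos h4, if_pos (h3.2 h4)]
          · rw [if_neg h4, if_neg (fun h => h4 (h3.1 h))]
        rw [h2]
        rcases sg_cases n i with h | h <;> rw [h] <;> norm_num
  have h2 := Finset.sum_le_sum (fun i (_ : i ∈ Finset.Ico d (n : ℤ)) => h1 i)
  refine le_trans ?_ h2
  rw [Finset.sum_sub_distrib, Finset.sum_sub_distrib, ← Finset.mul_sum, ← Finset.mul_sum,
    Finset.sum_boole, Finset.sum_boole]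
  have h3 : ((Finset.Ico d (n : ℤ)).filter (fun i => 4 * (i - d) < n ∧ ¬ 4 * i < n)).card ≤
      (Finset.Ico (((n : ℤ) + 3) / 4) (((n : ℤ) + 3) / 4 + d)).card := by
    apply card_le_card
    intro i hi
    simp only [mem_filter, mem_Ico] at hi ⊢
    omega
  have h4 : ((Finset.Ico d (n : ℤ)).filter (fun i => 4 * ((n : ℤ) - 1 - i) < n ∧
      ¬ 4 * ((n : ℤ) - 1 - (i - d)) < n)).card ≤
      (Finset.Ico ((n : ℤ) - (((n : ℤ) + 3) / 4)) ((n : ℤ) - (((n : ℤ) + 3) / 4) + d)).card := by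
    apply card_le_card
    intro i hi
    simp only [mem_filter, mem_Ico] at hi ⊢
    omega
  rw [Int.card_Ico] at h3 h4
  have h5 : (((Finset.Ico d (n : ℤ)).filter (fun i => 4 * (i - d) < n ∧ ¬ 4 * i < n)).card : ℤ) ≤
      d := by
    have : ((((n : ℤ) + 3) / 4 + d - ((n : ℤ) + 3) / 4).toNat : ℤ) = d := by omega
    omega
  have h6 : (((Finset.Ico d (n : ℤ)).filter (fun i => 4 * ((n : ℤ) - 1 - i) < n ∧
      ¬ 4 * ((n : ℤ) - 1 - (i - d)) < n)).card : ℤ) ≤ d := by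
    have : (((n : ℤ) - (((n : ℤ) + 3) / 4) + d - ((n : ℤ) - (((n : ℤ) + 3) / 4))).toNat : ℤ) =
      d := by omega
    omega
  have h7 : ((((Finset.Ico d (n : ℤ)).filter
      (fun i => 4 * (i - d) < n ∧ ¬ 4 * i < n)).card : ℕ) : ℝ) ≤ d := by exact_mod_cast h5
  have h8 : ((((Finset.Ico d (n : ℤ)).filter (fun i => 4 * ((n : ℤ) - 1 - i) < n ∧
      ¬ 4 * ((n : ℤ) - 1 - (i - d)) < n)).card : ℕ) : ℝ) ≤ d := by exact_mod_cast h6
  have h9 : ∑ _i ∈ Finset.Ico d (n : ℤ), (1 : ℝ) = (n : ℝ) - d := by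
    rw [Finset.sum_const, nsmul_eq_mul, mul_one, Int.card_Ico]
    have : (((n : ℤ) - d).toNat : ℤ) = (n : ℤ) - d := Int.toNat_of_nonneg (by omega)
    have h10 : ((((n : ℤ) - d).toNat : ℕ) : ℝ) = (((n : ℤ) - d : ℤ) : ℝ) := by
      exact_mod_cast congrArg (Int.cast : ℤ → ℝ) this
    rw [h10]
    push_cast
    rfl
  rw [h9]
  linarith

end Pool.Agent.NQ
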