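import Pool.Agent.NQ.RZm
import Pool.Agent.NQ.RCon

/-!
# NQ-RRow: rows and columns after reserving diagonals

`q = Λ³`, `N = 2 n`, labels indexed by `Fin 2 × ZMod N` (`4 n` labels).

Plan. For a square `e ∈ board n` the indices `(0, ln 2 e)` and `(1, ln 3 e)` are the labels of its
diagonals (`mem_rp`, `mem_rm`, `cast_eq`). So on the row `s`
`dsum n (wres Λ W (rp n x) (rm n x)) 0 s = pat A c J1 J0 x`, `A = (board n).filter (e.1 = s)`,
`c e = gam * W e`, `J1 e = ∅`, `J0 e = {(0, ln 2 e), (1, ln 3 e)}`. Mean: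
`gam (1-1/q)² ∑ W ≤ 1 - Λ^(-29)`. Each label occurs for at most one square of the row, so
`b = 2 Λ^60/n` works (`gam ≤ 2` for `Λ ≥ 2`). `tail_pat` with `t = Λ^(-29)`: exponent
`t²/(2·4n·4Λ^120/n²) = n/(32 Λ^178) ≥ n/Λ^200`. Columns the same.
-/

namespace Pool.Agent.NQ

open Finset
open Pool.Agent.PGr (Pr Ex)

private theorem pr_aux {Λ n N q : ℕ} [NeZero q] [NeZero N] (hN : N = 2 * n) (hq : q = Λ ^ 3)
    (hΛ : 30 ≤ Λ) (hn : Λ ^ 500 ≤ n) {W : ℤ × ℤ → ℝ} (H : GW Λ n W) (k : Fin 4)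
    (hk : k = 0 ∨ k = 1) (s : ℤ) (hW1 : dsum n W k s ≤ 1) :
    Pr (fun x : Lab N q => 1 < dsum n (wres Λ W (rp n x) (rm n x)) k s) ≤
      2 * Real.exp (-((n : ℝ) / (Λ : ℝ) ^ 200)) := by
  classical
  have hΛR : (30 : ℝ) ≤ (Λ : ℝ) := by exact_mod_cast hΛ
  have hΛ0 : (0 : ℝ) < (Λ : ℝ) := by linarith
  have hnpos : 0 < n := lt_of_lt_of_le (Nat.pow_pos (by omega)) hn
  have hnR : (0 : ℝ) < (n : ℝ) := by exact_mod_cast hnpos
  have hgam1 := one_le_gam (Λ := Λ) (by omega)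
  have hgam2 := gam_le (Λ := Λ) (by omega)
  set A : Finset (ℤ × ℤ) := (board n).filter (fun e => ln k e = s) with hA
  set c : ℤ × ℤ → ℝ := fun e => gam Λ * W e with hc
  set J1 : ℤ × ℤ → Finset (Fin 2 × ZMod N) := fun _ => ∅ with hJ1
  set J0 : ℤ × ℤ → Finset (Fin 2 × ZMod N) :=
    fun e => {((0 : Fin 2), ((ln 2 e : ℤ) : ZMod N)), ((1 : Fin 2), ((ln 3 e : ℤ) : ZMod N))} with hJ0
  have hAb : ∀ e ∈ A, e ∈ board n := fun e he => (Finset.mem_filter.1 he).1
  have hW0 : ∀ e ∈ A, 0 ≤ W e := by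
    intro e he
    refine le_trans ?_ (H.lo e (hAb e he))
    positivity
  have hc0 : ∀ e ∈ A, 0 ≤ c e := fun e he => mul_nonneg (by linarith) (hW0 e he)
  -- the restricted line sum is a pattern sum
  have hpat : ∀ x : Lab N q, dsum n (wres Λ W (rp n x) (rm n x)) k s = pat A c J1 J0 x := by
    intro x
    unfold dsum pat
    refine Finset.sum_congr rfl fun e he => ?_
    have heb := mem_board.1 (hAb e he)
    have h2 : ln 2 e ∈ rp n x ↔ x (0, ((ln 2 e : ℤ) : ZMod N)) = 0 :=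
      mem_rp (by rw [ln_two]; omega) (by rw [ln_two]; omega)
    have h3 : ln 3 e ∈ rm n x ↔ x (1, ((ln 3 e : ℤ) : ZMod N)) = 0 :=
      mem_rm (by rw [ln_three]; omega) (by rw [ln_three]; omega)
    have h4 : ((∀ j ∈ J1 e, x j = 0) ∧ (∀ j ∈ J0 e, x j ≠ 0)) ↔ ¬ (ln 2 e ∈ rp n x ∨ ln 3 e ∈ rm n x) := by
      rw [h2, h3, not_or]
      constructor
      · rintro ⟨-, h⟩
        exact ⟨h _ (by simp [hJ0]), h _ (by simp [hJ0])⟩
      · rintro ⟨ha, hb⟩
        refine ⟨by simp [hJ1], ?_⟩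
        intro j hj
        rcases Finset.mem_insert.1 hj with rfl | hj
        · exact ha
        · rw [Finset.mem_singleton.1 hj]
          exact hb
    unfold wres
    by_cases h5 : ln 2 e ∈ rp n x ∨ ln 3 e ∈ rm n x
    · rw [if_pos h5, if_neg (fun h => h4.1 h h5)]
    · rw [if_neg h5, if_pos (h4.2 h5)]
  -- the mean
  have hdis : ∀ a ∈ A, Disjoint (J1 a) (J0 a) := fun a _ => by simp [hJ1]
  have hmean : Ex (fun x : Lab N q => pat A c J1 J0 x) ≤ 1 - 1 / (Λ : ℝ) ^ 29 := by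
    have e1 := ex_pat (q := q) A c J1 J0 hdis
    have e2 : ∀ a ∈ A, c a * ((1 / (q : ℝ)) ^ (J1 a).card * (1 - 1 / (q : ℝ)) ^ (J0 a).card) =
        (1 - 1 / (Λ : ℝ) ^ 29) * W a := by
      intro a _
      have c1 : (J1 a).card = 0 := by simp [hJ1]
      have c0 : (J0 a).card = 2 := by
        rw [hJ0]
        refine Finset.card_pair ?_
        intro h
        have := congrArg Prod.fst h
        simp at this
      rw [c1, c0, pow_zero, one_mul, hc, hq]
      have h3 : (1 : ℝ) < (Λ : ℝ) ^ 3 := one_lt_pow₀ (by linarith) (by norm_num)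
      have h4 : (1 - 1 / (Λ : ℝ) ^ 3) ≠ 0 := by
        have : 1 / (Λ : ℝ) ^ 3 < 1 := by
          rw [div_lt_one (by linarith)]
          exact h3
        linarith
      unfold gam
      push_cast
      have h6 : (1 - 1 / (Λ : ℝ) ^ 3) ^ 2 ≠ 0 := pow_ne_zero 2 h4
      generalize (1 - 1 / (Λ : ℝ) ^ 3) ^ 2 = t at h6 ⊢
      rw [mul_assoc, mul_comm (W a) t, ← mul_assoc, div_mul_cancel₀ _ h6]
    have e3 : Ex (fun x : Lab N q => pat A c J1 J0 x) = (1 - 1 / (Λ : ℝ) ^ 29) * dsum n W k s := by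
      refine e1.trans ?_
      rw [Finset.sum_congr rfl e2, ← Finset.mul_sum]
      rfl
    have e4 : 0 ≤ 1 - 1 / (Λ : ℝ) ^ 29 := by
      have : 1 / (Λ : ℝ) ^ 29 ≤ 1 := by
        rw [div_le_one (by positivity)]
        exact one_le_pow₀ (by linarith)
      linarith
    rw [e3]
    calc (1 - 1 / (Λ : ℝ) ^ 29) * dsum n W k s ≤ (1 - 1 / (Λ : ℝ) ^ 29) * 1 :=
          mul_le_mul_of_nonneg_left hW1 e4
      _ = _ := mul_one _
  -- influences
  have hcast : ∀ t t' : ℤ, t - t' < (N : ℤ) → t' - t < (N : ℤ) → ((t : ℤ) : ZMod N) = ((t' : ℤ) : ZMod N) → t = t' :=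
    fun t t' h1 h2 h => (cast_eq h1 h2).1 h
  have hb : ∀ i, ∑ a ∈ A.filter (fun a => i ∈ J1 a ∪ J0 a), c a ≤ 2 * (Λ : ℝ) ^ 60 / n := by
    intro i
    have hcard : (A.filter (fun a => i ∈ J1 a ∪ J0 a)).card ≤ 1 := by
      rw [Finset.card_le_one]
      intro a ha a' ha'
      obtain ⟨haA, hai⟩ := Finset.mem_filter.1 ha
      obtain ⟨haA', hai'⟩ := Finset.mem_filter.1 ha'
      have hab := mem_board.1 (hAb a haA)
      have hab' := mem_board.1 (hAb a' haA')
      have hka : ln k a = ln k a' := (Finset.mem_filter.1 haA).2.trans (Finset.mem_filter.1 haA').2.symm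
      have k1 : i ∈ J0 a := by simpa [hJ1] using hai
      have k2 : i ∈ J0 a' := by simpa [hJ1] using hai'
      have key : ln 2 a = ln 2 a' ∨ ln 3 a = ln 3 a' := by
        rcases Finset.mem_insert.1 k1 with h1 | h1
        · rcases Finset.mem_insert.1 k2 with h2 | h2
          · left
            have := congrArg Prod.snd (h1.symm.trans h2)
            exact hcast _ _ (by simp only [ln_two]; omega) (by simp only [ln_two]; omega) this
          · exfalso
            have := congrArg Prod.fst (h1.symm.trans (Finset.mem_singleton.1 h2))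
            simp at this
        · rcases Finset.mem_insert.1 k2 with h2 | h2
          · exfalso
            have := congrArg Prod.fst ((Finset.mem_singleton.1 h1).symm.trans h2)
            simp at this
          · right
            have := congrArg Prod.snd ((Finset.mem_singleton.1 h1).symm.trans (Finset.mem_singleton.1 h2))
            exact hcast _ _ (by simp only [ln_three]; omega) (by simp only [ln_three]; omega) this
      simp only [ln_two, ln_three] at key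
      rcases hk with rfl | rfl
      · simp only [ln_zero] at hka
        exact Prod.ext hka (by omega)
      · simp only [ln_one] at hka
        exact Prod.ext (by omega) hka
    have hterm : ∀ a ∈ A.filter (fun a => i ∈ J1 a ∪ J0 a), c a ≤ 2 * (Λ : ℝ) ^ 60 / n := by
      intro a ha
      have haA := (Finset.mem_filter.1 ha).1
      have h1 := H.hi a (hAb a haA)
      calc gam Λ * W a ≤ 2 * ((Λ : ℝ) ^ 60 / n) :=
            mul_le_mul hgam2 h1 (hW0 a haA) (by norm_num)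
        _ = 2 * (Λ : ℝ) ^ 60 / n := by ring
    calc ∑ a ∈ A.filter (fun a => i ∈ J1 a ∪ J0 a), c a
        ≤ (A.filter (fun a => i ∈ J1 a ∪ J0 a)).card • (2 * (Λ : ℝ) ^ 60 / n) :=
          Finset.sum_le_card_nsmul _ _ _ hterm
      _ ≤ 2 * (Λ : ℝ) ^ 60 / n := by
          rw [nsmul_eq_mul]
          have h1 : ((A.filter (fun a => i ∈ J1 a ∪ J0 a)).card : ℝ) ≤ 1 := by exact_mod_cast hcard
          have h2 : 0 ≤ 2 * (Λ : ℝ) ^ 60 / n := by positivity
          calc _ ≤ 1 * (2 * (Λ : ℝ) ^ 60 / n) := mul_le_mul_of_nonneg_right h1 h2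
            _ = _ := one_mul _
  have hb0 : 0 < 2 * (Λ : ℝ) ^ 60 / n := by positivity
  have htail := tail_pat (q := q) A c hc0 J1 J0 hb0 hb (t := 1 / (Λ : ℝ) ^ 29) (by positivity)
  have hmono : Pr (fun x : Lab N q => 1 < dsum n (wres Λ W (rp n x) (rm n x)) k s) ≤
      Pr (fun x : Lab N q => 1 / (Λ : ℝ) ^ 29 ≤
        |pat A c J1 J0 x - Ex (fun x : Lab N q => pat A c J1 J0 x)|) := by
    apply Pool.Agent.PGr.Pr_mono
    intro x hx
    rw [hpat x] at hx
    refine le_trans ?_ (le_abs_self _)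
    linarith
  refine hmono.trans (htail.trans ?_)
  refine mul_le_mul_of_nonneg_left (Real.exp_le_exp.2 (neg_le_neg ?_)) (by norm_num)
  rw [card_lab hN]
  have h22 : (32 : ℝ) ≤ (Λ : ℝ) ^ 22 := by
    calc (32 : ℝ) ≤ 30 ^ 22 := by norm_num
      _ ≤ (Λ : ℝ) ^ 22 := pow_le_pow_left₀ (by norm_num) hΛR 22
  have hrew : (1 / (Λ : ℝ) ^ 29) ^ 2 / (2 * (4 * (n : ℝ) * (2 * (Λ : ℝ) ^ 60 / n) ^ 2)) =
      (n : ℝ) / (32 * (Λ : ℝ) ^ 178) := by
    field_simp
    ring
  rw [hrew]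
  refine div_le_div_of_nonneg_left hnR.le (by positivity) ?_
  calc 32 * (Λ : ℝ) ^ 178 ≤ (Λ : ℝ) ^ 22 * (Λ : ℝ) ^ 178 :=
        mul_le_mul_of_nonneg_right h22 (by positivity)
    _ = (Λ : ℝ) ^ 200 := by ring

theorem pr_row {Λ n N q : ℕ} [NeZero q] [NeZero N] (hN : N = 2 * n) (hq : q = Λ ^ 3) (hΛ : 30 ≤ Λ)
    (hn : Λ ^ 500 ≤ n) {W : ℤ × ℤ → ℝ} (H : GW Λ n W) (s : ℤ) :
    Pr (fun x : Lab N q => 1 < dsum n (wres Λ W (rp n x) (rm n x)) 0 s) ≤
      2 * Real.exp (-((n : ℝ) / (Λ : ℝ) ^ 200)) :=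
  pr_aux hN hq hΛ hn H 0 (Or.inl rfl) s (H.row s)

theorem pr_col {Λ n N q : ℕ} [NeZero q] [NeZero N] (hN : N = 2 * n) (hq : q = Λ ^ 3) (hΛ : 30 ≤ Λ)
    (hn : Λ ^ 500 ≤ n) {W : ℤ × ℤ → ℝ} (H : GW Λ n W) (s : ℤ) :
    Pr (fun x : Lab N q => 1 < dsum n (wres Λ W (rp n x) (rm n x)) 1 s) ≤
      2 * Real.exp (-((n : ℝ) / (Λ : ℝ) ^ 200)) :=
  pr_aux hN hq hΛ hn H 1 (Or.inr rfl) s (H.col s)

end Pool.Agent.NQ
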