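import Pool.Agent.NQ.TGeo

/-!
# NQ-TCnt: counts of queens in cells and strips

Plan. `cs_le`, `cd_le`, `cnt_le`: queens have different sum diagonals (`NonAtt`), a strip has `l`
diagonals (`(e.1+e.2)/l = a` iff `a l ≤ e.1+e.2 < a l + l`). `sum_cnt`: `Finset.card_eq_sum_card_image`.
-/

namespace Pool.Agent.NQ

open Finset

variable {m l n l' R : ℕ} {S : Finset (ℤ × ℤ)}

private theorem strip_le (H : TH m l n l' R S) (k : Fin 4) (a : ℤ) :
    (S.filter (fun e => ln k e / (l : ℤ) = a)).card ≤ l := by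
  have hl : (0 : ℤ) < (l : ℤ) := by exact_mod_cast H.hl
  have h1 : (S.filter (fun e => ln k e / (l : ℤ) = a)).card
      ≤ (Finset.Ico (a * (l : ℤ)) (a * (l : ℤ) + (l : ℤ))).card := by
    refine Finset.card_le_card_of_injOn (fun e => ln k e) ?_ ?_
    · intro e he
      rw [Finset.mem_coe, Finset.mem_filter] at he
      rw [Finset.mem_coe, Finset.mem_Ico]
      have h2 := (Int.ediv_eq_iff_of_pos hl).1 he.2
      constructor
      · nlinarith [h2.1, h2.2]
      · nlinarith [h2.1, h2.2]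
    · intro e he f hf hef
      rw [Finset.mem_coe, Finset.mem_filter] at he hf
      by_contra hne
      exact H.qs.2.2 e he.1 f hf.1 hne k hef
  rw [Int.card_Ico] at h1
  have h3 : (a * (l : ℤ) + (l : ℤ) - a * (l : ℤ)).toNat = l := by
    have : a * (l : ℤ) + (l : ℤ) - a * (l : ℤ) = (l : ℤ) := by ring
    rw [this]; exact Int.toNat_natCast l
  rw [h3] at h1
  exact h1

theorem cs_le (H : TH m l n l' R S) (a : ℤ) : cs S l a ≤ l := strip_le H 2 a

theorem cd_le (H : TH m l n l' R S) (a : ℤ) : cd S l a ≤ l := strip_le H 3 a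

theorem cnt_le (H : TH m l n l' R S) (c : ℤ × ℤ) : cnt S l c ≤ l := by
  refine le_trans (Finset.card_le_card ?_) (cs_le H c.1)
  intro e he
  rw [Finset.mem_filter] at he ⊢
  refine ⟨he.1, ?_⟩
  have := congrArg Prod.fst he.2
  exact this

theorem sum_cnt (H : TH m l n l' R S) : ∑ c ∈ S.image (cell l), (cnt S l c : ℝ) = m := by
  have h1 : S.card = ∑ c ∈ S.image (cell l), cnt S l c :=
    Finset.card_eq_sum_card_image (cell l) S
  rw [← Nat.cast_sum, ← h1, H.qs.2.1]

end Pool.Agent.NQ
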