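import Pool.Agent.NQ.Defs

/-!
# NQ block T: definitions

From a configuration `S` on the board of size `m` with strips of length `l` we build weights on the
board of size `n` with strips of length `l'`.
-/

namespace Pool.Agent.NQ

open Finset

/-- The scaling factor of the masses. -/
noncomputable def lam (l l' R : ℕ) : ℝ := (l' : ℝ) * R / ((l : ℝ) * ((R : ℝ) + 3 * l'))

/-- The cell of the small picture in which a square lies. -/
def cellT (l' : ℕ) (e : ℤ × ℤ) : ℤ × ℤ := ((e.1 + e.2) / (l' : ℤ) - 2, (e.1 - e.2) / (l' : ℤ))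

/-- The weights before averaging. -/
noncomputable def W0 (S : Finset (ℤ × ℤ)) (l l' R : ℕ) (e : ℤ × ℤ) : ℝ :=
  lam l l' R * (cnt S l (cellT l' e) : ℝ) * (2 / (l' : ℝ) ^ 2)

/-- The weights: average of `W0` over the translations by `[0,R)²`. -/
noncomputable def WT (S : Finset (ℤ × ℤ)) (l l' R : ℕ) (e : ℤ × ℤ) : ℝ :=
  (1 / (R : ℝ) ^ 2) * ∑ u ∈ range R, ∑ v ∈ range R, W0 S l l' R (e.1 - (u : ℤ), e.2 - (v : ℤ))

/-- The hypotheses. -/
structure TH (m l n l' R : ℕ) (S : Finset (ℤ × ℤ)) : Prop where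
  qs : QS m S
  hl : 0 < l
  hl' : 0 < l'
  ev : Even l'
  hR : 0 < R
  fit : l' * m + l * (R + 2 * l') ≤ l * n

end Pool.Agent.NQ
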