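import Pool.Agent.NQ.TDefs

/-!
# NQ-TGeo: geometry of the transfer

Plan. Let `(x,y) ∈ S`, `(a,b) = cell l (x,y)`, i.e. `a l ≤ x + y < (a+1) l`, `b l ≤ x - y < (b+1) l`.
Let `(i,j)` have `cellT l' (i,j) = (a,b)`, i.e. `(a+2) l' ≤ i + j < (a+3) l'`, `b l' ≤ i - j < (b+1) l'`.
Then (multiplying by `l`, `l' > 0`; these are linear after multiplication, use `nlinarith` or
`Int.mul_lt_mul`): `2 i ≥ (a+b+2) l'` and `2x < (a+b+2) l` give `2 x l' < (a+b+2) l l' ≤ 2 i l`;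
`2 i ≤ (a+b+4) l' - 2` and `2 x ≥ (a+b) l` give `2 i l ≤ (a+b) l l' + 4 l l' - 2 l ≤ 2 x l' + 4 l l' - 2l`.
Similarly for the second coordinate: `2j = (i+j)-(i-j)` lies in `[(a+2-b-1) l' + 1, (a+3-b) l' - 1]`,
`2y` in `((a-b-1) l, (a-b+1) l)`, so `2 y l' < (a-b+1) l l' < 2 j l` and
`2 j l < (a-b+3) l l' < 2 y l' + 4 l l'`.
* `geo1`, `geo2` are these inequalities (after dividing by 2).
* `supp`: if `cnt S l (cellT l' e) ≠ 0` some `(x,y) ∈ S` has `cell l (x,y) = cellT l' e`; use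
  `0 ≤ x, y ≤ m - 1` and `fit`.
-/

namespace Pool.Agent.NQ

open Finset

variable {m l n l' R : ℕ} {S : Finset (ℤ × ℤ)}

/-- the inequalities behind a cell -/
private theorem ineqs (hl : 0 < l) (hl' : 0 < l') {q e : ℤ × ℤ} (h : cell l q = cellT l' e) :
    ∃ a b : ℤ, (a * l ≤ q.1 + q.2 ∧ q.1 + q.2 + 1 ≤ (a + 1) * l) ∧
      (b * l ≤ q.1 - q.2 ∧ q.1 - q.2 + 1 ≤ (b + 1) * l) ∧
      ((a + 2) * l' ≤ e.1 + e.2 ∧ e.1 + e.2 + 1 ≤ (a + 3) * l') ∧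
      (b * l' ≤ e.1 - e.2 ∧ e.1 - e.2 + 1 ≤ (b + 1) * l') := by
  have hL : (0 : ℤ) < l := by exact_mod_cast hl
  have hL' : (0 : ℤ) < l' := by exact_mod_cast hl'
  have h1 : (q.1 + q.2) / (l : ℤ) = (e.1 + e.2) / (l' : ℤ) - 2 := congrArg Prod.fst h
  have h2 : (q.1 - q.2) / (l : ℤ) = (e.1 - e.2) / (l' : ℤ) := congrArg Prod.snd h
  refine ⟨(q.1 + q.2) / (l : ℤ), (q.1 - q.2) / (l : ℤ),
    ⟨Int.ediv_mul_le _ hL.ne', Int.add_one_le_iff.2 (Int.lt_ediv_add_one_mul_self _ hL)⟩,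
    ⟨Int.ediv_mul_le _ hL.ne', Int.add_one_le_iff.2 (Int.lt_ediv_add_one_mul_self _ hL)⟩, ?_, ?_⟩
  · rw [h1]
    have h3 := Int.ediv_mul_le (e.1 + e.2) hL'.ne'
    have h4 := Int.lt_ediv_add_one_mul_self (e.1 + e.2) hL'
    constructor
    · have h5 : (e.1 + e.2) / (l' : ℤ) - 2 + 2 = (e.1 + e.2) / (l' : ℤ) := by ring
      rw [h5]
      exact h3
    · have h5 : (e.1 + e.2) / (l' : ℤ) - 2 + 3 = (e.1 + e.2) / (l' : ℤ) + 1 := by ring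
      rw [h5]
      exact Int.add_one_le_iff.2 h4
  · rw [h2]
    exact ⟨Int.ediv_mul_le _ hL'.ne', Int.add_one_le_iff.2 (Int.lt_ediv_add_one_mul_self _ hL')⟩

theorem geo1 (hl : 0 < l) (hl' : 0 < l') {q e : ℤ × ℤ} (h : cell l q = cellT l' e) :
    q.1 * (l' : ℤ) < e.1 * (l : ℤ) ∧ e.1 * (l : ℤ) < q.1 * (l' : ℤ) + 2 * (l : ℤ) * (l' : ℤ) := by
  have hL : (0 : ℤ) < l := by exact_mod_cast hl
  have hL' : (0 : ℤ) < l' := by exact_mod_cast hl'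
  obtain ⟨a, b, ⟨h1, h2⟩, ⟨h3, h4⟩, ⟨h5, h6⟩, ⟨h7, h8⟩⟩ := ineqs hl hl' h
  generalize (l : ℤ) = L at *
  generalize (l' : ℤ) = M at *
  have a1 : (2 * q.1 + 2) * M ≤ (a + b + 2) * L * M :=
    mul_le_mul_of_nonneg_right (by linarith) hL'.le
  have a2 : (a + b + 2) * M * L ≤ (2 * e.1) * L :=
    mul_le_mul_of_nonneg_right (by linarith) hL.le
  have a3 : (2 * e.1 + 2) * L ≤ (a + b + 4) * M * L :=
    mul_le_mul_of_nonneg_right (by linarith) hL.le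
  have a4 : (a + b) * L * M ≤ (2 * q.1) * M :=
    mul_le_mul_of_nonneg_right (by linarith) hL'.le
  constructor
  · nlinarith
  · nlinarith

theorem geo2 (hl : 0 < l) (hl' : 0 < l') {q e : ℤ × ℤ} (h : cell l q = cellT l' e) :
    q.2 * (l' : ℤ) < e.2 * (l : ℤ) ∧ e.2 * (l : ℤ) < q.2 * (l' : ℤ) + 2 * (l : ℤ) * (l' : ℤ) := by
  have hL : (0 : ℤ) < l := by exact_mod_cast hl
  have hL' : (0 : ℤ) < l' := by exact_mod_cast hl'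
  obtain ⟨a, b, ⟨h1, h2⟩, ⟨h3, h4⟩, ⟨h5, h6⟩, ⟨h7, h8⟩⟩ := ineqs hl hl' h
  generalize (l : ℤ) = L at *
  generalize (l' : ℤ) = M at *
  have a1 : (2 * q.2 + 1) * M ≤ (a - b + 1) * L * M :=
    mul_le_mul_of_nonneg_right (by linarith) hL'.le
  have a2 : (a - b + 1) * M * L ≤ (2 * e.2 - 1) * L :=
    mul_le_mul_of_nonneg_right (by linarith) hL.le
  have a3 : (2 * e.2 + 1) * L ≤ (a - b + 3) * M * L :=
    mul_le_mul_of_nonneg_right (by linarith) hL.le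
  have a4 : (a - b - 1) * L * M ≤ (2 * q.2 - 1) * M :=
    mul_le_mul_of_nonneg_right (by linarith) hL'.le
  constructor
  · nlinarith
  · nlinarith

theorem supp (H : TH m l n l' R S) {e : ℤ × ℤ} (h : cnt S l (cellT l' e) ≠ 0) :
    (0 ≤ e.1 ∧ e.1 + R ≤ n) ∧ (0 ≤ e.2 ∧ e.2 + R ≤ n) := by
  have hL : (0 : ℤ) < l := by exact_mod_cast H.hl
  have hL' : (0 : ℤ) < l' := by exact_mod_cast H.hl'
  obtain ⟨q, hq⟩ := Finset.card_ne_zero.1 h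
  obtain ⟨hqS, hqc⟩ := Finset.mem_filter.1 hq
  obtain ⟨⟨hx0, hx1⟩, ⟨hy0, hy1⟩⟩ := mem_board.1 (H.qs.1 hqS)
  have hfit : (l' : ℤ) * m + l * (R + 2 * l') ≤ l * n := by exact_mod_cast H.fit
  obtain ⟨g1, g2⟩ := geo1 H.hl H.hl' hqc
  obtain ⟨g3, g4⟩ := geo2 H.hl H.hl' hqc
  have hx2 : q.1 + 1 ≤ (m : ℤ) := hx1
  have hy2 : q.2 + 1 ≤ (m : ℤ) := hy1
  have b1 : (q.1 + 1) * (l' : ℤ) ≤ m * l' := mul_le_mul_of_nonneg_right hx2 hL'.le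
  have b2 : (q.2 + 1) * (l' : ℤ) ≤ m * l' := mul_le_mul_of_nonneg_right hy2 hL'.le
  have c1 : 0 ≤ q.1 * (l' : ℤ) := mul_nonneg hx0 hL'.le
  have c2 : 0 ≤ q.2 * (l' : ℤ) := mul_nonneg hy0 hL'.le
  refine ⟨⟨?_, ?_⟩, ?_, ?_⟩
  · by_contra hn
    push Not at hn
    have : e.1 * (l : ℤ) ≤ 0 := mul_nonpos_of_nonpos_of_nonneg hn.le hL.le
    linarith
  · have h9 : (e.1 + R) * (l : ℤ) ≤ n * l := by nlinarith
    exact le_of_mul_le_mul_right h9 hL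
  · by_contra hn
    push Not at hn
    have : e.2 * (l : ℤ) ≤ 0 := mul_nonpos_of_nonpos_of_nonneg hn.le hL.le
    linarith
  · have h9 : (e.2 + R) * (l : ℤ) ≤ n * l := by nlinarith
    exact le_of_mul_le_mul_right h9 hL

end Pool.Agent.NQ
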