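import Pool.Agent.NQ.UCelA

/-!
# NQ-UCell: the cell sums

Plan.
* `sum_oc`: for a parity strip `σ` (a finset `T` with `T = {s : st l s = σ}`):
  `∑_{s∈T} (1 - t oc X k s) = l/2 - t c1 = (l/2) (1 - t dn)`.
* `cell_sum`: the sum over all squares `(i,b)`, grouped by the cell `D = cellD l (sb i b)`; only cells
  with `cw X0 l D > 0` contribute. For such a cell `(i,b) ↦ (ln 2, ln 3)` is injective into
  `S × T` (the two strips), so with nonnegative terms
  `∑_{(i,b) in D} (1 - t o₂)(1 - t o₃) ≤ ∑_{s∈S} ∑_{d∈T} (1 - t o₂ s)(1 - t o₃ d)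
   = (l/2)² (1 - t dn X 2 σ) (1 - t dn X 3 σ')`, and `dn X = dn X0` (the profile determines the strip
  counts: `c1 X k l σ = ∑_{D} cw X l D` over the cells with `D.1 = σ` resp. `D.2 = σ`). Hence the cell
  contributes at most `cw X0 l D`, and the sum of all `cw X0 l D` over the image of the rows is `m`.
  The hypothesis `t < 1` and `dn ≤ 1` make all denominators positive.
-/

namespace Pool.Agent.NQ

open Finset

/-- The parity strip as a finset. -/
private noncomputable def stripF (l : ℤ) (σ : ℤ × ℤ) : Finset ℤ :=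
  (Finset.Ico (σ.1 * l) (σ.1 * l + l)).filter (fun s => s % 2 = σ.2)

private theorem mem_stripF {l : ℤ} (hl : 0 < l) (σ : ℤ × ℤ) (s : ℤ) :
    s ∈ stripF l σ ↔ st l s = σ := by
  obtain ⟨a, p⟩ := σ
  unfold stripF st
  rw [mem_filter, mem_Ico, Prod.mk.injEq]
  simp only
  constructor
  · rintro ⟨⟨h1, h2⟩, h3⟩
    refine ⟨?_, h3⟩
    apply le_antisymm
    · have : s / l < a + 1 := by
        rw [Int.ediv_lt_iff_lt_mul hl]
        linarith
      omega
    · rw [Int.le_ediv_iff_mul_le hl]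
      exact h1
  · rintro ⟨h1, h3⟩
    refine ⟨⟨?_, ?_⟩, h3⟩
    · rw [← Int.le_ediv_iff_mul_le hl]
      omega
    · have : s / l < a + 1 := by omega
      rw [Int.ediv_lt_iff_lt_mul hl] at this
      linarith

private theorem oc_nonneg {m : ℕ} (X : Fin m → Fin m) (k : Fin 4) (s : ℤ) : 0 ≤ oc X k s := by
  unfold oc
  split_ifs <;> norm_num

private theorem oc_le_one {m : ℕ} (X : Fin m → Fin m) (k : Fin 4) (s : ℤ) : oc X k s ≤ 1 := by
  unfold oc
  split_ifs <;> norm_num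

private theorem sum_oc0 {m : ℕ} {X : Fin m → Fin m} (k : Fin 4)
    (hinj : Function.Injective (fun i => ln k (sq X i))) {l : ℤ} (hl : 0 < l) (σ : ℤ × ℤ) :
    ∑ s ∈ stripF l σ, oc X k s = (c1 X k l σ : ℝ) := by
  classical
  unfold oc c1
  rw [Finset.sum_boole]
  congr 1
  symm
  apply Finset.card_bij (fun i _ => ln k (sq X i))
  · intro i hi
    rw [mem_filter] at hi
    rw [mem_filter, mem_stripF hl]
    exact ⟨hi.2, i, rfl⟩
  · intro i _ j _ hij
    exact hinj hij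
  · intro s hs
    rw [mem_filter, mem_stripF hl] at hs
    obtain ⟨h1, j, h2⟩ := hs
    refine ⟨j, ?_, h2⟩
    rw [mem_filter]
    refine ⟨mem_univ _, ?_⟩
    rw [h2]
    exact h1

private theorem sum_oc {m : ℕ} {X : Fin m → Fin m} (k : Fin 4)
    (hinj : Function.Injective (fun i => ln k (sq X i))) {l : ℤ} (hl : 0 < l) (he : Even l)
    (σ : ℤ × ℤ) (hσ : σ.2 = 0 ∨ σ.2 = 1) (t : ℝ) :
    ∑ s ∈ stripF l σ, (1 - t * oc X k s) = (l : ℝ) / 2 * (1 - t * dn X k l σ) := by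
  have hl' : (0 : ℝ) < l := by exact_mod_cast hl
  rw [Finset.sum_sub_distrib, ← Finset.mul_sum, sum_oc0 k hinj hl σ]
  have h1 : ∑ _s ∈ stripF l σ, (1 : ℝ) = (l : ℝ) / 2 := by
    rw [Finset.sum_const, nsmul_eq_mul, mul_one]
    exact card_st hl he σ.1 hσ
  rw [h1]
  unfold dn
  field_simp

private theorem one_sub_pos {m : ℕ} {X : Fin m → Fin m} (hX : QF m X) {l : ℤ} (hl : 0 < l)
    (he : Even l) {t : ℝ} (ht0 : 0 ≤ t) (ht1 : t < 1) (k : Fin 4) (hk : k = 2 ∨ k = 3)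
    (σ : ℤ × ℤ) : 0 < 1 - t * dn X k l σ := by
  have h1 := dn_le_one hX hl he k hk σ
  have h2 := dn_nonneg X hl k σ
  nlinarith

private theorem st_snd (l s : ℤ) : (st l s).2 = 0 ∨ (st l s).2 = 1 := by
  unfold st
  simp only
  omega

/-- The contribution of one cell. -/
private theorem cell_one {m : ℕ} {X : Fin m → Fin m} (hX : QF m X) {l : ℤ} (hl : 0 < l)
    (he : Even l) {t : ℝ} (ht0 : 0 ≤ t) (ht1 : t < 1) (D : (ℤ × ℤ) × (ℤ × ℤ))
    (h1 : D.1.2 = 0 ∨ D.1.2 = 1) (h2 : D.2.2 = 0 ∨ D.2.2 = 1) :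
    ∑ p ∈ (univ : Finset (Fin m × Fin m)).filter (fun p => cellD l (sb p.1 p.2) = D),
      aw X l t (sb p.1 p.2) * ((1 - t) * (1 - t * oc X 2 (ln 2 (sb p.1 p.2))) *
        (1 - t * oc X 3 (ln 3 (sb p.1 p.2)))) ≤ (cw X l D : ℝ) := by
  classical
  have hl' : (0 : ℝ) < l := by exact_mod_cast hl
  obtain ⟨hi1, hi2, hi3⟩ := hX
  have hd2 := one_sub_pos ⟨hi1, hi2, hi3⟩ hl he ht0 ht1 2 (Or.inl rfl) D.1
  have hd3 := one_sub_pos ⟨hi1, hi2, hi3⟩ hl he ht0 ht1 3 (Or.inr rfl) D.2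
  have ht : 0 < 1 - t := by linarith
  set A : ℝ := (cw X l D : ℝ) / (((l : ℝ) / 2) ^ 2 * (1 - t * dn X 2 l D.1) *
    (1 - t * dn X 3 l D.2)) with hA
  have hA0 : 0 ≤ A := by positivity
  have e1 : ∑ p ∈ (univ : Finset (Fin m × Fin m)).filter (fun p => cellD l (sb p.1 p.2) = D),
      aw X l t (sb p.1 p.2) * ((1 - t) * (1 - t * oc X 2 (ln 2 (sb p.1 p.2))) *
        (1 - t * oc X 3 (ln 3 (sb p.1 p.2)))) =
      A * ∑ p ∈ (univ : Finset (Fin m × Fin m)).filter (fun p => cellD l (sb p.1 p.2) = D),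
        ((1 - t * oc X 2 (ln 2 (sb p.1 p.2))) * (1 - t * oc X 3 (ln 3 (sb p.1 p.2)))) := by
    rw [Finset.mul_sum]
    apply Finset.sum_congr rfl
    intro p hp
    rw [mem_filter] at hp
    have hD := hp.2
    have hD1 : st l (ln 2 (sb p.1 p.2)) = D.1 := by rw [← hD]; rfl
    have hD2 : st l (ln 3 (sb p.1 p.2)) = D.2 := by rw [← hD]; rfl
    unfold aw
    rw [hD, hD1, hD2, hA]
    field_simp
  rw [e1]
  have e2 : ∑ p ∈ (univ : Finset (Fin m × Fin m)).filter (fun p => cellD l (sb p.1 p.2) = D),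
        ((1 - t * oc X 2 (ln 2 (sb p.1 p.2))) * (1 - t * oc X 3 (ln 3 (sb p.1 p.2)))) ≤
      ∑ q ∈ stripF l D.1 ×ˢ stripF l D.2, ((1 - t * oc X 2 q.1) * (1 - t * oc X 3 q.2)) := by
    have hinj : Set.InjOn (fun p : Fin m × Fin m => (ln 2 (sb p.1 p.2), ln 3 (sb p.1 p.2)))
        ((univ : Finset (Fin m × Fin m)).filter (fun p => cellD l (sb p.1 p.2) = D)) := by
      rintro ⟨i, b⟩ _ ⟨i', b'⟩ _ h
      simp only [ln_two, ln_three, sb, Prod.mk.injEq] at h
      have ha : (i : ℕ) = (i' : ℕ) := by omega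
      have hb : (b : ℕ) = (b' : ℕ) := by omega
      rw [Prod.mk.injEq]
      exact ⟨Fin.ext ha, Fin.ext hb⟩
    have e3 := Finset.sum_image (f := fun q : ℤ × ℤ => (1 - t * oc X 2 q.1) * (1 - t * oc X 3 q.2))
      hinj
    simp only at e3
    rw [← e3]
    apply Finset.sum_le_sum_of_subset_of_nonneg
    · intro q hq
      rw [mem_image] at hq
      obtain ⟨p, hp, rfl⟩ := hq
      rw [mem_filter] at hp
      have hD := hp.2
      rw [mem_product, mem_stripF hl, mem_stripF hl]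
      constructor
      · rw [← hD]; rfl
      · rw [← hD]; rfl
    · intro q _ _
      have g1 := oc_le_one X 2 q.1
      have g2 := oc_le_one X 3 q.2
      have g3 := oc_nonneg X 2 q.1
      have g4 := oc_nonneg X 3 q.2
      apply mul_nonneg
      · nlinarith
      · nlinarith
  refine le_trans (mul_le_mul_of_nonneg_left e2 hA0) ?_
  rw [Finset.sum_product]
  have e4 : ∑ x ∈ stripF l D.1, ∑ y ∈ stripF l D.2,
      ((1 - t * oc X 2 x) * (1 - t * oc X 3 y)) =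
      (∑ x ∈ stripF l D.1, (1 - t * oc X 2 x)) * ∑ y ∈ stripF l D.2, (1 - t * oc X 3 y) := by
    rw [Finset.sum_mul_sum]
  simp only
  rw [e4, sum_oc 2 hi2 hl he D.1 h1 t, sum_oc 3 hi3 hl he D.2 h2 t, hA]
  apply le_of_eq
  have n1 := hd2.ne'
  have n2 := hd3.ne'
  field_simp

theorem cell_sum {m : ℕ} {X : Fin m → Fin m} (hX : QF m X) {l : ℤ} (hl : 0 < l) (he : Even l)
    {t : ℝ} (ht0 : 0 ≤ t) (ht1 : t < 1) :
    ∑ i : Fin m, ∑ b : Fin m, aw X l t (sb i b) *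
      ((1 - t) * (1 - t * oc X 2 (ln 2 (sb i b))) * (1 - t * oc X 3 (ln 3 (sb i b)))) ≤ m := by
  classical
  rw [← Finset.sum_product']
  set f : Fin m × Fin m → ℝ := fun p => aw X l t (sb p.1 p.2) *
      ((1 - t) * (1 - t * oc X 2 (ln 2 (sb p.1 p.2))) * (1 - t * oc X 3 (ln 3 (sb p.1 p.2))))
    with hf
  set DD : Finset ((ℤ × ℤ) × (ℤ × ℤ)) := (univ : Finset (Fin m)).image (fun i => cellD l (sq X i))
    with hDD
  have e0 : ∑ p ∈ (univ : Finset (Fin m)) ×ˢ (univ : Finset (Fin m)), f p =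
      ∑ p ∈ (univ : Finset (Fin m × Fin m)).filter (fun p => cellD l (sb p.1 p.2) ∈ DD), f p := by
    rw [Finset.univ_product_univ]
    symm
    apply Finset.sum_subset (Finset.filter_subset _ _)
    intro p _ hp
    rw [mem_filter] at hp
    have hp' : cellD l (sb p.1 p.2) ∉ DD := fun h => hp ⟨mem_univ _, h⟩
    have hc : cw X l (cellD l (sb p.1 p.2)) = 0 := by
      unfold cw
      rw [Finset.card_eq_zero, Finset.filter_eq_empty_iff]
      intro i _ hi
      apply hp'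
      rw [hDD, mem_image]
      exact ⟨i, mem_univ _, hi⟩
    rw [hf]
    simp only
    unfold aw
    rw [hc]
    simp
  rw [e0]
  have e1 : ∑ p ∈ (univ : Finset (Fin m × Fin m)).filter (fun p => cellD l (sb p.1 p.2) ∈ DD), f p =
      ∑ D ∈ DD, ∑ p ∈ ((univ : Finset (Fin m × Fin m)).filter
        (fun p => cellD l (sb p.1 p.2) ∈ DD)).filter (fun p => cellD l (sb p.1 p.2) = D), f p := by
    symm
    apply Finset.sum_fiberwise_of_maps_to
    intro p hp
    rw [mem_filter] at hp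
    exact hp.2
  rw [e1]
  have e2 : ∀ D ∈ DD, ∑ p ∈ ((univ : Finset (Fin m × Fin m)).filter
        (fun p => cellD l (sb p.1 p.2) ∈ DD)).filter (fun p => cellD l (sb p.1 p.2) = D), f p ≤
      (cw X l D : ℝ) := by
    intro D hD
    have hs : ((univ : Finset (Fin m × Fin m)).filter
        (fun p => cellD l (sb p.1 p.2) ∈ DD)).filter (fun p => cellD l (sb p.1 p.2) = D) =
        (univ : Finset (Fin m × Fin m)).filter (fun p => cellD l (sb p.1 p.2) = D) := by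
      ext p
      simp only [mem_filter, mem_univ, true_and]
      constructor
      · exact fun h => h.2
      · intro h
        exact ⟨h ▸ hD, h⟩
    rw [hs]
    rw [hDD, mem_image] at hD
    obtain ⟨i, _, hi⟩ := hD
    apply cell_one hX hl he ht0 ht1 D
    · rw [← hi]; exact st_snd _ _
    · rw [← hi]; exact st_snd _ _
  refine le_trans (Finset.sum_le_sum e2) ?_
  have e3 : ∑ D ∈ DD, (cw X l D : ℝ) = (m : ℝ) := by
    have h := Finset.card_eq_sum_card_image (fun i => cellD l (sq X i)) (univ : Finset (Fin m))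
    rw [Finset.card_univ, Fintype.card_fin] at h
    rw [← Nat.cast_sum]
    congr 1
    rw [hDD]
    exact h.symm
  rw [e3]

theorem aw_nonneg {m : ℕ} {X : Fin m → Fin m} (hX : QF m X) {l : ℤ} (hl : 0 < l) (he : Even l)
    {t : ℝ} (ht0 : 0 ≤ t) (ht1 : t < 1) (e : ℤ × ℤ) : 0 ≤ aw X l t e := by
  have hl' : (0 : ℝ) < l := by exact_mod_cast hl
  have hd2 := one_sub_pos hX hl he ht0 ht1 2 (Or.inl rfl) (st l (ln 2 e))
  have hd3 := one_sub_pos hX hl he ht0 ht1 3 (Or.inr rfl) (st l (ln 3 e))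
  have ht : 0 < 1 - t := by linarith
  unfold aw
  positivity

/-- The weights at the queens are positive and small. -/
theorem aw_pos {m : ℕ} {X : Fin m → Fin m} (hX : QF m X) {l : ℤ} (hl : 0 < l) (he : Even l)
    {t : ℝ} (ht0 : 0 ≤ t) (ht1 : t < 1) (i : Fin m) : 0 < aw X l t (sq X i) := by
  have hl' : (0 : ℝ) < l := by exact_mod_cast hl
  have hd2 := one_sub_pos hX hl he ht0 ht1 2 (Or.inl rfl) (st l (ln 2 (sq X i)))
  have hd3 := one_sub_pos hX hl he ht0 ht1 3 (Or.inr rfl) (st l (ln 3 (sq X i)))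
  have ht : 0 < 1 - t := by linarith
  have hc : 0 < cw X l (cellD l (sq X i)) := by
    unfold cw
    apply Finset.card_pos.mpr
    exact ⟨i, by rw [mem_filter]; exact ⟨mem_univ _, rfl⟩⟩
  have hc' : (0 : ℝ) < cw X l (cellD l (sq X i)) := by exact_mod_cast hc
  unfold aw
  positivity

theorem aw_le {m : ℕ} {X : Fin m → Fin m} (hX : QF m X) {l : ℤ} (hl : 0 < l) (he : Even l)
    {t κ : ℝ} (ht0 : 0 ≤ t) (hκ : 0 < κ) (ht1 : t ≤ 1 - κ) (e : ℤ × ℤ) :
    aw X l t e ≤ 2 / ((l : ℝ) * κ ^ 3) := by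
  have hl' : (0 : ℝ) < l := by exact_mod_cast hl
  have g2 := dn_le_one hX hl he 2 (Or.inl rfl) (st l (ln 2 e))
  have g3 := dn_le_one hX hl he 3 (Or.inr rfl) (st l (ln 3 e))
  have k2 := dn_nonneg X hl 2 (st l (ln 2 e))
  have k3 := dn_nonneg X hl 3 (st l (ln 3 e))
  have hd2 : κ ≤ 1 - t * dn X 2 l (st l (ln 2 e)) := by nlinarith
  have hd3 : κ ≤ 1 - t * dn X 3 l (st l (ln 3 e)) := by nlinarith
  have ht : κ ≤ 1 - t := by linarith
  have hc := cw_le hX hl he (cellD l e)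
  unfold aw
  have hden : ((l : ℝ) / 2) ^ 2 * κ ^ 3 ≤ ((l : ℝ) / 2) ^ 2 * (1 - t) *
    (1 - t * dn X 2 l (st l (ln 2 e))) * (1 - t * dn X 3 l (st l (ln 3 e))) := by
    have a1 : κ * κ ≤ (1 - t) * (1 - t * dn X 2 l (st l (ln 2 e))) :=
      mul_le_mul ht hd2 hκ.le (by linarith)
    have a2 : κ * κ * κ ≤ (1 - t) * (1 - t * dn X 2 l (st l (ln 2 e))) *
        (1 - t * dn X 3 l (st l (ln 3 e))) :=
      mul_le_mul a1 hd3 hκ.le (le_trans (by positivity) a1)
    have a3 : ((l : ℝ) / 2) ^ 2 * (κ * κ * κ) ≤ ((l : ℝ) / 2) ^ 2 * ((1 - t) *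
      (1 - t * dn X 2 l (st l (ln 2 e))) * (1 - t * dn X 3 l (st l (ln 3 e)))) :=
      mul_le_mul_of_nonneg_left a2 (by positivity)
    calc ((l : ℝ) / 2) ^ 2 * κ ^ 3 = ((l : ℝ) / 2) ^ 2 * (κ * κ * κ) := by ring
      _ ≤ _ := a3
      _ = _ := by ring
  calc (cw X l (cellD l e) : ℝ) / (((l : ℝ) / 2) ^ 2 * (1 - t) *
    (1 - t * dn X 2 l (st l (ln 2 e))) * (1 - t * dn X 3 l (st l (ln 3 e))))
      ≤ ((l : ℝ) / 2) / (((l : ℝ) / 2) ^ 2 * κ ^ 3) :=
        div_le_div₀ (by positivity) hc (by positivity) hden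
    _ = 2 / ((l : ℝ) * κ ^ 3) := by
        field_simp

end Pool.Agent.NQ
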