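import Pool.Agent.NQ.UTime
import Pool.Agent.NQ.UCell

/-!
# NQ-UAvg: the average over the random times, for one configuration

The weights: `wt τ i b = if τ i < K then aw X l (τ i / M) (sb i b) else 1`. The mean is split according to the value
`k = τ i`; for `k < K` one uses `log x ≤ x - 1` and the cell sums, for `k ≥ K` the trivial bound `log m`.
-/

namespace Pool.Agent.NQ

open Finset
open Pool.Agent.PGr (Pr Ex)

/-- The weights of the sampling with times `τ`. -/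
noncomputable def wt {m M : ℕ} (X : Fin m → Fin m) (l : ℤ) (K : ℕ) (τ : Fin m → Fin M)
    (i b : Fin m) : ℝ :=
  if ((τ i : Fin M) : ℕ) < K then aw X l (((τ i : Fin M) : ℕ) / (M : ℝ)) (sb i b) else 1

private lemma ua_ite {Ω : Type*} [Fintype Ω] (p : Ω → Prop) [DecidablePred p] :
    Ex (fun ω => if p ω then (1 : ℝ) else 0) = Pr p := by
  classical
  unfold Pr
  refine Pool.Agent.PGr.Ex_congr fun ω => ?_
  by_cases h : p ω
  · rw [if_pos h, if_pos h]
  · rw [if_neg h, if_neg h]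

private lemma ua_oc {m : ℕ} (X : Fin m → Fin m) (k : Fin 4) (s : ℤ) {t : ℝ} (ht0 : 0 ≤ t)
    (ht1 : t ≤ 1) : 0 ≤ 1 - t * oc X k s := by
  unfold oc
  split_ifs
  · linarith
  · linarith

/-- the pointwise bound -/
private lemma ua_point {m : ℕ} (hm : 0 < m) {X : Fin m → Fin m} (hX : QF m X) {l : ℤ} (hl : 0 < l)
    (he : Even l) {K M : ℕ} (hKM : K < M) (τ : Fin m → Fin M) (i : Fin m) :
    Real.log (∑ b ∈ av X τ i, wt X l K τ i b) - Real.log (wt X l K τ i (X i)) ≤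
      (if K ≤ (τ i : ℕ) then Real.log m else 0) + ∑ k ∈ range K, (if (τ i : ℕ) = k then
        (∑ b ∈ av X τ i, aw X l ((k : ℝ) / M) (sb i b)) - 1 -
          Real.log (aw X l ((k : ℝ) / M) (sq X i)) else 0) := by
  have hM0 : (0 : ℝ) < M := by exact_mod_cast (Nat.zero_le K).trans_lt hKM
  by_cases h : (τ i : ℕ) < K
  · rw [if_neg (not_le.2 h), zero_add, Finset.sum_eq_single_of_mem (τ i : ℕ) (mem_range.2 h)
      (fun k _ hk => if_neg (Ne.symm hk)), if_pos rfl]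
    have hw : ∀ b, wt X l K τ i b = aw X l (((τ i : Fin M) : ℕ) / (M : ℝ)) (sb i b) := by
      intro b
      unfold wt
      rw [if_pos h]
    have ht0 : (0 : ℝ) ≤ ((τ i : Fin M) : ℕ) / (M : ℝ) := by positivity
    have ht1 : (((τ i : Fin M) : ℕ) : ℝ) / (M : ℝ) < 1 := by
      rw [div_lt_one hM0]
      exact_mod_cast (τ i).2
    rw [hw (X i), Finset.sum_congr rfl fun b _ => hw b]
    have hpos : 0 < ∑ b ∈ av X τ i, aw X l (((τ i : Fin M) : ℕ) / (M : ℝ)) (sb i b) :=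
      Finset.sum_pos' (fun b _ => aw_nonneg hX hl he ht0 ht1 _)
        ⟨X i, av_self hX τ i, aw_pos hX hl he ht0 ht1 i⟩
    have h1 := Real.log_le_sub_one_of_pos hpos
    have h2 : sb i (X i) = sq X i := rfl
    rw [h2]
    linarith
  · have hK' : K ≤ (τ i : ℕ) := not_lt.1 h
    rw [if_pos hK', Finset.sum_eq_zero (fun k hk => if_neg fun h' => ?_), add_zero]
    · have hw : ∀ b, wt X l K τ i b = 1 := by
        intro b
        unfold wt
        rw [if_neg h]
      rw [hw (X i), Finset.sum_congr rfl fun b _ => hw b, Real.log_one, sub_zero, sum_const,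
        nsmul_eq_mul, mul_one]
      have h1 : 0 < (av X τ i).card := card_pos.2 ⟨X i, av_self hX τ i⟩
      have h2 : (av X τ i).card ≤ m := by
        have := card_le_univ (av X τ i)
        rwa [Fintype.card_fin] at this
      exact Real.log_le_log (by exact_mod_cast h1) (by exact_mod_cast h2)
    · have := mem_range.1 hk
      omega

/-- probability of a large time -/
private lemma ua_large {m K M : ℕ} (hKM : K < M) (i : Fin m) :
    Ex (fun τ : Fin m → Fin M => if K ≤ (τ i : ℕ) then (1 : ℝ) else 0) = 1 - (K : ℝ) / M := by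
  have hM : 0 < M := (Nat.zero_le K).trans_lt hKM
  have : Nonempty (Fin M) := ⟨⟨0, hM⟩⟩
  have h1 : ∀ k ∈ range K, Ex (fun τ : Fin m → Fin M => if (τ i : ℕ) = k then (1 : ℝ) else 0) =
      1 / (M : ℝ) := by
    intro k hk
    have hkM : k < M := (mem_range.1 hk).trans hKM
    rw [← pr_tau (m := m) hM i ⟨k, hkM⟩, ← ua_ite]
    refine Pool.Agent.PGr.Ex_congr fun τ => ?_
    by_cases h : (τ i : ℕ) = k
    · rw [if_pos h, if_pos (Fin.ext h)]
    · rw [if_neg h, if_neg fun h' => h (by rw [h'])]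
  have h2 : Ex (fun τ : Fin m → Fin M => (if K ≤ (τ i : ℕ) then (1 : ℝ) else 0) +
      ∑ k ∈ range K, if (τ i : ℕ) = k then (1 : ℝ) else 0) = 1 := by
    refine Eq.trans (Pool.Agent.PGr.Ex_congr (g := fun _ : Fin m → Fin M => (1 : ℝ)) ?_)
      (Pool.Agent.PGr.Ex_const (Ω := Fin m → Fin M) 1)
    intro τ
    by_cases h : (τ i : ℕ) < K
    · rw [if_neg (not_le.2 h), zero_add, Finset.sum_eq_single_of_mem (τ i : ℕ) (mem_range.2 h)
        (fun k _ hk => if_neg (Ne.symm hk)), if_pos rfl]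
    · rw [if_pos (not_lt.1 h), Finset.sum_eq_zero (fun k hk => if_neg fun h' => ?_), add_zero]
      have := mem_range.1 hk
      omega
  rw [Pool.Agent.PGr.Ex_add, Pool.Agent.PGr.Ex_sum, Finset.sum_congr rfl h1, sum_const,
    card_range, nsmul_eq_mul] at h2
  have h3 : (K : ℝ) * (1 / M) = K / M := by ring
  rw [h3] at h2
  linarith

/-- the mean over the event `τ i = k` -/
private lemma ua_mean {m : ℕ} {X : Fin m → Fin m} (hX : QF m X) {l : ℤ} (hl : 0 < l)
    (he : Even l) {k M : ℕ} (hkM : k < M) (i : Fin m) (c : ℝ) :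
    Ex (fun τ : Fin m → Fin M => if (τ i : ℕ) = k then
        (∑ b ∈ av X τ i, aw X l ((k : ℝ) / M) (sb i b)) - 1 - c else 0) ≤
      (1 / (M : ℝ)) * ((∑ b : Fin m, aw X l ((k : ℝ) / M) (sb i b) *
        ((1 - (k : ℝ) / M) * (1 - (k : ℝ) / M * oc X 2 (ln 2 (sb i b))) *
          (1 - (k : ℝ) / M * oc X 3 (ln 3 (sb i b))))) + aw X l ((k : ℝ) / M) (sq X i) - 1 - c) := by
  classical
  have hM : 0 < M := (Nat.zero_le k).trans_lt hkM
  have hM0 : (0 : ℝ) < M := by exact_mod_cast hM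
  have ht0 : (0 : ℝ) ≤ (k : ℝ) / M := by positivity
  have ht1 : (k : ℝ) / M < 1 := by
    rw [div_lt_one hM0]
    exact_mod_cast hkM
  have hE : Ex (fun τ : Fin m → Fin M => if (τ i : ℕ) = k then
        (∑ b ∈ av X τ i, aw X l ((k : ℝ) / M) (sb i b)) - 1 - c else 0) =
      (∑ b : Fin m, aw X l ((k : ℝ) / M) (sb i b) *
        Pr (fun τ : Fin m → Fin M => τ i = ⟨k, hkM⟩ ∧ b ∈ av X τ i)) - (1 + c) * (1 / (M : ℝ)) := by
    rw [← pr_tau (m := m) hM i ⟨k, hkM⟩, ← ua_ite (fun τ : Fin m → Fin M => τ i = ⟨k, hkM⟩),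
      ← Pool.Agent.PGr.Ex_const_mul]
    have h1 : ∀ b : Fin m, aw X l ((k : ℝ) / M) (sb i b) *
        Pr (fun τ : Fin m → Fin M => τ i = ⟨k, hkM⟩ ∧ b ∈ av X τ i) =
        Ex (fun τ : Fin m → Fin M => aw X l ((k : ℝ) / M) (sb i b) *
          if τ i = ⟨k, hkM⟩ ∧ b ∈ av X τ i then (1 : ℝ) else 0) := by
      intro b
      rw [Pool.Agent.PGr.Ex_const_mul, ua_ite]
    rw [Finset.sum_congr rfl fun b _ => h1 b, ← Pool.Agent.PGr.Ex_sum,
      ← Pool.Agent.PGr.Ex_sub]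
    refine Pool.Agent.PGr.Ex_congr fun τ => ?_
    by_cases h : (τ i : ℕ) = k
    · have h2 : τ i = ⟨k, hkM⟩ := Fin.ext h
      rw [if_pos h, if_pos h2, mul_one]
      have h3 : ∑ b : Fin m, aw X l ((k : ℝ) / M) (sb i b) *
          (if τ i = ⟨k, hkM⟩ ∧ b ∈ av X τ i then (1 : ℝ) else 0) =
          ∑ b ∈ av X τ i, aw X l ((k : ℝ) / M) (sb i b) := by
        rw [← Finset.sum_subset (Finset.subset_univ (av X τ i))]
        · refine Finset.sum_congr rfl fun b hb => ?_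
          rw [if_pos ⟨h2, hb⟩, mul_one]
        · intro b _ hb
          rw [if_neg fun h' => hb h'.2, mul_zero]
      rw [h3]
      ring
    · have h2 : ¬ τ i = ⟨k, hkM⟩ := fun h' => h (by rw [h'])
      rw [if_neg h, if_neg h2, mul_zero, sub_zero]
      symm
      refine Finset.sum_eq_zero fun b _ => ?_
      rw [if_neg fun h' => h2 h'.1, mul_zero]
  rw [hE]
  have hb : ∀ b : Fin m, aw X l ((k : ℝ) / M) (sb i b) *
      Pr (fun τ : Fin m → Fin M => τ i = ⟨k, hkM⟩ ∧ b ∈ av X τ i) ≤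
      (1 / (M : ℝ)) * (aw X l ((k : ℝ) / M) (sb i b) *
        ((1 - (k : ℝ) / M) * (1 - (k : ℝ) / M * oc X 2 (ln 2 (sb i b))) *
          (1 - (k : ℝ) / M * oc X 3 (ln 3 (sb i b)))) +
        if b = X i then aw X l ((k : ℝ) / M) (sb i b) else 0) := by
    intro b
    have ha : 0 ≤ aw X l ((k : ℝ) / M) (sb i b) := aw_nonneg hX hl he ht0 ht1 _
    by_cases hbX : b = X i
    · rw [if_pos hbX]
      have h1 : Pr (fun τ : Fin m → Fin M => τ i = ⟨k, hkM⟩ ∧ b ∈ av X τ i) ≤ 1 / (M : ℝ) := by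
        rw [← pr_tau (m := m) hM i ⟨k, hkM⟩]
        exact Pool.Agent.PGr.Pr_mono fun τ h => h.1
      have h2 : 0 ≤ aw X l ((k : ℝ) / M) (sb i b) *
          ((1 - (k : ℝ) / M) * (1 - (k : ℝ) / M * oc X 2 (ln 2 (sb i b))) *
            (1 - (k : ℝ) / M * oc X 3 (ln 3 (sb i b)))) :=
        mul_nonneg ha (mul_nonneg (mul_nonneg (by linarith) (ua_oc X 2 _ ht0 ht1.le))
          (ua_oc X 3 _ ht0 ht1.le))
      have h3 : (0 : ℝ) ≤ 1 / (M : ℝ) := by positivity
      calc _ ≤ aw X l ((k : ℝ) / M) (sb i b) * (1 / (M : ℝ)) :=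
            mul_le_mul_of_nonneg_left h1 ha
        _ = (1 / (M : ℝ)) * (0 + aw X l ((k : ℝ) / M) (sb i b)) := by ring
        _ ≤ _ := mul_le_mul_of_nonneg_left (by linarith) h3
    · rw [if_neg hbX, add_zero, pr_av hX i b hbX ⟨k, hkM⟩]
      apply le_of_eq
      ring
  have hs := Finset.sum_le_sum fun b (_ : b ∈ (univ : Finset (Fin m))) => hb b
  rw [← Finset.mul_sum, Finset.sum_add_distrib, Finset.sum_ite_eq' univ (X i)
    (fun b => aw X l ((k : ℝ) / M) (sb i b)), if_pos (mem_univ _)] at hs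
  have h2 : sb i (X i) = sq X i := rfl
  rw [h2] at hs
  calc _ ≤ _ := sub_le_sub_right hs _
    _ = _ := by ring

theorem avg {m : ℕ} (hm : 0 < m) {X : Fin m → Fin m} (hX : QF m X) {l : ℤ} (hl : 0 < l)
    (he : Even l) {K M : ℕ} (hK : 1 ≤ K) (hKM : K < M) :
    Ex (fun τ : Fin m → Fin M => ∑ i, (Real.log (∑ b ∈ av X τ i, wt X l K τ i b) -
        Real.log (wt X l K τ i (X i)))) ≤
      2 * m / ((l : ℝ) * (1 - (K : ℝ) / M) ^ 3) + (1 - (K : ℝ) / M) * (m * Real.log m) +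
        (1 / (M : ℝ)) * ∑ k ∈ range K, ∑ i, (-Real.log (aw X l ((k : ℝ) / M) (sq X i))) := by
  have hM : 0 < M := (Nat.zero_le K).trans_lt hKM
  have hM0 : (0 : ℝ) < M := by exact_mod_cast hM
  have hK0 : (0 : ℝ) ≤ K := Nat.cast_nonneg K
  have hKM' : (K : ℝ) / M < 1 := by
    rw [div_lt_one hM0]
    exact_mod_cast hKM
  have hκ : (0 : ℝ) < 1 - (K : ℝ) / M := by linarith
  have hl0 : (0 : ℝ) < l := by exact_mod_cast hl
  have hm0 : (0 : ℝ) ≤ m := Nat.cast_nonneg m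
  have h1 := Pool.Agent.PGr.Ex_mono (f := fun τ : Fin m → Fin M =>
    ∑ i, (Real.log (∑ b ∈ av X τ i, wt X l K τ i b) - Real.log (wt X l K τ i (X i))))
    (fun τ => Finset.sum_le_sum fun i _ => ua_point hm hX hl he hKM τ i)
  refine h1.trans ?_
  rw [Pool.Agent.PGr.Ex_sum]
  have h2 : ∀ i : Fin m, Ex (fun τ : Fin m → Fin M =>
      (if K ≤ (τ i : ℕ) then Real.log m else 0) + ∑ k ∈ range K, (if (τ i : ℕ) = k then
        (∑ b ∈ av X τ i, aw X l ((k : ℝ) / M) (sb i b)) - 1 -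
          Real.log (aw X l ((k : ℝ) / M) (sq X i)) else 0)) ≤
      (1 - (K : ℝ) / M) * Real.log m + ∑ k ∈ range K, (1 / (M : ℝ)) *
        ((∑ b : Fin m, aw X l ((k : ℝ) / M) (sb i b) *
        ((1 - (k : ℝ) / M) * (1 - (k : ℝ) / M * oc X 2 (ln 2 (sb i b))) *
          (1 - (k : ℝ) / M * oc X 3 (ln 3 (sb i b))))) + aw X l ((k : ℝ) / M) (sq X i) - 1 -
            Real.log (aw X l ((k : ℝ) / M) (sq X i))) := by
    intro i
    rw [Pool.Agent.PGr.Ex_add, Pool.Agent.PGr.Ex_sum]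
    refine add_le_add ?_ (Finset.sum_le_sum fun k hk =>
      ua_mean hX hl he ((mem_range.1 hk).trans hKM) i _)
    rw [← ua_large (m := m) hKM i, ← Pool.Agent.PGr.Ex_mul_const]
    apply le_of_eq
    refine Pool.Agent.PGr.Ex_congr fun τ => ?_
    by_cases h : K ≤ (τ i : ℕ)
    · rw [if_pos h, if_pos h, one_mul]
    · rw [if_neg h, if_neg h, zero_mul]
  refine (Finset.sum_le_sum fun i _ => h2 i).trans ?_
  rw [Finset.sum_add_distrib, sum_const, card_univ, Fintype.card_fin, nsmul_eq_mul,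
    Finset.sum_comm]
  have h3 : ∀ k ∈ range K, ∑ i : Fin m, (1 / (M : ℝ)) *
        ((∑ b : Fin m, aw X l ((k : ℝ) / M) (sb i b) *
        ((1 - (k : ℝ) / M) * (1 - (k : ℝ) / M * oc X 2 (ln 2 (sb i b))) *
          (1 - (k : ℝ) / M * oc X 3 (ln 3 (sb i b))))) + aw X l ((k : ℝ) / M) (sq X i) - 1 -
            Real.log (aw X l ((k : ℝ) / M) (sq X i))) ≤
      (1 / (M : ℝ)) * (2 * m / ((l : ℝ) * (1 - (K : ℝ) / M) ^ 3)) +
        (1 / (M : ℝ)) * ∑ i, (-Real.log (aw X l ((k : ℝ) / M) (sq X i))) := by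
    intro k hk
    have hkK : (k : ℝ) ≤ K := by exact_mod_cast (mem_range.1 hk).le
    have ht0 : (0 : ℝ) ≤ (k : ℝ) / M := by positivity
    have htK : (k : ℝ) / M ≤ (K : ℝ) / M := by gcongr
    have ht1 : (k : ℝ) / M < 1 := htK.trans_lt hKM'
    have h4 := cell_sum hX hl he ht0 ht1
    have h5 : ∑ i : Fin m, aw X l ((k : ℝ) / M) (sq X i) ≤
        2 * m / ((l : ℝ) * (1 - (K : ℝ) / M) ^ 3) := by
      calc _ ≤ ∑ _i : Fin m, 2 / ((l : ℝ) * (1 - (K : ℝ) / M) ^ 3) :=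
            Finset.sum_le_sum fun i _ => aw_le hX hl he ht0 hκ (by linarith) _
        _ = _ := by
            rw [sum_const, card_univ, Fintype.card_fin, nsmul_eq_mul]
            ring
    have h6 : (0 : ℝ) ≤ 1 / (M : ℝ) := by positivity
    rw [← Finset.mul_sum, ← mul_add]
    refine mul_le_mul_of_nonneg_left ?_ h6
    rw [Finset.sum_sub_distrib, Finset.sum_sub_distrib, Finset.sum_add_distrib,
      Finset.sum_neg_distrib, sum_const, card_univ, Fintype.card_fin, nsmul_eq_mul, mul_one]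
    linarith
  have h7 := Finset.sum_le_sum h3
  rw [Finset.sum_add_distrib, sum_const, card_range, nsmul_eq_mul, ← Finset.mul_sum] at h7
  have h8 : (0 : ℝ) ≤ 2 * m / ((l : ℝ) * (1 - (K : ℝ) / M) ^ 3) := by positivity
  have h9 : (K : ℝ) * ((1 / (M : ℝ)) * (2 * m / ((l : ℝ) * (1 - (K : ℝ) / M) ^ 3))) ≤
      2 * m / ((l : ℝ) * (1 - (K : ℝ) / M) ^ 3) := by
    calc _ = ((K : ℝ) / M) * (2 * m / ((l : ℝ) * (1 - (K : ℝ) / M) ^ 3)) := by ring
      _ ≤ 1 * (2 * m / ((l : ℝ) * (1 - (K : ℝ) / M) ^ 3)) :=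
          mul_le_mul_of_nonneg_right hKM'.le h8
      _ = _ := one_mul _
  have h10 : (m : ℝ) * ((1 - (K : ℝ) / M) * Real.log m) = (1 - (K : ℝ) / M) * (m * Real.log m) := by
    ring
  rw [h10]
  linarith

end Pool.Agent.NQ
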