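import Pool.Agent.NQ.UDefs

/-!
# NQ-UBij: configurations as functions and as sets

Plan. `gr X` is the set of squares `(i, X i)`; `|gr X| = m` (distinct rows), on the board, non-attacking
by `QF` (rows differ since `i ≠ j`). `Q_eq`: `X ↦ gr X` is a bijection from `QFs m` to `Qset m`:
injective (read off the row `i`), surjective: a set `S` with `QS m S` has `m` squares in different
rows of `[0,m)`, so exactly one in each row, which defines `X` (`Finset.card_bij`).
-/

namespace Pool.Agent.NQ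

open Finset

private theorem ubij_inj {m : ℕ} (X : Fin m → Fin m) : Function.Injective (sq X) := by
  intro i j h
  have h1 : ((i : ℕ) : ℤ) = ((j : ℕ) : ℤ) := congrArg Prod.fst h
  exact Fin.ext (by exact_mod_cast h1)

private theorem ubij_card {m : ℕ} (X : Fin m → Fin m) : (gr X).card = m := by
  unfold gr
  rw [Finset.card_image_of_injective _ (ubij_inj X), Finset.card_univ, Fintype.card_fin]

theorem gr_mem {m : ℕ} {X : Fin m → Fin m} (hX : QF m X) : gr X ∈ Qset m := by
  rw [mem_Qset]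
  refine ⟨?_, ubij_card X, ?_⟩
  · intro e he
    unfold gr at he
    obtain ⟨i, _, rfl⟩ := Finset.mem_image.1 he
    rw [mem_board]
    have h1 := i.2
    have h2 := (X i).2
    unfold sq
    refine ⟨⟨?_, ?_⟩, ⟨?_, ?_⟩⟩ <;> simp only <;> omega
  · intro e he f hf hef k
    unfold gr at he hf
    obtain ⟨i, _, rfl⟩ := Finset.mem_image.1 he
    obtain ⟨j, _, rfl⟩ := Finset.mem_image.1 hf
    have hij : i ≠ j := fun h => hef (by rw [h])
    have h0 : ln 0 (sq X i) ≠ ln 0 (sq X j) := by
      rw [ln_zero, ln_zero]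
      intro h
      apply hij
      have h1 : ((i : ℕ) : ℤ) = ((j : ℕ) : ℤ) := h
      exact Fin.ext (by exact_mod_cast h1)
    have h1 : ln 1 (sq X i) ≠ ln 1 (sq X j) := by
      rw [ln_one, ln_one]
      intro h
      apply hij
      have h1 : ((X i : ℕ) : ℤ) = ((X j : ℕ) : ℤ) := h
      exact hX.1 (Fin.ext (by exact_mod_cast h1))
    have h2 : ln 2 (sq X i) ≠ ln 2 (sq X j) := fun h => hij (hX.2.1 h)
    have h3 : ln 3 (sq X i) ≠ ln 3 (sq X j) := fun h => hij (hX.2.2 h)
    fin_cases k
    · exact h0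
    · exact h1
    · exact h2
    · exact h3

private theorem ubij_gr_inj {m : ℕ} {X Y : Fin m → Fin m} (h : gr X = gr Y) : X = Y := by
  funext i
  have h1 : sq X i ∈ gr Y := by
    rw [← h]
    unfold gr
    exact Finset.mem_image_of_mem _ (Finset.mem_univ i)
  unfold gr at h1
  obtain ⟨j, _, hj⟩ := Finset.mem_image.1 h1
  have h2 : ((j : ℕ) : ℤ) = ((i : ℕ) : ℤ) := congrArg Prod.fst hj
  have h3 : ((Y j : ℕ) : ℤ) = ((X i : ℕ) : ℤ) := congrArg Prod.snd hj
  have h4 : j = i := Fin.ext (by exact_mod_cast h2)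
  rw [h4] at h3
  exact Fin.ext (by exact_mod_cast h3.symm)

private theorem ubij_surj {m : ℕ} {S : Finset (ℤ × ℤ)} (hS : QS m S) :
    ∃ X : Fin m → Fin m, QF m X ∧ gr X = S := by
  obtain ⟨hb, hc, hn⟩ := hS
  have h1 : (S.image Prod.fst).card = m := by
    rw [Finset.card_image_of_injOn, hc]
    intro e he f hf hef
    by_contra h
    exact hn e he f hf h 0 hef
  have h2 : S.image Prod.fst = Finset.Ico (0 : ℤ) m := by
    refine Finset.eq_of_subset_of_card_le ?_ ?_
    · intro x hx
      obtain ⟨e, he, rfl⟩ := Finset.mem_image.1 hx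
      exact Finset.mem_Ico.2 (mem_board.1 (hb he)).1
    · rw [h1]
      simp
  have h3 : ∀ i : Fin m, ∃ e ∈ S, e.1 = ((i : ℕ) : ℤ) := by
    intro i
    have h4 : ((i : ℕ) : ℤ) ∈ S.image Prod.fst := by
      rw [h2, Finset.mem_Ico]
      have := i.2
      omega
    obtain ⟨e, he, h⟩ := Finset.mem_image.1 h4
    exact ⟨e, he, h⟩
  choose e heS he1 using h3
  have hlt : ∀ i, (e i).2.toNat < m := by
    intro i
    have := (mem_board.1 (hb (heS i))).2
    omega
  let X : Fin m → Fin m := fun i => ⟨(e i).2.toNat, hlt i⟩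
  have hX : ∀ i, sq X i = e i := by
    intro i
    have h4 := (mem_board.1 (hb (heS i))).2
    unfold sq
    refine Prod.ext ?_ ?_
    · exact (he1 i).symm
    · show (((e i).2.toNat : ℕ) : ℤ) = (e i).2
      omega
  have hinj : ∀ (k : Fin 4) (i j : Fin m), ln k (sq X i) = ln k (sq X j) → i = j := by
    intro k i j h
    by_contra hij
    have h4 : e i ≠ e j := by
      intro h5
      have h6 := he1 i
      rw [h5, he1 j] at h6
      exact hij (Fin.ext (by exact_mod_cast h6.symm))
    rw [hX, hX] at h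
    exact hn (e i) (heS i) (e j) (heS j) h4 k h
  refine ⟨X, ⟨?_, ?_, ?_⟩, ?_⟩
  · intro i j h
    refine hinj 1 i j ?_
    rw [ln_one, ln_one]
    show ((X i : ℕ) : ℤ) = ((X j : ℕ) : ℤ)
    rw [h]
  · exact fun i j h => hinj 2 i j h
  · exact fun i j h => hinj 3 i j h
  · refine Finset.eq_of_subset_of_card_le ?_ ?_
    · intro f hf
      unfold gr at hf
      obtain ⟨i, _, rfl⟩ := Finset.mem_image.1 hf
      rw [hX]
      exact heS i
    · rw [ubij_card, hc]

theorem Q_eq (m : ℕ) : Q m = (QFs m).card := by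
  unfold Q
  symm
  refine Finset.card_bij (fun X _ => gr X) ?_ ?_ ?_
  · intro X hX
    exact gr_mem (mem_QFs.1 hX)
  · intro X _ Y _ h
    exact ubij_gr_inj h
  · intro S hS
    obtain ⟨X, hX, h⟩ := ubij_surj (mem_Qset.1 hS)
    exact ⟨X, mem_QFs.2 hX, h⟩

end Pool.Agent.NQ
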