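import Pool.Agent.NQ.UDefs

/-!
# NQ-UCelA: parity strips

`l` is even and positive. A parity strip `{s : st l s = (a, π)}` with `π ∈ {0,1}` has exactly `l/2`
elements (`s = a l + r`, `0 ≤ r < l`, `r` of given parity since `l` is even).

Plan.
* `card_st`: bijection with `range (l/2)`.
* `c1_le`: the map `i ↦ ln k (sq X i)` is injective (k = 2, 3) with values in the strip, so
  `c1 ≤ l/2`, i.e. `dn ≤ 1`. `cw_le`: the queens of the cell `D` are among those of the strip.
-/

namespace Pool.Agent.NQ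

open Finset

theorem card_st {l : ℤ} (hl : 0 < l) (he : Even l) (a : ℤ) {p : ℤ} (hp : p = 0 ∨ p = 1) :
    (((Finset.Ico (a * l) (a * l + l)).filter (fun s => s % 2 = p)).card : ℝ) = (l : ℝ) / 2 := by
  obtain ⟨h, hh⟩ := he
  have hh' : l = 2 * h := by omega
  have hA : a * l = 2 * (a * h) := by rw [hh']; ring
  have h0 : 0 ≤ h := by omega
  have e1 : (Finset.Ico (a * l) (a * l + l)).filter (fun s => s % 2 = p) =
      (Finset.Ico (a * h) (a * h + h)).image (fun j => 2 * j + p) := by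
    rw [hA]
    generalize a * h = A
    ext s
    rw [mem_filter, mem_image, mem_Ico]
    constructor
    · rintro ⟨⟨h1, h2⟩, h3⟩
      refine ⟨s / 2, ?_, ?_⟩
      · rw [mem_Ico]
        rcases hp with rfl | rfl <;> constructor <;> omega
      · omega
    · rintro ⟨j, hj, rfl⟩
      rw [mem_Ico] at hj
      rcases hp with rfl | rfl <;> refine ⟨⟨?_, ?_⟩, ?_⟩ <;> omega
  rw [e1, card_image_of_injective _ (fun x y (hxy : 2 * x + p = 2 * y + p) => by omega),
    Int.card_Ico]
  have e2 : (a * h + h - a * h).toNat = h.toNat := by congr 1; ring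
  rw [e2]
  have e3 : ((h.toNat : ℤ) : ℝ) = (h : ℝ) := by rw [Int.toNat_of_nonneg h0]
  have e4 : ((h.toNat : ℕ) : ℝ) = (h : ℝ) := by exact_mod_cast e3
  rw [e4, hh']
  push_cast
  ring

private theorem ucela_c1_le {m : ℕ} {X : Fin m → Fin m} (hX : QF m X) {l : ℤ} (hl : 0 < l)
    (he : Even l) (k : Fin 4) (hk : k = 2 ∨ k = 3) (σ : ℤ × ℤ) :
    (c1 X k l σ : ℝ) ≤ (l : ℝ) / 2 := by
  have hinj : Function.Injective (fun i => ln k (sq X i)) := by
    rcases hk with rfl | rfl
    · exact hX.2.1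
    · exact hX.2.2
  obtain ⟨a, p⟩ := σ
  by_cases hp : p = 0 ∨ p = 1
  · rw [← card_st hl he a hp]
    unfold c1
    have h1 : (univ.filter (fun i => st l (ln k (sq X i)) = (a, p))).card ≤
        ((Finset.Ico (a * l) (a * l + l)).filter (fun s => s % 2 = p)).card := by
      apply card_le_card_of_injOn (fun i => ln k (sq X i))
      · intro i hi
        rw [mem_coe, mem_filter] at hi
        rw [mem_coe, mem_filter, mem_Ico]
        have h2 := hi.2
        unfold st at h2
        rw [Prod.mk.injEq] at h2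
        have h3 := Int.emod_add_mul_ediv (ln k (sq X i)) l
        have h4 := Int.emod_nonneg (ln k (sq X i)) hl.ne'
        have h5 := Int.emod_lt_of_pos (ln k (sq X i)) hl
        rw [h2.1, mul_comm] at h3
        refine ⟨⟨?_, ?_⟩, h2.2⟩
        · show a * l ≤ ln k (sq X i)
          linarith
        · show ln k (sq X i) < a * l + l
          linarith
      · exact hinj.injOn
    exact_mod_cast h1
  · have h1 : c1 X k l (a, p) = 0 := by
      unfold c1
      rw [card_eq_zero, filter_eq_empty_iff]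
      intro i _ h2
      unfold st at h2
      rw [Prod.mk.injEq] at h2
      apply hp
      have h3 := h2.2
      omega
    rw [h1]
    have : (0 : ℝ) < l := by exact_mod_cast hl
    simp only [Nat.cast_zero]
    linarith

private theorem ucela_c1_congr {m : ℕ} {X X0 : Fin m → Fin m} {l : ℤ}
    (h : ∀ D, cw X l D = cw X0 l D) (k : Fin 4) (hk : k = 2 ∨ k = 3) (σ : ℤ × ℤ) :
    c1 X k l σ = c1 X0 k l σ := by
  classical
  obtain ⟨g, hg⟩ : ∃ g : (ℤ × ℤ) × (ℤ × ℤ) → ℤ × ℤ,
      ∀ e, st l (ln k e) = g (cellD l e) := by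
    rcases hk with rfl | rfl
    · exact ⟨fun D => D.1, fun _ => rfl⟩
    · exact ⟨fun D => D.2, fun _ => rfl⟩
  set t := (univ.image (fun i => cellD l (sq X i)) ∪ univ.image (fun i => cellD l (sq X0 i))).filter
    (fun D => g D = σ) with ht
  have key : ∀ Y : Fin m → Fin m, (∀ i, cellD l (sq Y i) ∈
      univ.image (fun i => cellD l (sq X i)) ∪ univ.image (fun i => cellD l (sq X0 i))) →
      c1 Y k l σ = ∑ D ∈ t, cw Y l D := by
    intro Y hY
    unfold c1
    rw [card_eq_sum_card_fiberwise (f := fun i => cellD l (sq Y i)) (t := t)]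
    · apply sum_congr rfl
      intro D hD
      unfold cw
      congr 1
      ext i
      rw [mem_filter, mem_filter, mem_filter]
      constructor
      · rintro ⟨⟨h1, _⟩, h2⟩
        exact ⟨h1, h2⟩
      · rintro ⟨h1, h2⟩
        refine ⟨⟨h1, ?_⟩, h2⟩
        rw [hg, h2]
        exact (mem_filter.1 hD).2
    · intro i hi
      rw [mem_coe, mem_filter] at hi
      rw [mem_coe, ht, mem_filter]
      refine ⟨hY i, ?_⟩
      rw [← hg]
      exact hi.2
  rw [key X (fun i => mem_union_left _ (mem_image_of_mem _ (mem_univ i))),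
    key X0 (fun i => mem_union_right _ (mem_image_of_mem _ (mem_univ i)))]
  exact sum_congr rfl fun D _ => h D

theorem dn_le_one {m : ℕ} {X : Fin m → Fin m} (hX : QF m X) {l : ℤ} (hl : 0 < l) (he : Even l)
    (k : Fin 4) (hk : k = 2 ∨ k = 3) (σ : ℤ × ℤ) : dn X k l σ ≤ 1 := by
  have h1 := ucela_c1_le hX hl he k hk σ
  have h2 : (0 : ℝ) < (l : ℝ) / 2 := by
    have : (0 : ℝ) < l := by exact_mod_cast hl
    linarith
  unfold dn
  rw [div_le_one h2]
  exact h1

theorem dn_nonneg {m : ℕ} (X : Fin m → Fin m) {l : ℤ} (hl : 0 < l) (k : Fin 4) (σ : ℤ × ℤ) :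
    0 ≤ dn X k l σ := by
  have h2 : (0 : ℝ) < l := by exact_mod_cast hl
  unfold dn
  positivity

theorem cw_le {m : ℕ} {X : Fin m → Fin m} (hX : QF m X) {l : ℤ} (hl : 0 < l) (he : Even l)
    (D : (ℤ × ℤ) × (ℤ × ℤ)) : (cw X l D : ℝ) ≤ (l : ℝ) / 2 := by
  refine le_trans ?_ (ucela_c1_le hX hl he 2 (Or.inl rfl) D.1)
  unfold cw c1
  have h1 : (univ.filter (fun i => cellD l (sq X i) = D)).card ≤
      (univ.filter (fun i => st l (ln 2 (sq X i)) = D.1)).card := by
    apply card_le_card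
    intro i hi
    rw [mem_filter] at hi ⊢
    refine ⟨hi.1, ?_⟩
    rw [← hi.2]
    rfl
  exact_mod_cast h1

/-- The profile determines the strip counts. -/
theorem dn_congr {m : ℕ} {X X0 : Fin m → Fin m} {l : ℤ} (h : ∀ D, cw X l D = cw X0 l D)
    (k : Fin 4) (hk : k = 2 ∨ k = 3) (σ : ℤ × ℤ) : dn X k l σ = dn X0 k l σ := by
  unfold dn
  rw [ucela_c1_congr h k hk σ]

theorem aw_congr {m : ℕ} {X X0 : Fin m → Fin m} {l : ℤ} (h : ∀ D, cw X l D = cw X0 l D) (t : ℝ)
    (e : ℤ × ℤ) : aw X l t e = aw X0 l t e := by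
  unfold aw
  rw [h, dn_congr h 2 (Or.inl rfl), dn_congr h 3 (Or.inr rfl)]

end Pool.Agent.NQ
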