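import Pool.Agent.NQ.USis

/-!
# NQ-ULog: the entropy bound from sequential sampling

Plan.
* `log_class`: `gibbs` for the uniform distribution on `C` and `μ X = ∏ r i X > 0`
  (`∑_{b ∈ A i X} a i b ≥ a i (X i) > 0`): `log |C| = ∑_{X∈C} negMulLog (1/|C|)
  ≤ (1/|C|) ∑_{X∈C} -log μ X`, and `log` of the product.
-/

namespace Pool.Agent.NQ

open Finset

theorem log_class {ι β : Type} [Fintype ι] [DecidableEq ι] [Fintype β] [DecidableEq β] (τ : ι → ℕ)
    (a : ι → β → ℝ) (ha : ∀ i b, 0 ≤ a i b) (A : ι → (ι → β) → Finset β)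
    (hloc : ∀ i X Y, (∀ j, τ j < τ i → X j = Y j) → A i X = A i Y)
    (C : Finset (ι → β)) (hne : C.Nonempty) (hC : ∀ X ∈ C, ∀ i, X i ∈ A i X)
    (hpos : ∀ X ∈ C, ∀ i, 0 < a i (X i)) :
    Real.log (C.card : ℝ) ≤ (1 / (C.card : ℝ)) *
      ∑ X ∈ C, ∑ i, (Real.log (∑ b ∈ A i X, a i b) - Real.log (a i (X i))) := by
  classical
  have hN : (0 : ℝ) < (C.card : ℝ) := by exact_mod_cast hne.card_pos
  have hS : ∀ X ∈ C, ∀ i, 0 < ∑ b ∈ A i X, a i b := by
    intro X hX i
    exact lt_of_lt_of_le (hpos X hX i)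
      (Finset.single_le_sum (f := fun b => a i b) (fun b _ => ha i b) (hC X hX i))
  have hμpos : ∀ X ∈ C, 0 < ∏ i, (a i (X i) / ∑ b ∈ A i X, a i b) := by
    intro X hX
    exact Finset.prod_pos fun i _ => div_pos (hpos X hX i) (hS X hX i)
  have hg := gibbs C (fun _ => 1 / (C.card : ℝ)) (fun X => ∏ i, (a i (X i) / ∑ b ∈ A i X, a i b))
    (fun X _ => by positivity)
    (by
      rw [Finset.sum_const, nsmul_eq_mul]
      field_simp)
    (fun X hX => (hμpos X hX).le)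
    (sis τ a ha A hloc C hC)
    (fun X hX _ => hμpos X hX)
  have h1 : ∑ _X ∈ C, Real.negMulLog (1 / (C.card : ℝ)) = Real.log (C.card : ℝ) := by
    rw [Finset.sum_const, nsmul_eq_mul, Real.negMulLog, one_div, Real.log_inv]
    field_simp
  rw [h1] at hg
  refine hg.trans (le_of_eq ?_)
  rw [Finset.mul_sum]
  refine Finset.sum_congr rfl fun X hX => ?_
  congr 1
  rw [Real.log_prod (fun i _ => (div_pos (hpos X hX i) (hS X hX i)).ne'), ← Finset.sum_neg_distrib]
  refine Finset.sum_congr rfl fun i _ => ?_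
  rw [Real.log_div (hpos X hX i).ne' (hS X hX i).ne']
  ring

end Pool.Agent.NQ
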