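import Pool.Agent.NQ.UAvg
import Pool.Agent.NQ.ULog

/-!
# NQ-UClass: the bound for a class of configurations with the same profile

Plan. For a fixed `τ : Fin m → Fin M` apply `log_class` with `τ' i = (τ i : ℕ)`,
`a i b = wt X0 l K τ i b`, `A i X = av X τ i` (local: `av X τ i` only involves the rows `j` with
`τ j < τ i`), `C` the class. So `log |C| ≤ (1/|C|) ∑_{X∈C} (∑_i ...)` for every `τ`; take the mean over
`τ` (`Ex_const`, `Ex_mono`, `Ex_const_mul`, `Ex_sum`). For `X ∈ C` the weights `wt X0` and `wt X` are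
equal (`aw_congr`), so `avg` for `X` bounds the mean by the right side for `X`, which equals the right
side for `X0` because `∑_i -log aw X l t (sq X i)` depends only on the profile: it is
`∑_{D} cw X l D * (-log (value of aw on the cell D))` (`Finset.sum_fiberwise`/`sum_comp`).
-/

namespace Pool.Agent.NQ

open Finset

private theorem sum_cell {m : ℕ} (X : Fin m → Fin m) (l : ℤ) (g : (ℤ × ℤ) × (ℤ × ℤ) → ℝ)
    (T : Finset ((ℤ × ℤ) × (ℤ × ℤ))) (hT : ∀ i, cellD l (sq X i) ∈ T) :
    ∑ i, g (cellD l (sq X i)) = ∑ D ∈ T, (cw X l D : ℝ) * g D := by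
  rw [← Finset.sum_fiberwise_of_maps_to (s := (univ : Finset (Fin m))) (t := T)
    (g := fun i => cellD l (sq X i)) (fun i _ => hT i)]
  refine Finset.sum_congr rfl fun D _ => ?_
  have h1 : ∀ i ∈ (univ : Finset (Fin m)).filter (fun i => cellD l (sq X i) = D),
      g (cellD l (sq X i)) = g D := by
    intro i hi
    rw [mem_filter] at hi
    rw [hi.2]
  rw [Finset.sum_congr rfl h1, Finset.sum_const, nsmul_eq_mul]
  rfl

/-- `∑_i -log aw` is determined by the profile. -/
theorem sum_log_aw_congr {m : ℕ} {X X0 : Fin m → Fin m} {l : ℤ} (h : ∀ D, cw X l D = cw X0 l D)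
    (t : ℝ) : ∑ i, (-Real.log (aw X l t (sq X i))) = ∑ i, (-Real.log (aw X0 l t (sq X0 i))) := by
  classical
  let g : (ℤ × ℤ) × (ℤ × ℤ) → ℝ := fun D => -Real.log ((cw X0 l D : ℝ) / (((l : ℝ) / 2) ^ 2 *
    (1 - t) * (1 - t * dn X0 2 l D.1) * (1 - t * dn X0 3 l D.2)))
  have hg : ∀ e, -Real.log (aw X0 l t e) = g (cellD l e) := fun e => rfl
  have h1 : ∀ i, -Real.log (aw X l t (sq X i)) = g (cellD l (sq X i)) := by
    intro i
    rw [aw_congr h t, hg]
  have h2 : ∀ i, -Real.log (aw X0 l t (sq X0 i)) = g (cellD l (sq X0 i)) := fun i => hg _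
  rw [Finset.sum_congr rfl fun i _ => h1 i, Finset.sum_congr rfl fun i _ => h2 i]
  set T := (univ.image fun i => cellD l (sq X i)) ∪ (univ.image fun i => cellD l (sq X0 i)) with hT
  rw [sum_cell X l g T fun i => by
      rw [hT, mem_union]
      exact Or.inl (mem_image_of_mem _ (mem_univ i)),
    sum_cell X0 l g T fun i => by
      rw [hT, mem_union]
      exact Or.inr (mem_image_of_mem _ (mem_univ i))]
  refine Finset.sum_congr rfl fun D _ => ?_
  rw [h D]

theorem class_bound {m : ℕ} (hm : 0 < m) {l : ℤ} (hl : 0 < l) (he : Even l) {K M : ℕ} (hK : 1 ≤ K)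
    (hKM : K < M) {X0 : Fin m → Fin m} (C : Finset (Fin m → Fin m)) (hne : C.Nonempty)
    (hC : ∀ X ∈ C, QF m X ∧ ∀ D, cw X l D = cw X0 l D) :
    Real.log (C.card : ℝ) ≤
      2 * m / ((l : ℝ) * (1 - (K : ℝ) / M) ^ 3) + (1 - (K : ℝ) / M) * (m * Real.log m) +
        (1 / (M : ℝ)) * ∑ k ∈ range K, ∑ i, (-Real.log (aw X0 l ((k : ℝ) / M) (sq X0 i))) := by
  classical
  have hM : 0 < M := by omega
  have hMR : (0 : ℝ) < M := by exact_mod_cast hM
  haveI : Nonempty (Fin m → Fin M) := ⟨fun _ => ⟨0, hM⟩⟩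
  have ht : ∀ (τ : Fin m → Fin M) (i : Fin m), ((τ i : Fin M) : ℕ) < K →
      0 ≤ (((τ i : Fin M) : ℕ) / (M : ℝ)) ∧ (((τ i : Fin M) : ℕ) / (M : ℝ)) < 1 := by
    intro τ i _
    refine ⟨by positivity, ?_⟩
    rw [div_lt_one hMR]
    exact_mod_cast (τ i).2
  obtain ⟨X1, hX1⟩ := hne
  have hwt : ∀ X ∈ C, ∀ (τ : Fin m → Fin M) (i b : Fin m),
      wt X0 l K τ i b = wt X l K τ i b := by
    intro X hX τ i b
    unfold wt
    rw [aw_congr (hC X hX).2]
  -- for fixed times
  have key : ∀ τ : Fin m → Fin M, Real.log (C.card : ℝ) ≤ (1 / (C.card : ℝ)) *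
      ∑ X ∈ C, ∑ i, (Real.log (∑ b ∈ av X τ i, wt X l K τ i b) -
        Real.log (wt X l K τ i (X i))) := by
    intro τ
    have h1 := log_class (fun i => ((τ i : Fin M) : ℕ)) (fun i b => wt X0 l K τ i b)
      (by
        intro i b
        change 0 ≤ wt X0 l K τ i b
        rw [hwt X1 hX1]
        unfold wt
        split_ifs with hK
        · exact aw_nonneg (hC X1 hX1).1 hl he (ht τ i hK).1 (ht τ i hK).2 _
        · exact zero_le_one)
      (fun i X => av X τ i)
      (by
        intro i X Y hXY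
        ext b
        simp only [av, mem_filter, mem_univ, true_and]
        have hs : ∀ j, τ j < τ i → sq X j = sq Y j := by
          intro j hj
          unfold sq
          rw [hXY j (by exact_mod_cast hj)]
        constructor
        · intro h j hj
          have := h j hj
          rw [hs j hj, hXY j (by exact_mod_cast hj)] at this
          exact this
        · intro h j hj
          have := h j hj
          rw [← hs j hj, ← hXY j (by exact_mod_cast hj)] at this
          exact this)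
      C ⟨X1, hX1⟩
      (fun X hX i => av_self (hC X hX).1 τ i)
      (by
        intro X hX i
        change 0 < wt X0 l K τ i (X i)
        rw [hwt X hX]
        unfold wt
        split_ifs with hK
        · exact aw_pos (hC X hX).1 hl he (ht τ i hK).1 (ht τ i hK).2 i
        · exact zero_lt_one)
    refine h1.trans (le_of_eq ?_)
    congr 1
    refine Finset.sum_congr rfl fun X hX => Finset.sum_congr rfl fun i _ => ?_
    simp only [hwt X hX]
  have hCpos : (0 : ℝ) < C.card := by
    exact_mod_cast card_pos.2 ⟨X1, hX1⟩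
  have h2 : Real.log (C.card : ℝ) ≤ Pool.Agent.PGr.Ex (fun τ : Fin m → Fin M =>
      (1 / (C.card : ℝ)) * ∑ X ∈ C, ∑ i, (Real.log (∑ b ∈ av X τ i, wt X l K τ i b) -
        Real.log (wt X l K τ i (X i)))) := by
    rw [← Pool.Agent.PGr.Ex_const (Ω := Fin m → Fin M) (Real.log (C.card : ℝ))]
    exact Pool.Agent.PGr.Ex_mono key
  rw [Pool.Agent.PGr.Ex_const_mul, Pool.Agent.PGr.Ex_sum] at h2
  set R : ℝ := 2 * m / ((l : ℝ) * (1 - (K : ℝ) / M) ^ 3) +
    (1 - (K : ℝ) / M) * (m * Real.log m) +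
        (1 / (M : ℝ)) * ∑ k ∈ range K, ∑ i, (-Real.log (aw X0 l ((k : ℝ) / M) (sq X0 i))) with hR
  have h3 : ∀ X ∈ C, Pool.Agent.PGr.Ex (fun τ : Fin m → Fin M =>
      ∑ i, (Real.log (∑ b ∈ av X τ i, wt X l K τ i b) -
        Real.log (wt X l K τ i (X i)))) ≤ R := by
    intro X hX
    have h4 := avg (M := M) hm (hC X hX).1 hl he hK hKM
    refine h4.trans (le_of_eq ?_)
    rw [hR]
    congr 2
    refine Finset.sum_congr rfl fun k _ => ?_
    exact sum_log_aw_congr (hC X hX).2 _
  have h5 := Finset.sum_le_sum h3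
  rw [Finset.sum_const, nsmul_eq_mul] at h5
  refine h2.trans ?_
  calc 1 / (C.card : ℝ) * ∑ X ∈ C, Pool.Agent.PGr.Ex (fun τ : Fin m → Fin M =>
      ∑ i, (Real.log (∑ b ∈ av X τ i, wt X l K τ i b) -
        Real.log (wt X l K τ i (X i)))) ≤ 1 / (C.card : ℝ) * (C.card * R) :=
        mul_le_mul_of_nonneg_left h5 (by positivity)
    _ = R := by field_simp

end Pool.Agent.NQ
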