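import Pool.Agent.NQ.Defs

/-!
# NQ block U: definitions

Queens configurations as functions `X : Fin m → Fin m`.
-/

namespace Pool.Agent.NQ

open Finset

/-- The square of the queen in row `i`. -/
def sq {m : ℕ} (X : Fin m → Fin m) (i : Fin m) : ℤ × ℤ := (((i : ℕ) : ℤ), ((X i : ℕ) : ℤ))

/-- The square `(i, b)`. -/
def sb {m : ℕ} (i b : Fin m) : ℤ × ℤ := (((i : ℕ) : ℤ), ((b : ℕ) : ℤ))

/-- `X` is a configuration of non-attacking queens. -/
def QF (m : ℕ) (X : Fin m → Fin m) : Prop :=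
  Function.Injective X ∧ Function.Injective (fun i => ln 2 (sq X i)) ∧
    Function.Injective (fun i => ln 3 (sq X i))

open Classical in
/-- All configurations. -/
noncomputable def QFs (m : ℕ) : Finset (Fin m → Fin m) := univ.filter (fun X => QF m X)

theorem mem_QFs {m : ℕ} {X : Fin m → Fin m} : X ∈ QFs m ↔ QF m X := by
  classical
  unfold QFs
  rw [mem_filter]
  exact ⟨fun h => h.2, fun h => ⟨mem_univ _, h⟩⟩

/-- The set of squares of a configuration. -/
def gr {m : ℕ} (X : Fin m → Fin m) : Finset (ℤ × ℤ) := univ.image (sq X)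

open Classical in
/-- Indicator that the diagonal of type `k` and number `s` is occupied. -/
noncomputable def oc {m : ℕ} (X : Fin m → Fin m) (k : Fin 4) (s : ℤ) : ℝ :=
  if ∃ j, ln k (sq X j) = s then 1 else 0

open Classical in
/-- The columns available in row `i` after the rows with smaller time. -/
noncomputable def av {m M : ℕ} (X : Fin m → Fin m) (τ : Fin m → Fin M) (i : Fin m) :
    Finset (Fin m) :=
  univ.filter (fun b => ∀ j, τ j < τ i →
    X j ≠ b ∧ ln 2 (sq X j) ≠ ln 2 (sb i b) ∧ ln 3 (sq X j) ≠ ln 3 (sb i b))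

/-- The parity strip of a diagonal. -/
def st (l : ℤ) (s : ℤ) : ℤ × ℤ := (s / l, s % 2)

/-- The parity cell of a square. -/
def cellD (l : ℤ) (e : ℤ × ℤ) : (ℤ × ℤ) × (ℤ × ℤ) := (st l (ln 2 e), st l (ln 3 e))

/-- Number of queens in the parity cell `D`. -/
def cw {m : ℕ} (X : Fin m → Fin m) (l : ℤ) (D : (ℤ × ℤ) × (ℤ × ℤ)) : ℕ :=
  (univ.filter (fun i => cellD l (sq X i) = D)).card

/-- Number of queens in the parity strip `σ` of diagonals of type `k`. -/
def c1 {m : ℕ} (X : Fin m → Fin m) (k : Fin 4) (l : ℤ) (σ : ℤ × ℤ) : ℕ :=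
  (univ.filter (fun i => st l (ln k (sq X i)) = σ)).card

/-- Density of the parity strip. -/
noncomputable def dn {m : ℕ} (X : Fin m → Fin m) (k : Fin 4) (l : ℤ) (σ : ℤ × ℤ) : ℝ :=
  (c1 X k l σ : ℝ) / ((l : ℝ) / 2)

/-- The weights used at time `t`. -/
noncomputable def aw {m : ℕ} (X : Fin m → Fin m) (l : ℤ) (t : ℝ) (e : ℤ × ℤ) : ℝ :=
  (cw X l (cellD l e) : ℝ) / (((l : ℝ) / 2) ^ 2 * (1 - t) *
    (1 - t * dn X 2 l (st l (ln 2 e))) * (1 - t * dn X 3 l (st l (ln 3 e))))

end Pool.Agent.NQ
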