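import Pool.Agent.NQ.UCell
import Pool.Agent.NQ.ARie

/-!
# NQ-UEval: evaluation of the main term

`x = 1 - (K-1)/M`. `SD X l` is the cell entropy with parity cells, `PD X k l` the diagonal part.

Plan. By definition of `aw` and positivity of all factors,
`∑_i -log aw X l t (sq X i) = SD X l + m log (1 - t) + ∑_i log (1 - t dn X 2 (σ_i)) + ∑_i log (1 - t dn X 3 (σ'_i))`,
where `SD = ∑_i log ((l/2)²/cw(cell_i)) = ∑_D cw_D log ((l/2)²/cw_D)` (sum over the image of the rows,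
`Finset.sum_fiberwise`). Grouping by strips: `∑_i log (1 - t dn(σ_i)) = ∑_σ c1_σ log (1 - t dn_σ)`,
`c1_σ = (l/2) dn_σ`. Now average over `k < K`, `t = k/M`:
* `(K/M) SD ≤ SD` since `SD ≥ 0` (`cw ≤ l/2 ≤ (l/2)²`, as `l/2 ≥ 1`);
* `m (1/M) ∑_k log (1 - k/M) ≤ -m + m x(1 - log x)` by `riemann_up` with `δ = 1` (`phi 1 = 1`);
* `(l/2) dn (1/M) ∑_k log (1 - (k/M) dn) ≤ -(l/2) phi dn + (l/2) x (1 - log x)` by `riemann_up`.
The number of parity strips of type `2` met by the queens is at most `2 ((2m-2)/l + 1)`, of type `3` at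
most `2 (2 (m-1)/l + 2)`; so `(l/2)` times the number is at most `2m + l` resp. `2m + 2l`; with `l ≤ m`
the total error is at most `(m + 3m + 4m) x (1 - log x) = 8 m x (1 - log x)`.
-/

namespace Pool.Agent.NQ

open Finset

/-- Cell entropy for parity cells. -/
noncomputable def SD {m : ℕ} (X : Fin m → Fin m) (l : ℤ) : ℝ :=
  ∑ D ∈ univ.image (fun i => cellD l (sq X i)),
    (cw X l D : ℝ) * Real.log (((l : ℝ) / 2) ^ 2 / (cw X l D : ℝ))

/-- Diagonal part for parity strips. -/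
noncomputable def PD {m : ℕ} (X : Fin m → Fin m) (k : Fin 4) (l : ℤ) : ℝ :=
  ∑ σ ∈ univ.image (fun i => st l (ln k (sq X i))), ((l : ℝ) / 2) * phi (dn X k l σ)

private theorem x_pos {K M : ℕ} (hK : 1 ≤ K) (hKM : K < M) :
    0 < 1 - ((K : ℝ) - 1) / M ∧ 1 - ((K : ℝ) - 1) / M ≤ 1 := by
  have hM : (0 : ℝ) < M := by
    have : 0 < M := by omega
    exact_mod_cast this
  have h1 : (1 : ℝ) ≤ K := by exact_mod_cast hK
  have h2 : (K : ℝ) < M := by exact_mod_cast hKM
  constructor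
  · rw [sub_pos, div_lt_one hM]
    linarith
  · have : 0 ≤ ((K : ℝ) - 1) / M := div_nonneg (by linarith) hM.le
    linarith

private theorem err_nonneg {K M : ℕ} (hK : 1 ≤ K) (hKM : K < M) :
    0 ≤ (1 - ((K : ℝ) - 1) / M) * (1 - Real.log (1 - ((K : ℝ) - 1) / M)) := by
  obtain ⟨h0, h1⟩ := x_pos hK hKM
  have h2 : Real.log (1 - ((K : ℝ) - 1) / M) ≤ 0 := Real.log_nonpos h0.le h1
  exact mul_nonneg h0.le (by linarith)

private theorem strip_part {m : ℕ} {X : Fin m → Fin m} (hX : QF m X) {l : ℤ} (hl : 0 < l)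
    (he : Even l) {K M : ℕ} (hK : 1 ≤ K) (hKM : K < M) (k : Fin 4) (hk : k = 2 ∨ k = 3) :
    (1 / (M : ℝ)) * ∑ j ∈ range K, ∑ i : Fin m,
        Real.log (1 - (j : ℝ) / M * dn X k l (st l (ln k (sq X i)))) ≤
      - PD X k l + (((l : ℝ) / 2) * ((univ.image (fun i => st l (ln k (sq X i)))).card : ℝ)) *
        ((1 - ((K : ℝ) - 1) / M) * (1 - Real.log (1 - ((K : ℝ) - 1) / M))) := by
  have hL : (0 : ℝ) < (l : ℝ) / 2 := by
    have : (0 : ℝ) < l := by exact_mod_cast hl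
    linarith
  have h1 : ∀ j : ℕ, ∑ i : Fin m, Real.log (1 - (j : ℝ) / M * dn X k l (st l (ln k (sq X i)))) =
      ∑ σ ∈ univ.image (fun i => st l (ln k (sq X i))),
        (((l : ℝ) / 2) * dn X k l σ) * Real.log (1 - (j : ℝ) / M * dn X k l σ) := by
    intro j
    rw [Finset.sum_comp (fun σ => Real.log (1 - (j : ℝ) / M * dn X k l σ))
      (fun i => st l (ln k (sq X i)))]
    refine Finset.sum_congr rfl fun σ _ => ?_
    rw [nsmul_eq_mul]
    congr 1
    unfold dn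
    rw [mul_div_cancel₀ _ hL.ne']
    rfl
  rw [Finset.sum_congr rfl fun j _ => h1 j, Finset.sum_comm, Finset.mul_sum]
  have h2 : - PD X k l + (((l : ℝ) / 2) *
        ((univ.image (fun i => st l (ln k (sq X i)))).card : ℝ)) *
        ((1 - ((K : ℝ) - 1) / M) * (1 - Real.log (1 - ((K : ℝ) - 1) / M))) =
      ∑ σ ∈ univ.image (fun i => st l (ln k (sq X i))),
        (- (((l : ℝ) / 2) * phi (dn X k l σ)) + ((l : ℝ) / 2) *
        ((1 - ((K : ℝ) - 1) / M) * (1 - Real.log (1 - ((K : ℝ) - 1) / M)))) := by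
    rw [Finset.sum_add_distrib, Finset.sum_neg_distrib, Finset.sum_const, nsmul_eq_mul]
    unfold PD
    ring
  rw [h2]
  refine Finset.sum_le_sum fun σ _ => ?_
  have h3 := riemann_up hK hKM (dn_nonneg X hl k σ) (dn_le_one hX hl he k hk σ)
  have h4 : 1 / (M : ℝ) * ∑ j ∈ range K, (((l : ℝ) / 2) * dn X k l σ) *
      Real.log (1 - (j : ℝ) / M * dn X k l σ) =
      - (((l : ℝ) / 2) * (dn X k l σ * (1 / (M : ℝ) *
        ∑ j ∈ range K, (-Real.log (1 - (j : ℝ) / M * dn X k l σ))))) := by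
    rw [← Finset.mul_sum, Finset.sum_neg_distrib]
    ring
  rw [h4]
  have h5 := mul_le_mul_of_nonneg_left h3 hL.le
  linarith

private theorem strips_card {m : ℕ} (hm : 0 < m) (X : Fin m → Fin m) {l : ℤ} (hl : 0 < l)
    (k : Fin 4) {a b : ℤ} (h : ∀ i, a ≤ ln k (sq X i) ∧ ln k (sq X i) ≤ b) :
    ((univ.image (fun i => st l (ln k (sq X i)))).card : ℤ) ≤ 2 * (b / l - a / l + 1) := by
  have hsub : univ.image (fun i => st l (ln k (sq X i))) ⊆
      Finset.Icc (a / l) (b / l) ×ˢ ({0, 1} : Finset ℤ) := by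
    intro σ hσ
    rw [mem_image] at hσ
    obtain ⟨i, -, rfl⟩ := hσ
    obtain ⟨h1, h2⟩ := h i
    rw [mem_product, mem_Icc]
    refine ⟨⟨Int.ediv_le_ediv hl h1, Int.ediv_le_ediv hl h2⟩, ?_⟩
    show ln k (sq X i) % 2 ∈ ({0, 1} : Finset ℤ)
    rw [mem_insert, mem_singleton]
    omega
  have h1 := Finset.card_le_card hsub
  rw [card_product, Int.card_Icc] at h1
  have h2 : a / l ≤ b / l := by
    obtain ⟨h3, h4⟩ := h ⟨0, hm⟩
    exact Int.ediv_le_ediv hl (h3.trans h4)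
  have h3 : ({0, 1} : Finset ℤ).card = 2 := rfl
  rw [h3] at h1
  have h4 : (((b / l + 1 - a / l).toNat * 2 : ℕ) : ℤ) = 2 * (b / l - a / l + 1) := by
    rw [Nat.cast_mul, Int.toNat_of_nonneg (by omega)]
    push_cast
    ring
  rw [← h4]
  exact_mod_cast h1

private theorem strips2 {m : ℕ} (hm : 0 < m) (X : Fin m → Fin m) {l : ℤ} (hl : 0 < l)
    (hlm : l ≤ m) :
    ((l : ℝ) / 2) * ((univ.image (fun i => st l (ln 2 (sq X i)))).card : ℝ) ≤ 3 * m := by
  have h1 := strips_card hm X hl 2 (a := 0) (b := 2 * (m : ℤ) - 2) (by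
    intro i
    have h2 := i.2
    have h3 := (X i).2
    rw [ln_two]
    unfold sq
    constructor
    · simp only
      omega
    · simp only
      omega)
  rw [Int.zero_ediv] at h1
  have h2 : l * ((2 * (m : ℤ) - 2) / l) ≤ 2 * (m : ℤ) - 2 := Int.mul_ediv_self_le hl.ne'
  have h3 : l * ((univ.image (fun i => st l (ln 2 (sq X i)))).card : ℤ) ≤ 2 * (3 * (m : ℤ)) := by
    have h4 := mul_le_mul_of_nonneg_left h1 hl.le
    have h5 : l * (2 * ((2 * (m : ℤ) - 2) / l - 0 + 1)) =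
        2 * (l * ((2 * (m : ℤ) - 2) / l)) + 2 * l := by ring
    rw [h5] at h4
    omega
  have h6 : (l : ℝ) * ((univ.image (fun i => st l (ln 2 (sq X i)))).card : ℝ) ≤
      2 * (3 * (m : ℝ)) := by exact_mod_cast h3
  linarith

private theorem strips3 {m : ℕ} (hm : 0 < m) (X : Fin m → Fin m) {l : ℤ} (hl : 0 < l)
    (hlm : l ≤ m) :
    ((l : ℝ) / 2) * ((univ.image (fun i => st l (ln 3 (sq X i)))).card : ℝ) ≤ 4 * m := by
  have h1 := strips_card hm X hl 3 (a := -((m : ℤ) - 1)) (b := (m : ℤ) - 1) (by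
    intro i
    have h2 := i.2
    have h3 := (X i).2
    rw [ln_three]
    unfold sq
    constructor
    · simp only
      omega
    · simp only
      omega)
  have h2 : l * (((m : ℤ) - 1) / l) ≤ (m : ℤ) - 1 := Int.mul_ediv_self_le hl.ne'
  have h7 : -((m : ℤ) - 1) < l * ((-((m : ℤ) - 1)) / l) + l := by
    have := Int.lt_mul_ediv_self_add (x := -((m : ℤ) - 1)) hl
    exact this
  have h3 : l * ((univ.image (fun i => st l (ln 3 (sq X i)))).card : ℤ) ≤ 2 * (4 * (m : ℤ)) := by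
    have h4 := mul_le_mul_of_nonneg_left h1 hl.le
    have h5 : l * (2 * (((m : ℤ) - 1) / l - (-((m : ℤ) - 1)) / l + 1)) =
        2 * (l * (((m : ℤ) - 1) / l)) - 2 * (l * ((-((m : ℤ) - 1)) / l)) + 2 * l := by ring
    rw [h5] at h4
    omega
  have h6 : (l : ℝ) * ((univ.image (fun i => st l (ln 3 (sq X i)))).card : ℝ) ≤
      2 * (4 * (m : ℝ)) := by exact_mod_cast h3
  linarith

private theorem cw_pos {m : ℕ} (X : Fin m → Fin m) (l : ℤ) (i : Fin m) :
    1 ≤ cw X l (cellD l (sq X i)) := by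
  unfold cw
  rw [Nat.one_le_iff_ne_zero, ← Nat.pos_iff_ne_zero, Finset.card_pos]
  exact ⟨i, by rw [mem_filter]; exact ⟨mem_univ _, rfl⟩⟩

private theorem log_aw {m : ℕ} {X : Fin m → Fin m} (hX : QF m X) {l : ℤ} (hl : 0 < l)
    (he : Even l) {t : ℝ} (ht0 : 0 ≤ t) (ht1 : t < 1) (i : Fin m) :
    -Real.log (aw X l t (sq X i)) =
      Real.log (((l : ℝ) / 2) ^ 2 / (cw X l (cellD l (sq X i)) : ℝ)) + Real.log (1 - t) +
        Real.log (1 - t * dn X 2 l (st l (ln 2 (sq X i)))) +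
        Real.log (1 - t * dn X 3 l (st l (ln 3 (sq X i)))) := by
  have hL : (0 : ℝ) < (l : ℝ) / 2 := by
    have : (0 : ℝ) < l := by exact_mod_cast hl
    linarith
  have hc : (0 : ℝ) < cw X l (cellD l (sq X i)) := by
    have := cw_pos X l i
    have h2 : 0 < cw X l (cellD l (sq X i)) := by omega
    exact_mod_cast h2
  have hd : ∀ k : Fin 4, k = 2 ∨ k = 3 → ∀ σ, 0 < 1 - t * dn X k l σ := by
    intro k hk σ
    have h1 := dn_le_one hX hl he k hk σ
    have h2 := dn_nonneg X hl k σ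
    have h3 : t * dn X k l σ ≤ t * 1 := mul_le_mul_of_nonneg_left h1 ht0
    linarith
  have h2 := hd 2 (Or.inl rfl) (st l (ln 2 (sq X i)))
  have h3 := hd 3 (Or.inr rfl) (st l (ln 3 (sq X i)))
  have h1 : 0 < 1 - t := by linarith
  unfold aw
  rw [Real.log_div hc.ne' (by positivity), Real.log_div (by positivity) hc.ne',
    Real.log_mul (by positivity) h3.ne', Real.log_mul (by positivity) h2.ne',
    Real.log_mul (by positivity) h1.ne']
  ring

private theorem SD_eq {m : ℕ} (X : Fin m → Fin m) (l : ℤ) :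
    ∑ i : Fin m, Real.log (((l : ℝ) / 2) ^ 2 / (cw X l (cellD l (sq X i)) : ℝ)) = SD X l := by
  rw [Finset.sum_comp (fun D => Real.log (((l : ℝ) / 2) ^ 2 / (cw X l D : ℝ)))
      (fun i => cellD l (sq X i))]
  unfold SD
  refine Finset.sum_congr rfl fun D _ => ?_
  rw [nsmul_eq_mul]
  rfl

private theorem SD_nonneg {m : ℕ} {X : Fin m → Fin m} (hX : QF m X) {l : ℤ} (hl : 0 < l)
    (he : Even l) : 0 ≤ SD X l := by
  rw [← SD_eq]
  refine Finset.sum_nonneg fun i _ => ?_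
  have hl2 : (2 : ℤ) ≤ l := by
    obtain ⟨a, ha⟩ := he
    omega
  have hL : (1 : ℝ) ≤ (l : ℝ) / 2 := by
    have : (2 : ℝ) ≤ l := by exact_mod_cast hl2
    linarith
  have hc : (0 : ℝ) < cw X l (cellD l (sq X i)) := by
    have := cw_pos X l i
    have h2 : 0 < cw X l (cellD l (sq X i)) := by omega
    exact_mod_cast h2
  have h1 := cw_le hX hl he (cellD l (sq X i))
  refine Real.log_nonneg ?_
  rw [le_div_iff₀ hc]
  nlinarith

theorem eval_main {m : ℕ} (hm : 0 < m) {X : Fin m → Fin m} (hX : QF m X) {l : ℤ} (hl : 0 < l)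
    (he : Even l) (hlm : l ≤ m) {K M : ℕ} (hK : 1 ≤ K) (hKM : K < M) :
    (1 / (M : ℝ)) * ∑ k ∈ range K, ∑ i, (-Real.log (aw X l ((k : ℝ) / M) (sq X i))) ≤
      SD X l - m - PD X 2 l - PD X 3 l +
        8 * m * ((1 - ((K : ℝ) - 1) / M) * (1 - Real.log (1 - ((K : ℝ) - 1) / M))) := by
  have hMn : 0 < M := by omega
  have hM : (0 : ℝ) < M := by exact_mod_cast hMn
  have hE := err_nonneg hK hKM
  have h1 : ∀ k ∈ range K, ∑ i, (-Real.log (aw X l ((k : ℝ) / M) (sq X i))) =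
      SD X l + m * Real.log (1 - (k : ℝ) / M) +
        ∑ i : Fin m, Real.log (1 - (k : ℝ) / M * dn X 2 l (st l (ln 2 (sq X i)))) +
        ∑ i : Fin m, Real.log (1 - (k : ℝ) / M * dn X 3 l (st l (ln 3 (sq X i)))) := by
    intro k hk
    rw [mem_range] at hk
    have ht0 : (0 : ℝ) ≤ (k : ℝ) / M := by positivity
    have ht1 : (k : ℝ) / M < 1 := by
      rw [div_lt_one hM]
      exact_mod_cast hk.trans hKM
    rw [Finset.sum_congr rfl fun i _ => log_aw hX hl he ht0 ht1 i, Finset.sum_add_distrib,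
      Finset.sum_add_distrib, Finset.sum_add_distrib, SD_eq, Finset.sum_const, Finset.card_univ,
      Fintype.card_fin, nsmul_eq_mul]
  rw [Finset.sum_congr rfl h1, Finset.sum_add_distrib, Finset.sum_add_distrib,
    Finset.sum_add_distrib, Finset.sum_const, Finset.card_range, nsmul_eq_mul, mul_add, mul_add,
    mul_add]
  have hA : 1 / (M : ℝ) * ((K : ℝ) * SD X l) ≤ SD X l := by
    have h2 := SD_nonneg hX hl he
    have h3 : (K : ℝ) / M ≤ 1 := by
      rw [div_le_one hM]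
      exact_mod_cast hKM.le
    have h4 : 1 / (M : ℝ) * ((K : ℝ) * SD X l) = (K : ℝ) / M * SD X l := by ring
    rw [h4]
    exact mul_le_of_le_one_left h2 h3
  have hB : 1 / (M : ℝ) * ∑ k ∈ range K, (m : ℝ) * Real.log (1 - (k : ℝ) / M) ≤
      - m + m * ((1 - ((K : ℝ) - 1) / M) * (1 - Real.log (1 - ((K : ℝ) - 1) / M))) := by
    have h2 := riemann_up hK hKM (zero_le_one) (le_refl (1 : ℝ))
    rw [phi_one] at h2
    simp only [mul_one, one_mul] at h2
    rw [Finset.sum_neg_distrib] at h2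
    have h3 : 1 / (M : ℝ) * ∑ k ∈ range K, (m : ℝ) * Real.log (1 - (k : ℝ) / M) =
        - ((m : ℝ) * (1 / (M : ℝ) * -∑ k ∈ range K, Real.log (1 - (k : ℝ) / M))) := by
      rw [← Finset.mul_sum]
      ring
    rw [h3]
    have hm0 : (0 : ℝ) ≤ m := Nat.cast_nonneg m
    have h4 := mul_le_mul_of_nonneg_left h2 hm0
    linarith
  have hC := strip_part hX hl he hK hKM 2 (Or.inl rfl)
  have hD := strip_part hX hl he hK hKM 3 (Or.inr rfl)
  have hC2 := mul_le_mul_of_nonneg_right (strips2 hm X hl hlm) hE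
  have hD2 := mul_le_mul_of_nonneg_right (strips3 hm X hl hlm) hE
  linarith

end Pool.Agent.NQ
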