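import Pool.Agent.NQ.UEval

/-!
# NQ-UMrg: merging the two parities, cells

Plan. `cellD l e = ((a, p), (b, p'))` with `p = (e.1+e.2) % 2 = (e.1-e.2) % 2 = p'` (`omega`), so each cell
`c = (a,b)` with `w_c` queens splits into two parity cells with counts `w_0 + w_1 = w_c`, and (with
`0 log = 0`) `w_0 log ((l²/4)/w_0) + w_1 log ((l²/4)/w_1) ≤ w_c log (l²/(2 w_c))` by concavity of
`negMulLog` (`(f w_0 + f w_1)/2 ≤ f((w_0+w_1)/2)`). Sum over the cells of the image
(`Finset.sum_fiberwise_of_maps_to` with the map `D ↦ (D.1.1, D.2.1)`); `cnt (gr X) l c` is the number of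
rows `i` with `cell l (sq X i) = c` (`gr X` is the injective image of the rows).
-/

namespace Pool.Agent.NQ

open Finset

private theorem key_ineq {l : ℤ} (hl : 0 < l) (w0 w1 : ℕ) :
    (w0 : ℝ) * Real.log (((l : ℝ) / 2) ^ 2 / (w0 : ℝ)) +
      (w1 : ℝ) * Real.log (((l : ℝ) / 2) ^ 2 / (w1 : ℝ)) ≤
      ((w0 + w1 : ℕ) : ℝ) * Real.log ((l : ℝ) ^ 2 / (2 * ((w0 + w1 : ℕ) : ℝ))) := by
  have hl' : (0 : ℝ) < l := by exact_mod_cast hl
  have hL : (0 : ℝ) < ((l : ℝ) / 2) ^ 2 := by positivity
  have hf : ∀ w : ℕ, (w : ℝ) * Real.log (((l : ℝ) / 2) ^ 2 / (w : ℝ)) =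
      (w : ℝ) * Real.log (((l : ℝ) / 2) ^ 2) + Real.negMulLog w := by
    intro w
    rcases Nat.eq_zero_or_pos w with h | h
    · subst h
      simp
    · have hw : (0 : ℝ) < w := by exact_mod_cast h
      rw [Real.log_div hL.ne' hw.ne']
      unfold Real.negMulLog
      ring
  rw [hf, hf]
  rcases Nat.eq_zero_or_pos (w0 + w1) with h | h
  · have h0 : w0 = 0 := by omega
    have h1 : w1 = 0 := by omega
    subst h0
    subst h1
    simp
  · have hw : (0 : ℝ) < ((w0 + w1 : ℕ) : ℝ) := by exact_mod_cast h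
    have hw0 : (w0 : ℝ) ∈ Set.Ici (0 : ℝ) := by
      rw [Set.mem_Ici]
      positivity
    have hw1 : (w1 : ℝ) ∈ Set.Ici (0 : ℝ) := by
      rw [Set.mem_Ici]
      positivity
    obtain ⟨-, hcc⟩ := Real.concaveOn_negMulLog
    have hconc := hcc hw0 hw1 (show (0 : ℝ) ≤ 1 / 2 by norm_num)
      (show (0 : ℝ) ≤ 1 / 2 by norm_num) (by norm_num)
    simp only [smul_eq_mul] at hconc
    have h2 : (1 / 2 * (w0 : ℝ) + 1 / 2 * (w1 : ℝ)) = ((w0 + w1 : ℕ) : ℝ) / 2 := by
      push_cast
      ring
    rw [h2] at hconc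
    have h3 : Real.negMulLog (((w0 + w1 : ℕ) : ℝ) / 2) =
        -(((w0 + w1 : ℕ) : ℝ) / 2) * (Real.log ((w0 + w1 : ℕ) : ℝ) - Real.log 2) := by
      unfold Real.negMulLog
      rw [Real.log_div hw.ne' (by norm_num)]
    rw [h3] at hconc
    have h4 : Real.log ((l : ℝ) ^ 2 / (2 * ((w0 + w1 : ℕ) : ℝ))) =
        Real.log (((l : ℝ) / 2) ^ 2) + Real.log 2 - Real.log ((w0 + w1 : ℕ) : ℝ) := by
      rw [← Real.log_mul hL.ne' (by norm_num), ← Real.log_div (by positivity) hw.ne']
      congr 1
      field_simp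
    rw [h4]
    push_cast at hconc ⊢
    nlinarith

theorem SD_le {m : ℕ} {X : Fin m → Fin m} (hX : QF m X) {l : ℤ} (hl : 0 < l) (he : Even l) :
    SD X l ≤ Se (gr X) l := by
  classical
  unfold SD Se
  rw [← Finset.sum_fiberwise_of_maps_to (s := univ.image (fun i => cellD l (sq X i)))
    (t := (gr X).image (cell l)) (g := fun D : (ℤ × ℤ) × (ℤ × ℤ) => (D.1.1, D.2.1))
    (fun D hD => ?_)]
  · refine Finset.sum_le_sum fun c _ => ?_
    obtain ⟨E, hE⟩ : ∃ E : ℤ → (ℤ × ℤ) × (ℤ × ℤ), E = fun p => ((c.1, p), (c.2, p)) := ⟨_, rfl⟩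
    have hcell : ∀ i : Fin m, cell l (sq X i) = c ↔
        cellD l (sq X i) = E 0 ∨ cellD l (sq X i) = E 1 := by
      intro i
      rw [hE]
      unfold cell cellD st
      simp only [ln_two, ln_three, Prod.ext_iff]
      omega
    have hne : E 0 ≠ E 1 := by
      rw [hE]
      intro h
      have h1 := congrArg (fun D : (ℤ × ℤ) × (ℤ × ℤ) => D.1.2) h
      simp at h1
    have hcnt : cnt (gr X) l c = cw X l (E 0) + cw X l (E 1) := by
      have h1 : cnt (gr X) l c = (univ.filter (fun i => cell l (sq X i) = c)).card := by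
        unfold cnt gr
        rw [Finset.filter_image, Finset.card_image_of_injective]
        intro i j hij
        have h2 : (((i : ℕ) : ℤ)) = ((j : ℕ) : ℤ) := congrArg Prod.fst hij
        exact Fin.ext (by exact_mod_cast h2)
      rw [h1]
      unfold cw
      rw [← Finset.card_union_of_disjoint]
      · congr 1
        ext i
        simp only [mem_filter, mem_univ, true_and, mem_union]
        exact hcell i
      · rw [Finset.disjoint_left]
        intro i hi hi'
        simp only [mem_filter, mem_univ, true_and] at hi hi'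
        exact hne (hi.symm.trans hi')
    have hsum : ∑ D ∈ (univ.image (fun i => cellD l (sq X i))).filter
          (fun D : (ℤ × ℤ) × (ℤ × ℤ) => (D.1.1, D.2.1) = c),
          (cw X l D : ℝ) * Real.log (((l : ℝ) / 2) ^ 2 / (cw X l D : ℝ)) =
        ∑ D ∈ ({E 0, E 1} : Finset ((ℤ × ℤ) × (ℤ × ℤ))),
          (cw X l D : ℝ) * Real.log (((l : ℝ) / 2) ^ 2 / (cw X l D : ℝ)) := by
      apply Finset.sum_subset
      · intro D hD
        rw [mem_filter, mem_image] at hD
        obtain ⟨⟨i, -, hi⟩, hD2⟩ := hD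
        have h1 : cell l (sq X i) = c := by
          rw [← hD2, ← hi]
          rfl
        rw [mem_insert, mem_singleton, ← hi]
        exact (hcell i).1 h1
      · intro D hD hD2
        have h1 : cw X l D = 0 := by
          unfold cw
          rw [Finset.card_eq_zero, Finset.filter_eq_empty_iff]
          intro i _ hi
          apply hD2
          rw [mem_filter, mem_image]
          refine ⟨⟨i, mem_univ _, hi⟩, ?_⟩
          rw [mem_insert, mem_singleton] at hD
          rcases hD with h | h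
          · rw [h, hE]
          · rw [h, hE]
        rw [h1]
        simp
    rw [hsum, Finset.sum_pair hne, hcnt]
    exact key_ineq hl _ _
  · rw [mem_image] at hD
    obtain ⟨i, -, rfl⟩ := hD
    rw [mem_image]
    exact ⟨sq X i, by unfold gr; exact mem_image_of_mem _ (mem_univ _), rfl⟩

end Pool.Agent.NQ
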