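import Pool.Agent.NQ.UEval

/-!
# NQ-UMrgP: merging the two parities, strips

Plan. Each strip `a` of sum diagonals with `w` queens splits into two parity strips `(a, 0)`, `(a, 1)` with
densities `δ_0 = w_0/(l/2)`, `δ_1 = w_1/(l/2)`, `w_0 + w_1 = w`, `(δ_0 + δ_1)/2 = w/l`, and
`(l/2)(phi δ_0 + phi δ_1) ≥ l phi (w/l)` by `phi_convex` (`δ ≤ 1` by `dn_le_one`; `phi 0 = 0` takes
care of the parity strips without queens). Sum over the strips of the image
(`Finset.sum_fiberwise_of_maps_to` with `Prod.fst`); `cs (gr X) l a` is the number of rows `i` with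
`ln 2 (sq X i) / l = a`. The same for the difference diagonals and `cd`.
-/

namespace Pool.Agent.NQ

open Finset

private theorem mp_sq_inj {m : ℕ} (X : Fin m → Fin m) : Function.Injective (sq X) := by
  intro i j h
  have h1 := congrArg Prod.fst h
  change (((i : ℕ) : ℤ)) = ((j : ℕ) : ℤ) at h1
  exact Fin.ext (by exact_mod_cast h1)

private theorem mp_card {m : ℕ} (X : Fin m → Fin m) (g : ℤ × ℤ → ℤ) (a : ℤ) :
    ((gr X).filter (fun e => g e = a)).card =
      (univ.filter (fun i => g (sq X i) = a)).card := by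
  unfold gr
  rw [filter_image, card_image_of_injective _ (mp_sq_inj X)]

private theorem mp_split {m : ℕ} (X : Fin m → Fin m) (k : Fin 4) (l a : ℤ) :
    (univ.filter (fun i => ln k (sq X i) / l = a)).card =
      c1 X k l (a, 0) + c1 X k l (a, 1) := by
  unfold c1
  rw [← card_union_of_disjoint]
  · congr 1
    ext i
    simp only [mem_union, mem_filter, mem_univ, true_and, st, Prod.mk.injEq]
    constructor
    · intro h
      rcases Int.emod_two_eq_zero_or_one (ln k (sq X i)) with h2 | h2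
      · exact Or.inl ⟨h, h2⟩
      · exact Or.inr ⟨h, h2⟩
    · rintro (h | h)
      · exact h.1
      · exact h.1
  · rw [disjoint_left]
    intro i h1 h2
    simp only [mem_filter, mem_univ, true_and, st, Prod.mk.injEq] at h1 h2
    have := h1.2.symm.trans h2.2
    exact absurd this (by norm_num)

private theorem mp_dn_zero {m : ℕ} (X : Fin m → Fin m) (k : Fin 4) (l : ℤ) (σ : ℤ × ℤ)
    (h : σ ∉ univ.image (fun i => st l (ln k (sq X i)))) : dn X k l σ = 0 := by
  unfold dn c1
  rw [filter_eq_empty_iff.mpr]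
  · simp
  · intro i _ hi
    exact h (mem_image.mpr ⟨i, mem_univ _, hi⟩)

private theorem mp_part {m : ℕ} {X : Fin m → Fin m} (hX : QF m X) {l : ℤ} (hl : 0 < l)
    (he : Even l) (k : Fin 4) (hk : k = 2 ∨ k = 3) :
    ∑ a ∈ (gr X).image (fun e => ln k e / l),
      (l : ℝ) * phi ((((gr X).filter (fun e => ln k e / l = a)).card : ℝ) / l) ≤ PD X k l := by
  have hL : (0 : ℝ) < l := by exact_mod_cast hl
  have hsub : univ.image (fun i => st l (ln k (sq X i))) ⊆
      ((gr X).image (fun e => ln k e / l)) ×ˢ ({0, 1} : Finset ℤ) := by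
    intro σ hσ
    rw [mem_image] at hσ
    obtain ⟨i, -, rfl⟩ := hσ
    rw [mem_product]
    refine ⟨mem_image.mpr ⟨sq X i, ?_, rfl⟩, ?_⟩
    · exact mem_image.mpr ⟨i, mem_univ _, rfl⟩
    · show ln k (sq X i) % 2 ∈ ({0, 1} : Finset ℤ)
      rw [mem_insert, mem_singleton]
      omega
  unfold PD
  rw [Finset.sum_subset hsub (fun σ _ hσ => by
    rw [mp_dn_zero X k l σ hσ, phi_zero, mul_zero]), sum_product]
  refine sum_le_sum fun a _ => ?_
  rw [sum_pair (by norm_num)]
  have hd0 := dn_le_one hX hl he k hk (a, 0)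
  have hd1 := dn_le_one hX hl he k hk (a, 1)
  have hcv := phi_convex
  unfold ConvexOn at hcv
  have hconv := hcv.2 (Set.mem_Iic.mpr hd0) (Set.mem_Iic.mpr hd1)
    (show (0 : ℝ) ≤ 1 / 2 by norm_num) (show (0 : ℝ) ≤ 1 / 2 by norm_num) (by norm_num)
  have hc : (((gr X).filter (fun e => ln k e / l = a)).card : ℝ) / l =
      (1 / 2 : ℝ) • dn X k l (a, 0) + (1 / 2 : ℝ) • dn X k l (a, 1) := by
    rw [mp_card X (fun e => ln k e / l) a, mp_split X k l a]
    unfold dn
    rw [smul_eq_mul, smul_eq_mul, Nat.cast_add]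
    field_simp
  rw [hc]
  have h2 := mul_le_mul_of_nonneg_left hconv hL.le
  refine h2.trans (le_of_eq ?_)
  rw [smul_eq_mul, smul_eq_mul]
  ring

theorem PD_ge {m : ℕ} {X : Fin m → Fin m} (hX : QF m X) {l : ℤ} (hl : 0 < l) (he : Even l) :
    Pd (gr X) l ≤ PD X 2 l + PD X 3 l := by
  exact add_le_add (mp_part hX hl he 2 (Or.inl rfl)) (mp_part hX hl he 3 (Or.inr rfl))

end Pool.Agent.NQ
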