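import Pool.Agent.NQ.UClass
import Pool.Agent.NQ.UMrg
import Pool.Agent.NQ.UMrgP
import Pool.Agent.NQ.UBij

/-!
# NQ-UFin: the upper bound

Plan. Profiles: the function `D ↦ cw X l D` on the finset
`DD = {((a,p),(b,p)) : 0 ≤ a ≤ (2m-2)/l, (-(m-1))/l ≤ b ≤ (m-1)/l, p ∈ {0,1}}` (cells outside have
`cw = 0`; the parities of `e.1+e.2` and `e.1-e.2` agree) with values in `{0..m}`;
`|DD| ≤ 2 (2m/l + 1)(2m/l + 2)`. By the pigeonhole principle
(`Finset.exists_lt_card_fiber_of_mul_lt_card_of_maps_to` or `Finset.card_le_mul_card_image`) there is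
a profile whose class `C ⊆ QFs m` has `Q m ≤ (m+1)^|DD| |C|`. Take `X0 ∈ C`, `S = gr X0`. Then
`log (Q m) ≤ |DD| log (m+1) + log |C|`, `class_bound`, `eval_main`, `SD_le`, `PD_ge`.
-/

namespace Pool.Agent.NQ

open Finset

/-- the possible parity cells -/
private noncomputable def DD (m : ℕ) (l : ℤ) : Finset ((ℤ × ℤ) × (ℤ × ℤ)) :=
  ((Icc (0 : ℤ) ((2 * m - 2) / l) ×ˢ Icc ((-((m : ℤ) - 1)) / l) (((m : ℤ) - 1) / l)) ×ˢ
    ({0, 1} : Finset ℤ)).image (fun x => ((x.1.1, x.2), (x.1.2, x.2)))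

private theorem cell_mem {m : ℕ} (X : Fin m → Fin m) {l : ℤ} (hl : 0 < l) (i : Fin m) :
    cellD l (sq X i) ∈ DD m l := by
  unfold DD cellD st sq
  simp only [ln_two, ln_three]
  have h1 := i.2
  have h2 := (X i).2
  rw [mem_image]
  refine ⟨(((((i : ℕ) : ℤ) + ((X i : ℕ) : ℤ)) / l, (((i : ℕ) : ℤ) - ((X i : ℕ) : ℤ)) / l),
    (((i : ℕ) : ℤ) + ((X i : ℕ) : ℤ)) % 2), ?_, ?_⟩
  · simp only [mem_product, mem_Icc, mem_insert, mem_singleton]
    refine ⟨⟨⟨?_, ?_⟩, ⟨?_, ?_⟩⟩, ?_⟩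
    · exact Int.ediv_nonneg (by omega) hl.le
    · exact Int.ediv_le_ediv hl (by omega)
    · exact Int.ediv_le_ediv hl (by omega)
    · exact Int.ediv_le_ediv hl (by omega)
    · omega
  · simp only [Prod.mk.injEq, true_and]
    omega

private theorem card_DD {m : ℕ} (hm : 0 < m) {l : ℤ} (hl : 0 < l) : ((DD m l).card : ℝ) ≤
    2 * (2 * m / (l : ℝ) + 1) * (2 * m / (l : ℝ) + 2) := by
  have hlR : (0 : ℝ) < l := by exact_mod_cast hl
  have hmR : (1 : ℝ) ≤ m := by exact_mod_cast hm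
  have h1 : (DD m l).card ≤ ((2 * (m : ℤ) - 2) / l + 1).toNat *
      (((m : ℤ) - 1) / l + 1 - (-((m : ℤ) - 1)) / l).toNat * 2 := by
    unfold DD
    refine card_image_le.trans ?_
    rw [card_product, card_product, Int.card_Icc, Int.card_Icc]
    have : ({0, 1} : Finset ℤ).card = 2 := by decide
    rw [this, sub_zero]
  have h2 : ((((2 * (m : ℤ) - 2) / l + 1).toNat : ℕ) : ℝ) ≤ 2 * m / (l : ℝ) + 1 := by
    have h3 : 0 ≤ (2 * (m : ℤ) - 2) / l := Int.ediv_nonneg (by omega) hl.le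
    have h4 : ((((2 * (m : ℤ) - 2) / l + 1).toNat : ℕ) : ℤ) = (2 * (m : ℤ) - 2) / l + 1 :=
      Int.toNat_of_nonneg (by omega)
    have h5 : ((((2 * (m : ℤ) - 2) / l + 1).toNat : ℕ) : ℝ) =
        (((2 * (m : ℤ) - 2) / l : ℤ) : ℝ) + 1 := by
      exact_mod_cast h4
    rw [h5]
    have h6 : (((2 * (m : ℤ) - 2) / l : ℤ) : ℝ) ≤ 2 * m / (l : ℝ) := by
      rw [le_div_iff₀ hlR]
      have h7 : (2 * (m : ℤ) - 2) / l * l ≤ 2 * (m : ℤ) - 2 := Int.ediv_mul_le _ hl.ne'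
      have h8 : (((2 * (m : ℤ) - 2) / l * l : ℤ) : ℝ) ≤ ((2 * (m : ℤ) - 2 : ℤ) : ℝ) := by
        exact_mod_cast h7
      push_cast at h8
      linarith
    linarith
  have h3 : (((((m : ℤ) - 1) / l + 1 - (-((m : ℤ) - 1)) / l).toNat : ℕ) : ℝ) ≤
      2 * m / (l : ℝ) + 2 := by
    have h4 : (-((m : ℤ) - 1)) / l ≤ ((m : ℤ) - 1) / l := Int.ediv_le_ediv hl (by omega)
    have h5 : (((((m : ℤ) - 1) / l + 1 - (-((m : ℤ) - 1)) / l).toNat : ℕ) : ℤ) =
        ((m : ℤ) - 1) / l + 1 - (-((m : ℤ) - 1)) / l := Int.toNat_of_nonneg (by omega)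
    have h6 : (((((m : ℤ) - 1) / l + 1 - (-((m : ℤ) - 1)) / l).toNat : ℕ) : ℝ) =
        ((((m : ℤ) - 1) / l : ℤ) : ℝ) + 1 - (((-((m : ℤ) - 1)) / l : ℤ) : ℝ) := by
      exact_mod_cast h5
    rw [h6]
    have h7 : ((((m : ℤ) - 1) / l : ℤ) : ℝ) * l ≤ m - 1 := by
      have h8 : ((m : ℤ) - 1) / l * l ≤ (m : ℤ) - 1 := Int.ediv_mul_le _ hl.ne'
      have h9 : ((((m : ℤ) - 1) / l * l : ℤ) : ℝ) ≤ (((m : ℤ) - 1 : ℤ) : ℝ) := by
        exact_mod_cast h8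
      push_cast at h9
      linarith
    have h8 : -((m : ℝ) - 1) - l ≤ (((-((m : ℤ) - 1)) / l : ℤ) : ℝ) * l := by
      have h9 : (-((m : ℤ) - 1)) < (-((m : ℤ) - 1)) / l * l + l := Int.lt_ediv_add_one_mul_self _ hl |>.trans_eq (by ring)
      have h10 : ((-((m : ℤ) - 1) : ℤ) : ℝ) ≤ (((-((m : ℤ) - 1)) / l * l + l : ℤ) : ℝ) := by
        exact_mod_cast h9.le
      push_cast at h10
      linarith
    have h9 : 2 * m / (l : ℝ) + 2 = (2 * m + 2 * l) / l := by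
      field_simp
    rw [h9, le_div_iff₀ hlR]
    nlinarith
  have h4 : (0 : ℝ) ≤ 2 * m / (l : ℝ) := by positivity
  calc ((DD m l).card : ℝ) ≤ ((((2 * (m : ℤ) - 2) / l + 1).toNat *
      (((m : ℤ) - 1) / l + 1 - (-((m : ℤ) - 1)) / l).toNat * 2 : ℕ) : ℝ) := by exact_mod_cast h1
    _ = ((((2 * (m : ℤ) - 2) / l + 1).toNat : ℕ) : ℝ) *
      (((((m : ℤ) - 1) / l + 1 - (-((m : ℤ) - 1)) / l).toNat : ℕ) : ℝ) * 2 := by push_cast; ring
    _ ≤ (2 * m / (l : ℝ) + 1) * (2 * m / (l : ℝ) + 2) * 2 := by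
      refine mul_le_mul_of_nonneg_right ?_ (by norm_num)
      exact mul_le_mul h2 h3 (Nat.cast_nonneg _) (by linarith)
    _ = _ := by ring

private theorem cw_lt_m {m : ℕ} (X : Fin m → Fin m) (l : ℤ) (D : (ℤ × ℤ) × (ℤ × ℤ)) :
    cw X l D < m + 1 := by
  unfold cw
  have := card_filter_le (univ : Finset (Fin m)) (fun i => cellD l (sq X i) = D)
  rw [card_univ, Fintype.card_fin] at this
  omega

/-- pigeonhole over the profiles -/
private theorem exists_class {m : ℕ} (hQ : 0 < Q m) {l : ℤ} (hl : 0 < l) :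
    ∃ (C : Finset (Fin m → Fin m)) (X0 : Fin m → Fin m), X0 ∈ C ∧
      (∀ X ∈ C, QF m X ∧ ∀ D, cw X l D = cw X0 l D) ∧
      Real.log (Q m) ≤ (DD m l).card * Real.log ((m : ℝ) + 1) + Real.log (C.card : ℝ) := by
  classical
  let P : (Fin m → Fin m) → (DD m l → Fin (m + 1)) := fun X D => ⟨cw X l D, cw_lt_m X l D⟩
  have hcard : ((univ : Finset (DD m l → Fin (m + 1))).card : ℝ) =
      ((m : ℝ) + 1) ^ (DD m l).card := by
    rw [card_univ, Fintype.card_fun, Fintype.card_fin, Fintype.card_coe]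
    push_cast
    rfl
  have hpos : (0 : ℝ) < ((m : ℝ) + 1) ^ (DD m l).card := by positivity
  obtain ⟨y, -, hy⟩ := exists_le_card_fiber_of_nsmul_le_card_of_maps_to
    (s := QFs m) (t := (univ : Finset (DD m l → Fin (m + 1)))) (f := P)
    (b := ((QFs m).card : ℝ) / ((m : ℝ) + 1) ^ (DD m l).card)
    (fun a _ => mem_univ _) ⟨fun _ => ⟨0, by omega⟩, mem_univ _⟩ (by
      rw [nsmul_eq_mul, hcard, mul_div_cancel₀ _ hpos.ne'])
  rw [Q_eq] at hQ ⊢
  have hQR : (0 : ℝ) < ((QFs m).card : ℝ) := by exact_mod_cast hQ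
  have hCpos : (0 : ℝ) < (((QFs m).filter (fun x => P x = y)).card : ℝ) :=
    lt_of_lt_of_le (div_pos hQR hpos) hy
  have hCne : ((QFs m).filter (fun x => P x = y)).Nonempty := by
    rw [← card_pos]
    exact_mod_cast hCpos
  obtain ⟨X0, hX0⟩ := hCne
  refine ⟨(QFs m).filter (fun x => P x = y), X0, hX0, fun X hX => ?_, ?_⟩
  · rw [mem_filter, mem_QFs] at hX hX0
    refine ⟨hX.1, fun D => ?_⟩
    by_cases hD : D ∈ DD m l
    · have h1 := congrFun (hX.2.trans hX0.2.symm) ⟨D, hD⟩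
      have h2 := congrArg Fin.val h1
      exact h2
    · have h0 : ∀ Y : Fin m → Fin m, cw Y l D = 0 := by
        intro Y
        unfold cw
        rw [card_eq_zero, filter_eq_empty_iff]
        intro i _ hi
        exact hD (hi ▸ cell_mem Y hl i)
      rw [h0, h0]
  · rw [div_le_iff₀ hpos] at hy
    have h1 := Real.log_le_log hQR hy
    rw [Real.log_mul hCpos.ne' hpos.ne', Real.log_pow] at h1
    linarith

theorem upper {m : ℕ} (hm : 0 < m) (hQ : 0 < Q m) {l : ℤ} (hl : 0 < l) (he : Even l) (hlm : l ≤ m)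
    {K M : ℕ} (hK : 1 ≤ K) (hKM : K < M) :
    ∃ S ∈ Qset m, Real.log (Q m) ≤ Psi S l - m +
      (2 * m / ((l : ℝ) * (1 - (K : ℝ) / M) ^ 3) + (1 - (K : ℝ) / M) * (m * Real.log m) +
        8 * m * ((1 - ((K : ℝ) - 1) / M) * (1 - Real.log (1 - ((K : ℝ) - 1) / M))) +
        2 * (2 * m / (l : ℝ) + 1) * (2 * m / (l : ℝ) + 2) * Real.log ((m : ℝ) + 1)) := by
  obtain ⟨C, X0, hX0, hC, hlog⟩ := exists_class hQ hl
  have hQF := (hC X0 hX0).1
  refine ⟨gr X0, gr_mem hQF, ?_⟩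
  have h1 := class_bound hm hl he hK hKM C ⟨X0, hX0⟩ hC
  have h2 := eval_main hm hQF hl he hlm hK hKM
  have h3 := SD_le hQF hl he
  have h4 := PD_ge hQF hl he
  have h5 := card_DD hm hl
  have h6 : 0 ≤ Real.log ((m : ℝ) + 1) := by
    apply Real.log_nonneg
    have : (0 : ℝ) ≤ m := Nat.cast_nonneg _
    linarith
  have h7 := mul_le_mul_of_nonneg_right h5 h6
  unfold Psi
  linarith

end Pool.Agent.NQ
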