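import Pool.Agent.NQ.GGib

/-!
# NQ-USis: sequential importance sampling

The claim is proved for all sets of coordinates closed under smaller times, by removing an element
with maximal time; the remaining factors do not depend on the value at this element.
-/

namespace Pool.Agent.NQ

open Finset

section Sis

variable {ι β : Type} [Fintype ι] [DecidableEq ι] [Fintype β] [DecidableEq β]

private noncomputable def sg (a : ι → β → ℝ) (A : ι → (ι → β) → Finset β) (i : ι) (X : ι → β) :
    ℝ := if X i ∈ A i X then a i (X i) / ∑ b ∈ A i X, a i b else 0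

private def PI (X0 : ι → β) (I : Finset ι) : Finset (ι → β) :=
  Fintype.piFinset (fun i => if i ∈ I then univ else {X0 i})

omit [DecidableEq β] in
private theorem mem_PI {X0 : ι → β} {I : Finset ι} {X : ι → β} :
    X ∈ PI X0 I ↔ ∀ i, i ∉ I → X i = X0 i := by
  unfold PI
  rw [Fintype.mem_piFinset]
  constructor
  · intro h i hi
    have h1 := h i
    rw [if_neg hi, mem_singleton] at h1
    exact h1
  · intro h i
    by_cases hi : i ∈ I
    · rw [if_pos hi]
      exact mem_univ _
    · rw [if_neg hi, mem_singleton]
      exact h i hi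

private theorem sg_nonneg {a : ι → β → ℝ} (ha : ∀ i b, 0 ≤ a i b)
    (A : ι → (ι → β) → Finset β) (i : ι) (X : ι → β) : 0 ≤ sg a A i X := by
  unfold sg
  split_ifs
  · exact div_nonneg (ha _ _) (sum_nonneg fun b _ => ha _ _)
  · exact le_rfl

private theorem sis_aux (τ : ι → ℕ) (a : ι → β → ℝ) (ha : ∀ i b, 0 ≤ a i b)
    (A : ι → (ι → β) → Finset β)
    (hloc : ∀ i X Y, (∀ j, τ j < τ i → X j = Y j) → A i X = A i Y) (X0 : ι → β) (n : ℕ) :
    ∀ I : Finset ι, I.card = n → (∀ i ∈ I, ∀ j, τ j < τ i → j ∈ I) →
      ∑ X ∈ PI X0 I, ∏ i ∈ I, sg a A i X ≤ 1 := by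
  induction n with
  | zero =>
    intro I hI _
    rw [card_eq_zero] at hI
    subst hI
    have h1 : PI X0 (∅ : Finset ι) = {X0} := by
      ext X
      rw [mem_PI, mem_singleton]
      constructor
      · intro h
        funext i
        exact h i (notMem_empty i)
      · rintro rfl i _
        rfl
    rw [h1]
    simp
  | succ n ih =>
    intro I hI hdown
    have hne : I.Nonempty := by
      rw [← card_pos]
      omega
    obtain ⟨i0, hi0, hmax⟩ := exists_max_image I τ hne
    have hcard : (I.erase i0).card = n := by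
      rw [card_erase_of_mem hi0, hI]
      rfl
    have hdown' : ∀ i ∈ I.erase i0, ∀ j, τ j < τ i → j ∈ I.erase i0 := by
      intro i hi j hj
      have hi' := mem_of_mem_erase hi
      refine mem_erase.2 ⟨?_, hdown i hi' j hj⟩
      rintro rfl
      exact absurd (hmax i hi') (by omega)
    have hih := ih (I.erase i0) hcard hdown'
    have hbij : ∑ X ∈ PI X0 I, ∏ i ∈ I, sg a A i X =
        ∑ q ∈ PI X0 (I.erase i0) ×ˢ (univ : Finset β),
          ∏ i ∈ I, sg a A i (Function.update q.1 i0 q.2) := by
      refine sum_nbij' (fun X => (Function.update X i0 (X0 i0), X i0))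
        (fun q => Function.update q.1 i0 q.2) ?_ ?_ ?_ ?_ ?_
      · intro X hX
        rw [mem_PI] at hX
        rw [mem_product]
        refine ⟨?_, mem_univ _⟩
        rw [mem_PI]
        intro i hi
        by_cases h : i = i0
        · subst h
          simp
        · simp only [Function.update_of_ne h]
          refine hX i fun h2 => hi (mem_erase.2 ⟨h, h2⟩)
      · intro q hq
        rw [mem_product, mem_PI] at hq
        rw [mem_PI]
        intro i hi
        have h : i ≠ i0 := fun h => hi (h ▸ hi0)
        rw [Function.update_of_ne h]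
        exact hq.1 i fun h2 => hi (mem_of_mem_erase h2)
      · intro X _
        simp
      · intro q hq
        rw [mem_product, mem_PI] at hq
        have h1 := hq.1 i0 (notMem_erase i0 I)
        simp only [Function.update_idem, Function.update_self, ← h1, Function.update_eq_self]
      · intro X _
        simp
    rw [hbij, sum_product]
    refine le_trans (sum_le_sum fun X hX => ?_) hih
    -- the sum over the value at `i0`
    have hA0 : ∀ b, A i0 (Function.update X i0 b) = A i0 X := by
      intro b
      refine hloc i0 _ _ fun j hj => ?_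
      have h : j ≠ i0 := by
        rintro rfl
        exact lt_irrefl _ hj
      rw [Function.update_of_ne h]
    have hg : ∀ i ∈ I.erase i0, ∀ b, sg a A i (Function.update X i0 b) = sg a A i X := by
      intro i hi b
      have h : i ≠ i0 := ne_of_mem_erase hi
      have hA : A i (Function.update X i0 b) = A i X := by
        refine hloc i _ _ fun j hj => ?_
        have h' : j ≠ i0 := by
          rintro rfl
          exact absurd (hmax i (mem_of_mem_erase hi)) (by omega)
        rw [Function.update_of_ne h']
      unfold sg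
      rw [hA, Function.update_of_ne h]
    have h1 : ∀ b, ∏ i ∈ I, sg a A i (Function.update X i0 b) =
        (if b ∈ A i0 X then a i0 b / ∑ b ∈ A i0 X, a i0 b else 0) *
          ∏ i ∈ I.erase i0, sg a A i X := by
      intro b
      rw [← mul_prod_erase I _ hi0, prod_congr rfl fun i hi => hg i hi b]
      congr 1
      unfold sg
      rw [hA0, Function.update_self]
    simp_rw [h1]
    rw [← sum_mul]
    have h2 : ∑ b, (if b ∈ A i0 X then a i0 b / ∑ b ∈ A i0 X, a i0 b else 0) ≤ 1 := by
      rw [sum_ite_mem, univ_inter, ← sum_div]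
      exact div_self_le_one _
    have h3 : 0 ≤ ∏ i ∈ I.erase i0, sg a A i X := prod_nonneg fun i _ => sg_nonneg ha A i X
    calc _ ≤ 1 * ∏ i ∈ I.erase i0, sg a A i X := mul_le_mul_of_nonneg_right h2 h3
      _ = _ := one_mul _

end Sis

theorem sis {ι β : Type} [Fintype ι] [DecidableEq ι] [Fintype β] [DecidableEq β] (τ : ι → ℕ)
    (a : ι → β → ℝ) (ha : ∀ i b, 0 ≤ a i b) (A : ι → (ι → β) → Finset β)
    (hloc : ∀ i X Y, (∀ j, τ j < τ i → X j = Y j) → A i X = A i Y)
    (C : Finset (ι → β)) (hC : ∀ X ∈ C, ∀ i, X i ∈ A i X) :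
    ∑ X ∈ C, ∏ i, (a i (X i) / ∑ b ∈ A i X, a i b) ≤ 1 := by
  rcases C.eq_empty_or_nonempty with h | ⟨X0, _⟩
  · rw [h, sum_empty]
    exact zero_le_one
  have h1 := sis_aux τ a ha A hloc X0 (univ : Finset ι).card univ rfl (fun _ _ j _ => mem_univ j)
  refine le_trans ?_ h1
  have h2 : ∑ X ∈ C, ∏ i, (a i (X i) / ∑ b ∈ A i X, a i b) = ∑ X ∈ C, ∏ i, sg a A i X := by
    refine sum_congr rfl fun X hX => prod_congr rfl fun i _ => ?_
    unfold sg
    rw [if_pos (hC X hX i)]
  rw [h2]
  refine sum_le_sum_of_subset_of_nonneg ?_ fun X _ _ => prod_nonneg fun i _ => sg_nonneg ha A i X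
  intro X _
  rw [mem_PI]
  intro i hi
  exact absurd (mem_univ i) hi

end Pool.Agent.NQ
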