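import Pool.Agent.NQ.UDefs
import Pool.Agent.PGr.PrProd

/-!
# NQ-UTime: the probability that a square is still available

The queens which block the square `(i, b)`, `b ≠ X i`, are the one in column `b` and the ones on the
two diagonals of the square, if they exist; they are different from each other and from the queen of
row `i`. The coordinates of `τ` are independent.
-/

namespace Pool.Agent.NQ

open Finset
open Pool.Agent.PGr (Pr Ex)

private theorem utime_eq {M : ℕ} (k : Fin M) : Pr (fun x : Fin M => x = k) = 1 / (M : ℝ) := by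
  rw [Pool.Agent.PGr.Pr_eq_card, Finset.filter_eq' univ k, if_pos (mem_univ k), card_singleton,
    Fintype.card_fin, Nat.cast_one]

private theorem utime_ge {M : ℕ} (k : Fin M) :
    Pr (fun x : Fin M => ¬ x < k) = 1 - (k : ℕ) / (M : ℝ) := by
  have hM : 0 < M := lt_of_le_of_lt (Nat.zero_le _) k.2
  have hM' : (M : ℝ) ≠ 0 := by exact_mod_cast hM.ne'
  rw [Pool.Agent.PGr.Pr_eq_card, Fintype.card_fin]
  have h1 : (univ.filter fun x : Fin M => x < k).card = (k : ℕ) := by
    have h2 : (univ.filter fun x : Fin M => x < k) = Finset.Iio k := by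
      ext x
      simp
    rw [h2, Fin.card_Iio]
  have h3 := Finset.card_filter_add_card_filter_not (s := (univ : Finset (Fin M)))
    fun x : Fin M => x < k
  rw [h1, card_univ, Fintype.card_fin] at h3
  have h4 : ((univ.filter fun x : Fin M => ¬ x < k).card : ℝ) = M - (k : ℕ) := by
    have h5 : (((k : ℕ) + (univ.filter fun x : Fin M => ¬ x < k).card : ℕ) : ℝ) = (M : ℝ) := by
      rw [h3]
    push_cast at h5
    linarith
  rw [h4, sub_div, div_self hM']

theorem av_self {m M : ℕ} {X : Fin m → Fin m} (hX : QF m X) (τ : Fin m → Fin M) (i : Fin m) :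
    X i ∈ av X τ i := by
  unfold av
  rw [mem_filter]
  refine ⟨mem_univ _, fun j hj => ?_⟩
  have hji : j ≠ i := by
    rintro rfl
    exact lt_irrefl _ hj
  exact ⟨fun h => hji (hX.1 h), fun h => hji (hX.2.1 h), fun h => hji (hX.2.2 h)⟩

/-- the probability for a general set of blockers -/
private theorem utime_pr {m M : ℕ} (i : Fin m) (k : Fin M) (J : Finset (Fin m)) (hi : i ∉ J) :
    Pr (fun τ : Fin m → Fin M => τ i = k ∧ ∀ j ∈ J, ¬ τ j < k) =
      (1 / (M : ℝ)) * (1 - (k : ℕ) / (M : ℝ)) ^ J.card := by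
  classical
  have : Nonempty (Fin M) := ⟨k⟩
  have h1 := Pool.Agent.PGr.Pr_pi_forall (insert i J)
    (fun (j : Fin m) (x : Fin M) => if j = i then x = k else ¬ x < k)
  rw [Finset.prod_insert hi] at h1
  have h2 : Pr (fun x : Fin M => if i = i then x = k else ¬ x < k) = 1 / (M : ℝ) := by
    simp only [if_true]
    exact utime_eq k
  have h3 : ∏ j ∈ J, Pr (fun x : Fin M => if j = i then x = k else ¬ x < k) =
      (1 - (k : ℕ) / (M : ℝ)) ^ J.card := by
    rw [← Finset.prod_const]
    refine Finset.prod_congr rfl fun j hj => ?_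
    have hji : j ≠ i := fun h => hi (h ▸ hj)
    simp only [if_neg hji]
    exact utime_ge k
  rw [h2, h3] at h1
  rw [← h1]
  congr 1
  funext τ
  apply propext
  constructor
  · rintro ⟨h4, h5⟩ j hj
    by_cases hji : j = i
    · rw [if_pos hji, hji]
      exact h4
    · rw [if_neg hji]
      exact h5 j ((Finset.mem_insert.1 hj).resolve_left hji)
  · intro h4
    refine ⟨?_, fun j hj => ?_⟩
    · have h5 := h4 i (Finset.mem_insert_self _ _)
      rwa [if_pos rfl] at h5
    · have h5 := h4 j (Finset.mem_insert_of_mem hj)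
      have hji : j ≠ i := fun h => hi (h ▸ hj)
      rwa [if_neg hji] at h5

private theorem utime_ln2 (x y : ℤ) : ln 2 (x, y) = x + y := rfl

private theorem utime_ln3 (x y : ℤ) : ln 3 (x, y) = x - y := rfl

/-- at most one queen on a diagonal -/
private theorem utime_card {m : ℕ} (f : Fin m → ℤ) (hf : Function.Injective f) (s : ℤ)
    (a : ℝ) : a ^ (univ.filter fun j => f j = s).card =
      1 - (1 - a) * (open Classical in if ∃ j, f j = s then 1 else 0) := by
  classical
  by_cases h : ∃ j, f j = s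
  · obtain ⟨j, hj⟩ := h
    have h1 : (univ.filter fun j => f j = s) = {j} := by
      ext x
      rw [mem_filter, mem_singleton]
      constructor
      · rintro ⟨_, hx⟩
        exact hf (hx.trans hj.symm)
      · rintro rfl
        exact ⟨mem_univ _, hj⟩
    rw [h1, card_singleton, if_pos ⟨j, hj⟩]
    ring
  · have h1 : (univ.filter fun j => f j = s) = ∅ := by
      rw [Finset.filter_eq_empty_iff]
      intro j _ hj
      exact h ⟨j, hj⟩
    rw [h1, card_empty, if_neg h]
    ring

theorem pr_av {m M : ℕ} {X : Fin m → Fin m} (hX : QF m X) (i b : Fin m) (hb : b ≠ X i)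
    (k : Fin M) :
    Pr (fun τ : Fin m → Fin M => τ i = k ∧ b ∈ av X τ i) =
      (1 / (M : ℝ)) * ((1 - (k : ℕ) / (M : ℝ)) * (1 - (k : ℕ) / (M : ℝ) * oc X 2 (ln 2 (sb i b))) *
        (1 - (k : ℕ) / (M : ℝ) * oc X 3 (ln 3 (sb i b)))) := by
  classical
  set A1 : Finset (Fin m) := univ.filter fun j => X j = b with hA1
  set A2 : Finset (Fin m) := univ.filter fun j => ln 2 (sq X j) = ln 2 (sb i b) with hA2
  set A3 : Finset (Fin m) := univ.filter fun j => ln 3 (sq X j) = ln 3 (sb i b) with hA3
  have m1 : ∀ j, j ∈ A1 ↔ X j = b := fun j => by rw [hA1, mem_filter]; simp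
  have m2 : ∀ j, j ∈ A2 ↔ ((j : ℕ) : ℤ) + ((X j : ℕ) : ℤ) = ((i : ℕ) : ℤ) + ((b : ℕ) : ℤ) := by
    intro j
    rw [hA2, mem_filter]
    unfold sq sb
    rw [utime_ln2, utime_ln2]
    simp
  have m3 : ∀ j, j ∈ A3 ↔ ((j : ℕ) : ℤ) - ((X j : ℕ) : ℤ) = ((i : ℕ) : ℤ) - ((b : ℕ) : ℤ) := by
    intro j
    rw [hA3, mem_filter]
    unfold sq sb
    rw [utime_ln3, utime_ln3]
    simp
  have hXb : ∀ j : Fin m, ((X j : ℕ) : ℤ) = ((b : ℕ) : ℤ) → X j = b := by
    intro j h
    exact Fin.ext (by exact_mod_cast h)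
  have hji : ∀ j : Fin m, ((j : ℕ) : ℤ) = ((i : ℕ) : ℤ) → j = i := by
    intro j h
    exact Fin.ext (by exact_mod_cast h)
  have d12 : Disjoint A1 A2 := by
    rw [Finset.disjoint_left]
    intro j h1 h2
    rw [m1] at h1
    rw [m2, h1] at h2
    have h3 := hji j (by omega)
    rw [h3] at h1
    exact hb h1.symm
  have d13 : Disjoint A1 A3 := by
    rw [Finset.disjoint_left]
    intro j h1 h2
    rw [m1] at h1
    rw [m3, h1] at h2
    have h3 := hji j (by omega)
    rw [h3] at h1
    exact hb h1.symm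
  have d23 : Disjoint A2 A3 := by
    rw [Finset.disjoint_left]
    intro j h1 h2
    rw [m2] at h1
    rw [m3] at h2
    have h3 := hji j (by omega)
    have h4 := hXb j (by omega)
    rw [h3] at h4
    exact hb h4.symm
  have hi : i ∉ A1 ∪ A2 ∪ A3 := by
    rw [Finset.mem_union, Finset.mem_union, m1, m2, m3]
    rintro ((h | h) | h)
    · exact hb h.symm
    · exact hb (hXb i (by omega)).symm
    · exact hb (hXb i (by omega)).symm
  have hcard : (A1 ∪ A2 ∪ A3).card = 1 + A2.card + A3.card := by
    rw [Finset.card_union_of_disjoint (Finset.disjoint_union_left.2 ⟨d13, d23⟩),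
      Finset.card_union_of_disjoint d12]
    have h1 : A1.card = 1 := by
      obtain ⟨r, hr⟩ := (Finite.injective_iff_surjective.1 hX.1) b
      rw [Finset.card_eq_one]
      refine ⟨r, ?_⟩
      ext j
      rw [m1, mem_singleton]
      constructor
      · intro h
        exact hX.1 (h.trans hr.symm)
      · rintro rfl
        exact hr
    rw [h1]
  have hev : (fun τ : Fin m → Fin M => τ i = k ∧ b ∈ av X τ i) =
      fun τ : Fin m → Fin M => τ i = k ∧ ∀ j ∈ A1 ∪ A2 ∪ A3, ¬ τ j < k := by
    funext τ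
    apply propext
    constructor
    · rintro ⟨h1, h2⟩
      refine ⟨h1, fun j hj hlt => ?_⟩
      unfold av at h2
      rw [mem_filter] at h2
      rw [← h1] at hlt
      obtain ⟨h3, h4, h5⟩ := h2.2 j hlt
      rw [Finset.mem_union, Finset.mem_union] at hj
      rcases hj with (hj | hj) | hj
      · exact h3 ((m1 j).1 hj)
      · rw [hA2, mem_filter] at hj
        exact h4 hj.2
      · rw [hA3, mem_filter] at hj
        exact h5 hj.2
    · rintro ⟨h1, h2⟩
      refine ⟨h1, ?_⟩
      unfold av
      rw [mem_filter]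
      refine ⟨mem_univ _, fun j hj => ?_⟩
      rw [h1] at hj
      refine ⟨fun h => ?_, fun h => ?_, fun h => ?_⟩
      · exact h2 j (Finset.mem_union_left _ (Finset.mem_union_left _ ((m1 j).2 h))) hj
      · refine h2 j (Finset.mem_union_left _ (Finset.mem_union_right _ ?_)) hj
        rw [hA2, mem_filter]
        exact ⟨mem_univ _, h⟩
      · refine h2 j (Finset.mem_union_right _ ?_) hj
        rw [hA3, mem_filter]
        exact ⟨mem_univ _, h⟩
  rw [hev, utime_pr i k _ hi, hcard, pow_add, pow_add, pow_one,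
    utime_card (fun j => ln 2 (sq X j)) hX.2.1 (ln 2 (sb i b)) (1 - (k : ℕ) / (M : ℝ)),
    utime_card (fun j => ln 3 (sq X j)) hX.2.2 (ln 3 (sb i b)) (1 - (k : ℕ) / (M : ℝ))]
  unfold oc
  ring

theorem pr_tau {m M : ℕ} (hM : 0 < M) (i : Fin m) (k : Fin M) :
    Pr (fun τ : Fin m → Fin M => τ i = k) = 1 / (M : ℝ) := by
  classical
  have h1 := utime_pr i k ∅ (Finset.notMem_empty i)
  rw [card_empty, pow_zero, mul_one] at h1
  rw [← h1]
  congr 1
  funext τ
  simp

end Pool.Agent.NQ
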